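import Mathlib

/-!
# Definitions for MP_1b0e60_al: commutator length, boundaries, the pseudo-norm `scl`
-/

open Filter Topology

namespace SclIso

/-! ## Commutator length -/

/-- `g` is a product of `k` commutators -/
def IsCommProd {G : Type*} [Group G] (k : ℕ) (g : G) : Prop :=
  ∃ a b : Fin k → G, g = (List.ofFn fun i => a i * b i * (a i)⁻¹ * (b i)⁻¹).prod

/-- commutator length -/
noncomputable def cl {G : Type*} [Group G] (g : G) : ℕ := sInf {k | IsCommProd k g}

/-- commutator length of a formal sum `g 0 + ... + g (m-1)` -/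
noncomputable def clSum {G : Type*} [Group G] {m : ℕ} (g : Fin m → G) : ℕ :=
  sInf (Set.range fun h : Fin m → G => cl (List.ofFn fun i => (h i)⁻¹ * g i * h i).prod)

/-! ## Boundaries -/

/-- real `1`-boundaries of the bar complex -/
noncomputable def B1 (G : Type*) [Group G] : Submodule ℝ (G →₀ ℝ) :=
  Submodule.span ℝ {x | ∃ g h : G,
    x = Finsupp.single h 1 - Finsupp.single (g * h) 1 + Finsupp.single g 1}

/-- the subspace `H` spanned by all `g ^ n - n g` and all `g - h g h⁻¹` -/
noncomputable def HSub (G : Type*) [Group G] : Submodule ℝ (G →₀ ℝ) :=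
  Submodule.span ℝ ({x | ∃ (g : G) (n : ℤ),
      x = Finsupp.single (g ^ n) 1 - (n : ℝ) • Finsupp.single g 1} ∪
    {x | ∃ g h : G, x = Finsupp.single g 1 - Finsupp.single (h * g * h⁻¹) 1})

/-- the chain `g 0 + ... + g (m-1)` -/
noncomputable def fsum {G : Type*} {m : ℕ} (g : Fin m → G) : G →₀ ℝ :=
  ∑ i, Finsupp.single (g i) 1

/-- `N` is the pseudo-norm `scl` on `B_1(G)`: it is a pseudo-norm on `B_1(G)`, it vanishes on `H`
(so it is a pseudo-norm on `B_1^H(G) = B_1(G) / H`), and it extends `scl`: if `g 0 * ... * g (m-1)`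
is in the commutator subgroup, then `N (g 0 + ... + g (m-1))` is the limit of
`cl (g 0 ^ n + ... + g (m-1) ^ n) / n` -/
structure IsSclOn {G : Type*} [Group G] (N : (G →₀ ℝ) → ℝ) : Prop where
  add_le : ∀ x ∈ B1 G, ∀ y ∈ B1 G, N (x + y) ≤ N x + N y
  smul : ∀ (c : ℝ), ∀ x ∈ B1 G, N (c • x) = |c| * N x
  vanish : ∀ x ∈ HSub G, N x = 0
  formal : ∀ (m : ℕ) (g : Fin m → G), (List.ofFn g).prod ∈ commutator G →
    Tendsto (fun n : ℕ => (clSum (fun i => g i ^ n) : ℝ) / n) atTop (𝓝 (N (fsum g)))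

end SclIso
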