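import Pool.Agent.H.MP_1b0e60_al.Cyc

/-!
A word with a pairing is a product of commutators.
-/

open Equiv Filter Topology

namespace SclIso

/-! ### Comparison of numbers of cycles -/

/-- if `g` is obtained from `f` by removing the points of `T`, and `T` contains no cycle of `f` -/
theorem ClPair_ncyc_le {L : Type*} [Finite L] (f g : Perm L) (T : Finset L)
    (hT : ∀ z ∈ T, g z = z) (h1 : ∀ z, z ∉ T → f.SameCycle z (g z))
    (h2 : ∀ z ∈ T, ∃ z', z' ∉ T ∧ f.SameCycle z z') : ncyc f + T.card ≤ ncyc g := by
  classical
  have hg : ∀ z, z ∉ T → g z ∉ T := by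
    intro z hz h
    have h3 := g.injective (hT _ h)
    rw [h3] at h
    exact hz h
  have hpow : ∀ (n : ℕ) z, z ∉ T → (g ^ n) z ∉ T ∧ f.SameCycle z ((g ^ n) z) := by
    intro n
    induction n with
    | zero => intro z hz; exact ⟨hz, Perm.SameCycle.refl _ _⟩
    | succ n ih =>
      intro z hz
      rw [pow_succ', Perm.mul_apply]
      exact ⟨hg _ (ih z hz).1, (ih z hz).2.trans (h1 _ (ih z hz).1)⟩
  have hrep : ∀ c : Quotient (Perm.SameCycle.setoid f), ∃ z, z ∉ T ∧ Cyc_cls f z = c := by
    intro c
    obtain ⟨z, rfl⟩ := Cyc_cls_surj f c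
    by_cases hz : z ∈ T
    · obtain ⟨z', h3, h4⟩ := h2 z hz
      exact ⟨z', h3, Cyc_cls_eq.2 h4.symm⟩
    · exact ⟨z, hz, rfl⟩
  choose r hr1 hr2 using hrep
  have hsame : ∀ z z', z ∉ T → g.SameCycle z z' → f.SameCycle z z' := by
    intro z z' hz h
    obtain ⟨n, hn⟩ := h.exists_nat_pow_eq
    rw [← hn]
    exact (hpow n z hz).2
  have hfix : ∀ (t z : L), t ∈ T → g.SameCycle t z → z = t := by
    intro t z ht h
    obtain ⟨n, hn⟩ := h.exists_nat_pow_eq
    rw [← hn]
    exact Perm.pow_apply_eq_self_of_apply_eq_self (hT t ht) n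
  let Φ : Quotient (Perm.SameCycle.setoid f) ⊕ {z // z ∈ T} →
      Quotient (Perm.SameCycle.setoid g) :=
    Sum.elim (fun c => Cyc_cls g (r c)) (fun t => Cyc_cls g t.1)
  have hΦ : Function.Injective Φ := by
    rintro (c | ⟨t, ht⟩) (c' | ⟨t', ht'⟩) h
    · have h3 : Cyc_cls g (r c) = Cyc_cls g (r c') := h
      rw [Cyc_cls_eq] at h3
      have h4 := hsame _ _ (hr1 c) h3
      rw [← Cyc_cls_eq, hr2, hr2] at h4
      rw [h4]
    · have h3 : Cyc_cls g (r c) = Cyc_cls g t' := h
      rw [Cyc_cls_eq] at h3
      have h4 := hfix _ _ ht' h3.symm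
      exact absurd (h4 ▸ ht') (hr1 c)
    · have h3 : Cyc_cls g t = Cyc_cls g (r c') := h
      rw [Cyc_cls_eq] at h3
      have h4 := hfix _ _ ht h3
      exact absurd (h4 ▸ ht) (hr1 c')
    · have h3 : Cyc_cls g t = Cyc_cls g t' := h
      rw [Cyc_cls_eq] at h3
      have h4 := hfix _ _ ht h3
      subst h4
      rfl
  have h5 := Nat.card_le_card_of_injective Φ hΦ
  rw [Nat.card_sum, Nat.card_eq_fintype_card (α := {z // z ∈ T}), Fintype.card_coe] at h5
  exact h5

theorem ClPair_invol {L : Type*} [Finite L] (π : Perm L) (h2 : ∀ x, π x ≠ x) :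
    2 * ncyc π ≤ Nat.card L := by
  classical
  have h3 : Function.Injective (fun a : Bool × Quotient (Perm.SameCycle.setoid π) =>
      if a.1 then a.2.out else π a.2.out) := by
    have key : ∀ a : Bool × Quotient (Perm.SameCycle.setoid π),
        Cyc_cls π (if a.1 then a.2.out else π a.2.out) = a.2 := by
      rintro ⟨b, c⟩
      cases b
      · have h4 : Cyc_cls π (π c.out) = Cyc_cls π c.out := by
          rw [Cyc_cls_eq]
          exact Perm.SameCycle.symm ⟨1, by rw [zpow_one]⟩
        change Cyc_cls π (π c.out) = c
        rw [h4]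
        exact Quotient.out_eq c
      · exact Quotient.out_eq c
    rintro ⟨b, c⟩ ⟨b', c'⟩ h
    have h5 : c = c' := (key ⟨b, c⟩).symm.trans ((congrArg (Cyc_cls π) h).trans (key ⟨b', c'⟩))
    subst h5
    cases b <;> cases b'
    · rfl
    · exact absurd h (h2 c.out)
    · exact absurd h.symm (h2 c.out)
    · rfl
  have h4 := Nat.card_le_card_of_injective _ h3
  rw [Nat.card_prod, Nat.card_eq_fintype_card (α := Bool), Fintype.card_bool] at h4
  exact h4

/-! ### Products of commutators -/

theorem ClPair_one {K : Type*} [Group K] : IsCommProd 0 (1 : K) :=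
  ⟨fun i => i.elim0, fun i => i.elim0, by simp⟩

theorem ClPair_conj {K : Type*} [Group K] {k : ℕ} {g : K} (h : IsCommProd k g) (c : K) :
    IsCommProd k (c * g * c⁻¹) := by
  obtain ⟨a, b, rfl⟩ := h
  refine ⟨fun i => c * a i * c⁻¹, fun i => c * b i * c⁻¹, ?_⟩
  have h3 : ∀ l : List K, c * l.prod * c⁻¹ = (l.map fun z => c * z * c⁻¹).prod := by
    intro l
    induction l with
    | nil => simp
    | cons z l ih =>
      rw [List.prod_cons, List.map_cons, List.prod_cons, ← ih]
      group
  rw [h3, List.map_ofFn]
  congr 2
  funext i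
  simp only [Function.comp]
  group

theorem ClPair_succ {K : Type*} [Group K] {k : ℕ} {g : K} (h : IsCommProd k g) (s t : K) :
    IsCommProd (k + 1) (s * t * s⁻¹ * t⁻¹ * g) := by
  obtain ⟨a, b, rfl⟩ := h
  refine ⟨Fin.cons s a, Fin.cons t b, ?_⟩
  rw [List.ofFn_succ, List.prod_cons]
  simp

/-! ### Cyclic words -/

theorem ClPair_formPerm_mid {L : Type*} [DecidableEq L] {P Q : List L} {u : L}
    (h : (P ++ u :: Q).Nodup) : (P ++ u :: Q).formPerm u = (Q ++ P).headD u := by
  have h3 : (P ++ u :: Q) ~r (u :: (Q ++ P)) := by
    have := List.isRotated_append (l := P) (l' := u :: Q)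
    rwa [List.cons_append] at this
  rw [List.formPerm_eq_of_isRotated h h3]
  have h4 : (u :: (Q ++ P)).Nodup := h3.nodup_iff.1 h
  cases h5 : Q ++ P with
  | nil => simp
  | cons r R =>
    rw [h5] at h4
    rw [List.formPerm_cons_cons, Perm.mul_apply,
      List.formPerm_apply_of_notMem (List.nodup_cons.1 h4).1, swap_apply_left]
    rfl

theorem ClPair_headD_append {L : Type*} (P Q : List L) (a : L) :
    (P ++ Q).headD a = P.headD (Q.headD a) := by
  cases P <;> rfl

theorem ClPair_headD_mem {L : Type*} {P : List L} (a : L) (h : P ≠ []) : P.headD a ∈ P := by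
  cases P with
  | nil => exact absurd rfl h
  | cons b P => exact List.mem_cons_self

theorem ClPair_dec {L : Type*} (π : L → L) (h1 : ∀ x, π (π x) = x) (h2 : ∀ x, π x ≠ x)
    (l : List L) (hl : l.Nodup) (hc : ∀ x ∈ l, π x ∈ l) :
    ∀ (n : ℕ) (A M D : List L) (x : L), M.length = n → l = A ++ x :: (M ++ π x :: D) →
      ∃ X Y, l = X ++ Y ∧ ((∃ x D, Y ++ X = x :: π x :: D) ∨
        (∃ x y B C D, Y ++ X = x :: y :: (B ++ π x :: (C ++ π y :: D)))) := by
  intro n
  induction n using Nat.strong_induction_on with
  | _ n ih =>
    intro A M D x hM hl0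
    rcases M with - | ⟨y, M⟩
    · exact ⟨A, x :: π x :: D, by simpa using hl0, Or.inl ⟨x, D ++ A, by simp⟩⟩
    · have hy : y ∈ l := by rw [hl0]; simp
      have hy' := hc y hy
      have hnd := hl
      rw [hl0] at hy' hnd
      simp only [List.mem_append, List.mem_cons, List.cons_append] at hy'
      rcases hy' with h | h | h | h | h | h
      · obtain ⟨A1, A2, rfl⟩ := List.append_of_mem h
        exact ⟨A1 ++ π y :: A2, x :: ((y :: M) ++ π x :: D), hl0,
          Or.inr ⟨x, y, M, D ++ A1, A2, by simp⟩⟩
      · exfalso
        have h3 : y = π x := by rw [← h, h1]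
        rw [h3] at hnd
        simp [List.nodup_append, List.nodup_cons] at hnd
      · exact absurd h (h2 y)
      · obtain ⟨M1, M2, rfl⟩ := List.append_of_mem h
        refine ih M1.length ?_ (A ++ [x]) M1 (M2 ++ π x :: D) y rfl ?_
        · simp only [List.length_cons, List.length_append] at hM
          omega
        · rw [hl0]; simp
      · exfalso
        have h3 : y = x := by rw [← h1 y, h, h1]
        rw [h3] at hnd
        simp [List.nodup_append, List.nodup_cons] at hnd
      · obtain ⟨D1, D2, rfl⟩ := List.append_of_mem h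
        exact ⟨A, x :: ((y :: M) ++ π x :: (D1 ++ π y :: D2)), hl0,
          Or.inr ⟨x, y, M, D1, D2 ++ A, by simp⟩⟩

/-! ### The two reductions -/

theorem ClPair_perm {L : Type*} (x y a b : L) (B C D : List L) :
    (x :: y :: (B ++ a :: (C ++ b :: D))).Perm (x :: y :: a :: b :: (C ++ (B ++ D))) := by
  refine List.Perm.cons _ (List.Perm.cons _ ?_)
  refine List.perm_middle.trans (List.Perm.cons _ ?_)
  have h3 : (B ++ (C ++ b :: D)).Perm (b :: (B ++ (C ++ D))) := by
    rw [← List.append_assoc, ← List.append_assoc]
    exact List.perm_middle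
  refine h3.trans (List.Perm.cons _ ?_)
  rw [← List.append_assoc, ← List.append_assoc]
  exact List.Perm.append_right D List.perm_append_comm

theorem ClPair_cancel {L : Type*} [DecidableEq L] (f : Perm L) (a b : L) :
    f * swap a b * swap a b = f := by
  rw [mul_assoc, swap_mul_self, mul_one]

section Red

variable {L : Type*} {π : Perm L}

theorem ClPair_rel (h1 : ∀ x, π (π x) = x) (σ : Perm L) (u : L) :
    (σ * π).SameCycle (π u) (σ u) :=
  ⟨1, by rw [zpow_one, Perm.mul_apply, h1]⟩

theorem ClPair_headD_rel {r : L → L → Prop} (hr : ∀ a, r a a) {a b : L} (h : r a b) (X : List L) :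
    r (X.headD a) (X.headD b) := by
  cases X with
  | nil => exact h
  | cons c X => exact hr c

variable [Finite L] [DecidableEq L]

/-- an adjacent pair -/
theorem ClPair_adj (h1 : ∀ x, π (π x) = x) {x : L} {D : List L}
    (hl : (x :: π x :: D).Nodup) (hD : D ≠ []) :
    ncyc ((x :: π x :: D).formPerm * π) ≤ ncyc (D.formPerm * π) := by
  have hx : x ∉ D := by
    intro h
    simp [List.nodup_cons, h] at hl
  have hpx : π x ∉ D := by
    intro h
    simp [List.nodup_cons, h] at hl
  set σ := (x :: π x :: D).formPerm with hσ
  set σ' := D.formPerm with hσ'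
  have hr : ∀ u, (σ * π).SameCycle (π u) (σ u) := ClPair_rel h1 σ
  have a2 : σ (π x) = D.headD x := by
    have := ClPair_formPerm_mid (P := [x]) (Q := D) (u := π x) (by simpa using hl)
    rw [ClPair_headD_append] at this
    exact this
  have e2 : (σ * π).SameCycle x (D.headD x) := by
    have := hr (π x)
    rwa [h1, a2] at this
  have key : ncyc (σ * π) + ({x} : Finset L).card ≤ ncyc (σ' * π * swap x (π x)) := by
    apply ClPair_ncyc_le
    · intro z hz
      rw [Finset.mem_singleton] at hz
      rw [hz, Perm.mul_apply, Perm.mul_apply, swap_apply_left, h1,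
        List.formPerm_apply_of_notMem hx]
    · intro z hz
      rw [Finset.mem_singleton] at hz
      by_cases hz2 : z = π x
      · rw [hz2, Perm.mul_apply, Perm.mul_apply, swap_apply_right,
          List.formPerm_apply_of_notMem hpx]
      · rw [Perm.mul_apply, Perm.mul_apply, swap_apply_of_ne_of_ne hz hz2]
        have h4 := hr (π z)
        rw [h1] at h4
        refine h4.trans ?_
        by_cases hu : π z ∈ D
        · obtain ⟨D1, D2, hD12⟩ := List.append_of_mem hu
          have b1 : σ (π z) = (D2 ++ (x :: π x :: D1)).headD (π z) := by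
            have := ClPair_formPerm_mid (P := x :: π x :: D1) (Q := D2) (u := π z)
              (by simpa [hD12] using hl)
            rw [← this, hσ, hD12]
            rfl
          have b2 : σ' (π z) = (D2 ++ D1).headD (π z) := by
            have := ClPair_formPerm_mid (P := D1) (Q := D2) (u := π z)
              (by rw [← hD12]; exact (List.nodup_cons.1 (List.nodup_cons.1 hl).2).2)
            rw [← this, hσ', hD12]
          rw [b1, b2]
          rcases D2 with - | ⟨d, D2⟩
          · have b3 : D.headD x = D1.headD (π z) := by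
              rw [hD12, ClPair_headD_append]
              rfl
            rw [b3] at e2
            exact e2
          · rfl
        · rw [hσ', List.formPerm_apply_of_notMem hu]
          rw [hσ, List.formPerm_apply_of_notMem]
          intro h5
          rw [List.mem_cons, List.mem_cons] at h5
          rcases h5 with h5 | h5 | h5
          · exact hz2 (by rw [← h5, h1])
          · exact hz (π.injective h5)
          · exact hu h5
    · intro z hz
      rw [Finset.mem_singleton] at hz
      refine ⟨D.headD x, ?_, by rw [hz]; exact e2⟩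
      rw [Finset.mem_singleton]
      intro h5
      exact hx (h5 ▸ ClPair_headD_mem x hD)
  have h6 := ncyc_le_mul_swap (σ' * π * swap x (π x)) x (π x)
  rw [ClPair_cancel] at h6
  rw [Finset.card_singleton] at key
  omega

/-- an interleaved pair -/
theorem ClPair_inter (h1 : ∀ x, π (π x) = x) (h2 : ∀ x, π x ≠ x) {x y : L} {B C D : List L}
    (hl : (x :: y :: (B ++ π x :: (C ++ π y :: D))).Nodup) :
    ncyc ((x :: y :: (B ++ π x :: (C ++ π y :: D))).formPerm * π) +
      (if C ++ (B ++ D) = [] then 1 else 2) ≤ ncyc ((C ++ (B ++ D)).formPerm * π) := by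
  set l := x :: y :: (B ++ π x :: (C ++ π y :: D)) with hldef
  set l' := C ++ (B ++ D) with hl'def
  have hl0 := (ClPair_perm x y (π x) (π y) B C D).nodup_iff.1 hl
  rw [← hl'def] at hl0
  simp only [List.nodup_cons, List.mem_cons, not_or] at hl0
  obtain ⟨⟨hxy, -, hxpy, hxl⟩, ⟨hypx, -, hyl⟩, ⟨hpp, hpxl⟩, hpyl, hl'n⟩ := hl0
  replace hxy : x ≠ y := hxy
  replace hxpy : x ≠ π y := hxpy
  replace hypx : y ≠ π x := hypx
  replace hpp : π x ≠ π y := hpp
  set σ := l.formPerm with hσ
  set σ' := l'.formPerm with hσ'
  have hr : ∀ u, (σ * π).SameCycle (π u) (σ u) := ClPair_rel h1 σ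
  have mid : ∀ (P Q : List L) (u : L), l = P ++ u :: Q → σ u = (Q ++ P).headD u := by
    intro P Q u h
    rw [hσ, h]
    exact ClPair_formPerm_mid (by rw [← h]; exact hl)
  have mid' : ∀ (P Q : List L) (u : L), l' = P ++ u :: Q → σ' u = (Q ++ P).headD u := by
    intro P Q u h
    rw [hσ', h]
    exact ClPair_formPerm_mid (by rw [← h]; exact hl'n)
  have a1 : σ x = y := mid [] _ x rfl
  have a2 : σ y = B.headD (π x) := by
    have := mid [x] _ y rfl
    rw [this, List.append_assoc, ClPair_headD_append]
    rfl
  have a3 : σ (π x) = C.headD (π y) := by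
    have := mid (x :: y :: B) (C ++ π y :: D) (π x) (by simp [hldef])
    rw [this, List.append_assoc, ClPair_headD_append]
    rfl
  have a4 : σ (π y) = D.headD x := by
    have := mid (x :: y :: (B ++ π x :: C)) D (π y) (by simp [hldef])
    rw [this, ClPair_headD_append]
    rfl
  have e1 : (σ * π).SameCycle (π x) y := by have := hr x; rwa [a1] at this
  have e2 : (σ * π).SameCycle (π y) (B.headD (π x)) := by have := hr y; rwa [a2] at this
  have e3 : (σ * π).SameCycle x (C.headD (π y)) := by
    have := hr (π x); rwa [a3, h1] at this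
  have e4 : (σ * π).SameCycle (π x) (D.headD x) := by
    have := hr (π y)
    rw [a4, h1] at this
    exact e1.trans this
  have hd : ∀ {a b : L}, (σ * π).SameCycle a b → ∀ X : List L,
      (σ * π).SameCycle (X.headD a) (X.headD b) := fun h X =>
    ClPair_headD_rel (fun a => Perm.SameCycle.refl _ a) h X
  -- the relations for an arbitrary last letter
  have c1 : ∀ v, (σ * π).SameCycle x v → (σ * π).SameCycle (π y) (B.headD (D.headD v)) :=
    fun v hv => e2.trans (hd (e4.trans (hd hv D)) B)
  have c2 : ∀ v, (σ * π).SameCycle (π y) v → (σ * π).SameCycle (π x) (D.headD (C.headD v)) :=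
    fun v hv => e4.trans (hd (e3.trans (hd hv C)) D)
  have c3 : ∀ v, (σ * π).SameCycle (π x) v → (σ * π).SameCycle x (C.headD (B.headD v)) :=
    fun v hv => e3.trans (hd (e2.trans (hd hv B)) C)
  -- the two successor functions
  have hss : ∀ u, u ≠ x → u ≠ π x → u ≠ y → u ≠ π y → (σ * π).SameCycle (σ u) (σ' u) := by
    intro u n1 n2 n3 n4
    by_cases hu : u ∈ l'
    · have hu2 := hu
      rw [hl'def, List.mem_append, List.mem_append] at hu2
      rcases hu2 with h | h | h
      · obtain ⟨C1, C2, hC⟩ := List.append_of_mem h
        have b1 := mid (x :: y :: (B ++ π x :: C1)) (C2 ++ π y :: D) u (by simp [hldef, hC])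
        have b2 := mid' C1 (C2 ++ (B ++ D)) u (by simp [hl'def, hC])
        rw [b1, b2]
        rcases C2 with - | ⟨c, C2⟩
        · have b3 : (σ * π).SameCycle x (C1.headD u) := by
            rw [hC, ClPair_headD_append] at e3
            exact e3
          have := c1 _ b3
          simpa only [List.nil_append, List.cons_append, List.append_assoc, ClPair_headD_append,
            List.headD_cons] using this
        · rfl
      · obtain ⟨B1, B2, hB⟩ := List.append_of_mem h
        have b1 := mid (x :: y :: B1) (B2 ++ π x :: (C ++ π y :: D)) u (by simp [hldef, hB])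
        have b2 := mid' (C ++ B1) (B2 ++ D) u (by simp [hl'def, hB])
        rw [b1, b2]
        rcases B2 with - | ⟨b, B2⟩
        · have b3 : (σ * π).SameCycle (π y) (B1.headD u) := by
            rw [hB, ClPair_headD_append] at e2
            exact e2
          have := c2 _ b3
          simpa only [List.nil_append, List.cons_append, List.append_assoc, ClPair_headD_append,
            List.headD_cons] using this
        · rfl
      · obtain ⟨D1, D2, hD⟩ := List.append_of_mem h
        have b1 := mid (x :: y :: (B ++ π x :: (C ++ π y :: D1))) D2 u (by simp [hldef, hD])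
        have b2 := mid' (C ++ (B ++ D1)) D2 u (by simp [hl'def, hD])
        rw [b1, b2]
        rcases D2 with - | ⟨d, D2⟩
        · have b3 : (σ * π).SameCycle (π x) (D1.headD u) := by
            rw [hD, ClPair_headD_append] at e4
            exact e4
          have := c3 _ b3
          simpa only [List.nil_append, List.cons_append, List.append_assoc, ClPair_headD_append,
            List.headD_cons] using this
        · rfl
    · rw [hσ', List.formPerm_apply_of_notMem hu, hσ, List.formPerm_apply_of_notMem]
      rw [hl'def, List.mem_append, List.mem_append] at hu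
      rw [hldef]
      simp only [List.mem_cons, List.mem_append]
      tauto
  set g := σ' * π * swap x (π x) * swap y (π y) with hg
  have hg_le : ncyc g ≤ ncyc (σ' * π) + 2 := by
    have h6 := ncyc_le_mul_swap (σ' * π * swap x (π x)) x (π x)
    rw [ClPair_cancel] at h6
    have h7 := ncyc_le_mul_swap (σ' * π * swap x (π x) * swap y (π y)) y (π y)
    rw [ClPair_cancel, ← hg] at h7
    omega
  have gx : g x = x := by
    rw [hg, Perm.mul_apply, swap_apply_of_ne_of_ne hxy hxpy, Perm.mul_apply, Perm.mul_apply,
      swap_apply_left, h1, List.formPerm_apply_of_notMem hxl]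
  have gpx : g (π x) = π x := by
    rw [hg, Perm.mul_apply, swap_apply_of_ne_of_ne hypx.symm hpp, Perm.mul_apply, Perm.mul_apply,
      swap_apply_right, List.formPerm_apply_of_notMem hpxl]
  have gy : g y = y := by
    rw [hg, Perm.mul_apply, swap_apply_left, Perm.mul_apply, Perm.mul_apply,
      swap_apply_of_ne_of_ne hxpy.symm hpp.symm, h1, List.formPerm_apply_of_notMem hyl]
  have gpy : g (π y) = π y := by
    rw [hg, Perm.mul_apply, swap_apply_right, Perm.mul_apply, Perm.mul_apply,
      swap_apply_of_ne_of_ne hxy.symm hypx, List.formPerm_apply_of_notMem hpyl]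
  have gz : ∀ z, z ≠ x → z ≠ π x → z ≠ y → z ≠ π y → (σ * π).SameCycle z (g z) := by
    intro z n1 n2 n3 n4
    rw [hg, Perm.mul_apply, swap_apply_of_ne_of_ne n3 n4, Perm.mul_apply, Perm.mul_apply,
      swap_apply_of_ne_of_ne n1 n2]
    have h4 := hr (π z)
    rw [h1] at h4
    refine h4.trans (hss (π z) ?_ ?_ ?_ ?_)
    · exact fun h => n2 (by rw [← h, h1])
    · exact fun h => n1 (π.injective h)
    · exact fun h => n4 (by rw [← h, h1])
    · exact fun h => n3 (π.injective h)
  by_cases hnil : l' = []
  · rw [if_pos hnil]
    rw [hl'def, List.append_eq_nil_iff, List.append_eq_nil_iff] at hnil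
    obtain ⟨rfl, rfl, rfl⟩ := hnil
    have key : ncyc (σ * π) + ({x, y, π x} : Finset L).card ≤ ncyc g := by
      apply ClPair_ncyc_le
      · intro z hz
        simp only [Finset.mem_insert, Finset.mem_singleton] at hz
        rcases hz with rfl | rfl | rfl
        · exact gx
        · exact gy
        · exact gpx
      · intro z hz
        simp only [Finset.mem_insert, Finset.mem_singleton, not_or] at hz
        by_cases hz2 : z = π y
        · rw [hz2, gpy]
        · exact gz z hz.1 hz.2.2 hz.2.1 hz2
      · intro z hz
        refine ⟨π y, ?_, ?_⟩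
        · simp only [Finset.mem_insert, Finset.mem_singleton, not_or]
          exact ⟨hxpy.symm, h2 y, hpp.symm⟩
        · simp only [Finset.mem_insert, Finset.mem_singleton] at hz
          rcases hz with rfl | rfl | rfl
          · exact e3
          · exact e1.symm.trans e2.symm
          · exact e2.symm
    have hc : ({x, y, π x} : Finset L).card = 3 := by
      rw [Finset.card_insert_of_notMem, Finset.card_insert_of_notMem, Finset.card_singleton]
      · simpa using hypx
      · simp only [Finset.mem_insert, Finset.mem_singleton, not_or]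
        exact ⟨hxy, (h2 x).symm⟩
    omega
  · rw [if_neg hnil]
    have key : ncyc (σ * π) + ({x, y, π x, π y} : Finset L).card ≤ ncyc g := by
      apply ClPair_ncyc_le
      · intro z hz
        simp only [Finset.mem_insert, Finset.mem_singleton] at hz
        rcases hz with rfl | rfl | rfl | rfl
        · exact gx
        · exact gy
        · exact gpx
        · exact gpy
      · intro z hz
        simp only [Finset.mem_insert, Finset.mem_singleton, not_or] at hz
        exact gz z hz.1 hz.2.2.1 hz.2.1 hz.2.2.2
      · intro z hz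
        have hmem : ∀ u, u ∈ l' → u ∉ ({x, y, π x, π y} : Finset L) := by
          intro u hu h
          simp only [Finset.mem_insert, Finset.mem_singleton] at h
          rcases h with rfl | rfl | rfl | rfl
          · exact hxl hu
          · exact hyl hu
          · exact hpxl hu
          · exact hpyl hu
        have m1 : C.headD (B.headD (D.headD x)) ∈ l' := by
          have := ClPair_headD_mem x hnil
          rwa [hl'def, ClPair_headD_append, ClPair_headD_append] at this
        have m2 : D.headD (C.headD (B.headD (π x))) ∈ l' := by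
          have h8 : D ++ (C ++ B) ≠ [] := by
            intro h
            apply hnil
            simp only [List.append_eq_nil_iff] at h
            simp [hl'def, h.1, h.2.1, h.2.2]
          have := ClPair_headD_mem (π x) h8
          rw [ClPair_headD_append, ClPair_headD_append] at this
          simp only [List.mem_append] at this
          simp only [hl'def, List.mem_append]
          tauto
        have m3 : B.headD (D.headD (C.headD (π y))) ∈ l' := by
          have h8 : B ++ (D ++ C) ≠ [] := by
            intro h
            apply hnil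
            simp only [List.append_eq_nil_iff] at h
            simp [hl'def, h.1, h.2.1, h.2.2]
          have := ClPair_headD_mem (π y) h8
          rw [ClPair_headD_append, ClPair_headD_append] at this
          simp only [List.mem_append] at this
          simp only [hl'def, List.mem_append]
          tauto
        simp only [Finset.mem_insert, Finset.mem_singleton] at hz
        rcases hz with rfl | rfl | rfl | rfl
        · exact ⟨_, hmem _ m1, c3 _ e4⟩
        · exact ⟨_, hmem _ m2, e1.symm.trans (c2 _ e2)⟩
        · exact ⟨_, hmem _ m2, c2 _ e2⟩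
        · exact ⟨_, hmem _ m3, c1 _ e3⟩
    have hc : ({x, y, π x, π y} : Finset L).card = 4 := by
      rw [Finset.card_insert_of_notMem, Finset.card_insert_of_notMem,
        Finset.card_insert_of_notMem, Finset.card_singleton]
      · simpa using hpp
      · simp only [Finset.mem_insert, Finset.mem_singleton, not_or]
        exact ⟨hypx, (h2 y).symm⟩
      · simp only [Finset.mem_insert, Finset.mem_singleton, not_or]
        exact ⟨hxy, (h2 x).symm, hxpy⟩
    omega

end Red

/-- the inductive statement -/
def ClPair_P {K L : Type*} [Group K] [DecidableEq L] (π : Perm L) (w : L → K) (l : List L) :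
    Prop :=
  ∃ k : ℕ, IsCommProd k (l.map w).prod ∧ 4 * k + 2 * ncyc (l.formPerm * π) ≤ Nat.card L + 2

theorem ClPair_rot {K L : Type*} [Group K] [DecidableEq L] {π : Perm L} {w : L → K}
    {X Y : List L} (hl : (X ++ Y).Nodup) (h : ClPair_P π w (Y ++ X)) :
    ClPair_P π w (X ++ Y) := by
  obtain ⟨k, hk, hb⟩ := h
  refine ⟨k, ?_, ?_⟩
  · have h3 := ClPair_conj hk (X.map w).prod
    rw [List.map_append, List.prod_append] at h3 ⊢
    have h4 : (X.map w).prod * ((Y.map w).prod * (X.map w).prod) * ((X.map w).prod)⁻¹ =
        (X.map w).prod * (Y.map w).prod := by group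
    rwa [h4] at h3
  · rw [List.formPerm_eq_of_isRotated hl List.isRotated_append]
    exact hb

theorem ClPair_main {K L : Type*} [Group K] [Finite L] [DecidableEq L] (π : Perm L)
    (h1 : ∀ x, π (π x) = x) (h2 : ∀ x, π x ≠ x) (w : L → K) (hw : ∀ x, w (π x) = (w x)⁻¹) :
    ∀ (n : ℕ) (l : List L), l.length = n → l.Nodup → (∀ x ∈ l, π x ∈ l) → ClPair_P π w l := by
  intro n
  induction n using Nat.strong_induction_on with
  | _ n ih =>
    intro l hn hl hc
    have hinv := ClPair_invol π h2
    by_cases hnil : l = []
    · subst hnil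
      refine ⟨0, ClPair_one, ?_⟩
      rw [List.formPerm_nil, one_mul]
      omega
    obtain ⟨x0, R, hR⟩ := List.exists_cons_of_ne_nil hnil
    have h3 : π x0 ∈ R := by
      have h4 := hc x0 (by rw [hR]; exact List.mem_cons_self)
      rw [hR, List.mem_cons] at h4
      exact h4.resolve_left (h2 x0)
    obtain ⟨M, D0, hMD⟩ := List.append_of_mem h3
    obtain ⟨X, Y, hXY, hdec⟩ := ClPair_dec π h1 h2 l hl hc M.length [] M D0 x0 rfl
      (by rw [hR, hMD]; rfl)
    rw [hXY]
    rw [hXY] at hl hn
    apply ClPair_rot hl
    have hYX : (Y ++ X).Nodup := (List.isRotated_append.nodup_iff).1 hl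
    have hcYX : ∀ z ∈ Y ++ X, π z ∈ Y ++ X := by
      intro z hz
      have h4 := hc z (by rw [hXY]; simp only [List.mem_append] at hz ⊢; tauto)
      rw [hXY] at h4
      simp only [List.mem_append] at h4 ⊢
      tauto
    have hlen : (Y ++ X).length = n := by
      rw [← hn, List.length_append, List.length_append, add_comm]
    rcases hdec with ⟨x, D, hD⟩ | ⟨x, y, B, C, D, hD⟩
    · rw [hD] at hYX hcYX hlen ⊢
      have hprod : ((x :: π x :: D).map w).prod = (D.map w).prod := by
        simp only [List.map_cons, List.prod_cons, hw]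
        group
      by_cases hDn : D = []
      · subst hDn
        refine ⟨0, ?_, ?_⟩
        · rw [hprod]
          exact ClPair_one
        · have h5 := ncyc_le_mul_swap (π * swap x (π x)) x (π x)
          rw [ClPair_cancel, ncyc_mul_comm] at h5
          have h6 : [x, π x].formPerm = swap x (π x) := by
            rw [List.formPerm_cons_cons, List.formPerm_singleton, mul_one]
          rw [h6]
          omega
      · have h7 : ∀ z ∈ D, π z ∈ D := by
          intro z hz
          have h8 := hcYX z (List.mem_cons_of_mem _ (List.mem_cons_of_mem _ hz))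
          rw [List.mem_cons, List.mem_cons] at h8
          have hYX' := hYX
          rw [List.nodup_cons, List.nodup_cons, List.mem_cons, not_or] at hYX'
          rcases h8 with h8 | h8 | h8
          · exfalso
            apply hYX'.2.1
            rw [← h8, h1]
            exact hz
          · exact absurd (π.injective h8 ▸ hz) hYX'.1.2
          · exact h8
        obtain ⟨k, hk, hb⟩ := ih D.length (by rw [← hlen]; simp) D rfl
          (List.nodup_cons.1 (List.nodup_cons.1 hYX).2).2 h7
        refine ⟨k, by rw [hprod]; exact hk, ?_⟩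
        have := ClPair_adj h1 hYX hDn
        omega
    · rw [hD] at hYX hcYX hlen ⊢
      have hinter := ClPair_inter h1 h2 hYX
      have hprod : ((x :: y :: (B ++ π x :: (C ++ π y :: D))).map w).prod =
          (w x * ((C.map w).prod * (B.map w).prod)⁻¹) *
            ((C.map w).prod * (B.map w).prod * w y * ((C.map w).prod)⁻¹) *
            (w x * ((C.map w).prod * (B.map w).prod)⁻¹)⁻¹ *
            ((C.map w).prod * (B.map w).prod * w y * ((C.map w).prod)⁻¹)⁻¹ *
          ((C ++ (B ++ D)).map w).prod := by
        simp only [List.map_cons, List.prod_cons, List.map_append, List.prod_append, hw]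
        group
      have hperm := ClPair_perm x y (π x) (π y) B C D
      have hl0 := hperm.nodup_iff.1 hYX
      generalize hl'def : C ++ (B ++ D) = l' at hperm hl0 hprod hinter
      have hlen' : l'.length < n := by
        rw [← hlen, ← hl'def]
        simp only [List.length_cons, List.length_append]
        omega
      simp only [List.nodup_cons, List.mem_cons, not_or] at hl0
      obtain ⟨⟨-, -, -, hxl⟩, ⟨-, -, hyl⟩, ⟨-, hpxl⟩, hpyl, hnd⟩ := hl0
      have hcl : ∀ z ∈ l', π z ∈ l' := by
        intro z hz
        have h8 := hcYX z (hperm.mem_iff.2 (by simp only [List.mem_cons, hz, or_true]))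
        rw [hperm.mem_iff] at h8
        simp only [List.mem_cons] at h8
        rcases h8 with h8 | h8 | h8 | h8 | h8
        · exact absurd (by rw [← h8, h1]; exact hz) hpxl
        · exact absurd (by rw [← h8, h1]; exact hz) hpyl
        · exact absurd (π.injective h8 ▸ hz) hxl
        · exact absurd (π.injective h8 ▸ hz) hyl
        · exact h8
      obtain ⟨k, hk, hb⟩ := ih l'.length hlen' _ rfl hnd hcl
      by_cases hn' : l' = []
      · refine ⟨1, ?_, ?_⟩
        · rw [hprod]
          apply ClPair_succ
          rw [hn']
          exact ClPair_one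
        · rw [if_pos hn', hn', List.formPerm_nil, one_mul] at hinter
          omega
      · refine ⟨k + 1, ?_, ?_⟩
        · rw [hprod]
          exact ClPair_succ hk _ _
        · rw [if_neg hn'] at hinter
          omega

theorem commProd_of_pairing {K L : Type*} [Group K] [Fintype L] [DecidableEq L] (l : List L)
    (hl : l.Nodup) (hl' : ∀ x, x ∈ l) (π : Perm L) (h1 : ∀ x, π (π x) = x) (h2 : ∀ x, π x ≠ x)
    (w : L → K) (hw : ∀ x, w (π x) = (w x)⁻¹) :
    ∃ k : ℕ, IsCommProd k (l.map w).prod ∧ 4 * (k : ℤ) ≤ E2 l.formPerm π + 2 := by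
  obtain ⟨k, hk, hb⟩ := ClPair_main π h1 h2 w hw l.length l rfl hl (fun x _ => hl' (π x))
  refine ⟨k, hk, ?_⟩
  unfold E2
  omega

end SclIso
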