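import Pool.Agent.H.MP_1b0e60_al.Flow

/-!
Closure of a 2-generated subgroup in the topology of the derived series.
-/

open Equiv Filter Topology

namespace SclIso

/-! ### Paths which stay in a set -/

theorem Closure_head {Ω : Type*} {t : Fin 2 → Perm Ω} {D : Ω → Prop} {w : List (Fin 2 × Bool)}
    {x : Ω} (h : Stays t D w x) : D x := by
  cases w with
  | nil => exact h
  | cons l w => exact h.1

theorem Closure_append {Ω : Type*} {t : Fin 2 → Perm Ω} {D : Ω → Prop}
    {w w' : List (Fin 2 × Bool)} {x : Ω} (h : Stays t D w x) (h' : Stays t D w' (walk t w x)) :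
    Stays t D (w ++ w') x := by
  induction w generalizing x with
  | nil => exact h'
  | cons l w ih => exact ⟨h.1, ih h.2 h'⟩

theorem Closure_mono {Ω : Type*} {t : Fin 2 → Perm Ω} {D D' : Ω → Prop}
    {w : List (Fin 2 × Bool)} {x : Ω} (h : Stays t D w x) (hD : ∀ y, D y → D' y) :
    Stays t D' w x := by
  induction w generalizing x with
  | nil => exact hD _ h
  | cons l w ih => exact ⟨hD _ h.1, ih h.2⟩

theorem Closure_exists {Ω : Type*} (t : Fin 2 → Perm Ω) (w : List (Fin 2 × Bool)) (x : Ω) :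
    ∃ S : Set Ω, S.Finite ∧ Stays t (· ∈ S) w x := by
  induction w generalizing x with
  | nil => exact ⟨{x}, Set.finite_singleton x, Set.mem_singleton x⟩
  | cons l w ih =>
    obtain ⟨S, hS, h⟩ := ih (step t l x)
    exact ⟨insert x S, hS.insert x, Set.mem_insert x S,
      Closure_mono h fun y hy => Set.mem_insert_of_mem x hy⟩

theorem Closure_invRev {Ω : Type*} {t : Fin 2 → Perm Ω} {D : Ω → Prop}
    {w : List (Fin 2 × Bool)} {x : Ω} (h : Stays t D w x) :
    Stays t D (FreeGroup.invRev w) (walk t w x) := by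
  induction w generalizing x with
  | nil => exact h
  | cons l w ih =>
    have e : FreeGroup.invRev (l :: w) = FreeGroup.invRev w ++ [(l.1, !l.2)] := by
      simp [FreeGroup.invRev]
    rw [e, walk_cons]
    refine Closure_append (ih h.2) ?_
    rw [walk_invRev]
    refine ⟨Closure_head h.2, ?_⟩
    change D (step t (l.1, !l.2) (step t l x))
    rw [step_not]
    exact h.1

theorem Closure_equi {Ω Ω' : Type*} {t : Fin 2 → Perm Ω} {t' : Fin 2 → Perm Ω'} {q : Ω → Ω'}
    (hq : ∀ s x, q (t s x) = t' s (q x)) {D : Ω' → Prop} {w : List (Fin 2 × Bool)} {x : Ω}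
    (h : Stays t' D w (q x)) : Stays t (fun y => D (q y)) w x := by
  induction w generalizing x with
  | nil => exact h
  | cons l w ih =>
    refine ⟨h.1, ih ?_⟩
    rw [step_equivariant hq]
    exact h.2

/-- The classes of closed paths at `x` which stay in `D`. -/
def Closure_grp {Ω : Type*} (t : Fin 2 → Perm Ω) (D : Ω → Prop) (x : Ω) (hx : D x) :
    Subgroup (FreeGroup (Fin 2)) where
  carrier := {g | ∃ w, FreeGroup.mk w = g ∧ Stays t D w x ∧ walk t w x = x}
  mul_mem' := by
    rintro g g' ⟨w, rfl, hw, hw'⟩ ⟨v, rfl, hv, hv'⟩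
    refine ⟨w ++ v, by rw [FreeGroup.mul_mk], Closure_append hw (by rw [hw']; exact hv), ?_⟩
    rw [walk_append, hw', hv']
  one_mem' := ⟨[], FreeGroup.one_eq_mk.symm, hx, rfl⟩
  inv_mem' := by
    rintro g ⟨w, rfl, hw, hw'⟩
    refine ⟨FreeGroup.invRev w, by rw [FreeGroup.inv_mk], ?_, ?_⟩
    · have := Closure_invRev hw
      rw [hw'] at this
      exact this
    · have := walk_invRev t w x
      rw [hw'] at this
      exact this

/-- The flow of a path is supported on edges which start in the visited set. -/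
theorem Closure_flow_supp {Ω : Type*} {t : Fin 2 → Perm Ω} {S : Set Ω}
    {w : List (Fin 2 × Bool)} {x : Ω} (h : Stays t (· ∈ S) w x) :
    ((flow t w x).support : Set (Ω × Fin 2)) ⊆ {e | e.1 ∈ S} := by
  classical
  induction w generalizing x with
  | nil => simp [flow]
  | cons l w ih =>
    intro e he
    rw [flow] at he
    have h1 := Finsupp.support_add he
    rw [Finset.mem_union] at h1
    rcases h1 with h1 | h1
    · obtain ⟨s, b⟩ := l
      cases b
      · simp only [Bool.false_eq_true, if_false, Finsupp.support_neg] at h1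
        have h2 := Finsupp.support_single_subset h1
        rw [Finset.mem_singleton] at h2
        rw [h2]
        have h3 : step t (s, false) x ∈ S := Closure_head (D := (· ∈ S)) h.2
        exact h3
      · simp only [if_true] at h1
        have h2 := Finsupp.support_single_subset h1
        rw [Finset.mem_singleton] at h2
        rw [h2]
        exact h.1
    · exact ih h.2 h1

theorem Closure_flow_zero {Ω Ω' : Type*} {t : Fin 2 → Perm Ω} {t' : Fin 2 → Perm Ω'} {q : Ω → Ω'}
    (hq : ∀ s x, q (t s x) = t' s (q x)) {S : Set Ω} (hS : Set.InjOn q S)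
    {w : List (Fin 2 × Bool)} {x : Ω} (h : Stays t (· ∈ S) w x) (h0 : flow t' w (q x) = 0) :
    flow t w x = 0 := by
  rw [flow_equivariant hq] at h0
  have hinj : Set.InjOn (Prod.map q (id : Fin 2 → Fin 2)) {e | e.1 ∈ S} := by
    rintro ⟨a, s⟩ ha ⟨b, s'⟩ hb hab
    simp only [Prod.map_apply, id_eq, Prod.mk.injEq] at hab
    exact Prod.ext (hS ha hb hab.1) hab.2
  have h1 := Finsupp.mapDomain_injOn (M := ℤ) _ hinj
  refine h1 (Closure_flow_supp h) ?_ ?_
  · simp
  · rw [h0, Finsupp.mapDomain_zero]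

/-- The projection of coset spaces. -/
def Closure_q (K K' : Subgroup (FreeGroup (Fin 2))) (hK : K ≤ K') :
    FreeGroup (Fin 2) ⧸ K → FreeGroup (Fin 2) ⧸ K' :=
  Quotient.map' id (by
    intro a b hab
    rw [QuotientGroup.leftRel_apply] at hab ⊢
    exact hK hab)

theorem Closure_q_mk (K K' : Subgroup (FreeGroup (Fin 2))) (hK : K ≤ K') (f : FreeGroup (Fin 2)) :
    Closure_q K K' hK (QuotientGroup.mk f) = QuotientGroup.mk f := rfl

theorem Closure_q_equi (K K' : Subgroup (FreeGroup (Fin 2))) (hK : K ≤ K') (s : Fin 2)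
    (x : FreeGroup (Fin 2) ⧸ K) :
    Closure_q K K' hK (cosetAct K s x) = cosetAct K' s (Closure_q K K' hK x) := by
  induction x using QuotientGroup.induction_on with
  | H z => rfl

/-- Key lemma. -/
theorem Closure_key (M : Subgroup (FreeGroup (Fin 2))) (m : ℕ)
    (S : Set (FreeGroup (Fin 2) ⧸ M))
    (hsep : ∀ f f' : FreeGroup (Fin 2), (QuotientGroup.mk f : FreeGroup (Fin 2) ⧸ M) ∈ S →
      (QuotientGroup.mk f' : FreeGroup (Fin 2) ⧸ M) ∈ S →
      f⁻¹ * f' ∈ derivedSeries (FreeGroup (Fin 2)) m → f⁻¹ * f' ∈ M)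
    (w : List (Fin 2 × Bool))
    (hst : Stays (cosetAct M) (· ∈ S) w (QuotientGroup.mk 1)) (hM : FreeGroup.mk w ∈ M)
    (hD : FreeGroup.mk w ∈ derivedSeries (FreeGroup (Fin 2)) (m + 1)) :
    FreeGroup.mk w ∈ (⁅M ⊓ derivedSeries (FreeGroup (Fin 2)) m,
      M ⊓ derivedSeries (FreeGroup (Fin 2)) m⁆ : Subgroup (FreeGroup (Fin 2))) := by
  set D := derivedSeries (FreeGroup (Fin 2)) m with hDdef
  set K := M ⊓ D with hK
  have hKM : K ≤ M := inf_le_left
  have hKD : K ≤ D := inf_le_right
  have h0 : flow (cosetAct D) w (QuotientGroup.mk 1) = 0 := by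
    refine flow_eq_zero_of_mem (cosetAct D) (QuotientGroup.mk 1) D (walk_cosetAct_one D) w ?_
    rw [derivedSeries_succ] at hD
    exact hD
  have hmD : FreeGroup.mk w ∈ D := derivedSeries_antitone _ (Nat.le_succ m) hD
  have hst' : Stays (cosetAct K) (· ∈ {y | Closure_q K M hKM y ∈ S}) w (QuotientGroup.mk 1) :=
    Closure_equi (Closure_q_equi K M hKM) hst
  have hinj : Set.InjOn (Closure_q K D hKD) {y | Closure_q K M hKM y ∈ S} := by
    intro x hx y hy hxy
    induction x using QuotientGroup.induction_on with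
    | H f =>
      induction y using QuotientGroup.induction_on with
      | H g =>
        rw [Closure_q_mk, Closure_q_mk, QuotientGroup.eq] at hxy
        rw [QuotientGroup.eq]
        exact ⟨hsep f g hx hy hxy, hxy⟩
  have h1 : flow (cosetAct K) w (QuotientGroup.mk 1) = 0 :=
    Closure_flow_zero (Closure_q_equi K D hKD) hinj hst' h0
  exact hurewicz (cosetAct K) (QuotientGroup.mk 1) K (walk_cosetAct_one K) w h1
    ((walk_cosetAct_one K w).1 ⟨hM, hmD⟩)

/-- Separation of a finite set of classes. -/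
theorem Closure_sep (H M : Subgroup (FreeGroup (Fin 2)))
    (hM : ∀ f, f ∈ M ↔ ∀ m, f ∈ H ⊔ derivedSeries (FreeGroup (Fin 2)) m)
    (S : Set (FreeGroup (Fin 2) ⧸ M)) (hS : S.Finite) :
    ∃ m0 : ℕ, ∀ m, m0 ≤ m → ∀ f f' : FreeGroup (Fin 2),
      (QuotientGroup.mk f : FreeGroup (Fin 2) ⧸ M) ∈ S →
      (QuotientGroup.mk f' : FreeGroup (Fin 2) ⧸ M) ∈ S →
      f⁻¹ * f' ∈ derivedSeries (FreeGroup (Fin 2)) m → f⁻¹ * f' ∈ M := by
  have hML : ∀ m, M ≤ H ⊔ derivedSeries (FreeGroup (Fin 2)) m := fun m f hf => (hM f).1 hf m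
  have key : ∀ p ∈ S ×ˢ S, ∀ᶠ m in (atTop : Filter ℕ), ∀ f f' : FreeGroup (Fin 2),
      (QuotientGroup.mk f : FreeGroup (Fin 2) ⧸ M) = p.1 →
      (QuotientGroup.mk f' : FreeGroup (Fin 2) ⧸ M) = p.2 →
      f⁻¹ * f' ∈ derivedSeries (FreeGroup (Fin 2)) m → f⁻¹ * f' ∈ M := by
    rintro ⟨x, y⟩ -
    induction x using QuotientGroup.induction_on with
    | H g =>
      induction y using QuotientGroup.induction_on with
      | H g' =>
        by_cases hg : g⁻¹ * g' ∈ M
        · refine Eventually.of_forall fun m f f' hf hf' _ => ?_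
          have h1 : f⁻¹ * g ∈ M := QuotientGroup.eq.1 hf
          have h2 : f'⁻¹ * g' ∈ M := QuotientGroup.eq.1 hf'
          have h3 := M.mul_mem (M.mul_mem h1 hg) (M.inv_mem h2)
          have e : f⁻¹ * g * (g⁻¹ * g') * (f'⁻¹ * g')⁻¹ = f⁻¹ * f' := by group
          rwa [e] at h3
        · rw [hM] at hg
          push Not at hg
          obtain ⟨m1, hm1⟩ := hg
          filter_upwards [eventually_ge_atTop m1] with m hm f f' hf hf' hff
          exfalso
          refine hm1 ?_
          have h1 : f⁻¹ * g ∈ H ⊔ derivedSeries (FreeGroup (Fin 2)) m1 :=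
            hML m1 (QuotientGroup.eq.1 hf)
          have h2 : f'⁻¹ * g' ∈ H ⊔ derivedSeries (FreeGroup (Fin 2)) m1 :=
            hML m1 (QuotientGroup.eq.1 hf')
          have h4 : f⁻¹ * f' ∈ H ⊔ derivedSeries (FreeGroup (Fin 2)) m1 :=
            (le_sup_right : _ ≤ H ⊔ derivedSeries (FreeGroup (Fin 2)) m1)
              (derivedSeries_antitone _ hm hff)
          have h3 := Subgroup.mul_mem _ (Subgroup.mul_mem _ (Subgroup.inv_mem _ h1) h4) h2
          have e : (f⁻¹ * g)⁻¹ * (f⁻¹ * f') * (f'⁻¹ * g') = g⁻¹ * g' := by group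
          rwa [e] at h3
  have h1 := (Filter.eventually_all_finite (hS.prod hS)).2 key
  obtain ⟨m0, hm0⟩ := eventually_atTop.1 h1
  exact ⟨m0, fun m hm f f' hf hf' hff => hm0 m hm (QuotientGroup.mk f, QuotientGroup.mk f')
    ⟨hf, hf'⟩ f f' rfl rfl hff⟩

/-- Decomposition of the elements of `M`. -/
theorem Closure_decomp (H M : Subgroup (FreeGroup (Fin 2)))
    (hM : ∀ f, f ∈ M ↔ ∀ m, f ∈ H ⊔ derivedSeries (FreeGroup (Fin 2)) m) (m : ℕ)
    (l : FreeGroup (Fin 2)) (hl : l ∈ M) :
    ∃ h ∈ H, h⁻¹ * l ∈ M ∧ h⁻¹ * l ∈ derivedSeries (FreeGroup (Fin 2)) m := by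
  have hHM : H ≤ M := fun f hf => (hM f).2 fun m => (le_sup_left : H ≤ _) hf
  have h1 := (hM l).1 hl m
  rw [Subgroup.mem_sup_of_normal_right] at h1
  obtain ⟨h, hh, d, hd, rfl⟩ := h1
  refine ⟨h, hh, M.mul_mem (M.inv_mem (hHM hh)) hl, ?_⟩
  rw [inv_mul_cancel_left]
  exact hd

/-- The elements which are represented by closed paths in a separated set. -/
theorem Closure_key' (M : Subgroup (FreeGroup (Fin 2))) (m : ℕ)
    (S : Set (FreeGroup (Fin 2) ⧸ M))
    (hsep : ∀ f f' : FreeGroup (Fin 2), (QuotientGroup.mk f : FreeGroup (Fin 2) ⧸ M) ∈ S →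
      (QuotientGroup.mk f' : FreeGroup (Fin 2) ⧸ M) ∈ S →
      f⁻¹ * f' ∈ derivedSeries (FreeGroup (Fin 2)) m → f⁻¹ * f' ∈ M)
    (h1 : (QuotientGroup.mk 1 : FreeGroup (Fin 2) ⧸ M) ∈ S) (n : FreeGroup (Fin 2))
    (hn : n ∈ Closure_grp (cosetAct M) (· ∈ S) (QuotientGroup.mk 1) h1)
    (hD : n ∈ derivedSeries (FreeGroup (Fin 2)) (m + 1)) :
    n ∈ (⁅M ⊓ derivedSeries (FreeGroup (Fin 2)) m,
      M ⊓ derivedSeries (FreeGroup (Fin 2)) m⁆ : Subgroup (FreeGroup (Fin 2))) := by
  obtain ⟨w, rfl, hw, hw'⟩ := hn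
  exact Closure_key M m S hsep w hw ((walk_cosetAct_one M w).2 hw') hD

/-- A common finite set for a finite list of words. -/
theorem Closure_common (M : Subgroup (FreeGroup (Fin 2))) (T : Finset (FreeGroup (Fin 2)))
    (hT : ∀ g ∈ T, g ∈ M) :
    ∃ (S : Set (FreeGroup (Fin 2) ⧸ M)) (h1 : (QuotientGroup.mk 1 : FreeGroup (Fin 2) ⧸ M) ∈ S),
      S.Finite ∧ ∀ g ∈ T, g ∈ Closure_grp (cosetAct M) (· ∈ S) (QuotientGroup.mk 1) h1 := by
  classical
  choose S hS hS' using fun g : FreeGroup (Fin 2) =>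
    Closure_exists (cosetAct M) g.toWord (QuotientGroup.mk 1)
  refine ⟨insert (QuotientGroup.mk 1) (⋃ g ∈ T, S g), Set.mem_insert _ _, ?_, ?_⟩
  · refine Set.Finite.insert _ ?_
    exact Set.Finite.biUnion T.finite_toSet fun g _ => hS g
  · intro g hg
    refine ⟨g.toWord, FreeGroup.mk_toWord, ?_, ?_⟩
    · refine Closure_mono (hS' g) fun y hy => ?_
      exact Set.mem_insert_of_mem _ (Set.mem_biUnion hg hy)
    · rw [← walk_cosetAct_one, FreeGroup.mk_toWord]
      exact hT g hg

/-! ### Free groups which are generated by two elements modulo the commutator subgroup -/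

theorem Closure_rank_le {X : Type} (a b : FreeGroup X)
    (h : Subgroup.closure {a, b} ⊔ commutator (FreeGroup X) = ⊤) (f : Fin 3 → X)
    (hf : Function.Injective f) : False := by
  classical
  let φ : FreeGroup X →* Multiplicative (Fin 3 → ZMod 2) := FreeGroup.lift fun x =>
    Multiplicative.ofAdd (fun i => if x = f i then 1 else 0)
  have hφ : Function.Surjective φ := by
    intro y
    have h1 : y = ∏ i : Fin 3, (φ (FreeGroup.of (f i))) ^ (y.toAdd i).val := by
      have h2 : y.toAdd = ∑ i : Fin 3, (y.toAdd i).val • (φ (FreeGroup.of (f i))).toAdd := by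
        funext j
        have h3 : ∀ i : Fin 3, ((y.toAdd i).val • (φ (FreeGroup.of (f i))).toAdd) j =
            if i = j then y.toAdd i else 0 := by
          intro i
          have h4 : φ (FreeGroup.of (f i)) =
              Multiplicative.ofAdd (fun j => if f i = f j then (1 : ZMod 2) else 0) :=
            FreeGroup.lift_apply_of
          rw [h4]
          simp only [toAdd_ofAdd, Pi.smul_apply, hf.eq_iff]
          split_ifs with h5
          · simp
          · simp
        rw [Finset.sum_apply]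
        simp only [h3, Finset.sum_ite_eq', Finset.mem_univ, if_true]
      exact h2
    have h2 : y ∈ φ.range := by
      rw [h1]
      exact Subgroup.prod_mem φ.range fun i _ => Subgroup.pow_mem φ.range
        (MonoidHom.mem_range.2 ⟨_, rfl⟩) _
    exact h2
  have h1 : Subgroup.closure {φ a, φ b} = ⊤ := by
    have h2 : (Subgroup.closure {a, b} ⊔ commutator (FreeGroup X)).map φ = ⊤ := by
      rw [h]
      exact Subgroup.map_top_of_surjective φ hφ
    rw [Subgroup.map_sup, MonoidHom.map_closure, Set.image_pair] at h2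
    have h3 : (commutator (FreeGroup X)).map φ = ⊥ := by
      rw [Subgroup.map_eq_bot_iff]
      exact Abelianization.commutator_subset_ker φ
    rwa [h3, sup_bot_eq] at h2
  obtain ⟨α, hα⟩ : ∃ α : Fin 3 → ZMod 2, Multiplicative.toAdd (φ a) = α := ⟨_, rfl⟩
  obtain ⟨β, hβ⟩ : ∃ β : Fin 3 → ZMod 2, Multiplicative.toAdd (φ b) = β := ⟨_, rfl⟩
  have h2 : Submodule.span (ZMod 2) ({α, β} : Set (Fin 3 → ZMod 2)) = ⊤ := by
    rw [eq_top_iff]
    intro y _
    have h3 : Subgroup.closure {φ a, φ b} ≤ AddSubgroup.toSubgroup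
        (Submodule.span (ZMod 2) ({α, β} : Set (Fin 3 → ZMod 2))).toAddSubgroup := by
      rw [Subgroup.closure_le]
      rintro z (rfl | rfl)
      · have h4 : Multiplicative.toAdd (φ a) ∈
            Submodule.span (ZMod 2) ({α, β} : Set (Fin 3 → ZMod 2)) := by
          rw [hα]
          exact Submodule.subset_span (Set.mem_insert _ _)
        exact h4
      · have h4 : Multiplicative.toAdd (φ b) ∈
            Submodule.span (ZMod 2) ({α, β} : Set (Fin 3 → ZMod 2)) := by
          rw [hβ]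
          exact Submodule.subset_span (Set.mem_insert_of_mem _ rfl)
        exact h4
    rw [h1] at h3
    exact h3 (Subgroup.mem_top (Multiplicative.ofAdd y))
  have h3 : Module.finrank (ZMod 2) (Submodule.span (ZMod 2) ({α, β} : Set (Fin 3 → ZMod 2)))
      ≤ 2 := by
    have h4 := finrank_span_finset_le_card (R := ZMod 2) ({α, β} : Finset (Fin 3 → ZMod 2))
    have h5 : (({α, β} : Finset (Fin 3 → ZMod 2)) : Set (Fin 3 → ZMod 2)) = {α, β} := by
      push_cast
      rfl
    rw [Set.finrank, h5] at h4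
    exact h4.trans Finset.card_le_two
  rw [h2, finrank_top, Module.finrank_fin_fun] at h3
  omega

/-- A free group which is generated by two elements modulo the commutator subgroup and which is
not commutative is free of rank two. -/
theorem Closure_rank_two {X : Type} (a b : FreeGroup X)
    (h : Subgroup.closure {a, b} ⊔ commutator (FreeGroup X) = ⊤) (hab : a * b ≠ b * a) :
    Nonempty (Fin 2 ≃ X) := by
  classical
  have h2 : ∃ x y : X, x ≠ y := by
    by_contra hcon
    push Not at hcon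
    refine hab ?_
    rcases isEmpty_or_nonempty X with hX | ⟨⟨x⟩⟩
    · have : a = b := Subsingleton.elim _ _
      rw [this]
    · have hz : ∀ g : FreeGroup X, g ∈ Subgroup.zpowers (FreeGroup.of x) := by
        intro g
        induction g using FreeGroup.induction_on with
        | C1 => exact Subgroup.one_mem _
        | of y => rw [hcon y x]; exact Subgroup.mem_zpowers _
        | inv_of y hy => exact Subgroup.inv_mem _ hy
        | mul y z hy hz => exact Subgroup.mul_mem _ hy hz
      obtain ⟨i, hi⟩ := hz a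
      obtain ⟨j, hj⟩ := hz b
      simp only at hi hj
      rw [← hi, ← hj, ← zpow_add, ← zpow_add, add_comm]
  obtain ⟨x, y, hxy⟩ := h2
  have h3 : ∀ z : X, z = x ∨ z = y := by
    intro z
    by_contra hcon
    push Not at hcon
    refine Closure_rank_le a b h ![x, y, z] ?_
    intro i j hij
    fin_cases i <;> fin_cases j <;> simp_all [eq_comm]
  refine ⟨Equiv.ofBijective ![x, y] ⟨?_, ?_⟩⟩
  · intro i j hij
    fin_cases i <;> fin_cases j <;> simp_all [eq_comm]
  · intro z
    rcases h3 z with rfl | rfl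
    · exact ⟨0, rfl⟩
    · exact ⟨1, rfl⟩

/-- the closure of a 2-generated nonabelian subgroup in the topology of the derived series is free
of rank 2, and the subgroup is dense in it -/
theorem closure_structure (u v : FreeGroup (Fin 2)) (huv : u * v ≠ v * u)
    (M : Subgroup (FreeGroup (Fin 2)))
    (hM : ∀ f, f ∈ M ↔ ∀ m, f ∈ Subgroup.closure {u, v} ⊔ derivedSeries (FreeGroup (Fin 2)) m) :
    ∃ e : FreeGroup (Fin 2) ≃* M, ∃ m0 : ℕ, ∀ m, m0 ≤ m →
      (derivedSeries (FreeGroup (Fin 2)) m).comap (M.subtype.comp e.toMonoidHom) ≤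
        commutator (FreeGroup (Fin 2)) ∧
      (Subgroup.closure {u, v}).comap (M.subtype.comp e.toMonoidHom) ⊔
        ⁅(derivedSeries (FreeGroup (Fin 2)) m).comap (M.subtype.comp e.toMonoidHom),
          (derivedSeries (FreeGroup (Fin 2)) m).comap (M.subtype.comp e.toMonoidHom)⁆ = ⊤ := by
  classical
  set H : Subgroup (FreeGroup (Fin 2)) := Subgroup.closure {u, v} with hH
  have hHM : H ≤ M := fun f hf => (hM f).2 fun m => (le_sup_left : H ≤ _) hf
  have huH : u ∈ H := Subgroup.subset_closure (Set.mem_insert _ _)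
  have hvH : v ∈ H := Subgroup.subset_closure (Set.mem_insert_of_mem _ rfl)
  have hHgrp : ∀ (G : Subgroup (FreeGroup (Fin 2))), u ∈ G → v ∈ G → H ≤ G := by
    intro G hu hv
    rw [hH, Subgroup.closure_le]
    rintro z (rfl | rfl)
    · exact hu
    · exact hv
  -- step 2
  have step2 : ∀ l ∈ M, ∃ h ∈ H, h⁻¹ * l ∈ (⁅M, M⁆ : Subgroup (FreeGroup (Fin 2))) := by
    intro l hl
    obtain ⟨S, h1, hS, hST⟩ := Closure_common M {u, v, l} (by
      intro g hg
      simp only [Finset.mem_insert, Finset.mem_singleton] at hg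
      rcases hg with rfl | rfl | rfl
      · exact hHM huH
      · exact hHM hvH
      · exact hl)
    obtain ⟨m, hm⟩ := Closure_sep H M hM S hS
    obtain ⟨h, hh, h2, h3⟩ := Closure_decomp H M hM (m + 1) l hl
    refine ⟨h, hh, ?_⟩
    have h4 : H ≤ Closure_grp (cosetAct M) (· ∈ S) (QuotientGroup.mk 1) h1 :=
      hHgrp _ (hST u (by simp)) (hST v (by simp))
    have h5 := Subgroup.mul_mem _ (Subgroup.inv_mem _ (h4 hh)) (hST l (by simp))
    have h6 := Closure_key' M m S (hm m le_rfl) h1 _ h5 h3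
    exact Subgroup.commutator_mono inf_le_left inf_le_left h6
  -- step 3
  obtain ⟨φ⟩ : Nonempty (FreeGroup (Fin 2) ≃* M) := by
    let ψ : M ≃* FreeGroup (IsFreeGroup.Generators M) := IsFreeGroup.toFreeGroup M
    let a : M := ⟨u, hHM huH⟩
    let b : M := ⟨v, hHM hvH⟩
    have h1 : Subgroup.closure {ψ a, ψ b} ⊔ commutator (FreeGroup (IsFreeGroup.Generators M)) =
        ⊤ := by
      rw [eq_top_iff]
      intro y _
      obtain ⟨l, rfl⟩ := ψ.surjective y
      obtain ⟨h, hh, hc⟩ := step2 l.1 l.2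
      have h2 : l = ⟨h, hHM hh⟩ * ((⟨h, hHM hh⟩ : M)⁻¹ * l) := by group
      rw [h2, map_mul]
      refine Subgroup.mul_mem_sup ?_ ?_
      · have h3 : H ≤ ((Subgroup.closure {ψ a, ψ b}).comap ψ.toMonoidHom).map M.subtype := by
          refine hHgrp _ (Subgroup.mem_map.2 ⟨a, ?_, rfl⟩) (Subgroup.mem_map.2 ⟨b, ?_, rfl⟩)
          · exact Subgroup.subset_closure (Set.mem_insert _ _)
          · exact Subgroup.subset_closure (Set.mem_insert_of_mem _ rfl)
        obtain ⟨z, hz, hz'⟩ := h3 hh
        have h4 : z = ⟨h, hHM hh⟩ := Subtype.ext hz'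
        rw [h4] at hz
        exact hz
      · have h3 : ((⟨h, hHM hh⟩ : M)⁻¹ * l) ∈ commutator M := by
          have h4 : (commutator M).map M.subtype = ⁅M, M⁆ := by
            rw [commutator_def, Subgroup.map_commutator, ← MonoidHom.range_eq_map, M.range_subtype]
          rw [← h4] at hc
          obtain ⟨z, hz, hz'⟩ := hc
          have h5 : z = (⟨h, hHM hh⟩ : M)⁻¹ * l := Subtype.ext hz'
          rw [h5] at hz
          exact hz
        have h4 : (commutator M).map ψ.toMonoidHom =
            commutator (FreeGroup (IsFreeGroup.Generators M)) := by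
          rw [commutator_def, Subgroup.map_commutator,
            Subgroup.map_top_of_surjective _ ψ.surjective, commutator_def]
        rw [← h4]
        exact ⟨_, h3, rfl⟩
    have h2 : ψ a * ψ b ≠ ψ b * ψ a := by
      intro h3
      rw [← map_mul, ← map_mul] at h3
      exact huv (congrArg Subtype.val (ψ.injective h3))
    obtain ⟨eq⟩ := Closure_rank_two (ψ a) (ψ b) h1 h2
    exact ⟨(FreeGroup.freeGroupCongr eq).trans ψ.symm⟩
  -- step 4
  obtain ⟨S, h1, hS, hST⟩ := Closure_common M
    {u, v, (φ (FreeGroup.of 0) : FreeGroup (Fin 2)), (φ (FreeGroup.of 1) : FreeGroup (Fin 2))} (by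
      intro g hg
      simp only [Finset.mem_insert, Finset.mem_singleton] at hg
      rcases hg with rfl | rfl | rfl | rfl
      · exact hHM huH
      · exact hHM hvH
      · exact (φ (FreeGroup.of 0)).2
      · exact (φ (FreeGroup.of 1)).2)
  obtain ⟨m0, hm0⟩ := Closure_sep H M hM S hS
  have hMG : M ≤ Closure_grp (cosetAct M) (· ∈ S) (QuotientGroup.mk 1) h1 := by
    intro l hl
    obtain ⟨f, hf⟩ := φ.surjective ⟨l, hl⟩
    have h2 : ∀ f : FreeGroup (Fin 2), (φ f : FreeGroup (Fin 2)) ∈
        Closure_grp (cosetAct M) (· ∈ S) (QuotientGroup.mk 1) h1 := by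
      intro f
      induction f using FreeGroup.induction_on with
      | C1 => rw [map_one]; exact Subgroup.one_mem _
      | of i =>
        fin_cases i
        · exact hST _ (by simp)
        · exact hST _ (by simp)
      | inv_of i hi =>
        rw [map_inv]
        exact Subgroup.inv_mem _ hi
      | mul x y hx hy =>
        rw [map_mul]
        exact Subgroup.mul_mem _ hx hy
    have h3 := h2 f
    rw [hf] at h3
    exact h3
  set Φ : FreeGroup (Fin 2) →* FreeGroup (Fin 2) := M.subtype.comp φ.toMonoidHom with hΦ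
  have hΦinj : Function.Injective Φ := fun x y hxy => φ.injective (Subtype.ext hxy)
  have hΦr : Φ.range = M := by
    rw [hΦ, MonoidHom.range_comp, MonoidHom.range_eq_top.2 φ.surjective, ← MonoidHom.range_eq_map,
      M.range_subtype]
  have hmap : ∀ D : Subgroup (FreeGroup (Fin 2)), (D.comap Φ).map Φ = M ⊓ D := by
    intro D
    rw [Subgroup.map_comap_eq, hΦr]
  refine ⟨φ, m0 + 1, fun m hm => ⟨?_, ?_⟩⟩
  · -- contained in the commutator subgroup
    intro f hf
    obtain ⟨m', rfl⟩ : ∃ m', m = m' + 1 := ⟨m - 1, by omega⟩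
    have h2 : Φ f ∈ M := (φ f).2
    have h3 := Closure_key' M m' S (hm0 m' (by omega)) h1 _ (hMG h2) hf
    have h4 : Φ f ∈ (⁅M, M⁆ : Subgroup (FreeGroup (Fin 2))) :=
      Subgroup.commutator_mono inf_le_left inf_le_left h3
    have h5 : (commutator (FreeGroup (Fin 2))).map Φ = ⁅M, M⁆ := by
      rw [commutator_def, Subgroup.map_commutator, ← MonoidHom.range_eq_map, hΦr]
    rw [← h5] at h4
    obtain ⟨z, hz, hz'⟩ := h4
    rwa [hΦinj hz'] at hz
  · rw [eq_top_iff]
    intro f _
    obtain ⟨h, hh, h2, h3⟩ := Closure_decomp H M hM (m + 1) (Φ f) (φ f).2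
    have h4 := Closure_key' M m S (hm0 m (by omega)) h1 _ (hMG h2) h3
    have h5 : (⁅(derivedSeries (FreeGroup (Fin 2)) m).comap Φ,
        (derivedSeries (FreeGroup (Fin 2)) m).comap Φ⁆ : Subgroup (FreeGroup (Fin 2))).map Φ =
        ⁅M ⊓ derivedSeries (FreeGroup (Fin 2)) m, M ⊓ derivedSeries (FreeGroup (Fin 2)) m⁆ := by
      rw [Subgroup.map_commutator, hmap]
    rw [← h5] at h4
    obtain ⟨z, hz, hz'⟩ := h4
    have h6 : f = (f * z⁻¹) * z := by group
    have h7 : Φ (f * z⁻¹) = h := by
      rw [map_mul, map_inv, hz', mul_inv_rev, inv_inv, mul_inv_cancel_left]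
    rw [h6]
    refine Subgroup.mul_mem_sup ?_ hz
    change Φ (f * z⁻¹) ∈ H
    rw [h7]
    exact hh

end SclIso
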