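import Pool.Agent.H.MP_1b0e60_al.Flow

/-!
Quotients by the derived series are left orderable; the derived series has trivial intersection.
-/

open Equiv Filter Topology

namespace SclIso

/-- A left invariant linear order from a positive cone. -/
theorem DerOrder_ofCone {Q : Type*} [Group Q] (P : Set Q) (hmul : ∀ a b, a ∈ P → b ∈ P → a * b ∈ P)
    (h1 : (1 : Q) ∉ P) (htri : ∀ a, a = 1 ∨ a ∈ P ∨ a⁻¹ ∈ P) :
    ∃ o : LinearOrder Q, ∀ a b c : Q, o.lt a b → o.lt (c * a) (c * b) := by
  classical
  have hasymm : ∀ a, a ∈ P → a⁻¹ ∉ P := by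
    intro a ha ha'
    have := hmul _ _ ha ha'
    rw [mul_inv_cancel] at this
    exact h1 this
  let o : LinearOrder Q :=
    { le := fun a b => a = b ∨ a⁻¹ * b ∈ P
      lt := fun a b => a⁻¹ * b ∈ P
      le_refl := fun a => Or.inl rfl
      le_trans := by
        rintro a b c (rfl | hab) (rfl | hbc)
        · exact Or.inl rfl
        · exact Or.inr hbc
        · exact Or.inr hab
        · right
          have := hmul _ _ hab hbc
          rwa [mul_assoc, mul_inv_cancel_left] at this
      lt_iff_le_not_ge := by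
        intro a b
        constructor
        · intro h
          refine ⟨Or.inr h, ?_⟩
          rintro (h2 | h2)
          · rw [h2, inv_mul_cancel] at h
            exact h1 h
          · have h3 := hasymm _ h
            rw [mul_inv_rev, inv_inv] at h3
            exact h3 h2
        · rintro ⟨h2 | h2, h3⟩
          · exact absurd (Or.inl h2.symm) h3
          · exact h2
      le_antisymm := by
        rintro a b (h | h) (h' | h')
        · exact h
        · exact h
        · exact h'.symm
        · have h3 := hasymm _ h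
          rw [mul_inv_rev, inv_inv] at h3
          exact absurd h' h3
      le_total := by
        intro a b
        rcases htri (a⁻¹ * b) with h | h | h
        · left; left
          exact inv_mul_eq_one.1 h
        · left; right; exact h
        · right; right
          rwa [mul_inv_rev, inv_inv] at h
      toDecidableLE := Classical.decRel _ }
  refine ⟨o, fun a b c h => ?_⟩
  change (c * a)⁻¹ * (c * b) ∈ P
  have h' : a⁻¹ * b ∈ P := h
  rwa [mul_inv_rev, mul_assoc, inv_mul_cancel_left]

theorem DerOrder_finsupp (X : Type*) : ∃ P : Set (X →₀ ℤ), (∀ a b, a ∈ P → b ∈ P → a + b ∈ P) ∧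
    (0 : X →₀ ℤ) ∉ P ∧ ∀ a, a = 0 ∨ a ∈ P ∨ -a ∈ P := by
  let _ : LinearOrder X := IsWellOrder.linearOrder WellOrderingRel
  refine ⟨{a | 0 < toLex a}, fun a b ha hb => ?_, ?_, fun a => ?_⟩
  · exact add_pos (α := Lex (X →₀ ℤ)) ha hb
  · exact lt_irrefl (0 : Lex (X →₀ ℤ))
  · rcases lt_trichotomy (toLex a) 0 with h | h | h
    · right; right
      exact neg_pos.2 h
    · left; exact h
    · right; left; exact h

/-- The flow of an element. -/
noncomputable def DerOrder_phi (N : Subgroup (FreeGroup (Fin 2))) (f : FreeGroup (Fin 2)) :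
    (FreeGroup (Fin 2) ⧸ N) × Fin 2 →₀ ℤ :=
  flow (cosetAct N) f.toWord (QuotientGroup.mk 1)

theorem DerOrder_phi_mul {N : Subgroup (FreeGroup (Fin 2))} {f : FreeGroup (Fin 2)} (hf : f ∈ N)
    (g : FreeGroup (Fin 2)) :
    DerOrder_phi N (f * g) = DerOrder_phi N f + DerOrder_phi N g := by
  unfold DerOrder_phi
  have h1 := flow_congr (cosetAct N) (w := (f * g).toWord) (w' := f.toWord ++ g.toWord)
    (by rw [← FreeGroup.mul_mk, FreeGroup.mk_toWord, FreeGroup.mk_toWord,
      FreeGroup.mk_toWord]) (QuotientGroup.mk 1)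
  rw [h1, flow_append]
  have h2 : walk (cosetAct N) f.toWord (QuotientGroup.mk 1) = QuotientGroup.mk 1 := by
    rw [← walk_cosetAct_one, FreeGroup.mk_toWord]
    exact hf
  rw [h2]

theorem DerOrder_phi_comm {N : Subgroup (FreeGroup (Fin 2))} {f : FreeGroup (Fin 2)}
    (hf : f ∈ (⁅N, N⁆ : Subgroup (FreeGroup (Fin 2)))) : DerOrder_phi N f = 0 := by
  unfold DerOrder_phi
  exact flow_eq_zero_of_mem _ _ N (walk_cosetAct_one N) _ (by rwa [FreeGroup.mk_toWord])

theorem DerOrder_mem_of_phi {N : Subgroup (FreeGroup (Fin 2))} {f : FreeGroup (Fin 2)}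
    (hf : f ∈ N) (h : DerOrder_phi N f = 0) : f ∈ (⁅N, N⁆ : Subgroup (FreeGroup (Fin 2))) := by
  have := hurewicz (cosetAct N) (QuotientGroup.mk 1) N (walk_cosetAct_one N) f.toWord h
    (by rw [← walk_cosetAct_one, FreeGroup.mk_toWord]; exact hf)
  rwa [FreeGroup.mk_toWord] at this

theorem DerOrder_step (N : Subgroup (FreeGroup (Fin 2))) [hN : N.Normal]
    (o : LinearOrder (FreeGroup (Fin 2) ⧸ N))
    (ho : ∀ a b c : FreeGroup (Fin 2) ⧸ N, o.lt a b → o.lt (c * a) (c * b)) :
    ∃ o' : LinearOrder (FreeGroup (Fin 2) ⧸ (⁅N, N⁆ : Subgroup (FreeGroup (Fin 2)))),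
      ∀ a b c : FreeGroup (Fin 2) ⧸ (⁅N, N⁆ : Subgroup (FreeGroup (Fin 2))),
        o'.lt a b → o'.lt (c * a) (c * b) := by
  obtain ⟨P, hPadd, hP0, hPtri⟩ := DerOrder_finsupp ((FreeGroup (Fin 2) ⧸ N) × Fin 2)
  have hNN : (⁅N, N⁆ : Subgroup (FreeGroup (Fin 2))) ≤ N := Subgroup.commutator_le_self N
  set Pos : FreeGroup (Fin 2) → Prop := fun f =>
    o.lt 1 (QuotientGroup.mk f : FreeGroup (Fin 2) ⧸ N) ∨ (f ∈ N ∧ DerOrder_phi N f ∈ P) with hPos
  have hone : ∀ f, f ∈ N → (QuotientGroup.mk f : FreeGroup (Fin 2) ⧸ N) = 1 :=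
    fun f hf => (QuotientGroup.eq_one_iff f).2 hf
  have hmul : ∀ f g, Pos f → Pos g → Pos (f * g) := by
    rintro f g (hf | ⟨hf, hf'⟩) (hg | ⟨hg, hg'⟩)
    · left
      have h1 := ho _ _ (QuotientGroup.mk f : FreeGroup (Fin 2) ⧸ N) hg
      rw [mul_one] at h1
      rw [QuotientGroup.mk_mul]
      exact lt_trans hf h1
    · left
      rw [QuotientGroup.mk_mul, hone g hg, mul_one]
      exact hf
    · left
      rw [QuotientGroup.mk_mul, hone f hf, one_mul]
      exact hg
    · right
      exact ⟨N.mul_mem hf hg, by rw [DerOrder_phi_mul hf]; exact hPadd _ _ hf' hg'⟩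
  refine DerOrder_ofCone {q | ∃ f, QuotientGroup.mk f = q ∧ Pos f} ?_ ?_ ?_
  · rintro _ _ ⟨f, rfl, hf⟩ ⟨g, rfl, hg⟩
    exact ⟨f * g, QuotientGroup.mk_mul _ _ _, hmul f g hf hg⟩
  · rintro ⟨f, hf, hf2⟩
    rw [QuotientGroup.eq_one_iff] at hf
    rcases hf2 with h | ⟨_, h⟩
    · rw [hone f (hNN hf)] at h
      exact lt_irrefl _ h
    · rw [DerOrder_phi_comm hf] at h
      exact hP0 h
  · intro q
    obtain ⟨f, rfl⟩ := QuotientGroup.mk_surjective q
    by_cases hf : f ∈ N
    · rcases hPtri (DerOrder_phi N f) with h | h | h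
      · left
        rw [QuotientGroup.eq_one_iff]
        exact DerOrder_mem_of_phi hf h
      · right; left
        exact ⟨f, rfl, Or.inr ⟨hf, h⟩⟩
      · right; right
        refine ⟨f⁻¹, rfl, Or.inr ⟨N.inv_mem hf, ?_⟩⟩
        have h1 := DerOrder_phi_mul hf f⁻¹
        rw [mul_inv_cancel, DerOrder_phi_comm (Subgroup.one_mem _)] at h1
        rwa [← (neg_eq_of_add_eq_zero_right h1.symm)]
    · have hne : (1 : FreeGroup (Fin 2) ⧸ N) ≠ QuotientGroup.mk f := by
        intro h
        exact hf ((QuotientGroup.eq_one_iff f).1 h.symm)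
      rcases lt_or_gt_of_ne hne with h | h
      · right; left
        exact ⟨f, rfl, Or.inl h⟩
      · right; right
        refine ⟨f⁻¹, rfl, Or.inl ?_⟩
        have h1 := ho _ _ (QuotientGroup.mk f : FreeGroup (Fin 2) ⧸ N)⁻¹ h
        rw [inv_mul_cancel, mul_one] at h1
        exact h1

theorem derived_order (m : ℕ) :
    ∃ o : LinearOrder (FreeGroup (Fin 2) ⧸ derivedSeries (FreeGroup (Fin 2)) m),
      ∀ a b c : FreeGroup (Fin 2) ⧸ derivedSeries (FreeGroup (Fin 2)) m,
        o.lt a b → o.lt (c * a) (c * b) := by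
  induction m with
  | zero =>
    refine DerOrder_ofCone ∅ (fun _ _ h => absurd h (Set.notMem_empty _)) (Set.notMem_empty _)
      fun a => Or.inl ?_
    obtain ⟨f, rfl⟩ := QuotientGroup.mk_surjective a
    rw [QuotientGroup.eq_one_iff]
    exact Subgroup.mem_top f
  | succ m ih =>
    obtain ⟨o, ho⟩ := ih
    exact DerOrder_step (derivedSeries (FreeGroup (Fin 2)) m) o ho

/-- A path with negative flow at an edge traverses the edge backwards. -/
theorem DerOrder_neg {Ω : Type*} (t : Fin 2 → Perm Ω) (y : Ω) (s : Fin 2)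
    (w : List (Fin 2 × Bool)) (x : Ω) (h : flow t w x (y, s) < 0) :
    ∃ w1 w2, w = w1 ++ (s, false) :: w2 ∧ walk t w1 x = t s y := by
  classical
  induction w generalizing x with
  | nil => simp [flow] at h
  | cons l w ih =>
    by_cases h2 : flow t w (step t l x) (y, s) < 0
    · obtain ⟨w1, w2, h3, h4⟩ := ih _ h2
      exact ⟨l :: w1, w2, by rw [h3]; rfl, h4⟩
    · refine ⟨[], w, ?_, ?_⟩
      all_goals
        obtain ⟨s', b⟩ := l
        simp only [flow, Finsupp.add_apply] at h
        cases b
        · simp only [Bool.false_eq_true, if_false, Finsupp.neg_apply, Finsupp.single_apply] at h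
          split_ifs at h with h3
          · rw [Prod.mk.injEq] at h3
            obtain ⟨h4, h5⟩ := h3
            subst h5
            first
            | rfl
            | (rw [walk_nil, ← h4]; exact (Equiv.apply_symm_apply _ _).symm)
          · exfalso; omega
        · simp only [if_true, Finsupp.single_apply] at h
          exfalso
          split_ifs at h <;> omega

/-- A path with positive flow at an edge traverses the edge forwards. -/
theorem DerOrder_pos {Ω : Type*} (t : Fin 2 → Perm Ω) (y : Ω) (s : Fin 2)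
    (w : List (Fin 2 × Bool)) (x : Ω) (h : 0 < flow t w x (y, s)) :
    ∃ w1 w2, w = w1 ++ (s, true) :: w2 ∧ walk t w1 x = y := by
  classical
  induction w generalizing x with
  | nil => simp [flow] at h
  | cons l w ih =>
    by_cases h2 : 0 < flow t w (step t l x) (y, s)
    · obtain ⟨w1, w2, h3, h4⟩ := ih _ h2
      exact ⟨l :: w1, w2, by rw [h3]; rfl, h4⟩
    · refine ⟨[], w, ?_, ?_⟩
      all_goals
        obtain ⟨s', b⟩ := l
        simp only [flow, Finsupp.add_apply] at h
        cases b
        · simp only [Bool.false_eq_true, if_false, Finsupp.neg_apply, Finsupp.single_apply] at h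
          exfalso
          split_ifs at h <;> omega
        · simp only [if_true, Finsupp.single_apply] at h
          split_ifs at h with h3
          · rw [Prod.mk.injEq] at h3
            obtain ⟨h4, h5⟩ := h3
            subst h5
            first
            | rfl
            | (rw [walk_nil, ← h4])
          · exfalso; omega

/-- If the flow of a path vanishes, then the first edge is traversed in the opposite direction
later. -/
theorem DerOrder_return {Ω : Type*} (t : Fin 2 → Perm Ω) (s : Fin 2) (b : Bool)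
    (w : List (Fin 2 × Bool)) (x : Ω) (h : flow t ((s, b) :: w) x = 0) :
    ∃ w1 w2, w = w1 ++ (s, !b) :: w2 ∧ walk t w1 (step t (s, b) x) = step t (s, b) x := by
  cases b
  · have h1 : 0 < flow t w (step t (s, false) x) ((t s)⁻¹ x, s) := by
      have h2 := DFunLike.congr_fun h ((t s)⁻¹ x, s)
      simp only [flow, Finsupp.add_apply, Bool.false_eq_true, if_false, Finsupp.neg_apply,
        Finsupp.single_eq_same, Finsupp.coe_zero, Pi.zero_apply] at h2
      omega
    exact DerOrder_pos t _ s w _ h1
  · have h1 : flow t w (step t (s, true) x) (x, s) < 0 := by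
      have h2 := DFunLike.congr_fun h (x, s)
      simp only [flow, Finsupp.add_apply, if_true,
        Finsupp.single_eq_same, Finsupp.coe_zero, Pi.zero_apply] at h2
      omega
    exact DerOrder_neg t _ s w _ h1

theorem DerOrder_length (m : ℕ) : ∀ f : FreeGroup (Fin 2),
    f ∈ derivedSeries (FreeGroup (Fin 2)) m → f ≠ 1 → m + 1 ≤ f.toWord.length := by
  induction m with
  | zero =>
    intro f _ hf
    rw [Nat.zero_add, Nat.one_le_iff_ne_zero]
    intro h
    rw [List.length_eq_zero_iff] at h
    exact hf (FreeGroup.toWord_eq_nil_iff.1 h)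
  | succ m ih =>
    intro f hf hf1
    set N := derivedSeries (FreeGroup (Fin 2)) m with hN
    have hflow : flow (cosetAct N) f.toWord (QuotientGroup.mk 1) = 0 := DerOrder_phi_comm hf
    have hred : FreeGroup.IsReduced f.toWord := FreeGroup.isReduced_toWord
    cases hw : f.toWord with
    | nil => exact absurd (FreeGroup.toWord_eq_nil_iff.1 hw) hf1
    | cons l w =>
      obtain ⟨s, b⟩ := l
      rw [hw] at hflow hred
      obtain ⟨w1, w2, h1, h2⟩ := DerOrder_return _ s b w _ hflow
      have hne : w1 ≠ [] := by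
        intro h3
        rw [h1, h3] at hred
        simp [FreeGroup.IsReduced] at hred
      have hred1 : FreeGroup.IsReduced w1 := by
        rw [h1] at hred
        exact (List.IsChain.tail hred).left_of_append
      have hred2 : (FreeGroup.mk w1).toWord = w1 := by
        rw [FreeGroup.toWord_mk]
        exact hred1.reduce_eq
      have hmem : FreeGroup.mk w1 ∈ N := by
        obtain ⟨g, hg⟩ := QuotientGroup.mk_surjective
          (step (cosetAct N) (s, b) (QuotientGroup.mk 1 : FreeGroup (Fin 2) ⧸ N))
        rw [← hg, walk_cosetAct, QuotientGroup.eq] at h2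
        have h3 : N.Normal := derivedSeries_normal _ m
        have h4 := h3.conj_mem _ h2 g
        have h5 : g * (((FreeGroup.mk w1)⁻¹ * g)⁻¹ * g) * g⁻¹ = FreeGroup.mk w1 := by
          group
        rwa [h5] at h4
      have hne1 : FreeGroup.mk w1 ≠ 1 := by
        intro h3
        rw [h3, FreeGroup.toWord_one] at hred2
        exact hne hred2.symm
      have h3 := ih _ hmem hne1
      rw [hred2] at h3
      rw [h1]
      simp only [List.length_cons, List.length_append]
      omega

theorem derived_iInf (f : FreeGroup (Fin 2))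
    (hf : ∀ m, f ∈ derivedSeries (FreeGroup (Fin 2)) m) : f = 1 := by
  by_contra h
  have := DerOrder_length f.toWord.length f (hf _) h
  omega

end SclIso
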