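import Pool.Agent.H.MP_1b0e60_al.Defs

/-!
Nielsen normalization of a generating pair.
-/

open Equiv Filter Topology

namespace SclIso

/-- exponent sum of the generator `s` as a homomorphism -/
def Nielsen_hom (s : Fin 2) : FreeGroup (Fin 2) →* Multiplicative ℤ :=
  FreeGroup.lift (fun t => if t = s then Multiplicative.ofAdd 1 else 1)

/-- exponent sum of the generator `s` -/
def Nielsen_e (s : Fin 2) (f : FreeGroup (Fin 2)) : ℤ := Multiplicative.toAdd (Nielsen_hom s f)

theorem Nielsen_e_mul (s : Fin 2) (f g : FreeGroup (Fin 2)) :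
    Nielsen_e s (f * g) = Nielsen_e s f + Nielsen_e s g := by
  unfold Nielsen_e
  rw [map_mul, toAdd_mul]

theorem Nielsen_e_inv (s : Fin 2) (f : FreeGroup (Fin 2)) :
    Nielsen_e s f⁻¹ = - Nielsen_e s f := by
  unfold Nielsen_e
  rw [map_inv, toAdd_inv]

theorem Nielsen_e_one (s : Fin 2) : Nielsen_e s 1 = 0 := by
  unfold Nielsen_e
  rw [map_one, toAdd_one]

theorem Nielsen_e_zpow (s : Fin 2) (f : FreeGroup (Fin 2)) (k : ℤ) :
    Nielsen_e s (f ^ k) = k * Nielsen_e s f := by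
  unfold Nielsen_e
  rw [map_zpow, toAdd_zpow, smul_eq_mul]

theorem Nielsen_e_of (s t : Fin 2) :
    Nielsen_e s (FreeGroup.of t) = if t = s then 1 else 0 := by
  unfold Nielsen_e Nielsen_hom
  rw [FreeGroup.lift_apply_of]
  split_ifs <;> rfl

theorem Nielsen_e_comm (s : Fin 2) (f : FreeGroup (Fin 2))
    (hf : f ∈ commutator (FreeGroup (Fin 2))) : Nielsen_e s f = 0 := by
  have h := Abelianization.commutator_subset_ker (Nielsen_hom s) hf
  rw [MonoidHom.mem_ker] at h
  unfold Nielsen_e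
  rw [h, toAdd_one]

theorem Nielsen_mem (f : FreeGroup (Fin 2)) (h0 : Nielsen_e 0 f = 0) (h1 : Nielsen_e 1 f = 0) :
    f ∈ commutator (FreeGroup (Fin 2)) := by
  have key : (Abelianization.of : FreeGroup (Fin 2) →* Abelianization (FreeGroup (Fin 2))) =
      ((zpowersHom _ (Abelianization.of (FreeGroup.of (0 : Fin 2)))).comp (Nielsen_hom 0)) *
        ((zpowersHom _ (Abelianization.of (FreeGroup.of (1 : Fin 2)))).comp (Nielsen_hom 1)) := by
    apply FreeGroup.ext_hom
    intro t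
    fin_cases t <;>
      simp [Nielsen_hom, FreeGroup.lift_apply_of]
  have h2 : Abelianization.of f = 1 := by
    rw [key, MonoidHom.mul_apply, MonoidHom.comp_apply, MonoidHom.comp_apply, zpowersHom_apply,
      zpowersHom_apply]
    have h0' : Multiplicative.toAdd (Nielsen_hom 0 f) = 0 := h0
    have h1' : Multiplicative.toAdd (Nielsen_hom 1 f) = 0 := h1
    rw [h0', h1', zpow_zero, zpow_zero, mul_one]
  exact (QuotientGroup.eq_one_iff f).mp h2

theorem Nielsen_closure_mul (u v : FreeGroup (Fin 2)) (k : ℤ) :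
    Subgroup.closure {u * v ^ k, v} = Subgroup.closure {u, v} := by
  apply le_antisymm
  · rw [Subgroup.closure_le]
    rintro x (rfl | rfl)
    · exact mul_mem (Subgroup.subset_closure (by simp))
        (zpow_mem (Subgroup.subset_closure (by simp)) k)
    · exact Subgroup.subset_closure (by simp)
  · rw [Subgroup.closure_le]
    rintro x (rfl | rfl)
    · have h1 : x * v ^ k ∈ Subgroup.closure {x * v ^ k, v} := Subgroup.subset_closure (by simp)
      have h2 : v ^ k ∈ Subgroup.closure {x * v ^ k, v} :=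
        zpow_mem (Subgroup.subset_closure (by simp)) k
      have h3 := mul_mem h1 (inv_mem h2)
      rwa [mul_inv_cancel_right] at h3
    · exact Subgroup.subset_closure (by simp)

theorem Nielsen_closure_inv (u v : FreeGroup (Fin 2)) :
    Subgroup.closure {u⁻¹, v} = Subgroup.closure {u, v} := by
  apply le_antisymm
  · rw [Subgroup.closure_le]
    rintro x (rfl | rfl)
    · exact inv_mem (Subgroup.subset_closure (by simp))
    · exact Subgroup.subset_closure (by simp)
  · rw [Subgroup.closure_le]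
    rintro x (rfl | rfl)
    · have h1 : x⁻¹ ∈ Subgroup.closure {x⁻¹, v} := Subgroup.subset_closure (by simp)
      have h2 := inv_mem h1
      rwa [inv_inv] at h2
    · exact Subgroup.subset_closure (by simp)

theorem Nielsen_sign_left (u v : FreeGroup (Fin 2)) (h : Nielsen_e 0 u = 1 ∨ Nielsen_e 0 u = -1) :
    ∃ u', Subgroup.closure {u', v} = Subgroup.closure {u, v} ∧ Nielsen_e 0 u' = 1 := by
  rcases h with h | h
  · exact ⟨u, rfl, h⟩
  · refine ⟨u⁻¹, Nielsen_closure_inv u v, ?_⟩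
    rw [Nielsen_e_inv, h]
    norm_num

theorem Nielsen_euclid (n : ℕ) : ∀ u v : FreeGroup (Fin 2), (Nielsen_e 0 v).natAbs = n →
    (Nielsen_e 0 u * Nielsen_e 1 v - Nielsen_e 0 v * Nielsen_e 1 u = 1 ∨
      Nielsen_e 0 u * Nielsen_e 1 v - Nielsen_e 0 v * Nielsen_e 1 u = -1) →
    ∃ u' v', Subgroup.closure {u', v'} = Subgroup.closure {u, v} ∧
      Nielsen_e 0 u' = 1 ∧ Nielsen_e 1 u' = 0 ∧ Nielsen_e 0 v' = 0 ∧ Nielsen_e 1 v' = 1 := by
  induction n using Nat.strong_induction_on with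
  | _ n ih =>
    intro u v hn hdet
    by_cases hv : Nielsen_e 0 v = 0
    · rw [hv, zero_mul, sub_zero] at hdet
      have h1 : (Nielsen_e 0 u = 1 ∨ Nielsen_e 0 u = -1) ∧
          (Nielsen_e 1 v = 1 ∨ Nielsen_e 1 v = -1) := by
        rcases hdet with h | h
        · exact ⟨Int.eq_one_or_neg_one_of_mul_eq_one h,
            Int.eq_one_or_neg_one_of_mul_eq_one (by rw [mul_comm]; exact h)⟩
        · exact ⟨Int.eq_one_or_neg_one_of_mul_eq_neg_one h,
            Int.eq_one_or_neg_one_of_mul_eq_neg_one (by rw [mul_comm]; exact h)⟩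
      -- normalise v
      obtain ⟨v', hv'1, hv'2, hv'3⟩ : ∃ v', Subgroup.closure {u, v'} = Subgroup.closure {u, v} ∧
          Nielsen_e 0 v' = 0 ∧ Nielsen_e 1 v' = 1 := by
        rcases h1.2 with h | h
        · exact ⟨v, rfl, hv, h⟩
        · refine ⟨v⁻¹, ?_, ?_, ?_⟩
          · rw [Set.pair_comm u v⁻¹, Nielsen_closure_inv, Set.pair_comm]
          · rw [Nielsen_e_inv, hv, neg_zero]
          · rw [Nielsen_e_inv, h]
            norm_num
      obtain ⟨u', hu'1, hu'2⟩ := Nielsen_sign_left u v' h1.1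
      refine ⟨u' * v' ^ (- Nielsen_e 1 u'), v', ?_, ?_, ?_, hv'2, hv'3⟩
      · rw [Nielsen_closure_mul, hu'1, hv'1]
      · rw [Nielsen_e_mul, Nielsen_e_zpow, hv'2, hu'2]
        ring
      · rw [Nielsen_e_mul, Nielsen_e_zpow, hv'3]
        ring
    · have hlt : (Nielsen_e 0 (u * v ^ (-(Nielsen_e 0 u / Nielsen_e 0 v)))).natAbs < n := by
        rw [Nielsen_e_mul, Nielsen_e_zpow]
        have h1 : Nielsen_e 0 u + -(Nielsen_e 0 u / Nielsen_e 0 v) * Nielsen_e 0 v =
            Nielsen_e 0 u % Nielsen_e 0 v := by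
          have := Int.emod_add_mul_ediv (Nielsen_e 0 u) (Nielsen_e 0 v)
          linarith
        rw [h1, ← hn]
        have h2 := Int.emod_nonneg (Nielsen_e 0 u) hv
        have h3 := Int.emod_lt_abs (Nielsen_e 0 u) hv
        rw [Int.abs_eq_natAbs] at h3
        omega
      obtain ⟨u', v', h1, h2⟩ := ih _ hlt v (u * v ^ (-(Nielsen_e 0 u / Nielsen_e 0 v))) rfl (by
        have h3 : Nielsen_e 0 v * Nielsen_e 1 (u * v ^ (-(Nielsen_e 0 u / Nielsen_e 0 v))) -
            Nielsen_e 0 (u * v ^ (-(Nielsen_e 0 u / Nielsen_e 0 v))) * Nielsen_e 1 v =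
            -(Nielsen_e 0 u * Nielsen_e 1 v - Nielsen_e 0 v * Nielsen_e 1 u) := by
          simp only [Nielsen_e_mul, Nielsen_e_zpow]
          ring
        rw [h3]
        rcases hdet with h | h
        · right
          rw [h]
        · left
          rw [h]
          norm_num)
      refine ⟨u', v', ?_, h2⟩
      rw [h1, Set.pair_comm, Nielsen_closure_mul]

theorem Nielsen_exists_coeff (u v : FreeGroup (Fin 2))
    (h : Subgroup.closure {u, v} ⊔ commutator (FreeGroup (Fin 2)) = ⊤) (f : FreeGroup (Fin 2)) :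
    ∃ i j : ℤ, ∀ s, Nielsen_e s f = i * Nielsen_e s u + j * Nielsen_e s v := by
  have hf : f ∈ Subgroup.closure {u, v} ⊔ commutator (FreeGroup (Fin 2)) := by
    rw [h]
    exact Subgroup.mem_top f
  rw [Subgroup.mem_sup_of_normal_right] at hf
  obtain ⟨x, hx, y, hy, rfl⟩ := hf
  have h1 : ∃ i j : ℤ, ∀ s, Nielsen_e s x = i * Nielsen_e s u + j * Nielsen_e s v := by
    induction hx using Subgroup.closure_induction with
    | mem x hx =>
      rcases hx with rfl | rfl
      · exact ⟨1, 0, fun s => by ring⟩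
      · exact ⟨0, 1, fun s => by ring⟩
    | one => exact ⟨0, 0, fun s => by rw [Nielsen_e_one]; ring⟩
    | mul x y _ _ hx hy =>
      obtain ⟨i, j, h1⟩ := hx
      obtain ⟨i', j', h2⟩ := hy
      exact ⟨i + i', j + j', fun s => by rw [Nielsen_e_mul, h1, h2]; ring⟩
    | inv x _ hx =>
      obtain ⟨i, j, h1⟩ := hx
      exact ⟨-i, -j, fun s => by rw [Nielsen_e_inv, h1]; ring⟩
  obtain ⟨i, j, h2⟩ := h1
  exact ⟨i, j, fun s => by rw [Nielsen_e_mul, h2, Nielsen_e_comm s y hy, add_zero]⟩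

theorem nielsen_normalize (u v : FreeGroup (Fin 2))
    (h : Subgroup.closure {u, v} ⊔ commutator (FreeGroup (Fin 2)) = ⊤) :
    ∃ u' v', Subgroup.closure {u', v'} = Subgroup.closure {u, v} ∧
      u' * (FreeGroup.of 0)⁻¹ ∈ commutator (FreeGroup (Fin 2)) ∧
      v' * (FreeGroup.of 1)⁻¹ ∈ commutator (FreeGroup (Fin 2)) := by
  obtain ⟨i1, j1, h1⟩ := Nielsen_exists_coeff u v h (FreeGroup.of 0)
  obtain ⟨i2, j2, h2⟩ := Nielsen_exists_coeff u v h (FreeGroup.of 1)
  have h10 := h1 0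
  have h11 := h1 1
  have h20 := h2 0
  have h21 := h2 1
  rw [Nielsen_e_of] at h10 h11 h20 h21
  simp only [if_true, Fin.isValue, zero_ne_one, one_ne_zero, if_false] at h10 h11 h20 h21
  have hdet : (Nielsen_e 0 u * Nielsen_e 1 v - Nielsen_e 0 v * Nielsen_e 1 u) *
      (i1 * j2 - j1 * i2) = 1 := by
    have : (Nielsen_e 0 u * Nielsen_e 1 v - Nielsen_e 0 v * Nielsen_e 1 u) *
      (i1 * j2 - j1 * i2) = (i1 * Nielsen_e 0 u + j1 * Nielsen_e 0 v) *
        (i2 * Nielsen_e 1 u + j2 * Nielsen_e 1 v) -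
        (i1 * Nielsen_e 1 u + j1 * Nielsen_e 1 v) *
        (i2 * Nielsen_e 0 u + j2 * Nielsen_e 0 v) := by ring
    rw [this, ← h10, ← h11, ← h20, ← h21]
    norm_num
  obtain ⟨u', v', hc, hu0, hu1, hv0, hv1⟩ := Nielsen_euclid _ u v rfl
    (Int.eq_one_or_neg_one_of_mul_eq_one hdet)
  refine ⟨u', v', hc, ?_, ?_⟩
  · apply Nielsen_mem
    · rw [Nielsen_e_mul, Nielsen_e_inv, Nielsen_e_of, hu0]
      simp
    · rw [Nielsen_e_mul, Nielsen_e_inv, Nielsen_e_of, hu1]
      simp
  · apply Nielsen_mem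
    · rw [Nielsen_e_mul, Nielsen_e_inv, Nielsen_e_of, hv0]
      simp
    · rw [Nielsen_e_mul, Nielsen_e_inv, Nielsen_e_of, hv1]
      simp

end SclIso
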