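import Pool.Agent.H.MP_1b0e60_al.ThmD
import Pool.Agent.H.MP_1b0e60_al.Closure
import Pool.Agent.H.MP_1b0e60_al.Nielsen
import Pool.Agent.H.MP_1b0e60_al.DerOrder

/-!
Rank 2 subgroups of `F_2` are closed in the topology of the derived series.
-/

open Equiv Filter Topology

namespace SclIso

/-- a left order on the quotient by the preimage of `D` -/
private theorem order_comap (j : FreeGroup (Fin 2) →* FreeGroup (Fin 2)) (m : ℕ) :
    ∃ o : LinearOrder (FreeGroup (Fin 2) ⧸ (derivedSeries (FreeGroup (Fin 2)) m).comap j),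
      ∀ a b c : FreeGroup (Fin 2) ⧸ (derivedSeries (FreeGroup (Fin 2)) m).comap j,
        o.lt a b → o.lt (c * a) (c * b) := by
  obtain ⟨o, ho⟩ := derived_order m
  let q : FreeGroup (Fin 2) ⧸ (derivedSeries (FreeGroup (Fin 2)) m).comap j →*
      FreeGroup (Fin 2) ⧸ derivedSeries (FreeGroup (Fin 2)) m :=
    QuotientGroup.map _ _ j le_rfl
  have hq : Function.Injective q := by
    rw [injective_iff_map_eq_one]
    intro x
    induction x using QuotientGroup.induction_on with
    | H z =>
      intro hz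
      have hz' : (QuotientGroup.mk (j z) :
        FreeGroup (Fin 2) ⧸ derivedSeries (FreeGroup (Fin 2)) m) = 1 := hz
      rw [QuotientGroup.eq_one_iff] at hz'
      exact (QuotientGroup.eq_one_iff z).2 hz'
  refine ⟨@LinearOrder.lift' _ _ o q hq, ?_⟩
  intro a b c hab
  have h1 : o.lt (q a) (q b) := hab
  have h2 := ho (q a) (q b) (q c) h1
  rw [← map_mul, ← map_mul] at h2
  exact h2

theorem closed_of_rank_two (u v : FreeGroup (Fin 2)) (huv : u * v ≠ v * u)
    (f : FreeGroup (Fin 2))
    (hf : ∀ m, f ∈ Subgroup.closure {u, v} ⊔ derivedSeries (FreeGroup (Fin 2)) m) :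
    f ∈ Subgroup.closure {u, v} := by
  have hM : ∀ f, f ∈ (⨅ m, (Subgroup.closure {u, v} ⊔ derivedSeries (FreeGroup (Fin 2)) m)) ↔
      ∀ m, f ∈ Subgroup.closure {u, v} ⊔ derivedSeries (FreeGroup (Fin 2)) m := by
    intro f
    rw [Subgroup.mem_iInf]
  generalize (⨅ m, (Subgroup.closure {u, v} ⊔ derivedSeries (FreeGroup (Fin 2)) m)) = M at hM
  obtain ⟨e, m0, hem⟩ := closure_structure u v huv M hM
  set j : FreeGroup (Fin 2) →* FreeGroup (Fin 2) := M.subtype.comp e.toMonoidHom with hj
  have hjapp : ∀ x, j x = ((e x : M) : FreeGroup (Fin 2)) := fun x => rfl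
  have hjinj : Function.Injective j := by
    intro x y hxy
    rw [hjapp, hjapp] at hxy
    exact e.injective (Subtype.ext hxy)
  have hHM : Subgroup.closure {u, v} ≤ M := by
    intro x hx
    exact (hM x).2 (fun m => (le_sup_left : _ ≤ Subgroup.closure {u, v} ⊔ derivedSeries _ m) hx)
  have huM : u ∈ M := hHM (Subgroup.subset_closure (by simp))
  have hvM : v ∈ M := hHM (Subgroup.subset_closure (by simp))
  have hcl : Subgroup.closure {e.symm ⟨u, huM⟩, e.symm ⟨v, hvM⟩} =
      (Subgroup.closure {u, v}).comap j := by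
    apply Subgroup.map_injective hjinj
    rw [MonoidHom.map_closure, Set.image_pair, hjapp, hjapp, MulEquiv.apply_symm_apply,
      MulEquiv.apply_symm_apply]
    apply le_antisymm
    · rw [Subgroup.closure_le]
      intro x hx
      have hxM : x ∈ M := hHM (Subgroup.subset_closure hx)
      refine ⟨e.symm ⟨x, hxM⟩, ?_, ?_⟩
      · change j (e.symm ⟨x, hxM⟩) ∈ Subgroup.closure {u, v}
        rw [hjapp, MulEquiv.apply_symm_apply]
        exact Subgroup.subset_closure hx
      · rw [hjapp, MulEquiv.apply_symm_apply]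
    · rintro _ ⟨x, hx, rfl⟩
      exact hx
  have hcomm : ∀ m, ⁅(derivedSeries (FreeGroup (Fin 2)) m).comap j,
      (derivedSeries (FreeGroup (Fin 2)) m).comap j⁆ ≤ commutator (FreeGroup (Fin 2)) := by
    intro m
    rw [commutator_def]
    exact Subgroup.commutator_mono le_top le_top
  obtain ⟨u', v', huv', hu', hv'⟩ := nielsen_normalize (e.symm ⟨u, huM⟩) (e.symm ⟨v, hvM⟩) (by
    rw [hcl, eq_top_iff, ← (hem m0 le_rfl).2]
    exact sup_le_sup_left (hcomm m0) _)
  have htop : Subgroup.closure {u', v'} = ⊤ := by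
    refine thmD (fun m => (derivedSeries (FreeGroup (Fin 2)) (m0 + m)).comap j)
      (fun m => inferInstance) ?_ ?_ (fun m => (hem (m0 + m) (by omega)).1)
      (fun m => order_comap j (m0 + m)) u' v' ?_ hu' hv'
    · intro m m' hmm
      exact Subgroup.comap_mono (derivedSeries_antitone _ (by omega))
    · intro x hx
      have h1 : j x = 1 := by
        apply derived_iInf
        intro m
        exact derivedSeries_antitone _ (by omega : m ≤ m0 + m) (hx m)
      exact hjinj (by rw [h1, map_one])
    · intro m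
      rw [huv', hcl]
      exact (hem (m0 + m) (by omega)).2
  have hfM : f ∈ M := (hM f).2 hf
  have h1 : e.symm ⟨f, hfM⟩ ∈ (Subgroup.closure {u, v}).comap j := by
    rw [← hcl, ← huv', htop]
    exact Subgroup.mem_top _
  have h2 : j (e.symm ⟨f, hfM⟩) ∈ Subgroup.closure {u, v} := h1
  rwa [hjapp, MulEquiv.apply_symm_apply] at h2

end SclIso
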