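import Pool.Agent.H.MP_1b0e60_al.Cyc

/-!
Covers and `FillLt`: basic properties.
-/

open Equiv Filter Topology

namespace SclIso

variable {ι κ L M : Type}

theorem exists_perm_extend {A B : Type*} [Finite A] (f g : A → B) (i : Perm A)
    (hi : ∀ a, g (i a) = f a) (S : Set A) (s : A → A) (hs : Set.InjOn s S)
    (hsf : ∀ a ∈ S, g (s a) = f a) :
    ∃ σ : Perm A, (∀ a, g (σ a) = f a) ∧ ∀ a ∈ S, σ a = s a := by
  classical
  -- the perms of the fibres
  have key : ∀ b : B, ∃ Θ : Perm {a // f a = b}, ∀ a : {a // f a = b}, a.1 ∈ S →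
      ((Θ a : {a // f a = b}) : A) = i.symm (s a.1) := by
    intro b
    have : Fintype {a // f a = b} := Fintype.ofFinite _
    let θ : {a : {a // f a = b} // a.1 ∈ S} → {a // f a = b} := fun a =>
      ⟨i.symm (s a.1.1), by
        rw [← hi, Equiv.apply_symm_apply, hsf _ a.2]
        exact a.1.2⟩
    have hθ : Function.Injective θ := by
      intro a a' h
      have h1 : i.symm (s a.1.1) = i.symm (s a'.1.1) := congrArg Subtype.val h
      exact Subtype.ext (Subtype.ext (hs a.2 a'.2 (i.symm.injective h1)))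
    let e : {a : {a // f a = b} // a.1 ∈ S} ≃ {a : {a // f a = b} // a ∈ Set.range θ} :=
      Equiv.ofInjective θ hθ
    refine ⟨e.extendSubtype, ?_⟩
    intro a ha
    rw [Equiv.extendSubtype_apply_of_mem e a ha]
    rfl
  choose Θ hΘ using key
  let T : Perm A := (Equiv.sigmaFiberEquiv f).permCongr (Equiv.sigmaCongrRight Θ)
  have hT : ∀ a, T a = ((Θ (f a) ⟨a, rfl⟩ : {x // f x = f a}) : A) := fun a => rfl
  have hfT : ∀ a, f (T a) = f a := by
    intro a
    rw [hT]
    exact (Θ (f a) ⟨a, rfl⟩).2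
  refine ⟨i * T, ?_, ?_⟩
  · intro a
    rw [Equiv.Perm.mul_apply, hi, hfT]
  · intro a ha
    rw [Equiv.Perm.mul_apply, hT, hΘ (f a) ⟨a, rfl⟩ ha, Equiv.apply_symm_apply]

theorem exists_pairing_of_card {L : Type*} {ι : Type*} [Finite L] (lab : L → ι × Bool)
    (h : ∀ e, Nat.card {x // lab x = (e, true)} = Nat.card {x // lab x = (e, false)}) :
    ∃ π, IsPairing lab π := by
  classical
  have hE : ∀ e, Nonempty ({x // lab x = (e, true)} ≃ {x // lab x = (e, false)}) := fun e =>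
    ⟨(Finite.equivFin _).trans ((finCongr (h e)).trans (Finite.equivFin _).symm)⟩
  let E : ∀ e, {x // lab x = (e, true)} ≃ {x // lab x = (e, false)} := fun e => (hE e).some
  let f : L → L := fun x =>
    if hx : (lab x).2 = true then ((E (lab x).1 ⟨x, Prod.ext rfl hx⟩ : {x' // lab x' = _}) : L)
    else (((E (lab x).1).symm ⟨x, Prod.ext rfl (by simpa using hx)⟩ : {x' // lab x' = _}) : L)
  have f_true : ∀ e x (hx : lab x = (e, true)), f x = ((E e ⟨x, hx⟩ : {x' // lab x' = _}) : L) := by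
    intro e x hx
    obtain rfl : (lab x).1 = e := by rw [hx]
    have h2 : (lab x).2 = true := by rw [hx]
    simp only [f, dif_pos h2]
  have f_false : ∀ e x (hx : lab x = (e, false)),
      f x = (((E e).symm ⟨x, hx⟩ : {x' // lab x' = _}) : L) := by
    intro e x hx
    obtain rfl : (lab x).1 = e := by rw [hx]
    have h2 : ¬ (lab x).2 = true := by rw [hx]; simp
    simp only [f, dif_neg h2]
  have hlab : ∀ x, lab (f x) = linv (lab x) := by
    intro x
    rcases hx : lab x with ⟨e, b⟩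
    cases b
    · rw [f_false e x hx]
      exact ((E e).symm ⟨x, hx⟩).2
    · rw [f_true e x hx]
      exact (E e ⟨x, hx⟩).2
  have hinv : ∀ x, f (f x) = x := by
    intro x
    rcases hx : lab x with ⟨e, b⟩
    cases b
    · rw [f_false e x hx, f_true e _ ((E e).symm ⟨x, hx⟩).2]
      simp
    · rw [f_true e x hx, f_false e _ (E e ⟨x, hx⟩).2]
      simp
  refine ⟨⟨f, f, hinv, hinv⟩, hinv, hlab⟩

theorem FillLt.mono {σ : Perm L} {lab : L → ι × Bool} {r r' : ℝ} (h : FillLt σ lab r)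
    (hr : r ≤ r') : FillLt σ lab r' := by
  obtain ⟨n, L', hfin, p, σ', π, hn, hc, hp, hE⟩ := h
  refine ⟨n, L', hfin, p, σ', π, hn, hc, hp, hE.trans_le ?_⟩
  exact mul_le_mul_of_nonneg_left hr (Nat.cast_nonneg n)

theorem FillLt.map {σ : Perm L} {lab : L → ι × Bool} {r : ℝ} (h : FillLt σ lab r) (q : ι → κ) :
    FillLt σ (fun x => mapL q (lab x)) r := by
  obtain ⟨n, L', hfin, p, σ', π, hn, hc, hp, hE⟩ := h
  refine ⟨n, L', hfin, p, σ', π, hn, hc, ⟨hp.invol, ?_⟩, hE⟩
  intro x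
  have := hp.lab_inv x
  simp only at this ⊢
  rw [this]
  rfl

theorem FillLt.congr {σ : Perm L} {lab : L → ι × Bool} {r : ℝ} (h : FillLt σ lab r) (e : M ≃ L)
    (τ : Perm M) (hτ : ∀ x, e (τ x) = σ (e x)) : FillLt τ (fun x => lab (e x)) r := by
  obtain ⟨n, L', hfin, p, σ', π, hn, hc, hp, hE⟩ := h
  refine ⟨n, L', hfin, fun x => e.symm (p x), σ', π, hn, ⟨?_, ?_⟩, ?_, hE⟩
  · intro x
    apply e.injective
    rw [hτ, Equiv.apply_symm_apply, Equiv.apply_symm_apply, hc.comm]
  · intro y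
    rw [← hc.fib (e y)]
    refine Nat.card_congr (Equiv.subtypeEquivRight fun x => ?_)
    exact Equiv.symm_apply_eq e
  · simpa using hp

theorem FillLt.of_pairing [Finite L] {σ : Perm L} {lab : L → ι × Bool} {r : ℝ} {π : Perm L}
    (hπ : IsPairing lab π) (h : ((E2 σ π : ℤ) : ℝ) < r) : FillLt σ lab r := by
  refine ⟨1, L, inferInstance, id, σ, π, one_pos, ⟨fun x => rfl, fun y => ?_⟩, hπ, by simpa using h⟩
  simp

theorem Cover_comp {A B C : Type*} [Finite A] [Finite B] {σ : Perm A} {τ : Perm B} {ρ : Perm C}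
    {p : A → B} {q : B → C} {k n : ℕ} (h : IsCover σ τ p k) (h' : IsCover τ ρ q n) :
    IsCover σ ρ (fun x => q (p x)) (k * n) := by
  refine ⟨fun x => by rw [h.comm, h'.comm], fun y => ?_⟩
  have e : {x // q (p x) = y} ≃ Σ z : {z // q z = y}, {x // p x = z.1} :=
    { toFun := fun x => ⟨⟨p x.1, x.2⟩, ⟨x.1, rfl⟩⟩
      invFun := fun z => ⟨z.2.1, by rw [z.2.2]; exact z.1.2⟩
      left_inv := fun x => rfl
      right_inv := by
        rintro ⟨⟨z, hz⟩, ⟨x, hx⟩⟩
        simp only at hx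
        subst hx
        rfl }
  rw [Nat.card_congr e]
  have : Fintype {z // q z = y} := Fintype.ofFinite _
  rw [Nat.card_sigma]
  simp only [h.fib]
  rw [Finset.sum_const, smul_eq_mul, mul_comm, Finset.card_univ, ← Nat.card_eq_fintype_card,
    h'.fib]

theorem FillLt.of_cover [Finite M] {σ : Perm L} {lab : L → ι × Bool} {r : ℝ} {τ : Perm M}
    {p : M → L} {n : ℕ} (hn : 0 < n) (hc : IsCover τ σ p n)
    (h : FillLt τ (fun x => lab (p x)) (n * r)) : FillLt σ lab r := by
  obtain ⟨k, L', hfin, p', σ', π, hk, hc', hp, hE⟩ := h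
  refine ⟨k * n, L', hfin, fun x => p (p' x), σ', π, Nat.mul_pos hk hn, Cover_comp hc' hc, hp, ?_⟩
  push_cast
  rw [mul_assoc]
  exact hE

theorem Cover_E2_empty {A : Type*} [IsEmpty A] (σ π : Perm A) : E2 σ π = 0 := by
  unfold E2 ncyc
  have h1 : IsEmpty (Quotient (Perm.SameCycle.setoid (σ * π))) :=
    ⟨fun q => Quotient.inductionOn q fun a => isEmptyElim a⟩
  rw [Nat.card_of_isEmpty, Nat.card_of_isEmpty]
  simp

theorem FillLt.of_isEmpty [IsEmpty L] (σ : Perm L) (lab : L → ι × Bool) {r : ℝ} :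
    FillLt σ lab r ↔ 0 < r := by
  constructor
  · rintro ⟨n, L', hfin, p, σ', π, hn, hc, hp, hE⟩
    have : IsEmpty L' := ⟨fun x => isEmptyElim (p x)⟩
    rw [Cover_E2_empty] at hE
    simp only [Int.cast_zero] at hE
    have hn' : (0 : ℝ) < n := by exact_mod_cast hn
    exact (pos_iff_pos_of_mul_pos hE).1 hn'
  · intro hr
    refine ⟨1, Empty, inferInstance, fun x => x.elim, 1, 1, one_pos, ⟨fun x => x.elim,
      fun y => isEmptyElim y⟩, ⟨fun x => x.elim, fun x => x.elim⟩, ?_⟩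
    rw [Cover_E2_empty]
    simpa using hr

end SclIso
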