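import Pool.Agent.H.MP_1b0e60_al.Cut
import Pool.Agent.H.MP_1b0e60_al.Cover

/-!
Cutting and covers.
-/

open Equiv Filter Topology

namespace SclIso

variable {ι κ L M : Type}

/-! ### A lower bound for the number of cycles -/

theorem CoverCut_ret_aux {N M : Type*} (f : Perm N) (g : Perm M) (j : M → N)
    (hj : Function.Injective j)
    (hret : ∀ u, ∃ k : ℕ, 0 < k ∧ (f ^ k) (j u) = j (g u) ∧
      ∀ l, 0 < l → l < k → (f ^ l) (j u) ∉ Set.range j) :
    ∀ (m : ℕ) (u v : M), (f ^ m) (j u) = j v → ∃ i : ℕ, (g ^ i) u = v := by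
  intro m
  induction m using Nat.strong_induction_on with
  | _ m ih =>
    intro u v h
    rcases Nat.eq_zero_or_pos m with hm | hm
    · subst hm
      exact ⟨0, hj (by simpa using h)⟩
    · obtain ⟨k, hk, hk1, hk2⟩ := hret u
      by_cases hkm : m < k
      · exact absurd ⟨v, h.symm⟩ (hk2 m hm hkm)
      · push Not at hkm
        have h1 : (f ^ (m - k)) (j (g u)) = j v := by
          rw [← hk1, ← Perm.mul_apply, ← pow_add, Nat.sub_add_cancel hkm, h]
        obtain ⟨i, hi⟩ := ih (m - k) (by omega) (g u) v h1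
        refine ⟨i + 1, ?_⟩
        rw [pow_succ, Perm.mul_apply, hi]

theorem CoverCut_ret {N M : Type*} [Finite N] [Finite M] (f : Perm N) (g : Perm M) (j : M → N)
    (hj : Function.Injective j)
    (hret : ∀ u, ∃ k : ℕ, 0 < k ∧ (f ^ k) (j u) = j (g u) ∧
      ∀ l, 0 < l → l < k → (f ^ l) (j u) ∉ Set.range j)
    (E : Finset N) (hE : ∀ e ∈ E, ∃ C : Set N, e ∈ C ∧ (∀ z ∈ C, f z ∈ C) ∧
      (∀ z ∈ C, z ∉ Set.range j) ∧ ∀ e' ∈ E, e' ∈ C → e' = e) :
    ncyc g + E.card ≤ ncyc f := by
  classical
  have haux := CoverCut_ret_aux f g j hj hret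
  have hstep : ∀ u, f.SameCycle (j u) (j (g u)) := by
    intro u
    obtain ⟨k, _, hk1, _⟩ := hret u
    exact ⟨k, by rw [zpow_natCast]; exact hk1⟩
  have hpow : ∀ (i : ℕ) (u : M), f.SameCycle (j u) (j ((g ^ i) u)) := by
    intro i
    induction i with
    | zero => intro u; simpa using Perm.SameCycle.refl f (j u)
    | succ i ih =>
      intro u
      rw [pow_succ, Perm.mul_apply]
      exact (hstep u).trans (ih (g u))
  have hwd : ∀ u v, g.SameCycle u v → f.SameCycle (j u) (j v) := by
    intro u v h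
    obtain ⟨i, hi⟩ := h.exists_nat_pow_eq
    rw [← hi]
    exact hpow i u
  have hC : ∀ (C : Set N), (∀ z ∈ C, f z ∈ C) → ∀ z ∈ C, ∀ w, f.SameCycle z w → w ∈ C := by
    intro C hC z hz w h
    obtain ⟨i, hi⟩ := h.exists_nat_pow_eq
    rw [← hi]
    clear hi h
    induction i with
    | zero => simpa using hz
    | succ i ih =>
      rw [pow_succ', Perm.mul_apply]
      exact hC _ ih
  let φ : Quotient (Perm.SameCycle.setoid g) ⊕ {e // e ∈ E} →
      Quotient (Perm.SameCycle.setoid f) :=
    Sum.elim (Quotient.lift (fun u => (Quotient.mk (Perm.SameCycle.setoid f) (j u)))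
      (fun u v h => Quotient.sound (hwd u v h)))
      (fun e => Quotient.mk (Perm.SameCycle.setoid f) e.1)
  have hφ : Function.Injective φ := by
    rintro (a | a) (b | b) h
    · induction a using Quotient.inductionOn with
      | _ u =>
        induction b using Quotient.inductionOn with
        | _ v =>
          have h1 : f.SameCycle (j u) (j v) := Quotient.exact h
          obtain ⟨i, hi⟩ := h1.exists_nat_pow_eq
          obtain ⟨i', hi'⟩ := haux i u v hi
          have : g.SameCycle u v := ⟨i', by rw [zpow_natCast]; exact hi'⟩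
          exact congrArg Sum.inl (Quotient.sound this)
    · exfalso
      induction a using Quotient.inductionOn with
      | _ u =>
        have h1 : f.SameCycle (j u) b.1 := Quotient.exact h
        obtain ⟨C, c1, c2, c3, -⟩ := hE b.1 b.2
        exact c3 _ (hC C c2 b.1 c1 (j u) h1.symm) ⟨u, rfl⟩
    · exfalso
      induction b using Quotient.inductionOn with
      | _ u =>
        have h1 : f.SameCycle a.1 (j u) := Quotient.exact h
        obtain ⟨C, c1, c2, c3, -⟩ := hE a.1 a.2
        exact c3 _ (hC C c2 a.1 c1 (j u) h1) ⟨u, rfl⟩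
    · have h1 : f.SameCycle a.1 b.1 := Quotient.exact h
      obtain ⟨C, c1, c2, -, c4⟩ := hE a.1 a.2
      have h2 := c4 b.1 b.2 (hC C c2 a.1 c1 b.1 h1)
      exact congrArg Sum.inr (Subtype.ext h2.symm)
  have h1 := Nat.card_le_card_of_injective φ hφ
  rw [Nat.card_sum] at h1
  have h2 : Nat.card {e // e ∈ E} = E.card := by simp
  rw [h2] at h1
  exact h1

/-! ### Extension of a permutation of `{z // P z} × Q` by the identity -/

/-- extension by the identity -/
def CoverCut_ext {L Q : Type*} {P : L → Prop} [DecidablePred P] (g : Perm ({z // P z} × Q)) :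
    Perm (L × Q) where
  toFun w := if h : P w.1 then (((g (⟨w.1, h⟩, w.2)).1 : L), (g (⟨w.1, h⟩, w.2)).2) else w
  invFun w := if h : P w.1 then (((g.symm (⟨w.1, h⟩, w.2)).1 : L), (g.symm (⟨w.1, h⟩, w.2)).2)
    else w
  left_inv w := by
    by_cases h : P w.1
    · simp [h, Subtype.prop]
    · simp [h]
  right_inv w := by
    by_cases h : P w.1
    · simp [h, Subtype.prop]
    · simp [h]

theorem CoverCut_ext_mem {L Q : Type*} {P : L → Prop} [DecidablePred P]
    (g : Perm ({z // P z} × Q)) (a : {z // P z}) (i : Q) :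
    CoverCut_ext g (a.1, i) = (((g (a, i)).1 : L), (g (a, i)).2) := by
  simp [CoverCut_ext, a.2]

theorem CoverCut_ext_not {L Q : Type*} {P : L → Prop} [DecidablePred P]
    (g : Perm ({z // P z} × Q)) (a : L) (h : ¬ P a) (i : Q) :
    CoverCut_ext g (a, i) = (a, i) := by
  simp [CoverCut_ext, h]

/-! ### The first theorem -/

theorem CoverCut_fst {L N : Type} [Finite L] (p : N → L) (n : ℕ) [Finite N]
    (h : ∀ y, Nat.card {x // p x = y} = n) : ∃ e : N ≃ L × Fin n, ∀ w, (e w).1 = p w := by
  classical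
  have hb : ∀ b : L, Nonempty ({x // p x = b} ≃ Fin n) := fun b =>
    ⟨Finite.equivFinOfCardEq (h b)⟩
  let eb : ∀ b, {x // p x = b} ≃ Fin n := fun b => Classical.choice (hb b)
  refine ⟨(Equiv.sigmaFiberEquiv p).symm.trans
    ((Equiv.sigmaCongrRight (fun b => eb b)).trans (Equiv.sigmaEquivProd _ _)), fun w => rfl⟩

theorem fill_of_cut [Finite L] [DecidableEq L] (σ : Perm L) {x y : L} (hxy : x ≠ y)
    (lab : L → ι × Bool) (hlab : lab y = linv (lab x)) (σ' : Perm {z : L // z ≠ x ∧ z ≠ y})
    (hσ' : IsCut σ x y σ') (r : ℝ)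
    (h : FillLt σ' (fun z : {z : L // z ≠ x ∧ z ≠ y} => lab z) (r - 2 + 2 * c0 σ x y)) :
    FillLt σ lab r := by
  obtain ⟨n, N', hN', p', τ', π', hn, hcov, hpair, hE⟩ := h
  obtain ⟨e, he⟩ := CoverCut_fst p' n hcov.fib
  -- transport to the product
  set τ1 : Perm ({z : L // z ≠ x ∧ z ≠ y} × Fin n) := e.permCongr τ' with hτ1
  set π1 : Perm ({z : L // z ≠ x ∧ z ≠ y} × Fin n) := e.permCongr π' with hπ1
  have hτ1f : ∀ u, (τ1 u).1 = σ' u.1 := by
    intro u
    rw [hτ1, Equiv.permCongr_apply, he, hcov.comm, ← he, Equiv.apply_symm_apply]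
  have hπ1i : ∀ u, π1 (π1 u) = u := by
    intro u
    rw [hπ1, Equiv.permCongr_apply, Equiv.permCongr_apply, Equiv.symm_apply_apply, hpair.invol,
      Equiv.apply_symm_apply]
  have hπ1l : ∀ u, lab (π1 u).1 = linv (lab u.1) := by
    intro u
    have := hpair.lab_inv (e.symm u)
    rw [← he, ← he, Equiv.apply_symm_apply] at this
    rw [hπ1, Equiv.permCongr_apply]
    exact this
  have hncyc : ncyc (τ1 * π1) = ncyc (τ' * π') := by
    have : τ1 * π1 = e.permCongr (τ' * π') := by
      ext1 u
      simp [hτ1, hπ1, Equiv.permCongr_apply]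
    rw [this, ncyc_permCongr]
  -- the permutation `ρ`
  set S : Perm L := Perm.ofSubtype σ' with hS
  have hSmem : ∀ b : {z : L // z ≠ x ∧ z ≠ y}, S b.1 = (σ' b).1 := by
    intro b
    rw [hS, Perm.ofSubtype_apply_coe]
  have hSx : S x = x := by
    rw [hS]
    exact Perm.ofSubtype_apply_of_not_mem σ' (by simp)
  have hSy : S y = y := by
    rw [hS]
    exact Perm.ofSubtype_apply_of_not_mem σ' (by simp)
  set ρ : Perm L := σ.trans S.symm with hρ
  have hρ_iff : ∀ z w, σ z = S w → ρ z = w := by
    intro z w h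
    rw [hρ, Equiv.trans_apply, h, Equiv.symm_apply_apply]
  have hSρ : ∀ z, S (ρ z) = σ z := by
    intro z
    rw [hρ, Equiv.trans_apply, Equiv.apply_symm_apply]
  set T : Perm (L × Fin n) := CoverCut_ext τ1 with hT
  have hTf : ∀ w, (T w).1 = S w.1 := by
    rintro ⟨a, i⟩
    by_cases ha : a ≠ x ∧ a ≠ y
    · have h1 := CoverCut_ext_mem τ1 ⟨a, ha⟩ i
      have h2 : T (a, i) = (((τ1 (⟨a, ha⟩, i)).1 : L), (τ1 (⟨a, ha⟩, i)).2) := h1
      rw [h2]
      change ((τ1 (⟨a, ha⟩, i)).1 : L) = S a
      rw [hτ1f, ← hSmem]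
    · have h1 : T (a, i) = (a, i) := CoverCut_ext_not τ1 a ha i
      rw [h1]
      change a = S a
      rw [not_and_or, not_not, not_not] at ha
      rcases ha with rfl | rfl
      · exact hSx.symm
      · exact hSy.symm
  have hTx : ∀ i, T (x, i) = (x, i) := fun i => CoverCut_ext_not τ1 x (by simp) i
  have hTy : ∀ i, T (y, i) = (y, i) := fun i => CoverCut_ext_not τ1 y (by simp) i
  set τ : Perm (L × Fin n) := T * Equiv.prodCongr ρ (Equiv.refl _) with hτ
  have hτap : ∀ a i, τ (a, i) = T (ρ a, i) := fun a i => rfl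
  have hτcov : ∀ w, (τ w).1 = σ w.1 := by
    rintro ⟨a, i⟩
    rw [hτap, hTf]
    exact hSρ a
  set pq : Perm (L × Fin n) := CoverCut_ext π1 * Equiv.prodCongr (swap x y) (Equiv.refl _) with hpq
  have hpqx : ∀ i, pq (x, i) = (y, i) := by
    intro i
    have : pq (x, i) = CoverCut_ext π1 (swap x y x, i) := rfl
    rw [this, swap_apply_left]
    exact CoverCut_ext_not π1 y (by simp) i
  have hpqy : ∀ i, pq (y, i) = (x, i) := by
    intro i
    have : pq (y, i) = CoverCut_ext π1 (swap x y y, i) := rfl
    rw [this, swap_apply_right]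
    exact CoverCut_ext_not π1 x (by simp) i
  have hpqm : ∀ (a : {z : L // z ≠ x ∧ z ≠ y}) i,
      pq (a.1, i) = (((π1 (a, i)).1 : L), (π1 (a, i)).2) := by
    intro a i
    have : pq (a.1, i) = CoverCut_ext π1 (swap x y a.1, i) := rfl
    rw [this, swap_apply_of_ne_of_ne a.2.1 a.2.2]
    exact CoverCut_ext_mem π1 a i
  have hpqpair : IsPairing (fun w : L × Fin n => lab w.1) pq := by
    constructor
    · rintro ⟨a, i⟩
      by_cases hax : a = x
      · subst hax; rw [hpqx, hpqy]
      · by_cases hay : a = y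
        · subst hay; rw [hpqy, hpqx]
        · have h1 := hpqm ⟨a, hax, hay⟩ i
          change pq (a, i) = _ at h1
          rw [h1, hpqm, hπ1i]
    · rintro ⟨a, i⟩
      by_cases hax : a = x
      · subst hax; rw [hpqx]; exact hlab
      · by_cases hay : a = y
        · subst hay
          rw [hpqy]
          change lab x = linv (lab a)
          rw [hlab]
          simp [linv]
        · have h1 := hpqm ⟨a, hax, hay⟩ i
          change pq (a, i) = _ at h1
          rw [h1]
          exact hπ1l (⟨a, hax, hay⟩, i)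
  -- the embedding
  let j : {z : L // z ≠ x ∧ z ≠ y} × Fin n → L × Fin n := fun u => (u.1.1, u.2)
  have hj : Function.Injective j := by
    rintro ⟨a, i⟩ ⟨b, k⟩ h
    have h1 : a.1 = b.1 := congrArg Prod.fst h
    have h2 : i = k := congrArg Prod.snd h
    rw [Subtype.ext h1, h2]
  have hjT : ∀ b k, T ((b : {z : L // z ≠ x ∧ z ≠ y}).1, k) = j (τ1 (b, k)) :=
    fun b k => CoverCut_ext_mem τ1 b k
  have hrange : ∀ (a : L) (i : Fin n), (a = x ∨ a = y) → (a, i) ∉ Set.range j := by
    rintro a i ha ⟨u, hu⟩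
    have h1 : u.1.1 = a := congrArg Prod.fst hu
    rcases ha with ha | ha
    · exact u.1.2.1 (h1.trans ha)
    · exact u.1.2.2 (h1.trans ha)
  have hfx : ∀ i, (τ * pq) (x, i) = T (ρ y, i) := by
    intro i
    rw [Perm.mul_apply, hpqx, hτap]
  have hfy : ∀ i, (τ * pq) (y, i) = T (ρ x, i) := by
    intro i
    rw [Perm.mul_apply, hpqy, hτap]
  have hσinj := σ.injective
  have hret : ∀ u, ∃ k : ℕ, 0 < k ∧ ((τ * pq) ^ k) (j u) = j ((τ1 * π1) u) ∧
      ∀ l, 0 < l → l < k → ((τ * pq) ^ l) (j u) ∉ Set.range j := by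
    rintro ⟨a, i⟩
    set b := (π1 (a, i)).1 with hb
    set k := (π1 (a, i)).2 with hk
    have hbk : π1 (a, i) = (b, k) := rfl
    have h0 : (τ * pq) (j (a, i)) = T (ρ b.1, k) := by
      have : j (a, i) = (a.1, i) := rfl
      rw [Perm.mul_apply, this, hpqm, hτap]
    have h1 : (τ1 * π1) (a, i) = τ1 (b, k) := by rw [Perm.mul_apply, hbk]
    rw [h1]
    have hcut := hσ' b
    by_cases hbx : σ b.1 = x
    · have hρb : ρ b.1 = x := hρ_iff _ _ (by rw [hbx, hSx])
      by_cases hyy : σ y = y
      · have hρy : ρ y = y := hρ_iff _ _ (by rw [hyy, hSy])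
        have hcut' : (σ' b).1 = σ x := by
          rw [hcut]; simp [cutFun, hbx, hyy]
        have hρx : ρ x = b.1 := hρ_iff _ _ (by rw [hSmem, hcut'])
        refine ⟨3, by norm_num, ?_, ?_⟩
        · rw [pow_succ, pow_succ, pow_one, Perm.mul_apply, Perm.mul_apply, h0, hρb, hTx, hfx, hρy,
            hTy, hfy, hρx, hjT]
        · intro l hl hl3
          interval_cases l
          · rw [pow_one, h0, hρb, hTx]
            exact hrange x k (Or.inl rfl)
          · rw [pow_succ, pow_one, Perm.mul_apply, h0, hρb, hTx, hfx, hρy, hTy]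
            exact hrange y k (Or.inr rfl)
      · have hcut' : (σ' b).1 = σ y := by
          rw [hcut]; simp [cutFun, hbx, hyy]
        have hρy : ρ y = b.1 := hρ_iff _ _ (by rw [hSmem, hcut'])
        refine ⟨2, by norm_num, ?_, ?_⟩
        · rw [pow_succ, pow_one, Perm.mul_apply, h0, hρb, hTx, hfx, hρy, hjT]
        · intro l hl hl2
          interval_cases l
          rw [pow_one, h0, hρb, hTx]
          exact hrange x k (Or.inl rfl)
    · by_cases hby : σ b.1 = y
      · have hρb : ρ b.1 = y := hρ_iff _ _ (by rw [hby, hSy])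
        have hyx : ¬ (y = x) := fun h => hxy h.symm
        by_cases hxx : σ x = x
        · have hρx : ρ x = x := hρ_iff _ _ (by rw [hxx, hSx])
          have hcut' : (σ' b).1 = σ y := by
            rw [hcut]; simp [cutFun, hby, hyx, hxx]
          have hρy : ρ y = b.1 := hρ_iff _ _ (by rw [hSmem, hcut'])
          refine ⟨3, by norm_num, ?_, ?_⟩
          · rw [pow_succ, pow_succ, pow_one, Perm.mul_apply, Perm.mul_apply, h0, hρb, hTy, hfy,
              hρx, hTx, hfx, hρy, hjT]
          · intro l hl hl3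
            interval_cases l
            · rw [pow_one, h0, hρb, hTy]
              exact hrange y k (Or.inr rfl)
            · rw [pow_succ, pow_one, Perm.mul_apply, h0, hρb, hTy, hfy, hρx, hTx]
              exact hrange x k (Or.inl rfl)
        · have hcut' : (σ' b).1 = σ x := by
            rw [hcut]; simp [cutFun, hby, hyx, hxx]
          have hρx : ρ x = b.1 := hρ_iff _ _ (by rw [hSmem, hcut'])
          refine ⟨2, by norm_num, ?_, ?_⟩
          · rw [pow_succ, pow_one, Perm.mul_apply, h0, hρb, hTy, hfy, hρx, hjT]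
          · intro l hl hl2
            interval_cases l
            rw [pow_one, h0, hρb, hTy]
            exact hrange y k (Or.inr rfl)
      · have hcut' : (σ' b).1 = σ b.1 := by
          rw [hcut]; simp [cutFun, hbx, hby]
        have hρb : ρ b.1 = b.1 := hρ_iff _ _ (by rw [hSmem, hcut'])
        refine ⟨1, by norm_num, ?_, ?_⟩
        · rw [pow_one, h0, hρb, hjT]
        · intro l hl hl1
          omega
  -- the additional cycles
  have hinjx : Function.Injective (fun i : Fin n => (x, i)) := fun i k h => congrArg Prod.snd h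
  have hinjy : Function.Injective (fun i : Fin n => (y, i)) := fun i k h => congrArg Prod.snd h
  have hfixx : σ y = x → ∀ i, (τ * pq) (x, i) = (x, i) := by
    intro h i
    rw [hfx, hρ_iff y x (by rw [h, hSx]), hTx]
  have hfixy : σ x = y → ∀ i, (τ * pq) (y, i) = (y, i) := by
    intro h i
    rw [hfy, hρ_iff x y (by rw [h, hSy]), hTy]
  have hyx : y ≠ x := hxy.symm
  have hEex : ∃ E : Finset (L × Fin n), E.card = n * c0 σ x y ∧
      ∀ e ∈ E, ∃ C : Set (L × Fin n), e ∈ C ∧ (∀ z ∈ C, (τ * pq) z ∈ C) ∧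
        (∀ z ∈ C, z ∉ Set.range j) ∧ ∀ e' ∈ E, e' ∈ C → e' = e := by
    have hsingle : ∀ (E : Finset (L × Fin n)) (w : L × Fin n), (τ * pq) w = w →
        (w.1 = x ∨ w.1 = y) → ∃ C : Set (L × Fin n), w ∈ C ∧ (∀ z ∈ C, (τ * pq) z ∈ C) ∧
        (∀ z ∈ C, z ∉ Set.range j) ∧ ∀ e' ∈ E, e' ∈ C → e' = w := by
      intro E w hw hw2
      refine ⟨{w}, Set.mem_singleton _, ?_, ?_, ?_⟩
      · intro z hz
        rw [Set.mem_singleton_iff] at hz ⊢
        rw [hz, hw]
      · intro z hz
        rw [Set.mem_singleton_iff] at hz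
        rw [hz]
        exact hrange w.1 w.2 hw2
      · intro e' _ he'
        exact he'
    by_cases h1 : σ y = x
    · by_cases h2 : σ x = y
      · refine ⟨Finset.univ.image (fun i : Fin n => (x, i)) ∪
          Finset.univ.image (fun i : Fin n => (y, i)), ?_, ?_⟩
        · rw [Finset.card_union_of_disjoint, Finset.card_image_of_injective _ hinjx,
            Finset.card_image_of_injective _ hinjy]
          · simp [c0, h1, h2, hyx]
            ring
          · rw [Finset.disjoint_left]
            intro w hw1 hw2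
            rw [Finset.mem_image] at hw1 hw2
            obtain ⟨i, _, rfl⟩ := hw1
            obtain ⟨k, _, hk⟩ := hw2
            exact hyx (congrArg Prod.fst hk)
        · intro w hw
          rw [Finset.mem_union, Finset.mem_image, Finset.mem_image] at hw
          rcases hw with ⟨i, _, rfl⟩ | ⟨i, _, rfl⟩
          · exact hsingle _ _ (hfixx h1 i) (Or.inl rfl)
          · exact hsingle _ _ (hfixy h2 i) (Or.inr rfl)
      · refine ⟨Finset.univ.image (fun i : Fin n => (x, i)), ?_, ?_⟩
        · rw [Finset.card_image_of_injective _ hinjx]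
          simp [c0, h1, h2, hxy]
        · intro w hw
          rw [Finset.mem_image] at hw
          obtain ⟨i, _, rfl⟩ := hw
          exact hsingle _ _ (hfixx h1 i) (Or.inl rfl)
    · by_cases h2 : σ x = y
      · refine ⟨Finset.univ.image (fun i : Fin n => (y, i)), ?_, ?_⟩
        · rw [Finset.card_image_of_injective _ hinjy]
          simp [c0, h1, h2, hyx]
        · intro w hw
          rw [Finset.mem_image] at hw
          obtain ⟨i, _, rfl⟩ := hw
          exact hsingle _ _ (hfixy h2 i) (Or.inr rfl)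
      · by_cases h3 : σ x = x ∧ σ y = y
        · refine ⟨Finset.univ.image (fun i : Fin n => (x, i)), ?_, ?_⟩
          · rw [Finset.card_image_of_injective _ hinjx]
            simp [c0, h3, hxy, hyx]
          · intro w hw
            rw [Finset.mem_image] at hw
            obtain ⟨i, _, rfl⟩ := hw
            have hρy : ρ y = y := hρ_iff _ _ (by rw [h3.2, hSy])
            have hρx : ρ x = x := hρ_iff _ _ (by rw [h3.1, hSx])
            refine ⟨{(x, i), (y, i)}, by simp, ?_, ?_, ?_⟩
            · intro z hz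
              rw [Set.mem_insert_iff, Set.mem_singleton_iff] at hz
              rcases hz with rfl | rfl
              · rw [hfx, hρy, hTy]; simp
              · rw [hfy, hρx, hTx]; simp
            · intro z hz
              rw [Set.mem_insert_iff, Set.mem_singleton_iff] at hz
              rcases hz with rfl | rfl
              · exact hrange x i (Or.inl rfl)
              · exact hrange y i (Or.inr rfl)
            · intro e' he' hz
              rw [Set.mem_insert_iff, Set.mem_singleton_iff] at hz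
              rcases hz with rfl | rfl
              · rfl
              · exfalso
                rw [Finset.mem_image] at he'
                obtain ⟨k, _, hk⟩ := he'
                exact hxy (congrArg Prod.fst hk)
        · refine ⟨∅, ?_, by simp⟩
          simp only [c0, h1, h2, h3, if_false]
          simp
  obtain ⟨E, hEc, hEC⟩ := hEex
  have hmain := CoverCut_ret (τ * pq) (τ1 * π1) j hj hret E hEC
  rw [hEc] at hmain
  -- conclusion
  refine ⟨n, L × Fin n, inferInstance, Prod.fst, τ, pq, hn, ⟨hτcov, ?_⟩, hpqpair, ?_⟩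
  · intro z
    have e1 : {w : L × Fin n // w.1 = z} ≃ Fin n :=
      { toFun := fun w => w.1.2
        invFun := fun i => ⟨(z, i), rfl⟩
        left_inv := by
          rintro ⟨⟨a, i⟩, h⟩
          simp only at h
          subst h
          rfl
        right_inv := fun i => rfl }
    rw [Nat.card_congr e1]
    simp
  · have hcardL : Nat.card L = Nat.card {z : L // z ≠ x ∧ z ≠ y} + 2 := by
      classical
      have := Fintype.ofFinite L
      rw [Nat.card_eq_fintype_card, Nat.card_eq_fintype_card, Fintype.card_subtype]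
      have h1 : (Finset.univ.filter (fun z : L => z ≠ x ∧ z ≠ y)) = {x, y}ᶜ := by
        ext z
        simp
      have h2 : ({x, y} : Finset L).card = 2 := Finset.card_pair hxy
      have h3 := Finset.card_add_card_compl ({x, y} : Finset L)
      rw [h1]
      omega
    have hcardN : Nat.card N' = Nat.card {z : L // z ≠ x ∧ z ≠ y} * n := by
      rw [Nat.card_congr e, Nat.card_prod]
      simp
    unfold E2 at hE ⊢
    rw [← hncyc, hcardN] at hE
    rw [Nat.card_prod, hcardL, Nat.card_fin]
    have hmain' : ((ncyc (τ1 * π1) : ℝ) + n * c0 σ x y) ≤ (ncyc (τ * pq) : ℝ) := by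
      exact_mod_cast hmain
    push_cast at hE ⊢
    nlinarith [hE, hmain']

/-! ### The second theorem -/

theorem CoverCut_iter (e : Bool) : ∀ (m : ℕ) (N : Type) [Finite N] [DecidableEq N]
    (τ π : Perm N) (lab : N → ι × Bool) (X : Finset N), X.card = m →
    (∀ a ∈ X, τ a ∉ X ∧ lab (τ a) = linv (lab a)) →
    (e = false → ∀ a ∈ X, τ (τ a) ∉ X) →
    (e = true → ∀ z, τ z ∈ X → ∃ a ∈ X, τ a = z) → IsPairing lab π →
    ∃ (M : Type) (_ : Finite M) (j : M → N) (τ'' π'' : Perm M), Function.Injective j ∧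
      (∀ z, z ∈ Set.range j ↔ z ∉ X ∧ ∀ a ∈ X, z ≠ τ a) ∧
      (∀ u, j (τ'' u) = if τ (j u) ∈ X then τ (τ (τ (j u))) else τ (j u)) ∧
      IsPairing (fun u => lab (j u)) π'' ∧
      E2 τ'' π'' ≤ E2 τ π + 2 * (if e then (m : ℤ) else 0) := by
  intro m
  induction m with
  | zero =>
    intro N _ _ τ π lab X hX _ _ _ hπ
    rw [Finset.card_eq_zero] at hX
    subst hX
    refine ⟨N, inferInstance, id, τ, π, Function.injective_id, ?_, ?_, hπ, ?_⟩
    · intro z; simp
    · intro u; simp
    · simp
  | succ m ih =>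
    intro N _ _ τ π lab X hX h1 h2 h3 hπ
    have hXne : X.Nonempty := by
      rw [← Finset.card_pos, hX]; omega
    obtain ⟨a, ha⟩ := hXne
    have hτa : τ a ∉ X := (h1 a ha).1
    have hane : a ≠ τ a := fun h => hτa (h ▸ ha)
    obtain ⟨τ1, hτ1⟩ := exists_cut τ hane
    obtain ⟨π1, hπ1, hE⟩ := cut_adj τ hane rfl lab (h1 a ha).2 τ1 hτ1 π hπ
    have hττne : τ (τ a) ≠ τ a := fun h => hane (τ.injective h).symm
    have F2 : ∀ u : {z : N // z ≠ a ∧ z ≠ τ a}, τ u.1 = a → (τ1 u).1 = τ (τ a) := by
      intro u hu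
      rw [hτ1 u]
      simp [cutFun, hu, hττne]
    have F3 : ∀ u : {z : N // z ≠ a ∧ z ≠ τ a}, τ u.1 ≠ a → (τ1 u).1 = τ u.1 := by
      intro u hu
      have : τ u.1 ≠ τ a := fun h => u.2.1 (τ.injective h)
      rw [hτ1 u]
      simp [cutFun, hu, this]
    set X1 : Finset {z : N // z ≠ a ∧ z ≠ τ a} :=
      (X.erase a).subtype (fun z => z ≠ a ∧ z ≠ τ a) with hX1
    have hX1mem : ∀ u, u ∈ X1 ↔ u.1 ∈ X := by
      intro u
      rw [hX1, Finset.mem_subtype, Finset.mem_erase]
      exact ⟨fun h => h.2, fun h => ⟨u.2.1, h⟩⟩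
    have hX1card : X1.card = m := by
      rw [hX1, Finset.card_subtype]
      have : (X.erase a).filter (fun z => z ≠ a ∧ z ≠ τ a) = X.erase a := by
        refine Finset.filter_true_of_mem fun z hz => ?_
        rw [Finset.mem_erase] at hz
        exact ⟨hz.1, fun h => hτa (h ▸ hz.2)⟩
      rw [this, Finset.card_erase_of_mem ha, hX]
      omega
    have F4 : ∀ u : {z : N // z ≠ a ∧ z ≠ τ a}, u.1 ∈ X → (τ1 u).1 = τ u.1 := by
      intro u hu
      refine F3 u fun h => ?_
      exact (h1 u.1 hu).1 (by rw [h]; exact ha)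
    have G1 : ∀ u ∈ X1, τ1 u ∉ X1 ∧ lab (τ1 u).1 = linv (lab u.1) := by
      intro u hu
      rw [hX1mem] at hu
      rw [hX1mem, F4 u hu]
      exact h1 u.1 hu
    have G2 : e = false → ∀ u ∈ X1, τ1 (τ1 u) ∉ X1 := by
      intro he u hu
      rw [hX1mem] at hu
      have h4 : τ (τ1 u).1 ∉ X := by
        rw [F4 u hu]
        exact h2 he u.1 hu
      have h5 : τ (τ1 u).1 ≠ a := fun h => h4 (by rw [h]; exact ha)
      rw [hX1mem, F3 _ h5]
      exact h4
    have G3 : e = true → ∀ u, τ1 u ∈ X1 → ∃ a' ∈ X1, τ1 a' = u := by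
      intro he u hu
      have h4 : τ u.1 ∈ X := by
        by_cases h : τ u.1 = a
        · rw [h]; exact ha
        · rw [hX1mem, F3 u h] at hu
          exact hu
      obtain ⟨a', ha', hτa'⟩ := h3 he u.1 h4
      have h5 : a' ≠ a := by
        intro h
        rw [h] at hτa'
        exact u.2.2 hτa'.symm
      have h6 : a' ≠ τ a := fun h => hτa (h ▸ ha')
      refine ⟨⟨a', h5, h6⟩, (hX1mem _).2 ha', ?_⟩
      refine Subtype.ext ?_
      rw [F4 ⟨a', h5, h6⟩ ha']
      exact hτa'
    obtain ⟨M, hM, j1, τ2, π2, hj1, hr1, hf1, hp1, hE1⟩ :=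
      ih {z : N // z ≠ a ∧ z ≠ τ a} τ1 π1 (fun z => lab z.1) X1 hX1card G1 G2 G3 hπ1
    have hrj : ∀ u, (j1 u).1 ∉ X ∧ ∀ a' ∈ X, (j1 u).1 ≠ τ a' := by
      intro u
      obtain ⟨h4, h5⟩ := (hr1 (j1 u)).1 ⟨u, rfl⟩
      refine ⟨fun h => h4 ((hX1mem _).2 h), fun a' ha' h => ?_⟩
      by_cases h6 : a' = a
      · rw [h6] at h
        exact (j1 u).2.2 h
      · have h7 : a' ≠ τ a := fun h => hτa (h ▸ ha')
        refine h5 ⟨a', h6, h7⟩ ((hX1mem _).2 ha') (Subtype.ext ?_)
        rw [F4 ⟨a', h6, h7⟩ ha']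
        exact h
    refine ⟨M, hM, fun u => (j1 u).1, τ2, π2, Subtype.val_injective.comp hj1, ?_, ?_, hp1, ?_⟩
    · intro z
      constructor
      · rintro ⟨u, rfl⟩
        exact hrj u
      · rintro ⟨hz1, hz2⟩
        have h4 : z ≠ a := fun h => hz1 (h ▸ ha)
        have h5 : z ≠ τ a := hz2 a ha
        have h6 : (⟨z, h4, h5⟩ : {z : N // z ≠ a ∧ z ≠ τ a}) ∈ Set.range j1 := by
          rw [hr1]
          refine ⟨fun h => hz1 ((hX1mem _).1 h), fun a' ha' h => ?_⟩
          rw [hX1mem] at ha'
          have h7 := congrArg Subtype.val h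
          rw [F4 a' ha'] at h7
          exact hz2 a'.1 ha' h7
        obtain ⟨u, hu⟩ := h6
        exact ⟨u, congrArg Subtype.val hu⟩
    · intro u
      obtain ⟨hv1, hv2⟩ := hrj u
      have hf := congrArg Subtype.val (hf1 u)
      change (j1 (τ2 u)).1 = _ at hf
      change (j1 (τ2 u)).1 = _
      rw [hf]
      by_cases hva : τ (j1 u).1 = a
      · have h4 : (τ1 (j1 u)).1 = τ (τ a) := F2 _ hva
        have h5 : τ1 (j1 u) ∉ X1 := by
          rw [hX1mem, h4]
          cases e with
          | false => exact h2 rfl a ha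
          | true =>
            obtain ⟨a', ha', h6⟩ := h3 rfl (j1 u).1 (by rw [hva]; exact ha)
            exact absurd h6.symm (hv2 a' ha')
        rw [if_neg h5, h4, if_pos (by rw [hva]; exact ha), hva]
      · have h4 : (τ1 (j1 u)).1 = τ (j1 u).1 := F3 _ hva
        by_cases h5 : τ (j1 u).1 ∈ X
        · have h6 : τ1 (j1 u) ∈ X1 := by rw [hX1mem, h4]; exact h5
          have he : e = false := by
            cases e with
            | false => rfl
            | true =>
              obtain ⟨a', ha', h7⟩ := h3 rfl (j1 u).1 h5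
              exact absurd h7.symm (hv2 a' ha')
          have h7 : (τ1 (τ1 (j1 u))).1 = τ (τ (j1 u).1) := by
            rw [F4 (τ1 (j1 u)) ((hX1mem _).1 h6), h4]
          have h8 : τ (τ1 (τ1 (j1 u))).1 ≠ a := by
            rw [h7]
            intro h
            exact h2 he _ h5 (by rw [h]; exact ha)
          rw [if_pos h6, if_pos h5, F3 _ h8, h7]
        · have h6 : τ1 (j1 u) ∉ X1 := by rw [hX1mem, h4]; exact h5
          rw [if_neg h6, if_neg h5, h4]
    · cases e with
      | false =>
        have h4 : ¬ τ (τ a) = a := fun h => h2 rfl a ha (by rw [h]; exact ha)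
        rw [if_neg h4] at hE
        simp only [Bool.false_eq_true, if_false] at hE1 ⊢
        linarith
      | true =>
        have h4 : (if τ (τ a) = a then (1 : ℤ) else 0) ≤ 1 := by split_ifs <;> norm_num
        simp only [if_true] at hE1 ⊢
        push_cast
        linarith

theorem fill_cut_adj [Finite L] [DecidableEq L] (σ : Perm L) {x y : L} (hxy : x ≠ y)
    (hadj : σ x = y) (lab : L → ι × Bool) (hlab : lab y = linv (lab x))
    (σ' : Perm {z : L // z ≠ x ∧ z ≠ y}) (hσ' : IsCut σ x y σ') (r : ℝ) (h : FillLt σ lab r) :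
    FillLt σ' (fun z : {z : L // z ≠ x ∧ z ≠ y} => lab z)
      (r + 2 * (if σ y = x then 1 else 0)) := by
  classical
  obtain ⟨n, N, hN, p, τ, π, hn, hcov, hpair, hE⟩ := h
  have := Fintype.ofFinite N
  set X : Finset N := Finset.univ.filter (fun z => p z = x) with hX
  have hXmem : ∀ z, z ∈ X ↔ p z = x := by intro z; simp [hX]
  have hXc : X.card = n := by
    rw [← hcov.fib x, Nat.card_eq_fintype_card, Fintype.card_subtype]
  have hback : ∀ z, p z = y → p (τ.symm z) = x := by
    intro z hz
    have h1 := hcov.comm (τ.symm z)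
    rw [Equiv.apply_symm_apply, hz, ← hadj] at h1
    exact (σ.injective h1).symm
  obtain ⟨M, hM, j, τ2, π2, hj, hr, hf, hp, hE2⟩ :=
    CoverCut_iter (decide (σ y = x)) n N τ π (fun z => lab (p z)) X hXc
      (by
        intro a ha
        rw [hXmem] at ha
        rw [hXmem, hcov.comm, ha, hadj]
        exact ⟨fun h => hxy h.symm, hlab⟩)
      (by
        intro he a ha
        rw [hXmem] at ha
        rw [hXmem, hcov.comm, hcov.comm, ha, hadj]
        simpa using he)
      (by
        intro he z hz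
        have he' : σ y = x := by simpa using he
        rw [hXmem, hcov.comm] at hz
        have hpz : p z = y := σ.injective (hz.trans he'.symm)
        exact ⟨τ.symm z, (hXmem _).2 (hback z hpz), Equiv.apply_symm_apply _ _⟩)
      hpair
  have hrange : ∀ z, z ∈ Set.range j ↔ p z ≠ x ∧ p z ≠ y := by
    intro z
    rw [hr, hXmem]
    refine and_congr_right fun _ => ⟨fun h hz => ?_, fun h a ha hz => ?_⟩
    · exact h (τ.symm z) ((hXmem _).2 (hback z hz)) (Equiv.apply_symm_apply _ _).symm
    · rw [hXmem] at ha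
      rw [hz, hcov.comm, ha] at h
      exact h hadj
  have hj2 : ∀ u, p (j u) ≠ x ∧ p (j u) ≠ y := fun u => (hrange _).1 ⟨u, rfl⟩
  refine ⟨n, M, hM, fun u => ⟨p (j u), hj2 u⟩, τ2, π2, hn, ⟨?_, ?_⟩, hp, ?_⟩
  · intro u
    refine Subtype.ext ?_
    change p (j (τ2 u)) = _
    rw [hf, hσ']
    change _ = cutFun σ x y (p (j u))
    by_cases h1 : σ (p (j u)) = x
    · have h2 : τ (j u) ∈ X := by rw [hXmem, hcov.comm]; exact h1
      have h3 : ¬ σ y = y := by
        intro h3
        rw [← hadj] at h3
        exact hxy ((σ.injective h3).symm.trans hadj)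
      rw [if_pos h2, hcov.comm, hcov.comm, hcov.comm, h1, hadj]
      simp [cutFun, h1, h3]
    · have h2 : τ (j u) ∉ X := by rw [hXmem, hcov.comm]; exact h1
      have h3 : ¬ σ (p (j u)) = y := by
        intro h3
        rw [← hadj] at h3
        exact (hj2 u).1 (σ.injective h3)
      rw [if_neg h2, hcov.comm]
      simp [cutFun, h1, h3]
  · intro b
    rw [← hcov.fib b.1]
    refine Nat.card_congr ?_
    exact
      { toFun := fun u => ⟨j u.1, congrArg Subtype.val u.2⟩
        invFun := fun z =>
          ⟨Classical.choose ((hrange z.1).2 (by rw [z.2]; exact b.2)), by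
            refine Subtype.ext ?_
            change p (j _) = b.1
            rw [Classical.choose_spec ((hrange z.1).2 (by rw [z.2]; exact b.2)), z.2]⟩
        left_inv := by
          intro u
          refine Subtype.ext (hj ?_)
          exact Classical.choose_spec ((hrange (j u.1)).2 (hj2 u.1))
        right_inv := by
          intro z
          refine Subtype.ext ?_
          exact Classical.choose_spec ((hrange z.1).2 (by rw [z.2]; exact b.2)) }
  · have h1 : ((E2 τ2 π2 : ℤ) : ℝ)
        ≤ ((E2 τ π + 2 * (if decide (σ y = x) = true then (n : ℤ) else 0) : ℤ) : ℝ) := by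
      exact_mod_cast hE2
    by_cases h2 : σ y = x
    · simp only [h2, decide_true, if_true] at h1 ⊢
      push_cast at h1
      nlinarith [h1, hE]
    · simp only [h2, decide_false, Bool.false_eq_true, if_false] at h1 ⊢
      push_cast at h1
      nlinarith [h1, hE]

end SclIso
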