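import Pool.Agent.H.MP_1b0e60_al.Cyc

/-!
Cutting a chain along a strip.
-/

open Equiv Filter Topology

namespace SclIso

variable {ι L : Type*} [Finite L] [DecidableEq L]

omit [Finite L] in
theorem Cut_exists_remove (f : Perm L) (x : L) :
    ∃ f' : Perm {z : L // z ≠ x}, ∀ z, ((f' z : {z : L // z ≠ x}) : L) =
      if f z = x then f x else f z := by
  have hval : ∀ z, z ≠ x → (swap x (f x) * f) z = if f z = x then f x else f z := by
    intro z hz
    rw [Perm.mul_apply]
    by_cases h1 : f z = x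
    · rw [if_pos h1, h1, swap_apply_left]
    · rw [if_neg h1, swap_apply_of_ne_of_ne h1]
      intro h2
      exact hz (f.injective h2)
  have hfix : (swap x (f x) * f) x = x := by
    rw [Perm.mul_apply, swap_apply_right]
  refine ⟨(swap x (f x) * f).subtypePerm ?_, ?_⟩
  · intro z
    constructor
    · intro h1 h2
      exact h1 (by rw [h2, hfix])
    · intro h1 h2
      apply h1
      apply (swap x (f x) * f).injective
      rw [h2, hfix]
  · intro z
    rw [Perm.subtypePerm_apply]
    exact hval z z.2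

/-- removing two points, as a function -/
def Cut_rem2 (f : Perm L) (x y z : L) : L :=
  if (if f z = x then f x else f z) = y then (if f y = x then f x else f y)
  else (if f z = x then f x else f z)

/-- the two descriptions of the complement of two points -/
def Cut_equiv {x y : L} (hxy : x ≠ y) :
    {w : {z : L // z ≠ x} // w ≠ ⟨y, hxy.symm⟩} ≃ {z : L // z ≠ x ∧ z ≠ y} where
  toFun w := ⟨w.1.1, w.1.2, fun h => w.2 (Subtype.ext h)⟩
  invFun z := ⟨⟨z.1, z.2.1⟩, fun h => z.2.2 (congrArg Subtype.val h)⟩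
  left_inv _ := rfl
  right_inv _ := rfl

omit [Finite L] in
theorem Cut_exists_rem2 (f : Perm L) {x y : L} (hxy : x ≠ y) :
    ∃ f2 : Perm {z : L // z ≠ x ∧ z ≠ y},
      ∀ z, ((f2 z : {z : L // z ≠ x ∧ z ≠ y}) : L) = Cut_rem2 f x y z := by
  obtain ⟨f1, h1⟩ := Cut_exists_remove f x
  obtain ⟨f2, h2⟩ := Cut_exists_remove f1 ⟨y, hxy.symm⟩
  refine ⟨(Cut_equiv hxy).permCongr f2, ?_⟩
  intro z
  rw [Equiv.permCongr_apply]
  change ((f2 ((Cut_equiv hxy).symm z)).1 : {z : L // z ≠ x}).1 = _
  rw [h2]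
  have e1 := h1 ((Cut_equiv hxy).symm z).1
  have e2 := h1 ⟨y, hxy.symm⟩
  have e3 : (((Cut_equiv hxy).symm z).1 : {z : L // z ≠ x}).1 = z.1 := rfl
  rw [e3] at e1
  unfold Cut_rem2
  by_cases h3 : f1 ((Cut_equiv hxy).symm z).1 = ⟨y, hxy.symm⟩
  · rw [if_pos h3, e2]
    have h4 := congrArg Subtype.val h3
    rw [e1] at h4
    rw [if_pos h4]
  · have h4 : ¬ ((if f (z : L) = x then f x else f (z : L)) = y) := by
      intro h4
      apply h3
      apply Subtype.ext
      rw [e1]
      exact h4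
    rw [if_neg h3, e1, if_neg h4]

theorem Cut_ncyc_rem2 (f : Perm L) {x y : L} (hxy : x ≠ y)
    (f2 : Perm {z : L // z ≠ x ∧ z ≠ y})
    (h : ∀ z, ((f2 z : {z : L // z ≠ x ∧ z ≠ y}) : L) = Cut_rem2 f x y z) :
    ncyc f = ncyc f2 + (if (if f y = x then f x else f y) = y then 1 else 0) +
      (if f x = x then 1 else 0) := by
  obtain ⟨f1, h1⟩ := Cut_exists_remove f x
  rw [ncyc_remove f x f1 h1]
  congr 1
  have e2 := h1 ⟨y, hxy.symm⟩
  rw [ncyc_remove f1 ⟨y, hxy.symm⟩ ((Cut_equiv hxy).symm.permCongr f2)]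
  · rw [ncyc_permCongr]
    congr 1
    by_cases h3 : f1 ⟨y, hxy.symm⟩ = ⟨y, hxy.symm⟩
    · rw [if_pos h3]
      have h4 := congrArg Subtype.val h3
      rw [e2] at h4
      rw [if_pos h4]
    · rw [if_neg h3, if_neg]
      intro h4
      apply h3
      apply Subtype.ext
      rw [e2]
      exact h4
  · intro z
    rw [Equiv.permCongr_apply, Equiv.symm_symm]
    apply Subtype.ext
    have e0 : (((Cut_equiv hxy).symm (f2 ((Cut_equiv hxy) z))).1 : {z : L // z ≠ x}).1 =
      (f2 ((Cut_equiv hxy) z)).1 := rfl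
    rw [e0, h]
    have e1 := h1 z.1
    have e3 : ((Cut_equiv hxy) z).1 = z.1.1 := rfl
    rw [e3]
    unfold Cut_rem2
    by_cases h3 : f1 z.1 = ⟨y, hxy.symm⟩
    · rw [if_pos h3, e2]
      have h4 := congrArg Subtype.val h3
      rw [e1] at h4
      rw [if_pos h4]
    · rw [if_neg h3, e1, if_neg]
      intro h4
      apply h3
      apply Subtype.ext
      rw [e1]
      exact h4

omit [Finite L] in
theorem Cut_cutFun_eq (σ : Perm L) {x y : L} (f : Perm L) (hfx : f x = σ y)
    (hfy : f y = σ x) {z w : L} (hw : w ≠ x ∧ w ≠ y) (hfz : f z = σ w) :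
    cutFun σ x y w = Cut_rem2 f x y z := by
  unfold cutFun Cut_rem2
  rw [hfz, hfx, hfy]
  by_cases h1 : σ w = x
  · have h2 : σ x ≠ x := by
      intro h
      rw [← h1] at h
      exact hw.1 (σ.injective (h.symm.trans (by rw [h1])))
    rw [if_pos h1, if_pos h1, if_neg h2]
  · rw [if_neg h1, if_neg h1]

theorem exists_cut (σ : Perm L) {x y : L} (hxy : x ≠ y) : ∃ σ', IsCut σ x y σ' := by
  obtain ⟨f2, h2⟩ := Cut_exists_rem2 (σ * swap x y) hxy
  refine ⟨f2, ?_⟩
  intro z
  rw [h2]
  symm
  apply Cut_cutFun_eq σ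
  · rw [Perm.mul_apply, swap_apply_left]
  · rw [Perm.mul_apply, swap_apply_right]
  · exact z.2
  · rw [Perm.mul_apply, swap_apply_of_ne_of_ne z.2.1 z.2.2]

theorem cut_ncyc (σ : Perm L) {x y : L} (hxy : x ≠ y) (π : Perm L) (hinv : ∀ z, π (π z) = z)
    (hπ : π x = y) (σ' π' : Perm {z : L // z ≠ x ∧ z ≠ y}) (hσ' : IsCut σ x y σ')
    (hπ' : ∀ z, ((π' z : {z : L // z ≠ x ∧ z ≠ y}) : L) = π z) :
    ncyc (σ * π) = ncyc (σ' * π') + c0 σ x y := by
  have hπy : π y = x := by rw [← hπ, hinv]
  have hfx : (σ * π) x = σ y := by rw [Perm.mul_apply, hπ]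
  have hfy : (σ * π) y = σ x := by rw [Perm.mul_apply, hπy]
  rw [Cut_ncyc_rem2 (σ * π) hxy (σ' * π') ?_]
  · rw [add_assoc]
    congr 1
    rw [hfx, hfy]
    unfold c0
    by_cases h1 : σ y = x
    · have h2 : σ y ≠ y := by
        rw [h1]
        exact hxy
      have h3 : ¬ (σ x = x ∧ σ y = y) := fun h => h2 h.2
      rw [if_pos h1, if_neg h3]
      by_cases h4 : σ x = x
      · exact absurd (σ.injective (h4.trans h1.symm)) hxy
      · rw [if_neg h4]
        by_cases h5 : σ x = y
        · rw [if_pos h5]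
        · rw [if_neg h5]
    · rw [if_neg h1]
      by_cases h4 : σ x = x
      · have h5 : σ x ≠ y := by
          rw [h4]
          exact hxy
        rw [if_pos h4, if_neg h5]
        by_cases h6 : σ y = y
        · rw [if_pos h6, if_pos ⟨h4, h6⟩]
        · rw [if_neg h6, if_neg (fun h => h6 h.2)]
      · rw [if_neg h4, if_neg (fun h : σ x = x ∧ σ y = y => h4 h.1)]
        by_cases h5 : σ x = y
        · rw [if_pos h5]
        · rw [if_neg h5]
  · intro z
    rw [Perm.mul_apply, hσ' (π' z), hπ' z]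
    apply Cut_cutFun_eq σ _ hfx hfy
    · rw [← hπ' z]
      exact (π' z).2
    · rw [Perm.mul_apply]

omit [DecidableEq L] in
theorem Cut_card {x y : L} (hxy : x ≠ y) :
    Nat.card {z : L // z ≠ x ∧ z ≠ y} + 2 = Nat.card L := by
  have h1 := Set.ncard_add_ncard_compl ({x, y} : Set L)
  rw [Set.ncard_pair hxy] at h1
  have h2 : Nat.card {z : L // z ≠ x ∧ z ≠ y} = (({x, y} : Set L)ᶜ).ncard := by
    rw [← Nat.card_coe_set_eq]
    apply Nat.card_congr
    apply Equiv.subtypeEquivRight
    intro z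
    rw [Set.mem_compl_iff, Set.mem_insert_iff, Set.mem_singleton_iff, not_or]
  omega

omit [Finite L] [DecidableEq L] in
theorem Cut_linv_linv (a : ι × Bool) : linv (linv a) = a := by
  unfold linv
  simp

theorem Cut_E2 (σ : Perm L) {x y : L} (hxy : x ≠ y) (π : Perm L) (hinv : ∀ z, π (π z) = z)
    (hπ : π x = y) (σ' π' : Perm {z : L // z ≠ x ∧ z ≠ y}) (hσ' : IsCut σ x y σ')
    (hπ' : ∀ z, ((π' z : {z : L // z ≠ x ∧ z ≠ y}) : L) = π z) :
    E2 σ π = E2 σ' π' + 2 - 2 * c0 σ x y := by
  unfold E2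
  rw [cut_ncyc σ hxy π hinv hπ σ' π' hσ' hπ', ← Cut_card hxy]
  push_cast
  ring

theorem cut_extend (σ : Perm L) {x y : L} (hxy : x ≠ y) (lab : L → ι × Bool)
    (hlab : lab y = linv (lab x)) (σ' π' : Perm {z : L // z ≠ x ∧ z ≠ y}) (hσ' : IsCut σ x y σ')
    (hπ' : IsPairing (fun z : {z : L // z ≠ x ∧ z ≠ y} => lab z) π') :
    ∃ π, IsPairing lab π ∧ π x = y ∧ E2 σ π = E2 σ' π' + 2 - 2 * c0 σ x y := by
  have hx : (Perm.ofSubtype π' * swap x y) x = y := by
    rw [Perm.mul_apply, swap_apply_left, Perm.ofSubtype_apply_of_not_mem _ (fun h => h.2 rfl)]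
  have hy : (Perm.ofSubtype π' * swap x y) y = x := by
    rw [Perm.mul_apply, swap_apply_right, Perm.ofSubtype_apply_of_not_mem _ (fun h => h.1 rfl)]
  have hz : ∀ z : {z : L // z ≠ x ∧ z ≠ y}, (Perm.ofSubtype π' * swap x y) z =
      ((π' z : {z : L // z ≠ x ∧ z ≠ y}) : L) := by
    intro z
    rw [Perm.mul_apply, swap_apply_of_ne_of_ne z.2.1 z.2.2, Perm.ofSubtype_apply_of_mem (p := fun z => z ≠ x ∧ z ≠ y) π' z.2]
  have hinv : ∀ z, (Perm.ofSubtype π' * swap x y) ((Perm.ofSubtype π' * swap x y) z) = z := by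
    intro z
    by_cases h1 : z = x
    · rw [h1, hx, hy]
    · by_cases h2 : z = y
      · rw [h2, hy, hx]
      · have h3 := hz ⟨z, h1, h2⟩
        change (Perm.ofSubtype π' * swap x y) z = _ at h3
        rw [h3, hz, hπ'.invol]
  refine ⟨Perm.ofSubtype π' * swap x y, ⟨hinv, ?_⟩, hx, ?_⟩
  · intro z
    by_cases h1 : z = x
    · rw [h1, hx, hlab]
    · by_cases h2 : z = y
      · rw [h2, hy, hlab, Cut_linv_linv]
      · have h3 := hz ⟨z, h1, h2⟩
        change (Perm.ofSubtype π' * swap x y) z = _ at h3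
        rw [h3]
        exact hπ'.lab_inv ⟨z, h1, h2⟩
  · exact Cut_E2 σ hxy _ hinv hx σ' π' hσ' (fun z => (hz z).symm)

theorem cut_restrict (σ : Perm L) {x y : L} (hxy : x ≠ y) (lab : L → ι × Bool)
    (σ' : Perm {z : L // z ≠ x ∧ z ≠ y}) (hσ' : IsCut σ x y σ')
    (π : Perm L) (hπ : IsPairing lab π) (hx : π x = y) :
    ∃ π' : Perm {z : L // z ≠ x ∧ z ≠ y},
      IsPairing (fun z : {z : L // z ≠ x ∧ z ≠ y} => lab z) π' ∧
      (∀ z, ((π' z : {z : L // z ≠ x ∧ z ≠ y}) : L) = π z) ∧
      E2 σ' π' = E2 σ π - 2 + 2 * c0 σ x y := by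
  have hy : π y = x := by rw [← hx, hπ.invol]
  have hmem : ∀ z, z ≠ x ∧ z ≠ y → π z ≠ x ∧ π z ≠ y := by
    rintro z ⟨h1, h2⟩
    refine ⟨?_, ?_⟩
    · intro h3
      exact h2 (π.injective (h3.trans hy.symm))
    · intro h3
      exact h1 (π.injective (h3.trans hx.symm))
  let π' : Perm {z : L // z ≠ x ∧ z ≠ y} := π.subtypePerm (by
    intro z
    constructor
    · intro h
      have := hmem _ h
      rw [hπ.invol] at this
      exact this
    · exact hmem z)
  have hval : ∀ z, ((π' z : {z : L // z ≠ x ∧ z ≠ y}) : L) = π z := fun z => rfl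
  refine ⟨π', ⟨?_, ?_⟩, hval, ?_⟩
  · intro z
    apply Subtype.ext
    rw [hval, hval, hπ.invol]
  · intro z
    change lab (π z) = linv (lab z)
    exact hπ.lab_inv z
  · have := Cut_E2 σ hxy π hπ.invol hx σ' π' hσ' hval
    rw [this]
    ring

omit [Finite L] [DecidableEq L] in
theorem Cut_pairing_ne {lab : L → ι × Bool} {π : Perm L} (hπ : IsPairing lab π) (z : L) :
    π z ≠ z := by
  intro h
  have h1 := hπ.lab_inv z
  rw [h] at h1
  have h2 := congrArg Prod.snd h1
  change (lab z).2 = !(lab z).2 at h2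
  cases h3 : (lab z).2
  · rw [h3] at h2
    exact absurd h2 (by decide)
  · rw [h3] at h2
    exact absurd h2 (by decide)

/-- the repairing which joins `x` with `y` -/
def Cut_repair (π : Perm L) (x y : L) : Perm L := swap x (π y) * swap y (π x) * π

omit [Finite L] in
theorem Cut_repair_spec {x y : L} (hxy : x ≠ y) {lab : L → ι × Bool} {π : Perm L}
    (hπ : IsPairing lab π) (hx : π x ≠ y) :
    Cut_repair π x y x = y ∧ Cut_repair π x y y = x ∧ Cut_repair π x y (π x) = π y ∧
      Cut_repair π x y (π y) = π x ∧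
      ∀ z, z ≠ x → z ≠ y → z ≠ π x → z ≠ π y → Cut_repair π x y z = π z := by
  have h1 : π x ≠ x := Cut_pairing_ne hπ x
  have h2 : π y ≠ y := Cut_pairing_ne hπ y
  have h3 : π x ≠ π y := fun h => hxy (π.injective h)
  have h4 : π y ≠ x := by
    intro h
    apply hx
    rw [← h, hπ.invol]
  unfold Cut_repair
  refine ⟨?_, ?_, ?_, ?_, ?_⟩
  · rw [Perm.mul_apply, Perm.mul_apply, swap_apply_right, swap_apply_of_ne_of_ne hxy.symm h2.symm]
  · rw [Perm.mul_apply, Perm.mul_apply, swap_apply_of_ne_of_ne h2 h3.symm, swap_apply_right]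
  · rw [Perm.mul_apply, Perm.mul_apply, hπ.invol, swap_apply_of_ne_of_ne hxy h1.symm,
      swap_apply_left]
  · rw [Perm.mul_apply, Perm.mul_apply, hπ.invol, swap_apply_left,
      swap_apply_of_ne_of_ne h1 h3]
  · intro z z1 z2 z3 z4
    have i1 : π z ≠ π x := fun h => z1 (π.injective h)
    have i2 : π z ≠ π y := fun h => z2 (π.injective h)
    have i3 : π z ≠ x := by
      intro h
      apply z3
      rw [← h, hπ.invol]
    have i4 : π z ≠ y := by
      intro h
      apply z4
      rw [← h, hπ.invol]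
    rw [Perm.mul_apply, Perm.mul_apply, swap_apply_of_ne_of_ne i4 i1,
      swap_apply_of_ne_of_ne i3 i2]

omit [Finite L] in
theorem Cut_repair_pairing {x y : L} (hxy : x ≠ y) {lab : L → ι × Bool} {π : Perm L}
    (hlab : lab y = linv (lab x)) (hπ : IsPairing lab π) (hx : π x ≠ y) :
    IsPairing lab (Cut_repair π x y) := by
  obtain ⟨s1, s2, s3, s4, s5⟩ := Cut_repair_spec hxy hπ hx
  constructor
  · intro z
    by_cases z1 : z = x
    · rw [z1, s1, s2]
    by_cases z2 : z = y
    · rw [z2, s2, s1]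
    by_cases z3 : z = π x
    · rw [z3, s3, s4]
    by_cases z4 : z = π y
    · rw [z4, s4, s3]
    rw [s5 z z1 z2 z3 z4, s5, hπ.invol]
    · intro h
      apply z3
      rw [← h, hπ.invol]
    · intro h
      apply z4
      rw [← h, hπ.invol]
    · intro h
      exact z1 (π.injective h)
    · intro h
      exact z2 (π.injective h)
  · intro z
    by_cases z1 : z = x
    · rw [z1, s1, hlab]
    by_cases z2 : z = y
    · rw [z2, s2, hlab, Cut_linv_linv]
    by_cases z3 : z = π x
    · rw [z3, s3, hπ.lab_inv, hπ.lab_inv, hlab]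
    by_cases z4 : z = π y
    · rw [z4, s4, hπ.lab_inv, hπ.lab_inv, hlab, Cut_linv_linv]
    rw [s5 z z1 z2 z3 z4, hπ.lab_inv]

theorem cut_merge (σ : Perm L) {x y : L} (hxy : x ≠ y) (lab : L → ι × Bool)
    (hlab : lab y = linv (lab x)) (σ' : Perm {z : L // z ≠ x ∧ z ≠ y}) (hσ' : IsCut σ x y σ')
    (π : Perm L) (hπ : IsPairing lab π) :
    ∃ π' : Perm {z : L // z ≠ x ∧ z ≠ y},
      IsPairing (fun z : {z : L // z ≠ x ∧ z ≠ y} => lab z) π' ∧
      E2 σ' π' ≤ E2 σ π + 2 + 2 * c0 σ x y := by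
  by_cases hx : π x = y
  · obtain ⟨π', h1, -, h3⟩ := cut_restrict σ hxy lab σ' hσ' π hπ hx
    refine ⟨π', h1, ?_⟩
    rw [h3]
    linarith
  · have hp := Cut_repair_pairing hxy hlab hπ hx
    obtain ⟨π', h1, -, h3⟩ := cut_restrict σ hxy lab σ' hσ' _ hp (Cut_repair_spec hxy hπ hx).1
    refine ⟨π', h1, ?_⟩
    rw [h3]
    have h4 : ncyc (σ * π) ≤ ncyc (σ * Cut_repair π x y) + 2 := by
      have e1 : ncyc (σ * Cut_repair π x y) =
          ncyc (π * σ * swap x (π y) * swap y (π x)) := by
        unfold Cut_repair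
        rw [← mul_assoc, ncyc_mul_comm]
        congr 1
      have e2 : ncyc (σ * π) = ncyc (π * σ) := ncyc_mul_comm _ _
      have e3 := ncyc_le_mul_swap (π * σ) x (π y)
      have e4 := ncyc_le_mul_swap (π * σ * swap x (π y)) y (π x)
      omega
    unfold E2
    have h5 : (ncyc (σ * π) : ℤ) ≤ ncyc (σ * Cut_repair π x y) + 2 := by exact_mod_cast h4
    linarith

theorem cut_adj (σ : Perm L) {x y : L} (hxy : x ≠ y) (hadj : σ x = y) (lab : L → ι × Bool)
    (hlab : lab y = linv (lab x)) (σ' : Perm {z : L // z ≠ x ∧ z ≠ y}) (hσ' : IsCut σ x y σ')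
    (π : Perm L) (hπ : IsPairing lab π) :
    ∃ π' : Perm {z : L // z ≠ x ∧ z ≠ y},
      IsPairing (fun z : {z : L // z ≠ x ∧ z ≠ y} => lab z) π' ∧
      E2 σ' π' ≤ E2 σ π + 2 * (if σ y = x then 1 else 0) := by
  have hc0 : (c0 σ x y : ℤ) = (if σ y = x then 1 else 0) + 1 := by
    unfold c0
    rw [if_pos hadj, if_neg (fun h : σ x = x ∧ σ y = y => hxy (h.1.symm.trans hadj))]
    push_cast
    ring
  by_cases hx : π x = y
  · obtain ⟨π', h1, -, h3⟩ := cut_restrict σ hxy lab σ' hσ' π hπ hx
    refine ⟨π', h1, ?_⟩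
    rw [h3, hc0]
    linarith
  · have hp := Cut_repair_pairing hxy hlab hπ hx
    obtain ⟨s1, s2, s3, s4, s5⟩ := Cut_repair_spec hxy hπ hx
    obtain ⟨π', h1, -, h3⟩ := cut_restrict σ hxy lab σ' hσ' _ hp s1
    refine ⟨π', h1, ?_⟩
    rw [h3, hc0]
    have h4 : ncyc (σ * π) ≤ ncyc (σ * Cut_repair π x y) := by
      have hy1 : π y ≠ y := Cut_pairing_ne hπ y
      have hx1 : π x ≠ x := Cut_pairing_ne hπ x
      have hy2 : π y ≠ x := by
        intro h
        apply hx
        rw [← h, hπ.invol]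
      obtain ⟨f', hf'⟩ := Cut_exists_remove (σ * π) y
      have e1 := ncyc_remove (σ * π) y f' hf'
      rw [if_neg, add_zero] at e1
      · have e2 := ncyc_remove (σ * Cut_repair π x y) y
          (f' * swap ⟨x, hxy⟩ ⟨π y, hy1⟩) (by
            intro z
            have hRne : (σ * Cut_repair π x y) z ≠ y := by
              intro h
              have h5 : σ (Cut_repair π x y z) = σ x := by
                rw [hadj]
                exact h
              have h6 : Cut_repair π x y z = Cut_repair π x y y := by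
                rw [s2]
                exact σ.injective h5
              exact z.2 ((Cut_repair π x y).injective h6)
            rw [if_neg hRne, Perm.mul_apply]
            by_cases z1 : z = ⟨x, hxy⟩
            · rw [z1, swap_apply_left, hf']
              have h5 : (σ * π) (π y) ≠ y := by
                rw [Perm.mul_apply, hπ.invol]
                intro h6
                exact hxy (σ.injective (hadj.trans h6.symm))
              rw [if_neg h5]
              change (σ * π) (π y) = σ (Cut_repair π x y x)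
              rw [Perm.mul_apply, hπ.invol, s1]
            · by_cases z2 : z = ⟨π y, hy1⟩
              · rw [z2, swap_apply_right, hf']
                have h5 : (σ * π) x ≠ y := by
                  rw [Perm.mul_apply]
                  intro h6
                  exact hx1 (σ.injective (h6.trans hadj.symm))
                rw [if_neg h5]
                change σ (π x) = σ (Cut_repair π x y (π y))
                rw [s4]
              · rw [swap_apply_of_ne_of_ne z1 z2, hf']
                have z1' : (z : L) ≠ x := fun h => z1 (Subtype.ext h)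
                have z2' : (z : L) ≠ π y := fun h => z2 (Subtype.ext h)
                by_cases z3 : (z : L) = π x
                · have h5 : (σ * π) (z : L) = y := by
                    rw [z3, Perm.mul_apply, hπ.invol, hadj]
                  rw [if_pos h5, Perm.mul_apply, Perm.mul_apply, z3, s3]
                · have h5 : (σ * π) (z : L) ≠ y := by
                    rw [Perm.mul_apply]
                    intro h6
                    apply z3
                    have h7 := σ.injective (h6.trans hadj.symm)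
                    rw [← h7, hπ.invol]
                  rw [if_neg h5, Perm.mul_apply, Perm.mul_apply, s5 z z1' z.2 z3 z2'])
        rw [if_pos (by rw [Perm.mul_apply, s2, hadj])] at e2
        have e3 := ncyc_le_mul_swap f' ⟨x, hxy⟩ ⟨π y, hy1⟩
        omega
      · rw [Perm.mul_apply]
        intro h5
        exact hy2 (σ.injective (h5.trans hadj.symm))
    unfold E2
    have h5 : (ncyc (σ * π) : ℤ) ≤ ncyc (σ * Cut_repair π x y) := by exact_mod_cast h4
    linarith

theorem cut_isPath {Ω : Type*} (t : Fin 2 → Perm Ω) (σ : Perm L) {x y : L} (hxy : x ≠ y)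
    (lab : L → (Ω × Fin 2) × Bool) (hlab : lab y = linv (lab x))
    (σ' : Perm {z : L // z ≠ x ∧ z ≠ y}) (hσ' : IsCut σ x y σ') (hp : IsPath t σ lab) :
    IsPath t σ' (fun z : {z : L // z ≠ x ∧ z ≠ y} => lab z) := by
  have hHy : tl t (linv (lab y)) = tl t (lab x) := by
    rw [hlab, Cut_linv_linv]
  have hTy : tl t (lab y) = tl t (linv (lab x)) := by
    rw [hlab]
  intro z
  change tl t (lab ((σ' z : {z : L // z ≠ x ∧ z ≠ y}) : L)) = tl t (linv (lab z))
  rw [hσ' z, ← hp z]
  have hpx := hp x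
  have hpy := hp y
  unfold cutFun
  by_cases h1 : σ z = x
  · rw [if_pos h1, h1]
    by_cases h2 : σ y = y
    · rw [if_pos h2, hpx, ← hTy]
      rw [h2] at hpy
      rw [hpy, hHy]
    · rw [if_neg h2, hpy, hHy]
  · rw [if_neg h1]
    by_cases h2 : σ z = y
    · rw [if_pos h2, h2]
      by_cases h3 : σ x = x
      · rw [if_pos h3, hpy, hHy]
        rw [h3] at hpx
        rw [hpx, hTy]
      · rw [if_neg h3, hpx, hTy]
    · rw [if_neg h2]

end SclIso
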