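import Pool.Agent.H.MP_1b0e60_al.Defs

/-!
Number of cycles of a permutation.
-/

open Equiv Filter Topology

namespace SclIso

variable {L M Q : Type*}

/-- the class of a point -/
def Cyc_cls (f : Perm L) (x : L) : Quotient (Perm.SameCycle.setoid f) :=
  Quotient.mk (Perm.SameCycle.setoid f) x

theorem Cyc_cls_eq {f : Perm L} {x y : L} : Cyc_cls f x = Cyc_cls f y ↔ f.SameCycle x y := by
  unfold Cyc_cls
  rw [Quotient.eq]
  rfl

theorem Cyc_cls_surj (f : Perm L) : Function.Surjective (Cyc_cls f) := by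
  intro c
  exact ⟨c.out, Quotient.out_eq c⟩

theorem Cyc_semiconj {f : Perm L} {g : Perm M} {p : L → M} (h : ∀ x, p (f x) = g (p x)) (i : ℤ)
    (x : L) : p ((f ^ i) x) = (g ^ i) (p x) := by
  have hnat : ∀ (n : ℕ) (x : L), p ((f ^ n) x) = (g ^ n) (p x) := by
    intro n
    induction n with
    | zero => intro x; rfl
    | succ n ih =>
      intro x
      rw [pow_succ, pow_succ, Perm.mul_apply, Perm.mul_apply, ih, h]
  cases i with
  | ofNat n => exact hnat n x
  | negSucc n =>
    rw [zpow_negSucc, zpow_negSucc]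
    apply (g ^ (n + 1)).injective
    rw [← hnat, ← Perm.mul_apply, mul_inv_cancel, Perm.one_apply, ← Perm.mul_apply,
      mul_inv_cancel, Perm.one_apply]

theorem Cyc_same_map {f : Perm L} {g : Perm M} {p : L → M} (h : ∀ x, p (f x) = g (p x))
    {x y : L} (hxy : f.SameCycle x y) : g.SameCycle (p x) (p y) := by
  obtain ⟨i, hi⟩ := hxy
  exact ⟨i, by rw [← Cyc_semiconj h, hi]⟩

theorem ncyc_permCongr (e : L ≃ M) (f : Perm L) : ncyc (e.permCongr f) = ncyc f := by
  unfold ncyc
  apply Nat.card_congr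
  symm
  apply Quotient.congr e
  intro a b
  change f.SameCycle a b ↔ (e.permCongr f).SameCycle (e a) (e b)
  constructor
  · intro h
    apply Cyc_same_map (p := e) _ h
    intro x
    rw [Equiv.permCongr_apply, e.symm_apply_apply]
  · intro h
    have h2 := Cyc_same_map (f := e.permCongr f) (g := f) (p := e.symm) (by
      intro x
      rw [Equiv.permCongr_apply, e.symm_apply_apply]) h
    rw [e.symm_apply_apply, e.symm_apply_apply] at h2
    exact h2

theorem ncyc_sumCongr [Finite L] [Finite M] (f : Perm L) (g : Perm M) :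
    ncyc (Equiv.sumCongr f g) = ncyc f + ncyc g := by
  unfold ncyc
  rw [← Nat.card_sum]
  apply Nat.card_congr
  have hl : ∀ (i : ℤ) (x : L), ((Equiv.sumCongr f g : Perm (L ⊕ M)) ^ i) (Sum.inl x) =
      Sum.inl ((f ^ i) x) := fun i x => (Cyc_semiconj (f := f) (p := Sum.inl) (fun x => rfl) i x).symm
  have hr : ∀ (i : ℤ) (x : M), ((Equiv.sumCongr f g : Perm (L ⊕ M)) ^ i) (Sum.inr x) =
      Sum.inr ((g ^ i) x) := fun i x => (Cyc_semiconj (f := g) (p := Sum.inr) (fun x => rfl) i x).symm
  have hφ : ∀ a b : L ⊕ M, (Perm.SameCycle.setoid (Equiv.sumCongr f g : Perm (L ⊕ M))) a b →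
      Sum.map (Cyc_cls f) (Cyc_cls g) a = Sum.map (Cyc_cls f) (Cyc_cls g) b := by
    intro a b hab
    obtain ⟨i, hi⟩ := hab
    rcases a with x | x
    · rw [hl] at hi
      rw [← hi]
      simp only [Sum.map_inl]
      congr 1
      rw [Cyc_cls_eq]
      exact ⟨i, rfl⟩
    · rw [hr] at hi
      rw [← hi]
      simp only [Sum.map_inr]
      congr 1
      rw [Cyc_cls_eq]
      exact ⟨i, rfl⟩
  refine Equiv.ofBijective (Quotient.lift (Sum.map (Cyc_cls f) (Cyc_cls g)) hφ) ⟨?_, ?_⟩
  · intro c d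
    obtain ⟨a, rfl⟩ := Quotient.exists_rep c
    obtain ⟨b, rfl⟩ := Quotient.exists_rep d
    intro hab
    change Sum.map (Cyc_cls f) (Cyc_cls g) a = Sum.map (Cyc_cls f) (Cyc_cls g) b at hab
    apply Quotient.sound
    change Perm.SameCycle (Equiv.sumCongr f g : Perm (L ⊕ M)) a b
    rcases a with x | x
    · rcases b with y | y
      · simp only [Sum.map_inl] at hab
        obtain ⟨i, hi⟩ := Cyc_cls_eq.1 (Sum.inl_injective hab)
        exact ⟨i, by rw [hl, hi]⟩
      · simp only [Sum.map_inl, Sum.map_inr] at hab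
        exact absurd hab Sum.inl_ne_inr
    · rcases b with y | y
      · simp only [Sum.map_inl, Sum.map_inr] at hab
        exact absurd hab Sum.inr_ne_inl
      · simp only [Sum.map_inr] at hab
        obtain ⟨i, hi⟩ := Cyc_cls_eq.1 (Sum.inr_injective hab)
        exact ⟨i, by rw [hr, hi]⟩
  · rintro (c | c)
    · obtain ⟨a, rfl⟩ := Cyc_cls_surj f c
      exact ⟨Quotient.mk _ (Sum.inl a), rfl⟩
    · obtain ⟨a, rfl⟩ := Cyc_cls_surj g c
      exact ⟨Quotient.mk _ (Sum.inr a), rfl⟩

theorem ncyc_prodCongr_refl [Finite L] [Finite Q] (f : Perm L) :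
    ncyc (Equiv.prodCongr f (Equiv.refl Q)) = Nat.card Q * ncyc f := by
  unfold ncyc
  rw [← Nat.card_prod]
  apply Nat.card_congr
  have hp : ∀ (i : ℤ) (x : L) (q : Q), ((Equiv.prodCongr f (Equiv.refl Q) : Perm (L × Q)) ^ i) (x, q) =
      ((f ^ i) x, q) := fun i x q =>
    (Cyc_semiconj (f := f) (g := (Equiv.prodCongr f (Equiv.refl Q) : Perm (L × Q)))
      (p := fun x => (x, q)) (fun x => rfl) i x).symm
  have hφ : ∀ a b : L × Q,
      (Perm.SameCycle.setoid (Equiv.prodCongr f (Equiv.refl Q) : Perm (L × Q))) a b →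
      (a.2, Cyc_cls f a.1) = (b.2, Cyc_cls f b.1) := by
    rintro ⟨x, q⟩ b ⟨i, hi⟩
    rw [hp] at hi
    rw [← hi]
    change (q, Cyc_cls f x) = (q, Cyc_cls f ((f ^ i) x))
    congr 1
    rw [Cyc_cls_eq]
    exact ⟨i, rfl⟩
  refine Equiv.ofBijective (Quotient.lift (fun a : L × Q => (a.2, Cyc_cls f a.1)) hφ) ⟨?_, ?_⟩
  · intro c d
    obtain ⟨⟨x, q⟩, rfl⟩ := Quotient.exists_rep c
    obtain ⟨⟨y, r⟩, rfl⟩ := Quotient.exists_rep d
    intro hab
    change (q, Cyc_cls f x) = (r, Cyc_cls f y) at hab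
    rw [Prod.mk.injEq] at hab
    obtain ⟨rfl, h2⟩ := hab
    obtain ⟨i, hi⟩ := Cyc_cls_eq.1 h2
    apply Quotient.sound
    exact ⟨i, by rw [hp, hi]⟩
  · rintro ⟨q, c⟩
    obtain ⟨a, rfl⟩ := Cyc_cls_surj f c
    exact ⟨Quotient.mk _ (a, q), rfl⟩

theorem ncyc_mul_comm (f g : Perm L) : ncyc (f * g) = ncyc (g * f) := by
  have h : (f.symm : L ≃ L).permCongr (f * g) = g * f := by
    ext x
    rw [Equiv.permCongr_apply]
    simp
  rw [← h, ncyc_permCongr]

theorem ncyc_one : ncyc (1 : Perm L) = Nat.card L := by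
  unfold ncyc
  symm
  apply Nat.card_congr
  refine Equiv.ofBijective (Cyc_cls (1 : Perm L)) ⟨?_, Cyc_cls_surj _⟩
  intro x y hxy
  rw [Cyc_cls_eq, Perm.sameCycle_one] at hxy
  exact hxy

theorem ncyc_le_card [Finite L] (f : Perm L) : ncyc f ≤ Nat.card L := by
  unfold ncyc
  exact Nat.card_le_card_of_surjective _ (Cyc_cls_surj f)

/-- the cycles which meet `T` -/
def Cyc_meet (f : Perm L) (T : Set L) : Set (Quotient (Perm.SameCycle.setoid f)) :=
  Cyc_cls f '' T

theorem Cyc_split [Finite L] (f : Perm L) (T : Set L) :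
    (Cyc_meet f T).ncard + (Cyc_meet f T)ᶜ.ncard = ncyc f := by
  unfold ncyc
  exact Set.ncard_add_ncard_compl _

theorem Cyc_avoid_le [Finite L] {f g : Perm L} {T : Set L} (h : ∀ x, x ∉ T → f x = g x) :
    (Cyc_meet f T)ᶜ.ncard ≤ (Cyc_meet g T)ᶜ.ncard := by
  -- along a cycle avoiding `T` the two permutations agree
  have hpow : ∀ x, Cyc_cls f x ∉ Cyc_meet f T → ∀ n : ℕ, (g ^ n) x = (f ^ n) x := by
    intro x hx n
    induction n with
    | zero => rfl
    | succ n ih =>
      rw [pow_succ', pow_succ', Perm.mul_apply, Perm.mul_apply, ih]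
      symm
      apply h
      intro h1
      apply hx
      refine ⟨_, h1, ?_⟩
      rw [Cyc_cls_eq]
      exact ⟨-(n : ℤ), by rw [zpow_neg, zpow_natCast, ← Perm.mul_apply, inv_mul_cancel,
        Perm.one_apply]⟩
  apply Set.ncard_le_ncard_of_injOn (fun c => Cyc_cls g c.out)
  · intro c hc
    have hc' : Cyc_cls f c.out = c := Quotient.out_eq c
    rw [Set.mem_compl_iff, ← hc'] at hc
    rw [Set.mem_compl_iff]
    rintro ⟨s, hs, hsc⟩
    rw [Cyc_cls_eq] at hsc
    obtain ⟨n, hn⟩ := hsc.symm.exists_nat_pow_eq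
    rw [hpow _ hc] at hn
    apply hc
    refine ⟨s, hs, ?_⟩
    rw [Cyc_cls_eq]
    exact Perm.SameCycle.symm ⟨n, by rw [zpow_natCast, hn]⟩
  · intro c hc d hd hcd
    have hc' : Cyc_cls f c.out = c := Quotient.out_eq c
    have hd' : Cyc_cls f d.out = d := Quotient.out_eq d
    rw [Set.mem_compl_iff, ← hc'] at hc
    change Cyc_cls g c.out = Cyc_cls g d.out at hcd
    rw [Cyc_cls_eq] at hcd
    obtain ⟨n, hn⟩ := hcd.exists_nat_pow_eq
    rw [hpow _ hc] at hn
    rw [← hc', ← hd', Cyc_cls_eq]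
    exact ⟨n, by rw [zpow_natCast, hn]⟩

theorem ncyc_le_mul_swap [Finite L] [DecidableEq L] (f : Perm L) (x y : L) :
    ncyc f ≤ ncyc (f * swap x y) + 1 := by
  have h : ∀ z, z ∉ ({x, y} : Set L) → f z = (f * swap x y) z := by
    intro z hz
    rw [Set.mem_insert_iff, Set.mem_singleton_iff, not_or] at hz
    rw [Perm.mul_apply, swap_apply_of_ne_of_ne hz.1 hz.2]
  have h1 := Cyc_avoid_le h
  have h2 := Cyc_split f {x, y}
  have h3 := Cyc_split (f * swap x y) {x, y}
  have h4 : (Cyc_meet f {x, y}).ncard ≤ 2 := by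
    refine (Set.ncard_image_le (Set.toFinite _)).trans ?_
    refine (Set.ncard_insert_le _ _).trans ?_
    rw [Set.ncard_singleton]
  have h5 : 1 ≤ (Cyc_meet (f * swap x y) {x, y}).ncard := by
    rw [Nat.one_le_iff_ne_zero, ← Nat.pos_iff_ne_zero, Set.ncard_pos (Set.toFinite _)]
    exact ⟨_, x, Set.mem_insert _ _, rfl⟩
  omega

theorem ncyc_le_of_eq_off [Finite L] (f g : Perm L) (T : Finset L) (h : ∀ x, x ∉ T → f x = g x) :
    ncyc f ≤ ncyc g + T.card := by
  have h1 := Cyc_avoid_le (f := f) (g := g) (T := (T : Set L))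
    (fun x hx => h x (fun h2 => hx (Finset.mem_coe.2 h2)))
  have h2 := Cyc_split f (T : Set L)
  have h3 := Cyc_split g (T : Set L)
  have h4 : (Cyc_meet f (T : Set L)).ncard ≤ T.card := by
    refine (Set.ncard_image_le (Set.toFinite _)).trans ?_
    rw [Set.ncard_coe_finset]
  omega

/-- removing one point from a permutation -/
theorem ncyc_remove [Finite L] [DecidableEq L] (f : Perm L) (x : L) (f' : Perm {z : L // z ≠ x})
    (h : ∀ z, ((f' z : {z : L // z ≠ x}) : L) = if f z = x then f x else f z) :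
    ncyc f = ncyc f' + (if f x = x then 1 else 0) := by
  -- one step of `f'` stays in the `f`-cycle
  have hstep : ∀ z : {z : L // z ≠ x}, f.SameCycle (z : L) (f' z : {z : L // z ≠ x}) := by
    intro z
    rw [h z]
    by_cases h1 : f z = x
    · rw [if_pos h1]
      refine ⟨2, ?_⟩
      rw [show (2 : ℤ) = ((2 : ℕ) : ℤ) from rfl, zpow_natCast, pow_two, Perm.mul_apply, h1]
    · rw [if_neg h1]
      exact ⟨1, by rw [zpow_one]⟩
  have hnat : ∀ (n : ℕ) (z : {z : L // z ≠ x}),
      f.SameCycle (z : L) ((f' ^ n) z : {z : L // z ≠ x}) := by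
    intro n
    induction n with
    | zero =>
      intro z
      exact ⟨0, rfl⟩
    | succ n ih =>
      intro z
      rw [pow_succ', Perm.mul_apply]
      exact (ih z).trans (hstep _)
  have hto : ∀ z w : {z : L // z ≠ x}, f'.SameCycle z w → f.SameCycle (z : L) (w : L) := by
    intro z w hzw
    obtain ⟨n, hn⟩ := hzw.exists_nat_pow_eq
    rw [← hn]
    exact hnat n z
  -- converse
  have hback : ∀ (n : ℕ) (z w : {z : L // z ≠ x}), (f ^ n) (z : L) = w → f'.SameCycle z w := by
    intro n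
    induction n using Nat.strong_induction_on with
    | _ n ih =>
      intro z w hzw
      rcases n with - | n
      · have : z = w := Subtype.ext hzw
        rw [this]
      · rw [pow_succ, Perm.mul_apply] at hzw
        have h0 := h z
        by_cases h1 : f z = x
        · rw [if_pos h1] at h0
          rcases n with - | m
          · exfalso
            rw [pow_zero, Perm.one_apply, h1] at hzw
            exact w.2 hzw.symm
          · rw [pow_succ, Perm.mul_apply, h1, ← h0] at hzw
            have h2 := ih m (by omega) (f' z) w hzw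
            exact Perm.SameCycle.trans ⟨1, by rw [zpow_one]⟩ h2
        · rw [if_neg h1] at h0
          rw [← h0] at hzw
          have h2 := ih n (by omega) (f' z) w hzw
          exact Perm.SameCycle.trans ⟨1, by rw [zpow_one]⟩ h2
  let Φ : Quotient (Perm.SameCycle.setoid f') → Quotient (Perm.SameCycle.setoid f) :=
    Quotient.lift (fun z : {z : L // z ≠ x} => Cyc_cls f (z : L)) (by
      intro z w hzw
      rw [Cyc_cls_eq]
      exact hto z w hzw)
  have hΦinj : Function.Injective Φ := by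
    intro c d
    obtain ⟨z, rfl⟩ := Quotient.exists_rep c
    obtain ⟨w, rfl⟩ := Quotient.exists_rep d
    intro hab
    change Cyc_cls f (z : L) = Cyc_cls f (w : L) at hab
    rw [Cyc_cls_eq] at hab
    obtain ⟨n, hn⟩ := hab.exists_nat_pow_eq
    exact Quotient.sound (hback n z w hn)
  by_cases hx : f x = x
  · rw [if_pos hx]
    unfold ncyc
    rw [← Finite.card_option]
    symm
    apply Nat.card_congr
    refine Equiv.ofBijective (fun o : Option (Quotient (Perm.SameCycle.setoid f')) =>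
      o.elim (Cyc_cls f x) Φ) ⟨?_, ?_⟩
    · have hne : ∀ c, Φ c ≠ Cyc_cls f x := by
        intro c
        obtain ⟨z, rfl⟩ := Quotient.exists_rep c
        intro hab
        change Cyc_cls f (z : L) = Cyc_cls f x at hab
        rw [Cyc_cls_eq] at hab
        obtain ⟨n, hn⟩ := hab.symm.exists_nat_pow_eq
        have hfix : ∀ n : ℕ, (f ^ n) x = x := by
          intro n
          induction n with
          | zero => rfl
          | succ n ih => rw [pow_succ', Perm.mul_apply, ih, hx]
        rw [hfix] at hn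
        exact z.2 hn.symm
      intro a b hab
      rcases a with - | a
      · rcases b with - | b
        · rfl
        · exact absurd hab.symm (hne b)
      · rcases b with - | b
        · exact absurd hab (hne a)
        · exact congrArg some (hΦinj hab)
    · intro c
      obtain ⟨z, rfl⟩ := Cyc_cls_surj f c
      by_cases hz : z = x
      · exact ⟨none, by rw [hz]; rfl⟩
      · exact ⟨some (Quotient.mk _ ⟨z, hz⟩), rfl⟩
  · rw [if_neg hx, add_zero]
    unfold ncyc
    symm
    apply Nat.card_congr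
    refine Equiv.ofBijective Φ ⟨hΦinj, ?_⟩
    intro c
    obtain ⟨z, rfl⟩ := Cyc_cls_surj f c
    by_cases hz : z = x
    · refine ⟨Quotient.mk _ ⟨f x, hx⟩, ?_⟩
      change Cyc_cls f (f x) = Cyc_cls f z
      rw [hz, Cyc_cls_eq]
      exact Perm.SameCycle.symm ⟨1, by rw [zpow_one]⟩
    · exact ⟨Quotient.mk _ ⟨z, hz⟩, rfl⟩

end SclIso
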