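import Pool.Agent.H.MP_1b0e60_al.ClDefs

/-!
# Definitions for MP_1b0e60_al (scl and injective homomorphisms from `F_2`)

Surfaces bounded by chains in graphs are encoded by permutations.
-/

open Equiv Filter

namespace SclIso

/-! ## Permutations, pairings, covers -/

/-- number of cycles (fixed points included) of a permutation -/
noncomputable def ncyc {L : Type*} (f : Perm L) : ℕ :=
  Nat.card (Quotient (Perm.SameCycle.setoid f))

/-- minus twice the Euler characteristic of the surface obtained from the boundary permutation `σ`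
by glueing a rectangle to each pair `{x, π x}` and a polygon to each cycle of `σ * π` -/
noncomputable def E2 {L : Type*} (σ π : Perm L) : ℤ :=
  (Nat.card L : ℤ) - 2 * (ncyc (σ * π) : ℤ)

/-- inverse letter -/
def linv {ι : Type*} (a : ι × Bool) : ι × Bool := (a.1, !a.2)

/-- relabelling of letters -/
def mapL {ι κ : Type*} (q : ι → κ) (a : ι × Bool) : κ × Bool := (q a.1, a.2)

/-- an involution `π` which pairs each letter with an inverse letter -/
structure IsPairing {ι L : Type*} (lab : L → ι × Bool) (π : Perm L) : Prop where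
  invol : ∀ x, π (π x) = x
  lab_inv : ∀ x, lab (π x) = linv (lab x)

/-- `(L', σ')` is an `n`-fold cover of `(L, σ)` through `p` -/
structure IsCover {L' L : Type*} (σ' : Perm L') (σ : Perm L) (p : L' → L) (n : ℕ) : Prop where
  comm : ∀ x, p (σ' x) = σ (p x)
  fib : ∀ y, Nat.card {x // p x = y} = n

/-- some finite cover of the chain `(L, σ, lab)`, of degree `n` say, bounds a surface with
`-2χ < n r` -/
def FillLt {ι L : Type} (σ : Perm L) (lab : L → ι × Bool) (r : ℝ) : Prop :=
  ∃ (n : ℕ) (L' : Type) (_ : Finite L') (p : L' → L) (σ' π : Perm L'),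
    0 < n ∧ IsCover σ' σ p n ∧ IsPairing (fun x => lab (p x)) π ∧ ((E2 σ' π : ℤ) : ℝ) < n * r

/-- product of the values of `w` along the cycle of `x` -/
noncomputable def cycProd {L K : Type*} [Monoid K] (σ : Perm L) (w : L → K) (x : L) : K :=
  ((List.range (Function.minimalPeriod σ x)).map (fun i => w ((σ ^ i) x))).prod

/-- the successor map after the letters `x`, `y` (with inverse labels) have been cut out -/
def cutFun {L : Type*} [DecidableEq L] (σ : Perm L) (x y z : L) : L :=
  if σ z = x then (if σ y = y then σ x else σ y)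
  else if σ z = y then (if σ x = x then σ y else σ x)
  else σ z

/-- `σ'` is the permutation obtained from `σ` by cutting along the strip `{x, y}` -/
def IsCut {L : Type*} [DecidableEq L] (σ : Perm L) (x y : L)
    (σ' : Perm {z : L // z ≠ x ∧ z ≠ y}) : Prop :=
  ∀ z, ((σ' z : {z : L // z ≠ x ∧ z ≠ y}) : L) = cutFun σ x y z

/-- number of polygons contained in the strip `{x, y}` -/
def c0 {L : Type*} [DecidableEq L] (σ : Perm L) (x y : L) : ℕ :=
  (if σ y = x then 1 else 0) + (if σ x = y then 1 else 0) + (if σ x = x ∧ σ y = y then 1 else 0)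

/-! ## Action graphs

An action graph is a type `Ω` of vertices with two permutations `t 0`, `t 1`; its edges are the
elements of `Ω × Fin 2`, the edge `(x, s)` goes from `x` to `t s x`. -/

/-- the permutation of the vertices given by a letter -/
def step {Ω : Type*} (t : Fin 2 → Perm Ω) (l : Fin 2 × Bool) : Perm Ω :=
  if l.2 then t l.1 else (t l.1)⁻¹

/-- end point of the path which starts at `x` and reads the word `w` -/
def walk {Ω : Type*} (t : Fin 2 → Perm Ω) (w : List (Fin 2 × Bool)) (x : Ω) : Ω :=
  w.foldl (fun y l => step t l y) x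

/-- the path which starts at `x` and reads `w` stays in `D` -/
def Stays {Ω : Type*} (t : Fin 2 → Perm Ω) (D : Ω → Prop) : List (Fin 2 × Bool) → Ω → Prop
  | [], x => D x
  | l :: w, x => D x ∧ Stays t D w (step t l x)

/-- initial vertex of an oriented edge -/
def tl {Ω : Type*} (t : Fin 2 → Perm Ω) (l : (Ω × Fin 2) × Bool) : Ω :=
  if l.2 then l.1.1 else t l.1.2 l.1.1

/-- the labels of the chain are consecutive edges -/
def IsPath {Ω L : Type*} (t : Fin 2 → Perm Ω) (σ : Perm L) (lab : L → (Ω × Fin 2) × Bool) : Prop :=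
  ∀ x, tl t (lab (σ x)) = tl t (linv (lab x))

/-- the element of the free group of an oriented edge -/
def fval {Ω : Type*} (l : (Ω × Fin 2) × Bool) : FreeGroup (Fin 2) := FreeGroup.mk [(l.1.2, l.2)]

/-- signed number of passages of a path through the edges -/
noncomputable def flow {Ω : Type*} (t : Fin 2 → Perm Ω) :
    List (Fin 2 × Bool) → Ω → (Ω × Fin 2 →₀ ℤ)
  | [], _ => 0
  | l :: w, x => (if l.2 then Finsupp.single (x, l.1) 1
      else - Finsupp.single ((t l.1)⁻¹ x, l.1) 1) + flow t w (step t l x)

/-- the product of an action graph with a Cayley graph -/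
def liftAct {S G : Type*} [Group G] (t : Fin 2 → Perm S) (γ : Fin 2 → G) (s : Fin 2) :
    Perm (S × G) :=
  Equiv.prodCongr (t s) (Equiv.mulRight (γ s))

/-- there is a closed path at `x`, inside `D`, which is not null-homotopic -/
def Alive {Ω : Type*} (t : Fin 2 → Perm Ω) (D : Ω → Prop) (x : Ω) : Prop :=
  ∃ w, Stays t D w x ∧ walk t w x = x ∧ FreeGroup.mk w ≠ 1

/-- the lower neighbour of `x` in the direction `s` -/
def low {S G : Type*} [Group G] [LinearOrder G] (t : Fin 2 → Perm S) (γ : Fin 2 → G) (s : Fin 2)
    (x : S × G) : S × G :=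
  if γ s < 1 then liftAct t γ s x else (liftAct t γ s)⁻¹ x

/-- both lower neighbours of `(v, g)` lie on essential loops of level below `g` -/
def Good {S G : Type*} [Group G] [LinearOrder G] (t : Fin 2 → Perm S) (γ : Fin 2 → G)
    (V : S → Prop) (g : G) (v : S) : Prop :=
  ∀ s, Alive (liftAct t γ) (fun y => V y.1 ∧ y.2 < g) (low t γ s (v, g))

/-- Folner sets for the Cayley graph of `γ 0, γ 1` -/
def Folner {G : Type*} [Group G] (γ : Fin 2 → G) : Prop :=
  ∀ ε : ℝ, 0 < ε → ∃ Φ : Finset G, Φ.Nonempty ∧
    ∀ s, (Nat.card {g : G // g ∈ Φ ∧ g * γ s ∉ Φ} : ℝ) ≤ ε * Φ.card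

/-- stable commutator length of a formal sum `g 0 + ... + g (m-1)` -/
noncomputable def scl {G : Type*} [Group G] {m : ℕ} (g : Fin m → G) : ℝ :=
  limUnder atTop (fun n : ℕ => (clSum (fun i => g i ^ n) : ℝ) / n)

/-- boundary permutation of a family of cyclic words with given lengths -/
def wordPerm {k : ℕ} (len : Fin k → ℕ) : Perm (Σ i, Fin (len i)) :=
  Equiv.sigmaCongrRight fun i => finRotate (len i)

/-- the action graph on the left cosets of `H` (the right cosets, by inversion): the letter `s`
acts by left multiplication by `s⁻¹` -/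
def cosetAct (H : Subgroup (FreeGroup (Fin 2))) (s : Fin 2) : Perm (FreeGroup (Fin 2) ⧸ H) :=
  MulAction.toPerm ((FreeGroup.of s)⁻¹ : FreeGroup (Fin 2))

end SclIso
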