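import Pool.Agent.H.MP_1b0e60_al.Defs

/-!
Folner sets in quotients by the derived series.
-/

open Equiv Filter Topology

namespace SclIso

/-- Folner condition for all finite sets of right translations -/
def DerFolner_IsF (G : Type*) [Group G] : Prop :=
  ∀ (S : Finset G) (ε : ℝ), 0 < ε → ∃ Φ : Finset G, Φ.Nonempty ∧
    ∀ s ∈ S, (Nat.card {g : G // g ∈ Φ ∧ g * s ∉ Φ} : ℝ) ≤ ε * Φ.card

theorem DerFolner_card {G : Type*} [Group G] [DecidableEq G] (Φ : Finset G) (s : G) :
    Nat.card {g : G // g ∈ Φ ∧ g * s ∉ Φ} = (Φ.filter (fun g => g * s ∉ Φ)).card :=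
  Nat.subtype_card _ (fun x => by rw [Finset.mem_filter])

/-- a sequence of polynomial growth has a step with small relative growth -/
theorem DerFolner_growth (a : ℕ → ℕ) (k : ℕ) (h1 : ∀ n, 1 ≤ n → 1 ≤ a n)
    (h2 : ∀ n, a n ≤ n ^ k) (ε : ℝ) (hε : 0 < ε) :
    ∃ n, 1 ≤ n ∧ (a (n + 1) : ℝ) ≤ (1 + ε) * a n := by
  by_contra hcon
  push Not at hcon
  have hr : 1 < 1 + ε := by linarith
  have key : ∀ n : ℕ, (1 + ε) ^ n ≤ (a (n + 1) : ℝ) := by
    intro n
    induction n with
    | zero =>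
      have := h1 1 le_rfl
      rw [pow_zero, zero_add]
      exact_mod_cast this
    | succ n ih =>
      have h3 := hcon (n + 1) (by omega)
      calc (1 + ε) ^ (n + 1) = (1 + ε) * (1 + ε) ^ n := by ring
        _ ≤ (1 + ε) * a (n + 1) := by gcongr
        _ ≤ a (n + 1 + 1) := h3.le
  have hlim := tendsto_pow_const_div_const_pow_of_one_lt k hr
  have hpos : (0 : ℝ) < 1 / (1 + ε) := by positivity
  obtain ⟨N, hN⟩ := (hlim.eventually (gt_mem_nhds hpos)).exists_forall_of_atTop
  have h4 := hN (N + 1) (by omega)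
  have h5 := key N
  have h6 : (a (N + 1) : ℝ) ≤ ((N + 1 : ℕ) : ℝ) ^ k := by exact_mod_cast h2 (N + 1)
  rw [div_lt_div_iff₀ (by positivity) (by positivity)] at h4
  have h7 : (1 + ε) ^ (N + 1) = (1 + ε) ^ N * (1 + ε) := pow_succ _ _
  have h8 : (1 + ε) ^ N * (1 + ε) ≤ ((N + 1 : ℕ) : ℝ) ^ k * (1 + ε) := by
    have := h5.trans h6
    gcongr
  linarith

theorem DerFolner_comm (N : Type*) [CommGroup N] : DerFolner_IsF N := by
  classical
  intro S ε hε
  let B : ℕ → Finset N := fun n => (Fintype.piFinset fun _ : S => Finset.range n).image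
    (fun f : S → ℕ => ∏ c : S, (c : N) ^ f c)
  have hmem : ∀ n x, x ∈ B n ↔ ∃ f : S → ℕ, (∀ c, f c < n) ∧ ∏ c : S, (c : N) ^ f c = x := by
    intro n x
    simp only [B, Finset.mem_image, Fintype.mem_piFinset, Finset.mem_range]
  have h1 : ∀ n, 1 ≤ n → 1 ≤ (B n).card := by
    intro n hn
    apply Finset.card_pos.mpr
    refine ⟨1, (hmem n 1).mpr ⟨fun _ => 0, fun _ => hn, ?_⟩⟩
    simp
  have h2 : ∀ n, (B n).card ≤ n ^ Fintype.card S := by
    intro n
    refine Finset.card_image_le.trans ?_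
    rw [Fintype.card_piFinset]
    simp
  obtain ⟨n, hn, hgr⟩ := DerFolner_growth (fun n => (B n).card) _ h1 h2 ε hε
  refine ⟨B n, Finset.card_pos.mp (h1 n hn), fun s hs => ?_⟩
  have hsub : B n ⊆ B (n + 1) := by
    intro x hx
    obtain ⟨f, hf, rfl⟩ := (hmem n x).mp hx
    exact (hmem _ _).mpr ⟨f, fun c => (hf c).trans (Nat.lt_succ_self n), rfl⟩
  have hmul : ∀ x ∈ B n, x * s ∈ B (n + 1) := by
    intro x hx
    obtain ⟨f, hf, rfl⟩ := (hmem n x).mp hx
    refine (hmem _ _).mpr ⟨f + Pi.single ⟨s, hs⟩ 1, fun c => ?_, ?_⟩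
    · have h3 := hf c
      have h4 : (Pi.single (⟨s, hs⟩ : S) 1 : S → ℕ) c ≤ 1 := by
        by_cases hc : c = ⟨s, hs⟩
        · rw [hc, Pi.single_eq_same]
        · rw [Pi.single_eq_of_ne hc]
          exact Nat.zero_le _
      rw [Pi.add_apply]
      omega
    · simp only [Pi.add_apply, pow_add, Finset.prod_mul_distrib]
      congr 1
      rw [Fintype.prod_eq_single (⟨s, hs⟩ : S)]
      · simp
      · intro c hc
        rw [Pi.single_eq_of_ne hc, pow_zero]
  rw [DerFolner_card]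
  have h3 : ((B n).filter (fun g => g * s ∉ B n)).card ≤ (B (n + 1) \ B n).card := by
    apply Finset.card_le_card_of_injOn (fun g => g * s)
    · intro g hg
      have hg' := Finset.mem_filter.mp (Finset.mem_coe.mp hg)
      exact Finset.mem_coe.mpr (Finset.mem_sdiff.mpr ⟨hmul g hg'.1, hg'.2⟩)
    · intro a _ b _ hab
      exact mul_right_cancel hab
  have h4 : (B (n + 1) \ B n).card + (B n).card = (B (n + 1)).card :=
    Finset.card_sdiff_add_card_eq_card hsub
  have h5 : (((B n).filter (fun g => g * s ∉ B n)).card : ℝ) ≤ (B (n + 1) \ B n).card := by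
    exact_mod_cast h3
  have h6 : ((B (n + 1) \ B n).card : ℝ) + (B n).card = (B (n + 1)).card := by exact_mod_cast h4
  have h7 : ((B (n + 1)).card : ℝ) ≤ (1 + ε) * (B n).card := hgr
  linarith

/-- extensions of a group with Folner sets by an abelian kernel -/
theorem DerFolner_ext {G Q : Type*} [Group G] [Group Q] (p : G →* Q)
    (hp : Function.Surjective p) (hc : ∀ a b, p a = 1 → p b = 1 → a * b = b * a)
    (hQ : DerFolner_IsF Q) : DerFolner_IsF G := by
  classical
  intro S ε hε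
  let _ : CommGroup p.ker :=
    { (inferInstance : Group p.ker) with
      mul_comm := fun a b => Subtype.ext (hc a.1 b.1 a.2 b.2) }
  obtain ⟨Φ1, hne1, hΦ1⟩ := hQ (S.image p) (ε / 2) (by positivity)
  let sec : Q → G := Function.surjInv hp
  have hsec : ∀ q, p (sec q) = q := Function.surjInv_eq hp
  have hcm : ∀ q s, p (sec q * s * (sec (q * p s))⁻¹) = 1 := by
    intro q s
    rw [map_mul, map_mul, map_inv, hsec, hsec, mul_inv_cancel]
  let c : Q → G → p.ker := fun q s => ⟨sec q * s * (sec (q * p s))⁻¹, hcm q s⟩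
  obtain ⟨Φ2, hne2, hΦ2⟩ := DerFolner_comm p.ker ((Φ1 ×ˢ S).image (fun x => c x.1 x.2)) (ε / 2)
    (by positivity)
  let g : p.ker × Q → G := fun x => x.1.1 * sec x.2
  have hg : Function.Injective g := by
    rintro ⟨a, q⟩ ⟨b, r⟩ h
    have h1 : (a : G) * sec q = b * sec r := h
    have h2 := congrArg p h1
    rw [map_mul, map_mul, hsec, hsec, show p (a : G) = 1 from a.2, show p (b : G) = 1 from b.2,
      one_mul, one_mul] at h2
    subst h2
    have h3 : (a : G) = b := mul_right_cancel h1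
    rw [Subtype.ext h3]
  refine ⟨(Φ2 ×ˢ Φ1).image g, (hne2.product hne1).image g, fun s hs => ?_⟩
  have hcard : ((Φ2 ×ˢ Φ1).image g).card = Φ2.card * Φ1.card := by
    rw [Finset.card_image_of_injective _ hg, Finset.card_product]
  have hA := hΦ1 (p s) (Finset.mem_image_of_mem p hs)
  rw [DerFolner_card] at hA
  have hB : ∀ q ∈ Φ1, ((Φ2.filter (fun a => a * c q s ∉ Φ2)).card : ℝ) ≤ ε / 2 * Φ2.card := by
    intro q hq
    have h := hΦ2 (c q s) (Finset.mem_image.mpr ⟨(q, s), Finset.mem_product.mpr ⟨hq, hs⟩, rfl⟩)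
    rw [DerFolner_card] at h
    exact h
  have hsub : ((Φ2 ×ˢ Φ1).image g).filter (fun x => x * s ∉ (Φ2 ×ˢ Φ1).image g) ⊆
      (Φ2 ×ˢ (Φ1.filter (fun q => q * p s ∉ Φ1))).image g ∪
        Φ1.biUnion (fun q => (Φ2.filter (fun a => a * c q s ∉ Φ2)).image (fun a => g (a, q))) := by
    intro x hx
    rw [Finset.mem_filter, Finset.mem_image] at hx
    obtain ⟨⟨⟨a, q⟩, haq, rfl⟩, hx2⟩ := hx
    rw [Finset.mem_product] at haq
    rw [Finset.mem_union]
    by_cases h1 : q * p s ∈ Φ1
    · right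
      rw [Finset.mem_biUnion]
      refine ⟨q, haq.2, Finset.mem_image.mpr ⟨a, Finset.mem_filter.mpr ⟨haq.1, fun h2 => ?_⟩, rfl⟩⟩
      apply hx2
      rw [Finset.mem_image]
      refine ⟨(a * c q s, q * p s), Finset.mem_product.mpr ⟨h2, h1⟩, ?_⟩
      show (a : G) * (sec q * s * (sec (q * p s))⁻¹) * sec (q * p s) = (a : G) * sec q * s
      group
    · left
      exact Finset.mem_image_of_mem g (Finset.mem_product.mpr
        ⟨haq.1, Finset.mem_filter.mpr ⟨haq.2, h1⟩⟩)
  have h1 : (((Φ2 ×ˢ Φ1).image g).filter (fun x => x * s ∉ (Φ2 ×ˢ Φ1).image g)).card ≤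
      Φ2.card * (Φ1.filter (fun q => q * p s ∉ Φ1)).card +
        ∑ q ∈ Φ1, (Φ2.filter (fun a => a * c q s ∉ Φ2)).card := by
    refine (Finset.card_le_card hsub).trans ((Finset.card_union_le _ _).trans ?_)
    gcongr
    · refine Finset.card_image_le.trans ?_
      rw [Finset.card_product]
    · refine Finset.card_biUnion_le.trans ?_
      exact Finset.sum_le_sum fun q _ => Finset.card_image_le
  have h2 : ((((Φ2 ×ˢ Φ1).image g).filter (fun x => x * s ∉ (Φ2 ×ˢ Φ1).image g)).card : ℝ) ≤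
      Φ2.card * (Φ1.filter (fun q => q * p s ∉ Φ1)).card +
        ∑ q ∈ Φ1, ((Φ2.filter (fun a => a * c q s ∉ Φ2)).card : ℝ) := by
    exact_mod_cast h1
  have h3 : ∑ q ∈ Φ1, ((Φ2.filter (fun a => a * c q s ∉ Φ2)).card : ℝ) ≤
      Φ1.card * (ε / 2 * Φ2.card) := by
    rw [← nsmul_eq_mul]
    exact Finset.sum_le_card_nsmul _ _ _ hB
  have h4 : (Φ2.card : ℝ) * (Φ1.filter (fun q => q * p s ∉ Φ1)).card ≤
      Φ2.card * (ε / 2 * Φ1.card) := by
    gcongr
  rw [DerFolner_card, hcard]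
  push_cast
  nlinarith [h2, h3, h4]

theorem DerFolner_derived (F : Type*) [Group F] (m : ℕ) :
    DerFolner_IsF (F ⧸ derivedSeries F m) := by
  induction m with
  | zero =>
    intro S ε hε
    have hsub : Subsingleton (F ⧸ derivedSeries F 0) := by
      rw [derivedSeries_zero]
      exact QuotientGroup.subsingleton_quotient_top
    refine ⟨{1}, Finset.singleton_nonempty _, fun s _ => ?_⟩
    have h1 : IsEmpty {g : F ⧸ derivedSeries F 0 //
        g ∈ ({1} : Finset (F ⧸ derivedSeries F 0)) ∧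
          g * s ∉ ({1} : Finset (F ⧸ derivedSeries F 0))} := by
      constructor
      rintro ⟨g, _, h⟩
      apply h
      rw [Finset.mem_singleton]
      exact Subsingleton.elim _ _
    rw [Nat.card_of_isEmpty]
    simp only [Nat.cast_zero]
    positivity
  | succ m ih =>
    have hle : derivedSeries F (m + 1) ≤ derivedSeries F m := derivedSeries_antitone F (Nat.le_succ m)
    let p : (F ⧸ derivedSeries F (m + 1)) →* (F ⧸ derivedSeries F m) :=
      QuotientGroup.map _ _ (MonoidHom.id F) hle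
    have hpmk : ∀ a : F, p (QuotientGroup.mk a) = QuotientGroup.mk a := fun a => rfl
    apply DerFolner_ext p _ _ ih
    · intro q
      obtain ⟨a, rfl⟩ := QuotientGroup.mk_surjective q
      exact ⟨QuotientGroup.mk a, rfl⟩
    · intro a b ha hb
      obtain ⟨a, rfl⟩ := QuotientGroup.mk_surjective a
      obtain ⟨b, rfl⟩ := QuotientGroup.mk_surjective b
      rw [hpmk, QuotientGroup.eq_one_iff] at ha hb
      rw [← QuotientGroup.mk_mul, ← QuotientGroup.mk_mul, QuotientGroup.eq]
      have h1 := Subgroup.commutator_mem_commutator (inv_mem hb) (inv_mem ha)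
      rw [commutatorElement_def] at h1
      have h2 : (a * b)⁻¹ * (b * a) = b⁻¹ * a⁻¹ * b⁻¹⁻¹ * a⁻¹⁻¹ := by group
      rw [h2]
      exact h1

theorem derived_folner (m : ℕ) :
    Folner (fun s => (QuotientGroup.mk (FreeGroup.of s) :
      FreeGroup (Fin 2) ⧸ derivedSeries (FreeGroup (Fin 2)) m)) := by
  classical
  intro ε hε
  obtain ⟨Φ, hne, hΦ⟩ := DerFolner_derived (FreeGroup (Fin 2)) m
    (Finset.univ.image (fun s : Fin 2 => (QuotientGroup.mk (FreeGroup.of s) :
      FreeGroup (Fin 2) ⧸ derivedSeries (FreeGroup (Fin 2)) m))) ε hε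
  exact ⟨Φ, hne, fun s => hΦ _ (Finset.mem_image_of_mem _ (Finset.mem_univ s))⟩

end SclIso
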