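import Pool.Agent.H.MP_1b0e60_al.Defs

/-!
Reduction from an arbitrary free group to `F_2`.
-/

open Equiv Filter Topology

namespace SclIso

/-- the action of `ℤ` on the free group on `ℤ` by translation of the generators -/
private noncomputable def Embed_psi : Multiplicative ℤ →* MulAut (FreeGroup ℤ) :=
  MonoidHom.mk' (fun i => FreeGroup.freeGroupCongr (Equiv.addRight (Multiplicative.toAdd i))) (by
    intro a b
    apply MulEquiv.ext
    intro x
    rw [MulAut.mul_apply]
    simp only [FreeGroup.freeGroupCongr_apply]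
    rw [FreeGroup.map.comp]
    congr 1
    apply congrArg
    funext j
    simp only [Function.comp_apply, Equiv.coe_addRight, toAdd_mul]
    ring)

private lemma Embed_psi_of (i : Multiplicative ℤ) (j : ℤ) :
    Embed_psi i (FreeGroup.of j) = FreeGroup.of (j + Multiplicative.toAdd i) := by
  simp [Embed_psi]

/-- the free group of countable rank embeds into `F_2` -/
theorem exists_embedding :
    ∃ θ : FreeGroup ℤ →* FreeGroup (Fin 2), Function.Injective θ := by
  let θ : FreeGroup ℤ →* FreeGroup (Fin 2) :=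
    FreeGroup.lift (fun i : ℤ => (FreeGroup.of 0) ^ i * FreeGroup.of 1 * ((FreeGroup.of 0) ^ i)⁻¹)
  let Ψ : FreeGroup (Fin 2) →* FreeGroup ℤ ⋊[Embed_psi] Multiplicative ℤ :=
    FreeGroup.lift (fun s : Fin 2 => if s = 0 then
      SemidirectProduct.inr (Multiplicative.ofAdd (1 : ℤ)) else
      SemidirectProduct.inl (FreeGroup.of (0 : ℤ)))
  have hcomp : Ψ.comp θ = SemidirectProduct.inl := by
    apply FreeGroup.ext_hom
    intro i
    have h0 : Ψ (FreeGroup.of 0) = SemidirectProduct.inr (Multiplicative.ofAdd (1 : ℤ)) := by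
      simp [Ψ]
    have h1 : Ψ (FreeGroup.of 1) = SemidirectProduct.inl (FreeGroup.of (0 : ℤ)) := by
      simp [Ψ]
    have h2 : θ (FreeGroup.of i) =
        (FreeGroup.of 0) ^ i * FreeGroup.of 1 * ((FreeGroup.of 0) ^ i)⁻¹ := by
      simp [θ]
    rw [MonoidHom.comp_apply, h2, map_mul, map_mul, map_inv, map_zpow, h0, h1, ← map_zpow,
      ← map_inv, ← SemidirectProduct.inl_aut, Embed_psi_of]
    simp
  refine ⟨θ, ?_⟩
  have hinj : Function.Injective (Ψ.comp θ) := by
    rw [hcomp]
    exact SemidirectProduct.inl_injective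
  intro x y hxy
  apply hinj
  rw [MonoidHom.comp_apply, MonoidHom.comp_apply, hxy]

private lemma Embed_map_fix {α : Type*} (h : α → α) (w : List (α × Bool))
    (hw : ∀ x ∈ w, h x.1 = x.1) :
    FreeGroup.map h (FreeGroup.mk w) = FreeGroup.mk w := by
  rw [FreeGroup.map.mk]
  congr 1
  conv_rhs => rw [← List.map_id w]
  apply List.map_congr_left
  intro x hx
  rw [hw x hx]
  rfl

/-- an injective homomorphism from `F_2` to a free group stays injective after a suitable
homomorphism back to `F_2` -/
theorem exists_back {α : Type*} (φ : FreeGroup (Fin 2) →* FreeGroup α)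
    (hφ : Function.Injective φ) :
    ∃ ρ : FreeGroup α →* FreeGroup (Fin 2), Function.Injective (ρ.comp φ) := by
  classical
  obtain ⟨θ, hθ⟩ := exists_embedding
  -- nonempty alphabet
  have hne : Nonempty α := by
    by_contra hemp
    rw [not_nonempty_iff] at hemp
    have h1 : φ (FreeGroup.of 0) = φ 1 := Subsingleton.elim _ _
    have h2 := hφ h1
    exact FreeGroup.of_ne_one 0 h2
  let A : Set α := {a | ∃ s : Fin 2, ∃ x ∈ (φ (FreeGroup.of s)).toWord, x.1 = a}
  have hA : A.Finite := by
    have : A = ⋃ s : Fin 2, Prod.fst '' {x | x ∈ (φ (FreeGroup.of s)).toWord} := by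
      ext a
      simp only [A, Set.mem_setOf_eq, Set.mem_iUnion, Set.mem_image]
    rw [this]
    apply Set.finite_iUnion
    intro s
    exact (List.finite_toSet _).image _
  obtain ⟨f, hf⟩ := Set.countable_iff_exists_injOn.1 hA.countable
  let f' : α → ℤ := fun x => (f x : ℤ)
  have hf' : Set.InjOn f' A := by
    intro x hx y hy hxy
    exact hf hx hy (by simpa [f'] using hxy)
  let κ : FreeGroup α →* FreeGroup ℤ := FreeGroup.map f'
  let lam : FreeGroup ℤ →* FreeGroup α := FreeGroup.map (Function.invFunOn f' A)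
  have hfix : ∀ a ∈ A, Function.invFunOn f' A (f' a) = a := fun a ha =>
    hf'.leftInvOn_invFunOn ha
  have hcomp : (lam.comp κ).comp φ = φ := by
    apply FreeGroup.ext_hom
    intro s
    rw [MonoidHom.comp_apply, MonoidHom.comp_apply]
    show FreeGroup.map _ (FreeGroup.map _ (φ (FreeGroup.of s))) = _
    rw [FreeGroup.map.comp]
    conv_rhs => rw [← FreeGroup.mk_toWord (x := φ (FreeGroup.of s))]
    conv_lhs => rw [← FreeGroup.mk_toWord (x := φ (FreeGroup.of s))]
    apply Embed_map_fix
    intro x hx
    exact hfix x.1 ⟨s, x, hx, rfl⟩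
  have hκφ : Function.Injective (κ.comp φ) := by
    intro x y hxy
    apply hφ
    rw [← hcomp]
    simp only [MonoidHom.comp_apply] at hxy ⊢
    rw [hxy]
  refine ⟨θ.comp κ, ?_⟩
  intro x y hxy
  apply hκφ
  apply hθ
  exact hxy

end SclIso
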