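import Pool.Agent.H.MP_1b0e60_al.Norm

/-!
The pseudo-norm `scl_G` on `B_1(G)`, isometric homomorphisms.
-/

open Equiv Filter Topology

namespace SclIso

private theorem pseudo_eq {V : Type*} [AddCommGroup V] [Module ℝ V] (B : Submodule ℝ V)
    (N : V → ℝ) (h1 : ∀ x ∈ B, ∀ y ∈ B, N (x + y) ≤ N x + N y)
    (h2 : ∀ (c : ℝ), ∀ x ∈ B, N (c • x) = |c| * N x) :
    ∃ p : Seminorm ℝ B, ∀ x : B, p x = N x := by
  refine ⟨Seminorm.of (fun x : B => N x) (fun x y => h1 x x.2 y y.2) ?_, fun _ => rfl⟩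
  intro c x
  rw [Real.norm_eq_abs]
  exact h2 c x x.2

/-- the pseudo-norm `scl` exists on the space of boundaries of every group, and it is unique -/
theorem existsUnique_scl (G : Type*) [Group G] : ∃ N : (G →₀ ℝ) → ℝ, IsSclOn N ∧
    ∀ N' : (G →₀ ℝ) → ℝ, IsSclOn N' → ∀ Γ ∈ B1 G, N' Γ = N Γ := by
  classical
  have hle := hSub_le_B1 G
  obtain ⟨p, hp⟩ := exists_sclNorm G
  have hN : ∃ N : (G →₀ ℝ) → ℝ, ∀ x : B1 G, N x = p x :=
    ⟨fun x => if hx : x ∈ B1 G then p ⟨x, hx⟩ else 0, fun x => dif_pos x.2⟩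
  obtain ⟨N, hNp⟩ := hN
  have hNs : IsSclOn N := by
    refine ⟨?_, ?_, ?_, ?_⟩
    · intro x hx y hy
      have h1 := hNp ⟨x, hx⟩
      have h2 := hNp ⟨y, hy⟩
      have h3 := hNp (⟨x, hx⟩ + ⟨y, hy⟩)
      change N (x + y) = _ at h3
      rw [h1, h2, h3]
      exact map_add_le_add p _ _
    · intro c x hx
      have h1 := hNp ⟨x, hx⟩
      have h3 := hNp (c • ⟨x, hx⟩)
      change N (c • x) = _ at h3
      rw [h1, h3, map_smul_eq_mul, Real.norm_eq_abs]
    · intro x hx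
      exact (hNp ⟨x, hle hx⟩).trans (hp.zero _ hx)
    · intro m g hg
      have h1 := hNp ⟨fsum g, fsum_mem_B1 g hg⟩
      change N (fsum g) = _ at h1
      rw [h1, hp.sum m g hg _ rfl]
      exact scl_tendsto g hg
  refine ⟨N, hNs, ?_⟩
  intro N' hN' Γ hΓ
  obtain ⟨q', hq'⟩ := pseudo_eq (B1 G) N' hN'.add_le hN'.smul
  obtain ⟨q, hq⟩ := pseudo_eq (B1 G) N hNs.add_le hNs.smul
  have h1 : q' = q := by
    apply norm_unique
    · intro x hx
      rw [hq', hN'.vanish _ hx]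
    · intro x hx
      rw [hq, hNs.vanish _ hx]
    · intro m g hg x hx
      rw [hq, hq', hx]
      exact tendsto_nhds_unique (hN'.formal m g hg) (hNs.formal m g hg)
  rw [← hq' ⟨Γ, hΓ⟩, ← hq ⟨Γ, hΓ⟩, h1]

/-- the pseudo-norm `scl_G` on `B_1(G)` -/
noncomputable def sclOn (G : Type*) [Group G] : (G →₀ ℝ) → ℝ := (existsUnique_scl G).choose

theorem isSclOn_sclOn (G : Type*) [Group G] : IsSclOn (sclOn G) :=
  (existsUnique_scl G).choose_spec.1

theorem eq_sclOn {G : Type*} [Group G] {N : (G →₀ ℝ) → ℝ} (hN : IsSclOn N) (Γ : G →₀ ℝ)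
    (hΓ : Γ ∈ B1 G) : N Γ = sclOn G Γ :=
  (existsUnique_scl G).choose_spec.2 N hN Γ hΓ

/-- a homomorphism `φ : G → K` is isometric if `scl_K (φ_* Γ) = scl_G Γ` for all `Γ` in
`B_1(G)` (equivalently, for all `Γ` in `B_1^H(G)`) -/
def IsIsometric {G K : Type*} [Group G] [Group K] (φ : G →* K) : Prop :=
  ∀ Γ ∈ B1 G, sclOn K (Γ.mapDomain φ) = sclOn G Γ

/-- a homomorphism which preserves `scl` of formal sums is isometric -/
theorem isIsometric_of_scl {G K : Type*} [Group G] [Group K] (φ : G →* K)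
    (hφ : ∀ {m : ℕ} (g : Fin m → G), (List.ofFn g).prod ∈ commutator G →
      (List.ofFn fun i => φ (g i)).prod ∈ commutator K ∧ scl (fun i => φ (g i)) = scl g) :
    IsIsometric φ := by
  have hK := isSclOn_sclOn K
  have h1 : IsSclOn (fun Γ : G →₀ ℝ => sclOn K (Γ.mapDomain φ)) := by
    refine ⟨?_, ?_, ?_, ?_⟩
    · intro x hx y hy
      rw [Finsupp.mapDomain_add]
      exact hK.add_le _ (mapDomain_mem_B1 φ x hx) _ (mapDomain_mem_B1 φ y hy)
    · intro c x hx
      rw [Finsupp.mapDomain_smul]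
      exact hK.smul c _ (mapDomain_mem_B1 φ x hx)
    · intro x hx
      exact hK.vanish _ (mapDomain_mem_HSub φ x hx)
    · intro m g hg
      obtain ⟨hg', h2⟩ := hφ g hg
      have h3 : (fsum g).mapDomain φ = fsum fun i => φ (g i) := by
        unfold fsum
        rw [Finsupp.mapDomain_finsetSum]
        simp only [Finsupp.mapDomain_single]
      rw [h3]
      have h4 := tendsto_nhds_unique (hK.formal m _ hg') (scl_tendsto _ hg')
      rw [h4, h2]
      exact scl_tendsto g hg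
  intro Γ hΓ
  exact eq_sclOn h1 Γ hΓ

end SclIso
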