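import Pool.Agent.H.MP_1b0e60_al.Main
import Pool.Agent.H.MP_1b0e60_al.Embed
import Pool.Agent.H.MP_1b0e60_al.FinalDefs

/-!
Injective homomorphisms from `F_2` to free groups are isometric.
-/

open Equiv Filter Topology

namespace SclIso

/-- injective homomorphisms from `F_2` to free groups preserve `scl` of formal sums -/
theorem scl_of_injective {F : Type*} [Group F] [IsFreeGroup F] (φ : FreeGroup (Fin 2) →* F)
    (hφ : Function.Injective φ) {m : ℕ} (g : Fin m → FreeGroup (Fin 2))
    (hg : (List.ofFn g).prod ∈ commutator (FreeGroup (Fin 2))) :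
    (List.ofFn fun i => φ (g i)).prod ∈ commutator F ∧ scl (fun i => φ (g i)) = scl g := by
  have hg' : (List.ofFn fun i => φ (g i)).prod ∈ commutator F := by
    rw [Main_prod_map]
    exact Main_map_mem φ hg
  refine ⟨hg', le_antisymm (scl_map_le φ g hg) ?_⟩
  let e : F ≃* FreeGroup (IsFreeGroup.Generators F) := IsFreeGroup.toFreeGroup F
  obtain ⟨ρ, hρ⟩ := exists_back (e.toMonoidHom.comp φ) (e.injective.comp hφ)
  have h1 := Main_eq (ρ.comp (e.toMonoidHom.comp φ)) hρ m g hg
  rw [← h1]
  exact scl_map_le (ρ.comp e.toMonoidHom) (fun i => φ (g i)) hg'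

theorem isIsometric_of_injective {F : Type*} [Group F] [IsFreeGroup F]
    (φ : FreeGroup (Fin 2) →* F) (hφ : Function.Injective φ) : IsIsometric φ :=
  isIsometric_of_scl φ (fun g hg => scl_of_injective φ hφ g hg)

end SclIso
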