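import Pool.Agent.H.MP_1b0e60_al.Defs

/-!
Flows of paths in action graphs.
-/

open Equiv Filter Topology

namespace SclIso

@[simp] theorem walk_nil {Ω : Type*} (t : Fin 2 → Perm Ω) (x : Ω) : walk t [] x = x := rfl

@[simp] theorem walk_cons {Ω : Type*} (t : Fin 2 → Perm Ω) (l : Fin 2 × Bool)
    (w : List (Fin 2 × Bool)) (x : Ω) : walk t (l :: w) x = walk t w (step t l x) := rfl

theorem walk_append {Ω : Type*} (t : Fin 2 → Perm Ω) (w w' : List (Fin 2 × Bool)) (x : Ω) :
    walk t (w ++ w') x = walk t w' (walk t w x) := by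
  unfold walk
  rw [List.foldl_append]

theorem step_true {Ω : Type*} (t : Fin 2 → Perm Ω) (s : Fin 2) : step t (s, true) = t s := rfl

theorem step_false {Ω : Type*} (t : Fin 2 → Perm Ω) (s : Fin 2) :
    step t (s, false) = (t s)⁻¹ := rfl

theorem step_not {Ω : Type*} (t : Fin 2 → Perm Ω) (s : Fin 2) (b : Bool) (x : Ω) :
    step t (s, !b) (step t (s, b) x) = x := by
  cases b <;> simp [step]

theorem flow_append {Ω : Type*} (t : Fin 2 → Perm Ω) (w w' : List (Fin 2 × Bool)) (x : Ω) :
    flow t (w ++ w') x = flow t w x + flow t w' (walk t w x) := by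
  induction w generalizing x with
  | nil => simp [flow]
  | cons l w ih => simp only [List.cons_append, flow, walk_cons, ih, add_assoc]

/-- A function of words which is invariant under elementary reductions. -/
theorem Flow_congr_of_step {γ : Type*} (f : List (Fin 2 × Bool) → γ)
    (h : ∀ w1 w2 a b, f (w1 ++ (a, b) :: (a, !b) :: w2) = f (w1 ++ w2))
    {w w' : List (Fin 2 × Bool)} (hw : FreeGroup.mk w = FreeGroup.mk w') : f w = f w' := by
  have h1 : ∀ {u v : List (Fin 2 × Bool)}, FreeGroup.Red u v → f u = f v := by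
    intro u v huv
    induction huv with
    | refl => rfl
    | tail _ hs ih =>
      rw [ih]
      cases hs with
      | not => exact h _ _ _ _
  obtain ⟨c, hc1, hc2⟩ := FreeGroup.Red.exact.1 hw
  rw [h1 hc1, h1 hc2]

theorem walk_congr {Ω : Type*} (t : Fin 2 → Perm Ω) {w w' : List (Fin 2 × Bool)}
    (h : FreeGroup.mk w = FreeGroup.mk w') (x : Ω) : walk t w x = walk t w' x := by
  refine Flow_congr_of_step (fun w => walk t w x) (fun w1 w2 a b => ?_) h
  simp only [walk_append, walk_cons, step_not]

theorem flow_congr {Ω : Type*} (t : Fin 2 → Perm Ω) {w w' : List (Fin 2 × Bool)}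
    (h : FreeGroup.mk w = FreeGroup.mk w') (x : Ω) : flow t w x = flow t w' x := by
  refine Flow_congr_of_step (fun w => flow t w x) (fun w1 w2 a b => ?_) h
  simp only [flow_append, flow, step_not, add_right_inj]
  cases b <;> simp [step]

/-- The inverse path. -/
theorem walk_invRev {Ω : Type*} (t : Fin 2 → Perm Ω) (w : List (Fin 2 × Bool)) (x : Ω) :
    walk t (FreeGroup.invRev w) (walk t w x) = x := by
  rw [← walk_append]
  refine walk_congr t (w' := []) ?_ x
  rw [← FreeGroup.mul_mk, ← FreeGroup.inv_mk, mul_inv_cancel, FreeGroup.one_eq_mk]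

theorem walk_invRev' {Ω : Type*} (t : Fin 2 → Perm Ω) (w : List (Fin 2 × Bool)) (x : Ω) :
    walk t w (walk t (FreeGroup.invRev w) x) = x := by
  have := walk_invRev t (FreeGroup.invRev w) x
  rwa [FreeGroup.invRev_invRev] at this

/-- The class of an element of `K` in the abelianization of `K`. -/
noncomputable def Flow_cls (K : Subgroup (FreeGroup (Fin 2))) (g : FreeGroup (Fin 2)) :
    Additive (Abelianization K) := by
  classical
  exact if h : g ∈ K then Additive.ofMul (Abelianization.of ⟨g, h⟩) else 0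

theorem Flow_cls_mul {K : Subgroup (FreeGroup (Fin 2))} {g h : FreeGroup (Fin 2)} (hg : g ∈ K)
    (hh : h ∈ K) : Flow_cls K (g * h) = Flow_cls K g + Flow_cls K h := by
  unfold Flow_cls
  rw [dif_pos (K.mul_mem hg hh), dif_pos hg, dif_pos hh, ← ofMul_mul, ← map_mul]
  rfl

theorem Flow_cls_one {K : Subgroup (FreeGroup (Fin 2))} : Flow_cls K 1 = 0 := by
  unfold Flow_cls
  rw [dif_pos K.one_mem]
  have : (⟨1, K.one_mem⟩ : K) = 1 := rfl
  rw [this, map_one]
  rfl

theorem Flow_cls_inv {K : Subgroup (FreeGroup (Fin 2))} {g : FreeGroup (Fin 2)} (hg : g ∈ K) :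
    Flow_cls K g⁻¹ = - Flow_cls K g := by
  have h := Flow_cls_mul hg (K.inv_mem hg)
  rw [mul_inv_cancel, Flow_cls_one] at h
  exact (neg_eq_of_add_eq_zero_right h.symm).symm

theorem Flow_mem_of_cls {K : Subgroup (FreeGroup (Fin 2))} {g : FreeGroup (Fin 2)} (hg : g ∈ K)
    (h : Flow_cls K g = 0) : g ∈ (⁅K, K⁆ : Subgroup (FreeGroup (Fin 2))) := by
  unfold Flow_cls at h
  rw [dif_pos hg] at h
  have h2 : Abelianization.of (⟨g, hg⟩ : K) = 1 := h
  rw [← MonoidHom.mem_ker, Abelianization.ker_of] at h2
  have h3 : g ∈ (commutator K).map K.subtype := ⟨⟨g, hg⟩, h2, rfl⟩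
  rwa [commutator_def, Subgroup.map_commutator, ← MonoidHom.range_eq_map, K.range_subtype] at h3

/-- Hurewicz: a closed path with zero flow is in the commutator subgroup of the stabilizer -/
theorem hurewicz {Ω : Type*} (t : Fin 2 → Perm Ω) (x : Ω) (K : Subgroup (FreeGroup (Fin 2)))
    (hK : ∀ w, FreeGroup.mk w ∈ K ↔ walk t w x = x) (w : List (Fin 2 × Bool))
    (hw : flow t w x = 0) (hw' : walk t w x = x) :
    FreeGroup.mk w ∈ (⁅K, K⁆ : Subgroup (FreeGroup (Fin 2))) := by
  classical
  -- reference paths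
  have hc : ∃ c : Ω → List (Fin 2 × Bool), c x = [] ∧ ∀ v, walk t (c (walk t v x)) x =
      walk t v x := by
    refine ⟨fun y => if y = x then [] else if h : ∃ v, walk t v x = y then h.choose else [],
      by simp, fun v => ?_⟩
    by_cases h : walk t v x = x
    · simp [h]
    · have h2 : ∃ v', walk t v' x = walk t v x := ⟨v, rfl⟩
      simp only [if_neg h]
      rw [dif_pos h2]
      exact h2.choose_spec
  obtain ⟨c, hcx, hc⟩ := hc
  -- the closed path through `v`
  set P : List (Fin 2 × Bool) → List (Fin 2 × Bool) → FreeGroup (Fin 2) := fun v u =>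
    FreeGroup.mk (c (walk t v x)) * FreeGroup.mk u *
      (FreeGroup.mk (c (walk t u (walk t v x))))⁻¹ with hP
  have hPK : ∀ v u, P v u ∈ K := by
    intro v u
    simp only [hP]
    rw [FreeGroup.inv_mk, FreeGroup.mul_mk, FreeGroup.mul_mk, hK, walk_append, walk_append, hc]
    have h := walk_invRev t (c (walk t (v ++ u) x)) x
    rwa [hc, walk_append] at h
  set κ : Ω × Fin 2 → Additive (Abelianization K) := fun e =>
    Flow_cls K (FreeGroup.mk (c e.1) * FreeGroup.mk [(e.2, true)] *
      (FreeGroup.mk (c (t e.2 e.1)))⁻¹) with hκ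
  set F := Finsupp.linearCombination ℤ κ with hF
  have key : ∀ u v, F (flow t u (walk t v x)) = Flow_cls K (P v u) := by
    intro u
    induction u with
    | nil =>
      intro v
      have : P v [] = 1 := by
        simp only [hP]
        rw [← FreeGroup.one_eq_mk, mul_one, walk_nil, mul_inv_cancel]
      rw [this, Flow_cls_one]
      exact map_zero _
    | cons l u ih =>
      intro v
      have h1 : P v (l :: u) = P v [l] * P (v ++ [l]) u := by
        simp only [hP, walk_append, walk_cons, walk_nil]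
        rw [show l :: u = [l] ++ u from rfl, ← FreeGroup.mul_mk]
        group
      rw [h1, Flow_cls_mul (hPK _ _) (hPK _ _), ← ih (v ++ [l])]
      simp only [flow, map_add, walk_append, walk_cons, walk_nil, add_left_inj]
      obtain ⟨s, b⟩ := l
      cases b
      · -- inverse letter
        simp only [Bool.false_eq_true, if_false, map_neg]
        rw [hF, Finsupp.linearCombination_single, one_smul, ← Flow_cls_inv]
        · have h5 : (t s) ((t s)⁻¹ (walk t v x)) = walk t v x := Equiv.apply_symm_apply _ _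
          rw [h5]
          congr 1
          simp only [hP, walk_cons, walk_nil, step_false]
          rw [mul_inv_rev, mul_inv_rev, inv_inv, FreeGroup.inv_mk (L := [(s, true)])]
          simp only [FreeGroup.invRev, List.map_cons, List.map_nil, Bool.not_true,
            List.reverse_singleton, mul_assoc]
        · simp only
          have := hPK (v ++ [(s, false)]) [(s, true)]
          simp only [hP, walk_append, walk_cons, walk_nil] at this
          exact this
      · simp only [if_true]
        rw [hF, Finsupp.linearCombination_single, one_smul]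
        rfl
  have h1 := key w []
  rw [walk_nil, hw, map_zero] at h1
  have h2 : P [] w = FreeGroup.mk w := by
    simp only [hP, walk_nil, hw', hcx]
    rw [← FreeGroup.one_eq_mk]
    simp
  rw [h2] at h1
  exact Flow_mem_of_cls ((hK w).2 hw') h1.symm

/-- An element of the commutator subgroup of the stabilizer has zero flow. -/
theorem flow_eq_zero_of_mem {Ω : Type*} (t : Fin 2 → Perm Ω) (x : Ω)
    (K : Subgroup (FreeGroup (Fin 2))) (hK : ∀ w, FreeGroup.mk w ∈ K ↔ walk t w x = x)
    (w : List (Fin 2 × Bool)) (hw : FreeGroup.mk w ∈ (⁅K, K⁆ : Subgroup (FreeGroup (Fin 2)))) :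
    flow t w x = 0 := by
  have hKw : ∀ g ∈ K, walk t g.toWord x = x := by
    intro g hg
    rw [← hK, FreeGroup.mk_toWord]
    exact hg
  let f : K →* Multiplicative (Ω × Fin 2 →₀ ℤ) :=
    { toFun := fun g => Multiplicative.ofAdd (flow t g.1.toWord x)
      map_one' := by
        simp [flow]
      map_mul' := by
        intro g h
        rw [← ofAdd_add]
        congr 1
        have h1 := flow_congr t (w := (g * h : K).1.toWord) (w' := g.1.toWord ++ h.1.toWord)
          (by rw [← FreeGroup.mul_mk, FreeGroup.mk_toWord, FreeGroup.mk_toWord,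
            FreeGroup.mk_toWord]; rfl) x
        rw [h1, flow_append, hKw g.1 g.2] }
  have h1 : (commutator K) ≤ f.ker := Abelianization.commutator_subset_ker f
  have h2 : FreeGroup.mk w ∈ (commutator K).map K.subtype := by
    rwa [commutator_def, Subgroup.map_commutator, ← MonoidHom.range_eq_map, K.range_subtype]
  obtain ⟨g, hg1, hg2⟩ := h2
  have h3 := h1 hg1
  rw [MonoidHom.mem_ker] at h3
  have h4 : flow t g.1.toWord x = 0 := h3
  rw [← h4]
  refine flow_congr t ?_ x
  rw [FreeGroup.mk_toWord]
  exact hg2.symm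

theorem walk_cosetAct (H : Subgroup (FreeGroup (Fin 2))) (w : List (Fin 2 × Bool))
    (f : FreeGroup (Fin 2)) :
    walk (cosetAct H) w (QuotientGroup.mk f) = QuotientGroup.mk ((FreeGroup.mk w)⁻¹ * f) := by
  induction w generalizing f with
  | nil =>
    rw [walk_nil, ← FreeGroup.one_eq_mk]
    simp
  | cons l w ih =>
    have h1 : step (cosetAct H) l (QuotientGroup.mk f : FreeGroup (Fin 2) ⧸ H) =
        QuotientGroup.mk ((FreeGroup.mk [l])⁻¹ * f) := by
      obtain ⟨s, b⟩ := l
      cases b
      · rw [step_false, Perm.inv_eq_iff_eq]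
        change _ = (FreeGroup.of s)⁻¹ • (QuotientGroup.mk _ : FreeGroup (Fin 2) ⧸ H)
        rw [MulAction.Quotient.smul_mk, smul_eq_mul, ← mul_assoc, FreeGroup.inv_mk]
        have : (FreeGroup.of s)⁻¹ * FreeGroup.mk (FreeGroup.invRev [(s, false)]) = 1 := by
          rw [inv_mul_eq_one]
          rfl
        rw [this, one_mul]
      · rw [step_true]
        change (FreeGroup.of s)⁻¹ • (QuotientGroup.mk _ : FreeGroup (Fin 2) ⧸ H) = _
        rw [MulAction.Quotient.smul_mk, smul_eq_mul]
        rfl
    rw [walk_cons, h1, ih]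
    congr 1
    rw [show l :: w = [l] ++ w from rfl, ← FreeGroup.mul_mk]
    group

theorem walk_cosetAct_one (H : Subgroup (FreeGroup (Fin 2))) (w : List (Fin 2 × Bool)) :
    FreeGroup.mk w ∈ H ↔ walk (cosetAct H) w (QuotientGroup.mk 1) = QuotientGroup.mk 1 := by
  rw [walk_cosetAct, mul_one, QuotientGroup.eq, inv_inv, mul_one]

theorem step_equivariant {Ω Ω' : Type*} {t : Fin 2 → Perm Ω} {t' : Fin 2 → Perm Ω'} {q : Ω → Ω'}
    (hq : ∀ s x, q (t s x) = t' s (q x)) (l : Fin 2 × Bool) (x : Ω) :
    q (step t l x) = step t' l (q x) := by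
  obtain ⟨s, b⟩ := l
  cases b
  · have h5 : (t s) ((t s)⁻¹ x) = x := Equiv.apply_symm_apply _ _
    rw [step_false, step_false, eq_comm, Perm.inv_eq_iff_eq, ← hq, h5]
  · exact hq s x

theorem walk_equivariant {Ω Ω' : Type*} {t : Fin 2 → Perm Ω} {t' : Fin 2 → Perm Ω'} {q : Ω → Ω'}
    (hq : ∀ s x, q (t s x) = t' s (q x)) (w : List (Fin 2 × Bool)) (x : Ω) :
    q (walk t w x) = walk t' w (q x) := by
  induction w generalizing x with
  | nil => rfl
  | cons l w ih => rw [walk_cons, ih, step_equivariant hq]; rfl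

theorem flow_equivariant {Ω Ω' : Type*} {t : Fin 2 → Perm Ω} {t' : Fin 2 → Perm Ω'} {q : Ω → Ω'}
    (hq : ∀ s x, q (t s x) = t' s (q x)) (w : List (Fin 2 × Bool)) (x : Ω) :
    flow t' w (q x) = (flow t w x).mapDomain (Prod.map q id) := by
  induction w generalizing x with
  | nil => simp [flow]
  | cons l w ih =>
    simp only [flow]
    rw [Finsupp.mapDomain_add, ← ih, step_equivariant hq, add_left_inj]
    obtain ⟨s, b⟩ := l
    cases b
    · simp only [Bool.false_eq_true, if_false]
      have h1 : (t' s)⁻¹ (q x) = q ((t s)⁻¹ x) := (step_equivariant hq (s, false) x).symm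
      rw [h1, ← Finsupp.single_neg, ← Finsupp.single_neg, Finsupp.mapDomain_single]
      rfl
    · simp only [if_true]
      rw [Finsupp.mapDomain_single]
      rfl

theorem walk_map {Ω Ω' : Type*} (t : Fin 2 → Perm Ω) (t' : Fin 2 → Perm Ω') (q : Ω → Ω')
    (hq : ∀ s x, q (t s x) = t' s (q x)) (w : List (Fin 2 × Bool)) (x : Ω) :
    walk t' w (q x) = q (walk t w x) := (walk_equivariant hq w x).symm

theorem flow_map {Ω Ω' : Type*} (t : Fin 2 → Perm Ω) (t' : Fin 2 → Perm Ω') (q : Ω → Ω')
    (hq : ∀ s x, q (t s x) = t' s (q x)) (w : List (Fin 2 × Bool)) (x : Ω) :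
    flow t' w (q x) = (flow t w x).mapDomain (Prod.map q id) := flow_equivariant hq w x

theorem flow_eq_zero_of_mem_commutator {Ω : Type*} (t : Fin 2 → Perm Ω) (x : Ω)
    (K : Subgroup (FreeGroup (Fin 2))) (hK : ∀ w, FreeGroup.mk w ∈ K ↔ walk t w x = x)
    (w : List (Fin 2 × Bool)) (hw : FreeGroup.mk w ∈ (⁅K, K⁆ : Subgroup (FreeGroup (Fin 2)))) :
    flow t w x = 0 := flow_eq_zero_of_mem t x K hK w hw

theorem mem_iff_walk_cosetAct (H : Subgroup (FreeGroup (Fin 2))) (w : List (Fin 2 × Bool)) :
    FreeGroup.mk w ∈ H ↔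
      walk (cosetAct H) w (QuotientGroup.mk 1) = QuotientGroup.mk 1 := walk_cosetAct_one H w

end SclIso
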