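import Pool.Agent.H.MP_1b0e60_al.Cover

/-!
From the Folner pieces of the cover to the graph itself.
-/

open Equiv Filter Topology

namespace SclIso

/-! ### general lemmas -/

theorem FolnerStep_ncyc_le {X Y : Type*} [Finite Y] (f : Perm X) (g : Perm Y) (φ : X → Y)
    (hφ : Function.Injective φ) (h : ∀ x, φ (f x) = g (φ x)) : ncyc f ≤ ncyc g := by
  have hinv : ∀ x, φ (f⁻¹ x) = g⁻¹ (φ x) := by
    intro x
    rw [Perm.eq_inv_iff_eq, ← h]
    simp
  have hz : ∀ (k : ℤ) (x : X), φ ((f ^ k) x) = (g ^ k) (φ x) := by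
    intro k
    induction k using Int.induction_on with
    | zero => intro x; simp
    | succ n ih => intro x; rw [zpow_add_one, zpow_add_one, Perm.mul_apply, Perm.mul_apply, ih, h]
    | pred n ih => intro x; rw [zpow_sub_one, zpow_sub_one, Perm.mul_apply, Perm.mul_apply, ih, hinv]
  unfold ncyc
  refine Nat.card_le_card_of_injective
    (Quotient.map (sa := Perm.SameCycle.setoid f) (sb := Perm.SameCycle.setoid g) φ ?_) ?_
  · rintro x y ⟨k, hk⟩
    exact ⟨k, by rw [← hz, hk]⟩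
  · intro x y
    induction x using Quotient.inductionOn with
    | _ x =>
    induction y using Quotient.inductionOn with
    | _ y =>
    intro hxy
    apply Quotient.sound
    obtain ⟨k, hk⟩ := Quotient.exact hxy
    exact ⟨k, hφ (by rw [hz, hk])⟩

theorem FolnerStep_lift {B M : Type*} [Finite B] (P : B → M) (k : ℕ)
    (hk : ∀ m, Nat.card {x // P x = m} = k) (τ : Perm M) :
    ∃ i : Perm B, ∀ x, P (i x) = τ (P x) := by
  have he : ∀ m, Nonempty ({x // P x = m} ≃ Fin k) := fun m =>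
    ⟨Finite.equivFinOfCardEq (hk m)⟩
  let e : ∀ m, {x // P x = m} ≃ Fin k := fun m => (he m).some
  let E : B ≃ M × Fin k := (Equiv.sigmaFiberEquiv P).symm.trans
    ((Equiv.sigmaCongrRight e).trans (Equiv.sigmaEquivProd M (Fin k)))
  have hE : ∀ x, (E x).1 = P x := fun x => rfl
  refine ⟨E.trans ((Equiv.prodCongr τ (Equiv.refl _)).trans E.symm), fun x => ?_⟩
  rw [← hE]
  simp only [Equiv.trans_apply, Equiv.apply_symm_apply, Equiv.prodCongr_apply, Prod.map_fst]
  rw [hE]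

section
variable {G : Type*} [Group G]

theorem FolnerStep_count (Φ : Finset G) (c : G) :
    Nat.card {g : G // g ∈ Φ ∧ g * c⁻¹ ∉ Φ} = Nat.card {g : G // g ∈ Φ ∧ g * c ∉ Φ} := by
  classical
  have h : ∀ d : G, Nat.card {g : G // g ∈ Φ ∧ g * d ∉ Φ} = (Φ.filter (fun g => g * d ∉ Φ)).card := by
    intro d
    rw [← Nat.card_eq_finsetCard]
    apply Nat.card_congr
    exact Equiv.subtypeEquivRight (fun g => by simp)
  rw [h, h]
  have h1 : (Φ.filter (fun g => g * c⁻¹ ∈ Φ)).card = (Φ.filter (fun g => g * c ∈ Φ)).card := by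
    refine Finset.card_bij (fun g _ => g * c⁻¹) ?_ ?_ ?_
    · intro g hg
      simp only [Finset.mem_filter] at hg ⊢
      exact ⟨hg.2, by simpa using hg.1⟩
    · intro g _ g' _ h; simpa using h
    · intro g hg
      simp only [Finset.mem_filter] at hg
      exact ⟨g * c, by simp [hg.1, hg.2], by simp⟩
  have h2 := Finset.card_filter_add_card_filter_not (s := Φ) (fun g => g * c⁻¹ ∈ Φ)
  have h3 := Finset.card_filter_add_card_filter_not (s := Φ) (fun g => g * c ∈ Φ)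
  omega

/-- value in `G` of a letter -/
def FolnerStep_av (γ : Fin 2 → G) (l : Fin 2 × Bool) : G := if l.2 then γ l.1 else (γ l.1)⁻¹

theorem FolnerStep_av_linv (γ : Fin 2 → G) (l : Fin 2 × Bool) :
    FolnerStep_av γ (linv l) = (FolnerStep_av γ l)⁻¹ := by
  rcases l with ⟨s, b⟩
  cases b <;> simp [FolnerStep_av, linv]

theorem FolnerStep_count_av {γ : Fin 2 → G} {Φ : Finset G} {ε : ℝ}
    (hΦ : ∀ s, (Nat.card {g : G // g ∈ Φ ∧ g * γ s ∉ Φ} : ℝ) ≤ ε * Φ.card) (l : Fin 2 × Bool) :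
    (Nat.card {g : G // g ∈ Φ ∧ g * FolnerStep_av γ l ∉ Φ} : ℝ) ≤ ε * Φ.card := by
  rcases l with ⟨s, b⟩
  cases b
  · simp only [FolnerStep_av, Bool.false_eq_true, if_false]
    rw [FolnerStep_count]
    exact hΦ s
  · simpa [FolnerStep_av] using hΦ s

/-- fine label -/
def FolnerStep_fl {S : Type*} (γ : Fin 2 → G) (l : (S × Fin 2) × Bool) (g : G) :
    ((S × G) × Fin 2) × Bool :=
  (((l.1.1, if l.2 then g else g * (γ l.1.2)⁻¹), l.1.2), l.2)

variable {S : Type*}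

theorem FolnerStep_tl_fl (t : Fin 2 → Perm S) (γ : Fin 2 → G) (l : (S × Fin 2) × Bool) (g : G) :
    tl (liftAct t γ) (FolnerStep_fl γ l g) = (tl t l, g) := by
  rcases l with ⟨⟨v, s⟩, b⟩
  cases b <;> simp [FolnerStep_fl, tl, liftAct]

theorem FolnerStep_tl_linv_fl (t : Fin 2 → Perm S) (γ : Fin 2 → G) (l : (S × Fin 2) × Bool)
    (g : G) : tl (liftAct t γ) (linv (FolnerStep_fl γ l g)) =
      (tl t (linv l), g * FolnerStep_av γ (mapL Prod.snd l)) := by
  rcases l with ⟨⟨v, s⟩, b⟩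
  cases b <;> simp [FolnerStep_fl, tl, liftAct, linv, FolnerStep_av, mapL]

theorem FolnerStep_fl_linv (γ : Fin 2 → G) (l : (S × Fin 2) × Bool) (g : G) :
    FolnerStep_fl γ (linv l) (g * FolnerStep_av γ (mapL Prod.snd l)) =
      linv (FolnerStep_fl γ l g) := by
  rcases l with ⟨⟨v, s⟩, b⟩
  cases b <;> simp [FolnerStep_fl, linv, FolnerStep_av, mapL]

theorem FolnerStep_mapL_fl (γ : Fin 2 → G) (l l' : (S × Fin 2) × Bool) (g : G)
    (h : mapL Prod.snd l' = linv (mapL Prod.snd l)) :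
    mapL (fun e => (e.1.2, e.2))
      (FolnerStep_fl γ l' (g * FolnerStep_av γ (mapL Prod.snd l))) =
    linv (mapL (fun e => (e.1.2, e.2)) (FolnerStep_fl γ l g)) := by
  rcases l with ⟨⟨v, s⟩, b⟩
  rcases l' with ⟨⟨v', s'⟩, b'⟩
  simp only [mapL, linv, Prod.mk.injEq] at h
  obtain ⟨h1, h2⟩ := h
  subst h1
  subst h2
  cases b <;> simp [FolnerStep_fl, linv, FolnerStep_av, mapL]

end


/-! ### the pieces -/

section
variable {G : Type} [Group G] {M : Type}

/-- elements of the chain lying over the Folner set -/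
abbrev FolnerStep_A (a : M → G) (Φ : Finset G) : Type :=
  {x : M × G // x.2 ∈ Φ ∧ x.2 * a x.1 ∈ Φ}

/-- elements of the chain starting in the Folner set and leaving it -/
abbrev FolnerStep_A' (a : M → G) (Φ : Finset G) : Type :=
  {x : M × G // x.2 ∈ Φ ∧ x.2 * a x.1 ∉ Φ}

omit [Group G] in
theorem FolnerStep_finite_aux [Finite M] (Φ : Finset G) (p : M × G → Prop) :
    Finite {x : M × G // x.2 ∈ Φ ∧ p x} := by
  have : Finite (M × {g // g ∈ Φ}) := inferInstance
  refine Finite.of_injective (fun x : {x : M × G // x.2 ∈ Φ ∧ p x} =>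
    ((x.1.1, ⟨x.1.2, x.2.1⟩) : M × {g // g ∈ Φ})) ?_
  rintro ⟨⟨m, g⟩, h⟩ ⟨⟨m', g'⟩, h'⟩ hh
  simp only [Prod.mk.injEq, Subtype.mk.injEq] at hh ⊢
  exact hh

/-- the lift of an involution to the pieces -/
def FolnerStep_pi (a : M → G) (Φ : Finset G) (π : Perm M) (h1 : ∀ m, π (π m) = m)
    (h2 : ∀ m, a (π m) = (a m)⁻¹) : Perm (FolnerStep_A a Φ) :=
  Function.Involutive.toPerm (fun x => ⟨(π x.1.1, x.1.2 * a x.1.1),
    x.2.2, by rw [h2]; simpa using x.2.1⟩) (by
      rintro ⟨⟨m, g⟩, h⟩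
      simp [h1, h2])

theorem FolnerStep_pi_apply (a : M → G) (Φ : Finset G) (π : Perm M) (h1 : ∀ m, π (π m) = m)
    (h2 : ∀ m, a (π m) = (a m)⁻¹) (x : FolnerStep_A a Φ) :
    (FolnerStep_pi a Φ π h1 h2 x).1 = (π x.1.1, x.1.2 * a x.1.1) := rfl

/-- good elements: the next letter is in the piece as well -/
def FolnerStep_good (a : M → G) (Φ : Finset G) (τ : Perm M) (x : FolnerStep_A a Φ) : Prop :=
  x.1.2 * a x.1.1 * a (τ x.1.1) ∈ Φ

theorem FolnerStep_sigma {S : Type} (t : Fin 2 → Perm S) (γ : Fin 2 → G) [Finite M] (τ : Perm M)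
    (lab' : M → (S × Fin 2) × Bool) (hp : IsPath t τ lab') (πY : Perm M)
    (hπY : IsPairing lab' πY) (Φ : Finset G) (a : M → G)
    (ha : ∀ m, a m = FolnerStep_av γ (mapL Prod.snd (lab' m))) :
    ∃ σ₁ : Perm (FolnerStep_A a Φ),
      IsPath (liftAct t γ) σ₁ (fun x => FolnerStep_fl γ (lab' x.1.1) x.1.2) ∧
      (∀ x, FolnerStep_good a Φ τ x → (σ₁ x).1 = (τ x.1.1, x.1.2 * a x.1.1)) := by
  classical
  have hfin : Finite (FolnerStep_A a Φ) := FolnerStep_finite_aux Φ _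
  have h2 : ∀ m, a (πY m) = (a m)⁻¹ := by
    intro m
    rw [ha, ha, hπY.lab_inv, ← FolnerStep_av_linv]
    rfl
  let i := FolnerStep_pi a Φ πY hπY.invol h2
  let g' : FolnerStep_A a Φ → S × G := fun x => tl (liftAct t γ) (FolnerStep_fl γ (lab' x.1.1) x.1.2)
  let f' : FolnerStep_A a Φ → S × G := fun x =>
    tl (liftAct t γ) (linv (FolnerStep_fl γ (lab' x.1.1) x.1.2))
  have hi : ∀ x, g' (i x) = f' x := by
    intro x
    show tl (liftAct t γ) (FolnerStep_fl γ (lab' (πY x.1.1)) (x.1.2 * a x.1.1)) = _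
    rw [hπY.lab_inv, ha, FolnerStep_fl_linv]
  let s : FolnerStep_A a Φ → FolnerStep_A a Φ := fun x =>
    if h : FolnerStep_good a Φ τ x then ⟨(τ x.1.1, x.1.2 * a x.1.1), x.2.2, h⟩ else x
  have hs : ∀ x, FolnerStep_good a Φ τ x → (s x).1 = (τ x.1.1, x.1.2 * a x.1.1) := by
    intro x h
    simp only [s, h, dif_pos]
  obtain ⟨σ₁, h3, h4⟩ := exists_perm_extend f' g' i hi {x | FolnerStep_good a Φ τ x} s (by
      intro x hx y hy hxy
      have := congrArg Subtype.val hxy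
      rw [hs x hx, hs y hy, Prod.mk.injEq] at this
      have e1 : x.1.1 = y.1.1 := τ.injective this.1
      have e2 : x.1.2 = y.1.2 := by
        have := this.2
        rw [e1] at this
        simpa using this
      exact Subtype.ext (Prod.ext e1 e2)) (by
      intro x hx
      show tl (liftAct t γ) (FolnerStep_fl γ (lab' (s x).1.1) (s x).1.2) = tl (liftAct t γ) _
      rw [hs x hx, FolnerStep_tl_fl, FolnerStep_tl_linv_fl, hp, ha])
  refine ⟨σ₁, ?_, ?_⟩
  · intro x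
    exact h3 x
  · intro x hx
    rw [h4 x hx, hs x hx]

/-- deep elements -/
def FolnerStep_deep (γ : Fin 2 → G) (Φ : Finset G) (g : G) : Prop :=
  g ∈ Φ ∧ ∀ l, g * FolnerStep_av γ l ∈ Φ

theorem FolnerStep_card_deep {γ : Fin 2 → G} {Φ : Finset G} {ε : ℝ}
    (hΦ : ∀ s, (Nat.card {g : G // g ∈ Φ ∧ g * γ s ∉ Φ} : ℝ) ≤ ε * Φ.card) :
    (1 - 4 * ε) * Φ.card ≤ Nat.card {g // FolnerStep_deep γ Φ g} := by
  classical
  have h0 : ∀ (p : G → Prop) [DecidablePred p],
      Nat.card {g : G // g ∈ Φ ∧ p g} = (Φ.filter p).card := by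
    intro p _
    rw [← Nat.card_eq_finsetCard]
    apply Nat.card_congr
    exact Equiv.subtypeEquivRight (fun g => by simp)
  have h1 := Finset.card_filter_add_card_filter_not (s := Φ)
    (fun g => ∀ l, g * FolnerStep_av γ l ∈ Φ)
  have h2 : Nat.card {g // FolnerStep_deep γ Φ g} =
      (Φ.filter (fun g => ∀ l, g * FolnerStep_av γ l ∈ Φ)).card := h0 _
  have h3 : (Φ.filter (fun g => ¬ ∀ l, g * FolnerStep_av γ l ∈ Φ)) ⊆
      Finset.univ.biUnion (fun l : Fin 2 × Bool => Φ.filter (fun g => g * FolnerStep_av γ l ∉ Φ)) := by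
    intro g hg
    simp only [Finset.mem_filter, not_forall, Finset.mem_biUnion, Finset.mem_univ, true_and] at hg ⊢
    obtain ⟨h, l, hl⟩ := hg
    exact ⟨l, h, hl⟩
  have h4 : ((Φ.filter (fun g => ¬ ∀ l, g * FolnerStep_av γ l ∈ Φ)).card : ℝ) ≤
      4 * (ε * Φ.card) := by
    calc ((Φ.filter (fun g => ¬ ∀ l, g * FolnerStep_av γ l ∈ Φ)).card : ℝ)
        ≤ ((Finset.univ.biUnion (fun l : Fin 2 × Bool =>
          Φ.filter (fun g => g * FolnerStep_av γ l ∉ Φ))).card : ℝ) := by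
          exact_mod_cast Finset.card_le_card h3
      _ ≤ ∑ l : Fin 2 × Bool, ((Φ.filter (fun g => g * FolnerStep_av γ l ∉ Φ)).card : ℝ) := by
          exact_mod_cast Finset.card_biUnion_le
      _ ≤ ∑ l : Fin 2 × Bool, ε * Φ.card := by
          apply Finset.sum_le_sum
          intro l _
          rw [← h0]
          exact FolnerStep_count_av hΦ l
      _ = 4 * (ε * Φ.card) := by
          rw [Finset.sum_const, Finset.card_univ]
          simp
  have h5 : ((Φ.filter (fun g => ∀ l, g * FolnerStep_av γ l ∈ Φ)).card : ℝ) +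
      ((Φ.filter (fun g => ¬ ∀ l, g * FolnerStep_av γ l ∈ Φ)).card : ℝ) = Φ.card := by
    exact_mod_cast h1
  rw [h2]
  linarith


omit [Group G] in
theorem FolnerStep_card_filter (Φ : Finset G) (p : G → Prop) :
    Nat.card {g : G // g ∈ Φ ∧ p g} + Nat.card {g : G // g ∈ Φ ∧ ¬ p g} = Φ.card := by
  classical
  have h0 : ∀ (p : G → Prop) [DecidablePred p],
      Nat.card {g : G // g ∈ Φ ∧ p g} = (Φ.filter p).card := by
    intro p _
    rw [← Nat.card_eq_finsetCard]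
    apply Nat.card_congr
    exact Equiv.subtypeEquivRight (fun g => by simp)
  rw [h0, h0, Finset.card_filter_add_card_filter_not]

theorem FolnerStep_card_bad {γ : Fin 2 → G} {Φ : Finset G} {ε : ℝ} [Finite M]
    (hΦ : ∀ s, (Nat.card {g : G // g ∈ Φ ∧ g * γ s ∉ Φ} : ℝ) ≤ ε * Φ.card)
    (b : M → Fin 2 × Bool) :
    (Nat.card {x : M × G // x.2 ∈ Φ ∧ x.2 * FolnerStep_av γ (b x.1) ∉ Φ} : ℝ) ≤
      Nat.card M * (ε * Φ.card) := by
  classical
  have : Fintype M := Fintype.ofFinite M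
  have e : {x : M × G // x.2 ∈ Φ ∧ x.2 * FolnerStep_av γ (b x.1) ∉ Φ} ≃
      Σ m : M, {g : G // g ∈ Φ ∧ g * FolnerStep_av γ (b m) ∉ Φ} :=
    { toFun := fun x => ⟨x.1.1, ⟨x.1.2, x.2⟩⟩
      invFun := fun y => ⟨(y.1, y.2.1), y.2.2⟩
      left_inv := fun x => rfl
      right_inv := fun y => rfl }
  have hf : ∀ m : M, Finite {g : G // g ∈ Φ ∧ g * FolnerStep_av γ (b m) ∉ Φ} := fun m =>
    Finite.of_injective (fun g => (⟨g.1, g.2.1⟩ : {g // g ∈ Φ}))
      (fun g g' h => Subtype.ext (congrArg (fun z : {g // g ∈ Φ} => z.1) h))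
  rw [Nat.card_congr e, Nat.card_sigma, Nat.cast_sum]
  calc ∑ m : M, (Nat.card {g : G // g ∈ Φ ∧ g * FolnerStep_av γ (b m) ∉ Φ} : ℝ)
      ≤ ∑ _m : M, ε * Φ.card := Finset.sum_le_sum fun m _ => FolnerStep_count_av hΦ _
    _ = Nat.card M * (ε * Φ.card) := by
      rw [Finset.sum_const, Finset.card_univ, nsmul_eq_mul, Nat.card_eq_fintype_card]

theorem FolnerStep_E2 {S : Type} {γ : Fin 2 → G} [Finite M] (τ : Perm M)
    (lab' : M → (S × Fin 2) × Bool) {Φ : Finset G} {ε : ℝ} (hε : 0 ≤ ε)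
    (hΦ : ∀ s, (Nat.card {g : G // g ∈ Φ ∧ g * γ s ∉ Φ} : ℝ) ≤ ε * Φ.card) (a : M → G)
    (ha : ∀ m, a m = FolnerStep_av γ (mapL Prod.snd (lab' m)))
    (π : Perm M) (h1 : ∀ m, π (π m) = m) (h2 : ∀ m, a (π m) = (a m)⁻¹)
    (σ₁ : Perm (FolnerStep_A a Φ))
    (hσ : ∀ x, FolnerStep_good a Φ τ x → (σ₁ x).1 = (τ x.1.1, x.1.2 * a x.1.1)) :
    ((E2 σ₁ (FolnerStep_pi _ Φ π h1 h2) : ℤ) : ℝ) ≤
      Φ.card * ((E2 τ π : ℤ) : ℝ) + 8 * ε * Nat.card M * Φ.card := by
  classical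
  have hfin : Finite (FolnerStep_A a Φ) := FolnerStep_finite_aux Φ _
  have hdfin : Finite {g // FolnerStep_deep γ Φ g} :=
    Finite.of_injective (fun g => (⟨g.1, g.2.1⟩ : {g // g ∈ Φ}))
      (fun g g' h => Subtype.ext (congrArg (fun z : {g // g ∈ Φ} => z.1) h))
  let φ : M × {g // FolnerStep_deep γ Φ g} → FolnerStep_A a Φ :=
    fun x => ⟨(x.1, x.2.1), x.2.2.1, by rw [ha]; exact x.2.2.2 _⟩
  have hφ : Function.Injective φ := by
    rintro ⟨m, g⟩ ⟨m', g'⟩ h
    have := congrArg Subtype.val h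
    simp only [φ, Prod.mk.injEq] at this
    exact Prod.ext this.1 (Subtype.ext this.2)
  have hc : ∀ x, φ (Equiv.prodCongr (τ * π) (Equiv.refl _) x) =
      (σ₁ * FolnerStep_pi a Φ π h1 h2) (φ x) := by
    rintro ⟨m, g⟩
    have hg : FolnerStep_good a Φ τ (FolnerStep_pi a Φ π h1 h2 (φ (m, g))) := by
      show (g.1 * a m) * a (π m) * a (τ (π m)) ∈ Φ
      rw [h2, mul_inv_cancel_right, ha]
      exact g.2.2 _
    apply Subtype.ext
    rw [Perm.mul_apply, hσ _ hg]
    show (τ (π m), g.1) = (τ (π m), (g.1 * a m) * a (π m))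
    rw [h2, mul_inv_cancel_right]
  have hn := FolnerStep_ncyc_le _ _ φ hφ hc
  rw [ncyc_prodCongr_refl] at hn
  have hn' : (Nat.card {g // FolnerStep_deep γ Φ g} : ℝ) * ncyc (τ * π) ≤
      ncyc (σ₁ * FolnerStep_pi a Φ π h1 h2) := by exact_mod_cast hn
  have hd := FolnerStep_card_deep hΦ
  have hA : Nat.card (FolnerStep_A a Φ) ≤ Nat.card M * Φ.card := by
    have : Nat.card (M × {g // g ∈ Φ}) = Nat.card M * Φ.card := by
      rw [Nat.card_prod, Nat.card_eq_finsetCard]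
    rw [← this]
    refine Nat.card_le_card_of_injective (fun x : FolnerStep_A a Φ =>
      ((x.1.1, ⟨x.1.2, x.2.1⟩) : M × {g // g ∈ Φ})) ?_
    rintro ⟨⟨m, g⟩, h⟩ ⟨⟨m', g'⟩, h'⟩ hh
    simp only [Prod.mk.injEq, Subtype.mk.injEq] at hh ⊢
    exact hh
  have hA' : (Nat.card (FolnerStep_A a Φ) : ℝ) ≤ Nat.card M * Φ.card := by exact_mod_cast hA
  have hM : (ncyc (τ * π) : ℝ) ≤ Nat.card M := by exact_mod_cast ncyc_le_card _
  have hE : ((E2 σ₁ (FolnerStep_pi a Φ π h1 h2) : ℤ) : ℝ) = Nat.card (FolnerStep_A a Φ) -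
      2 * ncyc (σ₁ * FolnerStep_pi a Φ π h1 h2) := by
    simp [E2]
  have hE' : ((E2 τ π : ℤ) : ℝ) = Nat.card M - 2 * ncyc (τ * π) := by
    simp [E2]
  rw [hE, hE']
  have k1 : (1 - 4 * ε) * Φ.card * ncyc (τ * π) ≤
      (Nat.card {g // FolnerStep_deep γ Φ g} : ℝ) * ncyc (τ * π) :=
    mul_le_mul_of_nonneg_right hd (Nat.cast_nonneg _)
  have k2 : ε * Φ.card * ncyc (τ * π) ≤ ε * Φ.card * Nat.card M :=
    mul_le_mul_of_nonneg_left hM (mul_nonneg hε (Nat.cast_nonneg _))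
  nlinarith

theorem FolnerStep_card_cover {B A : Type*} [Finite B] [Finite A] (p : B → A) (N : ℕ)
    (h : ∀ y, Nat.card {x // p x = y} = N) (q : A → Prop) :
    Nat.card {b // q (p b)} = Nat.card {c // q c} * N := by
  classical
  have : Fintype {c // q c} := Fintype.ofFinite _
  have e : {b // q (p b)} ≃ Σ c : {c // q c}, {b // p b = c} :=
    { toFun := fun x => ⟨⟨p x.1, x.2⟩, ⟨x.1, rfl⟩⟩
      invFun := fun y => ⟨y.2.1, by rw [y.2.2]; exact y.1.2⟩
      left_inv := fun x => rfl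
      right_inv := by
        rintro ⟨⟨c, hc⟩, ⟨b, hb⟩⟩
        simp only at hb
        subst hb
        rfl }
  rw [Nat.card_congr e, Nat.card_sigma]
  simp only [h]
  rw [Finset.sum_const, Finset.card_univ, smul_eq_mul, Nat.card_eq_fintype_card]


theorem FolnerStep_fill {S B : Type} {γ : Fin 2 → G} [Finite M] [Finite B] (τ : Perm M)
    (lab' : M → (S × Fin 2) × Bool) {Φ : Finset G} {ε : ℝ}
    (hΦ : ∀ s, (Nat.card {g : G // g ∈ Φ ∧ g * γ s ∉ Φ} : ℝ) ≤ ε * Φ.card) (a : M → G)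
    (ha : ∀ m, a m = FolnerStep_av γ (mapL Prod.snd (lab' m)))
    (πY : Perm M) (hπY : IsPairing lab' πY) (hΦ0 : Φ.Nonempty)
    (σ₁ : Perm (FolnerStep_A a Φ))
    (hσ : ∀ x, FolnerStep_good a Φ τ x → (σ₁ x).1 = (τ x.1.1, x.1.2 * a x.1.1))
    (σ₂ π₂ : Perm B) (p₂ : B → FolnerStep_A a Φ) (N : ℕ) (hN : 0 < N) (hc : IsCover σ₂ σ₁ p₂ N)
    (hπ₂ : IsPairing (fun b => FolnerStep_fl γ (lab' (p₂ b).1.1) (p₂ b).1.2) π₂) (r' : ℝ)
    (hr : ((E2 σ₂ π₂ : ℤ) : ℝ) + 5 * N * (Nat.card M * (ε * Φ.card)) < N * Φ.card * r') :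
    FillLt τ lab' r' := by
  classical
  have hfin : Finite (FolnerStep_A a Φ) := FolnerStep_finite_aux Φ _
  have hfin' : Finite (FolnerStep_A' a Φ) := FolnerStep_finite_aux Φ _
  have hbad1 : (Nat.card (FolnerStep_A' a Φ) : ℝ) ≤ Nat.card M * (ε * Φ.card) := by
    have := FolnerStep_card_bad hΦ (fun m => mapL Prod.snd (lab' m))
    simp only [← ha] at this
    exact this
  have hbad2 : (Nat.card {c : FolnerStep_A a Φ // ¬ FolnerStep_good a Φ τ c} : ℝ) ≤
      Nat.card M * (ε * Φ.card) := by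
    have h := FolnerStep_card_bad hΦ (fun m => mapL Prod.snd (lab' (τ m)))
    simp only [← ha] at h
    refine le_trans ?_ h
    have hf : Finite {x : M × G // x.2 ∈ Φ ∧ x.2 * a (τ x.1) ∉ Φ} := FolnerStep_finite_aux Φ _
    exact_mod_cast Nat.card_le_card_of_injective
      (fun c : {c : FolnerStep_A a Φ // ¬ FolnerStep_good a Φ τ c} =>
        (⟨(c.1.1.1, c.1.1.2 * a c.1.1.1), c.1.2.2, c.2⟩ :
          {x : M × G // x.2 ∈ Φ ∧ x.2 * a (τ x.1) ∉ Φ})) (by
        rintro ⟨⟨⟨m, g⟩, h1⟩, h2⟩ ⟨⟨⟨m', g'⟩, h1'⟩, h2'⟩ hh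
        simp only [Subtype.mk.injEq, Prod.mk.injEq] at hh ⊢
        obtain ⟨rfl, hh⟩ := hh
        exact ⟨rfl, mul_right_cancel hh⟩)
  let C : Type := FolnerStep_A' a Φ × Fin N
  let P : B ⊕ C → M := Sum.elim (fun b => (p₂ b).1.1) (fun x => x.1.1.1)
  -- fibres
  have hk : ∀ m, Nat.card {x // P x = m} = N * Φ.card := by
    intro m
    rw [Nat.card_congr (Equiv.subtypeSum (p := fun x => P x = m)), Nat.card_sum]
    have e1 : Nat.card {b : B // P (Sum.inl b) = m} =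
        Nat.card {g : G // g ∈ Φ ∧ g * a m ∈ Φ} * N := by
      have := FolnerStep_card_cover p₂ N hc.fib (fun c => c.1.1 = m)
      have e : {c : FolnerStep_A a Φ // c.1.1 = m} ≃ {g : G // g ∈ Φ ∧ g * a m ∈ Φ} :=
        { toFun := fun c => ⟨c.1.1.2, c.1.2.1, by
            have h' : a c.1.1.1 = a m := congrArg a c.2
            rw [← h']; exact c.1.2.2⟩
          invFun := fun g => ⟨⟨(m, g.1), g.2⟩, rfl⟩
          left_inv := by
            rintro ⟨⟨⟨m', g⟩, h⟩, h'⟩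
            simp only at h'
            subst h'
            rfl
          right_inv := fun g => rfl }
      rw [← Nat.card_congr e]
      exact this
    have e2 : Nat.card {c : C // P (Sum.inr c) = m} =
        Nat.card {g : G // g ∈ Φ ∧ ¬ g * a m ∈ Φ} * N := by
      have e : {c : C // P (Sum.inr c) = m} ≃ {g : G // g ∈ Φ ∧ ¬ g * a m ∈ Φ} × Fin N :=
        { toFun := fun c => (⟨c.1.1.1.2, c.1.1.2.1, by
            have h := c.2
            have h' := c.1.1.2.2
            change c.1.1.1.1 = m at h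
            have h'' : a c.1.1.1.1 = a m := congrArg a h
            rw [← h'']; exact h'⟩, c.1.2)
          invFun := fun g => ⟨(⟨(m, g.1.1), g.1.2⟩, g.2), rfl⟩
          left_inv := by
            rintro ⟨⟨⟨⟨m', g⟩, h⟩, j⟩, h'⟩
            change m' = m at h'
            subst h'
            rfl
          right_inv := fun g => rfl }
      rw [Nat.card_congr e, Nat.card_prod]
      simp
    rw [e1, e2, ← add_mul, FolnerStep_card_filter, mul_comm]
  have hfinC : Finite C := inferInstance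
  obtain ⟨i, hi⟩ := FolnerStep_lift P _ hk τ
  -- the permutation
  let Sg : Set (B ⊕ C) := {x | Sum.elim (fun b => FolnerStep_good a Φ τ (p₂ b)) (fun _ => False) x}
  let s : B ⊕ C → B ⊕ C := Equiv.sumCongr σ₂ 1
  obtain ⟨σ₃, h3, h4⟩ := exists_perm_extend (fun x => τ (P x)) P i hi Sg s
    ((Equiv.injective _).injOn) (by
      rintro (b | c) hx
      · have hx' : FolnerStep_good a Φ τ (p₂ b) := hx
        show (p₂ (σ₂ b)).1.1 = τ (p₂ b).1.1
        rw [hc.comm, hσ _ hx']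
      · exact hx.elim)
  -- the pairing of the missing letters
  have hcard : ∀ l : (S × Fin 2) × Bool, Nat.card {x : C // lab' x.1.1.1 = l} =
      Nat.card {m // lab' m = l} *
        Nat.card {g : G // g ∈ Φ ∧ g * FolnerStep_av γ (mapL Prod.snd l) ∉ Φ} * N := by
    intro l
    have e : {x : C // lab' x.1.1.1 = l} ≃ ({m // lab' m = l} ×
        {g : G // g ∈ Φ ∧ g * FolnerStep_av γ (mapL Prod.snd l) ∉ Φ}) × Fin N :=
      { toFun := fun x => ((⟨x.1.1.1.1, x.2⟩, ⟨x.1.1.1.2, x.1.1.2.1, by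
          have h := x.1.1.2.2
          rw [ha, x.2] at h
          exact h⟩), x.1.2)
        invFun := fun y => ⟨(⟨(y.1.1.1, y.1.2.1), y.1.2.2.1, by
          have h := y.1.2.2.2
          show y.1.2.1 * a y.1.1.1 ∉ Φ
          rw [ha, y.1.1.2]
          exact h⟩, y.2), y.1.1.2⟩
        left_inv := fun x => rfl
        right_inv := fun y => rfl }
    rw [Nat.card_congr e, Nat.card_prod, Nat.card_prod]
    simp
  obtain ⟨π₄, hπ₄⟩ := exists_pairing_of_card (L := C) (fun x => lab' x.1.1.1) (by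
    intro e
    rw [hcard, hcard]
    have e1 : Nat.card {m // lab' m = (e, true)} = Nat.card {m // lab' m = (e, false)} := by
      apply Nat.card_congr
      refine Equiv.subtypeEquiv πY (fun m => ?_)
      rw [hπY.lab_inv]
      rcases h : lab' m with ⟨e', b⟩
      cases b <;> simp [linv]
    have e2 : Nat.card {g : G // g ∈ Φ ∧ g * FolnerStep_av γ (mapL Prod.snd (e, true)) ∉ Φ} =
        Nat.card {g : G // g ∈ Φ ∧ g * FolnerStep_av γ (mapL Prod.snd (e, false)) ∉ Φ} := by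
      simp only [FolnerStep_av, mapL, if_true, Bool.false_eq_true, if_false]
      rw [FolnerStep_count]
    rw [e1, e2])
  let π₃ : Perm (B ⊕ C) := Equiv.sumCongr π₂ π₄
  have hπ₃ : IsPairing (fun x => lab' (P x)) π₃ := by
    constructor
    · rintro (b | c)
      · show Sum.inl (π₂ (π₂ b)) = Sum.inl b
        rw [hπ₂.invol]
      · show Sum.inr (π₄ (π₄ c)) = Sum.inr c
        rw [hπ₄.invol]
    · rintro (b | c)
      · have h := hπ₂.lab_inv b
        have h' := congrArg (mapL (fun e : (S × G) × Fin 2 => (e.1.1, e.2))) h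
        exact h'
      · exact hπ₄.lab_inv c
  refine ⟨N * Φ.card, B ⊕ C, inferInstance, P, σ₃, π₃, Nat.mul_pos hN hΦ0.card_pos, ⟨h3, hk⟩,
    hπ₃, ?_⟩
  -- the estimate
  have : Fintype (B ⊕ C) := Fintype.ofFinite _
  let T : Finset (B ⊕ C) := Finset.univ.filter (fun x => π₃ x ∉ Sg)
  have hT := ncyc_le_of_eq_off (Equiv.sumCongr σ₂ 1 * π₃) (σ₃ * π₃) T (by
    intro x hx
    have hx' : π₃ x ∈ Sg := by
      by_contra h
      exact hx (Finset.mem_filter.mpr ⟨Finset.mem_univ _, h⟩)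
    rw [Perm.mul_apply, Perm.mul_apply, h4 _ hx'])
  have hTcard : T.card = (Nat.card {c : FolnerStep_A a Φ // ¬ FolnerStep_good a Φ τ c} +
      Nat.card (FolnerStep_A' a Φ)) * N := by
    have e0 : T.card = Nat.card {x // π₃ x ∉ Sg} := by
      rw [← Nat.card_eq_finsetCard]
      apply Nat.card_congr
      exact Equiv.subtypeEquivRight (fun g => by simp [T])
    have e1 : Nat.card {x // π₃ x ∉ Sg} = Nat.card {x // x ∉ Sg} := by
      apply Nat.card_congr
      exact Equiv.subtypeEquiv π₃ (fun x => Iff.rfl)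
    have e2 := FolnerStep_card_cover p₂ N hc.fib (fun c => ¬ FolnerStep_good a Φ τ c)
    have e3 : Nat.card {x : B ⊕ C // x ∉ Sg} =
        Nat.card {b : B // ¬ FolnerStep_good a Φ τ (p₂ b)} + Nat.card C := by
      rw [Nat.card_congr (Equiv.subtypeSum (p := fun x => x ∉ Sg)), Nat.card_sum]
      congr 1
      apply Nat.card_congr
      exact Equiv.subtypeUnivEquiv (fun c h => h)
    have e4 : Nat.card C = Nat.card (FolnerStep_A' a Φ) * N := by
      show Nat.card (FolnerStep_A' a Φ × Fin N) = _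
      rw [Nat.card_prod]; simp
    rw [e0, e1, e3, e2, e4, add_mul]
  have hsum : ncyc (σ₂ * π₂) ≤ ncyc (Equiv.sumCongr σ₂ 1 * π₃) := by
    have : Equiv.sumCongr σ₂ 1 * π₃ = Equiv.sumCongr (σ₂ * π₂) π₄ := by
      ext x
      rcases x with b | c <;> rfl
    rw [this, ncyc_sumCongr]
    exact Nat.le_add_right _ _
  have hcB : Nat.card (B ⊕ C) = Nat.card B + Nat.card (FolnerStep_A' a Φ) * N := by
    rw [Nat.card_sum]
    congr 1
    show Nat.card (FolnerStep_A' a Φ × Fin N) = _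
    rw [Nat.card_prod]; simp
  have hE : ((E2 σ₃ π₃ : ℤ) : ℝ) = Nat.card (B ⊕ C) - 2 * ncyc (σ₃ * π₃) := by simp [E2]
  have hE' : ((E2 σ₂ π₂ : ℤ) : ℝ) = Nat.card B - 2 * ncyc (σ₂ * π₂) := by simp [E2]
  have k1 : (ncyc (σ₂ * π₂) : ℝ) ≤ ncyc (σ₃ * π₃) + T.card := by exact_mod_cast hsum.trans hT
  have k2 : (T.card : ℝ) = (Nat.card {c : FolnerStep_A a Φ // ¬ FolnerStep_good a Φ τ c} +
      Nat.card (FolnerStep_A' a Φ)) * N := by exact_mod_cast hTcard
  have k3 : (Nat.card (B ⊕ C) : ℝ) = Nat.card B + Nat.card (FolnerStep_A' a Φ) * N := by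
    exact_mod_cast hcB
  have k4 : (Nat.card (FolnerStep_A' a Φ) : ℝ) * N ≤ Nat.card M * (ε * Φ.card) * N :=
    mul_le_mul_of_nonneg_right hbad1 (Nat.cast_nonneg _)
  have k5 : (Nat.card {c : FolnerStep_A a Φ // ¬ FolnerStep_good a Φ τ c} : ℝ) * N ≤
      Nat.card M * (ε * Φ.card) * N := mul_le_mul_of_nonneg_right hbad2 (Nat.cast_nonneg _)
  rw [hE, k3]
  rw [hE'] at hr
  push_cast
  nlinarith

end

theorem folner_step {S G : Type} [Group G] (t : Fin 2 → Perm S) (γ : Fin 2 → G) (hF : Folner γ)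
    (V : S → Prop)
    (hiso : ∀ (L : Type) [Finite L] (σ : Perm L) (lab : L → ((S × G) × Fin 2) × Bool),
      IsPath (liftAct t γ) σ lab → (∀ x, V (tl (liftAct t γ) (lab x)).1) →
      (∃ π, IsPairing lab π) → ∀ r, FillLt σ (fun x => mapL (fun e => (e.1.2, e.2)) (lab x)) r →
      FillLt σ lab r)
    {L : Type} [Finite L] (σ : Perm L) (lab : L → (S × Fin 2) × Bool) (hp : IsPath t σ lab)
    (hV : ∀ x, V (tl t (lab x))) (hb : ∃ π, IsPairing lab π) (r : ℝ)
    (h : FillLt σ (fun x => mapL Prod.snd (lab x)) r) : FillLt σ lab r := by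
  classical
  obtain ⟨n₀, M, hM, p, τ, π, hn₀, hcov, hπ, hlt⟩ := h
  obtain ⟨πL, hπL⟩ := hb
  -- the pairing for the labels of the cover
  obtain ⟨πY, hπY⟩ := exists_pairing_of_card (fun m => lab (p m)) (by
    intro e
    rw [FolnerStep_card_cover p n₀ hcov.fib (fun x => lab x = (e, true)),
      FolnerStep_card_cover p n₀ hcov.fib (fun x => lab x = (e, false))]
    congr 1
    apply Nat.card_congr
    refine Equiv.subtypeEquiv πL (fun m => ?_)
    rw [hπL.lab_inv]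
    rcases h : lab m with ⟨e', b⟩
    cases b <;> simp [linv])
  have hpath : IsPath t τ (fun m => lab (p m)) := by
    intro m
    show tl t (lab (p (τ m))) = _
    rw [hcov.comm, hp]
  let a : M → G := fun m => FolnerStep_av γ (mapL Prod.snd (lab (p m)))
  have ha : ∀ m, a m = FolnerStep_av γ (mapL Prod.snd (lab (p m))) := fun m => rfl
  have h2 : ∀ m, a (π m) = (a m)⁻¹ := by
    intro m
    have := hπ.lab_inv m
    simp only at this
    rw [ha, ha, this, FolnerStep_av_linv]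
  -- choice of ε
  set K : ℝ := n₀ * r - ((E2 τ π : ℤ) : ℝ) with hK
  have hK0 : 0 < K := by rw [hK]; linarith
  have hMpos : (0 : ℝ) < 13 * Nat.card M + 1 := by positivity
  set ε : ℝ := K / (13 * Nat.card M + 1) with hε
  have hε0 : 0 < ε := div_pos hK0 hMpos
  have hεK : ε * (13 * Nat.card M + 1) = K := by
    rw [hε]; field_simp
  obtain ⟨Φ, hΦ0, hΦ⟩ := hF ε hε0
  obtain ⟨σ₁, hσp, hσ⟩ := FolnerStep_sigma t γ τ (fun m => lab (p m)) hpath πY hπY Φ a ha
  have hfin : Finite (FolnerStep_A a Φ) := FolnerStep_finite_aux Φ _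
  have hE := FolnerStep_E2 τ (fun m => lab (p m)) hε0.le hΦ a ha π hπ.invol h2 σ₁ hσ
  have hΦpos : (0 : ℝ) < Φ.card := by exact_mod_cast hΦ0.card_pos
  -- filling in the pieces
  have h2Y : ∀ m, a (πY m) = (a m)⁻¹ := by
    intro m
    have := hπY.lab_inv m
    rw [ha, ha, this, ← FolnerStep_av_linv]
    rfl
  have hfill := hiso (FolnerStep_A a Φ) σ₁ (fun x => FolnerStep_fl γ (lab (p x.1.1)) x.1.2) hσp
    (by
      intro x
      rw [FolnerStep_tl_fl]
      exact hV _)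
    ⟨FolnerStep_pi a Φ πY hπY.invol h2Y, by
      constructor
      · rintro ⟨⟨m, g⟩, hx⟩
        apply Subtype.ext
        rw [FolnerStep_pi_apply, FolnerStep_pi_apply, h2Y]
        simp [hπY.invol]
      · intro x
        show FolnerStep_fl γ (lab (p (πY x.1.1))) (x.1.2 * a x.1.1) = _
        have := hπY.lab_inv x.1.1
        rw [this, ha, FolnerStep_fl_linv]⟩
    (((E2 σ₁ (FolnerStep_pi a Φ π hπ.invol h2) : ℤ) : ℝ) + ε * Φ.card)
    (FillLt.of_pairing (π := FolnerStep_pi a Φ π hπ.invol h2) (by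
      constructor
      · rintro ⟨⟨m, g⟩, hx⟩
        apply Subtype.ext
        rw [FolnerStep_pi_apply, FolnerStep_pi_apply, h2]
        simp [hπ.invol]
      · intro x
        show mapL _ (FolnerStep_fl γ (lab (p (π x.1.1))) (x.1.2 * a x.1.1)) = _
        have := hπ.lab_inv x.1.1
        simp only at this
        rw [ha, FolnerStep_mapL_fl _ _ _ _ this]) (by
      have : 0 < ε * Φ.card := mul_pos hε0 hΦpos
      linarith))
  obtain ⟨N, B, hB, p₂, σ₂, π₂, hN, hc, hπ₂, hlt2⟩ := hfill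
  refine FillLt.of_cover hn₀ hcov ?_
  refine FolnerStep_fill τ (fun m => lab (p m)) hΦ a ha πY hπY hΦ0 σ₁ hσ σ₂ π₂ p₂ N hN hc hπ₂ _ ?_
  have hNpos : (0 : ℝ) < N := by exact_mod_cast hN
  have k1 : (N : ℝ) * (((E2 σ₁ (FolnerStep_pi a Φ π hπ.invol h2) : ℤ) : ℝ) + ε * Φ.card) ≤
      N * (Φ.card * ((E2 τ π : ℤ) : ℝ) + 8 * ε * Nat.card M * Φ.card + ε * Φ.card) :=
    mul_le_mul_of_nonneg_left (by linarith) hNpos.le
  have k2 : (n₀ : ℝ) * r = ((E2 τ π : ℤ) : ℝ) + ε * (13 * Nat.card M + 1) := by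
    rw [hεK, hK]; ring
  rw [k2]
  calc ((E2 σ₂ π₂ : ℤ) : ℝ) + 5 * N * (Nat.card M * (ε * Φ.card))
      < N * (Φ.card * ((E2 τ π : ℤ) : ℝ) + 8 * ε * Nat.card M * Φ.card + ε * Φ.card) +
        5 * N * (Nat.card M * (ε * Φ.card)) := by linarith
    _ = N * Φ.card * (((E2 τ π : ℤ) : ℝ) + ε * (13 * Nat.card M + 1)) := by ring

end SclIso
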