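import Pool.Agent.H.MP_1b0e60_al.Flow

/-!
A finite connected piece of the coset graph of a 2-generated subgroup, with Euler characteristic at
least `-1`.
-/

open Equiv Filter Topology

namespace SclIso

/-- visited vertices -/
def Graph_vis {Ω : Type*} (t : Fin 2 → Perm Ω) : List (Fin 2 × Bool) → Ω → List Ω
  | [], x => [x]
  | l :: w, x => x :: Graph_vis t w (step t l x)

lemma Graph_stays_iff {Ω : Type*} (t : Fin 2 → Perm Ω) (D : Ω → Prop)
    (w : List (Fin 2 × Bool)) (x : Ω) : Stays t D w x ↔ ∀ y ∈ Graph_vis t w x, D y := by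
  induction w generalizing x with
  | nil => simp [Stays, Graph_vis]
  | cons l w ih => simp [Stays, Graph_vis, ih]

lemma Graph_split {Ω : Type*} (t : Fin 2 → Perm Ω) (w : List (Fin 2 × Bool)) (x y : Ω)
    (h : y ∈ Graph_vis t w x) : ∃ w1 w2, w = w1 ++ w2 ∧ walk t w1 x = y := by
  induction w generalizing x with
  | nil =>
    simp only [Graph_vis, List.mem_singleton] at h
    exact ⟨[], [], rfl, h.symm⟩
  | cons l w ih =>
    simp only [Graph_vis, List.mem_cons] at h
    rcases h with h | h
    · exact ⟨[], l :: w, rfl, h.symm⟩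
    · obtain ⟨w1, w2, h1, h2⟩ := ih _ h
      exact ⟨l :: w1, w2, by rw [h1]; rfl, h2⟩

lemma Graph_stays_right {Ω : Type*} (t : Fin 2 → Perm Ω) (D : Ω → Prop)
    (w1 w2 : List (Fin 2 × Bool)) (x : Ω) (h : Stays t D (w1 ++ w2) x) :
    Stays t D w2 (walk t w1 x) := by
  induction w1 generalizing x with
  | nil => exact h
  | cons l w ih => exact ih _ h.2

lemma Graph_mem_vis_self {Ω : Type*} (t : Fin 2 → Perm Ω) (w : List (Fin 2 × Bool)) (x : Ω) :
    x ∈ Graph_vis t w x := by
  cases w <;> simp [Graph_vis]

section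

variable (H : Subgroup (FreeGroup (Fin 2)))

/-- coefficients in `ℚ` -/
noncomputable def Graph_phi : ((FreeGroup (Fin 2) ⧸ H) × Fin 2 →₀ ℤ) →+
    ((FreeGroup (Fin 2) ⧸ H) × Fin 2 →₀ ℚ) :=
  Finsupp.mapRange.addMonoidHom (Int.castAddHom ℚ)

/-- the flow of a word from the base point -/
noncomputable def Graph_fl (w : List (Fin 2 × Bool)) :
    ((FreeGroup (Fin 2) ⧸ H) × Fin 2 →₀ ℚ) :=
  Graph_phi H (flow (cosetAct H) w (QuotientGroup.mk 1))

lemma Graph_span (a b : List (Fin 2 × Bool))
    (hH : H = Subgroup.closure {FreeGroup.mk a, FreeGroup.mk b}) (w : List (Fin 2 × Bool))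
    (hw : FreeGroup.mk w ∈ H) :
    Graph_fl H w ∈ Submodule.span ℚ {Graph_fl H a, Graph_fl H b} := by
  have key : ∀ h ∈ Subgroup.closure {FreeGroup.mk a, FreeGroup.mk b},
      ∀ w, FreeGroup.mk w = h → Graph_fl H w ∈ Submodule.span ℚ {Graph_fl H a, Graph_fl H b} := by
    intro h hh
    induction hh using Subgroup.closure_induction with
    | mem x hx =>
      intro w hw
      rcases hx with hx | hx
      · have : Graph_fl H w = Graph_fl H a := by
          unfold Graph_fl
          rw [flow_congr (cosetAct H) (hw.trans hx)]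
        rw [this]
        exact Submodule.subset_span (Or.inl rfl)
      · have : Graph_fl H w = Graph_fl H b := by
          unfold Graph_fl
          rw [flow_congr (cosetAct H) (hw.trans hx)]
        rw [this]
        exact Submodule.subset_span (Or.inr rfl)
    | one =>
      intro w hw
      have : Graph_fl H w = 0 := by
        unfold Graph_fl
        rw [flow_congr (cosetAct H) (w' := []) (hw.trans FreeGroup.one_eq_mk)]
        simp [flow]
      rw [this]
      exact Submodule.zero_mem _
    | mul x y hx hy ihx ihy =>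
      intro w hw
      have hx' : walk (cosetAct H) x.toWord (QuotientGroup.mk 1) = QuotientGroup.mk 1 := by
        rw [← walk_cosetAct_one, FreeGroup.mk_toWord, hH]
        exact hx
      have : Graph_fl H w = Graph_fl H x.toWord + Graph_fl H y.toWord := by
        unfold Graph_fl
        rw [flow_congr (cosetAct H) (w := w) (w' := x.toWord ++ y.toWord), flow_append, hx',
          map_add]
        rw [hw, ← FreeGroup.mul_mk, FreeGroup.mk_toWord, FreeGroup.mk_toWord]
      rw [this]
      exact Submodule.add_mem _ (ihx _ FreeGroup.mk_toWord) (ihy _ FreeGroup.mk_toWord)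
    | inv x hx ihx =>
      intro w hw
      have hx' : walk (cosetAct H) x.toWord (QuotientGroup.mk 1) = QuotientGroup.mk 1 := by
        rw [← walk_cosetAct_one, FreeGroup.mk_toWord, hH]
        exact hx
      have h1 : flow (cosetAct H) (x.toWord ++ w) (QuotientGroup.mk 1) = 0 := by
        rw [flow_congr (cosetAct H) (w' := [])]
        · simp [flow]
        · rw [← FreeGroup.mul_mk, FreeGroup.mk_toWord, hw, mul_inv_cancel, FreeGroup.one_eq_mk]
      rw [flow_append, hx'] at h1
      have : Graph_fl H w = - Graph_fl H x.toWord := by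
        unfold Graph_fl
        rw [← map_neg, eq_neg_of_add_eq_zero_right h1]
      rw [this]
      exact Submodule.neg_mem _ (ihx _ FreeGroup.mk_toWord)
  exact key _ (hH ▸ hw) w rfl

/-- a path from the base point to `v` -/
noncomputable def Graph_c (v : FreeGroup (Fin 2) ⧸ H) : List (Fin 2 × Bool) :=
  ((Quotient.out v)⁻¹).toWord

lemma Graph_walk_c (v : FreeGroup (Fin 2) ⧸ H) :
    walk (cosetAct H) (Graph_c H v) (QuotientGroup.mk 1) = v := by
  rw [walk_cosetAct, mul_one, Graph_c, FreeGroup.mk_toWord, inv_inv]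
  exact QuotientGroup.out_eq' v

lemma Graph_edge (a b : List (Fin 2 × Bool))
    (hH : H = Subgroup.closure {FreeGroup.mk a, FreeGroup.mk b})
    (e : (FreeGroup (Fin 2) ⧸ H) × Fin 2) :
    Graph_fl H (Graph_c H e.1) + Finsupp.single e 1 - Graph_fl H (Graph_c H (cosetAct H e.2 e.1))
      ∈ Submodule.span ℚ {Graph_fl H a, Graph_fl H b} := by
  set t := cosetAct H with ht
  set p := Graph_c H e.1 ++ ([(e.2, true)] ++ FreeGroup.invRev (Graph_c H (t e.2 e.1))) with hp
  have hinv : flow t (FreeGroup.invRev (Graph_c H (t e.2 e.1))) (t e.2 e.1)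
      = - flow t (Graph_c H (t e.2 e.1)) (QuotientGroup.mk 1) := by
    have h1 : flow t (Graph_c H (t e.2 e.1) ++ FreeGroup.invRev (Graph_c H (t e.2 e.1)))
        (QuotientGroup.mk 1) = 0 := by
      rw [flow_congr t (w' := [])]
      · simp [flow]
      · rw [← FreeGroup.mul_mk, ← FreeGroup.inv_mk, mul_inv_cancel, FreeGroup.one_eq_mk]
    rw [flow_append, Graph_walk_c] at h1
    exact eq_neg_of_add_eq_zero_right h1
  have hfl : Graph_fl H p = Graph_fl H (Graph_c H e.1) + Finsupp.single e 1
      - Graph_fl H (Graph_c H (t e.2 e.1)) := by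
    unfold Graph_fl
    rw [hp, flow_append, Graph_walk_c, flow_append, walk_cons, walk_nil, step_true, hinv]
    simp only [flow, if_true, add_zero, map_add, map_neg]
    have : Graph_phi H (Finsupp.single (e.1, e.2) 1) = Finsupp.single e 1 := by
      unfold Graph_phi
      rw [Finsupp.mapRange.addMonoidHom_apply, Finsupp.mapRange_single]
      simp
    rw [this]
    abel
  rw [← hfl]
  apply Graph_span H a b hH
  rw [walk_cosetAct_one, hp, walk_append, Graph_walk_c, walk_append, walk_cons, walk_nil,
    step_true]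
  have h2 := walk_invRev t (Graph_c H (t e.2 e.1)) (QuotientGroup.mk 1)
  rwa [Graph_walk_c] at h2

end

theorem exists_graph (a b : List (Fin 2 × Bool)) (H : Subgroup (FreeGroup (Fin 2)))
    (hH : H = Subgroup.closure {FreeGroup.mk a, FreeGroup.mk b}) :
    ∃ V : Finset (FreeGroup (Fin 2) ⧸ H),
      Stays (cosetAct H) (· ∈ V) a (QuotientGroup.mk 1) ∧
      Stays (cosetAct H) (· ∈ V) b (QuotientGroup.mk 1) ∧
      (∀ v ∈ V, ∃ w, Stays (cosetAct H) (· ∈ V) w v ∧ walk (cosetAct H) w v = QuotientGroup.mk 1) ∧
      Nat.card {e : (FreeGroup (Fin 2) ⧸ H) × Fin 2 // e.1 ∈ V ∧ cosetAct H e.2 e.1 ∈ V}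
        ≤ V.card + 1 := by
  classical
  set t := cosetAct H with ht
  set x0 : FreeGroup (Fin 2) ⧸ H := QuotientGroup.mk 1 with hx0
  set V : Finset (FreeGroup (Fin 2) ⧸ H) := (Graph_vis t a x0 ++ Graph_vis t b x0).toFinset
    with hV
  have hmem : ∀ y, y ∈ V ↔ y ∈ Graph_vis t a x0 ∨ y ∈ Graph_vis t b x0 := by
    intro y
    rw [hV, List.mem_toFinset, List.mem_append]
  have hSa : Stays t (· ∈ V) a x0 := (Graph_stays_iff _ _ _ _).2 fun y hy => (hmem y).2 (Or.inl hy)
  have hSb : Stays t (· ∈ V) b x0 := (Graph_stays_iff _ _ _ _).2 fun y hy => (hmem y).2 (Or.inr hy)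
  have haH : FreeGroup.mk a ∈ H := by rw [hH]; exact Subgroup.subset_closure (Or.inl rfl)
  have hbH : FreeGroup.mk b ∈ H := by rw [hH]; exact Subgroup.subset_closure (Or.inr rfl)
  have hwa : walk t a x0 = x0 := (walk_cosetAct_one H a).1 haH
  have hwb : walk t b x0 = x0 := (walk_cosetAct_one H b).1 hbH
  refine ⟨V, hSa, hSb, ?_, ?_⟩
  · intro v hv
    rcases (hmem v).1 hv with h | h
    · obtain ⟨w1, w2, h1, h2⟩ := Graph_split t a x0 v h
      refine ⟨w2, ?_, ?_⟩
      · rw [← h2]
        exact Graph_stays_right t _ w1 w2 x0 (h1 ▸ hSa)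
      · rw [← h2, ← walk_append, ← h1, hwa]
    · obtain ⟨w1, w2, h1, h2⟩ := Graph_split t b x0 v h
      refine ⟨w2, ?_, ?_⟩
      · rw [← h2]
        exact Graph_stays_right t _ w1 w2 x0 (h1 ▸ hSb)
      · rw [← h2, ← walk_append, ← h1, hwb]
  · -- the count of the edges
    set E := {e : (FreeGroup (Fin 2) ⧸ H) × Fin 2 // e.1 ∈ V ∧ t e.2 e.1 ∈ V} with hE
    have hEfin : Finite E := by
      refine Finite.of_injective (fun e : E => ((⟨e.1.1, e.2.1⟩ : V), e.1.2)) ?_
      intro e e' h
      simp only [Prod.mk.injEq, Subtype.mk.injEq] at h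
      exact Subtype.ext (Prod.ext h.1 h.2)
    have hEft : Fintype E := Fintype.ofFinite E
    let src : E → V := fun e => ⟨e.1.1, e.2.1⟩
    let tgt : E → V := fun e => ⟨t e.1.2 e.1.1, e.2.2⟩
    let D : (E → ℚ) →ₗ[ℚ] (V → ℚ) :=
      { toFun := fun z v => ∑ e, z e * ((if tgt e = v then 1 else 0) - if src e = v then 1 else 0)
        map_add' := by
          intro z z'
          funext v
          simp only [Pi.add_apply, add_mul, Finset.sum_add_distrib]
        map_smul' := by
          intro c z
          funext v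
          simp only [Pi.smul_apply, smul_eq_mul, RingHom.id_apply, mul_assoc, Finset.mul_sum] }
    let σ : (V → ℚ) →ₗ[ℚ] ℚ :=
      { toFun := fun u => ∑ v, u v
        map_add' := by intro u u'; simp [Finset.sum_add_distrib]
        map_smul' := by intro c u; simp [Finset.mul_sum] }
    have hσD : ∀ z, σ (D z) = 0 := by
      intro z
      show ∑ v, ∑ e, z e * ((if tgt e = v then 1 else 0) - if src e = v then 1 else 0) = 0
      rw [Finset.sum_comm]
      apply Finset.sum_eq_zero
      intro e _
      rw [← Finset.mul_sum, Finset.sum_sub_distrib, Finset.sum_ite_eq, Finset.sum_ite_eq]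
      simp
    have hx0V : x0 ∈ V := (hmem x0).2 (Or.inl (Graph_mem_vis_self t a x0))
    have hσne : LinearMap.range σ = ⊤ := by
      rw [LinearMap.range_eq_top]
      intro c
      refine ⟨fun v => if v = ⟨x0, hx0V⟩ then c else 0, ?_⟩
      show ∑ v, (if v = (⟨x0, hx0V⟩ : V) then c else 0) = c
      rw [Finset.sum_ite_eq']
      simp
    have hrD : Module.finrank ℚ (LinearMap.range D) + 1 ≤ V.card := by
      have h1 : LinearMap.range D ≤ LinearMap.ker σ := by
        rintro _ ⟨z, rfl⟩
        exact hσD z
      have h2 := Submodule.finrank_mono h1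
      have h3 := σ.finrank_range_add_finrank_ker
      rw [hσne, finrank_top, Module.finrank_self, Module.finrank_fintype_fun_eq_card,
        Fintype.card_coe] at h3
      omega
    -- the kernel
    let L : (E → ℚ) →ₗ[ℚ] ((FreeGroup (Fin 2) ⧸ H) × Fin 2 →₀ ℚ) :=
      { toFun := fun z => ∑ e : E, z e • Finsupp.single e.1 1
        map_add' := by
          intro z z'
          simp only [Pi.add_apply, add_smul, Finset.sum_add_distrib]
        map_smul' := by
          intro c z
          simp only [Pi.smul_apply, smul_eq_mul, mul_smul, Finset.smul_sum, RingHom.id_apply] }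
    have hLinj : Function.Injective L := by
      rw [← LinearMap.ker_eq_bot, LinearMap.ker_eq_bot']
      intro z hz
      funext e
      have h1 : (∑ e' : E, z e' • Finsupp.single e'.1 (1 : ℚ)) e.1 = 0 := by
        have : (∑ e' : E, z e' • Finsupp.single e'.1 (1 : ℚ)) = 0 := hz
        rw [this]
        rfl
      rw [Finsupp.finsetSum_apply, Finset.sum_eq_single e] at h1
      · simpa using h1
      · intro e' _ hne
        have : e'.1 ≠ e.1 := fun h => hne (Subtype.ext h)
        rw [Finsupp.smul_apply, Finsupp.single_eq_of_ne this.symm, smul_zero]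
      · intro h
        exact (h (Finset.mem_univ _)).elim
    have hLker : (LinearMap.ker D).map L ≤ Submodule.span ℚ {Graph_fl H a, Graph_fl H b} := by
      rintro _ ⟨z, hz, rfl⟩
      have hz' : ∀ v, ∑ e, z e * ((if tgt e = v then 1 else 0) - if src e = v then 1 else 0) = 0 := by
        intro v
        exact congrFun (show D z = 0 from hz) v
      have h1 : ∑ e : E, z e • (Graph_fl H (Graph_c H (t e.1.2 e.1.1))
          - Graph_fl H (Graph_c H e.1.1)) = 0 := by
        have h2 : ∀ e : E, z e • (Graph_fl H (Graph_c H (t e.1.2 e.1.1))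
            - Graph_fl H (Graph_c H e.1.1)) = ∑ v : V, (z e * ((if tgt e = v then 1 else 0)
              - if src e = v then 1 else 0)) • Graph_fl H (Graph_c H v.1) := by
          intro e
          simp only [mul_sub, sub_smul, Finset.sum_sub_distrib, mul_ite, mul_one, mul_zero,
            ite_smul, zero_smul, Finset.sum_ite_eq, Finset.mem_univ, if_true, smul_sub]
          rfl
        rw [Finset.sum_congr rfl (fun e _ => h2 e), Finset.sum_comm]
        apply Finset.sum_eq_zero
        intro v _
        rw [← Finset.sum_smul, hz', zero_smul]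
      have h3 : L z = ∑ e : E, z e • (Graph_fl H (Graph_c H e.1.1) + Finsupp.single e.1 1
          - Graph_fl H (Graph_c H (t e.1.2 e.1.1))) := by
        have h4 : ∀ e : E, z e • (Graph_fl H (Graph_c H e.1.1) + Finsupp.single e.1 1
          - Graph_fl H (Graph_c H (t e.1.2 e.1.1))) = z e • Finsupp.single e.1 (1 : ℚ)
            - z e • (Graph_fl H (Graph_c H (t e.1.2 e.1.1)) - Graph_fl H (Graph_c H e.1.1)) := by
          intro e
          rw [← smul_sub]
          congr 1
          abel
        rw [Finset.sum_congr rfl (fun e _ => h4 e), Finset.sum_sub_distrib, h1, sub_zero]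
        rfl
      rw [h3]
      exact Submodule.sum_mem _ fun e _ => Submodule.smul_mem _ _ (Graph_edge H a b hH e.1)
    have hkD : Module.finrank ℚ (LinearMap.ker D) ≤ 2 := by
      have h1 : Module.finrank ℚ (LinearMap.ker D)
          = Module.finrank ℚ ((LinearMap.ker D).map L) :=
        (Submodule.equivMapOfInjective L hLinj _).finrank_eq
      have hfin : ({Graph_fl H a, Graph_fl H b} : Set _).Finite := by simp
      have : Module.Finite ℚ (Submodule.span ℚ {Graph_fl H a, Graph_fl H b}) :=
        Module.Finite.span_of_finite ℚ hfin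
      have h2 := Submodule.finrank_mono hLker
      classical
      have h3 := finrank_span_finset_le_card (R := ℚ)
        ({Graph_fl H a, Graph_fl H b} : Finset ((FreeGroup (Fin 2) ⧸ H) × Fin 2 →₀ ℚ))
      rw [Finset.coe_insert, Finset.coe_singleton, Set.finrank] at h3
      have h4 : ({Graph_fl H a, Graph_fl H b} :
          Finset ((FreeGroup (Fin 2) ⧸ H) × Fin 2 →₀ ℚ)).card ≤ 2 := Finset.card_le_two
      omega
    have h1 := D.finrank_range_add_finrank_ker
    rw [Module.finrank_fintype_fun_eq_card] at h1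
    rw [Nat.card_eq_fintype_card]
    omega

end SclIso
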