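import Pool.Agent.H.MP_1b0e60_al.Defs

/-!
At most one good vertex on each level.
-/

open Equiv Filter Topology

namespace SclIso

section general

variable {Ω Ω' : Type*} (t : Fin 2 → Perm Ω)

theorem LemmaK_walk_append (w w' : List (Fin 2 × Bool)) (x : Ω) :
    walk t (w ++ w') x = walk t w' (walk t w x) := by
  simp [walk, List.foldl_append]

theorem LemmaK_stays_start {D : Ω → Prop} {w : List (Fin 2 × Bool)} {x : Ω}
    (h : Stays t D w x) : D x := by
  cases w with
  | nil => exact h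
  | cons l w => exact h.1

theorem LemmaK_stays_append {D : Ω → Prop} {w w' : List (Fin 2 × Bool)} {x : Ω}
    (h : Stays t D w x) (h' : Stays t D w' (walk t w x)) : Stays t D (w ++ w') x := by
  induction w generalizing x with
  | nil => simpa [walk] using h'
  | cons l w ih =>
    refine ⟨h.1, ih h.2 ?_⟩
    simpa [walk] using h'

theorem LemmaK_stays_mono {D D' : Ω → Prop} (hD : ∀ y, D y → D' y) {w : List (Fin 2 × Bool)}
    {x : Ω} (h : Stays t D w x) : Stays t D' w x := by
  induction w generalizing x with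
  | nil => exact hD _ h
  | cons l w ih => exact ⟨hD _ h.1, ih h.2⟩

variable {t}

theorem LemmaK_step_map {t' : Fin 2 → Perm Ω'} (Ψ : Ω' → Ω)
    (hΨ : ∀ s x, Ψ (t' s x) = t s (Ψ x)) (l : Fin 2 × Bool) (x : Ω') :
    Ψ (step t' l x) = step t l (Ψ x) := by
  unfold step
  by_cases h : l.2
  · rw [if_pos h, if_pos h, hΨ]
  · rw [if_neg h, if_neg h, Equiv.Perm.eq_inv_iff_eq, ← hΨ]
    simp

theorem LemmaK_walk_map {t' : Fin 2 → Perm Ω'} (Ψ : Ω' → Ω)
    (hΨ : ∀ s x, Ψ (t' s x) = t s (Ψ x)) (w : List (Fin 2 × Bool)) (x : Ω') :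
    Ψ (walk t' w x) = walk t w (Ψ x) := by
  induction w generalizing x with
  | nil => rfl
  | cons l w ih =>
    have h1 : walk t' (l :: w) x = walk t' w (step t' l x) := rfl
    have h2 : walk t (l :: w) (Ψ x) = walk t w (step t l (Ψ x)) := rfl
    rw [h1, h2, ih, LemmaK_step_map Ψ hΨ]

theorem LemmaK_stays_map {t' : Fin 2 → Perm Ω'} (Ψ : Ω' → Ω)
    (hΨ : ∀ s x, Ψ (t' s x) = t s (Ψ x)) (D : Ω → Prop) (w : List (Fin 2 × Bool)) (x : Ω') :
    Stays t D w (Ψ x) ↔ Stays t' (fun y => D (Ψ y)) w x := by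
  induction w generalizing x with
  | nil => rfl
  | cons l w ih =>
    have h1 : Stays t D (l :: w) (Ψ x) ↔ D (Ψ x) ∧ Stays t D w (step t l (Ψ x)) := Iff.rfl
    have h2 : Stays t' (fun y => D (Ψ y)) (l :: w) x ↔
      D (Ψ x) ∧ Stays t' (fun y => D (Ψ y)) w (step t' l x) := Iff.rfl
    rw [h1, h2, ← LemmaK_step_map Ψ hΨ, ih]

/-- the word `w` repeated `n` times -/
def LemmaK_rep (n : ℕ) (w : List (Fin 2 × Bool)) : List (Fin 2 × Bool) :=
  (List.replicate n w).flatten

theorem LemmaK_rep_succ (n : ℕ) (w : List (Fin 2 × Bool)) :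
    LemmaK_rep (n + 1) w = w ++ LemmaK_rep n w := by
  simp [LemmaK_rep, List.replicate_succ]

theorem LemmaK_walk_rep {w : List (Fin 2 × Bool)} {x : Ω} (h : walk t w x = x) (n : ℕ) :
    walk t (LemmaK_rep n w) x = x := by
  induction n with
  | zero => rfl
  | succ n ih => rw [LemmaK_rep_succ, LemmaK_walk_append, h, ih]

theorem LemmaK_stays_rep {D : Ω → Prop} {w : List (Fin 2 × Bool)} {x : Ω}
    (hs : Stays t D w x) (h : walk t w x = x) (n : ℕ) : Stays t D (LemmaK_rep n w) x := by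
  induction n with
  | zero => exact LemmaK_stays_start t hs
  | succ n ih =>
    rw [LemmaK_rep_succ]
    apply LemmaK_stays_append t hs
    rw [h]
    exact ih

theorem LemmaK_mk_rep (n : ℕ) (w : List (Fin 2 × Bool)) :
    FreeGroup.mk (LemmaK_rep n w) = (FreeGroup.mk w) ^ n := by
  induction n with
  | zero => rfl
  | succ n ih => rw [LemmaK_rep_succ, ← FreeGroup.mul_mk, ih, pow_succ']

/-! ### chains of paths which are stopped when they leave a set -/

open Classical in
/-- the chain of one letter -/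
noncomputable def LemmaK_edge (t : Fin 2 → Perm Ω) (l : Fin 2 × Bool) (x : Ω) :
    Ω × Fin 2 → ℚ :=
  if l.2 then fun e => if e = (x, l.1) then 1 else 0
  else fun e => if e = ((t l.1)⁻¹ x, l.1) then -1 else 0

open Classical in
/-- the chain of the initial part of a path up to the first exit from `P` -/
noncomputable def LemmaK_chain (t : Fin 2 → Perm Ω) (P : Ω → Prop) :
    List (Fin 2 × Bool) → Ω → (Ω × Fin 2 → ℚ)
  | [], _ => 0
  | l :: w, x => LemmaK_edge t l x +
      (if P (step t l x) then LemmaK_chain t P w (step t l x) else 0)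

/-- the path leaves `P` -/
def LemmaK_exits (t : Fin 2 → Perm Ω) (P : Ω → Prop) : List (Fin 2 × Bool) → Ω → Prop
  | [], _ => False
  | l :: w, x => ¬ P (step t l x) ∨ LemmaK_exits t P w (step t l x)

theorem LemmaK_exits_of_end {P : Ω → Prop} (w : List (Fin 2 × Bool)) (x : Ω) (hx : P x)
    (h : ¬ P (walk t w x)) : LemmaK_exits t P w x := by
  induction w generalizing x with
  | nil => exact absurd hx h
  | cons l w ih =>
    by_cases hP : P (step t l x)
    · exact Or.inr (ih _ hP h)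
    · exact Or.inl hP

open Classical in
theorem LemmaK_edge_supp (l : Fin 2 × Bool) (x : Ω) (e : Ω × Fin 2)
    (h : LemmaK_edge t l x e ≠ 0) :
    e.2 = l.1 ∧ ((e.1 = x ∧ t e.2 e.1 = step t l x) ∨ (e.1 = step t l x ∧ t e.2 e.1 = x)) := by
  unfold LemmaK_edge at h
  by_cases hl : l.2
  · rw [if_pos hl] at h
    have h' : (if e = (x, l.1) then (1 : ℚ) else 0) ≠ 0 := h
    by_cases he : e = (x, l.1)
    · subst he
      exact ⟨rfl, Or.inl ⟨rfl, by simp [step, hl]⟩⟩
    · rw [if_neg he] at h'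
      exact absurd rfl h'
  · rw [if_neg hl] at h
    have h' : (if e = ((t l.1)⁻¹ x, l.1) then (-1 : ℚ) else 0) ≠ 0 := h
    by_cases he : e = ((t l.1)⁻¹ x, l.1)
    · subst he
      exact ⟨rfl, Or.inr ⟨by simp [step, hl], by simp⟩⟩
    · rw [if_neg he] at h'
      exact absurd rfl h'

theorem LemmaK_exists_edge (l : Fin 2 × Bool) (x : Ω) :
    ∃ e : Ω × Fin 2, e.2 = l.1 ∧ (e.1 = x ∨ t e.2 e.1 = x) ∧ LemmaK_edge t l x e ≠ 0 := by
  obtain ⟨s, b⟩ := l
  cases b with
  | true => exact ⟨(x, s), rfl, Or.inl rfl, by simp [LemmaK_edge]⟩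
  | false => exact ⟨((t s)⁻¹ x, s), rfl, Or.inr (by simp), by simp [LemmaK_edge]⟩

open Classical in
theorem LemmaK_chain_supp {P Q : Ω → Prop} (w : List (Fin 2 × Bool)) (x : Ω)
    (hs : Stays t Q w x) (e : Ω × Fin 2) (h : LemmaK_chain t P w x e ≠ 0) :
    Q e.1 ∧ Q (t e.2 e.1) := by
  induction w generalizing x with
  | nil => exact absurd rfl h
  | cons l w ih =>
    have hx : Q x := hs.1
    have hx' : Q (step t l x) := LemmaK_stays_start t hs.2
    by_cases he : LemmaK_edge t l x e = 0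
    · have h2 : (LemmaK_edge t l x +
        (if P (step t l x) then LemmaK_chain t P w (step t l x) else 0)) e ≠ 0 := h
      rw [Pi.add_apply, he, zero_add] at h2
      by_cases hP : P (step t l x)
      · rw [if_pos hP] at h2
        exact ih _ hs.2 h2
      · rw [if_neg hP] at h2
        exact absurd rfl h2
    · obtain ⟨-, ⟨h1, h2⟩ | ⟨h1, h2⟩⟩ := LemmaK_edge_supp l x e he
      · rw [h2, h1]; exact ⟨hx, hx'⟩
      · rw [h2, h1]; exact ⟨hx', hx⟩

open Classical in
theorem LemmaK_chain_supp' {P : Ω → Prop} (w : List (Fin 2 × Bool)) (x : Ω)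
    (hx : P x) (e : Ω × Fin 2) (h : LemmaK_chain t P w x e ≠ 0) :
    P e.1 ∨ P (t e.2 e.1) := by
  induction w generalizing x with
  | nil => exact absurd rfl h
  | cons l w ih =>
    by_cases he : LemmaK_edge t l x e = 0
    · have h2 : (LemmaK_edge t l x +
        (if P (step t l x) then LemmaK_chain t P w (step t l x) else 0)) e ≠ 0 := h
      rw [Pi.add_apply, he, zero_add] at h2
      by_cases hP : P (step t l x)
      · rw [if_pos hP] at h2
        exact ih _ hP h2
      · rw [if_neg hP] at h2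
        exact absurd rfl h2
    · obtain ⟨-, ⟨h1, -⟩ | ⟨-, h2⟩⟩ := LemmaK_edge_supp l x e he
      · left; rw [h1]; exact hx
      · right; rw [h2]; exact hx

open Classical in
theorem LemmaK_chain_cons_apply {P : Ω → Prop} (l : Fin 2 × Bool) (w : List (Fin 2 × Bool))
    (x : Ω) (e : Ω × Fin 2) (h : LemmaK_chain t P w (step t l x) e = 0) :
    LemmaK_chain t P (l :: w) x e = LemmaK_edge t l x e := by
  have h6 : LemmaK_chain t P (l :: w) x = LemmaK_edge t l x +
    (if P (step t l x) then LemmaK_chain t P w (step t l x) else 0) := rfl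
  rw [h6, Pi.add_apply]
  by_cases h7 : P (step t l x)
  · rw [if_pos h7, h, add_zero]
  · rw [if_neg h7, Pi.zero_apply, add_zero]

/-- boundary of a chain -/
def LemmaK_bd (t : Fin 2 → Perm Ω) (c : Ω × Fin 2 → ℚ) (y : Ω) : ℚ :=
  ∑ s : Fin 2, (c ((t s)⁻¹ y, s) - c (y, s))

open Classical in
theorem LemmaK_bd_edge (l : Fin 2 × Bool) (x y : Ω) :
    LemmaK_bd t (LemmaK_edge t l x) y =
      (if y = step t l x then 1 else 0) - (if y = x then 1 else 0) := by
  obtain ⟨s, b⟩ := l
  unfold LemmaK_bd LemmaK_edge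
  rw [Finset.sum_eq_single s]
  · cases b with
    | true =>
      have h1 : ((t s)⁻¹ y = x) ↔ (y = t s x) := Equiv.Perm.inv_eq_iff_eq
      simp only [step, if_true, Prod.mk.injEq, and_true, h1]
    | false =>
      have h1 : ((t s)⁻¹ y = (t s)⁻¹ x) ↔ (y = x) := (t s)⁻¹.injective.eq_iff
      simp only [step, Bool.false_eq_true, if_false, Prod.mk.injEq, and_true, h1]
      generalize (t s)⁻¹ x = z
      by_cases h2 : y = x
      · by_cases h3 : y = z
        · rw [if_pos h2, if_pos h3, if_pos h3, if_pos h2]; norm_num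
        · rw [if_pos h2, if_neg h3, if_neg h3, if_pos h2]; norm_num
      · by_cases h3 : y = z
        · rw [if_neg h2, if_pos h3, if_pos h3, if_neg h2]; norm_num
        · rw [if_neg h2, if_neg h3, if_neg h3, if_neg h2]
  · intro s' _ hs'
    have hne : ∀ z z' : Ω, ¬ ((z, s') = (z', s)) := by
      intro z z' h
      exact hs' (congrArg Prod.snd h)
    cases b with
    | true => simp [hs']
    | false => simp [hs']
  · intro h
    exact absurd (Finset.mem_univ s) h

open Classical in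
theorem LemmaK_bd_chain {P : Ω → Prop} (w : List (Fin 2 × Bool)) (x y : Ω) (hx : P x)
    (hy : P y) (he : LemmaK_exits t P w x) :
    LemmaK_bd t (LemmaK_chain t P w x) y = - (if y = x then 1 else 0) := by
  induction w generalizing x with
  | nil => exact absurd he id
  | cons l w ih =>
    have hadd : ∀ c c' : Ω × Fin 2 → ℚ, LemmaK_bd t (c + c') y =
        LemmaK_bd t c y + LemmaK_bd t c' y := by
      intro c c'
      unfold LemmaK_bd
      rw [← Finset.sum_add_distrib]
      apply Finset.sum_congr rfl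
      intro s _
      simp only [Pi.add_apply]
      ring
    have h0 : LemmaK_bd t 0 y = 0 := by
      unfold LemmaK_bd
      simp
    have h1 : LemmaK_chain t P (l :: w) x = LemmaK_edge t l x +
      (if P (step t l x) then LemmaK_chain t P w (step t l x) else 0) := rfl
    rw [h1, hadd, LemmaK_bd_edge]
    by_cases hP : P (step t l x)
    · rw [if_pos hP, ih _ hP (he.resolve_left (fun h => h hP))]
      ring
    · rw [if_neg hP, h0]
      have : y ≠ step t l x := fun h => hP (h ▸ hy)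
      rw [if_neg this]
      ring

end general

/-! ### the product with a group -/

section lift

variable {S G : Type*} [Group G]

theorem LemmaK_step_snd (t : Fin 2 → Perm S) (γ : Fin 2 → G) (l : Fin 2 × Bool) (x : S × G) :
    step (liftAct t γ) l x = (step t l x.1, x.2 * cond l.2 (γ l.1) (γ l.1)⁻¹) := by
  obtain ⟨s, b⟩ := l
  cases b with
  | true =>
    simp only [step, if_true, cond_true]
    rfl
  | false =>
    simp only [step, Bool.false_eq_true, if_false, cond_false]
    rw [Equiv.Perm.inv_eq_iff_eq]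
    apply Prod.ext
    · simp [liftAct]
    · simp [liftAct]

theorem LemmaK_walk_snd (t : Fin 2 → Perm S) (γ : Fin 2 → G) (w : List (Fin 2 × Bool))
    (x : S × G) :
    (walk (liftAct t γ) w x).2 = x.2 * FreeGroup.lift γ (FreeGroup.mk w) := by
  induction w generalizing x with
  | nil => simp [walk, ← FreeGroup.one_eq_mk]
  | cons l w ih =>
    have h1 : walk (liftAct t γ) (l :: w) x = walk (liftAct t γ) w (step (liftAct t γ) l x) := rfl
    rw [h1, ih, LemmaK_step_snd]
    simp only [FreeGroup.lift_mk, List.map_cons, List.prod_cons, mul_assoc]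

theorem LemmaK_fst_map (t : Fin 2 → Perm S) (γ : Fin 2 → G) (s : Fin 2) (x : S × G) :
    Prod.fst (liftAct t γ s x) = t s (Prod.fst x) := rfl

theorem LemmaK_exists_exit (c : G) (hc : ∀ n : ℕ, 0 < n → c ^ n ≠ 1) (Φ : Finset G) (k : G) :
    ∃ n : ℕ, k * c ^ n ∉ Φ := by
  by_contra hcon
  push Not at hcon
  have hinj : Function.Injective (fun n : ℕ => k * c ^ n) := by
    have hc' : ¬ IsOfFinOrder c := by
      rw [isOfFinOrder_iff_pow_eq_one]
      rintro ⟨n, hn, h⟩
      exact hc n hn h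
    intro m n h
    exact (injective_pow_iff_not_isOfFinOrder.mpr hc') (mul_left_cancel h)
  have h1 := Set.infinite_range_of_injective hinj
  apply h1
  apply Set.Finite.subset (Finset.finite_toSet Φ)
  rintro _ ⟨n, rfl⟩
  exact hcon n

/-- some power of a loop leaves `Φ` -/
theorem LemmaK_exists_path (t : Fin 2 → Perm S) (γ : Fin 2 → G) (Φ : Finset G)
    (w₀ w : List (Fin 2 × Bool))
    (hc : ∀ n : ℕ, 0 < n → (FreeGroup.lift γ (FreeGroup.mk w)) ^ n ≠ 1) (x : S × G)
    (hx : x.2 ∈ Φ) :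
    ∃ n : ℕ, LemmaK_exits (liftAct t γ) (fun y => y.2 ∈ Φ) (w₀ ++ LemmaK_rep n w) x := by
  obtain ⟨n, hn⟩ := LemmaK_exists_exit _ hc Φ (x.2 * FreeGroup.lift γ (FreeGroup.mk w₀))
  refine ⟨n, LemmaK_exits_of_end _ _ hx ?_⟩
  rw [LemmaK_walk_snd, ← FreeGroup.mul_mk, map_mul, LemmaK_mk_rep, map_pow, ← mul_assoc]
  exact hn

end lift

/-- the number of edges meeting a Folner set -/
theorem LemmaK_card_edges {S G' : Type} [Group G'] [DecidableEq S] [DecidableEq G']
    (t : Fin 2 → Perm S) (γ' : Fin 2 → G') (V : Finset S)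
    (hE : Nat.card {e : S × Fin 2 // e.1 ∈ V ∧ t e.2 e.1 ∈ V} ≤ V.card + 1)
    (ε : ℝ) (hε : 0 ≤ ε) (Φ : Finset G')
    (hΦ : ∀ s, (Nat.card {g : G' // g ∈ Φ ∧ g * γ' s ∉ Φ} : ℝ) ≤ ε * Φ.card) :
    ∃ 𝓔 : Finset ((S × G') × Fin 2),
      (∀ e : (S × G') × Fin 2, e ∈ 𝓔 ↔ (e.1.1 ∈ V ∧ t e.2 e.1.1 ∈ V) ∧
        (e.1.2 ∈ Φ ∨ e.1.2 * γ' e.2 ∈ Φ)) ∧
      (𝓔.card : ℝ) ≤ (V.card + 1) * ((1 + ε) * Φ.card) := by
  classical
  set Ef : Finset (S × Fin 2) := (V ×ˢ Finset.univ).filter (fun e => t e.2 e.1 ∈ V) with hEf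
  have hEf' : ∀ e : S × Fin 2, e ∈ Ef ↔ (e.1 ∈ V ∧ t e.2 e.1 ∈ V) := by
    intro e
    rw [hEf, Finset.mem_filter, Finset.mem_product]
    simp
  have hcardE : Ef.card ≤ V.card + 1 := by
    rw [← Nat.subtype_card Ef hEf']
    exact hE
  set A : Fin 2 → Finset G' := fun s => Φ ∪ Φ.image (fun h => h * (γ' s)⁻¹) with hA
  have hAmem : ∀ s h, h ∈ A s ↔ (h ∈ Φ ∨ h * γ' s ∈ Φ) := by
    intro s h
    simp only [hA, Finset.mem_union, Finset.mem_image]
    constructor
    · rintro (h1 | ⟨k, hk, rfl⟩)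
      · exact Or.inl h1
      · right; simpa using hk
    · rintro (h1 | h1)
      · exact Or.inl h1
      · exact Or.inr ⟨h * γ' s, h1, by simp⟩
  have hAcard : ∀ s, ((A s).card : ℝ) ≤ (1 + ε) * Φ.card := by
    intro s
    have h1 : (Φ ∪ Φ.image (fun h => h * (γ' s)⁻¹)).card +
        (Φ ∩ Φ.image (fun h => h * (γ' s)⁻¹)).card = Φ.card +
        (Φ.image (fun h => h * (γ' s)⁻¹)).card := Finset.card_union_add_card_inter _ _
    have h2 : (Φ.image (fun h => h * (γ' s)⁻¹)).card = Φ.card :=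
      Finset.card_image_of_injective _ (mul_left_injective _)
    have h3 : Φ ∩ Φ.image (fun h => h * (γ' s)⁻¹) = Φ.filter (fun h => h * γ' s ∈ Φ) := by
      ext h
      simp only [Finset.mem_inter, Finset.mem_image, Finset.mem_filter]
      constructor
      · rintro ⟨h1, k, hk, rfl⟩
        exact ⟨h1, by simpa using hk⟩
      · rintro ⟨h1, h2⟩
        exact ⟨h1, h * γ' s, h2, by simp⟩
    have h4 : (Φ.filter (fun h => h * γ' s ∈ Φ)).card +
        (Φ.filter (fun h => ¬ h * γ' s ∈ Φ)).card = Φ.card :=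
      Finset.card_filter_add_card_filter_not _
    have h5 : Nat.card {g : G' // g ∈ Φ ∧ g * γ' s ∉ Φ} =
        (Φ.filter (fun h => ¬ h * γ' s ∈ Φ)).card :=
      Nat.subtype_card _ (fun g => by simp)
    have h6 := hΦ s
    rw [h5] at h6
    rw [h3, h2] at h1
    have h7 : (A s).card = Φ.card + (Φ.filter (fun h => ¬ h * γ' s ∈ Φ)).card := by
      show (Φ ∪ Φ.image (fun h => h * (γ' s)⁻¹)).card = _
      omega
    rw [h7]
    push_cast
    linarith
  refine ⟨Ef.biUnion (fun e => (A e.2).image (fun h => ((e.1, h), e.2))), ?_, ?_⟩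
  · rintro ⟨⟨v, h⟩, s⟩
    simp only [Finset.mem_biUnion, Finset.mem_image]
    constructor
    · rintro ⟨⟨v', s'⟩, he, k, hk, heq⟩
      simp only [Prod.mk.injEq] at heq
      obtain ⟨⟨rfl, rfl⟩, rfl⟩ := heq
      exact ⟨(hEf' _).mp he, (hAmem _ _).mp hk⟩
    · rintro ⟨h1, h2⟩
      exact ⟨(v, s), (hEf' _).mpr h1, h, (hAmem _ _).mpr h2, rfl⟩
  · have h1 : (Ef.biUnion (fun e => (A e.2).image (fun h => ((e.1, h), e.2)))).card ≤
        ∑ e ∈ Ef, (A e.2).card :=
      Finset.card_biUnion_le.trans (Finset.sum_le_sum fun e _ => Finset.card_image_le)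
    have h2 : ((∑ e ∈ Ef, (A e.2).card : ℕ) : ℝ) ≤ ∑ e ∈ Ef, (1 + ε) * (Φ.card : ℝ) := by
      push_cast
      exact Finset.sum_le_sum fun e _ => hAcard e.2
    rw [Finset.sum_const, nsmul_eq_mul] at h2
    have h3 : (0 : ℝ) ≤ (1 + ε) * Φ.card := by positivity
    calc ((Ef.biUnion (fun e => (A e.2).image (fun h => ((e.1, h), e.2)))).card : ℝ)
        ≤ ((∑ e ∈ Ef, (A e.2).card : ℕ) : ℝ) := by exact_mod_cast h1
      _ ≤ Ef.card * ((1 + ε) * Φ.card) := h2
      _ ≤ (V.card + 1) * ((1 + ε) * Φ.card) := by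
          apply mul_le_mul_of_nonneg_right _ h3
          exact_mod_cast hcardE

theorem lemmaK {S G : Type} [Group G] [LinearOrder G] [MulLeftStrictMono G]
    (t : Fin 2 → Perm S) (γ : Fin 2 → G) (hγ : ∀ s, γ s ≠ 1) (V : Finset S) (v0 : S)
    (hE : Nat.card {e : S × Fin 2 // e.1 ∈ V ∧ t e.2 e.1 ∈ V} ≤ V.card + 1)
    (hconn : ∀ v ∈ V, ∃ w, Stays t (· ∈ V) w v ∧ walk t w v = v0)
    (u : List (Fin 2 × Bool)) (hu : Stays t (· ∈ V) u v0) (hu' : walk t u v0 = v0)
    (hu1 : FreeGroup.mk u ≠ 1)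
    (hQ : ∀ W : Finset (FreeGroup (Fin 2)), 1 ∉ W → ∃ (G' : Type) (_ : Group G')
      (γ' : Fin 2 → G') (ρ : G' →* G), (∀ s, ρ (γ' s) = γ s) ∧
      (∀ w ∈ W, ∀ n : ℕ, 0 < n → (FreeGroup.lift γ' w) ^ n ≠ 1) ∧ Folner γ') :
    ∀ g v v', v ∈ V → v' ∈ V → Good t γ (· ∈ V) g v → Good t γ (· ∈ V) g v' → v = v' := by
  classical
  intro g p p' hp hp' hgood hgood'
  by_contra hne
  set P : Fin 2 → S := ![p, p'] with hP
  have hPV : ∀ i, P i ∈ V := by
    intro i
    fin_cases i
    · exact hp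
    · exact hp'
  have hPinj : ∀ i j, P i = P j → i = j := by
    intro i j hij
    fin_cases i <;> fin_cases j
    · rfl
    · exact absurd hij hne
    · exact absurd hij.symm hne
    · rfl
  have hG : ∀ i s, ∃ w, Stays (liftAct t γ) (fun y => y.1 ∈ V ∧ y.2 < g) w (low t γ s (P i, g)) ∧
      walk (liftAct t γ) w (low t γ s (P i, g)) = low t γ s (P i, g) ∧ FreeGroup.mk w ≠ 1 := by
    intro i s
    fin_cases i
    · exact hgood s
    · exact hgood' s
  choose W hW1 hW2 hW3 using hG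
  obtain ⟨G', _, γ', ρ, hρ, hinf, hF⟩ := hQ (insert (FreeGroup.mk u)
    (Finset.univ.image (fun q : Fin 2 × Fin 2 => FreeGroup.mk (W q.1 q.2)))) (by
      rw [Finset.mem_insert, Finset.mem_image]
      rintro (h | ⟨q, -, h⟩)
      · exact hu1 h.symm
      · exact hW3 _ _ h)
  have hinfu : ∀ n : ℕ, 0 < n → (FreeGroup.lift γ' (FreeGroup.mk u)) ^ n ≠ 1 :=
    hinf _ (Finset.mem_insert_self _ _)
  have hinfW : ∀ i s, ∀ n : ℕ, 0 < n → (FreeGroup.lift γ' (FreeGroup.mk (W i s))) ^ n ≠ 1 :=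
    fun i s => hinf _ (Finset.mem_insert_of_mem
      (Finset.mem_image.mpr ⟨(i, s), Finset.mem_univ _, rfl⟩))
  have hεpos : (0 : ℝ) < 1 / (V.card + 2) := by positivity
  obtain ⟨Φ, hΦne, hΦ⟩ := hF _ hεpos
  obtain ⟨𝓔, h𝓔, hcard⟩ := LemmaK_card_edges t γ' V hE _ hεpos.le Φ hΦ
  set T : Fin 2 → Perm (S × G') := liftAct t γ' with hT
  set PΦ : S × G' → Prop := fun y => y.2 ∈ Φ with hPΦ
  set a : Fin 2 → Fin 2 × Bool := fun s => (s, decide (γ s < 1)) with ha
  have hlow : ∀ s x, low t γ s x = step (liftAct t γ) (a s) x := by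
    intro s x
    unfold low step
    simp only [ha]
    by_cases h : γ s < 1
    · simp [h]
    · simp [h]
  -- the paths below the two vertices
  have hpath : ∀ (i s : Fin 2) (h : {h // h ∈ Φ}), ∃ w : List (Fin 2 × Bool),
      LemmaK_exits T PΦ (a s :: w) (P i, h.1) ∧
      Stays T (fun y => y.1 ∈ V ∧ ρ y.2 < ρ h.1) w (step T (a s) (P i, h.1)) := by
    intro i s h
    obtain ⟨n, hn⟩ := LemmaK_exists_path t γ' Φ [a s] (W i s) (hinfW i s) (P i, h.1) h.2
    refine ⟨LemmaK_rep n (W i s), hn, ?_⟩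
    set Ψ : S × G' → S × G := fun y => (y.1, g * (ρ h.1)⁻¹ * ρ y.2) with hΨdef
    have hΨ : ∀ s x, Ψ (T s x) = liftAct t γ s (Ψ x) := by
      intro s x
      apply Prod.ext
      · rfl
      · show g * (ρ h.1)⁻¹ * ρ (x.2 * γ' s) = g * (ρ h.1)⁻¹ * ρ x.2 * γ s
        rw [map_mul, hρ, mul_assoc, mul_assoc, mul_assoc]
    have hΨ0 : Ψ (P i, h.1) = (P i, g) := by
      simp [hΨdef]
    have h1 : Stays (liftAct t γ) (fun y => y.1 ∈ V ∧ y.2 < g) (LemmaK_rep n (W i s))
        (Ψ (step T (a s) (P i, h.1))) := by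
      rw [LemmaK_step_map Ψ hΨ, hΨ0, ← hlow]
      exact LemmaK_stays_rep (hW1 i s) (hW2 i s) n
    rw [LemmaK_stays_map Ψ hΨ] at h1
    refine LemmaK_stays_mono T (fun y hy => ⟨hy.1, ?_⟩) h1
    have h2 : g * (ρ h.1)⁻¹ * ρ y.2 < g := hy.2
    by_contra h3
    push Not at h3
    rcases eq_or_lt_of_le h3 with h4 | h4
    · rw [← h4] at h2
      simp at h2
    · have h5 : g * (ρ h.1)⁻¹ * ρ h.1 < g * (ρ h.1)⁻¹ * ρ y.2 := mul_lt_mul_right h4 _
      rw [inv_mul_cancel_right] at h5
      exact lt_asymm h5 h2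
  choose wp hwp1 hwp2 using hpath
  -- the paths which show that the boundary map is surjective
  have hz : ∀ (q : {q // q ∈ V}) (h : {h // h ∈ Φ}), ∃ w : List (Fin 2 × Bool),
      LemmaK_exits T PΦ w (q.1, h.1) ∧ Stays T (fun y => y.1 ∈ V) w (q.1, h.1) := by
    intro q h
    obtain ⟨wq, h1, h2⟩ := hconn q.1 q.2
    obtain ⟨n, hn⟩ := LemmaK_exists_path t γ' Φ wq u hinfu (q.1, h.1) h.2
    refine ⟨wq ++ LemmaK_rep n u, hn, ?_⟩
    have h3 : Stays t (· ∈ V) (wq ++ LemmaK_rep n u) q.1 := by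
      apply LemmaK_stays_append t h1
      rw [h2]
      exact LemmaK_stays_rep hu hu' n
    exact (LemmaK_stays_map (t' := T) Prod.fst (fun s x => rfl) (· ∈ V) _ (q.1, h.1)).mp h3
  choose wz hwz1 hwz2 using hz
  set F : ({q // q ∈ V} × {h // h ∈ Φ}) ⊕ (Fin 2 × {h // h ∈ Φ}) → (S × G') × Fin 2 → ℚ :=
    Sum.elim (fun x => LemmaK_chain T PΦ (wz x.1 x.2) (x.1.1, x.2.1))
      (fun x => LemmaK_chain T PΦ (a 0 :: wp x.1 0 x.2) (P x.1, x.2.1) -
        LemmaK_chain T PΦ (a 1 :: wp x.1 1 x.2) (P x.1, x.2.1)) with hFdef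
  have hchsupp : ∀ (w : List (Fin 2 × Bool)) (x : S × G'), PΦ x →
      Stays T (fun y => y.1 ∈ V) w x → ∀ e, LemmaK_chain T PΦ w x e ≠ 0 → e ∈ 𝓔 := by
    intro w x hx hs e he
    rw [h𝓔]
    exact ⟨LemmaK_chain_supp w x hs e he, LemmaK_chain_supp' w x hx e he⟩
  have hwpV : ∀ i s h, Stays T (fun y => y.1 ∈ V) (a s :: wp i s h) (P i, h.1) := fun i s h =>
    ⟨hPV i, LemmaK_stays_mono T (fun y hy => hy.1) (hwp2 i s h)⟩
  have hsupp : ∀ x e, F x e ≠ 0 → e ∈ 𝓔 := by
    rintro (⟨q, h⟩ | ⟨i, h⟩) e he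
    · exact hchsupp _ _ h.2 (hwz2 q h) e he
    · by_contra hcon
      apply he
      have h1 : LemmaK_chain T PΦ (a 0 :: wp i 0 h) (P i, h.1) e = 0 := by
        by_contra h2
        exact hcon (hchsupp _ _ h.2 (hwpV i 0 h) e h2)
      have h1' : LemmaK_chain T PΦ (a 1 :: wp i 1 h) (P i, h.1) e = 0 := by
        by_contra h2
        exact hcon (hchsupp _ _ h.2 (hwpV i 1 h) e h2)
      show LemmaK_chain T PΦ (a 0 :: wp i 0 h) (P i, h.1) e -
        LemmaK_chain T PΦ (a 1 :: wp i 1 h) (P i, h.1) e = 0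
      rw [h1, h1', sub_zero]
  have hbdl : ∀ (q : {q // q ∈ V}) (h : {h // h ∈ Φ}) (y : S × G'), PΦ y →
      LemmaK_bd T (F (Sum.inl (q, h))) y = - (if y = (q.1, h.1) then 1 else 0) := by
    intro q h y hy
    have hx : PΦ (q.1, h.1) := h.2
    have h1 : LemmaK_bd T (F (Sum.inl (q, h))) y = _ :=
      LemmaK_bd_chain _ _ _ hx hy (hwz1 q h)
    by_cases h2 : y = (q.1, h.1)
    · rw [if_pos h2] at h1 ⊢
      exact h1
    · rw [if_neg h2] at h1 ⊢
      exact h1
  have hbdr : ∀ (i : Fin 2) (h : {h // h ∈ Φ}) (y : S × G'), PΦ y →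
      LemmaK_bd T (F (Sum.inr (i, h))) y = 0 := by
    intro i h y hy
    have h1 : LemmaK_bd T (F (Sum.inr (i, h))) y =
        LemmaK_bd T (LemmaK_chain T PΦ (a 0 :: wp i 0 h) (P i, h.1)) y -
        LemmaK_bd T (LemmaK_chain T PΦ (a 1 :: wp i 1 h) (P i, h.1)) y := by
      unfold LemmaK_bd
      rw [← Finset.sum_sub_distrib]
      apply Finset.sum_congr rfl
      intro s _
      show (LemmaK_chain T PΦ (a 0 :: wp i 0 h) (P i, h.1) _ -
        LemmaK_chain T PΦ (a 1 :: wp i 1 h) (P i, h.1) _) -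
        (LemmaK_chain T PΦ (a 0 :: wp i 0 h) (P i, h.1) _ -
        LemmaK_chain T PΦ (a 1 :: wp i 1 h) (P i, h.1) _) = _
      ring
    have hx : PΦ (P i, h.1) := h.2
    rw [h1, LemmaK_bd_chain _ _ _ hx hy (hwp1 i 0 h), LemmaK_bd_chain _ _ _ hx hy (hwp1 i 1 h),
      sub_self]
  have hlin : LinearIndependent ℚ (fun x => fun e : {e // e ∈ 𝓔} => F x e.1) := by
    rw [Fintype.linearIndependent_iff]
    intro c hc
    have hall : ∀ e, ∑ x, c x * F x e = 0 := by
      intro e
      by_cases he : e ∈ 𝓔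
      · have := congrFun hc ⟨e, he⟩
        simpa [Finset.sum_apply] using this
      · apply Finset.sum_eq_zero
        intro x _
        have : F x e = 0 := by
          by_contra h
          exact he (hsupp x e h)
        rw [this, mul_zero]
    have hbdsum : ∀ y, ∑ x, c x * LemmaK_bd T (F x) y = 0 := by
      intro y
      unfold LemmaK_bd
      have h1 : ∀ x, c x * ∑ s : Fin 2, (F x ((T s)⁻¹ y, s) - F x (y, s)) =
          ∑ s : Fin 2, (c x * F x ((T s)⁻¹ y, s) - c x * F x (y, s)) := by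
        intro x
        rw [Finset.mul_sum]
        apply Finset.sum_congr rfl
        intro s _
        ring
      simp_rw [h1]
      rw [Finset.sum_comm]
      apply Finset.sum_eq_zero
      intro s _
      rw [Finset.sum_sub_distrib, hall, hall, sub_zero]
    have hinl : ∀ x, c (Sum.inl x) = 0 := by
      rintro ⟨q, h⟩
      have h1 := hbdsum (q.1, h.1)
      have hy : PΦ (q.1, h.1) := h.2
      rw [Fintype.sum_sum_type] at h1
      have h2 : ∑ x : Fin 2 × {h // h ∈ Φ}, c (Sum.inr x) *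
          LemmaK_bd T (F (Sum.inr x)) (q.1, h.1) = 0 := by
        apply Finset.sum_eq_zero
        rintro ⟨i, k⟩ _
        rw [hbdr i k _ hy, mul_zero]
      rw [h2, add_zero, Finset.sum_eq_single (q, h)] at h1
      · rw [hbdl q h _ hy, if_pos rfl] at h1
        linarith
      · rintro ⟨q', h'⟩ _ hne'
        rw [hbdl q' h' _ hy, if_neg, neg_zero, mul_zero]
        intro heq
        apply hne'
        rw [Prod.mk.injEq] at heq
        exact Prod.ext (Subtype.ext heq.1.symm) (Subtype.ext heq.2.symm)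
      · intro h3
        exact absurd (Finset.mem_univ _) h3
    have hinr : ∀ x, c (Sum.inr x) = 0 := by
      by_contra hcon
      push Not at hcon
      obtain ⟨x₁, hx₁⟩ := hcon
      obtain ⟨⟨i, h⟩, hx, hmax⟩ := Finset.exists_max_image
        (Finset.univ.filter (fun x : Fin 2 × {h // h ∈ Φ} => c (Sum.inr x) ≠ 0))
        (fun x => ρ x.2.1) ⟨x₁, by rw [Finset.mem_filter]; exact ⟨Finset.mem_univ _, hx₁⟩⟩
      rw [Finset.mem_filter] at hx
      obtain ⟨e, he2, heP, hee⟩ := LemmaK_exists_edge (t := T) (a 0) (P i, h.1)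
      have h1 := hall e
      rw [Fintype.sum_sum_type] at h1
      have h2 : ∑ x : {q // q ∈ V} × {h // h ∈ Φ}, c (Sum.inl x) * F (Sum.inl x) e = 0 := by
        apply Finset.sum_eq_zero
        intro x _
        rw [hinl, zero_mul]
      -- the lower parts of the paths do not meet `(P i, h)`
      have hC0 : ∀ (j s : Fin 2) (k : {h // h ∈ Φ}), ρ k.1 ≤ ρ h.1 →
          LemmaK_chain T PΦ (wp j s k) (step T (a s) (P j, k.1)) e = 0 := by
        intro j s k hk
        by_contra hcon2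
        have := LemmaK_chain_supp (Q := fun y => y.1 ∈ V ∧ ρ y.2 < ρ k.1) _ _ (hwp2 j s k) e hcon2
        rcases heP with h5 | h5
        · rw [h5] at this
          exact absurd this.1.2 (not_lt.mpr hk)
        · rw [h5] at this
          exact absurd this.2.2 (not_lt.mpr hk)
      have hcons : ∀ (j s : Fin 2) (k : {h // h ∈ Φ}), ρ k.1 ≤ ρ h.1 →
          LemmaK_chain T PΦ (a s :: wp j s k) (P j, k.1) e =
            LemmaK_edge T (a s) (P j, k.1) e := by
        intro j s k hk
        exact LemmaK_chain_cons_apply _ _ _ _ (hC0 j s k hk)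
      rw [h2, zero_add, Finset.sum_eq_single (i, h)] at h1
      · have h8 : F (Sum.inr (i, h)) e = LemmaK_edge T (a 0) (P i, h.1) e := by
          show LemmaK_chain T PΦ (a 0 :: wp i 0 h) (P i, h.1) e -
            LemmaK_chain T PΦ (a 1 :: wp i 1 h) (P i, h.1) e = _
          rw [hcons i 0 h le_rfl, hcons i 1 h le_rfl]
          have h9 : LemmaK_edge T (a 1) (P i, h.1) e = 0 := by
            by_contra h10
            have h11 := (LemmaK_edge_supp (a 1) (P i, h.1) e h10).1
            rw [he2] at h11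
            exact absurd h11 (by simp [ha])
          rw [h9, sub_zero]
        rw [h8] at h1
        rcases mul_eq_zero.mp h1 with h12 | h12
        · exact hx.2 h12
        · exact hee h12
      · rintro ⟨j, k⟩ _ hne'
        by_cases hck : c (Sum.inr (j, k)) = 0
        · rw [hck, zero_mul]
        · have hk : ρ k.1 ≤ ρ h.1 := hmax (j, k) (by
            rw [Finset.mem_filter]; exact ⟨Finset.mem_univ _, hck⟩)
          have hzero : ∀ s, LemmaK_edge T (a s) (P j, k.1) e = 0 := by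
            intro s
            by_contra h13
            obtain ⟨-, ⟨h14, h15⟩ | ⟨h14, h15⟩⟩ := LemmaK_edge_supp (a s) (P j, k.1) e h13
            all_goals
              have h16 := LemmaK_stays_start T (hwp2 j s k)
              rcases heP with h5 | h5
            · rw [h5] at h14
              rw [Prod.mk.injEq] at h14
              exact hne' (Prod.ext (hPinj _ _ h14.1).symm (Subtype.ext h14.2.symm))
            · rw [h5] at h15
              rw [← h15] at h16
              exact absurd h16.2 (not_lt.mpr hk)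
            · rw [h5] at h14
              rw [← h14] at h16
              exact absurd h16.2 (not_lt.mpr hk)
            · rw [h5] at h15
              rw [Prod.mk.injEq] at h15
              exact hne' (Prod.ext (hPinj _ _ h15.1).symm (Subtype.ext h15.2.symm))
          have h17 : F (Sum.inr (j, k)) e = 0 := by
            show LemmaK_chain T PΦ (a 0 :: wp j 0 k) (P j, k.1) e -
              LemmaK_chain T PΦ (a 1 :: wp j 1 k) (P j, k.1) e = 0
            rw [hcons j 0 k hk, hcons j 1 k hk, hzero 0, hzero 1, sub_zero]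
          rw [h17, mul_zero]
      · intro h3
        exact absurd (Finset.mem_univ _) h3
    rintro (x | x)
    · exact hinl x
    · exact hinr x
  have hle := hlin.fintype_card_le_finrank
  rw [Module.finrank_fintype_fun_eq_card, Fintype.card_coe, Fintype.card_sum, Fintype.card_prod,
    Fintype.card_prod, Fintype.card_coe, Fintype.card_coe, Fintype.card_fin] at hle
  have hle' : ((V.card * Φ.card + 2 * Φ.card : ℕ) : ℝ) ≤ (𝓔.card : ℝ) := by exact_mod_cast hle
  push_cast at hle'
  have hΦpos : (0 : ℝ) < Φ.card := by exact_mod_cast hΦne.card_pos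
  have hfin := hle'.trans hcard
  have hV0 : (0 : ℝ) ≤ V.card := by positivity
  have h18 : ((V.card : ℝ) + 2) * Φ.card ≤ (((V.card : ℝ) + 1) * (1 + 1 / (V.card + 2))) * Φ.card := by
    linarith
  have h19 := le_of_mul_le_mul_right h18 hΦpos
  have h20 : ((V.card : ℝ) + 1) * (1 + 1 / (V.card + 2)) < (V.card : ℝ) + 2 := by
    have h21 : (0 : ℝ) < (V.card : ℝ) + 2 := by positivity
    have h22 : ((V.card : ℝ) + 1) * (1 / (V.card + 2)) < 1 := by
      rw [mul_one_div, div_lt_one h21]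
      linarith
    linarith
  linarith

end SclIso
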