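import Pool.Agent.H.MP_1b0e60_al.Peel
import Pool.Agent.H.MP_1b0e60_al.FolnerStep
import Pool.Agent.H.MP_1b0e60_al.LemmaK
import Pool.Agent.H.MP_1b0e60_al.DerFolner
import Pool.Agent.H.MP_1b0e60_al.Closed
import Pool.Agent.H.MP_1b0e60_al.Graph

/-!
Surfaces in `F_2` bounded by chains of loops in the coset graph of a rank 2 subgroup can be lifted
(up to a small change of the Euler characteristic).
-/

open Equiv Filter Topology

namespace SclIso

/-- the quotient by a term of the derived series -/
private abbrev QD (m : ℕ) : Type := FreeGroup (Fin 2) ⧸ derivedSeries (FreeGroup (Fin 2)) m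

private theorem Iso_torsion (m : ℕ) (x : QD m) (hx : x ≠ 1) (n : ℕ) (hn : 0 < n) : x ^ n ≠ 1 := by
  obtain ⟨o, ho⟩ := derived_order m
  let _ : LinearOrder (QD m) := o
  have _ : MulLeftStrictMono (QD m) := ⟨fun c a b h => ho a b c h⟩
  have _ : MulLeftMono (QD m) := ⟨fun c a b h => by
    rcases eq_or_lt_of_le h with h1 | h1
    · rw [h1]
    · exact (ho a b c h1).le⟩
  rcases lt_or_gt_of_ne hx with h | h
  · exact (pow_lt_one' h hn.ne').ne
  · exact (one_lt_pow' h hn.ne').ne'

private theorem Iso_of_ne (m : ℕ) (hm : 1 ≤ m) (s : Fin 2) :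
    (QuotientGroup.mk (FreeGroup.of s) : QD m) ≠ 1 := by
  intro h
  rw [QuotientGroup.eq_one_iff] at h
  have h1 : FreeGroup.of s ∈ derivedSeries (FreeGroup (Fin 2)) 1 :=
    derivedSeries_antitone _ hm h
  rw [derivedSeries_one, ← Abelianization.ker_of, MonoidHom.mem_ker] at h1
  let f : Abelianization (FreeGroup (Fin 2)) →* Multiplicative ℤ :=
    Abelianization.lift (FreeGroup.lift fun _ => Multiplicative.ofAdd (1 : ℤ))
  have h2 : f (Abelianization.of (FreeGroup.of s)) = 1 := by rw [h1, map_one]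
  have h3 : f (Abelianization.of (FreeGroup.of s)) = Multiplicative.ofAdd (1 : ℤ) := by
    simp [f]
  rw [h3] at h2
  exact absurd h2 (by decide)

/-- uniform separation of a finite set of cosets -/
private theorem Iso_sep (u v : FreeGroup (Fin 2)) (huv : u * v ≠ v * u)
    (V : Finset (FreeGroup (Fin 2) ⧸ Subgroup.closure {u, v})) :
    ∃ m : ℕ, 1 ≤ m ∧ ∀ x y : FreeGroup (Fin 2),
      (QuotientGroup.mk x : FreeGroup (Fin 2) ⧸ Subgroup.closure {u, v}) ∈ V →
      (QuotientGroup.mk y : FreeGroup (Fin 2) ⧸ Subgroup.closure {u, v}) ∈ V →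
      x⁻¹ * y ∈ Subgroup.closure {u, v} ⊔ derivedSeries (FreeGroup (Fin 2)) m →
      (QuotientGroup.mk x : FreeGroup (Fin 2) ⧸ Subgroup.closure {u, v}) = QuotientGroup.mk y := by
  classical
  revert V
  have hcl := closed_of_rank_two u v huv
  generalize Subgroup.closure {u, v} = H at hcl ⊢
  intro V
  have key : ∀ p : (FreeGroup (Fin 2) ⧸ H) × (FreeGroup (Fin 2) ⧸ H), ∃ m : ℕ,
      ∀ x y : FreeGroup (Fin 2), QuotientGroup.mk x = p.1 → QuotientGroup.mk y = p.2 →
      x⁻¹ * y ∈ H ⊔ derivedSeries (FreeGroup (Fin 2)) m → p.1 = p.2 := by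
    intro p
    obtain ⟨⟨a⟩, ⟨b⟩⟩ := p
    by_cases hab : (QuotientGroup.mk a : FreeGroup (Fin 2) ⧸ H) = QuotientGroup.mk b
    · exact ⟨0, fun _ _ _ _ _ => hab⟩
    · have h1 : a⁻¹ * b ∉ H := fun h => hab (QuotientGroup.eq.2 h)
      have h2 : ∃ m, a⁻¹ * b ∉ H ⊔ derivedSeries (FreeGroup (Fin 2)) m := by
        by_contra hcon
        push Not at hcon
        exact h1 (hcl _ hcon)
      obtain ⟨m, hm⟩ := h2
      refine ⟨m, fun x y hx hy hxy => absurd ?_ hm⟩
      have hx' : x⁻¹ * a ∈ H := QuotientGroup.eq.1 hx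
      have hy' : y⁻¹ * b ∈ H := QuotientGroup.eq.1 hy
      have h3 : a⁻¹ * b = (x⁻¹ * a)⁻¹ * (x⁻¹ * y) * (y⁻¹ * b) := by group
      rw [h3]
      exact mul_mem (mul_mem (inv_mem ((le_sup_left : H ≤ _) hx')) hxy)
        ((le_sup_left : H ≤ _) hy')
  choose M hM using key
  refine ⟨(V ×ˢ V).sup M + 1, by omega, ?_⟩
  intro x y hx hy hxy
  have h1 : M (QuotientGroup.mk x, QuotientGroup.mk y) ≤ (V ×ˢ V).sup M :=
    Finset.le_sup (f := M) (Finset.mk_mem_product hx hy)
  exact hM (QuotientGroup.mk x, QuotientGroup.mk y) x y rfl rfl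
    ((sup_le_sup_left (derivedSeries_antitone _ (by omega)) H) hxy)

/-- the component map -/
private def Iso_comp (H : Subgroup (FreeGroup (Fin 2))) (m : ℕ)
    (p : (FreeGroup (Fin 2) ⧸ H) × QD m) :
    FreeGroup (Fin 2) ⧸ (H ⊔ derivedSeries (FreeGroup (Fin 2)) m) :=
  Quotient.map₂ (fun f x => x * f) (by
    intro f f' hf x x' hx
    have hf' : f⁻¹ * f' ∈ H := QuotientGroup.leftRel_apply.1 hf
    have hx' : x⁻¹ * x' ∈ derivedSeries (FreeGroup (Fin 2)) m := QuotientGroup.leftRel_apply.1 hx
    refine QuotientGroup.leftRel_apply.2 ?_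
    have h1 : (x * f)⁻¹ * (x' * f') = (f⁻¹ * (x⁻¹ * x') * f) * (f⁻¹ * f') := by group
    rw [h1]
    refine mul_mem ((le_sup_right : _ ≤ H ⊔ _) ?_) ((le_sup_left : H ≤ _) hf')
    have h2 := (inferInstance : (derivedSeries (FreeGroup (Fin 2)) m).Normal).conj_mem _ hx' f⁻¹
    simpa using h2) p.1 p.2

/-- lifting of surfaces to the coset graph of a rank 2 subgroup -/
theorem graph_iso (a b : List (Fin 2 × Bool))
    (hab : FreeGroup.mk a * FreeGroup.mk b ≠ FreeGroup.mk b * FreeGroup.mk a) :
    ∃ V : Finset (FreeGroup (Fin 2) ⧸ Subgroup.closure {FreeGroup.mk a, FreeGroup.mk b}),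
      Stays (cosetAct _) (· ∈ V) a (QuotientGroup.mk 1) ∧
      Stays (cosetAct _) (· ∈ V) b (QuotientGroup.mk 1) ∧
      ∀ (L : Type) [Finite L] (σ : Perm L)
        (lab : L → ((FreeGroup (Fin 2) ⧸ Subgroup.closure {FreeGroup.mk a, FreeGroup.mk b}) ×
          Fin 2) × Bool),
        IsPath (cosetAct _) σ lab → (∀ x, tl (cosetAct _) (lab x) ∈ V) →
        (∃ π, IsPairing lab π) → ∀ r : ℝ,
        FillLt σ (fun x => mapL Prod.snd (lab x)) r → FillLt σ lab r := by
  obtain ⟨V, hVa, hVb, hconn, hE⟩ := exists_graph a b _ rfl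
  refine ⟨V, hVa, hVb, ?_⟩
  obtain ⟨m, hm1, hm⟩ := Iso_sep (FreeGroup.mk a) (FreeGroup.mk b) hab V
  generalize hH : Subgroup.closure {FreeGroup.mk a, FreeGroup.mk b} = H at *
  intro L _ σ lab hp hV hb r h
  obtain ⟨o, ho⟩ := derived_order m
  let _ : LinearOrder (QD m) := o
  have _ : MulLeftStrictMono (QD m) := ⟨fun c a b h => ho a b c h⟩
  let γ : Fin 2 → QD m := fun s => QuotientGroup.mk (FreeGroup.of s)
  have hγ : ∀ s, γ s ≠ 1 := fun s => Iso_of_ne m hm1 s
  refine folner_step (cosetAct H) γ (derived_folner m) (· ∈ V) ?_ σ lab hp hV hb r h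
  intro L' _ σ' lab' hp' hV' hb' r' h'
  refine peel (cosetAct H) γ hγ (· ∈ V) (Iso_comp H m) ?_ ?_ ?_ σ' lab' hp' hV' hb' r' h'
  · intro v g s
    induction v using QuotientGroup.induction_on with
    | H f =>
      induction g using QuotientGroup.induction_on with
      | H x =>
        change (QuotientGroup.mk (x * FreeGroup.of s * ((FreeGroup.of s)⁻¹ * f)) :
          FreeGroup (Fin 2) ⧸ (H ⊔ derivedSeries (FreeGroup (Fin 2)) m)) =
          QuotientGroup.mk (x * f)
        congr 1
        group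
  · intro v v' g hv hv' hcomp
    induction v using QuotientGroup.induction_on with
    | H f =>
      induction v' using QuotientGroup.induction_on with
      | H f' =>
        induction g using QuotientGroup.induction_on with
        | H x =>
          apply hm f f' hv hv'
          have h1 : (QuotientGroup.mk (x * f) :
            FreeGroup (Fin 2) ⧸ (H ⊔ derivedSeries (FreeGroup (Fin 2)) m)) =
            QuotientGroup.mk (x * f') := hcomp
          rw [QuotientGroup.eq] at h1
          have h2 : (x * f)⁻¹ * (x * f') = f⁻¹ * f' := by group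
          rwa [h2] at h1
  · have ha : FreeGroup.mk a ∈ H := by
      rw [← hH]
      exact Subgroup.subset_closure (by simp)
    refine lemmaK (cosetAct H) γ hγ V (QuotientGroup.mk 1) hE hconn a hVa
      ((mem_iff_walk_cosetAct H a).1 ha) ?_ ?_
    · intro h1
      apply hab
      rw [h1]
      simp
    · intro W hW
      have hW' : ∀ w : FreeGroup (Fin 2), ∃ k, w ∈ W →
          w ∉ derivedSeries (FreeGroup (Fin 2)) k := by
        intro w
        by_cases hw : w ∈ W
        · have h1 : w ≠ 1 := fun h => hW (h ▸ hw)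
          have h2 : ∃ k, w ∉ derivedSeries (FreeGroup (Fin 2)) k := by
            by_contra hcon
            push Not at hcon
            exact h1 (derived_iInf w hcon)
          obtain ⟨k, hk⟩ := h2
          exact ⟨k, fun _ => hk⟩
        · exact ⟨0, fun h => absurd h hw⟩
      choose k hk using hW'
      set m' := max m (W.sup k) with hm'
      have hle : derivedSeries (FreeGroup (Fin 2)) m' ≤ derivedSeries (FreeGroup (Fin 2)) m :=
        derivedSeries_antitone _ (le_max_left _ _)
      refine ⟨QD m', inferInstance, fun s => QuotientGroup.mk (FreeGroup.of s),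
        QuotientGroup.map _ _ (MonoidHom.id _) hle, ?_, ?_, derived_folner m'⟩
      · intro s
        rfl
      · intro w hw n hn
        have h1 : (FreeGroup.lift (fun s : Fin 2 => (QuotientGroup.mk (FreeGroup.of s) : QD m'))) w
            = QuotientGroup.mk w := by
          have h2 : FreeGroup.lift (fun s : Fin 2 => (QuotientGroup.mk (FreeGroup.of s) : QD m'))
              = QuotientGroup.mk' (derivedSeries (FreeGroup (Fin 2)) m') := by
            ext s
            simp
          rw [h2]
          rfl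
        rw [h1]
        apply Iso_torsion m' _ _ n hn
        intro h2
        rw [QuotientGroup.eq_one_iff] at h2
        have h3 : k w ≤ m' := (Finset.le_sup (f := k) hw).trans (le_max_right _ _)
        exact hk w hw (derivedSeries_antitone _ h3 h2)

end SclIso
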