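import Pool.Agent.H.MP_1b0e60_al.Cyc

/-!
Residual finiteness of the free group; covers given by finite quotients.
-/

open Equiv Filter Topology

namespace SclIso

/-- a partial injection of a finite set extends to a permutation -/
private theorem LongCover_extend {α : Type*} [Finite α] (R : α → α → Prop)
    (h1 : ∀ a b c, R a b → R a c → b = c) (h2 : ∀ a b c, R a c → R b c → a = b) :
    ∃ σ : Perm α, ∀ a b, R a b → σ a = b := by
  classical
  have := Fintype.ofFinite α
  have hf : ∀ a : {a // ∃ b, R a b}, ∃ b : {b // ∃ a, R a b}, R a.1 b.1 := by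
    rintro ⟨a, b, hab⟩
    exact ⟨⟨b, a, hab⟩, hab⟩
  choose f hf using hf
  have hbij : Function.Bijective f := by
    constructor
    · intro a b hab
      have ha := hf a
      have hb := hf b
      rw [hab] at ha
      exact Subtype.ext (h2 _ _ _ ha hb)
    · rintro ⟨b, a, hab⟩
      refine ⟨⟨a, b, hab⟩, ?_⟩
      exact Subtype.ext (h1 _ _ _ (hf ⟨a, b, hab⟩) hab)
  let e := Equiv.ofBijective f hbij
  refine ⟨e.extendSubtype, ?_⟩
  intro a b hab
  rw [Equiv.extendSubtype_apply_of_mem e a ⟨b, hab⟩]
  exact h1 _ _ _ (hf ⟨a, b, hab⟩) hab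

private theorem LongCover_one (v : FreeGroup (Fin 2)) (hv : v ≠ 1) :
    ∃ (n : ℕ) (ρ : FreeGroup (Fin 2) →* Perm (Fin n)), ρ v ≠ 1 := by
  classical
  set L := v.toWord with hL
  have hLne : L ≠ [] := by
    intro h
    apply hv
    rwa [hL, FreeGroup.toWord_eq_nil_iff] at h
  have hred : FreeGroup.IsReduced L := FreeGroup.isReduced_toWord
  have hpos : 0 < L.length := List.length_pos_iff.2 hLne
  have hchain : ∀ (i : ℕ) (h : i + 1 < L.length), (L[i]).1 = (L[i+1]).1 → (L[i]).2 = (L[i+1]).2 := by
    intro i h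
    have := List.isChain_iff_getElem.1 hred i (by omega)
    exact this
  -- the partial injections
  let R : Fin 2 → Fin (L.length + 1) → Fin (L.length + 1) → Prop := fun s a b =>
    (∃ h : b.1 < L.length, a.1 = b.1 + 1 ∧ L[b.1] = (s, true)) ∨
    (∃ h : a.1 < L.length, b.1 = a.1 + 1 ∧ L[a.1] = (s, false))
  have hR1 : ∀ s a b c, R s a b → R s a c → b = c := by
    rintro s a b c (⟨h, h1, h2⟩ | ⟨h, h1, h2⟩) (⟨h', h1', h2'⟩ | ⟨h', h1', h2'⟩)
    · exact Fin.ext (by omega)
    · exfalso
      have := hchain b.1 (by omega)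
      have h3 : L[b.1 + 1] = (s, false) := by
        rw [← h2']
        congr 1
        exact h1.symm
      rw [h2, h3] at this
      exact absurd (this rfl) (by simp)
    · exfalso
      have := hchain c.1 (by omega)
      have h3 : L[c.1 + 1] = (s, false) := by
        rw [← h2]
        congr 1
        exact h1'.symm
      rw [h2', h3] at this
      exact absurd (this rfl) (by simp)
    · exact Fin.ext (by omega)
  have hR2 : ∀ s a b c, R s a c → R s b c → a = b := by
    rintro s a b c (⟨h, h1, h2⟩ | ⟨h, h1, h2⟩) (⟨h', h1', h2'⟩ | ⟨h', h1', h2'⟩)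
    · exact Fin.ext (by omega)
    · exfalso
      have := hchain b.1 (by omega)
      have h3 : L[b.1 + 1] = (s, true) := by
        rw [← h2]
        congr 1
        exact h1'.symm
      rw [h2', h3] at this
      exact absurd (this rfl) (by simp)
    · exfalso
      have := hchain a.1 (by omega)
      have h3 : L[a.1 + 1] = (s, true) := by
        rw [← h2']
        congr 1
        exact h1.symm
      rw [h2, h3] at this
      exact absurd (this rfl) (by simp)
    · exact Fin.ext (by omega)
  have hσ : ∀ s, ∃ σ : Perm (Fin (L.length + 1)), ∀ a b, R s a b → σ a = b :=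
    fun s => LongCover_extend (R s) (hR1 s) (hR2 s)
  choose σ hσ using hσ
  refine ⟨L.length + 1, FreeGroup.lift σ, ?_⟩
  have hprod : ∀ j i : ℕ, (hij : i + j = L.length) →
      ((L.drop i).map (fun x : Fin 2 × Bool => cond x.2 (σ x.1) (σ x.1)⁻¹)).prod
        (Fin.last L.length) = ⟨i, by omega⟩ := by
    intro j
    induction j with
    | zero =>
      intro i hi
      have : i = L.length := by omega
      subst this
      rw [List.drop_length]
      rfl
    | succ j ih =>
      intro i hi
      have hi' : i < L.length := by omega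
      rw [List.drop_eq_getElem_cons hi', List.map_cons, List.prod_cons, Perm.mul_apply,
        ih (i + 1) (by omega)]
      rcases hb : (L[i]).2 with - | -
      · rw [cond_false, Perm.inv_eq_iff_eq]
        symm
        apply hσ
        right
        refine ⟨hi', rfl, ?_⟩
        exact Prod.ext rfl hb
      · rw [cond_true]
        apply hσ
        left
        refine ⟨hi', rfl, ?_⟩
        exact Prod.ext rfl hb
  intro h
  have h0 := hprod L.length 0 (by omega)
  rw [List.drop_zero] at h0
  have h1 : FreeGroup.lift σ v =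
      (L.map (fun x : Fin 2 × Bool => cond x.2 (σ x.1) (σ x.1)⁻¹)).prod := by
    conv_lhs => rw [← FreeGroup.mk_toWord (x := v)]
    rw [FreeGroup.lift_mk]
  rw [← h1, h, Perm.one_apply] at h0
  have := congrArg Fin.val h0
  simp only [Fin.val_last] at this
  omega

theorem freeGroup_rf (w : FreeGroup (Fin 2)) (hw : w ≠ 1) (J : ℕ) :
    ∃ (Q : Type) (_ : Group Q) (_ : Finite Q) (ρ : FreeGroup (Fin 2) →* Q),
      ∀ j : ℕ, 1 ≤ j → j ≤ J → ρ w ^ j ≠ 1 := by
  have h : ∀ j : Fin J, ∃ (n : ℕ) (ρ : FreeGroup (Fin 2) →* Perm (Fin n)),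
      ρ (w ^ (j.1 + 1)) ≠ 1 := by
    intro j
    apply LongCover_one
    intro h
    apply hw
    exact (pow_eq_one_iff_left (Nat.succ_ne_zero j.1)).1 h
  choose n ρ hρ using h
  refine ⟨∀ j : Fin J, Perm (Fin (n j)), inferInstance, inferInstance, MonoidHom.pi ρ, ?_⟩
  intro j h1 h2 h3
  have h4 := congrFun h3 (⟨j - 1, by omega⟩ : Fin J)
  apply hρ ⟨j - 1, by omega⟩
  rw [map_pow]
  have h5 : (j - 1) + 1 = j := by omega
  simp only [h5]
  exact h4

/-- the cover of a chain with pairing given by a homomorphism to a finite group -/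
theorem long_cover {ι L K Q : Type} [Finite L] [Group K] [Group Q] [Finite Q] (ρ : K →* Q)
    (σ π : Perm L) (lab : L → ι × Bool) (hπ : IsPairing lab π) (w : L → K)
    (hw : ∀ x, w (π x) = (w x)⁻¹) :
    ∃ σQ πQ : Perm (L × Q),
      (∀ x a, σQ (x, a) = (σ x, a * ρ (w x))) ∧
      IsCover σQ σ Prod.fst (Nat.card Q) ∧ IsPairing (fun x : L × Q => lab x.1) πQ ∧
      E2 σQ πQ = Nat.card Q * E2 σ π ∧
      (∀ x a, Function.minimalPeriod σQ (x, a) =
        Function.minimalPeriod σ x * orderOf (ρ (cycProd σ w x))) := by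
  classical
  let σQ : Perm (L × Q) :=
    { toFun := fun y => (σ y.1, y.2 * ρ (w y.1))
      invFun := fun y => (σ⁻¹ y.1, y.2 * (ρ (w (σ⁻¹ y.1)))⁻¹)
      left_inv := by
        rintro ⟨x, a⟩
        simp
      right_inv := by
        rintro ⟨x, a⟩
        simp }
  let πQ : Perm (L × Q) :=
    { toFun := fun y => (π y.1, y.2 * ρ (w y.1))
      invFun := fun y => (π y.1, y.2 * ρ (w y.1))
      left_inv := by
        rintro ⟨x, a⟩
        simp [hπ.invol, hw]
      right_inv := by
        rintro ⟨x, a⟩
        simp [hπ.invol, hw] }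
  have hσQ : ∀ x a, σQ (x, a) = (σ x, a * ρ (w x)) := fun x a => rfl
  have hπQ : ∀ x a, πQ (x, a) = (π x, a * ρ (w x)) := fun x a => rfl
  refine ⟨σQ, πQ, hσQ, ⟨fun x => rfl, ?_⟩, ⟨?_, ?_⟩, ?_, ?_⟩
  · intro y
    apply Nat.card_congr
    exact
      { toFun := fun x => x.1.2
        invFun := fun a => ⟨(y, a), rfl⟩
        left_inv := by
          rintro ⟨⟨x, a⟩, h⟩
          change x = y at h
          subst h
          rfl
        right_inv := fun a => rfl }
  · rintro ⟨x, a⟩
    rw [hπQ, hπQ, hπ.invol, hw, map_inv, mul_assoc, mul_inv_cancel, mul_one]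
  · rintro ⟨x, a⟩
    exact hπ.lab_inv x
  · have h1 : σQ * πQ = Equiv.prodCongr (σ * π) (Equiv.refl Q) := by
      ext1 y
      obtain ⟨x, a⟩ := y
      rw [Perm.mul_apply, hπQ, hσQ, hw, map_inv, mul_assoc, mul_inv_cancel, mul_one]
      rfl
    unfold E2
    rw [h1, ncyc_prodCongr_refl, Nat.card_prod]
    push_cast
    ring
  · intro x a
    -- the iterates
    have hit : ∀ k : ℕ, ∀ a, σQ^[k] (x, a) =
        ((σ ^ k) x, a * ρ ((List.range k).map (fun i => w ((σ ^ i) x))).prod) := by
      intro k
      induction k with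
      | zero =>
        intro a
        simp
      | succ k ih =>
        intro a
        rw [Function.iterate_succ_apply', ih, hσQ, List.range_succ, List.map_append,
          List.prod_append, List.map_singleton, List.prod_singleton, map_mul, mul_assoc,
          pow_succ', Perm.mul_apply]
    have hℓ : ∀ k : ℕ, (σ ^ k) x = x ↔ Function.minimalPeriod σ x ∣ k := by
      intro k
      rw [← Function.isPeriodicPt_iff_minimalPeriod_dvd, Function.IsPeriodicPt,
        Function.IsFixedPt, Perm.iterate_eq_pow]
    set ℓ := Function.minimalPeriod σ x with hℓdef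
    have hℓpos : 0 < ℓ := by
      apply Function.minimalPeriod_pos_of_mem_periodicPts
      exact Function.Injective.mem_periodicPts σ.injective x
    have hℓx : (σ ^ ℓ) x = x := (hℓ ℓ).2 dvd_rfl
    have hmul : ∀ j : ℕ, ((List.range (ℓ * j)).map (fun i => w ((σ ^ i) x))).prod =
        cycProd σ w x ^ j := by
      intro j
      induction j with
      | zero => simp
      | succ j ih =>
        rw [Nat.mul_succ, List.range_add, List.map_append, List.prod_append, ih, pow_succ]
        congr 1
        rw [List.map_map]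
        unfold cycProd
        congr 1
        apply List.map_congr_left
        intro i _
        have : (σ ^ (ℓ * j)) x = x := (hℓ (ℓ * j)).2 (Dvd.intro j rfl)
        change w ((σ ^ (ℓ * j + i)) x) = w ((σ ^ i) x)
        rw [add_comm, pow_add, Perm.mul_apply, this]
    apply eq_of_forall_dvd
    intro k
    rw [← Function.isPeriodicPt_iff_minimalPeriod_dvd, Function.IsPeriodicPt,
      Function.IsFixedPt, hit, Prod.mk.injEq, hℓ]
    constructor
    · rintro ⟨⟨j, rfl⟩, h2⟩
      rw [hmul, map_pow, mul_eq_left] at h2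
      exact Nat.mul_dvd_mul_left ℓ (orderOf_dvd_of_pow_eq_one h2)
    · intro h
      have h3 : ℓ ∣ k := (Dvd.intro _ rfl).trans h
      obtain ⟨j, rfl⟩ := h3
      refine ⟨Dvd.intro _ rfl, ?_⟩
      rw [hmul, map_pow, mul_eq_left]
      apply orderOf_dvd_iff_pow_eq_one.1
      exact Nat.dvd_of_mul_dvd_mul_left hℓpos h

end SclIso
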