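import Pool.Agent.H.MP_1b0e60_al.Defs

/-!
Existence of the limit defining scl.
-/

open Equiv Filter Topology

namespace SclIso

section SclLimit

variable {G : Type*} [Group G]

/-- products of commutators as lists -/
lemma SclLimit_iff {k : ℕ} {g : G} : IsCommProd k g ↔ ∃ l : List (G × G), l.length = k ∧
    g = (l.map fun p => p.1 * p.2 * p.1⁻¹ * p.2⁻¹).prod := by
  constructor
  · rintro ⟨a, b, rfl⟩
    refine ⟨List.ofFn fun i => (a i, b i), by simp, ?_⟩
    rw [List.map_ofFn]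
    rfl
  · rintro ⟨l, rfl, rfl⟩
    refine ⟨fun i => (l.get i).1, fun i => (l.get i).2, ?_⟩
    congr 1
    conv_lhs => rw [← List.ofFn_get l]
    rw [List.map_ofFn]
    rfl

lemma SclLimit_zero : IsCommProd 0 (1 : G) := SclLimit_iff.2 ⟨[], rfl, rfl⟩

lemma SclLimit_comm (a b : G) : IsCommProd 1 (a * b * a⁻¹ * b⁻¹) :=
  SclLimit_iff.2 ⟨[(a, b)], rfl, by simp⟩

lemma SclLimit_mul {k l : ℕ} {g h : G} (hg : IsCommProd k g) (hh : IsCommProd l h) :
    IsCommProd (k + l) (g * h) := by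
  obtain ⟨x, hx, rfl⟩ := SclLimit_iff.1 hg
  obtain ⟨y, hy, rfl⟩ := SclLimit_iff.1 hh
  exact SclLimit_iff.2 ⟨x ++ y, by simp [hx, hy], by simp⟩

lemma SclLimit_conj {k : ℕ} {g : G} (hg : IsCommProd k g) (x : G) :
    IsCommProd k (x * g * x⁻¹) := by
  obtain ⟨l, hl, rfl⟩ := SclLimit_iff.1 hg
  refine SclLimit_iff.2 ⟨l.map fun p => (x * p.1 * x⁻¹, x * p.2 * x⁻¹), by simp [hl], ?_⟩
  clear hl hg
  induction l with
  | nil => simp
  | cons p l ih =>
    simp only [List.map_cons, List.prod_cons]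
    rw [← ih]
    group

lemma SclLimit_inv {k : ℕ} {g : G} (hg : IsCommProd k g) : IsCommProd k g⁻¹ := by
  obtain ⟨l, hl, rfl⟩ := SclLimit_iff.1 hg
  clear hg
  induction l generalizing k with
  | nil =>
    subst hl
    simpa using SclLimit_zero
  | cons p l ih =>
    subst hl
    simp only [List.map_cons, List.prod_cons, mul_inv_rev]
    have h1 := ih rfl
    have h2 : IsCommProd 1 ((p.2⁻¹)⁻¹ * ((p.1⁻¹)⁻¹ * (p.2⁻¹ * p.1⁻¹))) := by
      have := SclLimit_comm p.2 p.1
      simpa [mul_assoc] using this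
    exact SclLimit_mul h1 h2

lemma SclLimit_exists {g : G} (hg : g ∈ commutator G) : ∃ k, IsCommProd k g := by
  rw [commutator_eq_closure] at hg
  induction hg using Subgroup.closure_induction with
  | mem x hx =>
    obtain ⟨a, b, rfl⟩ := hx
    exact ⟨1, by simpa [commutatorElement_def] using SclLimit_comm a b⟩
  | one => exact ⟨0, SclLimit_zero⟩
  | mul x y _ _ hx hy =>
    obtain ⟨k, hk⟩ := hx
    obtain ⟨l, hl⟩ := hy
    exact ⟨k + l, SclLimit_mul hk hl⟩
  | inv x _ hx =>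
    obtain ⟨k, hk⟩ := hx
    exact ⟨k, SclLimit_inv hk⟩

lemma SclLimit_cl_mem {g : G} (hg : g ∈ commutator G) : IsCommProd (cl g) g :=
  Nat.sInf_mem (s := {k | IsCommProd k g}) (SclLimit_exists hg)

lemma SclLimit_cl_le {k : ℕ} {g : G} (h : IsCommProd k g) : cl g ≤ k := Nat.sInf_le h

lemma SclLimit_clSum_le {m : ℕ} (g h : Fin m → G) :
    clSum g ≤ cl (List.ofFn fun i => (h i)⁻¹ * g i * h i).prod :=
  Nat.sInf_le ⟨h, rfl⟩

lemma SclLimit_clSum_mem {m : ℕ} (g : Fin m → G) :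
    ∃ h : Fin m → G, cl (List.ofFn fun i => (h i)⁻¹ * g i * h i).prod = clSum g :=
  Nat.sInf_mem (Set.range_nonempty fun h : Fin m → G =>
    cl (List.ofFn fun i => (h i)⁻¹ * g i * h i).prod)

lemma SclLimit_mem {m : ℕ} (g : Fin m → G) (hg : (List.ofFn g).prod ∈ commutator G) (n : ℕ)
    (h : Fin m → G) : (List.ofFn fun i => (h i)⁻¹ * g i ^ n * h i).prod ∈ commutator G := by
  have key : ∀ x : G, x ∈ commutator G ↔ Abelianization.of x = 1 := by
    intro x
    rw [← MonoidHom.mem_ker, Abelianization.ker_of]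
  rw [key] at hg ⊢
  rw [map_list_prod, List.map_ofFn, List.prod_ofFn] at hg ⊢
  have e : ∀ i, (Abelianization.of ∘ fun i => (h i)⁻¹ * g i ^ n * h i) i
      = ((Abelianization.of ∘ g) i) ^ n := by
    intro i
    simp only [Function.comp_apply, map_mul, map_inv, map_pow]
    rw [mul_comm, mul_inv_cancel_left]
  rw [Finset.prod_congr rfl (fun i _ => e i), Finset.prod_pow, hg, one_pow]

/-- rearranging products costs at most one commutator per factor -/
lemma SclLimit_rearrange : ∀ (m : ℕ) (A B y : Fin m → G),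
    IsCommProd m ((List.ofFn fun i => A i * (y i * B i * (y i)⁻¹)).prod
      * ((List.ofFn A).prod * (List.ofFn B).prod)⁻¹) := by
  intro m
  induction m with
  | zero =>
    intro A B y
    simpa using SclLimit_zero
  | succ m ih =>
    intro A B y
    have h1 := ih (fun i => A i.succ) (fun i => B i.succ) (fun i => y i.succ)
    rw [List.ofFn_succ, List.ofFn_succ, List.ofFn_succ]
    simp only [List.prod_cons]
    set Q := (List.ofFn fun i => A (Fin.succ i) * (y (Fin.succ i) * B (Fin.succ i)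
      * (y (Fin.succ i))⁻¹)).prod
    set A' := (List.ofFn fun i => A (Fin.succ i)).prod
    set B' := (List.ofFn fun i => B (Fin.succ i)).prod
    have h2 := SclLimit_conj h1 (A 0 * (y 0 * B 0 * (y 0)⁻¹))
    have h3 := SclLimit_conj (SclLimit_comm (B 0) ((y 0)⁻¹ * A')) (A 0 * y 0)
    have h4 := SclLimit_mul h2 h3
    have e : A 0 * (y 0 * B 0 * (y 0)⁻¹) * Q * (A 0 * A' * (B 0 * B'))⁻¹
        = A 0 * (y 0 * B 0 * (y 0)⁻¹) * (Q * (A' * B')⁻¹) * (A 0 * (y 0 * B 0 * (y 0)⁻¹))⁻¹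
          * (A 0 * y 0 * (B 0 * ((y 0)⁻¹ * A') * (B 0)⁻¹ * ((y 0)⁻¹ * A')⁻¹) * (A 0 * y 0)⁻¹) := by
      group
    rw [e]
    exact h4

lemma SclLimit_subadd {m : ℕ} (g : Fin m → G) (hg : (List.ofFn g).prod ∈ commutator G)
    (n p : ℕ) : clSum (fun i => g i ^ (n + p)) ≤
      clSum (fun i => g i ^ n) + clSum (fun i => g i ^ p) + m := by
  obtain ⟨h, hh⟩ := SclLimit_clSum_mem (fun i => g i ^ n)
  obtain ⟨h', hh'⟩ := SclLimit_clSum_mem (fun i => g i ^ p)
  have h1 := SclLimit_cl_mem (SclLimit_mem g hg n h)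
  have h2 := SclLimit_cl_mem (SclLimit_mem g hg p h')
  rw [hh] at h1
  rw [hh'] at h2
  have h3 := SclLimit_rearrange m (fun i => (h i)⁻¹ * g i ^ n * h i)
    (fun i => (h' i)⁻¹ * g i ^ p * h' i) (fun i => (h i)⁻¹ * h' i)
  have h4 := SclLimit_mul h3 (SclLimit_mul h1 h2)
  rw [inv_mul_cancel_right] at h4
  have e : (fun i => (h i)⁻¹ * g i ^ n * h i * ((h i)⁻¹ * h' i * ((h' i)⁻¹ * g i ^ p * h' i)
      * ((h i)⁻¹ * h' i)⁻¹)) = fun i => (h i)⁻¹ * g i ^ (n + p) * h i := by
    funext i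
    rw [pow_add]
    group
  rw [e] at h4
  refine (SclLimit_clSum_le _ h).trans ((SclLimit_cl_le h4).trans (le_of_eq ?_))
  ring

end SclLimit

theorem scl_tendsto {G : Type*} [Group G] {m : ℕ} (g : Fin m → G)
    (hg : (List.ofFn g).prod ∈ commutator G) :
    Tendsto (fun n : ℕ => (clSum (fun i => g i ^ n) : ℝ) / n) atTop (𝓝 (scl g)) := by
  set b : ℕ → ℝ := fun n => (clSum (fun i => g i ^ n) : ℝ) + m with hb
  have hsub : Subadditive b := by
    intro n p
    have h := SclLimit_subadd g hg n p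
    have h' : (clSum (fun i => g i ^ (n + p)) : ℝ) ≤
      clSum (fun i => g i ^ n) + clSum (fun i => g i ^ p) + m := by exact_mod_cast h
    simp only [hb]
    linarith
  have hbdd : BddBelow (Set.range fun n => b n / n) := by
    refine ⟨0, ?_⟩
    rintro _ ⟨n, rfl⟩
    simp only [hb]
    positivity
  have h1 := hsub.tendsto_lim hbdd
  have h2 : Tendsto (fun n : ℕ => (m : ℝ) / n) atTop (𝓝 0) :=
    tendsto_const_nhds.div_atTop tendsto_natCast_atTop_atTop
  have h3 := h1.sub h2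
  rw [sub_zero] at h3
  have h4 : Tendsto (fun n : ℕ => (clSum (fun i => g i ^ n) : ℝ) / n) atTop (𝓝 hsub.lim) := by
    refine h3.congr fun n => ?_
    simp only [hb]
    ring
  have h5 : scl g = hsub.lim := h4.limUnder_eq
  rw [h5]
  exact h4

theorem scl_le_clSum {G : Type*} [Group G] {m : ℕ} (g : Fin m → G)
    (hg : (List.ofFn g).prod ∈ commutator G) (n : ℕ) (hn : 0 < n) :
    scl g ≤ ((clSum (fun i => g i ^ n) : ℝ) + m) / n := by
  set b : ℕ → ℝ := fun n => (clSum (fun i => g i ^ n) : ℝ) + m with hb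
  have hsub : Subadditive b := by
    intro n p
    have h := SclLimit_subadd g hg n p
    have h' : (clSum (fun i => g i ^ (n + p)) : ℝ) ≤
      clSum (fun i => g i ^ n) + clSum (fun i => g i ^ p) + m := by exact_mod_cast h
    simp only [hb]
    linarith
  have hbdd : BddBelow (Set.range fun n => b n / n) := by
    refine ⟨0, ?_⟩
    rintro _ ⟨n, rfl⟩
    simp only [hb]
    positivity
  have h1 := hsub.tendsto_lim hbdd
  have h2 : Tendsto (fun n : ℕ => (m : ℝ) / n) atTop (𝓝 0) :=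
    tendsto_const_nhds.div_atTop tendsto_natCast_atTop_atTop
  have h3 := h1.sub h2
  rw [sub_zero] at h3
  have h4 : Tendsto (fun n : ℕ => (clSum (fun i => g i ^ n) : ℝ) / n) atTop (𝓝 hsub.lim) := by
    refine h3.congr fun n => ?_
    simp only [hb]
    ring
  have h5 : scl g = hsub.lim := h4.limUnder_eq
  rw [h5]
  exact hsub.lim_le_div hbdd hn.ne'

end SclIso
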