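import Pool.Agent.H.MP_1b0e60_al.ClPair
import Pool.Agent.H.MP_1b0e60_al.LongCover
import Pool.Agent.H.MP_1b0e60_al.Cover

/-!
Surfaces bound commutator lengths from above.
-/

open Equiv Filter Topology

namespace SclIso

/-! ### cycles as lists -/

theorem SclUpper_pow {B : Type*} (σ : Perm B) (k : ℕ) (y : B) : (σ ^ k) y = σ^[k] y := by
  rw [Perm.iterate_eq_pow]

theorem SclUpper_mp_pos {B : Type*} [Finite B] (σ : Perm B) (y : B) :
    0 < Function.minimalPeriod σ y := by
  refine Function.IsPeriodicPt.minimalPeriod_pos (orderOf_pos σ) ?_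
  show σ^[orderOf σ] y = y
  rw [← SclUpper_pow, pow_orderOf_eq_one]
  rfl

/-- the cycle of `y` as a list -/
noncomputable def SclUpper_cyc {B : Type*} (σ : Perm B) (y : B) : List B :=
  (List.range (Function.minimalPeriod σ y)).map (fun k => (σ ^ k) y)

theorem SclUpper_cyc_length {B : Type*} (σ : Perm B) (y : B) :
    (SclUpper_cyc σ y).length = Function.minimalPeriod σ y := by
  simp [SclUpper_cyc]

theorem SclUpper_mem_cyc {B : Type*} [Finite B] (σ : Perm B) (y b : B) :
    b ∈ SclUpper_cyc σ y ↔ σ.SameCycle y b := by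
  constructor
  · intro h
    obtain ⟨k, _, rfl⟩ := List.mem_map.mp h
    exact ⟨k, by simp⟩
  · intro h
    obtain ⟨n, hn⟩ := h.exists_nat_pow_eq
    refine List.mem_map.mpr ⟨n % Function.minimalPeriod σ y, ?_, ?_⟩
    · exact List.mem_range.mpr (Nat.mod_lt _ (SclUpper_mp_pos σ y))
    · rw [SclUpper_pow, Function.iterate_mod_minimalPeriod_eq, ← SclUpper_pow, hn]

theorem SclUpper_cyc_nodup {B : Type*} (σ : Perm B) (y : B) : (SclUpper_cyc σ y).Nodup := by
  refine List.Nodup.map_on ?_ List.nodup_range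
  intro a ha b hb hab
  rw [SclUpper_pow, SclUpper_pow] at hab
  exact Function.iterate_injOn_Iio_minimalPeriod (Set.mem_Iio.mpr (List.mem_range.mp ha))
    (Set.mem_Iio.mpr (List.mem_range.mp hb)) hab

theorem SclUpper_card_cycle {B : Type*} [Finite B] (σ : Perm B) (y : B) :
    Nat.card {b // σ.SameCycle y b} = Function.minimalPeriod σ y := by
  classical
  rw [← SclUpper_cyc_length, ← List.toFinset_card_of_nodup (SclUpper_cyc_nodup σ y),
    ← Nat.card_eq_finsetCard]
  apply Nat.card_congr
  exact Equiv.subtypeEquivRight (fun b => by rw [List.mem_toFinset, SclUpper_mem_cyc])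

/-! ### products along cycles -/

theorem SclUpper_prod_mul {K : Type*} [Monoid K] (F : ℕ → K) (a : ℕ) (hF : ∀ k, F (a + k) = F k)
    (e : ℕ) : ((List.range (a * e)).map F).prod = ((List.range a).map F).prod ^ e := by
  have hF' : ∀ e k, F (a * e + k) = F k := by
    intro e
    induction e with
    | zero => intro k; simp
    | succ e ih => intro k; rw [Nat.mul_succ, Nat.add_assoc, ih, hF]
  induction e with
  | zero => simp
  | succ e ih =>
    rw [Nat.mul_succ, List.range_add, List.map_append, List.prod_append, ih, pow_succ,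
      List.map_map]
    congr 2
    apply List.map_congr_left
    intro k _
    exact hF' e k

theorem SclUpper_lift_pow {B L : Type*} {σ' : Perm B} {σ : Perm L} {P : B → L}
    (hc : ∀ x, P (σ' x) = σ (P x)) (k : ℕ) (y : B) : P ((σ' ^ k) y) = (σ ^ k) (P y) := by
  induction k with
  | zero => simp
  | succ k ih => rw [pow_succ', pow_succ', Perm.mul_apply, Perm.mul_apply, hc, ih]

theorem SclUpper_lift_mp {B L : Type*} {σ' : Perm B} {σ : Perm L} {P : B → L}
    (hc : ∀ x, P (σ' x) = σ (P x)) (y : B) :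
    Function.minimalPeriod σ (P y) ∣ Function.minimalPeriod σ' y := by
  apply Function.IsPeriodicPt.minimalPeriod_dvd
  show σ^[_] (P y) = P y
  rw [← SclUpper_pow, ← SclUpper_lift_pow hc, SclUpper_pow, Function.iterate_minimalPeriod]

theorem SclUpper_cycProd_lift {B L K : Type*} [Monoid K] {σ' : Perm B} {σ : Perm L} {P : B → L}
    (hc : ∀ x, P (σ' x) = σ (P x)) (w : L → K) (y : B) (e : ℕ)
    (he : Function.minimalPeriod σ' y = Function.minimalPeriod σ (P y) * e) :
    cycProd σ' (fun b => w (P b)) y = cycProd σ w (P y) ^ e := by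
  unfold cycProd
  rw [he, ← SclUpper_prod_mul (fun i => w ((σ ^ i) (P y)))]
  · congr 1
    apply List.map_congr_left
    intro k _
    show w (P ((σ' ^ k) y)) = _
    rw [SclUpper_lift_pow hc]
  · intro k
    show w ((σ ^ _) (P y)) = _
    rw [Nat.add_comm, pow_add, Perm.mul_apply, SclUpper_pow σ (Function.minimalPeriod _ _),
      Function.iterate_minimalPeriod]

theorem SclUpper_cyc_prod {B L K : Type*} [Monoid K] {σ' : Perm B} {P : B → L} (w : L → K)
    (y : B) : ((SclUpper_cyc σ' y).map (fun b => w (P b))).prod =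
      cycProd σ' (fun b => w (P b)) y := by
  unfold cycProd SclUpper_cyc
  rw [List.map_map]
  rfl

theorem SclUpper_cycProd_step {L K : Type*} [Finite L] [Group K] (σ : Perm L) (w : L → K) (x : L) :
    cycProd σ w (σ x) = (w x)⁻¹ * cycProd σ w x * w x := by
  have hmp : Function.minimalPeriod σ (σ x) = Function.minimalPeriod σ x := by
    have h := Function.minimalPeriod_apply_iterate
      (Function.minimalPeriod_pos_iff_mem_periodicPts.mp (SclUpper_mp_pos σ x)) 1
    simpa using h
  have h1 : w x * cycProd σ w (σ x) =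
      ((List.range (Function.minimalPeriod σ x + 1)).map (fun i => w ((σ ^ i) x))).prod := by
    rw [List.range_succ_eq_map, List.map_cons, List.prod_cons, List.map_map]
    unfold cycProd
    rw [hmp]
    congr 2
  have h2 : cycProd σ w x * w x =
      ((List.range (Function.minimalPeriod σ x + 1)).map (fun i => w ((σ ^ i) x))).prod := by
    rw [List.range_succ, List.map_append, List.prod_append]
    unfold cycProd
    simp only [List.map_cons, List.map_nil, List.prod_cons, List.prod_nil, mul_one]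
    rw [SclUpper_pow σ (Function.minimalPeriod _ _), Function.iterate_minimalPeriod]
  rw [mul_assoc, h2, ← h1]
  group

theorem SclUpper_cycProd_conj {L K : Type*} [Finite L] [Group K] (σ : Perm L) (w : L → K)
    {x y : L} (h : σ.SameCycle x y) : ∃ c, cycProd σ w y = c⁻¹ * cycProd σ w x * c := by
  obtain ⟨n, rfl⟩ := h.exists_nat_pow_eq
  clear h
  induction n with
  | zero => exact ⟨1, by simp⟩
  | succ n ih =>
    obtain ⟨c, hc⟩ := ih
    refine ⟨c * w ((σ ^ n) x), ?_⟩
    rw [pow_succ', Perm.mul_apply, SclUpper_cycProd_step, hc]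
    group

/-! ### one long list -/

theorem SclUpper_card_cover {B A : Type*} [Finite B] [Finite A] (p : B → A) (N : ℕ)
    (h : ∀ y, Nat.card {x // p x = y} = N) (q : A → Prop) :
    Nat.card {b // q (p b)} = Nat.card {c // q c} * N := by
  classical
  have : Fintype {c // q c} := Fintype.ofFinite _
  have e : {b // q (p b)} ≃ Σ c : {c // q c}, {b // p b = c} :=
    { toFun := fun x => ⟨⟨p x.1, x.2⟩, ⟨x.1, rfl⟩⟩
      invFun := fun y => ⟨y.2.1, by rw [y.2.2]; exact y.1.2⟩
      left_inv := fun x => rfl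
      right_inv := by
        rintro ⟨⟨c, hc⟩, ⟨b, hb⟩⟩
        simp only at hb
        subst hb
        rfl }
  rw [Nat.card_congr e, Nat.card_sigma]
  simp only [h]
  rw [Finset.sum_const, Finset.card_univ, smul_eq_mul, Nat.card_eq_fintype_card]

theorem SclUpper_reps {B L : Type*} [Finite B] [Finite L] (σ' : Perm B) (σ : Perm L) (P : B → L)
    (hc : ∀ x, P (σ' x) = σ (P x)) (x : L) :
    ∃ Y : List B, (∀ y ∈ Y, P y = x) ∧ Y.Pairwise (fun a b => ¬ σ'.SameCycle a b) ∧
      ∀ b, σ.SameCycle x (P b) → ∃ y ∈ Y, σ'.SameCycle y b := by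
  classical
  let s : Setoid {b // P b = x} := (Perm.SameCycle.setoid σ').comap Subtype.val
  have : Fintype (Quotient s) := Fintype.ofFinite _
  refine ⟨(Finset.univ : Finset (Quotient s)).toList.map (fun q => q.out.1), ?_, ?_, ?_⟩
  · intro y hy
    obtain ⟨q, _, rfl⟩ := List.mem_map.mp hy
    exact q.out.2
  · rw [List.pairwise_map]
    refine List.Pairwise.imp ?_ (Finset.nodup_toList (Finset.univ : Finset (Quotient s)))
    intro q q' hne h
    exact hne (Quotient.out_equiv_out.mp h)
  · intro b hb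
    obtain ⟨n, hn⟩ := hb.symm.exists_nat_pow_eq
    have hb' : P ((σ' ^ n) b) = x := by rw [SclUpper_lift_pow hc, hn]
    refine ⟨(Quotient.out (⟦⟨(σ' ^ n) b, hb'⟩⟧ : Quotient s)).1, ?_, ?_⟩
    · exact List.mem_map.mpr ⟨_, Finset.mem_toList.mpr (Finset.mem_univ _), rfl⟩
    · have h1 : σ'.SameCycle (Quotient.out (⟦⟨(σ' ^ n) b, hb'⟩⟧ : Quotient s)).1 ((σ' ^ n) b) :=
        Quotient.mk_out (s := s) ⟨(σ' ^ n) b, hb'⟩
      have h2 : σ'.SameCycle b ((σ' ^ n) b) := ⟨n, by simp⟩
      exact h1.trans h2.symm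

theorem SclUpper_prod_pow {B K : Type*} [Monoid K] (g : K) (e : B → ℕ) (Y : List B) :
    (Y.map (fun y => g ^ e y)).prod = g ^ (Y.map e).sum := by
  induction Y with
  | nil => simp
  | cons a Y ih => simp [ih, pow_add]

theorem SclUpper_block {B L K : Type*} [Finite B] [Finite L] [Group K] (σ' : Perm B) (σ : Perm L)
    (P : B → L) (N : ℕ) (hc : IsCover σ' σ P N) (W : L → K) (J : ℕ)
    (hJ : ∀ b, J ≤ Function.minimalPeriod σ' b) (x : L) :
    ∃ Y : List B, (Y.flatMap (SclUpper_cyc σ')).Nodup ∧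
      (∀ b, b ∈ Y.flatMap (SclUpper_cyc σ') ↔ σ.SameCycle x (P b)) ∧
      ((Y.flatMap (SclUpper_cyc σ')).map (fun b => W (P b))).prod = cycProd σ W x ^ N ∧
      Y.length * J ≤ (Y.flatMap (SclUpper_cyc σ')).length := by
  classical
  obtain ⟨Y, h1, h2, h3⟩ := SclUpper_reps σ' σ P hc.comm x
  have hnd : (Y.flatMap (SclUpper_cyc σ')).Nodup := by
    rw [List.nodup_flatMap]
    refine ⟨fun y _ => SclUpper_cyc_nodup σ' y, h2.imp ?_⟩
    intro a b hab
    show List.Disjoint (SclUpper_cyc σ' a) (SclUpper_cyc σ' b)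
    intro c hca hcb
    rw [SclUpper_mem_cyc] at hca hcb
    exact hab (hca.trans hcb.symm)
  have hmem : ∀ b, b ∈ Y.flatMap (SclUpper_cyc σ') ↔ σ.SameCycle x (P b) := by
    intro b
    rw [List.mem_flatMap]
    constructor
    · rintro ⟨y, hy, hb⟩
      rw [SclUpper_mem_cyc] at hb
      obtain ⟨n, rfl⟩ := hb.exists_nat_pow_eq
      rw [SclUpper_lift_pow hc.comm, h1 y hy]
      exact ⟨n, by simp⟩
    · intro hb
      obtain ⟨y, hy, hyb⟩ := h3 b hb
      exact ⟨y, hy, (SclUpper_mem_cyc _ _ _).mpr hyb⟩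
  have hlen : (Y.flatMap (SclUpper_cyc σ')).length = Function.minimalPeriod σ x * N := by
    rw [← List.toFinset_card_of_nodup hnd, ← Nat.card_eq_finsetCard, ← SclUpper_card_cycle,
      ← SclUpper_card_cover P N hc.fib (fun c => σ.SameCycle x c)]
    apply Nat.card_congr
    exact Equiv.subtypeEquivRight (fun b => by rw [List.mem_toFinset, hmem])
  have hlen' : (Y.flatMap (SclUpper_cyc σ')).length =
      (Y.map (fun y => Function.minimalPeriod σ' y)).sum := by
    rw [List.length_flatMap]
    congr 1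
    apply List.map_congr_left
    intro y _
    exact SclUpper_cyc_length σ' y
  refine ⟨Y, hnd, hmem, ?_, ?_⟩
  · -- the product
    have hpos := SclUpper_mp_pos σ x
    let e : B → ℕ := fun y => Function.minimalPeriod σ' y / Function.minimalPeriod σ x
    have he : ∀ y ∈ Y, Function.minimalPeriod σ' y = Function.minimalPeriod σ x * e y := by
      intro y hy
      have := SclUpper_lift_mp hc.comm y
      rw [h1 y hy] at this
      exact (Nat.mul_div_cancel' this).symm
    have hp : ∀ y ∈ Y, ((SclUpper_cyc σ' y).map (fun b => W (P b))).prod =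
        cycProd σ W x ^ e y := by
      intro y hy
      rw [SclUpper_cyc_prod, SclUpper_cycProd_lift hc.comm W y (e y), h1 y hy]
      rw [h1 y hy]
      exact he y hy
    have hsum : (Y.map e).sum = N := by
      have h4 : (Y.map (fun y => Function.minimalPeriod σ' y)).sum =
          Function.minimalPeriod σ x * (Y.map e).sum := by
        rw [← List.sum_map_mul_left]
        congr 1
        apply List.map_congr_left
        exact he
      rw [← hlen', hlen] at h4
      exact (Nat.eq_of_mul_eq_mul_left hpos h4).symm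
    have hprod : ((Y.flatMap (SclUpper_cyc σ')).map (fun b => W (P b))).prod =
        (Y.map (fun y => ((SclUpper_cyc σ' y).map (fun b => W (P b))).prod)).prod := by
      clear hnd hmem hlen hlen' h1 h2 h3 he hp hsum
      induction Y with
      | nil => simp
      | cons a Y ih => simp only [List.flatMap_cons, List.map_append, List.prod_append, List.map_cons,
          List.prod_cons, ih]
    rw [hprod, ← hsum, ← SclUpper_prod_pow, List.map_congr_left hp]
  · rw [hlen']
    clear hnd hmem hlen hlen' h1 h2 h3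
    induction Y with
    | nil => simp
    | cons a Y ih =>
      simp only [List.length_cons, List.map_cons, List.sum_cons]
      have := hJ a
      nlinarith

theorem SclUpper_formPerm {B : Type*} [DecidableEq B] (σ' : Perm B) (s t : List B) (y b : B)
    (hnd : (s ++ SclUpper_cyc σ' y ++ t).Nodup) (hb : b ∈ SclUpper_cyc σ' y) (hne : σ' b ≠ y) :
    (s ++ SclUpper_cyc σ' y ++ t).formPerm b = σ' b := by
  obtain ⟨k, hk, rfl⟩ := List.mem_map.mp hb
  rw [List.mem_range] at hk
  have hk1 : k + 1 < Function.minimalPeriod σ' y := by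
    by_contra hcon
    have : k + 1 = Function.minimalPeriod σ' y := by omega
    apply hne
    rw [← Perm.mul_apply, ← pow_succ', this, SclUpper_pow, Function.iterate_minimalPeriod]
  have hlen := SclUpper_cyc_length σ' y
  have hl : s.length + k + 1 < (s ++ SclUpper_cyc σ' y ++ t).length := by
    simp only [List.length_append]
    omega
  have h1 : (s ++ SclUpper_cyc σ' y ++ t)[s.length + k] = (σ' ^ k) y := by
    rw [List.getElem_append_left (by simp only [List.length_append]; omega),
      List.getElem_append_right (by omega)]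
    simp [SclUpper_cyc]
  have h2 : (s ++ SclUpper_cyc σ' y ++ t)[s.length + k + 1] = (σ' ^ (k + 1)) y := by
    rw [List.getElem_append_left (by simp only [List.length_append]; omega),
      List.getElem_append_right (by omega)]
    have : s.length + k + 1 - s.length = k + 1 := by omega
    simp [SclUpper_cyc, this]
  have h3 := List.formPerm_apply_lt_getElem _ hnd (s.length + k) hl
  rw [h1, h2, pow_succ', Perm.mul_apply] at h3
  exact h3

theorem SclUpper_core {B L K : Type*} [Finite B] [Finite L] [Group K] [DecidableEq B]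
    (σ' : Perm B) (σ : Perm L)
    (P : B → L) (N : ℕ) (hc : IsCover σ' σ P N) (W : L → K) (J : ℕ)
    (hJ : ∀ b, J ≤ Function.minimalPeriod σ' b) {m : ℕ} (X : Fin m → L)
    (hX : ∀ i j, σ.SameCycle (X i) (X j) → i = j) (hX' : ∀ y, ∃ i, σ.SameCycle (X i) y) :
    ∃ (l : List B) (T : Finset B), l.Nodup ∧ (∀ b, b ∈ l) ∧
      (l.map (fun b => W (P b))).prod = (List.ofFn fun i => cycProd σ W (X i) ^ N).prod ∧
      T.card * J ≤ Nat.card B ∧ ∀ b, b ∉ T → l.formPerm b = σ' b := by
  classical
  choose Y h1 h2 h3 h4 using fun i => SclUpper_block σ' σ P N hc W J hJ (X i)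
  let Z : List B := (List.finRange m).flatMap Y
  have hl : Z.flatMap (SclUpper_cyc σ') =
      (List.finRange m).flatMap (fun i => (Y i).flatMap (SclUpper_cyc σ')) :=
    List.flatMap_assoc
  have hnd : (Z.flatMap (SclUpper_cyc σ')).Nodup := by
    rw [hl, List.nodup_flatMap]
    refine ⟨fun i _ => h1 i, (List.nodup_finRange m).imp ?_⟩
    intro i j hij
    show List.Disjoint ((Y i).flatMap (SclUpper_cyc σ')) ((Y j).flatMap (SclUpper_cyc σ'))
    intro b hbi hbj
    rw [h2] at hbi hbj
    exact hij (hX _ _ (hbi.trans hbj.symm))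
  have hmem : ∀ b, b ∈ Z.flatMap (SclUpper_cyc σ') := by
    intro b
    rw [hl, List.mem_flatMap]
    obtain ⟨i, hi⟩ := hX' (P b)
    exact ⟨i, List.mem_finRange i, (h2 i b).mpr hi⟩
  refine ⟨Z.flatMap (SclUpper_cyc σ'), Z.toFinset.image (σ'⁻¹ : Perm B), hnd, hmem, ?_, ?_, ?_⟩
  · rw [hl, List.ofFn_eq_map]
    have : ∀ (F : List (Fin m)), ((F.flatMap (fun i => (Y i).flatMap (SclUpper_cyc σ'))).map
        (fun b => W (P b))).prod = (F.map (fun i => cycProd σ W (X i) ^ N)).prod := by
      intro F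
      induction F with
      | nil => simp
      | cons a F ih => simp only [List.flatMap_cons, List.map_append, List.prod_append,
          List.map_cons, List.prod_cons, ih, h3]
    exact this _
  · have hc1 : (Z.toFinset.image (σ'⁻¹ : Perm B)).card ≤ Z.length :=
      Finset.card_image_le.trans (List.toFinset_card_le Z)
    have hc2 : Z.length * J ≤ (Z.flatMap (SclUpper_cyc σ')).length := by
      rw [hl]
      have : ∀ (F : List (Fin m)), (F.flatMap Y).length * J ≤
          (F.flatMap (fun i => (Y i).flatMap (SclUpper_cyc σ'))).length := by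
        intro F
        induction F with
        | nil => simp
        | cons a F ih =>
          simp only [List.flatMap_cons, List.length_append, Nat.add_mul]
          exact Nat.add_le_add (h4 a) ih
      exact this _
    have hc3 : (Z.flatMap (SclUpper_cyc σ')).length = Nat.card B := by
      have : Fintype B := Fintype.ofFinite B
      rw [← List.toFinset_card_of_nodup hnd, Nat.card_eq_fintype_card, ← Finset.card_univ]
      congr 1
      ext b
      simp only [List.mem_toFinset, Finset.mem_univ, iff_true]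
      exact hmem b
    calc (Z.toFinset.image (σ'⁻¹ : Perm B)).card * J ≤ Z.length * J := Nat.mul_le_mul_right _ hc1
      _ ≤ Nat.card B := by rw [← hc3]; exact hc2
  · intro b hb
    obtain ⟨y, hy, hby⟩ := List.mem_flatMap.mp (hmem b)
    have hne : σ' b ≠ y := by
      intro h
      apply hb
      rw [Finset.mem_image]
      exact ⟨y, List.mem_toFinset.mpr hy, by rw [← h]; simp⟩
    obtain ⟨s, t, hst⟩ := List.append_of_mem hy
    have hZ : Z.flatMap (SclUpper_cyc σ') = s.flatMap (SclUpper_cyc σ') ++ SclUpper_cyc σ' y ++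
        t.flatMap (SclUpper_cyc σ') := by
      rw [hst]
      simp
    rw [hZ] at hnd ⊢
    exact SclUpper_formPerm σ' _ _ y b hnd hby hne

theorem SclUpper_final {ι B L K : Type*} [Finite B] [Finite L] [Group K]
    (σQ πQ : Perm B) (σ : Perm L) (P : B → L) (N : ℕ) (hc : IsCover σQ σ P N)
    (lab : L → ι × Bool) (hπ : IsPairing (fun b => lab (P b)) πQ) (w : ι × Bool → K)
    (hw : ∀ l, w (linv l) = (w l)⁻¹) (J : ℕ)
    (hJ : ∀ b, J ≤ Function.minimalPeriod σQ b) {m : ℕ} (X : Fin m → L)
    (hX : ∀ i j, σ.SameCycle (X i) (X j) → i = j) (hX' : ∀ y, ∃ i, σ.SameCycle (X i) y) :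
    ∃ t : ℕ, t * J ≤ Nat.card B ∧
      4 * (clSum (fun i => (cycProd σ (fun y => w (lab y)) (X i)) ^ N) : ℤ) ≤
        E2 σQ πQ + 2 * t + 2 := by
  classical
  have : Fintype B := Fintype.ofFinite B
  obtain ⟨l, T, hnd, hmem, hprod, hT, hoff⟩ :=
    SclUpper_core σQ σ P N hc (fun y => w (lab y)) J hJ X hX hX'
  have hw' : ∀ x, w (lab (P (πQ x))) = (w (lab (P x)))⁻¹ := by
    intro x
    have := hπ.lab_inv x
    rw [this, hw]
  have hne : ∀ x, πQ x ≠ x := by
    intro x hx
    have h1 := hπ.lab_inv x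
    rw [hx] at h1
    have h2 := congrArg Prod.snd h1
    simp [linv] at h2
  obtain ⟨k, hk, hk'⟩ := commProd_of_pairing l hnd hmem πQ hπ.invol hne
    (fun b => w (lab (P b))) hw'
  refine ⟨T.card, hT, ?_⟩
  have hcl : clSum (fun i => (cycProd σ (fun y => w (lab y)) (X i)) ^ N) ≤ k := by
    refine le_trans (Nat.sInf_le (Set.mem_range.mpr ⟨fun _ => 1, rfl⟩)) ?_
    refine Nat.sInf_le ?_
    show IsCommProd k _
    have e : (List.ofFn fun i => (1 : K)⁻¹ * (cycProd σ (fun y => w (lab y)) (X i)) ^ N * 1).prod =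
        (List.ofFn fun i => (cycProd σ (fun y => w (lab y)) (X i)) ^ N).prod := by
      congr 1
      congr 1
      funext i
      simp
    have e' : (List.ofFn fun i => ((fun _ => 1 : Fin m → K) i)⁻¹ *
        (fun i => (cycProd σ (fun y => w (lab y)) (X i)) ^ N) i * (fun _ => 1 : Fin m → K) i).prod =
        (l.map (fun b => w (lab (P b)))).prod := by
      rw [hprod]
      exact e
    rw [e']
    exact hk
  have hn := ncyc_le_of_eq_off (σQ * πQ) (l.formPerm * πQ) (T.image (πQ⁻¹ : Perm B)) (by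
    intro x hx
    rw [Perm.mul_apply, Perm.mul_apply, hoff]
    intro h
    apply hx
    rw [Finset.mem_image]
    exact ⟨πQ x, h, by simp⟩)
  have hn' : (ncyc (σQ * πQ) : ℤ) ≤ ncyc (l.formPerm * πQ) + T.card := by
    have := hn.trans (Nat.add_le_add_left Finset.card_image_le _)
    exact_mod_cast this
  have hcl' : (clSum (fun i => (cycProd σ (fun y => w (lab y)) (X i)) ^ N) : ℤ) ≤ k := by
    exact_mod_cast hcl
  unfold E2 at *
  linarith

theorem clSum_le_of_fill {ι L K : Type} [Finite L] [Group K] {m : ℕ}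
    (hRF : ∀ (w : K) (J : ℕ), w ≠ 1 → ∃ (Q : Type) (_ : Group Q) (_ : Finite Q) (ρ : K →* Q),
      ∀ j : ℕ, 1 ≤ j → j ≤ J → ρ w ^ j ≠ 1)
    (σ : Perm L) (lab : L → ι × Bool) (w : ι × Bool → K) (hw : ∀ l, w (linv l) = (w l)⁻¹)
    (X : Fin m → L) (hX : ∀ i j, σ.SameCycle (X i) (X j) → i = j)
    (hX' : ∀ y, ∃ i, σ.SameCycle (X i) y)
    (hne : ∀ i, cycProd σ (fun y => w (lab y)) (X i) ≠ 1) (r : ℝ) (h : FillLt σ lab r)
    (ε : ℝ) (hε : 0 < ε) (N0 : ℕ) :
    ∃ N, N0 ≤ N ∧ 4 * (clSum (fun i => (cycProd σ (fun y => w (lab y)) (X i)) ^ N) : ℝ)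
      ≤ N * (r + ε) := by
  classical
  obtain ⟨n₀, M, hM, p, τ, π, hn₀, hcov, hπ, hlt⟩ := h
  rcases Nat.eq_zero_or_pos m with rfl | hm
  · have hL : IsEmpty L := ⟨fun y => (hX' y).choose.elim0⟩
    have hM' : IsEmpty M := ⟨fun x => hL.false (p x)⟩
    have hc0 : Nat.card M = 0 := Nat.card_eq_zero.mpr (Or.inl hM')
    have hE : E2 τ π = 0 := by
      have h1 := ncyc_le_card (τ * π)
      rw [hc0] at h1
      unfold E2
      rw [hc0]
      omega
    rw [hE] at hlt
    have hr : 0 < r := by
      have h0 : (0 : ℝ) < n₀ := by exact_mod_cast hn₀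
      by_contra hcon
      push Not at hcon
      have := mul_nonpos_of_nonneg_of_nonpos h0.le hcon
      simp only [Int.cast_zero] at hlt
      linarith
    refine ⟨N0, le_rfl, ?_⟩
    have hcl : clSum (fun i : Fin 0 => (cycProd σ (fun y => w (lab y)) (X i)) ^ N0) ≤ 0 := by
      refine le_trans (Nat.sInf_le (Set.mem_range.mpr ⟨fun _ => 1, rfl⟩)) ?_
      refine Nat.sInf_le ?_
      exact ⟨Fin.elim0, Fin.elim0, by simp⟩
    have hcl' : (clSum (fun i : Fin 0 => (cycProd σ (fun y => w (lab y)) (X i)) ^ N0) : ℝ) ≤ 0 := by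
      exact_mod_cast hcl
    have : (0 : ℝ) ≤ N0 * (r + ε) := by positivity
    linarith
  · -- choice of `J`
    let J : ℕ := max (max N0 1) (max ⌈4 * (Nat.card L : ℝ) / ε⌉₊ ⌈4 / ε⌉₊)
    have hJ0 : N0 ≤ J := (le_max_left _ _).trans (le_max_left _ _)
    have hJ1 : 1 ≤ J := (le_max_right _ _).trans (le_max_left _ _)
    have hJ2 : 4 * (Nat.card L : ℝ) ≤ J * ε := by
      have h1 : ⌈4 * (Nat.card L : ℝ) / ε⌉₊ ≤ J := (le_max_left _ _).trans (le_max_right _ _)
      have h2 : 4 * (Nat.card L : ℝ) / ε ≤ J := (Nat.le_ceil _).trans (by exact_mod_cast h1)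
      rwa [div_le_iff₀ hε] at h2
    have hJ3 : (4 : ℝ) ≤ J * ε := by
      have h1 : ⌈4 / ε⌉₊ ≤ J := (le_max_right _ _).trans (le_max_right _ _)
      have h2 : 4 / ε ≤ J := (Nat.le_ceil _).trans (by exact_mod_cast h1)
      rwa [div_le_iff₀ hε] at h2
    clear_value J
    choose Q iG iF ρ hρ using fun i => hRF (cycProd σ (fun y => w (lab y)) (X i)) J (hne i)
    let ρ' : K →* (∀ i, Q i) := MonoidHom.pi ρ
    have hρ' : ∀ i (j : ℕ), 1 ≤ j → j ≤ J →
        ρ' (cycProd σ (fun y => w (lab y)) (X i)) ^ j ≠ 1 := by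
      intro i j h1 h2 h3
      exact hρ i j h1 h2 (congrFun h3 i)
    clear_value ρ'
    have hwπ : ∀ x, w (lab (p (π x))) = (w (lab (p x)))⁻¹ := by
      intro x
      have := hπ.lab_inv x
      rw [this, hw]
    obtain ⟨σQ, πQ, -, hQ2, hQ3, hQ4, hQ5⟩ := long_cover ρ' τ π (fun x => lab (p x)) hπ
      (fun x => w (lab (p x))) hwπ
    have hcQ : IsCover σQ σ (fun x : M × (∀ i, Q i) => p x.1) (n₀ * Nat.card (∀ i, Q i)) := by
      constructor
      · intro x
        have := hQ2.comm x
        rw [this, hcov.comm]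
      · intro y
        rw [SclUpper_card_cover (Prod.fst : M × (∀ i, Q i) → M) _ hQ2.fib (fun c => p c = y),
          hcov.fib]
    have hmp : ∀ b, J ≤ Function.minimalPeriod σQ b := by
      rintro ⟨x, a⟩
      rw [hQ5]
      obtain ⟨i, hi⟩ := hX' (p x)
      obtain ⟨e, he⟩ := SclUpper_lift_mp hcov.comm x
      obtain ⟨c, hcc⟩ := SclUpper_cycProd_conj σ (fun y => w (lab y)) hi
      rw [SclUpper_cycProd_lift hcov.comm (fun y => w (lab y)) x e he, hcc, he]
      set g := cycProd σ (fun y => w (lab y)) (X i) with hg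
      have he1 : 1 ≤ e := by
        rcases Nat.eq_zero_or_pos e with h0 | h0
        · rw [h0, mul_zero] at he
          have := SclUpper_mp_pos τ x
          omega
        · exact h0
      set o := orderOf (ρ' ((c⁻¹ * g * c) ^ e)) with ho
      have ho1 : 1 ≤ o := orderOf_pos _
      have hpow : (ρ' ((c⁻¹ * g * c) ^ e)) ^ o = 1 := pow_orderOf_eq_one _
      have hpow2 : ρ' g ^ (e * o) = 1 := by
        have h1 : (ρ' ((c⁻¹ * g * c) ^ e)) ^ o = (ρ' c)⁻¹ * ρ' g ^ (e * o) * ρ' c := by
          have h2 : c⁻¹ * g * c = c⁻¹ * g * (c⁻¹)⁻¹ := by rw [inv_inv]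
          rw [h2, conj_pow, ← map_pow, conj_pow, ← pow_mul]
          simp
        rw [h1] at hpow
        have h3 : ρ' g ^ (e * o) = ρ' c * ((ρ' c)⁻¹ * ρ' g ^ (e * o) * ρ' c) * (ρ' c)⁻¹ := by group
        rw [h3, hpow]
        simp
      have hJo : J < e * o := by
        by_contra hcon
        push Not at hcon
        exact hρ' i (e * o) (Nat.mul_pos he1 ho1) hcon hpow2
      have hmp1 := SclUpper_mp_pos σ (p x)
      calc J ≤ e * o := hJo.le
        _ = 1 * (e * o) := (one_mul _).symm
        _ ≤ Function.minimalPeriod σ (p x) * (e * o) := Nat.mul_le_mul_right _ hmp1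
        _ = Function.minimalPeriod σ (p x) * e * o := by ring
    obtain ⟨t, ht1, ht2⟩ := SclUpper_final σQ πQ σ _ _ hcQ lab hQ3 w hw J hmp X hX hX'
    have hQJ : J ≤ Nat.card (∀ i, Q i) := by
      have h1 : J < orderOf (ρ' (cycProd σ (fun y => w (lab y)) (X ⟨0, hm⟩))) := by
        by_contra hcon
        push Not at hcon
        exact hρ' _ _ (orderOf_pos _) hcon (pow_orderOf_eq_one _)
      exact h1.le.trans orderOf_le_card
    set q := Nat.card (∀ i, Q i) with hq
    have hNJ : J ≤ n₀ * q := by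
      calc J ≤ q := hQJ
        _ = 1 * q := (one_mul _).symm
        _ ≤ n₀ * q := Nat.mul_le_mul_right _ hn₀
    refine ⟨n₀ * q, hJ0.trans hNJ, ?_⟩
    have hcB : Nat.card (M × (∀ i, Q i)) = Nat.card L * (n₀ * q) := by
      have := SclUpper_card_cover _ _ hcQ.fib (fun _ => True)
      rwa [Nat.card_congr (Equiv.subtypeUnivEquiv (fun _ => trivial)),
        Nat.card_congr (Equiv.subtypeUnivEquiv (fun _ => trivial))] at this
    rw [hcB] at ht1
    have ht1' : (t : ℝ) * J ≤ Nat.card L * (n₀ * q) := by exact_mod_cast ht1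
    have ht2' : 4 * (clSum (fun i => (cycProd σ (fun y => w (lab y)) (X i)) ^ (n₀ * q)) : ℝ) ≤
        q * ((E2 τ π : ℤ) : ℝ) + 2 * t + 2 := by
      rw [hQ4] at ht2
      exact_mod_cast ht2
    have hJpos : (0 : ℝ) < J := by exact_mod_cast hJ1
    have hNpos : (0 : ℝ) < (n₀ : ℝ) * q := by
      have : 0 < n₀ * q := lt_of_lt_of_le hJ1 hNJ
      exact_mod_cast this
    have hNJ' : (J : ℝ) ≤ n₀ * q := by exact_mod_cast hNJ
    have k1 : 4 * (t : ℝ) ≤ n₀ * q * ε := by
      have h1 : 4 * (t : ℝ) * J ≤ (n₀ * q * ε) * J := by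
        calc 4 * (t : ℝ) * J ≤ 4 * (Nat.card L * (n₀ * q)) := by linarith
          _ = (4 * Nat.card L) * (n₀ * q) := by ring
          _ ≤ (J * ε) * (n₀ * q) := mul_le_mul_of_nonneg_right hJ2 hNpos.le
          _ = (n₀ * q * ε) * J := by ring
      exact le_of_mul_le_mul_right h1 hJpos
    have k2 : (4 : ℝ) ≤ n₀ * q * ε := hJ3.trans (mul_le_mul_of_nonneg_right hNJ' hε.le)
    have k3 : (q : ℝ) * ((E2 τ π : ℤ) : ℝ) ≤ q * (n₀ * r) :=
      mul_le_mul_of_nonneg_left hlt.le (Nat.cast_nonneg _)
    push_cast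
    nlinarith

end SclIso
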