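import Pool.Agent.H.MP_1b0e60_al.Cut

/-!
Removing cycles with trivial product.
-/

open Equiv Filter Topology

namespace SclIso

universe u v

/-! ### periods and products along cycles -/

theorem NullCyc_period_pos {L : Type*} [Finite L] (σ : Perm L) (x : L) :
    0 < Function.minimalPeriod σ x := by
  have h1 : 0 < orderOf σ := orderOf_pos σ
  have h2 : Function.IsPeriodicPt σ (orderOf σ) x := by
    change (σ^[orderOf σ]) x = x
    rw [Perm.iterate_eq_pow, pow_orderOf_eq_one, Perm.one_apply]
  exact h2.minimalPeriod_pos h1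

theorem NullCyc_pow_period {L : Type*} (σ : Perm L) (x : L) :
    (σ ^ Function.minimalPeriod σ x) x = x := by
  have h := Function.isPeriodicPt_minimalPeriod σ x
  change (σ^[Function.minimalPeriod σ x]) x = x at h
  rw [Perm.iterate_eq_pow] at h
  exact h

theorem NullCyc_pow_ne {L : Type*} (σ : Perm L) (x : L) {k : ℕ} (hk : 0 < k)
    (hk2 : k < Function.minimalPeriod σ x) : (σ ^ k) x ≠ x := by
  intro h
  apply Function.not_isPeriodicPt_of_pos_of_lt_minimalPeriod (by omega) hk2
  change (σ^[k]) x = x
  rw [Perm.iterate_eq_pow]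
  exact h

theorem NullCyc_period_eq {L : Type*} (σ : Perm L) (x : L) {n : ℕ} (hn : 0 < n)
    (h1 : (σ ^ n) x = x) (h2 : ∀ k, 0 < k → k < n → (σ ^ k) x ≠ x) :
    Function.minimalPeriod σ x = n := by
  have h3 : Function.IsPeriodicPt σ n x := by
    change (σ^[n]) x = x
    rw [Perm.iterate_eq_pow]
    exact h1
  have h4 := h3.minimalPeriod_le hn
  have h5 := h3.minimalPeriod_pos hn
  rcases Nat.lt_or_ge (Function.minimalPeriod σ x) n with h6 | h6
  · exact absurd (NullCyc_pow_period σ x) (h2 _ h5 h6)
  · omega

theorem NullCyc_cycProd_eq {L K : Type*} [Monoid K] (σ : Perm L) (w : L → K) (x : L) {n : ℕ}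
    (hn : 0 < n) (h1 : (σ ^ n) x = x) (h2 : ∀ k, 0 < k → k < n → (σ ^ k) x ≠ x) :
    cycProd σ w x = ((List.range n).map (fun i => w ((σ ^ i) x))).prod := by
  unfold cycProd
  rw [NullCyc_period_eq σ x hn h1 h2]

theorem NullCyc_pow_ne_pow {L : Type*} (σ : Perm L) (x : L) {i k : ℕ} (hk : 0 < k)
    (hk2 : k < Function.minimalPeriod σ x) : (σ ^ (k + i)) x ≠ (σ ^ i) x := by
  intro h
  rw [add_comm, pow_add, Perm.mul_apply] at h
  exact NullCyc_pow_ne σ x hk hk2 ((σ ^ i).injective h)

/-- the product at the next base point -/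
theorem NullCyc_cycProd_succ {L K : Type*} [Finite L] [Group K] (σ : Perm L) (w : L → K) (x : L) :
    cycProd σ w (σ x) = (w x)⁻¹ * cycProd σ w x * w x := by
  have hpos := NullCyc_period_pos σ x
  have hx : x ∈ Function.periodicPts σ := by
    rw [← Function.minimalPeriod_pos_iff_mem_periodicPts]
    exact hpos
  have e1 : cycProd σ w (σ x) =
      ((List.range (Function.minimalPeriod σ x)).map (fun i => w ((σ ^ (i + 1)) x))).prod := by
    unfold cycProd
    rw [Function.minimalPeriod_apply hx]
    congr 1
  have e2 : ((List.range (Function.minimalPeriod σ x + 1)).map (fun i => w ((σ ^ i) x))).prod =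
      w x * cycProd σ w (σ x) := by
    rw [List.range_succ_eq_map, List.map_cons, List.prod_cons, List.map_map, e1]
    congr 1
  have e3 : ((List.range (Function.minimalPeriod σ x + 1)).map (fun i => w ((σ ^ i) x))).prod =
      cycProd σ w x * w x := by
    rw [List.range_succ, List.map_append, List.prod_append, List.map_singleton,
      List.prod_singleton, NullCyc_pow_period]
    rfl
  rw [e2] at e3
  rw [mul_assoc, ← e3, inv_mul_cancel_left]

theorem NullCyc_cycProd_one {L K : Type*} [Finite L] [Group K] (σ : Perm L) (w : L → K) (x : L)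
    (h : cycProd σ w x = 1) (i : ℕ) : cycProd σ w ((σ ^ i) x) = 1 := by
  induction i with
  | zero => exact h
  | succ i ih =>
    rw [pow_succ', Perm.mul_apply, NullCyc_cycProd_succ, ih, mul_one, inv_mul_cancel]

/-! ### bounding chains -/

/-- the chain bounds a surface with `-2χ ≤ c` -/
def NullCyc_Bd {ι L : Type*} (σ : Perm L) (lab : L → ι × Bool) (c : ℤ) : Prop :=
  ∃ π, IsPairing lab π ∧ E2 σ π ≤ c

theorem NullCyc_Bd_mono {ι L : Type*} {σ : Perm L} {lab : L → ι × Bool} {c c' : ℤ}
    (h : NullCyc_Bd σ lab c) (hc : c ≤ c') : NullCyc_Bd σ lab c' := by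
  obtain ⟨π, h1, h2⟩ := h
  exact ⟨π, h1, h2.trans hc⟩

theorem NullCyc_Bd_iso_aux {ι L M : Type*} (e : M ≃ L) (σ : Perm L) (τ : Perm M)
    (lab : L → ι × Bool) (h : ∀ m, e (τ m) = σ (e m)) {c : ℤ}
    (hb : NullCyc_Bd τ (fun m => lab (e m)) c) : NullCyc_Bd σ lab c := by
  obtain ⟨π, h1, h2⟩ := hb
  refine ⟨e.permCongr π, ⟨?_, ?_⟩, ?_⟩
  · intro x
    rw [Equiv.permCongr_apply, Equiv.permCongr_apply, e.symm_apply_apply, h1.invol,
      e.apply_symm_apply]
  · intro x
    rw [Equiv.permCongr_apply]
    have h3 := h1.lab_inv (e.symm x)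
    rw [e.apply_symm_apply] at h3
    exact h3
  · have h4 : σ * e.permCongr π = e.permCongr (τ * π) := by
      ext x
      rw [Perm.mul_apply, Equiv.permCongr_apply, Equiv.permCongr_apply, Perm.mul_apply, h]
    unfold E2 at h2 ⊢
    rw [h4, ncyc_permCongr, ← Nat.card_congr e]
    exact h2

theorem NullCyc_Bd_iso {ι L M : Type*} (e : M ≃ L) (σ : Perm L) (τ : Perm M)
    (lab : L → ι × Bool) (h : ∀ m, e (τ m) = σ (e m)) {c : ℤ} :
    NullCyc_Bd τ (fun m => lab (e m)) c ↔ NullCyc_Bd σ lab c := by
  constructor
  · exact NullCyc_Bd_iso_aux e σ τ lab h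
  · intro hb
    apply NullCyc_Bd_iso_aux e.symm τ σ (fun m => lab (e m))
    · intro x
      rw [Equiv.symm_apply_eq, h, e.apply_symm_apply]
    · simp only [e.apply_symm_apply]
      exact hb

/-- `(M, τ)` is the part of `(L, σ)` outside the cycles of `X` -/
structure NullCyc_Sub {L M : Type*} (σ : Perm L) (τ : Perm M) (j : M → L) (X : List L) :
    Prop where
  inj : Function.Injective j
  comm : ∀ m, j (τ m) = σ (j m)
  range : ∀ z, (∃ m, j m = z) ↔ ∀ x ∈ X, ¬ σ.SameCycle x z

theorem NullCyc_Sub.not_mem {L M : Type*} {σ : Perm L} {τ : Perm M} {j : M → L} {X : List L}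
    (h : NullCyc_Sub σ τ j X) {x : L} (hx : x ∈ X) {z : L} (hz : σ.SameCycle x z) (m : M) :
    j m ≠ z := by
  intro h1
  exact (h.range z).1 ⟨m, h1⟩ x hx hz

/-- the letters of a chain with trivial product contain an adjacent inverse pair -/
theorem NullCyc_exists_adj {Ω L : Type*} [Finite L] (t : Fin 2 → Perm Ω) (σ : Perm L)
    (lab : L → (Ω × Fin 2) × Bool) (hp : IsPath t σ lab) (x : L)
    (h1 : cycProd σ (fun z => fval (lab z)) x = 1) :
    ∃ i : ℕ, lab (σ ((σ ^ i) x)) = linv (lab ((σ ^ i) x)) := by
  set ℓ := Function.minimalPeriod σ x with hℓ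
  have hpos : 0 < ℓ := NullCyc_period_pos σ x
  let f : ℕ → Fin 2 × Bool := fun i => ((lab ((σ ^ i) x)).1.2, (lab ((σ ^ i) x)).2)
  have hmk : ∀ l : List ℕ, (l.map (fun i => fval (lab ((σ ^ i) x)))).prod =
      FreeGroup.mk (l.map f) := by
    intro l
    induction l with
    | nil => rfl
    | cons a l ih =>
      rw [List.map_cons, List.prod_cons, ih, List.map_cons]
      change FreeGroup.mk [f a] * _ = _
      rw [FreeGroup.mul_mk]
      rfl
  have hw : FreeGroup.mk ((List.range ℓ).map f) = 1 := by
    rw [← hmk]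
    exact h1
  have hred : FreeGroup.reduce ((List.range ℓ).map f) = [] := by
    rw [← FreeGroup.toWord_mk, hw, FreeGroup.toWord_one]
  have hnot : ¬ FreeGroup.IsReduced ((List.range ℓ).map f) := by
    intro h2
    rw [h2.reduce_eq] at hred
    have h3 := congrArg List.length hred
    rw [List.length_map, List.length_range] at h3
    simp at h3
    omega
  unfold FreeGroup.IsReduced at hnot
  rw [List.isChain_iff_getElem] at hnot
  push Not at hnot
  obtain ⟨i, hi, h2, h3⟩ := hnot
  rw [List.getElem_map, List.getElem_map, List.getElem_range, List.getElem_range] at h2 h3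
  refine ⟨i, ?_⟩
  have e0 : σ ((σ ^ i) x) = (σ ^ (i + 1)) x := by
    rw [pow_succ', Perm.mul_apply]
  have hpath := hp ((σ ^ i) x)
  rw [e0] at hpath ⊢
  change (lab ((σ ^ i) x)).1.2 = (lab ((σ ^ (i + 1)) x)).1.2 at h2
  change (lab ((σ ^ i) x)).2 ≠ (lab ((σ ^ (i + 1)) x)).2 at h3
  rcases ha : lab ((σ ^ i) x) with ⟨⟨y, s⟩, β⟩
  rcases hb : lab ((σ ^ (i + 1)) x) with ⟨⟨y', s'⟩, β'⟩
  rw [ha, hb] at h2 h3 hpath
  change s = s' at h2
  change β ≠ β' at h3
  subst h2
  have hβ : β' = !β := by
    cases β <;> cases β' <;> simp_all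
  subst hβ
  unfold tl linv at hpath
  unfold linv
  have hy : y' = y := by
    cases β
    · simpa using hpath
    · simpa using hpath
  rw [hy]

theorem NullCyc_fval_linv {Ω : Type*} (l : (Ω × Fin 2) × Bool) : fval (linv l) = (fval l)⁻¹ := by
  unfold fval linv
  rw [FreeGroup.inv_mk]
  rfl

theorem NullCyc_mapL_linv {ι κ : Type*} (q : ι → κ) (a : ι × Bool) :
    mapL q (linv a) = linv (mapL q a) := rfl

/-- cutting an adjacent pair: `cutFun` -/
theorem NullCyc_cutFun {L : Type*} [DecidableEq L] (σ : Perm L) {a b : L} (hab : a ≠ b)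
    (hσ : σ a = b) {z : L} (hza : z ≠ a) :
    cutFun σ a b z = if σ z = a then σ b else σ z := by
  unfold cutFun
  have h1 : σ b ≠ b := by
    intro h
    rw [← hσ] at h
    exact hab (by rw [← σ.injective h]; exact hσ.symm ▸ rfl)
  have h2 : σ z ≠ b := by
    intro h
    rw [← hσ] at h
    exact hza (σ.injective h)
  rw [if_neg h1, if_neg h2]

theorem NullCyc_same {L : Type*} [Finite L] [DecidableEq L] (σ : Perm L) {a b : L} (hab : a ≠ b)
    (hσ : σ a = b) (σ1 : Perm {z : L // z ≠ a ∧ z ≠ b}) (h1 : IsCut σ a b σ1)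
    (z w : {z : L // z ≠ a ∧ z ≠ b}) : σ1.SameCycle z w ↔ σ.SameCycle (z : L) (w : L) := by
  have hval : ∀ z : {z : L // z ≠ a ∧ z ≠ b}, ((σ1 z : {z : L // z ≠ a ∧ z ≠ b}) : L) =
      if σ z = a then σ b else σ z := by
    intro z
    rw [h1 z, NullCyc_cutFun σ hab hσ z.2.1]
  constructor
  · intro h
    obtain ⟨n, hn⟩ := h.exists_nat_pow_eq
    rw [← hn]
    have hstep : ∀ z : {z : L // z ≠ a ∧ z ≠ b},
        σ.SameCycle (z : L) (σ1 z : {z : L // z ≠ a ∧ z ≠ b}) := by
      intro z
      rw [hval z]
      by_cases h2 : σ z = a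
      · rw [if_pos h2]
        refine ⟨3, ?_⟩
        rw [show (3 : ℤ) = ((3 : ℕ) : ℤ) from rfl, zpow_natCast, pow_succ', pow_two,
          Perm.mul_apply, Perm.mul_apply, h2, hσ]
      · rw [if_neg h2]
        exact ⟨1, by rw [zpow_one]⟩
    clear hn h
    induction n generalizing z with
    | zero => exact ⟨0, rfl⟩
    | succ n ih =>
      rw [pow_succ, Perm.mul_apply]
      exact (hstep z).trans (ih (σ1 z))
  · intro h
    obtain ⟨n, hn⟩ := h.exists_nat_pow_eq
    clear h
    induction n using Nat.strong_induction_on generalizing z with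
    | _ n ih =>
      rcases n with - | n
      · have : z = w := Subtype.ext hn
        rw [this]
      · rw [pow_succ, Perm.mul_apply] at hn
        have h0 := hval z
        by_cases h2 : σ z = a
        · rw [if_pos h2] at h0
          rcases n with - | n
          · exfalso
            rw [pow_zero, Perm.one_apply, h2] at hn
            exact w.2.1 hn.symm
          · rw [pow_succ, Perm.mul_apply, h2, hσ] at hn
            rcases n with - | n
            · exfalso
              rw [pow_zero, Perm.one_apply] at hn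
              exact w.2.2 hn.symm
            · rw [pow_succ, Perm.mul_apply, ← h0] at hn
              exact Perm.SameCycle.trans ⟨1, by rw [zpow_one]⟩ (ih n (by omega) (σ1 z) hn)
        · rw [if_neg h2] at h0
          rw [← h0] at hn
          exact Perm.SameCycle.trans ⟨1, by rw [zpow_one]⟩ (ih n (by omega) (σ1 z) hn)

/-- Step 1: one cycle with trivial product -/
theorem NullCyc_one {Ω : Type*} {κ : Type*} (t : Fin 2 → Perm Ω) (q : Ω × Fin 2 → κ) (n : ℕ) :
    ∀ (L : Type u) (_ : Finite L) (_ : Nat.card L = n) (σ : Perm L)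
      (lab : L → (Ω × Fin 2) × Bool) (_ : IsPath t σ lab) (x : L)
      (_ : cycProd σ (fun z => fval (lab z)) x = 1)
      (M : Type v) (τ : Perm M) (j : M → L) (_ : NullCyc_Sub σ τ j [x]),
      (∀ c, NullCyc_Bd σ (fun z => mapL q (lab z)) c →
        NullCyc_Bd τ (fun m => mapL q (lab (j m))) (c + 2)) ∧
      (∀ c, NullCyc_Bd τ (fun m => lab (j m)) c → NullCyc_Bd σ lab (c + 2)) := by
  classical
  induction n using Nat.strong_induction_on with
  | _ n ih =>
    intro L _ hn σ lab hp x hx M τ j hs
    obtain ⟨i, hi⟩ := NullCyc_exists_adj t σ lab hp x hx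
    have hxa : σ.SameCycle x ((σ ^ i) x) := ⟨i, by rw [zpow_natCast]⟩
    have hca := NullCyc_cycProd_one σ (fun z => fval (lab z)) x hx i
    generalize hgen : (σ ^ i) x = a at hi hxa hca
    have hsa : NullCyc_Sub σ τ j [a] := by
      refine ⟨hs.inj, hs.comm, ?_⟩
      intro z
      rw [hs.range z]
      simp only [List.mem_singleton, forall_eq]
      constructor
      · intro h1 h2
        exact h1 (hxa.trans h2)
      · intro h1 h2
        exact h1 (hxa.symm.trans h2)
    clear hs hx hxa hgen
    set b := σ a with hb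
    have hab : a ≠ b := by
      intro h
      rw [← h] at hi
      have h2 := congrArg Prod.snd hi
      change (lab a).2 = !(lab a).2 at h2
      cases h3 : (lab a).2
      · rw [h3] at h2
        exact absurd h2 (by decide)
      · rw [h3] at h2
        exact absurd h2 (by decide)
    have hSab : σ.SameCycle a b := ⟨1, by rw [zpow_one]⟩
    have hja : ∀ m, j m ≠ a := fun m =>
      hsa.not_mem (List.mem_singleton.2 rfl) (Perm.SameCycle.refl _ _) m
    have hjb : ∀ m, j m ≠ b := fun m => hsa.not_mem (List.mem_singleton.2 rfl) hSab m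
    obtain ⟨σ1, hσ1⟩ := exists_cut σ hab
    have hval : ∀ z : {z : L // z ≠ a ∧ z ≠ b}, ((σ1 z : {z : L // z ≠ a ∧ z ≠ b}) : L) =
        if σ z = a then σ b else σ z := by
      intro z
      rw [hσ1 z, NullCyc_cutFun σ hab hb.symm z.2.1]
    let j1 : M → {z : L // z ≠ a ∧ z ≠ b} := fun m => ⟨j m, hja m, hjb m⟩
    have hcomm1 : ∀ m, j1 (τ m) = σ1 (j1 m) := by
      intro m
      apply Subtype.ext
      rw [hval]
      change j (τ m) = if σ (j m) = a then σ b else σ (j m)
      rw [if_neg, hsa.comm]
      rw [← hsa.comm]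
      exact hja _
    have hcutR : ∀ c, NullCyc_Bd σ (fun z => mapL q (lab z)) c →
        NullCyc_Bd σ1 (fun z => mapL q (lab z)) (c + 2 * (if σ b = a then 1 else 0)) := by
      rintro c ⟨π, h1, h2⟩
      obtain ⟨π', h3, h4⟩ := cut_adj σ hab hb.symm (fun z => mapL q (lab z))
        (by rw [hi, NullCyc_mapL_linv]) σ1 hσ1 π h1
      exact ⟨π', h3, by linarith⟩
    have hcutI : ∀ c, NullCyc_Bd σ1 (fun z => lab z) c → NullCyc_Bd σ lab c := by
      rintro c ⟨π', h1, h2⟩
      obtain ⟨π, h3, -, h4⟩ := cut_extend σ hab lab hi σ1 π' hσ1 h1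
      refine ⟨π, h3, ?_⟩
      have h5 : (1 : ℤ) ≤ (c0 σ a b : ℤ) := by
        have : 1 ≤ c0 σ a b := by
          unfold c0
          rw [if_pos hb.symm]
          omega
        exact_mod_cast this
      linarith
    have hSame := NullCyc_same σ hab hb.symm σ1 hσ1
    by_cases hba : σ b = a
    · -- the cycle disappears
      have hcyc : ∀ z, σ.SameCycle a z → z = a ∨ z = b := by
        intro z hz
        obtain ⟨k, hk⟩ := hz.exists_nat_pow_eq
        have hall : ∀ k : ℕ, (σ ^ k) a = a ∨ (σ ^ k) a = b := by
          intro k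
          induction k with
          | zero => exact Or.inl rfl
          | succ k ihk =>
            rw [pow_succ', Perm.mul_apply]
            rcases ihk with h | h
            · rw [h]
              exact Or.inr rfl
            · rw [h]
              exact Or.inl hba
        rw [← hk]
        exact hall k
      have hbij : Function.Bijective j1 := by
        constructor
        · intro m m' h
          exact hsa.inj (congrArg Subtype.val h)
        · intro z
          obtain ⟨m, hm⟩ := (hsa.range z).2 (by
            intro y hy hyz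
            rw [List.mem_singleton] at hy
            subst hy
            rcases hcyc z hyz with h | h
            · exact z.2.1 h
            · exact z.2.2 h)
          exact ⟨m, Subtype.ext hm⟩
      let e : M ≃ {z : L // z ≠ a ∧ z ≠ b} := Equiv.ofBijective j1 hbij
      constructor
      · intro c hc
        have h1 := hcutR c hc
        rw [if_pos hba] at h1
        exact (NullCyc_Bd_iso e σ1 τ (fun z : {z : L // z ≠ a ∧ z ≠ b} => mapL q (lab z))
          hcomm1).2 (by simpa using h1)
      · intro c hc
        have h1 := (NullCyc_Bd_iso e σ1 τ (fun z : {z : L // z ≠ a ∧ z ≠ b} => lab z)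
          hcomm1).1 hc
        exact NullCyc_Bd_mono (hcutI c h1) (by linarith)
    · -- the cycle becomes shorter
      have hbb : σ b ≠ b := by
        intro h
        rw [hb] at h
        exact hab (σ.injective h).symm
      let x' : {z : L // z ≠ a ∧ z ≠ b} := ⟨σ b, hba, hbb⟩
      have hcard : Nat.card {z : L // z ≠ a ∧ z ≠ b} < n := by
        have := Cut_card hab
        omega
      have hs1 : NullCyc_Sub σ1 τ j1 [x'] := by
        refine ⟨fun m m' h => hsa.inj (congrArg Subtype.val h), hcomm1, ?_⟩
        intro z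
        simp only [List.mem_singleton, forall_eq]
        rw [hSame]
        have h1 := hsa.range z
        simp only [List.mem_singleton, forall_eq] at h1
        have h2 : σ.SameCycle a (x' : L) := ⟨2, by
          rw [show (2 : ℤ) = ((2 : ℕ) : ℤ) from rfl, zpow_natCast, pow_two, Perm.mul_apply]⟩
        constructor
        · rintro ⟨m, hm⟩ h3
          exact h1.1 ⟨m, congrArg Subtype.val hm⟩ (h2.trans h3)
        · intro h3
          obtain ⟨m, hm⟩ := h1.2 (fun h4 => h3 (h2.symm.trans h4))
          exact ⟨m, Subtype.ext hm⟩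
      -- the period
      obtain ⟨p, hp3⟩ : ∃ p, Function.minimalPeriod σ a = p + 3 := by
        have hpos := NullCyc_period_pos σ a
        have hper := NullCyc_pow_period σ a
        rcases hm : Function.minimalPeriod σ a with - | m
        · omega
        · rcases m with - | m
          · exfalso
            rw [hm, pow_one] at hper
            exact hab hper.symm
          · rcases m with - | m
            · exfalso
              rw [hm, zero_add, pow_succ', pow_one, Perm.mul_apply] at hper
              exact hba hper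
            · exact ⟨m, rfl⟩
      have hper := NullCyc_pow_period σ a
      rw [hp3] at hper
      have hpow : ∀ k, k + 2 < p + 3 →
          (((σ1 ^ k) x' : {z : L // z ≠ a ∧ z ≠ b}) : L) = (σ ^ (k + 2)) a := by
        intro k
        induction k with
        | zero =>
          intro _
          rw [pow_zero, Perm.one_apply, zero_add, pow_two, Perm.mul_apply]
        | succ k ihk =>
          intro hk
          rw [pow_succ', Perm.mul_apply, hval, ihk (by omega)]
          have h1 : σ ((σ ^ (k + 2)) a) = (σ ^ (k + 1 + 2)) a := by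
            rw [← Perm.mul_apply, ← pow_succ']
          rw [h1, if_neg]
          exact NullCyc_pow_ne σ a (by omega) (by omega)
      have hper1 : (σ1 ^ (p + 1)) x' = x' := by
        apply Subtype.ext
        rw [pow_succ', Perm.mul_apply, hval, hpow p (by omega)]
        have h1 : σ ((σ ^ (p + 2)) a) = a := by
          rw [← Perm.mul_apply, ← pow_succ']
          exact hper
        rw [if_pos h1]
      have hne1 : ∀ k, 0 < k → k < p + 1 → (σ1 ^ k) x' ≠ x' := by
        intro k hk hk2 h
        have h1 := congrArg Subtype.val h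
        rw [hpow k (by omega)] at h1
        have h2 : ((x' : {z : L // z ≠ a ∧ z ≠ b}) : L) = (σ ^ 2) a := by
          rw [pow_two, Perm.mul_apply]
        rw [h2] at h1
        exact NullCyc_pow_ne_pow σ a hk (by omega) h1
      have hprod1 : cycProd σ1 (fun z : {z : L // z ≠ a ∧ z ≠ b} => fval (lab z)) x' = 1 := by
        rw [NullCyc_cycProd_eq σ1 _ x' (n := p + 1) (by omega) hper1 hne1]
        have e1 : (List.range (p + 1)).map (fun i =>
            fval (lab (((σ1 ^ i) x' : {z : L // z ≠ a ∧ z ≠ b}) : L))) =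
            (List.range (p + 1)).map (fun i => fval (lab ((σ ^ (i + 2)) a))) := by
          apply List.map_congr_left
          intro i hi
          rw [List.mem_range] at hi
          rw [hpow i (by omega)]
        rw [e1]
        have e2 := hca
        unfold cycProd at e2
        rw [hp3, List.range_succ_eq_map, List.range_succ_eq_map, List.map_cons, List.map_cons,
          List.map_cons, List.prod_cons, List.prod_cons, ← mul_assoc] at e2
        have e3 : fval (lab ((σ ^ 0) a)) * fval (lab ((σ ^ (Nat.succ 0)) a)) = 1 := by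
          rw [pow_zero, Perm.one_apply, show Nat.succ 0 = 1 from rfl, pow_one, ← hb, hi,
            NullCyc_fval_linv, mul_inv_cancel]
        rw [e3, one_mul, List.map_map, List.map_map] at e2
        exact e2
      have hih := ih _ hcard {z : L // z ≠ a ∧ z ≠ b} inferInstance rfl σ1
        (fun z : {z : L // z ≠ a ∧ z ≠ b} => lab z)
        (cut_isPath t σ hab lab hi σ1 hσ1 hp) x' hprod1 M τ j1 hs1
      constructor
      · intro c hc
        have h1 := hcutR c hc
        rw [if_neg hba, mul_zero, add_zero] at h1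
        exact hih.1 c h1
      · intro c hc
        exact hcutI _ (hih.2 c hc)

/-! ### merging two cycles -/

section Merge

variable {L : Type*} [Finite L] [DecidableEq L]

/-- the permutation with the cycles of `x` and `y` merged -/
def NullCyc_mrg (σ : Perm L) (x y : L) : Perm L := σ * swap (σ.symm x) (σ.symm y)

omit [Finite L] in
theorem NullCyc_mrg_apply (σ : Perm L) (x y z : L) : NullCyc_mrg σ x y z =
    if σ z = x then y else if σ z = y then x else σ z := by
  unfold NullCyc_mrg
  rw [Perm.mul_apply, swap_apply_def]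
  by_cases h1 : σ z = x
  · have h2 : z = σ.symm x := by rw [← h1, σ.symm_apply_apply]
    rw [if_pos h1, if_pos h2, σ.apply_symm_apply]
  · have h2 : z ≠ σ.symm x := by
      intro h
      apply h1
      rw [h, σ.apply_symm_apply]
    rw [if_neg h1, if_neg h2]
    by_cases h3 : σ z = y
    · have h4 : z = σ.symm y := by rw [← h3, σ.symm_apply_apply]
      rw [if_pos h3, if_pos h4, σ.apply_symm_apply]
    · have h4 : z ≠ σ.symm y := by
        intro h
        apply h3
        rw [h, σ.apply_symm_apply]
      rw [if_neg h3, if_neg h4]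

variable {σ : Perm L} {x y : L}

omit [Finite L] [DecidableEq L] in
theorem NullCyc_same_pow (σ : Perm L) (x : L) (n : ℕ) : σ.SameCycle x ((σ ^ n) x) :=
  ⟨n, by rw [zpow_natCast]⟩

omit [Finite L] in
theorem NullCyc_mrg_pow_left (hxy : ¬ σ.SameCycle x y) (k : ℕ)
    (hk : k < Function.minimalPeriod σ x) : ((NullCyc_mrg σ x y) ^ k) x = (σ ^ k) x := by
  induction k with
  | zero => rfl
  | succ k ih =>
    have e : σ ((σ ^ k) x) = (σ ^ (k + 1)) x := by rw [← Perm.mul_apply, ← pow_succ']
    rw [pow_succ', Perm.mul_apply, ih (by omega), NullCyc_mrg_apply, e, if_neg, if_neg]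
    · intro h
      exact hxy (h ▸ NullCyc_same_pow σ x (k + 1))
    · exact NullCyc_pow_ne σ x (by omega) hk

theorem NullCyc_mrg_pow_period (hxy : ¬ σ.SameCycle x y) :
    ((NullCyc_mrg σ x y) ^ (Function.minimalPeriod σ x)) x = y := by
  have hpos := NullCyc_period_pos σ x
  have hper := NullCyc_pow_period σ x
  obtain ⟨p, hp⟩ : ∃ p, Function.minimalPeriod σ x = p + 1 :=
    ⟨Function.minimalPeriod σ x - 1, by omega⟩
  rw [hp] at hper ⊢
  rw [pow_succ', Perm.mul_apply, NullCyc_mrg_pow_left hxy p (by omega), NullCyc_mrg_apply]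
  have e : σ ((σ ^ p) x) = x := by
    rw [← Perm.mul_apply, ← pow_succ']
    exact hper
  rw [if_pos e]

theorem NullCyc_mrg_pow_right (hxy : ¬ σ.SameCycle x y) (k : ℕ)
    (hk : k < Function.minimalPeriod σ y) :
    ((NullCyc_mrg σ x y) ^ (Function.minimalPeriod σ x + k)) x = (σ ^ k) y := by
  induction k with
  | zero => exact NullCyc_mrg_pow_period hxy
  | succ k ih =>
    have e : σ ((σ ^ k) y) = (σ ^ (k + 1)) y := by rw [← Perm.mul_apply, ← pow_succ']
    rw [← add_assoc, pow_succ', Perm.mul_apply, ih (by omega), NullCyc_mrg_apply, e, if_neg,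
      if_neg]
    · exact NullCyc_pow_ne σ y (by omega) hk
    · intro h
      apply hxy
      have := NullCyc_same_pow σ y (k + 1)
      rw [h] at this
      exact this.symm

theorem NullCyc_mrg_pow_full (hxy : ¬ σ.SameCycle x y) :
    ((NullCyc_mrg σ x y) ^ (Function.minimalPeriod σ x + Function.minimalPeriod σ y)) x = x := by
  have hpos := NullCyc_period_pos σ y
  have hper := NullCyc_pow_period σ y
  obtain ⟨p, hp⟩ : ∃ p, Function.minimalPeriod σ y = p + 1 :=
    ⟨Function.minimalPeriod σ y - 1, by omega⟩
  rw [hp] at hper ⊢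
  rw [← add_assoc, pow_succ', Perm.mul_apply, NullCyc_mrg_pow_right hxy p (by omega),
    NullCyc_mrg_apply]
  have e : σ ((σ ^ p) y) = y := by
    rw [← Perm.mul_apply, ← pow_succ']
    exact hper
  rw [e, if_pos rfl, if_neg]
  intro h
  exact hxy (h ▸ Perm.SameCycle.refl _ _)

theorem NullCyc_mrg_cycProd {K : Type*} [Monoid K] (w : L → K) (hxy : ¬ σ.SameCycle x y) :
    cycProd (NullCyc_mrg σ x y) w x = cycProd σ w x * cycProd σ w y := by
  have hposx := NullCyc_period_pos σ x
  have hposy := NullCyc_period_pos σ y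
  rw [NullCyc_cycProd_eq (NullCyc_mrg σ x y) w x
    (n := Function.minimalPeriod σ x + Function.minimalPeriod σ y) (by omega)
    (NullCyc_mrg_pow_full hxy) ?_]
  · rw [List.range_add, List.map_append, List.prod_append]
    congr 1
    · unfold cycProd
      congr 1
      apply List.map_congr_left
      intro i hi
      rw [List.mem_range] at hi
      rw [NullCyc_mrg_pow_left hxy i hi]
    · unfold cycProd
      rw [List.map_map]
      congr 1
      apply List.map_congr_left
      intro i hi
      rw [List.mem_range] at hi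
      change w (((NullCyc_mrg σ x y) ^ (Function.minimalPeriod σ x + i)) x) = _
      rw [NullCyc_mrg_pow_right hxy i hi]
  · intro k hk hk2
    rcases Nat.lt_or_ge k (Function.minimalPeriod σ x) with h | h
    · rw [NullCyc_mrg_pow_left hxy k h]
      exact NullCyc_pow_ne σ x hk h
    · obtain ⟨i, rfl⟩ := Nat.exists_eq_add_of_le h
      rw [NullCyc_mrg_pow_right hxy i (by omega)]
      intro h2
      apply hxy
      have := NullCyc_same_pow σ y i
      rw [h2] at this
      exact this.symm

omit [Finite L] in
theorem NullCyc_mrg_pow_other {z : L} (hx : ¬ σ.SameCycle x z) (hy : ¬ σ.SameCycle y z) (n : ℕ) :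
    ((NullCyc_mrg σ x y) ^ n) z = (σ ^ n) z := by
  induction n with
  | zero => rfl
  | succ n ih =>
    have e : σ ((σ ^ n) z) = (σ ^ (n + 1)) z := by rw [← Perm.mul_apply, ← pow_succ']
    have hsame := NullCyc_same_pow σ z (n + 1)
    rw [pow_succ', Perm.mul_apply, ih, NullCyc_mrg_apply, e, if_neg, if_neg]
    · intro h
      rw [h] at hsame
      exact hy hsame.symm
    · intro h
      rw [h] at hsame
      exact hx hsame.symm

theorem NullCyc_mrg_cycProd_other {K : Type*} [Monoid K] (w : L → K) {z : L}
    (hx : ¬ σ.SameCycle x z) (hy : ¬ σ.SameCycle y z) :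
    cycProd (NullCyc_mrg σ x y) w z = cycProd σ w z := by
  rw [NullCyc_cycProd_eq (NullCyc_mrg σ x y) w z (n := Function.minimalPeriod σ z)
    (NullCyc_period_pos σ z) ?_ ?_]
  · unfold cycProd
    congr 1
    apply List.map_congr_left
    intro i _
    rw [NullCyc_mrg_pow_other hx hy]
  · rw [NullCyc_mrg_pow_other hx hy, NullCyc_pow_period]
  · intro k hk hk2
    rw [NullCyc_mrg_pow_other hx hy]
    exact NullCyc_pow_ne σ z hk hk2

theorem NullCyc_mrg_same_other {z w : L}
    (hx : ¬ σ.SameCycle x z) (hy : ¬ σ.SameCycle y z) :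
    (NullCyc_mrg σ x y).SameCycle z w ↔ σ.SameCycle z w := by
  constructor
  · intro h
    obtain ⟨n, hn⟩ := h.exists_nat_pow_eq
    rw [NullCyc_mrg_pow_other hx hy] at hn
    exact ⟨n, by rw [zpow_natCast, hn]⟩
  · intro h
    obtain ⟨n, hn⟩ := h.exists_nat_pow_eq
    rw [← NullCyc_mrg_pow_other hx hy] at hn
    exact ⟨n, by rw [zpow_natCast, hn]⟩

theorem NullCyc_mrg_same (hxy : ¬ σ.SameCycle x y) (z : L) :
    (NullCyc_mrg σ x y).SameCycle x z ↔ σ.SameCycle x z ∨ σ.SameCycle y z := by
  constructor
  · intro h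
    by_contra hcon
    rw [not_or] at hcon
    have h1 := (NullCyc_mrg_same_other hcon.1 hcon.2).1 h.symm
    exact hcon.1 h1.symm
  · rintro (h | h)
    · obtain ⟨n, hn, hn2⟩ := h.exists_pow_eq'
      have h1 : (σ ^ (n % Function.minimalPeriod σ x)) x = z := by
        rw [← hn2]
        have h2 := Function.iterate_mod_minimalPeriod_eq (f := σ) (x := x) (n := n)
        rw [Perm.iterate_eq_pow, Perm.iterate_eq_pow] at h2
        exact h2
      rw [← NullCyc_mrg_pow_left hxy _ (Nat.mod_lt _ (NullCyc_period_pos σ x))] at h1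
      exact ⟨_, by rw [zpow_natCast, h1]⟩
    · obtain ⟨n, hn, hn2⟩ := h.exists_pow_eq'
      have h1 : (σ ^ (n % Function.minimalPeriod σ y)) y = z := by
        rw [← hn2]
        have h2 := Function.iterate_mod_minimalPeriod_eq (f := σ) (x := y) (n := n)
        rw [Perm.iterate_eq_pow, Perm.iterate_eq_pow] at h2
        exact h2
      rw [← NullCyc_mrg_pow_right hxy _ (Nat.mod_lt _ (NullCyc_period_pos σ y))] at h1
      exact ⟨_, by rw [zpow_natCast, h1]⟩

theorem NullCyc_mrg_E2 (σ π : Perm L) (x y : L) :
    E2 (NullCyc_mrg σ x y) π ≤ E2 σ π + 2 ∧ E2 σ π ≤ E2 (NullCyc_mrg σ x y) π + 2 := by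
  have e1 : ncyc (NullCyc_mrg σ x y * π) = ncyc (π * σ * swap (σ.symm x) (σ.symm y)) := by
    unfold NullCyc_mrg
    rw [ncyc_mul_comm]
    congr 1
  have e2 : ncyc (σ * π) = ncyc (π * σ) := ncyc_mul_comm _ _
  have e3 := ncyc_le_mul_swap (π * σ) (σ.symm x) (σ.symm y)
  have e4 := ncyc_le_mul_swap (π * σ * swap (σ.symm x) (σ.symm y)) (σ.symm x) (σ.symm y)
  rw [mul_assoc (π * σ), swap_mul_self, mul_one] at e4
  unfold E2
  rw [e1, e2]
  constructor
  · have : (ncyc (π * σ) : ℤ) ≤ ncyc (π * σ * swap (σ.symm x) (σ.symm y)) + 1 := by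
      exact_mod_cast e3
    linarith
  · have : (ncyc (π * σ * swap (σ.symm x) (σ.symm y)) : ℤ) ≤ ncyc (π * σ) + 1 := by
      exact_mod_cast e4
    linarith

end Merge

/-- Step 2 -/
theorem NullCyc_list {Ω κ : Type*} {L : Type u} [Finite L] (t : Fin 2 → Perm Ω)
    (q : Ω × Fin 2 → κ) (lab : L → (Ω × Fin 2) × Bool) (ω : Ω)
    (M : Type v) (τ : Perm M) (j : M → L) (n : ℕ) :
    ∀ (X : List L) (_ : X.length = n) (σ : Perm L) (_ : IsPath t σ lab)
      (_ : X.Pairwise fun x y => ¬ σ.SameCycle x y) (_ : ∀ x ∈ X, tl t (lab x) = ω)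
      (_ : (X.map (cycProd σ fun z => fval (lab z))).prod = 1)
      (_ : NullCyc_Sub σ τ j X),
      (∀ c, NullCyc_Bd σ (fun z => mapL q (lab z)) c →
        NullCyc_Bd τ (fun m => mapL q (lab (j m))) (c + 2 * X.length)) ∧
      (∀ c, NullCyc_Bd τ (fun m => lab (j m)) c → NullCyc_Bd σ lab (c + 2 * X.length)) := by
  classical
  induction n with
  | zero =>
    intro X hn σ hp hX hω h1 hs
    rw [List.length_eq_zero_iff] at hn
    subst hn
    have hbij : Function.Bijective j := by
      refine ⟨hs.inj, ?_⟩
      intro z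
      exact (hs.range z).2 (fun x hx => absurd hx List.not_mem_nil)
    let e : M ≃ L := Equiv.ofBijective j hbij
    constructor
    · intro c hc
      exact NullCyc_Bd_mono ((NullCyc_Bd_iso e σ τ (fun z => mapL q (lab z)) hs.comm).2 hc)
        (by simp)
    · intro c hc
      exact NullCyc_Bd_mono ((NullCyc_Bd_iso e σ τ lab hs.comm).1 hc) (by simp)
  | succ n ih =>
    intro X hn σ hp hX hω h1 hs
    rcases X with - | ⟨x, X⟩
    · simp at hn
    · rcases X with - | ⟨y, X⟩
      · rw [List.map_singleton, List.prod_singleton] at h1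
        have h2 := NullCyc_one t q _ L inferInstance rfl σ lab hp x h1 M τ j hs
        constructor
        · intro c hc
          exact NullCyc_Bd_mono (h2.1 c hc) (by simp)
        · intro c hc
          exact NullCyc_Bd_mono (h2.2 c hc) (by simp)
      · -- merge the first two cycles
        rw [List.pairwise_cons, List.pairwise_cons] at hX
        obtain ⟨hX1, hX2, hX3⟩ := hX
        have hxy : ¬ σ.SameCycle x y := hX1 y List.mem_cons_self
        have hxo : ∀ z ∈ X, ¬ σ.SameCycle x z := fun z hz => hX1 z (List.mem_cons_of_mem _ hz)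
        have hpath : IsPath t (NullCyc_mrg σ x y) lab := by
          intro z
          have hz := hp z
          have hx1 := hω x List.mem_cons_self
          have hy1 := hω y (List.mem_cons_of_mem _ List.mem_cons_self)
          rw [NullCyc_mrg_apply]
          by_cases h2 : σ z = x
          · rw [if_pos h2, hy1, ← hz, h2, hx1]
          · rw [if_neg h2]
            by_cases h3 : σ z = y
            · rw [if_pos h3, hx1, ← hz, h3, hy1]
            · rw [if_neg h3]
              exact hz
        have hpair : (x :: X).Pairwise fun x' y' => ¬ (NullCyc_mrg σ x y).SameCycle x' y' := by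
          rw [List.pairwise_cons]
          constructor
          · intro z hz h2
            rw [NullCyc_mrg_same hxy] at h2
            rcases h2 with h2 | h2
            · exact hxo z hz h2
            · exact hX2 z hz h2
          · refine List.Pairwise.imp_of_mem ?_ hX3
            intro z w hz _ hzw h2
            exact hzw ((NullCyc_mrg_same_other (hxo z hz) (hX2 z hz)).1 h2)
        have hprod : ((x :: X).map (cycProd (NullCyc_mrg σ x y) fun z => fval (lab z))).prod =
            1 := by
          rw [List.map_cons, List.prod_cons, NullCyc_mrg_cycProd _ hxy]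
          rw [List.map_cons, List.map_cons, List.prod_cons, List.prod_cons, ← mul_assoc] at h1
          have e1 : X.map (cycProd (NullCyc_mrg σ x y) fun z => fval (lab z)) =
              X.map (cycProd σ fun z => fval (lab z)) := by
            apply List.map_congr_left
            intro z hz
            exact NullCyc_mrg_cycProd_other _ (hxo z hz) (hX2 z hz)
          rw [e1]
          exact h1
        have hsub : NullCyc_Sub (NullCyc_mrg σ x y) τ j (x :: X) := by
          refine ⟨hs.inj, ?_, ?_⟩
          · intro m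
            rw [NullCyc_mrg_apply, ← hs.comm, if_neg, if_neg]
            · exact hs.not_mem (List.mem_cons_of_mem _ List.mem_cons_self)
                (Perm.SameCycle.refl _ _) _
            · exact hs.not_mem List.mem_cons_self (Perm.SameCycle.refl _ _) _
          · intro z
            rw [hs.range z]
            constructor
            · intro h2 w hw
              rw [List.mem_cons] at hw
              rcases hw with rfl | hw
              · rw [NullCyc_mrg_same hxy, not_or]
                exact ⟨h2 _ List.mem_cons_self,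
                  h2 _ (List.mem_cons_of_mem _ List.mem_cons_self)⟩
              · rw [NullCyc_mrg_same_other (hxo w hw) (hX2 w hw)]
                exact h2 w (List.mem_cons_of_mem _ (List.mem_cons_of_mem _ hw))
            · intro h2 w hw
              have h3 := h2 x List.mem_cons_self
              rw [NullCyc_mrg_same hxy, not_or] at h3
              rw [List.mem_cons, List.mem_cons] at hw
              rcases hw with rfl | rfl | hw
              · exact h3.1
              · exact h3.2
              · have h4 := h2 w (List.mem_cons_of_mem _ hw)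
                rw [NullCyc_mrg_same_other (hxo w hw) (hX2 w hw)] at h4
                exact h4
        have hih := ih (x :: X) (by simpa using hn) (NullCyc_mrg σ x y) hpath hpair
          (by
            intro z hz
            rw [List.mem_cons] at hz
            rcases hz with rfl | hz
            · exact hω _ List.mem_cons_self
            · exact hω _ (List.mem_cons_of_mem _ (List.mem_cons_of_mem _ hz)))
          hprod hsub
        have hlen : ((x :: y :: X).length : ℤ) = ((x :: X).length : ℤ) + 1 := by
          simp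
        constructor
        · rintro c ⟨π, hπ1, hπ2⟩
          have h2 := hih.1 (c + 2) ⟨π, hπ1, by
            have := (NullCyc_mrg_E2 σ π x y).1
            linarith⟩
          exact NullCyc_Bd_mono h2 (by rw [hlen]; linarith)
        · intro c hc
          obtain ⟨π, hπ1, hπ2⟩ := hih.2 c hc
          refine ⟨π, hπ1, ?_⟩
          have := (NullCyc_mrg_E2 σ π x y).2
          rw [hlen]
          linarith

theorem null_cycles_remove {Ω L κ : Type*} [Finite L] (t : Fin 2 → Perm Ω) (σ : Perm L)
    (lab : L → (Ω × Fin 2) × Bool) (hp : IsPath t σ lab) (X : List L)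
    (hX : X.Pairwise fun x y => ¬ σ.SameCycle x y) (ω : Ω) (hω : ∀ x ∈ X, tl t (lab x) = ω)
    (h1 : (X.map (cycProd σ fun z => fval (lab z))).prod = 1)
    (σ' : Perm {z : L // ∀ x ∈ X, ¬ σ.SameCycle x z})
    (hσ' : ∀ z, ((σ' z : {z : L // ∀ x ∈ X, ¬ σ.SameCycle x z}) : L) = σ z)
    (q : Ω × Fin 2 → κ) (π : Perm L) (hπ : IsPairing (fun z => mapL q (lab z)) π) :
    ∃ π' : Perm {z : L // ∀ x ∈ X, ¬ σ.SameCycle x z},
      IsPairing (fun z : {z : L // ∀ x ∈ X, ¬ σ.SameCycle x z} => mapL q (lab z)) π' ∧
      E2 σ' π' ≤ E2 σ π + 2 * X.length := by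
  have hs : NullCyc_Sub σ σ' Subtype.val X := by
    refine ⟨Subtype.val_injective, hσ', ?_⟩
    intro z
    constructor
    · rintro ⟨m, rfl⟩
      exact m.2
    · intro h
      exact ⟨⟨z, h⟩, rfl⟩
  exact (NullCyc_list t q lab ω _ σ' Subtype.val X.length X rfl σ hp hX hω h1 hs).1 _
    ⟨π, hπ, le_refl _⟩

theorem null_cycles_insert {Ω L : Type*} [Finite L] (t : Fin 2 → Perm Ω) (σ : Perm L)
    (lab : L → (Ω × Fin 2) × Bool) (hp : IsPath t σ lab) (X : List L)
    (hX : X.Pairwise fun x y => ¬ σ.SameCycle x y) (ω : Ω) (hω : ∀ x ∈ X, tl t (lab x) = ω)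
    (h1 : (X.map (cycProd σ fun z => fval (lab z))).prod = 1)
    (σ' : Perm {z : L // ∀ x ∈ X, ¬ σ.SameCycle x z})
    (hσ' : ∀ z, ((σ' z : {z : L // ∀ x ∈ X, ¬ σ.SameCycle x z}) : L) = σ z)
    (π' : Perm {z : L // ∀ x ∈ X, ¬ σ.SameCycle x z})
    (hπ' : IsPairing (fun z : {z : L // ∀ x ∈ X, ¬ σ.SameCycle x z} => lab z) π') :
    ∃ π : Perm L, IsPairing lab π ∧ E2 σ π ≤ E2 σ' π' + 2 * X.length := by
  have hs : NullCyc_Sub σ σ' Subtype.val X := by
    refine ⟨Subtype.val_injective, hσ', ?_⟩
    intro z
    constructor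
    · rintro ⟨m, rfl⟩
      exact m.2
    · intro h
      exact ⟨⟨z, h⟩, rfl⟩
  exact (NullCyc_list t (id : Ω × Fin 2 → Ω × Fin 2) lab ω _ σ' Subtype.val X.length X rfl σ hp
    hX hω h1 hs).2 _ ⟨π', hπ', le_refl _⟩

end SclIso
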