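import Pool.Agent.H.MP_1b0e60_al.Cut
import Pool.Agent.H.MP_1b0e60_al.Cover

/-!
Products of commutators give surfaces.
-/

open Equiv Filter Topology

namespace SclIso

namespace PairCl

section lists

variable {L : Type*}

/-- `f` sends each letter of `l` to the next one, and the last one to `y` -/
def Pt (f : L → L) (l : List L) (y : L) : Prop := List.IsChain (fun a b => f a = b) (l ++ [y])

theorem Pt_nil (f : L → L) (y : L) : Pt f [] y := by
  unfold Pt
  simp

theorem Pt_single {f : L → L} {a y : L} : Pt f [a] y ↔ f a = y := by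
  unfold Pt
  simp

theorem Pt_cons_cons {f : L → L} {a b y : L} {l : List L} :
    Pt f (a :: b :: l) y ↔ f a = b ∧ Pt f (b :: l) y := by
  unfold Pt
  simp [List.isChain_cons_cons]

theorem Pt_append_cons {f : L → L} {a y : L} {u v : List L} :
    Pt f (u ++ a :: v) y ↔ Pt f u a ∧ Pt f (a :: v) y := by
  unfold Pt
  rw [List.append_assoc, List.cons_append, List.isChain_split, ← List.cons_append]

theorem Pt_concat {f : L → L} {a y : L} {u : List L} :
    Pt f (u ++ [a]) y ↔ Pt f u a ∧ f a = y := by
  rw [Pt_append_cons, Pt_single]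

theorem Pt_congr {f g : L → L} {l : List L} {y : L} (h : ∀ z ∈ l, g z = f z) (hf : Pt f l y) :
    Pt g l y := by
  induction l with
  | nil => exact Pt_nil _ _
  | cons a l ih =>
    cases l with
    | nil =>
      rw [Pt_single] at hf ⊢
      rw [h a (by simp), hf]
    | cons b l =>
      rw [Pt_cons_cons] at hf ⊢
      exact ⟨by rw [h a (by simp), hf.1], ih (fun z hz => h z (List.mem_cons_of_mem _ hz)) hf.2⟩

theorem Pt_mem {f : L → L} {l : List L} {y : L} (hf : Pt f l y) {z : L} (hz : z ∈ l) :
    f z ∈ l ∨ f z = y := by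
  induction l with
  | nil => simp at hz
  | cons a l ih =>
    cases l with
    | nil =>
      rw [Pt_single] at hf
      rw [List.mem_singleton] at hz
      subst hz
      exact Or.inr hf
    | cons b l =>
      rw [Pt_cons_cons] at hf
      rcases List.mem_cons.1 hz with rfl | hz
      · left
        rw [hf.1]
        simp
      · rcases ih hf.2 hz with h | h
        · exact Or.inl (List.mem_cons_of_mem _ h)
        · exact Or.inr h

theorem Pt_subtype {p : L → Prop} {f : L → L} {g : {z // p z} → {z // p z}}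
    (hg : ∀ z, (g z : L) = f z) {l : List {z // p z}} {y : {z // p z}}
    (h : Pt f (l.map Subtype.val) y) : Pt g l y := by
  unfold Pt at h ⊢
  have h1 : l.map Subtype.val ++ [(y : L)] = (l ++ [y]).map Subtype.val := by simp
  rw [h1, List.isChain_map] at h
  exact h.imp fun a b hab => Subtype.ext (by rw [hg, hab])

/-- the list `l` is a cycle of `f` -/
def CycL (f : L → L) (l : List L) : Prop := ∀ a t, l = a :: t → Pt f l a

theorem CycL_nil (f : L → L) : CycL f [] := by
  intro a t h
  simp at h

theorem CycL_cons {f : L → L} {a : L} {t : List L} : CycL f (a :: t) ↔ Pt f (a :: t) a := by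
  constructor
  · intro h
    exact h a t rfl
  · intro h b s e
    rw [List.cons.injEq] at e
    rw [← e.1]
    exact h

theorem CycL_rot {f : L → L} {u v : List L} (h : CycL f (u ++ v)) : CycL f (v ++ u) := by
  cases u with
  | nil => simpa using h
  | cons a u =>
    cases v with
    | nil => simpa using h
    | cons b v =>
      rw [List.cons_append, CycL_cons] at h ⊢
      rw [← List.cons_append, Pt_append_cons] at h ⊢
      exact ⟨h.2, h.1⟩

theorem CycL_mem {f : L → L} {l : List L} (h : CycL f l) {z : L} (hz : z ∈ l) : f z ∈ l := by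
  cases l with
  | nil => simp at hz
  | cons a l =>
    rw [CycL_cons] at h
    rcases Pt_mem h hz with h1 | h1
    · exact h1
    · rw [h1]
      simp

theorem CycL_congr {f g : L → L} {l : List L} (h : ∀ z ∈ l, g z = f z) (hf : CycL f l) :
    CycL g l := by
  cases l with
  | nil => exact CycL_nil _
  | cons a l =>
    rw [CycL_cons] at hf ⊢
    exact Pt_congr h hf

theorem CycL_subtype {p : L → Prop} {f : L → L} {g : {z // p z} → {z // p z}}
    (hg : ∀ z, (g z : L) = f z) {l : List {z // p z}}
    (h : CycL f (l.map Subtype.val)) : CycL g l := by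
  cases l with
  | nil => exact CycL_nil _
  | cons a l =>
    rw [CycL_cons]
    rw [List.map_cons, CycL_cons, ← List.map_cons] at h
    exact Pt_subtype hg h

/-- a non-empty list ends with some letter -/
theorem exists_concat {l : List L} (h : l ≠ []) : ∃ u a, l = u ++ [a] :=
  ⟨l.dropLast, l.getLast h, (List.dropLast_append_getLast h).symm⟩

/-- the chain `σ` is described by the lists `ls` -/
structure Desc (σ : Perm L) (ls : List (List L)) : Prop where
  nodup : ls.flatten.Nodup
  all : ∀ z, z ∈ ls.flatten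
  cyc : ∀ l ∈ ls, CycL σ l

theorem Desc.perm {σ : Perm L} {ls ls' : List (List L)} (h : Desc σ ls) (hp : ls.Perm ls') :
    Desc σ ls' :=
  ⟨(hp.flatten.nodup_iff).1 h.nodup, fun z => hp.flatten.mem_iff.1 (h.all z),
    fun l hl => h.cyc l (hp.mem_iff.2 hl)⟩

theorem Desc.nil_cons {σ : Perm L} {ls : List (List L)} : Desc σ ([] :: ls) ↔ Desc σ ls := by
  constructor
  · intro h
    exact ⟨by simpa using h.nodup, by simpa using h.all,
      fun l hl => h.cyc l (List.mem_cons_of_mem _ hl)⟩
  · intro h
    refine ⟨by simpa using h.nodup, by simpa using h.all, fun l hl => ?_⟩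
    rcases List.mem_cons.1 hl with rfl | hl
    · exact CycL_nil _
    · exact h.cyc l hl

theorem Desc.rot {σ : Perm L} {u v : List L} {ls : List (List L)} (h : Desc σ ((u ++ v) :: ls)) :
    Desc σ ((v ++ u) :: ls) := by
  have hp : ((u ++ v) :: ls).flatten.Perm ((v ++ u) :: ls).flatten := by
    rw [List.flatten_cons, List.flatten_cons]
    exact (List.perm_append_comm).append_right _
  refine ⟨hp.nodup_iff.1 h.nodup, fun z => hp.mem_iff.1 (h.all z), fun l hl => ?_⟩
  rcases List.mem_cons.1 hl with rfl | hl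
  · exact CycL_rot (h.cyc _ (by simp))
  · exact h.cyc l (List.mem_cons_of_mem _ hl)

/-- joining two cycles -/
theorem Desc.join [DecidableEq L] {σ : Perm L} {u v : List L} {x y : L} {ls : List (List L)}
    (h : Desc σ ((u ++ [x]) :: (v ++ [y]) :: ls)) :
    Desc (σ * swap x y) ((u ++ [x] ++ (v ++ [y])) :: ls) := by
  have hfl : ((u ++ [x]) :: (v ++ [y]) :: ls).flatten
      = ((u ++ [x] ++ (v ++ [y])) :: ls).flatten := by
    simp
  have hnd := h.nodup
  rw [hfl] at hnd
  simp only [List.flatten_cons, List.nodup_append, List.mem_append, List.mem_singleton] at hnd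
  have hu : ∀ z ∈ u, (σ * swap x y) z = σ z := fun z hz => by
    rw [Perm.mul_apply, swap_apply_of_ne_of_ne]
    · grind
    · grind
  have hv : ∀ z ∈ v, (σ * swap x y) z = σ z := fun z hz => by
    rw [Perm.mul_apply, swap_apply_of_ne_of_ne]
    · grind
    · grind
  refine ⟨hfl ▸ h.nodup, fun z => hfl ▸ h.all z, fun l hl => ?_⟩
  rcases List.mem_cons.1 hl with rfl | hl
  · have h1 := h.cyc (u ++ [x]) (by simp)
    have h2 := h.cyc (v ++ [y]) (by simp)
    obtain ⟨a, u', hau⟩ : ∃ a u', u ++ [x] = a :: u' := List.exists_cons_of_ne_nil (by simp)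
    obtain ⟨b, v', hbv⟩ : ∃ b v', v ++ [y] = b :: v' := List.exists_cons_of_ne_nil (by simp)
    rw [hau, CycL_cons, ← hau, Pt_concat] at h1
    rw [hbv, CycL_cons, ← hbv, Pt_concat] at h2
    rw [hau, List.cons_append, CycL_cons, ← List.cons_append, ← hau, hbv, Pt_append_cons, ← hbv,
      Pt_concat, Pt_concat]
    refine ⟨⟨Pt_congr hu h1.1, ?_⟩, Pt_congr hv h2.1, ?_⟩
    · rw [Perm.mul_apply, swap_apply_left, h2.2]
    · rw [Perm.mul_apply, swap_apply_right, h1.2]
  · refine CycL_congr (fun z hz => ?_) (h.cyc l (by simp [hl]))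
    have hz' : z ∈ ls.flatten := List.mem_flatten.2 ⟨l, hl, hz⟩
    rw [Perm.mul_apply, swap_apply_of_ne_of_ne]
    · grind
    · grind

/-- splitting a cycle -/
theorem Desc.split [DecidableEq L] {σ : Perm L} {u v : List L} {x y : L} {ls : List (List L)}
    (h : Desc σ ((u ++ [x] ++ (v ++ [y])) :: ls)) :
    Desc (σ * swap x y) ((u ++ [x]) :: (v ++ [y]) :: ls) := by
  have hfl : ((u ++ [x]) :: (v ++ [y]) :: ls).flatten
      = ((u ++ [x] ++ (v ++ [y])) :: ls).flatten := by
    simp
  have hnd := h.nodup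
  simp only [List.flatten_cons, List.nodup_append, List.mem_append, List.mem_singleton] at hnd
  have hu : ∀ z ∈ u, (σ * swap x y) z = σ z := fun z hz => by
    rw [Perm.mul_apply, swap_apply_of_ne_of_ne]
    · grind
    · grind
  have hv : ∀ z ∈ v, (σ * swap x y) z = σ z := fun z hz => by
    rw [Perm.mul_apply, swap_apply_of_ne_of_ne]
    · grind
    · grind
  have h1 := h.cyc (u ++ [x] ++ (v ++ [y])) (by simp)
  obtain ⟨a, u', hau⟩ : ∃ a u', u ++ [x] = a :: u' := List.exists_cons_of_ne_nil (by simp)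
  obtain ⟨b, v', hbv⟩ : ∃ b v', v ++ [y] = b :: v' := List.exists_cons_of_ne_nil (by simp)
  rw [hau, List.cons_append, CycL_cons, ← List.cons_append, ← hau, hbv, Pt_append_cons, ← hbv,
      Pt_concat, Pt_concat] at h1
  refine ⟨hfl.symm ▸ h.nodup, fun z => hfl.symm ▸ h.all z, fun l hl => ?_⟩
  rcases List.mem_cons.1 hl with rfl | hl
  · rw [hau, CycL_cons, ← hau, Pt_concat]
    refine ⟨Pt_congr hu h1.1.1, ?_⟩
    rw [Perm.mul_apply, swap_apply_left, h1.2.2]
  rcases List.mem_cons.1 hl with rfl | hl
  · rw [hbv, CycL_cons, ← hbv, Pt_concat]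
    refine ⟨Pt_congr hv h1.2.1, ?_⟩
    rw [Perm.mul_apply, swap_apply_right, h1.1.2]
  · refine CycL_congr (fun z hz => ?_) (h.cyc l (by simp [hl]))
    have hz' : z ∈ ls.flatten := List.mem_flatten.2 ⟨l, hl, hz⟩
    rw [Perm.mul_apply, swap_apply_of_ne_of_ne]
    · grind
    · grind

theorem lift_list (p : L → Prop) (l : List L) (h : ∀ z ∈ l, p z) :
    ∃ l' : List {z // p z}, l'.map Subtype.val = l := by
  induction l with
  | nil => exact ⟨[], rfl⟩
  | cons a l ih =>
    obtain ⟨l', hl'⟩ := ih fun z hz => h z (List.mem_cons_of_mem _ hz)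
    exact ⟨⟨a, h a (by simp)⟩ :: l', by rw [List.map_cons, hl']⟩

theorem lift_lists (p : L → Prop) (ls : List (List L)) (h : ∀ z ∈ ls.flatten, p z) :
    ∃ ls' : List (List {z // p z}), ls'.map (List.map Subtype.val) = ls := by
  induction ls with
  | nil => exact ⟨[], rfl⟩
  | cons a l ih =>
    rw [List.flatten_cons] at h
    obtain ⟨l', hl'⟩ := ih fun z hz => h z (List.mem_append_right _ hz)
    obtain ⟨a', ha'⟩ := lift_list p a fun z hz => h z (List.mem_append_left _ hz)
    exact ⟨a' :: l', by rw [List.map_cons, hl', ha']⟩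

/-- cutting out two adjacent letters -/
theorem Desc.cut [DecidableEq L] {σ : Perm L} {x y : L} {v : List L} {ls : List (List L)}
    (h : Desc σ ((x :: y :: v) :: ls)) {σ' : Perm {z : L // z ≠ x ∧ z ≠ y}}
    (hσ' : IsCut σ x y σ') :
    ∃ (v' : List {z : L // z ≠ x ∧ z ≠ y}) (ls' : List (List {z : L // z ≠ x ∧ z ≠ y})),
      v'.map Subtype.val = v ∧ ls'.map (List.map Subtype.val) = ls ∧ Desc σ' (v' :: ls') := by
  have hnd := h.nodup
  simp only [List.flatten_cons, List.cons_append, List.nodup_cons, List.mem_append,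
    List.mem_cons] at hnd
  have hp : ∀ z ∈ (v :: ls).flatten, z ≠ x ∧ z ≠ y := by
    intro z hz
    rw [List.flatten_cons, List.mem_append] at hz
    grind
  obtain ⟨vls, hvls⟩ := lift_lists (fun z => z ≠ x ∧ z ≠ y) (v :: ls) hp
  obtain ⟨v', ls', rfl⟩ : ∃ v' ls', vls = v' :: ls' := by
    cases vls with
    | nil => simp at hvls
    | cons a l => exact ⟨a, l, rfl⟩
  rw [List.map_cons, List.cons.injEq] at hvls
  obtain ⟨hv, hls⟩ := hvls
  have hfl : (v' :: ls').flatten.map Subtype.val = (v :: ls).flatten := by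
    rw [List.map_flatten, List.map_cons, hv, hls]
  have hxy := h.cyc (x :: y :: v) (by simp)
  rw [CycL_cons, Pt_cons_cons] at hxy
  refine ⟨v', ls', hv, hls, ?_, ?_, ?_⟩
  · have h1 : ((v' :: ls').flatten.map Subtype.val).Nodup := by
      rw [hfl, List.flatten_cons]
      exact hnd.2.2
    exact h1.of_map _
  · intro z
    have h1 := h.all z
    have h2 : (z : L) ∈ (v' :: ls').flatten.map Subtype.val := by
      rw [hfl]
      simp only [List.flatten_cons, List.mem_append, List.mem_cons] at h1 ⊢
      have := z.2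
      tauto
    obtain ⟨z', hz', e⟩ := List.mem_map.1 h2
    rw [← Subtype.ext e]
    exact hz'
  · intro l hl
    refine CycL_subtype (f := cutFun σ x y) hσ' ?_
    rcases List.mem_cons.1 hl with rfl | hl
    · rw [hv]
      rcases List.eq_nil_or_concat' v with hv0 | ⟨v₀, z₀, hv0⟩
      · rw [hv0]
        exact CycL_nil _
      · obtain ⟨c, t, hct⟩ : ∃ c t, v = c :: t := List.exists_cons_of_ne_nil (by rw [hv0]; simp)
        have h3 : σ y = c ∧ Pt σ v x := by
          have := hxy.2
          rw [hct, Pt_cons_cons, ← hct] at this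
          exact this
        have h4 := h3.2
        rw [hv0, Pt_concat] at h4
        have hcv : c ∈ v := by rw [hct]; simp
        have hz₀ : z₀ ∈ v := by rw [hv0]; simp
        rw [hct, CycL_cons, ← hct, hv0, Pt_concat]
        constructor
        · refine Pt_congr (fun z hz => ?_) h4.1
          have h5 : σ z ∈ v := by
            rw [hv0]
            rcases Pt_mem h4.1 hz with h6 | h6
            · simp [h6]
            · simp [h6]
          have h6 : σ z ≠ x := by rintro e; rw [e] at h5; tauto
          have h7 : σ z ≠ y := by rintro e; rw [e] at h5; tauto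
          unfold cutFun
          rw [if_neg h6, if_neg h7]
        · unfold cutFun
          have h6 : σ y ≠ y := by rw [h3.1]; rintro e; rw [e] at hcv; tauto
          rw [if_pos h4.2, if_neg h6, h3.1]
    · have hl' : l.map Subtype.val ∈ ls := by
        rw [← hls]
        exact List.mem_map_of_mem hl
      have h8 := h.cyc (l.map Subtype.val) (List.mem_cons_of_mem _ hl')
      refine CycL_congr (fun z hz => ?_) h8
      have h5 : σ z ∈ ls.flatten := List.mem_flatten.2 ⟨_, hl', CycL_mem h8 hz⟩
      have h6 : σ z ≠ x := by rintro e; rw [e] at h5; tauto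
      have h7 : σ z ≠ y := by rintro e; rw [e] at h5; tauto
      unfold cutFun
      rw [if_neg h6, if_neg h7]

end lists

section pairings

variable {ι : Type}

/-- the family `ws` of cyclic words bounds a surface with `-2χ ≤ c` -/
def B (ws : List (List (ι × Bool))) (c : ℤ) : Prop :=
  ∃ (L : Type) (_ : Finite L) (σ : Perm L) (lab : L → ι × Bool) (ls : List (List L)) (π : Perm L),
    Desc σ ls ∧ (ls.map (List.map lab)).Perm ws ∧ IsPairing lab π ∧ E2 σ π ≤ c

theorem B.mono {ws : List (List (ι × Bool))} {c c' : ℤ} (h : B ws c) (hc : c ≤ c') : B ws c' := by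
  obtain ⟨L, hL, σ, lab, ls, π, h1, h2, h3, h4⟩ := h
  exact ⟨L, hL, σ, lab, ls, π, h1, h2, h3, h4.trans hc⟩

theorem B.perm {ws ws' : List (List (ι × Bool))} {c : ℤ} (h : B ws c) (hp : ws.Perm ws') :
    B ws' c := by
  obtain ⟨L, hL, σ, lab, ls, π, h1, h2, h3, h4⟩ := h
  exact ⟨L, hL, σ, lab, ls, π, h1, h2.trans hp, h3, h4⟩

theorem extract {L : Type} {lab : L → ι × Bool} {ls : List (List L)}
    {w : List (ι × Bool)} {ws : List (List (ι × Bool))}
    (h : (ls.map (List.map lab)).Perm (w :: ws)) :
    ∃ l ls', ls.Perm (l :: ls') ∧ l.map lab = w ∧ (ls'.map (List.map lab)).Perm ws := by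
  classical
  have h1 : w ∈ ls.map (List.map lab) := h.mem_iff.2 (by simp)
  obtain ⟨l, hl, rfl⟩ := List.mem_map.1 h1
  have h2 : ls.Perm (l :: ls.erase l) := List.perm_cons_erase hl
  refine ⟨l, ls.erase l, h2, rfl, ?_⟩
  have h3 := (h2.map (List.map lab)).symm.trans h
  rw [List.map_cons] at h3
  exact (List.perm_cons _).1 h3

theorem B.unpack {w : List (ι × Bool)} {ws : List (List (ι × Bool))} {c : ℤ} (h : B (w :: ws) c) :
    ∃ (L : Type) (_ : Finite L) (σ : Perm L) (lab : L → ι × Bool) (l : List L)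
      (ls : List (List L)) (π : Perm L),
      Desc σ (l :: ls) ∧ l.map lab = w ∧ (ls.map (List.map lab)).Perm ws ∧ IsPairing lab π ∧
        E2 σ π ≤ c := by
  obtain ⟨L, hL, σ, lab, ls, π, h1, h2, h3, h4⟩ := h
  obtain ⟨l, ls', h5, h6, h7⟩ := extract h2
  exact ⟨L, hL, σ, lab, l, ls', π, h1.perm h5, h6, h7, h3, h4⟩

theorem B.nil_cons {ws : List (List (ι × Bool))} {c : ℤ} : B ([] :: ws) c ↔ B ws c := by
  constructor
  · intro h
    obtain ⟨L, hL, σ, lab, l, ls, π, h1, h2, h3, h4, h5⟩ := h.unpack
    rw [List.map_eq_nil_iff] at h2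
    subst h2
    exact ⟨L, hL, σ, lab, ls, π, Desc.nil_cons.1 h1, h3, h4, h5⟩
  · intro h
    obtain ⟨L, hL, σ, lab, ls, π, h1, h2, h3, h4⟩ := h
    exact ⟨L, hL, σ, lab, [] :: ls, π, Desc.nil_cons.2 h1, by simpa using h2, h3, h4⟩

theorem B.rot {u v : List (ι × Bool)} {ws : List (List (ι × Bool))} {c : ℤ}
    (h : B ((u ++ v) :: ws) c) : B ((v ++ u) :: ws) c := by
  obtain ⟨L, hL, σ, lab, l, ls, π, h1, h2, h3, h4, h5⟩ := h.unpack
  obtain ⟨l₁, l₂, rfl, rfl, rfl⟩ := List.map_eq_append_iff.1 h2
  refine ⟨L, hL, σ, lab, (l₂ ++ l₁) :: ls, π, h1.rot, ?_, h4, h5⟩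
  rw [List.map_cons, List.map_append]
  exact h3.cons _

theorem E2_swap {L : Type} [Finite L] [DecidableEq L] (σ π : Perm L) (x y : L) :
    E2 (σ * swap x y) π ≤ E2 σ π + 2 := by
  have h1 := ncyc_le_mul_swap (σ * π) (π⁻¹ x) (π⁻¹ y)
  have h2 : σ * π * swap (π⁻¹ x) (π⁻¹ y) = σ * swap x y * π := by
    rw [mul_assoc, ← Equiv.swap_mul_eq_mul_swap, ← mul_assoc]
  rw [h2] at h1
  unfold E2
  have h3 : (ncyc (σ * π) : ℤ) ≤ ncyc (σ * swap x y * π) + 1 := by exact_mod_cast h1
  linarith

theorem B.join {u v : List (ι × Bool)} {ws : List (List (ι × Bool))} {c : ℤ}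
    (hu : u ≠ []) (hv : v ≠ []) (h : B (u :: v :: ws) c) : B ((u ++ v) :: ws) (c + 2) := by
  classical
  obtain ⟨L, hL, σ, lab, l, ls, π, h1, h2, h3, h4, h5⟩ := h.unpack
  obtain ⟨l', ls', h6, h7, h8⟩ := extract h3
  have h9 : Desc σ (l :: l' :: ls') := h1.perm (h6.cons _)
  obtain ⟨l₀, x, rfl⟩ := exists_concat (l := l) (by rintro rfl; simp at h2; exact hu h2)
  obtain ⟨l₀', y, rfl⟩ := exists_concat (l := l') (by rintro rfl; simp at h7; exact hv h7)
  refine ⟨L, hL, σ * swap x y, lab, (l₀ ++ [x] ++ (l₀' ++ [y])) :: ls', π, h9.join, ?_, h4,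
    (E2_swap σ π x y).trans (by linarith)⟩
  rw [List.map_cons, List.map_append, h2, h7]
  exact h8.cons _

theorem B.split {u v : List (ι × Bool)} {ws : List (List (ι × Bool))} {c : ℤ}
    (h : B ((u ++ v) :: ws) c) : B (u :: v :: ws) (c + 2) := by
  classical
  rcases eq_or_ne u [] with rfl | hu
  · rw [B.nil_cons]
    rw [List.nil_append] at h
    exact h.mono (by linarith)
  rcases eq_or_ne v [] with rfl | hv
  · rw [List.append_nil] at h
    have h1 : B ([] :: u :: ws) (c + 2) := B.nil_cons.2 (h.mono (by linarith))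
    exact h1.perm (List.Perm.swap _ _ _)
  obtain ⟨L, hL, σ, lab, l, ls, π, h1, h2, h3, h4, h5⟩ := h.unpack
  obtain ⟨l₁, l₂, rfl, rfl, rfl⟩ := List.map_eq_append_iff.1 h2
  obtain ⟨l₀, x, rfl⟩ := exists_concat (l := l₁) (by rintro rfl; simp at hu)
  obtain ⟨l₀', y, rfl⟩ := exists_concat (l := l₂) (by rintro rfl; simp at hv)
  refine ⟨L, hL, σ * swap x y, lab, (l₀ ++ [x]) :: (l₀' ++ [y]) :: ls, π, h1.split, ?_, h4,
    (E2_swap σ π x y).trans (by linarith)⟩
  rw [List.map_cons, List.map_cons]
  exact (h3.cons _).cons _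

theorem B.del {a : ι × Bool} {v : List (ι × Bool)} {ws : List (List (ι × Bool))} {c : ℤ}
    (h : B ((a :: linv a :: v) :: ws) c) : B (v :: ws) (c + if v = [] then 2 else 0) := by
  classical
  obtain ⟨L, hL, σ, lab, l, ls, π, h1, h2, h3, h4, h5⟩ := h.unpack
  obtain ⟨x, l₁, rfl, rfl, h6⟩ := List.map_eq_cons_iff.1 h2
  obtain ⟨y, v', rfl, h7, rfl⟩ := List.map_eq_cons_iff.1 h6
  have hxy : x ≠ y := by
    have := h1.nodup
    simp only [List.flatten_cons, List.cons_append, List.nodup_cons, List.mem_append,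
      List.mem_cons] at this
    tauto
  obtain ⟨σ', hσ'⟩ := exists_cut σ hxy
  have hadj : σ x = y := by
    have h8 := h1.cyc (x :: y :: v') (by simp)
    rw [CycL_cons, Pt_cons_cons] at h8
    exact h8.1
  obtain ⟨π', hπ', hE⟩ := cut_adj σ hxy hadj lab h7 σ' hσ' π h4
  obtain ⟨v'', ls'', h9, h10, h11⟩ := h1.cut hσ'
  have hcost : (if σ y = x then 1 else 0 : ℤ) ≤ if v' = [] then 1 else 0 := by
    rcases eq_or_ne v' [] with e | e
    · rw [if_pos e]
      split_ifs <;> norm_num
    · have h8 := h1.cyc (x :: y :: v') (by simp)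
      obtain ⟨b, t, e'⟩ := List.exists_cons_of_ne_nil e
      rw [e', CycL_cons, Pt_cons_cons, Pt_cons_cons] at h8
      have h12 : σ y ≠ x := by
        rw [h8.2.1]
        rintro rfl
        have := h1.nodup
        rw [e'] at this
        simp at this
      rw [if_neg h12, if_neg e]
  refine ⟨{z : L // z ≠ x ∧ z ≠ y}, inferInstance, σ', fun z => lab z, v'' :: ls'', π', h11, ?_,
    hπ', ?_⟩
  · have e1 : v''.map (fun z : {z : L // z ≠ x ∧ z ≠ y} => lab z) = v'.map lab := by
      rw [← h9, List.map_map]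
      rfl
    have e2 : ls''.map (List.map fun z : {z : L // z ≠ x ∧ z ≠ y} => lab z)
        = ls.map (List.map lab) := by
      rw [← h10, List.map_map]
      refine List.map_congr_left fun l _ => ?_
      rw [Function.comp_apply, List.map_map]
      rfl
    rw [List.map_cons, e1, e2]
    exact h3.cons _
  · have e3 : (v'.map lab = []) ↔ v' = [] := List.map_eq_nil_iff
    simp only [e3]
    split_ifs at hcost ⊢ <;> split_ifs at hE <;> linarith

theorem CycL_iff_getElem {L : Type*} {f : L → L} {l : List L} :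
    CycL f l ↔ ∀ (i : ℕ) (hi : i < l.length),
      f l[i] = l[(i + 1) % l.length]'(Nat.mod_lt _ (by omega)) := by
  cases l with
  | nil => simp [CycL_nil]
  | cons a t =>
    rw [CycL_cons]
    unfold Pt
    rw [List.isChain_iff_getElem]
    have hlen : (a :: t ++ [a]).length = (a :: t).length + 1 := by simp
    have key : ∀ (i : ℕ) (hi : i < (a :: t).length),
        (a :: t ++ [a])[i + 1]'(by rw [hlen]; omega)
          = (a :: t)[(i + 1) % (a :: t).length]'(Nat.mod_lt _ (by omega)) := by
      intro i hi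
      rcases Nat.lt_or_ge (i + 1) (a :: t).length with h | h
      · rw [List.getElem_append_left h]
        congr 1
        rw [Nat.mod_eq_of_lt h]
      · have h' : i + 1 = (a :: t).length := by omega
        rw [List.getElem_append_right h]
        simp only [h', Nat.mod_self, Nat.sub_self]
        rfl
    constructor
    · intro h i hi
      have h1 := h i (by rw [hlen]; omega)
      rw [key i hi, List.getElem_append_left hi] at h1
      exact h1
    · intro h i hi
      have hi' : i < (a :: t).length := by rw [hlen] at hi; omega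
      rw [key i hi', List.getElem_append_left hi']
      exact h i hi'

theorem exists_chain (U : List (ι × Bool)) :
    ∃ (L : Type) (_ : Finite L) (σ : Perm L) (lab : L → ι × Bool) (l : List L),
      Desc σ [l] ∧ l.map lab = U := by
  refine ⟨Fin U.length, inferInstance, finRotate _, U.get, List.finRange _, ⟨?_, ?_, ?_⟩, ?_⟩
  · simpa using List.nodup_finRange _
  · intro z
    simp
  · intro l hl
    rw [List.mem_singleton] at hl
    subst hl
    rw [CycL_iff_getElem]
    intro i hi
    have hi' : i < U.length := by simpa using hi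
    have : NeZero U.length := ⟨by omega⟩
    rw [finRotate_apply]
    apply Fin.ext
    simp [Fin.val_add]
  · rw [← List.ofFn_eq_map]
    exact List.ofFn_getElem

theorem exists_red {U : List (ι × Bool)} (h1 : FreeGroup.mk U = 1) (h2 : U ≠ []) :
    ∃ u a v, U = u ++ a :: linv a :: v ∧ FreeGroup.mk (v ++ u) = 1 := by
  have h3 : FreeGroup.mk U = FreeGroup.mk [] := h1
  obtain ⟨c, hc1, hc2⟩ := FreeGroup.Red.exact.1 h3
  rw [FreeGroup.Red.nil_iff.1 hc2] at hc1
  rcases Relation.ReflTransGen.cases_head hc1 with h4 | ⟨d, hd, -⟩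
  · exact absurd h4 h2
  · cases hd with
    | @not u v x b =>
      refine ⟨u, (x, b), v, rfl, ?_⟩
      have h5 : FreeGroup.mk (u ++ (x, b) :: (x, !b) :: v) = FreeGroup.mk (u ++ v) :=
        Quot.sound FreeGroup.Red.Step.not
      rw [h1, ← FreeGroup.mul_mk] at h5
      rw [← FreeGroup.mul_mk]
      exact mul_eq_one_comm.1 h5.symm

theorem sphere (k : ℕ) : ∀ (U : List (ι × Bool)), U.length ≤ k → FreeGroup.mk U = 1 →
    ∀ (L : Type) [Finite L] (σ : Perm L) (lab : L → ι × Bool) (l : List L), Desc σ [l] →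
      l.map lab = U → ∃ π, IsPairing lab π ∧ E2 σ π ≤ if U = [] then 0 else -2 := by
  induction k with
  | zero =>
    intro U hU h1 L _ σ lab l hd hl
    have hU' : U = [] := List.eq_nil_of_length_eq_zero (by omega)
    have hl' : l = [] := by
      rw [hU', List.map_eq_nil_iff] at hl
      exact hl
    have hL : IsEmpty L := ⟨fun z => by simpa [hl'] using hd.all z⟩
    refine ⟨1, ⟨fun x => isEmptyElim x, fun x => isEmptyElim x⟩, ?_⟩
    rw [if_pos hU']
    unfold E2
    rw [Nat.card_of_isEmpty]
    push_cast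
    linarith [Int.natCast_nonneg (ncyc (σ * 1))]
  | succ k ih =>
    intro U hU h1 L _ σ lab l hd hl
    classical
    rcases eq_or_ne U [] with hU' | hU'
    · have hl' : l = [] := by
        rw [hU', List.map_eq_nil_iff] at hl
        exact hl
      have hL : IsEmpty L := ⟨fun z => by simpa [hl'] using hd.all z⟩
      refine ⟨1, ⟨fun x => isEmptyElim x, fun x => isEmptyElim x⟩, ?_⟩
      rw [if_pos hU']
      unfold E2
      rw [Nat.card_of_isEmpty]
      push_cast
      linarith [Int.natCast_nonneg (ncyc (σ * 1))]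
    obtain ⟨u, a, v, rfl, h2⟩ := exists_red h1 hU'
    obtain ⟨l₁, l₂, rfl, rfl, h3⟩ := List.map_eq_append_iff.1 hl
    obtain ⟨x, l₃, rfl, rfl, h4⟩ := List.map_eq_cons_iff.1 h3
    obtain ⟨y, l₄, rfl, h5, rfl⟩ := List.map_eq_cons_iff.1 h4
    have hd' : Desc σ [x :: y :: (l₄ ++ l₁)] := hd.rot
    have hxy : x ≠ y := by
      have := hd'.nodup
      simp only [List.flatten_cons, List.cons_append, List.nodup_cons, List.mem_append,
        List.mem_cons] at this
      tauto
    obtain ⟨σ', hσ'⟩ := exists_cut σ hxy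
    have h8 := hd'.cyc (x :: y :: (l₄ ++ l₁)) (by simp)
    rw [CycL_cons, Pt_cons_cons] at h8
    obtain ⟨v', ls', h9, h10, h11⟩ := hd'.cut hσ'
    rw [List.map_eq_nil_iff] at h10
    subst h10
    have h12 : v'.map (fun z : {z : L // z ≠ x ∧ z ≠ y} => lab z)
        = l₄.map lab ++ l₁.map lab := by
      rw [← List.map_append, ← h9, List.map_map]
      rfl
    obtain ⟨π', hπ', hE⟩ := ih (l₄.map lab ++ l₁.map lab)
      (by simp only [List.length_append, List.length_cons, List.length_map] at hU ⊢; omega) h2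
      {z : L // z ≠ x ∧ z ≠ y} σ' (fun z => lab z) v' h11 h12
    obtain ⟨π, hπ, -, hE'⟩ := cut_extend σ hxy lab h5 σ' π' hσ' hπ'
    refine ⟨π, hπ, ?_⟩
    rw [if_neg (by simp)]
    have hc : (1 : ℤ) + (if l₄.map lab ++ l₁.map lab = [] then 1 else 0) ≤ c0 σ x y := by
      unfold c0
      rw [if_pos h8.1]
      have h13 : ¬ (σ x = x ∧ σ y = y) := by
        rintro ⟨e, -⟩
        rw [h8.1] at e
        exact hxy e.symm
      rw [if_neg h13]
      split_ifs with h14 h15
      · norm_num
      · exfalso
        rw [← List.map_append, List.map_eq_nil_iff] at h14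
        rw [h14, Pt_single] at h8
        exact h15 h8.2
      · norm_num
      · norm_num
    split_ifs at hE hc <;> linarith

/-- potential of the main word -/
def pot (w : List (ι × Bool)) : ℤ := if w = [] then 0 else 2

theorem pot_nonneg (w : List (ι × Bool)) : 0 ≤ pot w := by
  unfold pot
  split_ifs <;> norm_num

theorem pot_append_comm (u v : List (ι × Bool)) : pot (u ++ v) = pot (v ++ u) := by
  unfold pot
  have : (u ++ v = []) ↔ (v ++ u = []) := by
    rw [List.append_eq_nil_iff, List.append_eq_nil_iff, and_comm]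
  simp only [this]

theorem pot_le (u v : List (ι × Bool)) : pot v ≤ pot (u ++ v) := by
  unfold pot
  split_ifs with h1 h2 h2
  · exact le_refl _
  · norm_num
  · rw [List.append_eq_nil_iff] at h2
    exact absurd h2.2 h1
  · exact le_refl _

/-- `B` with the potential of the main word `R` subtracted -/
def BP (R : List (ι × Bool)) (ws : List (List (ι × Bool))) (c : ℤ) : Prop :=
  B (R :: ws) (c - pot R)

theorem BP.rot {u v : List (ι × Bool)} {ws : List (List (ι × Bool))} {c : ℤ}
    (h : BP (u ++ v) ws c) : BP (v ++ u) ws c := by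
  unfold BP at h ⊢
  rw [pot_append_comm]
  exact h.rot

theorem BP.split {u v : List (ι × Bool)} {ws : List (List (ι × Bool))} {c : ℤ}
    (h : BP (u ++ v) ws c) : BP v (u :: ws) (c + 2) := by
  unfold BP at h ⊢
  have h1 := h.split.perm (List.Perm.swap v u ws)
  refine h1.mono ?_
  have := pot_le u v
  linarith

theorem BP.join {u v : List (ι × Bool)} {ws : List (List (ι × Bool))} {c : ℤ}
    (h : BP v (u :: ws) c) : BP (u ++ v) ws (c + 2) := by
  unfold BP at h ⊢
  rcases eq_or_ne v [] with rfl | hv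
  · rw [B.nil_cons] at h
    rw [List.append_nil]
    refine h.mono ?_
    unfold pot
    rw [if_pos rfl]
    split_ifs <;> linarith
  rcases eq_or_ne u [] with rfl | hu
  · have h1 := B.nil_cons.1 (h.perm (List.Perm.swap [] v ws))
    rw [List.nil_append]
    exact h1.mono (by linarith)
  · have h1 := (h.perm (List.Perm.swap u v ws)).join hu hv
    refine h1.mono ?_
    unfold pot
    rw [if_neg hv, if_neg (by simp [hu])]
    linarith

theorem BP.delBlock (H : List (ι × Bool)) : ∀ {v : List (ι × Bool)} {ws : List (List (ι × Bool))}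
    {c : ℤ}, BP (H ++ FreeGroup.invRev H ++ v) ws c → BP v ws c := by
  induction H using List.reverseRecOn with
  | nil =>
    intro v ws c h
    simpa using h
  | append_singleton H a ih =>
    intro v ws c h
    apply ih
    have e1 : (H ++ [a]) ++ FreeGroup.invRev (H ++ [a]) ++ v
        = H ++ (a :: linv a :: (FreeGroup.invRev H ++ v)) := by
      rw [FreeGroup.invRev_append]
      simp [FreeGroup.invRev, linv]
    rw [e1] at h
    have h1 : BP (a :: linv a :: ((FreeGroup.invRev H ++ v) ++ H)) ws c := h.rot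
    have h2 : BP ((FreeGroup.invRev H ++ v) ++ H) ws c := by
      unfold BP at h1 ⊢
      refine h1.del.mono ?_
      unfold pot
      rw [if_neg (List.cons_ne_nil _ _)]
      split_ifs <;> linarith
    have h3 := h2.rot
    rw [← List.append_assoc] at h3
    exact h3

theorem BP.conj {H W R : List (ι × Bool)} {ws : List (List (ι × Bool))} {c : ℤ}
    (h : BP (FreeGroup.invRev H ++ W ++ H ++ R) ws c) : BP R (W :: ws) (c + 2) := by
  have h1 : BP (FreeGroup.invRev H ++ (W ++ (H ++ R))) ws c := by
    simpa [List.append_assoc] using h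
  have h2 : BP (W ++ ((H ++ R) ++ FreeGroup.invRev H)) ws c := by
    have := h1.rot
    simpa [List.append_assoc] using this
  have h3 := h2.split.rot
  have h4 : BP (FreeGroup.invRev H ++ FreeGroup.invRev (FreeGroup.invRev H) ++ R) (W :: ws)
      (c + 2) := by
    rw [FreeGroup.invRev_invRev]
    simpa [List.append_assoc] using h3
  exact h4.delBlock

theorem BP.comm {A C R : List (ι × Bool)} {ws : List (List (ι × Bool))} {c : ℤ}
    (h : BP (A ++ C ++ FreeGroup.invRev A ++ FreeGroup.invRev C ++ R) ws c) :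
    BP R ws (c + 4) := by
  have h1 : BP (A ++ (C ++ (FreeGroup.invRev A ++ (FreeGroup.invRev C ++ R)))) ws c := by
    simpa [List.append_assoc] using h
  have h2 : BP (C ++ ((FreeGroup.invRev A ++ (FreeGroup.invRev C ++ R)) ++ A)) ws c := by
    have := h1.rot
    simpa [List.append_assoc] using this
  have h3 : BP (A ++ FreeGroup.invRev A ++ (FreeGroup.invRev C ++ R)) (C :: ws) (c + 2) := by
    have := h2.split.rot
    simpa [List.append_assoc] using this
  have h4 := h3.delBlock.join
  have h5 : BP (C ++ FreeGroup.invRev C ++ R) ws (c + 4) := by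
    rw [List.append_assoc]
    have e : c + 2 + 2 = c + 4 := by ring
    rw [← e]
    exact h4
  exact h5.delBlock

theorem BP.conjs (X : List (List (ι × Bool) × List (ι × Bool))) :
    ∀ {R : List (ι × Bool)} {ws : List (List (ι × Bool))} {c : ℤ},
    BP ((X.map fun p => FreeGroup.invRev p.1 ++ p.2 ++ p.1).flatten ++ R) ws c →
    BP R ((X.map Prod.snd).reverse ++ ws) (c + 2 * X.length) := by
  induction X with
  | nil =>
    intro R ws c h
    simpa using h
  | cons p X ih =>
    intro R ws c h
    rw [List.map_cons, List.flatten_cons, List.append_assoc] at h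
    have h1 := ih h.conj
    have e1 : ((p :: X).map Prod.snd).reverse ++ ws
        = (X.map Prod.snd).reverse ++ (p.2 :: ws) := by simp
    have e2 : c + 2 * ((p :: X).length : ℤ) = c + 2 + 2 * (X.length : ℤ) := by
      rw [List.length_cons]
      push_cast
      ring
    rw [e1, e2]
    exact h1

theorem BP.comms (X : List (List (ι × Bool) × List (ι × Bool))) :
    ∀ {R : List (ι × Bool)} {ws : List (List (ι × Bool))} {c : ℤ},
    BP ((X.map fun p => p.1 ++ p.2 ++ FreeGroup.invRev p.1 ++ FreeGroup.invRev p.2).flatten ++ R)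
      ws c → BP R ws (c + 4 * X.length) := by
  induction X with
  | nil =>
    intro R ws c h
    simpa using h
  | cons p X ih =>
    intro R ws c h
    rw [List.map_cons, List.flatten_cons, List.append_assoc] at h
    have h1 := ih h.comm
    have e2 : c + 4 * ((p :: X).length : ℤ) = c + 4 + 4 * (X.length : ℤ) := by
      rw [List.length_cons]
      push_cast
      ring
    rw [e2]
    exact h1

theorem B_of_trivial {U : List (ι × Bool)} (h : FreeGroup.mk U = 1) : BP U [] 0 := by
  obtain ⟨L, hL, σ, lab, l, h1, h2⟩ := exists_chain U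
  obtain ⟨π, hπ, hE⟩ := sphere U.length U le_rfl h L σ lab l h1 h2
  refine ⟨L, hL, σ, lab, [l], π, h1, by simp [h2], hπ, hE.trans ?_⟩
  unfold pot
  split_ifs <;> norm_num

/-- the chain of the words `W` of a product of conjugates which is a product of commutators -/
theorem B_of_product (X Y : List (List (ι × Bool) × List (ι × Bool)))
    (h : FreeGroup.mk ((X.map fun p => FreeGroup.invRev p.1 ++ p.2 ++ p.1).flatten ++
      (Y.map fun p => p.1 ++ p.2 ++ FreeGroup.invRev p.1 ++ FreeGroup.invRev p.2).flatten) = 1) :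
    B (X.map Prod.snd) (2 * X.length + 4 * Y.length) := by
  have h1 := B_of_trivial h
  have h2 := h1.conjs
  rw [← List.append_nil (Y.map _).flatten] at h2
  have h3 := h2.comms
  unfold BP at h3
  rw [B.nil_cons] at h3
  refine (h3.perm ?_).mono ?_
  · rw [List.append_nil]
    exact List.reverse_perm _
  · unfold pot
    rw [if_pos rfl]
    linarith

end pairings

section algebra

variable {G : Type*} [Group G]

theorem isCommProd_of_list (X : List (G × G)) :
    IsCommProd X.length (X.map fun p => p.1 * p.2 * p.1⁻¹ * p.2⁻¹).prod := by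
  refine ⟨fun i => (X[i]).1, fun i => (X[i]).2, ?_⟩
  congr 1
  apply List.ext_getElem
  · simp
  · intro i h1 h2
    simp

theorem exists_commProd {g : G} (hg : g ∈ commutator G) :
    ∃ X : List (G × G), g = (X.map fun p => p.1 * p.2 * p.1⁻¹ * p.2⁻¹).prod := by
  rw [commutator_eq_closure] at hg
  induction hg using Subgroup.closure_induction with
  | mem x hx =>
    obtain ⟨a, b, rfl⟩ := hx
    exact ⟨[(a, b)], by simp [commutatorElement_def]⟩
  | one => exact ⟨[], by simp⟩
  | mul x y _ _ hx hy =>
    obtain ⟨X, rfl⟩ := hx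
    obtain ⟨Y, rfl⟩ := hy
    exact ⟨X ++ Y, by simp⟩
  | inv x _ hx =>
    obtain ⟨X, rfl⟩ := hx
    refine ⟨(X.map fun p => (p.2, p.1)).reverse, ?_⟩
    rw [List.prod_inv_reverse, List.map_reverse, List.map_map, List.map_map]
    congr 2
    refine List.map_congr_left fun p _ => ?_
    simp only [Function.comp_apply]
    group

theorem isCommProd_cl {g : G} (hg : g ∈ commutator G) : IsCommProd (cl g) g := by
  obtain ⟨X, hX⟩ := exists_commProd hg
  have h1 : {k | IsCommProd k g}.Nonempty := ⟨X.length, by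
    rw [hX]
    exact isCommProd_of_list X⟩
  exact Nat.sInf_mem h1

theorem exists_clSum {m : ℕ} (g : Fin m → G) (hg : (List.ofFn g).prod ∈ commutator G) :
    ∃ h : Fin m → G, IsCommProd (clSum g) (List.ofFn fun i => (h i)⁻¹ * g i * h i).prod := by
  have h1 : (Set.range fun h : Fin m → G =>
      cl (List.ofFn fun i => (h i)⁻¹ * g i * h i).prod).Nonempty := ⟨_, ⟨1, rfl⟩⟩
  obtain ⟨h, hh⟩ := Nat.sInf_mem h1
  refine ⟨h, ?_⟩
  unfold clSum
  rw [← hh]
  apply isCommProd_cl
  rw [← Abelianization.ker_of, MonoidHom.mem_ker] at hg ⊢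
  rw [map_list_prod, List.map_ofFn] at hg ⊢
  rw [← hg]
  congr 2
  funext i
  simp only [Function.comp_apply, map_mul, map_inv]
  rw [mul_comm (Abelianization.of (h i))⁻¹, inv_mul_cancel_right]

theorem pow_prod_mem {m : ℕ} (g : Fin m → G) (n : ℕ) (hg : (List.ofFn g).prod ∈ commutator G) :
    (List.ofFn fun i => g i ^ n).prod ∈ commutator G := by
  rw [← Abelianization.ker_of, MonoidHom.mem_ker] at hg ⊢
  rw [map_list_prod, List.map_ofFn, List.prod_ofFn] at hg ⊢
  have h1 : ∏ i, (⇑Abelianization.of ∘ fun i => g i ^ n) i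
      = (∏ i, (⇑Abelianization.of ∘ g) i) ^ n := by
    rw [← Finset.prod_pow]
    refine Finset.prod_congr rfl fun i _ => ?_
    simp
  rw [h1, hg, one_pow]

end algebra

section words

variable {ι : Type}

theorem mk_flatten (X : List (List (ι × Bool))) :
    FreeGroup.mk X.flatten = (X.map FreeGroup.mk).prod := by
  induction X with
  | nil => rfl
  | cons a X ih =>
    rw [List.flatten_cons, ← FreeGroup.mul_mk, ih, List.map_cons, List.prod_cons]

theorem mk_replicate (n : ℕ) (w : List (ι × Bool)) :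
    FreeGroup.mk (List.replicate n w).flatten = FreeGroup.mk w ^ n := by
  rw [mk_flatten, List.map_replicate, List.prod_replicate]

theorem getElem_flatten_replicate {α : Type*} (w : List α) (n : ℕ) : ∀ (k : ℕ)
    (hk : k < (List.replicate n w).flatten.length) (hw : 0 < w.length),
    (List.replicate n w).flatten[k] = w[k % w.length]'(Nat.mod_lt _ hw) := by
  induction n with
  | zero =>
    intro k hk
    simp at hk
  | succ n ih =>
    intro k hk hw
    simp only [List.replicate_succ, List.flatten_cons]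
    rcases Nat.lt_or_ge k w.length with h | h
    · rw [List.getElem_append_left h]
      congr 1
      rw [Nat.mod_eq_of_lt h]
    · rw [List.getElem_append_right h, ih _ _ hw]
      congr 1
      exact (Nat.mod_eq_sub_mod h).symm

theorem exists_perm_map {L : Type} {lab : L → ι × Bool} {ws : List (List (ι × Bool))} :
    ∀ {ls : List (List L)}, (ls.map (List.map lab)).Perm ws →
      ∃ ls', ls.Perm ls' ∧ ls'.map (List.map lab) = ws := by
  induction ws with
  | nil =>
    intro ls h
    have h1 := h.eq_nil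
    rw [List.map_eq_nil_iff] at h1
    subst h1
    exact ⟨[], List.Perm.refl _, rfl⟩
  | cons w ws ih =>
    intro ls h
    obtain ⟨l, ls', h1, h2, h3⟩ := extract h
    obtain ⟨ls'', h4, h5⟩ := ih h3
    exact ⟨l :: ls'', h1.trans (h4.cons _), by rw [List.map_cons, h2, h5]⟩

/-- the chain of the `n`-th powers is an `n`-cover -/
theorem fill_of_B {m : ℕ} (w : Fin m → List (ι × Bool)) (n : ℕ) (hn : 0 < n) (r : ℝ) {c : ℤ}
    (h : B (List.ofFn fun i => (List.replicate n (w i)).flatten) c) (hc : (c : ℝ) < n * r) :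
    FillLt (wordPerm fun i => (w i).length) (fun x => (w x.1).get x.2) r := by
  obtain ⟨L, hL, σ, lab, ls, π, h1, h2, h3, h4⟩ := h
  obtain ⟨ls', h5, h6⟩ := exists_perm_map h2
  have h7 := h1.perm h5
  have hlen : ls'.length = m := by
    have := congrArg List.length h6
    simpa using this
  obtain ⟨l, rfl⟩ : ∃ l : Fin m → List L, ls' = List.ofFn l := by
    subst hlen
    exact ⟨fun i => ls'[i], List.ofFn_getElem.symm⟩
  have h8 : ∀ i, (l i).map lab = (List.replicate n (w i)).flatten := by
    rw [List.map_ofFn] at h6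
    intro i
    exact congrFun (List.ofFn_injective h6) i
  have h9 : ∀ i, (l i).length = n * (w i).length := by
    intro i
    have := congrArg List.length (h8 i)
    simpa using this
  have hnd := List.nodup_flatten.1 h7.nodup
  rw [List.pairwise_ofFn] at hnd
  have hdis : ∀ i j, ∀ z, z ∈ l i → z ∈ l j → i = j := by
    intro i j z hi hj
    rcases lt_trichotomy i j with hij | hij | hij
    · exact absurd hj (hnd.2 hij hi)
    · exact hij
    · exact absurd hi (hnd.2 hij hj)
  have hE : Function.Bijective (fun x : Σ i : Fin m, Fin n × Fin (w i).length =>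
      (l x.1)[(finProdFinEquiv x.2 : ℕ)]'(by rw [h9]; exact (finProdFinEquiv x.2).2)) := by
    constructor
    · rintro ⟨i, x⟩ ⟨i', x'⟩ h
      dsimp only at h
      have hi : i = i' := hdis i i' _ (List.getElem_mem _) (by rw [h]; exact List.getElem_mem _)
      subst hi
      have h10 := (List.Nodup.getElem_inj_iff (hnd.1 (l i) (by simp))).1 h
      have h11 := finProdFinEquiv.injective (Fin.ext h10)
      rw [h11]
    · intro z
      obtain ⟨l', hl', hz⟩ := List.mem_flatten.1 (h7.all z)
      obtain ⟨i, rfl⟩ := (List.mem_ofFn' _ _).1 hl'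
      obtain ⟨k, hk, rfl⟩ := List.getElem_of_mem hz
      refine ⟨⟨i, finProdFinEquiv.symm ⟨k, by rw [← h9]; exact hk⟩⟩, ?_⟩
      simp only [Equiv.apply_symm_apply]
  obtain ⟨E, hEdef⟩ : ∃ E : (Σ i : Fin m, Fin n × Fin (w i).length) ≃ L, ∀ x, E x =
      (l x.1)[(finProdFinEquiv x.2 : ℕ)]'(by rw [h9]; exact (finProdFinEquiv x.2).2) :=
    ⟨Equiv.ofBijective _ hE, fun x => rfl⟩
  have hlab : ∀ i (x : Fin n × Fin (w i).length), lab (E ⟨i, x⟩) = (w i).get x.2 := by
    intro i x
    have hw : 0 < (w i).length := by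
      have := x.2.2
      omega
    rw [hEdef]
    have hk : (finProdFinEquiv x : ℕ) < ((l i).map lab).length := by
      rw [List.length_map, h9]
      exact (finProdFinEquiv x).2
    have e1 : lab ((l i)[(finProdFinEquiv x : ℕ)]'(by rw [h9]; exact (finProdFinEquiv x).2))
        = ((l i).map lab)[(finProdFinEquiv x : ℕ)]'hk := by
      rw [List.getElem_map]
    rw [e1]
    simp only [h8]
    rw [getElem_flatten_replicate _ _ _ _ hw, List.get_eq_getElem]
    congr 1
    rw [finProdFinEquiv_apply_val, Nat.add_mul_mod_self_left, Nat.mod_eq_of_lt x.2.2]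
  have hσ : ∀ i (x : Fin n × Fin (w i).length), ∃ t, σ (E ⟨i, x⟩)
      = E ⟨i, (t, finRotate _ x.2)⟩ := by
    intro i x
    have hw : 0 < (w i).length := by
      have := x.2.2
      omega
    have h10 := (CycL_iff_getElem.1 (h7.cyc (l i) (by simp))) (finProdFinEquiv x : ℕ)
      (by rw [h9]; exact (finProdFinEquiv x).2)
    obtain ⟨y, hy⟩ := finProdFinEquiv.surjective
      (⟨((finProdFinEquiv x : ℕ) + 1) % (n * (w i).length), Nat.mod_lt _ (Nat.mul_pos hn hw)⟩ :
        Fin (n * (w i).length))
    have hy' := congrArg Fin.val hy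
    dsimp only at hy'
    have h11 : σ (E ⟨i, x⟩) = E ⟨i, y⟩ := by
      rw [hEdef, hEdef, h10]
      congr 1
      rw [hy', h9]
    refine ⟨y.1, ?_⟩
    rw [h11]
    have h12 : y.2 = finRotate _ x.2 := by
      have : NeZero (w i).length := ⟨by omega⟩
      rw [finRotate_apply]
      apply Fin.ext
      rw [Fin.val_add, Fin.val_one']
      rw [finProdFinEquiv_apply_val, finProdFinEquiv_apply_val] at hy'
      have h13 := congrArg (fun a => a % (w i).length) hy'
      simp only [Nat.add_mul_mod_self_left, Nat.mod_mul_left_mod] at h13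
      rw [Nat.mod_eq_of_lt y.2.2] at h13
      rw [h13, Nat.add_mod_mod]
      have e : (x.2 : ℕ) + (w i).length * (x.1 : ℕ) + 1
          = ((x.2 : ℕ) + 1) + (w i).length * (x.1 : ℕ) := by ring
      rw [e, Nat.add_mul_mod_self_left]
    rw [← h12]
  obtain ⟨P, hP⟩ : ∃ P : L → Σ i : Fin m, Fin (w i).length, ∀ x, P (E x) = ⟨x.1, x.2.2⟩ :=
    ⟨fun z => ⟨(E.symm z).1, (E.symm z).2.2⟩, fun x => by
      have := congrArg (fun y : Σ i : Fin m, Fin n × Fin (w i).length =>
        (⟨y.1, y.2.2⟩ : Σ i : Fin m, Fin (w i).length)) (E.symm_apply_apply x)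
      exact this⟩
  refine ⟨n, L, hL, P, σ, π, hn, ⟨?_, ?_⟩, ?_, ?_⟩
  · intro z
    obtain ⟨⟨i, x⟩, rfl⟩ := E.surjective z
    obtain ⟨t, ht⟩ := hσ i x
    rw [ht, hP, hP]
    rfl
  · rintro ⟨i, j⟩
    have e : Fin n ≃ {z // P z = ⟨i, j⟩} := by
      refine Equiv.ofBijective (fun t => ⟨E ⟨i, (t, j)⟩, hP _⟩) ⟨?_, ?_⟩
      · intro t t' h
        have h10 := E.injective (congrArg Subtype.val h)
        simpa using h10
      · rintro ⟨z, hz⟩
        obtain ⟨⟨i', t, j'⟩, rfl⟩ := E.surjective z
        rw [hP] at hz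
        cases hz
        exact ⟨t, rfl⟩
    rw [← Nat.card_congr e, Nat.card_eq_fintype_card, Fintype.card_fin]
  · have e : (fun z => (w (P z).1).get (P z).2) = lab := by
      funext z
      obtain ⟨⟨i, x⟩, rfl⟩ := E.surjective z
      rw [hlab, hP]
    change IsPairing (fun z => (w (P z).1).get (P z).2) π
    rw [e]
    exact h3
  · exact lt_of_le_of_lt (by exact_mod_cast h4) hc

end words

end PairCl

open PairCl in
theorem fill_of_clSum {m : ℕ} (w : Fin m → List (Fin 2 × Bool)) (n : ℕ) (hn : 0 < n) (r : ℝ)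
    (hg : (List.ofFn fun i => FreeGroup.mk (w i)).prod ∈ commutator (FreeGroup (Fin 2)))
    (h : 4 * (clSum (fun i => FreeGroup.mk (w i) ^ n) : ℝ) + 2 * m < n * r) :
    FillLt (wordPerm fun i => (w i).length) (fun x => (w x.1).get x.2) r := by
  obtain ⟨k, hk⟩ : ∃ k, k = clSum (fun i => FreeGroup.mk (w i) ^ n) := ⟨_, rfl⟩
  rw [← hk] at h
  obtain ⟨f, hf⟩ := exists_clSum _ (pow_prod_mem _ n hg)
  rw [← hk] at hf
  obtain ⟨a, b, hab⟩ := hf
  have key := B_of_product
    (List.ofFn fun i => ((f i).toWord, (List.replicate n (w i)).flatten))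
    (List.ofFn fun j => ((b j).toWord, (a j).toWord)).reverse ?_
  · rw [List.map_ofFn, List.length_ofFn, List.length_reverse, List.length_ofFn] at key
    refine fill_of_B w n hn r key ?_
    push_cast
    linarith
  · rw [← FreeGroup.mul_mk, mk_flatten, mk_flatten, List.map_map, List.map_map, List.map_ofFn,
      List.map_reverse, List.map_ofFn]
    have e1 : (List.ofFn ((FreeGroup.mk ∘ fun p : List (Fin 2 × Bool) × List (Fin 2 × Bool) =>
        FreeGroup.invRev p.1 ++ p.2 ++ p.1) ∘
        fun i => ((f i).toWord, (List.replicate n (w i)).flatten)))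
        = List.ofFn fun i => (f i)⁻¹ * FreeGroup.mk (w i) ^ n * f i := by
      congr 1
      funext i
      simp only [Function.comp_apply]
      rw [← FreeGroup.mul_mk, ← FreeGroup.mul_mk, ← FreeGroup.inv_mk, FreeGroup.mk_toWord,
        mk_replicate]
    have e2 : (List.ofFn ((FreeGroup.mk ∘ fun p : List (Fin 2 × Bool) × List (Fin 2 × Bool) =>
        p.1 ++ p.2 ++ FreeGroup.invRev p.1 ++ FreeGroup.invRev p.2) ∘
        fun j => ((b j).toWord, (a j).toWord)))
        = List.ofFn fun j => (a j * b j * (a j)⁻¹ * (b j)⁻¹)⁻¹ := by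
      congr 1
      funext i
      simp only [Function.comp_apply]
      rw [← FreeGroup.mul_mk, ← FreeGroup.mul_mk, ← FreeGroup.mul_mk, ← FreeGroup.inv_mk,
        ← FreeGroup.inv_mk, FreeGroup.mk_toWord, FreeGroup.mk_toWord]
      group
    rw [e1, e2, hab]
    have e3 : (List.ofFn fun j => (a j * b j * (a j)⁻¹ * (b j)⁻¹)⁻¹).reverse.prod
        = (List.ofFn fun j => a j * b j * (a j)⁻¹ * (b j)⁻¹).prod⁻¹ := by
      rw [List.prod_inv_reverse, List.map_ofFn]
      rfl
    rw [e3, mul_inv_cancel]

end SclIso
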