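import Pool.Agent.H.MP_1b0e60_al.Flow
import Pool.Agent.H.MP_1b0e60_al.NullCyc
import Pool.Agent.H.MP_1b0e60_al.Cover
import Pool.Agent.H.MP_1b0e60_al.PairCl

/-!
The chain in an action graph given by a family of closed words.
-/

open Equiv Filter Topology

namespace SclIso

variable {Ω : Type*} (t : Fin 2 → Perm Ω)

/-- the oriented edge traversed by the letter `l` at the vertex `y` -/
def Words_edge (l : Fin 2 × Bool) (y : Ω) : (Ω × Fin 2) × Bool :=
  if l.2 then ((y, l.1), true) else (((t l.1)⁻¹ y, l.1), false)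

theorem Words_tl (l : Fin 2 × Bool) (y : Ω) : tl t (Words_edge t l y) = y := by
  obtain ⟨s, b⟩ := l
  cases b
  · simp [Words_edge, tl]
  · simp [Words_edge, tl]

theorem Words_tl_linv (l : Fin 2 × Bool) (y : Ω) :
    tl t (linv (Words_edge t l y)) = step t l y := by
  obtain ⟨s, b⟩ := l
  cases b
  · simp [Words_edge, tl, linv, step]
  · simp [Words_edge, tl, linv, step]

theorem Words_mapL (l : Fin 2 × Bool) (y : Ω) : mapL Prod.snd (Words_edge t l y) = l := by
  obtain ⟨s, b⟩ := l
  cases b
  · simp [Words_edge, mapL]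
  · simp [Words_edge, mapL]

/-- the labels of the chain of closed words `W i` based at `x0` -/
def Words_lab {m : ℕ} (W : Fin m → List (Fin 2 × Bool)) (x0 : Ω) (x : Σ i, Fin (W i).length) :
    (Ω × Fin 2) × Bool :=
  Words_edge t ((W x.1).get x.2) (walk t ((W x.1).take x.2) x0)

theorem Words_rot {n : ℕ} (k : Fin n) :
    ((finRotate n k : Fin n) : ℕ) = if k.1 + 1 = n then 0 else k.1 + 1 := by
  cases n with
  | zero => exact k.elim0
  | succ n =>
    rw [coe_finRotate]
    by_cases h : k = Fin.last n
    · rw [if_pos h, if_pos]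
      rw [h]
      simp
    · rw [if_neg h, if_neg]
      intro h1
      apply h
      apply Fin.ext
      simp only [Fin.val_last]
      omega

theorem Words_take_succ {w : List (Fin 2 × Bool)} (k : ℕ) (hk : k < w.length) (x : Ω) :
    walk t (w.take (k + 1)) x = step t (w.get ⟨k, hk⟩) (walk t (w.take k) x) := by
  rw [List.take_succ_eq_append_getElem hk, walk_append]
  rfl

theorem Words_isPath {m : ℕ} (W : Fin m → List (Fin 2 × Bool)) (x0 : Ω)
    (hW : ∀ i, walk t (W i) x0 = x0) :
    IsPath t (wordPerm fun i => (W i).length) (Words_lab t W x0) := by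
  rintro ⟨i, k⟩
  unfold Words_lab
  rw [Words_tl, Words_tl_linv]
  change walk t ((W i).take (finRotate (W i).length k : Fin (W i).length)) x0 =
    step t ((W i).get k) (walk t ((W i).take k) x0)
  rw [← Words_take_succ t k.1 k.2, Words_rot]
  by_cases h : k.1 + 1 = (W i).length
  · rw [if_pos h, h, List.take_length, hW]
    rfl
  · rw [if_neg h]

theorem Words_stays {D : Ω → Prop} (w : List (Fin 2 × Bool)) (x : Ω) (h : Stays t D w x)
    (k : ℕ) : D (walk t (w.take k) x) := by
  induction w generalizing x k with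
  | nil => rw [List.take_nil]; exact h
  | cons l w ih =>
    cases k with
    | zero => exact h.1
    | succ k => exact ih (step t l x) h.2 k

theorem Words_inV {m : ℕ} (W : Fin m → List (Fin 2 × Bool)) (x0 : Ω) {D : Ω → Prop}
    (hD : ∀ i, Stays t D (W i) x0) (x : Σ i, Fin (W i).length) :
    D (tl t (Words_lab t W x0 x)) := by
  unfold Words_lab
  rw [Words_tl]
  exact Words_stays t _ _ (hD x.1) _

/-! ### the powers of the boundary permutation -/

theorem Words_pow {m : ℕ} (len : Fin m → ℕ) (i : Fin m) (h0 : 0 < len i) (j : ℕ)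
    (hj : j < len i) : ((wordPerm len) ^ j) ⟨i, ⟨0, h0⟩⟩ = ⟨i, ⟨j, hj⟩⟩ := by
  induction j with
  | zero => rfl
  | succ j ih =>
    rw [pow_succ', Perm.mul_apply, ih (by omega)]
    change (⟨i, finRotate (len i) ⟨j, _⟩⟩ : Σ i, Fin (len i)) = _
    congr 1
    apply Fin.ext
    rw [Words_rot, if_neg]
    simp only
    omega

theorem Words_pow_len {m : ℕ} (len : Fin m → ℕ) (i : Fin m) (h0 : 0 < len i) :
    ((wordPerm len) ^ (len i)) ⟨i, ⟨0, h0⟩⟩ = ⟨i, ⟨0, h0⟩⟩ := by
  obtain ⟨n, hn⟩ : ∃ n, len i = n + 1 := ⟨len i - 1, by omega⟩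
  rw [show (wordPerm len) ^ (len i) = (wordPerm len) ^ (n + 1) by rw [hn], pow_succ',
    Perm.mul_apply, Words_pow len i h0 n (by omega)]
  change (⟨i, finRotate (len i) ⟨n, _⟩⟩ : Σ i, Fin (len i)) = _
  congr 1
  apply Fin.ext
  rw [Words_rot, if_pos]
  simp only
  omega

theorem Words_sameCycle {m : ℕ} (len : Fin m → ℕ) (x y : Σ i, Fin (len i))
    (h : (wordPerm len).SameCycle x y) : x.1 = y.1 := by
  obtain ⟨k, hk⟩ := h
  rw [← hk]
  have h1 : ∀ (n : ℕ) (z : Σ i, Fin (len i)), (((wordPerm len) ^ n) z).1 = z.1 := by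
    intro n
    induction n with
    | zero => intro z; rfl
    | succ n ih =>
      intro z
      rw [pow_succ', Perm.mul_apply]
      exact ih z
  cases k with
  | ofNat n =>
    rw [Int.ofNat_eq_natCast, zpow_natCast]
    exact (h1 n x).symm
  | negSucc n =>
    rw [zpow_negSucc]
    have h2 := h1 (n + 1) ((((wordPerm len) ^ (n + 1))⁻¹) x)
    have h3 : ((wordPerm len) ^ (n + 1)) ((((wordPerm len) ^ (n + 1))⁻¹) x) = x :=
      Equiv.apply_symm_apply _ _
    rw [h3] at h2
    exact h2

theorem Words_sameCycle_zero {m : ℕ} (len : Fin m → ℕ) (i : Fin m) (h0 : 0 < len i)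
    (k : Fin (len i)) : (wordPerm len).SameCycle ⟨i, ⟨0, h0⟩⟩ ⟨i, k⟩ :=
  ⟨(k.1 : ℤ), by rw [zpow_natCast, Words_pow len i h0 k.1 k.2]⟩

/-! ### the value of a word -/

/-- extension of the values of the edges to the oriented edges -/
def Words_val {K : Type*} [Group K] (κ : Ω × Fin 2 → K) (l : (Ω × Fin 2) × Bool) : K :=
  if l.2 then κ l.1 else (κ l.1)⁻¹

theorem Words_val_linv {K : Type*} [Group K] (κ : Ω × Fin 2 → K) (l : (Ω × Fin 2) × Bool) :
    Words_val κ (linv l) = (Words_val κ l)⁻¹ := by
  obtain ⟨e, b⟩ := l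
  cases b <;> simp [Words_val, linv]

theorem Words_val_edge {K : Type*} [Group K] (φ : K →* FreeGroup (Fin 2)) (κ : Ω × Fin 2 → K)
    (c : Ω → FreeGroup (Fin 2))
    (hκ : ∀ v s, φ (κ (v, s)) = c v * FreeGroup.of s * (c (t s v))⁻¹)
    (l : Fin 2 × Bool) (y : Ω) :
    φ (Words_val κ (Words_edge t l y)) = c y * FreeGroup.mk [l] * (c (step t l y))⁻¹ := by
  obtain ⟨s, b⟩ := l
  cases b
  · have h1 : FreeGroup.mk [(s, false)] = (FreeGroup.of s)⁻¹ := rfl
    rw [h1]
    have h2 : (t s) ((t s)⁻¹ y) = y := Equiv.apply_symm_apply _ _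
    simp only [Words_val, Words_edge, Bool.false_eq_true, if_false, map_inv, hκ, step]
    rw [h2]
    group
  · have h1 : FreeGroup.mk [(s, true)] = FreeGroup.of s := rfl
    rw [h1]
    simp only [Words_val, Words_edge, if_true, hκ, step]

theorem Words_cycProd {m : ℕ} {K : Type*} [Group K] (W : Fin m → List (Fin 2 × Bool)) (x0 : Ω)
    (hW : ∀ i, walk t (W i) x0 = x0) (φ : K →* FreeGroup (Fin 2)) (κ : Ω × Fin 2 → K)
    (c : Ω → FreeGroup (Fin 2)) (hc : c x0 = 1)
    (hκ : ∀ v s, φ (κ (v, s)) = c v * FreeGroup.of s * (c (t s v))⁻¹)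
    (i : Fin m) (h0 : 0 < (W i).length) :
    φ (cycProd (wordPerm fun i => (W i).length) (fun y => Words_val κ (Words_lab t W x0 y))
      ⟨i, ⟨0, h0⟩⟩) = FreeGroup.mk (W i) := by
  rw [NullCyc_cycProd_eq _ _ _ h0 (Words_pow_len (fun i => (W i).length) i h0)]
  · have h1 : ∀ n : ℕ, n ≤ (W i).length → φ (((List.range n).map (fun j =>
        Words_val κ (Words_lab t W x0 (((wordPerm fun i => (W i).length) ^ j)
          ⟨i, ⟨0, h0⟩⟩)))).prod) =
        FreeGroup.mk ((W i).take n) * (c (walk t ((W i).take n) x0))⁻¹ := by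
      intro n
      induction n with
      | zero =>
        intro _
        simp [hc, FreeGroup.one_eq_mk]
      | succ n ih =>
        intro hn
        rw [List.range_succ, List.map_append, List.prod_append, map_mul, ih (by omega),
          List.map_singleton, List.prod_singleton,
          Words_pow (fun i => (W i).length) i h0 n (show n < (W i).length by omega), Words_lab,
          Words_val_edge t φ κ c hκ, ← Words_take_succ t n (show n < (W i).length by omega),
          List.take_succ_eq_append_getElem (by omega : n < (W i).length), ← FreeGroup.mul_mk]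
        simp only [List.get_eq_getElem]
        group
    rw [h1 _ le_rfl, List.take_length, hW, hc]
    simp
  · intro k hk hk2 h3
    rw [Words_pow (fun i => (W i).length) i h0 k hk2] at h3
    have h4 := congrArg (fun z : Σ i, Fin (W i).length => z.2.1) h3
    simp only at h4
    omega

/-! ### the number of passages -/

theorem Words_count (w : List (Fin 2 × Bool)) (x : Ω) (e : Ω × Fin 2) :
    (Nat.card {k : Fin w.length // Words_edge t (w.get k) (walk t (w.take k) x) = (e, true)} : ℤ) -
      Nat.card {k : Fin w.length // Words_edge t (w.get k) (walk t (w.take k) x) = (e, false)} =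
      flow t w x e := by
  classical
  have hcard : ∀ b : Bool, (Nat.card {k : Fin w.length //
      Words_edge t (w.get k) (walk t (w.take k) x) = (e, b)} : ℤ) =
      ∑ k : Fin w.length, if Words_edge t (w.get k) (walk t (w.take k) x) = (e, b) then (1 : ℤ)
        else 0 := by
    intro b
    rw [Nat.card_eq_fintype_card, Fintype.card_subtype, Finset.card_filter]
    push_cast
    rfl
  rw [hcard, hcard, ← Finset.sum_sub_distrib]
  clear hcard
  induction w generalizing x with
  | nil => simp [flow]
  | cons l w ih =>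
    have h1 := ih (step t l x)
    rw [flow, Finsupp.add_apply, ← h1]
    refine (Fin.sum_univ_succ (n := w.length) _).trans ?_
    congr 1
    obtain ⟨s, b⟩ := l
    cases b
    · simp only [List.get_eq_getElem, Words_edge, Fin.val_zero, List.take_zero, walk_nil,
        List.getElem_cons_zero, Bool.false_eq_true, if_false, Finsupp.neg_apply,
        Finsupp.single_apply, Prod.mk.injEq]
      by_cases h : ((t s)⁻¹ x, s) = e <;> simp [h]
    · simp only [List.get_eq_getElem, Words_edge, Fin.val_zero, List.take_zero, walk_nil,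
        List.getElem_cons_zero, if_true, Finsupp.single_apply, Prod.mk.injEq]
      by_cases h : (x, s) = e <;> simp [h]

theorem Words_flow_flatten (X : List (List (Fin 2 × Bool))) (x0 : Ω)
    (hX : ∀ w ∈ X, walk t w x0 = x0) :
    flow t X.flatten x0 = (X.map fun w => flow t w x0).sum := by
  induction X with
  | nil => rfl
  | cons w X ih =>
    rw [List.flatten_cons, flow_append, hX w (by simp), ih (fun w' h => hX w' (by simp [h])),
      List.map_cons, List.sum_cons]

theorem Words_balanced {m : ℕ} (W : Fin m → List (Fin 2 × Bool)) (x0 : Ω)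
    (hW : ∀ i, walk t (W i) x0 = x0) (H : Subgroup (FreeGroup (Fin 2)))
    (hH : ∀ w, FreeGroup.mk w ∈ H ↔ walk t w x0 = x0)
    (hg : (List.ofFn fun i => FreeGroup.mk (W i)).prod ∈ ⁅H, H⁆) :
    ∃ π, IsPairing (Words_lab t W x0) π := by
  apply exists_pairing_of_card
  intro e
  have hsum : ∑ i, flow t (W i) x0 = 0 := by
    have h1 : flow t (List.ofFn W).flatten x0 = 0 := by
      apply flow_eq_zero_of_mem_commutator t x0 H hH
      rw [SclIso.PairCl.mk_flatten, List.map_ofFn]
      exact hg
    rw [Words_flow_flatten t _ x0 (by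
      intro w hw
      rw [List.mem_ofFn] at hw
      obtain ⟨i, rfl⟩ := hw
      exact hW i), List.map_ofFn, List.sum_ofFn] at h1
    exact h1
  have hcard : ∀ b : Bool, (Nat.card {x // Words_lab t W x0 x = (e, b)} : ℤ) =
      ∑ i, (Nat.card {k : Fin (W i).length //
        Words_edge t ((W i).get k) (walk t ((W i).take k) x0) = (e, b)} : ℤ) := by
    intro b
    rw [← Nat.cast_sum, ← Nat.card_sigma]
    congr 1
    apply Nat.card_congr
    exact
      { toFun := fun x => ⟨x.1.1, ⟨x.1.2, x.2⟩⟩
        invFun := fun x => ⟨⟨x.1, x.2.1⟩, x.2.2⟩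
        left_inv := fun x => rfl
        right_inv := fun x => rfl }
  have h2 : (Nat.card {x // Words_lab t W x0 x = (e, true)} : ℤ) -
      Nat.card {x // Words_lab t W x0 x = (e, false)} = 0 := by
    rw [hcard, hcard, ← Finset.sum_sub_distrib]
    simp only [Words_count]
    rw [← Finsupp.finsetSum_apply, hsum]
    rfl
  exact_mod_cast sub_eq_zero.1 h2

end SclIso
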