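import Pool.Agent.H.MP_1b0e60_al.Iso
import Pool.Agent.H.MP_1b0e60_al.Words
import Pool.Agent.H.MP_1b0e60_al.SclUpper
import Pool.Agent.H.MP_1b0e60_al.SclLimit

/-!
Injective endomorphisms of `F_2` preserve `scl`.
-/

open Equiv Filter Topology

namespace SclIso

theorem Main_map_mem {G K : Type*} [Group G] [Group K] (φ : G →* K) {x : G}
    (hx : x ∈ commutator G) : φ x ∈ commutator K := by
  have h1 : (commutator G).map φ ≤ commutator K := by
    rw [commutator_def, Subgroup.map_commutator, commutator_def]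
    exact Subgroup.commutator_mono le_top le_top
  exact h1 ⟨x, hx, rfl⟩

theorem Main_prod_map {G K : Type*} [Group G] [Group K] (φ : G →* K) {m : ℕ} (g : Fin m → G) :
    (List.ofFn fun i => φ (g i)).prod = φ (List.ofFn g).prod := by
  rw [map_list_prod, List.map_ofFn]
  rfl

theorem Main_cl_map {G K : Type*} [Group G] [Group K] (φ : G →* K) {x : G}
    (hx : x ∈ commutator G) : cl (φ x) ≤ cl x := by
  obtain ⟨a, b, hab⟩ := SclLimit_cl_mem hx
  apply SclLimit_cl_le
  refine ⟨fun i => φ (a i), fun i => φ (b i), ?_⟩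
  have h2 := Main_prod_map φ (fun i => a i * b i * (a i)⁻¹ * (b i)⁻¹)
  rw [← hab] at h2
  rw [← h2]
  congr 1
  simp

/-- `scl` is nonincreasing under homomorphisms -/
theorem scl_map_le {G K : Type*} [Group G] [Group K] (φ : G →* K) {m : ℕ} (g : Fin m → G)
    (hg : (List.ofFn g).prod ∈ commutator G) : scl (fun i => φ (g i)) ≤ scl g := by
  have hg' : (List.ofFn fun i => φ (g i)).prod ∈ commutator K := by
    rw [Main_prod_map]
    exact Main_map_mem φ hg
  refine le_of_tendsto_of_tendsto' (scl_tendsto _ hg') (scl_tendsto g hg) ?_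
  intro n
  apply div_le_div_of_nonneg_right _ (Nat.cast_nonneg n)
  norm_cast
  obtain ⟨h, hh⟩ := SclLimit_clSum_mem (fun i => g i ^ n)
  rw [← hh]
  refine (SclLimit_clSum_le (fun i => φ (g i) ^ n) (fun i => φ (h i))).trans ?_
  have h1 := Main_prod_map φ (fun i => (h i)⁻¹ * g i ^ n * h i)
  have h2 : (List.ofFn fun i => (φ (h i))⁻¹ * φ (g i) ^ n * φ (h i)).prod =
      φ (List.ofFn fun i => (h i)⁻¹ * g i ^ n * h i).prod := by
    rw [← h1]
    congr 1
    simp
  rw [h2]
  exact Main_cl_map φ (SclLimit_mem g hg n h)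

/-! ### dropping trivial entries -/

theorem Main_prod_drop {M : Type*} [Monoid M] : ∀ (m : ℕ) (f : Fin (m + 1) → M) (i : Fin (m + 1)),
    f i = 1 → (List.ofFn f).prod = (List.ofFn fun j => f (i.succAbove j)).prod := by
  intro m
  induction m with
  | zero =>
    intro f i hi
    have h0 : i = 0 := Fin.ext (by omega)
    subst h0
    simp [hi]
  | succ m ih =>
    intro f i hi
    rcases Fin.eq_zero_or_eq_succ i with rfl | ⟨j, rfl⟩
    · rw [List.ofFn_succ, List.prod_cons, hi, one_mul]
      simp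
    · rw [List.ofFn_succ, List.prod_cons, ih (fun k => f k.succ) j hi,
        List.ofFn_succ (f := fun k => f (j.succ.succAbove k)), List.prod_cons]
      simp

theorem Main_clSum_drop {G : Type*} [Group G] {m : ℕ} (g : Fin (m + 1) → G) (i : Fin (m + 1))
    (hi : g i = 1) : clSum g = clSum (fun j => g (i.succAbove j)) := by
  unfold clSum
  congr 1
  ext k
  constructor
  · rintro ⟨h, rfl⟩
    refine ⟨fun j => h (i.succAbove j), ?_⟩
    simp only
    rw [Main_prod_drop m (fun i => (h i)⁻¹ * g i * h i) i (by simp [hi])]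
  · rintro ⟨h, rfl⟩
    refine ⟨i.insertNth 1 h, ?_⟩
    simp only
    rw [Main_prod_drop m _ i (by simp [hi])]
    simp

theorem Main_scl_drop {G : Type*} [Group G] {m : ℕ} (g : Fin (m + 1) → G) (i : Fin (m + 1))
    (hi : g i = 1) : scl g = scl (fun j => g (i.succAbove j)) := by
  unfold scl
  congr 1
  funext n
  rw [Main_clSum_drop _ i (by simp [hi])]

/-! ### the main inequality -/

theorem Main_range_of : Set.range (FreeGroup.of : Fin 2 → FreeGroup (Fin 2)) =
    {FreeGroup.of 0, FreeGroup.of 1} := by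
  ext x
  constructor
  · rintro ⟨s, rfl⟩
    fin_cases s <;> simp
  · rintro (rfl | rfl)
    · exact ⟨0, rfl⟩
    · exact ⟨1, rfl⟩

/-- substitution -/
def Main_sub (G : Fin 2 → List (Fin 2 × Bool)) (w : List (Fin 2 × Bool)) : List (Fin 2 × Bool) :=
  w.flatMap fun l => if l.2 then G l.1 else FreeGroup.invRev (G l.1)

theorem Main_mk_sub (G : Fin 2 → List (Fin 2 × Bool))
    (φ : FreeGroup (Fin 2) →* FreeGroup (Fin 2)) (hφ : ∀ s, φ (FreeGroup.of s) = FreeGroup.mk (G s))
    (w : List (Fin 2 × Bool)) : FreeGroup.mk (Main_sub G w) = φ (FreeGroup.mk w) := by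
  induction w with
  | nil => simp [Main_sub, ← FreeGroup.one_eq_mk]
  | cons l w ih =>
    have h1 : Main_sub G (l :: w) = (if l.2 then G l.1 else FreeGroup.invRev (G l.1)) ++
      Main_sub G w := rfl
    have h2 : (l :: w) = [l] ++ w := rfl
    rw [h1, ← FreeGroup.mul_mk, ih, h2, ← FreeGroup.mul_mk, map_mul]
    congr 1
    obtain ⟨s, b⟩ := l
    cases b
    · have h3 : FreeGroup.mk [(s, false)] = (FreeGroup.of s)⁻¹ := rfl
      rw [h3, map_inv, hφ, FreeGroup.inv_mk]
      rfl
    · have h3 : FreeGroup.mk [(s, true)] = FreeGroup.of s := rfl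
      rw [h3, hφ]
      rfl

theorem Main_stays_inv {Ω : Type*} (t : Fin 2 → Perm Ω) {D : Ω → Prop}
    (w : List (Fin 2 × Bool)) (x : Ω) (h : Stays t D w x) :
    Stays t D (FreeGroup.invRev w) (walk t w x) := by
  induction w generalizing x with
  | nil => exact h
  | cons l w ih =>
    have h1 : FreeGroup.invRev (l :: w) = FreeGroup.invRev w ++ [(l.1, !l.2)] := by
      simp [FreeGroup.invRev]
    rw [h1]
    apply LemmaK_stays_append t
    · exact ih _ h.2
    · rw [walk_cons, walk_invRev]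
      have h2 : step t (l.1, !l.2) (step t l x) = x := step_not t l.1 l.2 x
      refine ⟨LemmaK_stays_start t h.2, ?_⟩
      rw [h2]
      exact h.1

theorem Main_stays_sub {Ω : Type*} (t : Fin 2 → Perm Ω) {D : Ω → Prop} (x : Ω)
    (G : Fin 2 → List (Fin 2 × Bool)) (hG : ∀ s, Stays t D (G s) x)
    (hG' : ∀ s, walk t (G s) x = x) (w : List (Fin 2 × Bool)) :
    Stays t D (Main_sub G w) x ∧ walk t (Main_sub G w) x = x := by
  induction w with
  | nil => exact ⟨LemmaK_stays_start t (hG 0), rfl⟩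
  | cons l w ih =>
    have h1 : Main_sub G (l :: w) = (if l.2 then G l.1 else FreeGroup.invRev (G l.1)) ++
      Main_sub G w := rfl
    have h2 : Stays t D (if l.2 then G l.1 else FreeGroup.invRev (G l.1)) x ∧
        walk t (if l.2 then G l.1 else FreeGroup.invRev (G l.1)) x = x := by
      split_ifs
      · exact ⟨hG _, hG' _⟩
      · have h3 := Main_stays_inv t _ _ (hG l.1)
        have h4 := walk_invRev t (G l.1) x
        rw [hG'] at h3 h4
        exact ⟨h3, h4⟩
    rw [h1]
    refine ⟨LemmaK_stays_append t h2.1 ?_, ?_⟩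
    · rw [h2.2]
      exact ih.1
    · rw [walk_append, h2.2]
      exact ih.2

/-- coset representatives -/
theorem Main_reps (H : Subgroup (FreeGroup (Fin 2))) :
    ∃ c : FreeGroup (Fin 2) ⧸ H → FreeGroup (Fin 2), c (QuotientGroup.mk 1) = 1 ∧
      ∀ v s, c v * FreeGroup.of s * (c (cosetAct H s v))⁻¹ ∈ H := by
  classical
  have h0 : ∀ v : FreeGroup (Fin 2) ⧸ H, ∃ x : FreeGroup (Fin 2),
      (QuotientGroup.mk x⁻¹ : FreeGroup (Fin 2) ⧸ H) = v ∧
      (v = QuotientGroup.mk 1 → x = 1) := by
    intro v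
    by_cases hv : v = QuotientGroup.mk 1
    · exact ⟨1, by rw [inv_one, hv], fun _ => rfl⟩
    · induction v using QuotientGroup.induction_on with
      | H f => exact ⟨f⁻¹, by rw [inv_inv], fun h => absurd h hv⟩
  choose c hc1 hc2 using h0
  refine ⟨c, hc2 _ rfl, ?_⟩
  intro v s
  have h1 : cosetAct H s v = QuotientGroup.mk ((FreeGroup.of s)⁻¹ * (c v)⁻¹) := by
    conv_lhs => rw [← hc1 v]
    rfl
  have h2 := hc1 (cosetAct H s v)
  rw [h1, eq_comm, QuotientGroup.eq] at h2
  rw [h1]
  have h3 : ((FreeGroup.of s)⁻¹ * (c v)⁻¹)⁻¹ = c v * FreeGroup.of s := by group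
  rwa [h3] at h2

theorem Main_le (φ : FreeGroup (Fin 2) →* FreeGroup (Fin 2)) (hφ : Function.Injective φ) {m : ℕ}
    (g : Fin m → FreeGroup (Fin 2)) (hg : (List.ofFn g).prod ∈ commutator (FreeGroup (Fin 2)))
    (hne : ∀ i, g i ≠ 1) : scl g ≤ scl (fun i => φ (g i)) := by
  have hg' : (List.ofFn fun i => φ (g i)).prod ∈ commutator (FreeGroup (Fin 2)) := by
    rw [Main_prod_map]
    exact Main_map_mem φ hg
  -- the words
  set G : Fin 2 → List (Fin 2 × Bool) := fun s => (φ (FreeGroup.of s)).toWord with hG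
  have hGφ : ∀ s, φ (FreeGroup.of s) = FreeGroup.mk (G s) := fun s => FreeGroup.mk_toWord.symm
  set W : Fin m → List (Fin 2 × Bool) := fun i => Main_sub G (g i).toWord with hW
  have hWφ : ∀ i, FreeGroup.mk (W i) = φ (g i) := by
    intro i
    rw [hW]
    simp only
    rw [Main_mk_sub G φ hGφ, FreeGroup.mk_toWord]
  have hab : FreeGroup.mk (G 0) * FreeGroup.mk (G 1) ≠ FreeGroup.mk (G 1) * FreeGroup.mk (G 0) := by
    rw [← hGφ, ← hGφ, ← map_mul, ← map_mul]
    intro h
    have h1 := hφ h
    have h2 := congrArg FreeGroup.toWord h1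
    revert h2
    decide
  obtain ⟨V, hV0, hV1, hiso⟩ := graph_iso (G 0) (G 1) hab
  have hrange : φ.range = Subgroup.closure {FreeGroup.mk (G 0), FreeGroup.mk (G 1)} := by
    rw [MonoidHom.range_eq_map, ← FreeGroup.closure_range_of, MonoidHom.map_closure, Main_range_of,
      Set.image_pair, hGφ, hGφ]
  generalize Subgroup.closure {FreeGroup.mk (G 0), FreeGroup.mk (G 1)} = H at *
  have hcl : ∀ s, walk (cosetAct H) (G s) (QuotientGroup.mk 1) = QuotientGroup.mk 1 := by
    intro s
    rw [← mem_iff_walk_cosetAct, ← hGφ, ← hrange]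
    exact ⟨_, rfl⟩
  have hst : ∀ s, Stays (cosetAct H) (· ∈ V) (G s) (QuotientGroup.mk 1) := by
    intro s
    fin_cases s
    · exact hV0
    · exact hV1
  have hsub := fun i => Main_stays_sub (cosetAct H) (QuotientGroup.mk 1) G hst hcl (g i).toWord
  obtain ⟨c, hc1, hc⟩ := Main_reps H
  have hκ : ∀ v s, ∃ z, φ z = c v * FreeGroup.of s * (c (cosetAct H s v))⁻¹ := by
    intro v s
    have h1 : ∀ x ∈ H, ∃ z, φ z = x := by
      intro x hx
      rw [← hrange] at hx
      exact hx
    exact h1 _ (hc v s)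
  choose κ hκ using hκ
  have hbal : ∃ π, IsPairing (Words_lab (cosetAct H) W (QuotientGroup.mk 1)) π := by
    refine Words_balanced (cosetAct H) W _ (fun i => (hsub i).2) H
      (mem_iff_walk_cosetAct H) ?_
    simp only [hWφ]
    rw [Main_prod_map, ← hrange, MonoidHom.range_eq_map, ← Subgroup.map_commutator]
    rw [commutator_def] at hg
    exact ⟨_, hg, rfl⟩
  have h0 : ∀ i, 0 < (W i).length := by
    intro i
    rw [List.length_pos_iff]
    intro h
    apply hne i
    apply hφ
    rw [← hWφ, h, map_one]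
    rfl
  -- lift of the fillings
  have key : ∀ r : ℝ, 4 * scl (fun i => φ (g i)) < r → 4 * scl g ≤ r := by
    intro r hr
    obtain ⟨n, hn0, hn⟩ : ∃ n : ℕ, 0 < n ∧
        4 * (clSum (fun i => φ (g i) ^ n) : ℝ) + 2 * m < n * r := by
      have ht := scl_tendsto _ hg'
      have h1 : ∀ᶠ n : ℕ in atTop, (clSum (fun i => φ (g i) ^ n) : ℝ) / n <
          scl (fun i => φ (g i)) + (r - 4 * scl (fun i => φ (g i))) / 8 :=
        ht.eventually_lt_const (by linarith)
      have h2 : ∀ᶠ n : ℕ in atTop, (2 * m : ℝ) / n < (r - 4 * scl (fun i => φ (g i))) / 2 :=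
        (tendsto_const_div_atTop_nhds_zero_nat (2 * m : ℝ)).eventually_lt_const (by linarith)
      obtain ⟨n, hn1, hn2, hn3⟩ := (h1.and (h2.and (eventually_gt_atTop 0))).exists
      refine ⟨n, hn3, ?_⟩
      have hn4 : (0 : ℝ) < n := by exact_mod_cast hn3
      rw [div_lt_iff₀ hn4] at hn1 hn2
      nlinarith
    have hfill := fill_of_clSum W n hn0 r (by simpa only [hWφ] using hg')
      (by simpa only [hWφ] using hn)
    have hfill2 := hiso (Σ i, Fin (W i).length) (wordPerm fun i => (W i).length)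
      (Words_lab (cosetAct H) W (QuotientGroup.mk 1))
      (Words_isPath _ W _ (fun i => (hsub i).2))
      (Words_inV (cosetAct H) W _ (fun i => (hsub i).1)) hbal r (by
        simp only [Words_lab, Words_mapL]
        exact hfill)
    have hcyc : ∀ i, cycProd (wordPerm fun i => (W i).length)
        (fun y => Words_val (fun e => κ e.1 e.2)
          (Words_lab (cosetAct H) W (QuotientGroup.mk 1) y)) ⟨i, ⟨0, h0 i⟩⟩ = g i := by
      intro i
      apply hφ
      rw [Words_cycProd (cosetAct H) W (QuotientGroup.mk 1) (fun i => (hsub i).2) φ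
        (fun e => κ e.1 e.2) c hc1 hκ i (h0 i), hWφ]
    apply le_of_forall_pos_le_add
    intro ε hε
    by_contra hcon
    push Not at hcon
    have ht := scl_tendsto g hg
    have h1 : ∀ᶠ n : ℕ in atTop, (r + ε) / 4 < (clSum (fun i => g i ^ n) : ℝ) / n :=
      ht.eventually_const_lt (by linarith)
    obtain ⟨N0, hN0⟩ := eventually_atTop.1 (h1.and (eventually_gt_atTop 0))
    obtain ⟨N, hN, hN'⟩ := clSum_le_of_fill (K := FreeGroup (Fin 2))
      (fun w J hw => freeGroup_rf w hw J) (wordPerm fun i => (W i).length)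
      (Words_lab (cosetAct H) W (QuotientGroup.mk 1)) (Words_val (fun e => κ e.1 e.2))
      (Words_val_linv _) (fun i => ⟨i, ⟨0, h0 i⟩⟩)
      (fun i j hij => Words_sameCycle _ _ _ hij)
      (fun y => ⟨y.1, Words_sameCycle_zero (fun i => (W i).length) y.1 (h0 y.1) y.2⟩)
      (fun i => by rw [hcyc]; exact hne i) r hfill2 ε hε N0
    simp only [hcyc] at hN'
    obtain ⟨h2, h3⟩ := hN0 N hN
    have hN4 : (0 : ℝ) < N := by exact_mod_cast h3
    rw [lt_div_iff₀ hN4] at h2
    linarith
  have h5 : 4 * scl g ≤ 4 * scl (fun i => φ (g i)) :=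
    le_of_forall_gt_imp_ge_of_dense key
  linarith

/-- injective endomorphisms of `F_2` preserve `scl` of all formal sums -/
theorem Main_eq (φ : FreeGroup (Fin 2) →* FreeGroup (Fin 2)) (hφ : Function.Injective φ) :
    ∀ (m : ℕ) (g : Fin m → FreeGroup (Fin 2)),
      (List.ofFn g).prod ∈ commutator (FreeGroup (Fin 2)) →
      scl (fun i => φ (g i)) = scl g := by
  intro m
  induction m with
  | zero =>
    intro g hg
    exact le_antisymm (scl_map_le φ g hg) (Main_le φ hφ g hg (fun i => i.elim0))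
  | succ m ih =>
    intro g hg
    by_cases hne : ∀ i, g i ≠ 1
    · exact le_antisymm (scl_map_le φ g hg) (Main_le φ hφ g hg hne)
    · push Not at hne
      obtain ⟨i, hi⟩ := hne
      rw [Main_scl_drop g i hi, Main_scl_drop (fun i => φ (g i)) i (by simp [hi])]
      apply ih
      rw [← Main_prod_drop m g i hi]
      exact hg

end SclIso
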