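import Pool.Agent.H.MP_1b0e60_al.NormDefs
import Pool.Agent.H.MP_1b0e60_al.SclLimit

/-!
`scl` of formal sums: subadditivity, homogeneity, invariance.
-/

open Equiv Filter Topology

namespace SclIso

/-- `scl` of a list of group elements -/
noncomputable def sclL {G : Type*} [Group G] (l : List G) : ℝ := scl l.get

section NormRel

variable {G : Type*} [Group G]

/-- `x` is a product of conjugates of the members of the list, in this order -/
inductive NormRel_PC : List G → G → Prop
  | nil : NormRel_PC [] 1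
  | cons (a h x : G) (l : List G) : NormRel_PC l x → NormRel_PC (a :: l) (h⁻¹ * a * h * x)

lemma NormRel_PC_nil_iff {x : G} : NormRel_PC [] x ↔ x = 1 := by
  constructor
  · intro h
    cases h
    rfl
  · rintro rfl
    exact NormRel_PC.nil

lemma NormRel_PC_cons_iff {a x : G} {l : List G} :
    NormRel_PC (a :: l) x ↔ ∃ h y, NormRel_PC l y ∧ x = h⁻¹ * a * h * y := by
  constructor
  · intro h
    cases h with
    | cons a h x l hl => exact ⟨h, x, hl, rfl⟩
  · rintro ⟨h, y, hy, rfl⟩
    exact NormRel_PC.cons a h y l hy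

lemma NormRel_PC_append_iff {P Q : List G} {x : G} :
    NormRel_PC (P ++ Q) x ↔ ∃ y z, NormRel_PC P y ∧ NormRel_PC Q z ∧ x = y * z := by
  induction P generalizing x with
  | nil =>
    constructor
    · intro h
      exact ⟨1, x, NormRel_PC.nil, h, by simp⟩
    · rintro ⟨y, z, hy, hz, rfl⟩
      rw [NormRel_PC_nil_iff] at hy
      subst hy
      simpa using hz
  | cons a P ih =>
    rw [List.cons_append, NormRel_PC_cons_iff]
    constructor
    · rintro ⟨h, y, hy, rfl⟩
      obtain ⟨u, v, hu, hv, rfl⟩ := ih.1 hy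
      exact ⟨h⁻¹ * a * h * u, v, NormRel_PC.cons a h u P hu, hv, by simp [mul_assoc]⟩
    · rintro ⟨y, z, hy, hz, rfl⟩
      obtain ⟨h, u, hu, rfl⟩ := NormRel_PC_cons_iff.1 hy
      exact ⟨h, u * z, ih.2 ⟨u, z, hu, hz, rfl⟩, by simp [mul_assoc]⟩

lemma NormRel_PC_single {a x : G} : NormRel_PC [a] x ↔ ∃ h, x = h⁻¹ * a * h := by
  rw [NormRel_PC_cons_iff]
  constructor
  · rintro ⟨h, y, hy, rfl⟩
    rw [NormRel_PC_nil_iff] at hy
    subst hy
    exact ⟨h, by simp⟩
  · rintro ⟨h, rfl⟩
    exact ⟨h, 1, NormRel_PC.nil, by simp⟩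

lemma NormRel_PC_ofFn {m : ℕ} (g : Fin m → G) (x : G) :
    NormRel_PC (List.ofFn g) x ↔ ∃ h : Fin m → G,
      x = (List.ofFn fun i => (h i)⁻¹ * g i * h i).prod := by
  induction m generalizing x with
  | zero =>
    simp only [List.ofFn_zero, NormRel_PC_nil_iff, List.prod_nil]
    exact ⟨fun h => ⟨fun i => 1, h⟩, fun ⟨_, h⟩ => h⟩
  | succ m ih =>
    rw [List.ofFn_succ, NormRel_PC_cons_iff]
    constructor
    · rintro ⟨h, y, hy, rfl⟩
      obtain ⟨h', rfl⟩ := (ih _ _).1 hy
      refine ⟨Fin.cons h h', ?_⟩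
      rw [List.ofFn_succ]
      simp
    · rintro ⟨h, rfl⟩
      refine ⟨h 0, _, (ih (fun i => g i.succ) _).2 ⟨fun i => h i.succ, rfl⟩, ?_⟩
      rw [List.ofFn_succ]
      simp

/-- comparison of formal sums up to a bounded number of commutators -/
def NormRel_Le (P Q : List G) : Prop :=
  ∃ C : ℕ, ∀ (n : ℕ) (y : G), NormRel_PC (Q.map (· ^ n)) y →
    ∃ x, NormRel_PC (P.map (· ^ n)) x ∧ IsCommProd C (x * y⁻¹)

lemma NormRel_Le_of_eq {P Q : List G}
    (h : ∀ (n : ℕ) (y : G), NormRel_PC (Q.map (· ^ n)) y → NormRel_PC (P.map (· ^ n)) y) :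
    NormRel_Le P Q :=
  ⟨0, fun n y hy => ⟨y, h n y hy, by simpa using (SclLimit_zero (G := G))⟩⟩

lemma NormRel_Le_refl (P : List G) : NormRel_Le P P := NormRel_Le_of_eq fun _ _ h => h

lemma NormRel_Le_trans {P Q R : List G} (h1 : NormRel_Le P Q) (h2 : NormRel_Le Q R) :
    NormRel_Le P R := by
  obtain ⟨C, hC⟩ := h1
  obtain ⟨C', hC'⟩ := h2
  refine ⟨C + C', fun n z hz => ?_⟩
  obtain ⟨y, hy, hyz⟩ := hC' n z hz
  obtain ⟨x, hx, hxy⟩ := hC n y hy
  refine ⟨x, hx, ?_⟩
  have := SclLimit_mul hxy hyz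
  simpa [mul_assoc] using this

lemma NormRel_Le_append {P Q P' Q' : List G} (h1 : NormRel_Le P Q) (h2 : NormRel_Le P' Q') :
    NormRel_Le (P ++ P') (Q ++ Q') := by
  obtain ⟨C, hC⟩ := h1
  obtain ⟨C', hC'⟩ := h2
  refine ⟨C' + C, fun n z hz => ?_⟩
  rw [List.map_append, NormRel_PC_append_iff] at hz
  obtain ⟨u, v, hu, hv, rfl⟩ := hz
  obtain ⟨x, hx, hxu⟩ := hC n u hu
  obtain ⟨y, hy, hyv⟩ := hC' n v hv
  refine ⟨x * y, ?_, ?_⟩
  · rw [List.map_append, NormRel_PC_append_iff]
    exact ⟨x, y, hx, hy, rfl⟩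
  · have := SclLimit_mul (SclLimit_conj hyv x) hxu
    have e : x * y * (u * v)⁻¹ = x * (y * v⁻¹) * x⁻¹ * (x * u⁻¹) := by group
    rw [e]
    exact this

lemma NormRel_PC_perm {P Q : List G} (h : P.Perm Q) {x : G} (hx : NormRel_PC P x) :
    NormRel_PC Q x := by
  induction h generalizing x with
  | nil => exact hx
  | cons a h ih =>
    obtain ⟨h, y, hy, rfl⟩ := NormRel_PC_cons_iff.1 hx
    exact NormRel_PC.cons a h y _ (ih hy)
  | swap a b l =>
    obtain ⟨h, y, hy, rfl⟩ := NormRel_PC_cons_iff.1 hx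
    obtain ⟨h', z, hz, rfl⟩ := NormRel_PC_cons_iff.1 hy
    have := NormRel_PC.cons a (h' * (h⁻¹ * b * h)⁻¹) (h⁻¹ * b * h * z) _
      (NormRel_PC.cons b h z _ hz)
    have e : (h' * (h⁻¹ * b * h)⁻¹)⁻¹ * a * (h' * (h⁻¹ * b * h)⁻¹) * (h⁻¹ * b * h * z)
        = h⁻¹ * b * h * (h'⁻¹ * a * h' * z) := by group
    rw [e] at this
    exact this
  | trans h1 h2 ih1 ih2 => exact ih2 (ih1 hx)

lemma NormRel_Le_perm {P Q : List G} (h : P.Perm Q) : NormRel_Le P Q :=
  NormRel_Le_of_eq fun n _ hy => NormRel_PC_perm (h.symm.map (· ^ n)) hy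

lemma NormRel_Le_conj (g h : G) : NormRel_Le [g] [h * g * h⁻¹] := by
  refine NormRel_Le_of_eq fun n y hy => ?_
  simp only [List.map_cons, List.map_nil] at hy ⊢
  rw [NormRel_PC_single] at hy ⊢
  obtain ⟨k, rfl⟩ := hy
  refine ⟨h⁻¹ * k, ?_⟩
  rw [conj_pow]
  group

lemma NormRel_Le_conj' (g h : G) : NormRel_Le [h * g * h⁻¹] [g] := by
  have := NormRel_Le_conj (h * g * h⁻¹) h⁻¹
  simpa [mul_assoc] using this

lemma NormRel_Le_cancel (g : G) : NormRel_Le [g, g⁻¹] [] := by
  refine NormRel_Le_of_eq fun n y hy => ?_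
  simp only [List.map_nil, NormRel_PC_nil_iff] at hy
  subst hy
  simp only [List.map_cons, List.map_nil]
  have := NormRel_PC.cons (g ^ n) 1 _ _ (NormRel_PC.cons (g⁻¹ ^ n) 1 _ _ NormRel_PC.nil)
  simpa using this

lemma NormRel_Le_cancel' (g : G) : NormRel_Le [] [g, g⁻¹] := by
  refine ⟨1, fun n y hy => ⟨1, NormRel_PC.nil, ?_⟩⟩
  simp only [List.map_cons, List.map_nil] at hy
  obtain ⟨h, z, hz, rfl⟩ := NormRel_PC_cons_iff.1 hy
  obtain ⟨h', rfl⟩ := NormRel_PC_single.1 hz
  have := SclLimit_comm (h'⁻¹ * g ^ n * h') (h⁻¹ * h')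
  have e : 1 * (h⁻¹ * g ^ n * h * (h'⁻¹ * g⁻¹ ^ n * h'))⁻¹ =
      h'⁻¹ * g ^ n * h' * (h⁻¹ * h') * (h'⁻¹ * g ^ n * h')⁻¹ * (h⁻¹ * h')⁻¹ := by
    rw [inv_pow]
    group
  rw [e]
  exact this

lemma NormRel_Le_pow (g : G) (e : ℕ) : NormRel_Le (List.replicate e g) [g ^ e] := by
  refine NormRel_Le_of_eq fun n y hy => ?_
  simp only [List.map_cons, List.map_nil] at hy
  obtain ⟨h, rfl⟩ := NormRel_PC_single.1 hy
  rw [List.map_replicate]
  clear hy
  have : ∀ e : ℕ, NormRel_PC (List.replicate e (g ^ n)) (h⁻¹ * (g ^ n) ^ e * h) := by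
    intro e
    induction e with
    | zero => simpa using (NormRel_PC.nil (G := G))
    | succ e ih =>
      have := NormRel_PC.cons (g ^ n) h _ _ ih
      rw [List.replicate_succ]
      have e' : h⁻¹ * (g ^ n) ^ (e + 1) * h = h⁻¹ * g ^ n * h * (h⁻¹ * (g ^ n) ^ e * h) := by
        rw [pow_succ']
        simp [mul_assoc]
      rw [e']
      exact this
  rw [pow_right_comm]
  exact this e

lemma NormRel_pow_aux (a : G) : ∀ (e : ℕ) (y : G), NormRel_PC (List.replicate e a) y →
    IsCommProd e (a ^ e * y⁻¹) := by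
  intro e
  induction e with
  | zero =>
    intro y hy
    rw [List.replicate_zero, NormRel_PC_nil_iff] at hy
    subst hy
    simpa using (SclLimit_zero (G := G))
  | succ e ih =>
    intro y hy
    rw [List.replicate_succ] at hy
    obtain ⟨h, z, hz, rfl⟩ := NormRel_PC_cons_iff.1 hy
    have := SclLimit_mul (SclLimit_conj (ih z hz) a) (SclLimit_comm a h⁻¹)
    have e' : a ^ (e + 1) * (h⁻¹ * a * h * z)⁻¹ =
        a * (a ^ e * z⁻¹) * a⁻¹ * (a * h⁻¹ * a⁻¹ * h⁻¹⁻¹) := by
      rw [pow_succ']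
      group
    rw [e']
    exact this

lemma NormRel_Le_pow' (g : G) (e : ℕ) : NormRel_Le [g ^ e] (List.replicate e g) := by
  refine ⟨e, fun n y hy => ⟨(g ^ n) ^ e, ?_, ?_⟩⟩
  · simp only [List.map_cons, List.map_nil]
    rw [NormRel_PC_single]
    exact ⟨1, by rw [pow_right_comm]; simp⟩
  · rw [List.map_replicate] at hy
    exact NormRel_pow_aux _ _ _ hy

/-! ### The congruence -/

/-- equivalence of formal sums -/
def NormRel_con (G : Type*) [Group G] : AddCon (Multiset G) where
  r P Q := NormRel_Le P.toList Q.toList ∧ NormRel_Le Q.toList P.toList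
  iseqv := ⟨fun P => ⟨NormRel_Le_refl _, NormRel_Le_refl _⟩, fun h => ⟨h.2, h.1⟩,
    fun h1 h2 => ⟨NormRel_Le_trans h1.1 h2.1, NormRel_Le_trans h2.2 h1.2⟩⟩
  add' := by
    intro P Q P' Q' h1 h2
    have key : ∀ A B : Multiset G, (A + B).toList.Perm (A.toList ++ B.toList) := by
      intro A B
      rw [← Multiset.coe_eq_coe, Multiset.coe_toList, ← Multiset.coe_add, Multiset.coe_toList,
        Multiset.coe_toList]
    exact ⟨NormRel_Le_trans (NormRel_Le_perm (key _ _)) (NormRel_Le_trans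
        (NormRel_Le_append h1.1 h2.1) (NormRel_Le_perm (key _ _).symm)),
      NormRel_Le_trans (NormRel_Le_perm (key _ _)) (NormRel_Le_trans
        (NormRel_Le_append h1.2 h2.2) (NormRel_Le_perm (key _ _).symm))⟩

lemma NormRel_con_coe {P Q : List G} :
    NormRel_con G (P : Multiset G) (Q : Multiset G) ↔ NormRel_Le P Q ∧ NormRel_Le Q P := by
  have key : ∀ A : List G, ((A : Multiset G).toList).Perm A := by
    intro A
    rw [← Multiset.coe_eq_coe, Multiset.coe_toList]
  constructor
  · intro h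
    exact ⟨NormRel_Le_trans (NormRel_Le_perm (key P).symm) (NormRel_Le_trans h.1
        (NormRel_Le_perm (key Q))),
      NormRel_Le_trans (NormRel_Le_perm (key Q).symm) (NormRel_Le_trans h.2
        (NormRel_Le_perm (key P)))⟩
  · intro h
    exact ⟨NormRel_Le_trans (NormRel_Le_perm (key P)) (NormRel_Le_trans h.1
        (NormRel_Le_perm (key Q).symm)),
      NormRel_Le_trans (NormRel_Le_perm (key Q)) (NormRel_Le_trans h.2
        (NormRel_Le_perm (key P).symm))⟩

/-- class of a formal sum -/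
def NormRel_cls (P : List G) : (NormRel_con G).Quotient := ((P : Multiset G) : _)

lemma NormRel_cls_eq {P Q : List G} :
    NormRel_cls P = NormRel_cls Q ↔ NormRel_Le P Q ∧ NormRel_Le Q P := by
  rw [← NormRel_con_coe]
  exact AddCon.eq _

lemma NormRel_cls_append (P Q : List G) :
    NormRel_cls (P ++ Q) = NormRel_cls P + NormRel_cls Q := by
  unfold NormRel_cls
  rw [← Multiset.coe_add]
  rfl

lemma NormRel_cls_nil : NormRel_cls ([] : List G) = 0 := rfl

/-- the class of an element as a unit -/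
def NormRel_u (g : G) : AddUnits (NormRel_con G).Quotient where
  val := NormRel_cls [g]
  neg := NormRel_cls [g⁻¹]
  val_neg := by
    rw [← NormRel_cls_append, ← NormRel_cls_nil]
    exact NormRel_cls_eq.2 ⟨NormRel_Le_cancel g, NormRel_Le_cancel' g⟩
  neg_val := by
    rw [← NormRel_cls_append, ← NormRel_cls_nil]
    have h1 := NormRel_Le_cancel g⁻¹
    have h2 := NormRel_Le_cancel' g⁻¹
    rw [inv_inv] at h1 h2
    exact NormRel_cls_eq.2 ⟨h1, h2⟩

lemma NormRel_u_list (l : List G) :
    (((l.map NormRel_u).sum : AddUnits (NormRel_con G).Quotient) : (NormRel_con G).Quotient) =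
      NormRel_cls l := by
  induction l with
  | nil => rfl
  | cons a l ih =>
    rw [List.map_cons, List.sum_cons, AddUnits.val_add, ih]
    have := NormRel_cls_append [a] l
    rw [List.singleton_append] at this
    rw [this]
    rfl

lemma NormRel_u_conj (g h : G) : NormRel_u (h * g * h⁻¹) = NormRel_u g := by
  apply AddUnits.ext
  exact NormRel_cls_eq.2 ⟨NormRel_Le_conj' g h, NormRel_Le_conj g h⟩

lemma NormRel_u_inv (g : G) : NormRel_u g⁻¹ = - NormRel_u g := by
  apply AddUnits.ext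
  rfl

lemma NormRel_u_pow (g : G) (e : ℕ) : NormRel_u (g ^ e) = e • NormRel_u g := by
  have h : e • NormRel_u g = ((List.replicate e g).map NormRel_u).sum := by
    rw [List.map_replicate, List.sum_replicate]
  rw [h]
  apply AddUnits.ext
  rw [NormRel_u_list]
  exact NormRel_cls_eq.2 ⟨NormRel_Le_pow' g e, NormRel_Le_pow g e⟩

lemma NormRel_u_zpow (g : G) (e : ℤ) : NormRel_u (g ^ e) = e • NormRel_u g := by
  obtain ⟨n, rfl | rfl⟩ := e.eq_nat_or_neg
  · rw [zpow_natCast, NormRel_u_pow, natCast_zsmul]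
  · rw [zpow_neg, zpow_natCast, NormRel_u_inv, NormRel_u_pow, neg_zsmul, natCast_zsmul]

/-! ### scl -/

lemma NormRel_ab (l : List G) : l.prod ∈ commutator G ↔ (l.map Abelianization.of).prod = 1 := by
  rw [← map_list_prod, ← MonoidHom.mem_ker, Abelianization.ker_of]

lemma NormRel_ofFn_get_pow (l : List G) (n : ℕ) :
    List.ofFn (fun i => l.get i ^ n) = l.map (· ^ n) := by
  conv_rhs => rw [← List.ofFn_get l]
  rw [List.map_ofFn]
  rfl

lemma NormRel_clSum_spec (l : List G) (hl : l.prod ∈ commutator G) (n : ℕ) :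
    ∃ x, NormRel_PC (l.map (· ^ n)) x ∧ IsCommProd (clSum (fun i => l.get i ^ n)) x := by
  obtain ⟨h, hh⟩ := SclLimit_clSum_mem (fun i => l.get i ^ n)
  refine ⟨_, ?_, hh ▸ SclLimit_cl_mem (SclLimit_mem l.get (by rwa [List.ofFn_get]) n h)⟩
  rw [← NormRel_ofFn_get_pow, NormRel_PC_ofFn]
  exact ⟨h, rfl⟩

lemma NormRel_clSum_le (l : List G) (n k : ℕ) (x : G) (hx : NormRel_PC (l.map (· ^ n)) x)
    (hk : IsCommProd k x) : clSum (fun i => l.get i ^ n) ≤ k := by
  rw [← NormRel_ofFn_get_pow, NormRel_PC_ofFn] at hx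
  obtain ⟨h, rfl⟩ := hx
  exact (SclLimit_clSum_le _ h).trans (SclLimit_cl_le hk)

lemma NormRel_tendsto (l : List G) (hl : l.prod ∈ commutator G) :
    Tendsto (fun n : ℕ => (clSum (fun i => l.get i ^ n) : ℝ) / n) atTop (𝓝 (sclL l)) :=
  scl_tendsto l.get (by rwa [List.ofFn_get])

lemma NormRel_scl_mono {P Q : List G} (h : NormRel_Le P Q) (hP : P.prod ∈ commutator G)
    (hQ : Q.prod ∈ commutator G) : sclL P ≤ sclL Q := by
  obtain ⟨C, hC⟩ := h
  have h2 : Tendsto (fun n : ℕ => (C : ℝ) / n) atTop (𝓝 0) :=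
    tendsto_const_nhds.div_atTop tendsto_natCast_atTop_atTop
  have h3 := (NormRel_tendsto Q hQ).add h2
  rw [add_zero] at h3
  refine le_of_tendsto_of_tendsto' (NormRel_tendsto P hP) h3 fun n => ?_
  rw [← add_div]
  apply div_le_div_of_nonneg_right _ (Nat.cast_nonneg n)
  obtain ⟨y, hy, hyk⟩ := NormRel_clSum_spec Q hQ n
  obtain ⟨x, hx, hxy⟩ := hC n y hy
  have h4 := SclLimit_mul hxy hyk
  rw [inv_mul_cancel_right] at h4
  have h5 := NormRel_clSum_le P n _ x hx h4
  have h6 : (clSum (fun i => P.get i ^ n) : ℝ) ≤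
    ((C + clSum (fun i => Q.get i ^ n) : ℕ) : ℝ) := by exact_mod_cast h5
  push_cast at h6
  linarith

lemma NormRel_scl_append (P Q : List G) (hP : P.prod ∈ commutator G)
    (hQ : Q.prod ∈ commutator G) : sclL (P ++ Q) ≤ sclL P + sclL Q := by
  have hPQ : (P ++ Q).prod ∈ commutator G := by
    rw [List.prod_append]
    exact mul_mem hP hQ
  refine le_of_tendsto_of_tendsto' (NormRel_tendsto _ hPQ)
    ((NormRel_tendsto P hP).add (NormRel_tendsto Q hQ)) fun n => ?_
  rw [← add_div]
  apply div_le_div_of_nonneg_right _ (Nat.cast_nonneg n)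
  obtain ⟨x, hx, hxk⟩ := NormRel_clSum_spec P hP n
  obtain ⟨y, hy, hyk⟩ := NormRel_clSum_spec Q hQ n
  have h5 := NormRel_clSum_le (P ++ Q) n _ (x * y) (by
    rw [List.map_append, NormRel_PC_append_iff]
    exact ⟨x, y, hx, hy, rfl⟩) (SclLimit_mul hxk hyk)
  exact_mod_cast h5

lemma NormRel_scl_nonneg (P : List G) (hP : P.prod ∈ commutator G) : 0 ≤ sclL P := by
  refine ge_of_tendsto' (NormRel_tendsto P hP) fun n => ?_
  positivity

lemma NormRel_scl_nil : sclL ([] : List G) = 0 := by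
  have h0 : ([] : List G).prod ∈ commutator G := by simp
  refine le_antisymm ?_ (NormRel_scl_nonneg _ h0)
  refine le_of_tendsto' (NormRel_tendsto _ h0) fun n => ?_
  have := NormRel_clSum_le ([] : List G) n 0 1 (by simpa using (NormRel_PC.nil (G := G)))
    SclLimit_zero
  have h : clSum (fun i => ([] : List G).get i ^ n) = 0 := Nat.le_zero.1 this
  rw [h]
  simp

lemma NormRel_scl_pow (l : List G) (hl : l.prod ∈ commutator G) (D : ℕ) (hD : 0 < D) :
    sclL (l.map (· ^ D)) = D * sclL l := by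
  have hl' : (l.map (· ^ D)).prod ∈ commutator G := by
    rw [NormRel_ab] at hl ⊢
    rw [List.map_map]
    have : (Abelianization.of ∘ fun x : G => x ^ D) = (fun x => x ^ D) ∘ Abelianization.of := by
      funext x
      simp
    rw [this, ← List.map_map]
    have h2 : ∀ L : List (Abelianization G), (L.map (· ^ D)).prod = L.prod ^ D := by
      intro L
      induction L with
      | nil => simp
      | cons a L ih => simp [ih, mul_pow]
    rw [h2, hl, one_pow]
  have h1 := NormRel_tendsto _ hl'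
  have h2 := (NormRel_tendsto l hl).comp (tendsto_id.const_mul_atTop' hD)
  have h3 := h2.const_mul (D : ℝ)
  refine tendsto_nhds_unique_of_eventuallyEq h1 h3 ?_
  filter_upwards [eventually_gt_atTop 0] with n hn
  have e : clSum (fun i => (l.map (· ^ D)).get i ^ n) = clSum (fun i => l.get i ^ (D * n)) := by
    apply le_antisymm
    · obtain ⟨x, hx, hxk⟩ := NormRel_clSum_spec l hl (D * n)
      refine NormRel_clSum_le _ n _ x ?_ hxk
      rw [List.map_map]
      convert hx using 2
      funext y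
      simp [pow_mul]
    · obtain ⟨x, hx, hxk⟩ := NormRel_clSum_spec _ hl' n
      refine NormRel_clSum_le _ (D * n) _ x ?_ hxk
      rw [List.map_map] at hx
      convert hx using 2
      funext y
      simp [pow_mul]
  simp only [Function.comp_apply, id_eq]
  rw [e]
  have hD' : (D : ℝ) ≠ 0 := by exact_mod_cast hD.ne'
  have hn' : (n : ℝ) ≠ 0 := by exact_mod_cast hn.ne'
  push_cast
  field_simp

/-- the product of the images in the abelianization is trivial -/
def NormRel_p (P : Multiset G) : Prop := (P.map Abelianization.of).prod = 1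

/-- scl of a multiset -/
noncomputable def NormRel_S (P : Multiset G) : ℝ := sclL P.toList

lemma NormRel_p_toList (P : Multiset G) : NormRel_p P ↔ P.toList.prod ∈ commutator G := by
  rw [NormRel_ab, NormRel_p]
  conv_lhs => rw [← Multiset.coe_toList P]
  rw [Multiset.map_coe, Multiset.prod_coe]

lemma NormRel_p_coe (l : List G) : NormRel_p (l : Multiset G) ↔ l.prod ∈ commutator G := by
  rw [NormRel_ab, NormRel_p, Multiset.map_coe, Multiset.prod_coe]

lemma NormRel_S_mono {P Q : Multiset G} (h : NormRel_con G P Q) (hP : NormRel_p P)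
    (hQ : NormRel_p Q) : NormRel_S P ≤ NormRel_S Q :=
  NormRel_scl_mono h.1 ((NormRel_p_toList P).1 hP) ((NormRel_p_toList Q).1 hQ)

lemma NormRel_S_coe (l : List G) (hl : l.prod ∈ commutator G) :
    NormRel_S (l : Multiset G) = sclL l := by
  have hp := (NormRel_p_toList _).1 ((NormRel_p_coe l).2 hl)
  have key : ((l : Multiset G).toList).Perm l := by
    rw [← Multiset.coe_eq_coe, Multiset.coe_toList]
  exact le_antisymm (NormRel_scl_mono (NormRel_Le_perm key) hp hl)
    (NormRel_scl_mono (NormRel_Le_perm key.symm) hl hp)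

lemma NormRel_p_zero : NormRel_p (0 : Multiset G) := by simp [NormRel_p]

lemma NormRel_p_add (P Q : Multiset G) (hP : NormRel_p P) (hQ : NormRel_p Q) :
    NormRel_p (P + Q) := by
  unfold NormRel_p at *
  rw [Multiset.map_add, Multiset.prod_add, hP, hQ, one_mul]

lemma NormRel_S_zero : NormRel_S (0 : Multiset G) = 0 := by
  have := NormRel_S_coe ([] : List G) (by simp)
  rw [NormRel_scl_nil] at this
  exact this

lemma NormRel_S_add (P Q : Multiset G) (hP : NormRel_p P) (hQ : NormRel_p Q) :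
    NormRel_S (P + Q) ≤ NormRel_S P + NormRel_S Q := by
  have hP' := (NormRel_p_toList _).1 hP
  have hQ' := (NormRel_p_toList _).1 hQ
  have h := NormRel_scl_append P.toList Q.toList hP' hQ'
  have hPQ : (P.toList ++ Q.toList).prod ∈ commutator G := by
    rw [List.prod_append]
    exact mul_mem hP' hQ'
  rw [← NormRel_S_coe _ hPQ, ← Multiset.coe_add, Multiset.coe_toList, Multiset.coe_toList] at h
  exact h

lemma NormRel_S_nsmul (P : Multiset G) (hP : NormRel_p P) (n : ℕ) :
    NormRel_p (n • P) ∧ NormRel_S (n • P) ≤ n * NormRel_S P := by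
  induction n with
  | zero => simp [NormRel_p_zero, NormRel_S_zero]
  | succ n ih =>
    rw [succ_nsmul]
    refine ⟨NormRel_p_add _ _ ih.1 hP, (NormRel_S_add _ _ ih.1 hP).trans ?_⟩
    push_cast
    linarith [ih.2]

end NormRel

/-- if, in the integral group ring, `D` times the formal sum `l` is equal to a nonnegative
combination of the formal sums `L j` modulo `H`, then `D * scl l ≤ ∑ n j * scl (L j)` -/
theorem scl_le_of_relation {G : Type*} [Group G] (l : List G) (hl : l.prod ∈ commutator G)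
    {k : ℕ} (L : Fin k → List G) (hL : ∀ j, (L j).prod ∈ commutator G) (D : ℕ) (n : Fin k → ℕ)
    {p q : ℕ} (g : Fin p → G) (e : Fin p → ℤ) (c : Fin p → ℤ)
    (g' h' : Fin q → G) (c' : Fin q → ℤ)
    (hrel : D • (l.map fun x => (Finsupp.single x (1 : ℤ) : G →₀ ℤ)).sum =
      ∑ j, n j • ((L j).map fun x => (Finsupp.single x (1 : ℤ) : G →₀ ℤ)).sum +
      ∑ i, c i • (Finsupp.single (g i ^ e i) (1 : ℤ) - e i • Finsupp.single (g i) (1 : ℤ)) +
      ∑ i, c' i • (Finsupp.single (g' i) (1 : ℤ) -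
        Finsupp.single (h' i * g' i * (h' i)⁻¹) (1 : ℤ))) :
    (D : ℝ) * sclL l ≤ ∑ j, (n j : ℝ) * sclL (L j) := by
  rcases Nat.eq_zero_or_pos D with hD | hD
  · subst hD
    rw [Nat.cast_zero, zero_mul]
    exact Finset.sum_nonneg fun j _ => mul_nonneg (Nat.cast_nonneg _)
      (NormRel_scl_nonneg _ (hL j))
  -- the homomorphism to the units of the quotient
  let φ : (G →₀ ℤ) →+ AddUnits (NormRel_con G).Quotient :=
    Finsupp.liftAddHom (M := ℤ) (N := AddUnits (NormRel_con G).Quotient)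
      fun x => (zmultiplesHom _ (NormRel_u x))
  have hφ : ∀ x : G, φ (Finsupp.single x 1) = NormRel_u x := by
    intro x
    simp [φ]
  have hφl : ∀ P : List G, φ ((P.map fun x => (Finsupp.single x (1 : ℤ) : G →₀ ℤ)).sum) =
      (P.map NormRel_u).sum := by
    intro P
    rw [map_list_sum, List.map_map]
    congr 1
    apply List.map_congr_left
    intro x _
    exact hφ x
  have h1 := congrArg φ hrel
  have e1 : φ (∑ i, c i • (Finsupp.single (g i ^ e i) (1 : ℤ)
      - e i • Finsupp.single (g i) (1 : ℤ))) = 0 := by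
    rw [map_sum]
    apply Finset.sum_eq_zero
    intro i _
    rw [map_zsmul, map_sub, map_zsmul, hφ, hφ, NormRel_u_zpow, sub_self, smul_zero]
  have e2 : φ (∑ i, c' i • (Finsupp.single (g' i) (1 : ℤ) -
        Finsupp.single (h' i * g' i * (h' i)⁻¹) (1 : ℤ))) = 0 := by
    rw [map_sum]
    apply Finset.sum_eq_zero
    intro i _
    rw [map_zsmul, map_sub, hφ, hφ, NormRel_u_conj, sub_self, smul_zero]
  rw [map_add, map_add, e1, e2, add_zero, add_zero, map_nsmul, hφl, map_sum] at h1
  have h2 : ∀ l : List G, D • (l.map NormRel_u).sum = ((l.map (· ^ D)).map NormRel_u).sum := by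
    intro l
    induction l with
    | nil => simp
    | cons a l ih =>
      have h0 : D • (NormRel_u a + (l.map NormRel_u).sum) =
        D • NormRel_u a + D • (l.map NormRel_u).sum :=
          @nsmul_add (AddUnits (NormRel_con G).Quotient) _ _ _ _
      rw [List.map_cons, List.sum_cons, h0, ih, List.map_cons, List.map_cons,
        List.sum_cons, NormRel_u_pow]
  have hlD : (l.map (· ^ D)).prod ∈ commutator G := by
    rw [NormRel_ab] at hl ⊢
    rw [List.map_map]
    have : (Abelianization.of ∘ fun x : G => x ^ D) = (fun x => x ^ D) ∘ Abelianization.of := by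
      funext x
      simp
    rw [this, ← List.map_map]
    have h2 : ∀ L : List (Abelianization G), (L.map (· ^ D)).prod = L.prod ^ D := by
      intro L
      induction L with
      | nil => simp
      | cons a L ih => simp [ih, mul_pow]
    rw [h2, hl, one_pow]
  rw [h2] at h1
  have h3 := congrArg (AddUnits.coeHom (NormRel_con G).Quotient) h1
  rw [map_sum] at h3
  simp only [map_nsmul, AddUnits.coeHom_apply, NormRel_u_list, hφl] at h3
  -- the big multiset
  let Q : Multiset G := ∑ j, n j • ((L j : List G) : Multiset G)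
  have hQ : ((Q : (NormRel_con G).Quotient)) = ∑ j, n j • NormRel_cls (L j) := by
    have := map_sum (NormRel_con G).mk' (fun j => n j • ((L j : List G) : Multiset G)) Finset.univ
    simp only [map_nsmul] at this
    exact this
  have h4 : NormRel_con G ((l.map (· ^ D) : List G) : Multiset G) Q := by
    rw [← AddCon.eq, hQ, ← h3]
    rfl
  have hp : ∀ j, NormRel_p ((L j : List G) : Multiset G) := fun j => (NormRel_p_coe _).2 (hL j)
  have hQp : NormRel_p Q := by
    refine Finset.sum_induction _ NormRel_p NormRel_p_add NormRel_p_zero fun j _ => ?_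
    exact (NormRel_S_nsmul _ (hp j) _).1
  have h5 := NormRel_S_mono h4 ((NormRel_p_coe _).2 hlD) hQp
  rw [NormRel_S_coe _ hlD, NormRel_scl_pow l hl D hD] at h5
  refine h5.trans ?_
  have h6 : NormRel_S Q ≤ ∑ j, NormRel_S (n j • ((L j : List G) : Multiset G)) :=
    Finset.le_sum_of_subadditive_on_pred NormRel_S NormRel_p NormRel_S_zero.le NormRel_S_add
      NormRel_p_add _ fun j _ => (NormRel_S_nsmul _ (hp j) _).1
  refine h6.trans (Finset.sum_le_sum fun j _ => ?_)
  rw [← NormRel_S_coe _ (hL j)]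
  exact (NormRel_S_nsmul _ (hp j) _).2

end SclIso
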