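import Pool.Agent.H.MP_1b0e60_al.NormDefs

/-!
Basic facts about `B1`, `HSub`; uniqueness of the pseudo-norm `scl`.
-/

open Equiv Filter Topology

namespace SclIso

section NormUniqBasic

variable {G : Type*} [Group G]

/-- the class of `g` modulo the boundaries -/
noncomputable def NormUniq_cls (g : G) : (G →₀ ℝ) ⧸ B1 G :=
  Submodule.Quotient.mk (Finsupp.single g 1)

theorem NormUniq_mul (g h : G) :
    NormUniq_cls (g * h) = NormUniq_cls g + NormUniq_cls h := by
  unfold NormUniq_cls
  rw [← Submodule.Quotient.mk_add, eq_comm, Submodule.Quotient.eq]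
  apply Submodule.subset_span
  refine ⟨g, h, ?_⟩
  abel

/-- the class as a homomorphism -/
noncomputable def NormUniq_hom : G →* Multiplicative ((G →₀ ℝ) ⧸ B1 G) :=
  MonoidHom.mk' (fun g => Multiplicative.ofAdd (NormUniq_cls g)) fun g h => by
    rw [NormUniq_mul]; rfl

theorem NormUniq_zpow (g : G) (n : ℤ) : NormUniq_cls (g ^ n) = n • NormUniq_cls g := by
  have h := map_zpow (NormUniq_hom (G := G)) g n
  exact h

theorem NormUniq_inv (g : G) : NormUniq_cls g⁻¹ = - NormUniq_cls g := by
  have h := map_inv (NormUniq_hom (G := G)) g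
  exact h

theorem NormUniq_comm {g : G} (hg : g ∈ commutator G) : NormUniq_cls g = 0 := by
  have h := Abelianization.commutator_subset_ker (NormUniq_hom (G := G)) hg
  rw [MonoidHom.mem_ker] at h
  exact h

theorem NormUniq_list (l : List G) :
    NormUniq_cls l.prod = (l.map NormUniq_cls).sum := by
  induction l with
  | nil => exact NormUniq_comm (one_mem _)
  | cons a l ih => rw [List.prod_cons, NormUniq_mul, ih, List.map_cons, List.sum_cons]

end NormUniqBasic

theorem hSub_le_B1 (G : Type*) [Group G] : HSub G ≤ B1 G := by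
  unfold HSub
  rw [Submodule.span_le]
  rintro x (⟨g, n, rfl⟩ | ⟨g, h, rfl⟩)
  · change _ ∈ B1 G
    rw [← Submodule.Quotient.mk_eq_zero, Submodule.Quotient.mk_sub, Submodule.Quotient.mk_smul]
    change NormUniq_cls (g ^ n) - (n : ℝ) • NormUniq_cls g = 0
    rw [NormUniq_zpow, Int.cast_smul_eq_zsmul, sub_self]
  · change _ ∈ B1 G
    rw [← Submodule.Quotient.mk_eq_zero, Submodule.Quotient.mk_sub]
    change NormUniq_cls g - NormUniq_cls (h * g * h⁻¹) = 0
    rw [NormUniq_mul, NormUniq_mul, NormUniq_inv]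
    abel

theorem fsum_mem_B1 {G : Type*} [Group G] {m : ℕ} (g : Fin m → G)
    (hg : (List.ofFn g).prod ∈ commutator G) : fsum g ∈ B1 G := by
  have h := NormUniq_comm hg
  rw [NormUniq_list, List.map_ofFn, List.sum_ofFn] at h
  rw [← Submodule.Quotient.mk_eq_zero]
  unfold fsum
  rw [← Submodule.mkQ_apply, map_sum]
  exact h

theorem mapDomain_mem_B1 {G K : Type*} [Group G] [Group K] (φ : G →* K) (x : G →₀ ℝ)
    (hx : x ∈ B1 G) : x.mapDomain φ ∈ B1 K := by
  have h : B1 G ≤ (B1 K).comap (Finsupp.lmapDomain ℝ ℝ φ) := by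
    unfold B1
    rw [Submodule.span_le]
    rintro x ⟨g, h, rfl⟩
    apply Submodule.subset_span
    refine ⟨φ g, φ h, ?_⟩
    simp only [map_add, map_sub, Finsupp.lmapDomain_apply, Finsupp.mapDomain_single, map_mul]
  exact h hx

theorem mapDomain_mem_HSub {G K : Type*} [Group G] [Group K] (φ : G →* K) (x : G →₀ ℝ)
    (hx : x ∈ HSub G) : x.mapDomain φ ∈ HSub K := by
  have h : HSub G ≤ (HSub K).comap (Finsupp.lmapDomain ℝ ℝ φ) := by
    unfold HSub
    rw [Submodule.span_le]
    rintro x (⟨g, n, rfl⟩ | ⟨g, h, rfl⟩)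
    · apply Submodule.subset_span
      refine Or.inl ⟨φ g, n, ?_⟩
      simp only [map_sub, map_smul, Finsupp.lmapDomain_apply, Finsupp.mapDomain_single, map_zpow]
    · apply Submodule.subset_span
      refine Or.inr ⟨φ g, φ h, ?_⟩
      simp only [map_sub, Finsupp.lmapDomain_apply, Finsupp.mapDomain_single, map_mul, map_inv]
  exact h hx

section NormUniqP

variable {G : Type*} [Group G]

/-- the chain of a list -/
noncomputable def NormUniq_lsum (l : List G) : G →₀ ℝ :=
  (l.map fun x => (Finsupp.single x (1 : ℝ) : G →₀ ℝ)).sum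

/-- chains which are formal sums modulo `HSub` -/
noncomputable def NormUniq_P (G : Type*) [Group G] : AddSubmonoid (G →₀ ℝ) where
  carrier := {x | ∃ l : List G, l.prod = 1 ∧ x - NormUniq_lsum l ∈ HSub G}
  zero_mem' := ⟨[], rfl, by simp [NormUniq_lsum]⟩
  add_mem' := by
    rintro x y ⟨l, hl, hx⟩ ⟨l', hl', hy⟩
    refine ⟨l ++ l', by rw [List.prod_append, hl, hl', mul_one], ?_⟩
    have h : x + y - NormUniq_lsum (l ++ l') =
        (x - NormUniq_lsum l) + (y - NormUniq_lsum l') := by
      unfold NormUniq_lsum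
      rw [List.map_append, List.sum_append]
      abel
    rw [h]
    exact (HSub G).add_mem hx hy

theorem NormUniq_inv_mem (g : G) :
    (Finsupp.single g⁻¹ 1 + Finsupp.single g 1 : G →₀ ℝ) ∈ HSub G := by
  apply Submodule.subset_span
  refine Or.inl ⟨g, -1, ?_⟩
  rw [zpow_neg_one]
  push_cast
  rw [neg_smul, one_smul, sub_neg_eq_add]

theorem NormUniq_gen (g h : G) :
    (Finsupp.single h 1 - Finsupp.single (g * h) 1 + Finsupp.single g 1 : G →₀ ℝ)
      ∈ NormUniq_P G := by
  refine ⟨[g, h, (g * h)⁻¹], by simp, ?_⟩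
  have h1 : (Finsupp.single h 1 - Finsupp.single (g * h) 1 + Finsupp.single g 1 : G →₀ ℝ) -
      NormUniq_lsum [g, h, (g * h)⁻¹] =
      -(Finsupp.single (g * h)⁻¹ 1 + Finsupp.single (g * h) 1 : G →₀ ℝ) := by
    simp only [NormUniq_lsum, List.map_cons, List.map_nil, List.sum_cons, List.sum_nil]
    abel
  rw [h1]
  exact (HSub G).neg_mem (NormUniq_inv_mem _)

theorem NormUniq_gen_neg (g h : G) :
    (-(Finsupp.single h 1 - Finsupp.single (g * h) 1 + Finsupp.single g 1) : G →₀ ℝ)
      ∈ NormUniq_P G := by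
  refine ⟨[g * h, h⁻¹, g⁻¹], by simp, ?_⟩
  have h1 : (-(Finsupp.single h 1 - Finsupp.single (g * h) 1 + Finsupp.single g 1) : G →₀ ℝ) -
      NormUniq_lsum [g * h, h⁻¹, g⁻¹] =
      -((Finsupp.single h⁻¹ 1 + Finsupp.single h 1) +
        (Finsupp.single g⁻¹ 1 + Finsupp.single g 1) : G →₀ ℝ) := by
    simp only [NormUniq_lsum, List.map_cons, List.map_nil, List.sum_cons, List.sum_nil]
    abel
  rw [h1]
  exact (HSub G).neg_mem ((HSub G).add_mem (NormUniq_inv_mem _) (NormUniq_inv_mem _))

theorem NormUniq_nat {x : G →₀ ℝ} (hx : x ∈ NormUniq_P G) (n : ℕ) :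
    (n : ℝ) • x ∈ NormUniq_P G := by
  rw [Nat.cast_smul_eq_nsmul]
  exact nsmul_mem hx n

theorem NormUniq_eq_of_sub {E : Type*} [AddCommGroup E] [Module ℝ E] (N : Seminorm ℝ E)
    {x y : E} (h : N (x - y) = 0) : N x = N y := by
  have h1 := abs_sub_map_le_sub N x y
  rw [h] at h1
  have h2 := abs_nonpos_iff.1 h1
  linarith

theorem NormUniq_cont {E : Type*} [AddCommGroup E] [Module ℝ E] (N : Seminorm ℝ E)
    (a v : E) : Continuous fun c : ℝ => N (a + c • v) := by
  have h : LipschitzWith ⟨N v, apply_nonneg N v⟩ fun c : ℝ => N (a + c • v) := by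
    apply LipschitzWith.of_dist_le_mul
    intro c c'
    rw [Real.dist_eq, Real.dist_eq]
    have h1 := abs_sub_map_le_sub N (a + c • v) (a + c' • v)
    have h2 : a + c • v - (a + c' • v) = (c - c') • v := by
      rw [sub_smul]; abel
    rw [h2, map_smul_eq_mul, Real.norm_eq_abs] at h1
    rw [mul_comm]
    exact h1
  exact h.continuous

end NormUniqP

/-- two pseudo-norms which vanish on `H` and agree on the formal sums are equal -/
theorem norm_unique {G : Type*} [Group G] (N N' : Seminorm ℝ (B1 G))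
    (h : ∀ x : B1 G, (x : G →₀ ℝ) ∈ HSub G → N x = 0)
    (h' : ∀ x : B1 G, (x : G →₀ ℝ) ∈ HSub G → N' x = 0)
    (hs : ∀ (m : ℕ) (g : Fin m → G), (List.ofFn g).prod ∈ commutator G →
      ∀ x : B1 G, (x : G →₀ ℝ) = fsum g → N x = N' x) : N = N' := by
  -- formal sums
  have hP : ∀ x : B1 G, (x : G →₀ ℝ) ∈ NormUniq_P G → N x = N' x := by
    rintro x ⟨l, hl, hx⟩
    have h1 : NormUniq_lsum l ∈ B1 G := by
      have h2 := (B1 G).sub_mem x.2 (hSub_le_B1 G hx)
      rwa [sub_sub_cancel] at h2
    have h3 : NormUniq_lsum l = fsum l.get := by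
      unfold NormUniq_lsum fsum
      conv_lhs => rw [← List.ofFn_get l]
      rw [List.map_ofFn, List.sum_ofFn]
      rfl
    have h4 : N ⟨_, h1⟩ = N' ⟨_, h1⟩ := by
      refine hs _ l.get ?_ ⟨_, h1⟩ h3
      rw [List.ofFn_get, hl]
      exact one_mem _
    have h5 : N x = N ⟨_, h1⟩ := NormUniq_eq_of_sub N (h _ hx)
    have h6 : N' x = N' ⟨_, h1⟩ := NormUniq_eq_of_sub N' (h' _ hx)
    rw [h5, h6, h4]
  -- rational multiples
  have hQ : ∀ x : B1 G, ∀ D : ℕ, 0 < D → (D : ℝ) • (x : G →₀ ℝ) ∈ NormUniq_P G →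
      N x = N' x := by
    intro x D hD hx
    have h1 := hP ((D : ℝ) • x) (by rw [Submodule.coe_smul]; exact hx)
    rw [map_smul_eq_mul, map_smul_eq_mul] at h1
    have h2 : ‖(D : ℝ)‖ ≠ 0 := by
      rw [norm_ne_zero_iff]
      exact_mod_cast hD.ne'
    exact mul_left_cancel₀ h2 h1
  let QP : Set (B1 G) := {y | ∃ D : ℕ, 0 < D ∧ (D : ℝ) • (y : G →₀ ℝ) ∈ NormUniq_P G}
  let E : B1 G → Prop := fun w => ∀ y ∈ QP, N (w + y) = N' (w + y)
  -- one generator with a real coefficient
  have hstep : ∀ (v : B1 G), (∃ g k : G, (v : G →₀ ℝ) =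
      Finsupp.single k 1 - Finsupp.single (g * k) 1 + Finsupp.single g 1) →
      ∀ (c : ℝ) (w : B1 G), E w → E (w + c • v) := by
    rintro v ⟨g, k, hv⟩ c w hw y ⟨D, hD, hy⟩
    have h1 : (fun c : ℝ => N (w + y + c • v)) = fun c : ℝ => N' (w + y + c • v) := by
      refine Rat.denseRange_cast.equalizer (NormUniq_cont N _ _) (NormUniq_cont N' _ _) ?_
      funext r
      change N (w + y + (r : ℝ) • v) = N' (w + y + (r : ℝ) • v)
      rw [add_assoc]
      apply hw
      refine ⟨D * r.den, Nat.mul_pos hD r.pos, ?_⟩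
      rw [Submodule.coe_add, Submodule.coe_smul, smul_add]
      apply add_mem
      · rw [Nat.cast_mul, mul_comm, mul_smul]
        exact NormUniq_nat hy _
      · rw [smul_smul]
        have h2 : ((D * r.den : ℕ) : ℝ) * (r : ℝ) = (D : ℝ) * (r.num : ℝ) := by
          have h3 : ((r.den : ℝ)) * (r : ℝ) = (r.num : ℝ) := by
            have := Rat.den_mul_eq_num r
            exact_mod_cast this
          rw [Nat.cast_mul, mul_assoc, h3]
        rw [h2, mul_smul]
        apply NormUniq_nat
        rcases Int.le_total 0 r.num with h0 | h0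
        · obtain ⟨m, hm⟩ := Int.eq_ofNat_of_zero_le h0
          rw [hm, hv]
          have := NormUniq_nat (NormUniq_gen g k) m
          exact_mod_cast this
        · obtain ⟨m, hm⟩ := Int.eq_ofNat_of_zero_le (Int.neg_nonneg_of_nonpos h0)
          have h4 : (r.num : ℝ) = -(m : ℝ) := by
            have : r.num = -(m : ℤ) := by omega
            rw [this]
            push_cast
            rfl
          rw [h4, hv, neg_smul, ← smul_neg]
          exact NormUniq_nat (NormUniq_gen_neg g k) m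
    have h5 := congrFun h1 c
    change N (w + y + c • v) = N' (w + y + c • v) at h5
    rw [add_right_comm]
    exact h5
  have hE0 : E 0 := by
    rintro y ⟨D, hD, hy⟩
    rw [zero_add]
    exact hQ y D hD hy
  have hall : ∀ x ∈ B1 G, ∀ hx : x ∈ B1 G, ∀ w, E w → E (w + ⟨x, hx⟩) := by
    intro x hx0
    have hx1 := hx0
    rw [B1, Submodule.mem_span_set] at hx1
    obtain ⟨c, hc, hsum⟩ := hx1
    have hgen : ∀ v ∈ c.support, v ∈ B1 G := fun v hv => Submodule.subset_span (hc hv)
    have key : ∀ s : Finset (G →₀ ℝ), s ⊆ c.support → ∀ hx : ∑ v ∈ s, c v • v ∈ B1 G, ∀ w, E w →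
        E (w + ⟨∑ v ∈ s, c v • v, hx⟩) := by
      classical
      intro s
      induction s using Finset.induction_on with
      | empty =>
        intro _ hx w hw
        have : (⟨∑ v ∈ (∅ : Finset (G →₀ ℝ)), c v • v, hx⟩ : B1 G) = 0 := by
          apply Subtype.ext
          simp
        rw [this, add_zero]
        exact hw
      | insert a s ha ih =>
        intro hsub hx w hw
        have ha' : a ∈ B1 G := hgen a (hsub (Finset.mem_insert_self a s))
        have hs' : ∑ v ∈ s, c v • v ∈ B1 G := (B1 G).sum_mem fun v hv =>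
          (B1 G).smul_mem _ (hgen v (hsub (Finset.mem_insert_of_mem hv)))
        have h1 : (⟨∑ v ∈ insert a s, c v • v, hx⟩ : B1 G) =
            c a • ⟨a, ha'⟩ + ⟨∑ v ∈ s, c v • v, hs'⟩ := by
          apply Subtype.ext
          rw [Submodule.coe_add, Submodule.coe_smul]
          exact Finset.sum_insert ha
        rw [h1, ← add_assoc]
        refine ih (fun v hv => hsub (Finset.mem_insert_of_mem hv)) hs' _ ?_
        exact hstep ⟨a, ha'⟩ (hc (hsub (Finset.mem_insert_self a s))) (c a) w hw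
    subst hsum
    intro hx w hw
    exact key c.support (Finset.Subset.refl _) hx w hw
  ext x
  have h1 := hall x x.2 x.2 0 hE0 0 ⟨1, one_pos, by simp⟩
  simpa using h1

end SclIso
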