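import Pool.Agent.H.MP_1b0e60_al.Defs

/-!
Rational approximation respecting rational linear relations.
-/

open Equiv Filter Topology

namespace SclIso

theorem exists_rat_linear {ι : Type*} [Finite ι] (c : ι → ℝ) (ε : ℝ) (hε : 0 < ε) :
    ∃ f : ℝ →ₗ[ℚ] ℚ, f 1 = 1 ∧ ∀ i, |(f (c i) : ℝ) - c i| < ε := by
  classical
  have := Fintype.ofFinite ι
  have hli : LinearIndepOn ℚ id ({1} : Set ℝ) := LinearIndepOn.singleton (by simp)
  let B := Module.Basis.extend hli
  have h1 : (1 : ℝ) ∈ hli.extend (Set.subset_univ _) :=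
    hli.subset_extend (Set.subset_univ _) (by simp)
  let i0 : ↥(hli.extend (Set.subset_univ _)) := ⟨1, h1⟩
  have hB0 : B i0 = 1 := by
    simp [B, i0, Module.Basis.extend_apply_self]
  -- the finite set of relevant indices
  let M : ℝ := 1 + ∑ i, ∑ e ∈ (B.repr (c i)).support, |((B.repr (c i) e : ℚ) : ℝ)|
  have hM : 0 < M := by
    have : 0 ≤ ∑ i, ∑ e ∈ (B.repr (c i)).support, |((B.repr (c i) e : ℚ) : ℝ)| :=
      Finset.sum_nonneg fun i _ => Finset.sum_nonneg fun e _ => abs_nonneg _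
    simp only [M]; linarith
  have hδ : 0 < ε / M := div_pos hε hM
  have hex : ∀ e, ∃ r : ℚ, |(r : ℝ) - B e| < ε / M := by
    intro e
    obtain ⟨q, hq⟩ := exists_rat_near (B e) hδ
    exact ⟨q, by rw [abs_sub_comm]; exact hq⟩
  choose r0 hr0 using hex
  let r : ↥(hli.extend (Set.subset_univ _)) → ℚ := fun e => if e = i0 then 1 else r0 e
  have hr : ∀ e, |((r e : ℚ) : ℝ) - B e| < ε / M := by
    intro e
    by_cases he : e = i0
    · subst he
      simp [r, hB0, hδ]
    · simp only [r, if_neg he]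
      exact hr0 e
  refine ⟨B.constr ℚ r, ?_, ?_⟩
  · have : B.constr ℚ r (B i0) = r i0 := B.constr_basis ℚ r i0
    rw [hB0] at this
    rw [this]
    simp [r]
  · intro i
    have e1 : ((B.constr ℚ r (c i) : ℚ) : ℝ) =
        ∑ e ∈ (B.repr (c i)).support, ((B.repr (c i) e : ℚ) : ℝ) * ((r e : ℚ) : ℝ) := by
      rw [Module.Basis.constr_apply, Finsupp.sum]
      push_cast [smul_eq_mul]
      rfl
    have e2 : c i = ∑ e ∈ (B.repr (c i)).support, ((B.repr (c i) e : ℚ) : ℝ) * B e := by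
      conv_lhs => rw [← B.linearCombination_repr (c i)]
      rw [Finsupp.linearCombination_apply, Finsupp.sum]
      refine Finset.sum_congr rfl fun e _ => ?_
      rw [Rat.smul_def]
    have e3 : ((B.constr ℚ r (c i) : ℚ) : ℝ) - c i =
        ∑ e ∈ (B.repr (c i)).support, ((B.repr (c i) e : ℚ) : ℝ) * (((r e : ℚ) : ℝ) - B e) := by
      calc ((B.constr ℚ r (c i) : ℚ) : ℝ) - c i
          = ∑ e ∈ (B.repr (c i)).support, ((B.repr (c i) e : ℚ) : ℝ) * ((r e : ℚ) : ℝ) -
            ∑ e ∈ (B.repr (c i)).support, ((B.repr (c i) e : ℚ) : ℝ) * B e := by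
            rw [e1, ← e2]
        _ = _ := by
            rw [← Finset.sum_sub_distrib]
            exact Finset.sum_congr rfl fun e _ => by ring
    rw [e3]
    set S := ∑ e ∈ (B.repr (c i)).support, |((B.repr (c i) e : ℚ) : ℝ)| with hS
    have hSM : S < M := by
      have : S ≤ ∑ i, ∑ e ∈ (B.repr (c i)).support, |((B.repr (c i) e : ℚ) : ℝ)| :=
        Finset.single_le_sum
          (f := fun i => ∑ e ∈ (B.repr (c i)).support, |((B.repr (c i) e : ℚ) : ℝ)|)
          (fun i _ => Finset.sum_nonneg fun e _ => abs_nonneg _) (Finset.mem_univ i)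
      simp only [M]; linarith
    calc |∑ e ∈ (B.repr (c i)).support, ((B.repr (c i) e : ℚ) : ℝ) * (((r e : ℚ) : ℝ) - B e)|
        ≤ ∑ e ∈ (B.repr (c i)).support,
            |((B.repr (c i) e : ℚ) : ℝ) * (((r e : ℚ) : ℝ) - B e)| :=
          Finset.abs_sum_le_sum_abs _ _
      _ ≤ ∑ e ∈ (B.repr (c i)).support, |((B.repr (c i) e : ℚ) : ℝ)| * (ε / M) := by
          refine Finset.sum_le_sum fun e _ => ?_
          rw [abs_mul]
          exact mul_le_mul_of_nonneg_left (hr e).le (abs_nonneg _)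
      _ = S * (ε / M) := by rw [← Finset.sum_mul]
      _ < M * (ε / M) := mul_lt_mul_of_pos_right hSM hδ
      _ = ε := by field_simp

end SclIso
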