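import Pool.Agent.H.MP_1b0e60_al.NormDefs
import Pool.Agent.H.MP_1b0e60_al.NormUniq
import Pool.Agent.H.MP_1b0e60_al.NormRel
import Pool.Agent.H.MP_1b0e60_al.RatApprox

/-!
Existence of the pseudo-norm `scl` on the `1`-boundaries of a group.
-/

open Equiv Filter Topology

namespace SclIso

section Norm

variable {G : Type*} [Group G]

/-! ### lists and functions on `Fin m` -/

lemma Norm_scl_cast {m : ℕ} (l : List G) (h : l.length = m) :
    scl l.get = scl (fun i : Fin m => l.get (Fin.cast h.symm i)) := by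
  subst h
  rfl

lemma Norm_sclL_ofFn {m : ℕ} (g : Fin m → G) : sclL (List.ofFn g) = scl g := by
  unfold sclL
  rw [Norm_scl_cast (List.ofFn g) (List.length_ofFn (f := g))]
  congr 1
  funext i
  simp

lemma Norm_sclL_nonneg (l : List G) (hl : l.prod ∈ commutator G) : 0 ≤ sclL l := by
  unfold sclL
  have h := scl_tendsto l.get (by rwa [List.ofFn_get])
  exact ge_of_tendsto' h fun n => by positivity

lemma Norm_rev (l : List G) (y : List G) (hy : y.length = l.length) :
    ∃ z : List G, z.length = l.length ∧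
      ((List.zipWith (fun a b => b⁻¹ * a * b) l y).reverse).prod =
        (List.zipWith (fun a b => b⁻¹ * a * b) l z).prod := by
  induction l generalizing y with
  | nil => exact ⟨[], rfl, by simp⟩
  | cons a l ih =>
    cases y with
    | nil => simp at hy
    | cons b y =>
      obtain ⟨z, hz, hz'⟩ := ih y (by simpa using hy)
      refine ⟨b :: z.map (fun c => c * (b⁻¹ * a * b)), by simp [hz], ?_⟩
      simp only [List.zipWith_cons_cons, List.reverse_cons, List.prod_append, List.prod_cons,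
        List.prod_nil, mul_one]
      rw [hz']
      have key : ∀ (l z : List G) (u : G),
          (List.zipWith (fun a b => b⁻¹ * a * b) l (z.map (fun c => c * u))).prod =
            u⁻¹ * (List.zipWith (fun a b => b⁻¹ * a * b) l z).prod * u := by
        intro l
        induction l with
        | nil => intro z u; simp
        | cons a l ih =>
          intro z u
          cases z with
          | nil => simp
          | cons b z =>
            simp only [List.map_cons, List.zipWith_cons_cons, List.prod_cons]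
            rw [ih]
            group
      rw [key]
      group

lemma Norm_zip {m : ℕ} (g h : Fin m → G) :
    (List.ofFn fun i => (h i)⁻¹ * g i * h i) =
      List.zipWith (fun a b => b⁻¹ * a * b) (List.ofFn g) (List.ofFn h) := by
  apply List.ext_getElem
  · simp
  · intro i h1 h2
    simp

lemma Norm_cl_inv (g : G) : cl g⁻¹ = cl g := by
  unfold cl
  congr 1
  ext k
  constructor
  · intro h
    simpa using SclLimit_inv h
  · intro h
    exact SclLimit_inv h

lemma Norm_clSum_inv_le {m : ℕ} (g : Fin m → G) : clSum (fun i => (g i)⁻¹) ≤ clSum g := by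
  obtain ⟨h, hh⟩ := SclLimit_clSum_mem g
  rw [← hh, ← Norm_cl_inv, List.prod_inv_reverse, List.map_ofFn]
  have e : (List.ofFn ((fun x : G => x⁻¹) ∘ fun i => (h i)⁻¹ * g i * h i)) =
      List.zipWith (fun a b => b⁻¹ * a * b) (List.ofFn fun i => (g i)⁻¹) (List.ofFn h) := by
    rw [← Norm_zip]
    congr 1
    funext i
    simp only [Function.comp_apply]
    group
  rw [e]
  obtain ⟨z, hz, hz'⟩ := Norm_rev (List.ofFn fun i => (g i)⁻¹) (List.ofFn h) (by simp)
  rw [hz']
  have hz2 : z.length = m := by rw [hz]; simp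
  have e2 : z = List.ofFn (fun i : Fin m => z.get (Fin.cast hz2.symm i)) := by
    apply List.ext_getElem
    · simp [hz2]
    · intro i h1 h2
      simp
  rw [e2, ← Norm_zip]
  exact SclLimit_clSum_le _ _

lemma Norm_clSum_inv {m : ℕ} (g : Fin m → G) : clSum (fun i => (g i)⁻¹) = clSum g := by
  apply le_antisymm (Norm_clSum_inv_le g)
  have := Norm_clSum_inv_le (fun i => (g i)⁻¹)
  simpa using this

lemma Norm_scl_inv {m : ℕ} (g : Fin m → G) : scl (fun i => (g i)⁻¹) = scl g := by
  unfold scl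
  congr 1
  funext n
  have : (fun i => (g i)⁻¹ ^ n) = fun i => (g i ^ n)⁻¹ := by
    funext i
    rw [inv_pow]
  rw [this, Norm_clSum_inv]

lemma Norm_sclL_inv (l : List G) : sclL (l.map fun x => x⁻¹) = sclL l := by
  have e : (l.map fun x => x⁻¹) = List.ofFn (fun i => (l.get i)⁻¹) := by
    conv_lhs => rw [← List.ofFn_get l]
    rw [List.map_ofFn]
    rfl
  rw [e, Norm_sclL_ofFn, Norm_scl_inv]
  rfl

lemma Norm_sum_get {A B : Type*} [AddCommMonoid B] (R : List A) (f : A → B) :
    (R.map f).sum = ∑ j : Fin R.length, f (R.get j) := by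
  conv_lhs => rw [← List.ofFn_get R]
  rw [List.map_ofFn, List.sum_ofFn]
  rfl

/-! ### representations -/

/-- real formal sum of a list -/
noncomputable def Norm_lsum (l : List G) : G →₀ ℝ :=
  (l.map fun x => Finsupp.single x (1 : ℝ)).sum

/-- combination of formal sums -/
noncomputable def Norm_comb (R : List (ℝ × List G)) : G →₀ ℝ :=
  (R.map fun r => r.1 • Norm_lsum r.2).sum

/-- cost of a combination -/
noncomputable def Norm_cost (R : List (ℝ × List G)) : ℝ := (R.map fun r => r.1 * sclL r.2).sum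

/-- `R` represents `x` -/
def Norm_Rep (x : G →₀ ℝ) (R : List (ℝ × List G)) : Prop :=
  (∀ r ∈ R, 0 ≤ r.1 ∧ r.2.prod ∈ commutator G) ∧ x - Norm_comb R ∈ HSub G

/-- the pseudo-norm -/
noncomputable def Norm_N (x : G →₀ ℝ) : ℝ :=
  sInf {y | ∃ R : List (ℝ × List G), Norm_Rep x R ∧ Norm_cost R = y}

lemma Norm_cost_nonneg {x : G →₀ ℝ} {R : List (ℝ × List G)} (h : Norm_Rep x R) :
    0 ≤ Norm_cost R := by
  unfold Norm_cost
  apply List.sum_nonneg
  intro y hy
  obtain ⟨r, hr, rfl⟩ := List.mem_map.1 hy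
  exact mul_nonneg (h.1 r hr).1 (Norm_sclL_nonneg _ (h.1 r hr).2)

lemma Norm_bdd (x : G →₀ ℝ) :
    BddBelow {y | ∃ R : List (ℝ × List G), Norm_Rep x R ∧ Norm_cost R = y} :=
  ⟨0, by rintro _ ⟨R, hR, rfl⟩; exact Norm_cost_nonneg hR⟩

lemma Norm_N_le {x : G →₀ ℝ} {R : List (ℝ × List G)} (h : Norm_Rep x R) :
    Norm_N x ≤ Norm_cost R := csInf_le (Norm_bdd x) ⟨R, h, rfl⟩

lemma Norm_N_nonneg (x : G →₀ ℝ) : 0 ≤ Norm_N x := by
  apply Real.sInf_nonneg
  rintro _ ⟨R, hR, rfl⟩
  exact Norm_cost_nonneg hR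

lemma Norm_rep_zero : Norm_Rep (0 : G →₀ ℝ) [] :=
  ⟨by simp, by simp [Norm_comb]⟩

lemma Norm_rep_add {x y : G →₀ ℝ} {R S : List (ℝ × List G)} (hR : Norm_Rep x R)
    (hS : Norm_Rep y S) : Norm_Rep (x + y) (R ++ S) ∧
      Norm_cost (R ++ S) = Norm_cost R + Norm_cost S := by
  refine ⟨⟨?_, ?_⟩, by simp [Norm_cost]⟩
  · intro r hr
    rcases List.mem_append.1 hr with h | h
    · exact hR.1 r h
    · exact hS.1 r h
  · have : x + y - Norm_comb (R ++ S) = (x - Norm_comb R) + (y - Norm_comb S) := by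
      simp only [Norm_comb, List.map_append, List.sum_append]
      abel
    rw [this]
    exact Submodule.add_mem _ hR.2 hS.2

lemma Norm_rep_smul {x : G →₀ ℝ} {R : List (ℝ × List G)} (hR : Norm_Rep x R) {c : ℝ}
    (hc : 0 ≤ c) : Norm_Rep (c • x) (R.map fun r => (c * r.1, r.2)) ∧
      Norm_cost (R.map fun r => (c * r.1, r.2)) = c * Norm_cost R := by
  refine ⟨⟨?_, ?_⟩, ?_⟩
  · intro r hr
    obtain ⟨s, hs, rfl⟩ := List.mem_map.1 hr
    exact ⟨mul_nonneg hc (hR.1 s hs).1, (hR.1 s hs).2⟩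
  · have : c • x - Norm_comb (R.map fun r => (c * r.1, r.2)) = c • (x - Norm_comb R) := by
      rw [smul_sub]
      congr 1
      unfold Norm_comb
      rw [List.smul_sum, List.map_map, List.map_map]
      congr 1
      apply List.map_congr_left
      intro r _
      simp only [Function.comp_apply, mul_smul]
    rw [this]
    exact Submodule.smul_mem _ _ hR.2
  · unfold Norm_cost
    rw [List.map_map, ← List.sum_map_mul_left]
    congr 1
    apply List.map_congr_left
    intro r _
    simp only [Function.comp_apply, mul_assoc]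

lemma Norm_single_inv (x : G) :
    (Finsupp.single x⁻¹ (1 : ℝ) : G →₀ ℝ) + Finsupp.single x 1 ∈ HSub G := by
  apply Submodule.subset_span
  left
  exact ⟨x, -1, by simp⟩

lemma Norm_lsum_inv (l : List G) :
    Norm_lsum (l.map fun x => x⁻¹) + Norm_lsum l ∈ HSub G := by
  induction l with
  | nil => simp [Norm_lsum]
  | cons a l ih =>
    have : Norm_lsum ((a :: l).map fun x => x⁻¹) + Norm_lsum (a :: l) =
        (Finsupp.single a⁻¹ (1 : ℝ) + Finsupp.single a 1) +
          (Norm_lsum (l.map fun x => x⁻¹) + Norm_lsum l) := by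
      simp only [Norm_lsum, List.map_cons, List.sum_cons]
      abel
    rw [this]
    exact Submodule.add_mem _ (Norm_single_inv a) ih

lemma Norm_prod_inv (l : List G) (hl : l.prod ∈ commutator G) :
    (l.map fun x => x⁻¹).prod ∈ commutator G := by
  have key : ∀ x : G, x ∈ commutator G ↔ Abelianization.of x = 1 := by
    intro x
    rw [← MonoidHom.mem_ker, Abelianization.ker_of]
  rw [key] at hl ⊢
  have : ∀ l : List G, Abelianization.of (l.map fun x => x⁻¹).prod =
      (Abelianization.of l.prod)⁻¹ := by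
    intro l
    induction l with
    | nil => simp
    | cons a l ih =>
      simp only [List.map_cons, List.prod_cons, map_mul, ih, map_inv, mul_inv]
  rw [this, hl, inv_one]

lemma Norm_rep_neg {x : G →₀ ℝ} {R : List (ℝ × List G)} (hR : Norm_Rep x R) :
    Norm_Rep (-x) (R.map fun r => (r.1, r.2.map fun x => x⁻¹)) ∧
      Norm_cost (R.map fun r => (r.1, r.2.map fun x => x⁻¹)) = Norm_cost R := by
  refine ⟨⟨?_, ?_⟩, ?_⟩
  · intro r hr
    obtain ⟨s, hs, rfl⟩ := List.mem_map.1 hr
    exact ⟨(hR.1 s hs).1, Norm_prod_inv _ (hR.1 s hs).2⟩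
  · have h1 : ∀ R : List (ℝ × List G),
        Norm_comb (R.map fun r => (r.1, r.2.map fun x => x⁻¹)) + Norm_comb R ∈ HSub G := by
      intro R
      induction R with
      | nil => simp [Norm_comb]
      | cons r R ih =>
        have : Norm_comb ((r :: R).map fun r => (r.1, r.2.map fun x => x⁻¹)) +
            Norm_comb (r :: R) = r.1 • (Norm_lsum (r.2.map fun x => x⁻¹) + Norm_lsum r.2) +
              (Norm_comb (R.map fun r => (r.1, r.2.map fun x => x⁻¹)) + Norm_comb R) := by
          simp only [Norm_comb, List.map_cons, List.sum_cons, smul_add]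
          abel
        rw [this]
        exact Submodule.add_mem _ (Submodule.smul_mem _ _ (Norm_lsum_inv _)) ih
    have h2 := Submodule.add_mem _ (h1 R) hR.2
    have h3 := Submodule.neg_mem _ h2
    have : -x - Norm_comb (R.map fun r => (r.1, r.2.map fun x => x⁻¹)) =
        -(Norm_comb (R.map fun r => (r.1, r.2.map fun x => x⁻¹)) + Norm_comb R +
          (x - Norm_comb R)) := by abel
    rw [this]
    exact h3
  · unfold Norm_cost
    rw [List.map_map]
    congr 1
    apply List.map_congr_left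
    intro r _
    simp only [Function.comp_apply, Norm_sclL_inv]

lemma Norm_exists {x : G →₀ ℝ} (hx : x ∈ B1 G) : ∃ R : List (ℝ × List G), Norm_Rep x R := by
  unfold B1 at hx
  induction hx using Submodule.span_induction with
  | mem x hx =>
    obtain ⟨g, h, rfl⟩ := hx
    refine ⟨[(1, [g, h, (g * h)⁻¹])], ?_, ?_⟩
    · intro r hr
      rw [List.mem_singleton] at hr
      subst hr
      refine ⟨zero_le_one, ?_⟩
      have : ([g, h, (g * h)⁻¹] : List G).prod = 1 := by
        simp only [List.prod_cons, List.prod_nil]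
        group
      rw [this]
      exact Subgroup.one_mem _
    · have := Submodule.neg_mem _ (Norm_single_inv (g * h))
      have e : (Finsupp.single h 1 - Finsupp.single (g * h) 1 + Finsupp.single g 1 -
          Norm_comb [((1 : ℝ), [g, h, (g * h)⁻¹])] : G →₀ ℝ) =
          -(Finsupp.single (g * h)⁻¹ (1 : ℝ) + Finsupp.single (g * h) 1) := by
        simp only [Norm_comb, Norm_lsum, List.map_cons, List.map_nil, List.sum_cons,
          List.sum_nil, one_smul]
        abel
      rw [e]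
      exact this
  | zero => exact ⟨[], Norm_rep_zero⟩
  | add x y _ _ hx hy =>
    obtain ⟨R, hR⟩ := hx
    obtain ⟨S, hS⟩ := hy
    exact ⟨_, (Norm_rep_add hR hS).1⟩
  | smul c x _ hx =>
    obtain ⟨R, hR⟩ := hx
    rcases le_total 0 c with hc | hc
    · exact ⟨_, (Norm_rep_smul hR hc).1⟩
    · have h1 := (Norm_rep_smul hR (neg_nonneg.2 hc)).1
      have h2 := (Norm_rep_neg h1).1
      rw [neg_smul, neg_neg] at h2
      exact ⟨_, h2⟩

lemma Norm_N_lt {x : G →₀ ℝ} (hx : x ∈ B1 G) {a : ℝ} (h : Norm_N x < a) :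
    ∃ R : List (ℝ × List G), Norm_Rep x R ∧ Norm_cost R < a := by
  obtain ⟨R0, hR0⟩ := Norm_exists hx
  have hne : {y | ∃ R : List (ℝ × List G), Norm_Rep x R ∧ Norm_cost R = y}.Nonempty :=
    ⟨_, R0, hR0, rfl⟩
  obtain ⟨_, ⟨R, hR, rfl⟩, hy⟩ := exists_lt_of_csInf_lt hne h
  exact ⟨R, hR, hy⟩

lemma Norm_N_zero_of_mem {x : G →₀ ℝ} (hx : x ∈ HSub G) : Norm_N x = 0 := by
  apply le_antisymm _ (Norm_N_nonneg x)
  have h : Norm_Rep x [] := ⟨by simp, by simpa [Norm_comb] using hx⟩
  simpa [Norm_cost] using Norm_N_le h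

lemma Norm_N_add {x y : G →₀ ℝ} (hx : x ∈ B1 G) (hy : y ∈ B1 G) :
    Norm_N (x + y) ≤ Norm_N x + Norm_N y := by
  apply le_of_forall_pos_le_add
  intro ε hε
  obtain ⟨R, hR, hR'⟩ := Norm_N_lt hx (lt_add_of_pos_right _ (half_pos hε))
  obtain ⟨S, hS, hS'⟩ := Norm_N_lt hy (lt_add_of_pos_right _ (half_pos hε))
  obtain ⟨h1, h2⟩ := Norm_rep_add hR hS
  have := Norm_N_le h1
  linarith

lemma Norm_N_smul {x : G →₀ ℝ} (hx : x ∈ B1 G) (c : ℝ) :
    Norm_N (c • x) ≤ ‖c‖ * Norm_N x := by
  have key : ∀ R : List (ℝ × List G), Norm_Rep x R → Norm_N (c • x) ≤ ‖c‖ * Norm_cost R := by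
    intro R hR
    rcases le_total 0 c with hc | hc
    · obtain ⟨h1, h2⟩ := Norm_rep_smul hR hc
      rw [Real.norm_of_nonneg hc, ← h2]
      exact Norm_N_le h1
    · obtain ⟨h1, h2⟩ := Norm_rep_smul hR (neg_nonneg.2 hc)
      obtain ⟨h3, h4⟩ := Norm_rep_neg h1
      rw [neg_smul, neg_neg] at h3
      rw [Real.norm_of_nonpos hc, ← h2, ← h4]
      exact Norm_N_le h3
  apply le_of_forall_pos_le_add
  intro ε hε
  have hpos : 0 < ‖c‖ + 1 := by positivity
  obtain ⟨R, hR, hR'⟩ := Norm_N_lt hx (lt_add_of_pos_right (Norm_N x) (div_pos hε hpos))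
  have h1 := key R hR
  have h2 : ‖c‖ * Norm_cost R ≤ ‖c‖ * (Norm_N x + ε / (‖c‖ + 1)) :=
    mul_le_mul_of_nonneg_left hR'.le (norm_nonneg _)
  have h3 : ‖c‖ * (ε / (‖c‖ + 1)) ≤ ε := by
    rw [mul_div_assoc', div_le_iff₀ hpos]
    nlinarith [norm_nonneg c]
  linarith

/-! ### the value on formal sums -/

/-- integral formal sum of a list -/
noncomputable def Norm_lsumZ (l : List G) : G →₀ ℤ :=
  (l.map fun x => Finsupp.single x (1 : ℤ)).sum

/-- change of coefficients -/
noncomputable def Norm_toR : (G →₀ ℤ) →+ (G →₀ ℝ) :=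
  Finsupp.mapRange.addMonoidHom (Int.castAddHom ℝ)

/-- change of coefficients -/
noncomputable def Norm_toQ : (G →₀ ℤ) →+ (G →₀ ℚ) :=
  Finsupp.mapRange.addMonoidHom (Int.castAddHom ℚ)

omit [Group G] in
lemma Norm_toR_apply (z : G →₀ ℤ) (x : G) : Norm_toR z x = (z x : ℝ) := rfl

omit [Group G] in
lemma Norm_toQ_apply (z : G →₀ ℤ) (x : G) : Norm_toQ z x = (z x : ℚ) := rfl

omit [Group G] in
lemma Norm_toR_single (x : G) : Norm_toR (Finsupp.single x 1) = Finsupp.single x 1 := by
  simp [Norm_toR]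

omit [Group G] in
lemma Norm_toQ_inj {z w : G →₀ ℤ} (h : Norm_toQ z = Norm_toQ w) : z = w := by
  ext x
  have := DFunLike.congr_fun h x
  rw [Norm_toQ_apply, Norm_toQ_apply] at this
  exact_mod_cast this

omit [Group G] in
lemma Norm_toR_lsum (l : List G) : Norm_toR (Norm_lsumZ l) = Norm_lsum l := by
  unfold Norm_lsumZ Norm_lsum
  rw [map_list_sum, List.map_map]
  congr 1
  apply List.map_congr_left
  intro x _
  exact Norm_toR_single x

lemma Norm_den {ι : Type*} [Fintype ι] (q : ι → ℚ) :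
    ∃ D : ℕ, 0 < D ∧ ∀ i, ∃ z : ℤ, (z : ℚ) = D * q i := by
  refine ⟨∏ i, (q i).den, Finset.prod_pos fun i _ => (q i).den_pos, fun i => ?_⟩
  obtain ⟨e, he⟩ := Finset.dvd_prod_of_mem (fun i => (q i).den) (Finset.mem_univ i)
  refine ⟨e * (q i).num, ?_⟩
  rw [he]
  push_cast
  have := Rat.mul_den_eq_num (q i)
  calc (e : ℚ) * (q i).num = e * (q i * (q i).den) := by rw [this]
    _ = (q i).den * e * q i := by ring

lemma Norm_key (l : List G) (hl : l.prod ∈ commutator G) {R : List (ℝ × List G)}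
    (hR : Norm_Rep (Norm_lsum l) R) : sclL l ≤ Norm_cost R := by
  obtain ⟨hR1, hR2⟩ := hR
  unfold HSub at hR2
  rw [Submodule.span_union, Submodule.mem_sup] at hR2
  obtain ⟨y, hy, z, hz, hyz⟩ := hR2
  rw [Submodule.mem_span_set'] at hy hz
  obtain ⟨p, d, η, hη⟩ := hy
  obtain ⟨q, d', ζ, hζ⟩ := hz
  have hη1 : ∀ i, ∃ (g : G) (n : ℤ), ((η i : G →₀ ℝ)) =
      Norm_toR (Finsupp.single (g ^ n) 1 - n • Finsupp.single g 1) := by
    intro i
    obtain ⟨g, n, h⟩ := (η i).2
    refine ⟨g, n, ?_⟩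
    rw [h, map_sub, map_zsmul, Norm_toR_single, Norm_toR_single, Int.cast_smul_eq_zsmul]
  have hζ1 : ∀ i, ∃ (g h : G), ((ζ i : G →₀ ℝ)) =
      Norm_toR (Finsupp.single g 1 - Finsupp.single (h * g * h⁻¹) 1) := by
    intro i
    obtain ⟨g, h, e⟩ := (ζ i).2
    refine ⟨g, h, ?_⟩
    rw [e, map_sub, Norm_toR_single, Norm_toR_single]
  choose g e hge using hη1
  choose g' h' hgh using hζ1
  set k := R.length with hk
  set c : Fin k → ℝ := fun j => (R.get j).1 with hc
  set L : Fin k → List G := fun j => (R.get j).2 with hL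
  have hc0 : ∀ j, 0 ≤ c j := fun j => (hR1 _ (List.get_mem R j)).1
  have hLc : ∀ j, (L j).prod ∈ commutator G := fun j => (hR1 _ (List.get_mem R j)).2
  have hcomb : Norm_comb R = ∑ j, c j • Norm_toR (Norm_lsumZ (L j)) := by
    unfold Norm_comb
    rw [Norm_sum_get]
    apply Finset.sum_congr rfl
    intro j _
    rw [Norm_toR_lsum]
  have hcost : Norm_cost R = ∑ j, c j * sclL (L j) := by
    unfold Norm_cost
    rw [Norm_sum_get]
  have hrel : Norm_toR (Norm_lsumZ l) = ∑ j, c j • Norm_toR (Norm_lsumZ (L j)) +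
      ∑ i, d i • Norm_toR (Finsupp.single (g i ^ e i) 1 - e i • Finsupp.single (g i) 1) +
      ∑ i, d' i • Norm_toR (Finsupp.single (g' i) 1 -
        Finsupp.single (h' i * g' i * (h' i)⁻¹) 1) := by
    have h1 : Norm_lsum l = Norm_comb R + y + z := by
      rw [add_assoc, hyz]
      abel
    rw [Norm_toR_lsum, h1, hcomb, ← hη, ← hζ]
    congr 1
    · congr 1
      apply Finset.sum_congr rfl
      intro i _
      rw [hge]
    · apply Finset.sum_congr rfl
      intro i _
      rw [hgh]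
  rw [hcost]
  set M : ℝ := ∑ j, sclL (L j) with hM
  have hM0 : 0 ≤ M := Finset.sum_nonneg fun j _ => Norm_sclL_nonneg _ (hLc j)
  apply le_of_forall_pos_le_add
  intro ε₀ hε₀
  obtain ⟨ε, hε, hε1, hε2⟩ : ∃ ε : ℝ, 0 < ε ∧ ε * M ≤ ε₀ ∧ ∀ j, 0 < c j → ε < c j := by
    have h1 : ∀ᶠ ε : ℝ in 𝓝[>] 0, 0 < ε := eventually_mem_nhdsWithin
    have h2 : ∀ᶠ ε : ℝ in 𝓝[>] 0, ε < ε₀ / (M + 1) :=
      Filter.mem_of_superset (Ioo_mem_nhdsGT (div_pos hε₀ (by linarith))) fun x hx => hx.2
    have h3 : ∀ᶠ ε : ℝ in 𝓝[>] 0, ∀ j, 0 < c j → ε < c j := by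
      rw [Filter.eventually_all]
      intro j
      by_cases hj : 0 < c j
      · have : ∀ᶠ ε : ℝ in 𝓝[>] 0, ε < c j :=
          Filter.mem_of_superset (Ioo_mem_nhdsGT hj) fun x hx => hx.2
        exact this.mono fun x hx _ => hx
      · exact Filter.Eventually.of_forall fun x h => absurd h hj
    obtain ⟨ε, h4, h5, h6⟩ := (h1.and (h2.and h3)).exists
    refine ⟨ε, h4, ?_, h6⟩
    have hM1 : 0 < M + 1 := by linarith
    rw [lt_div_iff₀ hM1] at h5
    nlinarith
  obtain ⟨f, hf1, hf⟩ := exists_rat_linear (ι := Fin k ⊕ (Fin p ⊕ Fin q))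
    (Sum.elim c (Sum.elim d d')) ε hε
  have hfc : ∀ j, |(f (c j) : ℝ) - c j| < ε := fun j => hf (Sum.inl j)
  -- the relation over the rationals
  have hF : ∀ (r : ℝ) (z : G →₀ ℤ), Finsupp.mapRange.linearMap f (r • Norm_toR z) =
      f r • Norm_toQ z := by
    intro r z
    ext x
    rw [Finsupp.mapRange.linearMap_apply, Finsupp.mapRange_apply, Finsupp.smul_apply,
      Finsupp.smul_apply, Norm_toR_apply, Norm_toQ_apply, smul_eq_mul, smul_eq_mul]
    have : r * (z x : ℝ) = ((z x : ℤ) : ℚ) • r := by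
      rw [Rat.smul_def]
      push_cast
      ring
    rw [this, map_smul, smul_eq_mul, mul_comm]
  have hrelQ : Norm_toQ (Norm_lsumZ l) = ∑ j, f (c j) • Norm_toQ (Norm_lsumZ (L j)) +
      ∑ i, f (d i) • Norm_toQ (Finsupp.single (g i ^ e i) 1 - e i • Finsupp.single (g i) 1) +
      ∑ i, f (d' i) • Norm_toQ (Finsupp.single (g' i) 1 -
        Finsupp.single (h' i * g' i * (h' i)⁻¹) 1) := by
    have h1 := congrArg (Finsupp.mapRange.linearMap f) hrel
    have h2 := hF 1 (Norm_lsumZ l)
    rw [one_smul, hf1, one_smul] at h2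
    rw [h2, map_add, map_add, map_sum, map_sum, map_sum] at h1
    rw [h1]
    congr 1
    · congr 1
      · exact Finset.sum_congr rfl fun j _ => hF _ _
      · exact Finset.sum_congr rfl fun j _ => hF _ _
    · exact Finset.sum_congr rfl fun j _ => hF _ _
  obtain ⟨D, hD, hDz⟩ := Norm_den (fun i : Fin k ⊕ (Fin p ⊕ Fin q) =>
    f (Sum.elim c (Sum.elim d d') i))
  have hDc : ∀ j, ∃ n : ℕ, (n : ℚ) = D * f (c j) := by
    intro j
    obtain ⟨z, hz⟩ := hDz (Sum.inl j)
    simp only [Sum.elim_inl] at hz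
    have hfc0 : 0 ≤ f (c j) := by
      rcases (hc0 j).eq_or_lt with h | h
      · rw [← h, map_zero]
      · have h1 := hε2 j h
        have h2 := (abs_lt.1 (hfc j)).1
        have h3 : (0 : ℝ) < (f (c j) : ℝ) := by linarith
        exact_mod_cast h3.le
    have hz0 : 0 ≤ z := by
      have : (0 : ℚ) ≤ z := by
        rw [hz]
        positivity
      exact_mod_cast this
    refine ⟨z.toNat, ?_⟩
    rw [← hz]
    have : ((z.toNat : ℤ) : ℚ) = (z : ℚ) := by rw [Int.toNat_of_nonneg hz0]
    exact_mod_cast this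
  have hDd : ∀ i, ∃ m : ℤ, (m : ℚ) = D * f (d i) := fun i => hDz (Sum.inr (Sum.inl i))
  have hDd' : ∀ i, ∃ m : ℤ, (m : ℚ) = D * f (d' i) := fun i => hDz (Sum.inr (Sum.inr i))
  choose n hn using hDc
  choose m hm using hDd
  choose m' hm' using hDd'
  have hrelZ : D • Norm_lsumZ l = ∑ j, n j • Norm_lsumZ (L j) +
      ∑ i, m i • (Finsupp.single (g i ^ e i) (1 : ℤ) - e i • Finsupp.single (g i) (1 : ℤ)) +
      ∑ i, m' i • (Finsupp.single (g' i) (1 : ℤ) -
        Finsupp.single (h' i * g' i * (h' i)⁻¹) (1 : ℤ)) := by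
    apply Norm_toQ_inj
    have s1 : ∀ (a : ℕ) (r : ℚ) (w : G →₀ ℤ), (a : ℚ) = D * r →
        Norm_toQ (a • w) = (D : ℚ) • (r • Norm_toQ w) := by
      intro a r w h
      rw [map_nsmul, smul_smul, ← h, Nat.cast_smul_eq_nsmul]
    have s2 : ∀ (a : ℤ) (r : ℚ) (w : G →₀ ℤ), (a : ℚ) = D * r →
        Norm_toQ (a • w) = (D : ℚ) • (r • Norm_toQ w) := by
      intro a r w h
      rw [map_zsmul, smul_smul, ← h, Int.cast_smul_eq_zsmul]
    rw [map_add, map_add, map_sum, map_sum, map_sum, map_nsmul, ← Nat.cast_smul_eq_nsmul ℚ,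
      hrelQ, smul_add, smul_add, Finset.smul_sum, Finset.smul_sum, Finset.smul_sum]
    congr 1
    · congr 1
      · exact Finset.sum_congr rfl fun j _ => (s1 _ _ _ (hn j)).symm
      · exact Finset.sum_congr rfl fun j _ => (s2 _ _ _ (hm j)).symm
    · exact Finset.sum_congr rfl fun j _ => (s2 _ _ _ (hm' j)).symm
  have hfin := scl_le_of_relation l hl L hLc D n g e m g' h' m' hrelZ
  have hn' : ∀ j, (n j : ℝ) = D * (f (c j) : ℝ) := by
    intro j
    have := hn j
    exact_mod_cast this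
  have hDpos : (0 : ℝ) < D := by exact_mod_cast hD
  have h5 : (D : ℝ) * sclL l ≤ D * (∑ j, c j * sclL (L j) + ε₀) := by
    refine hfin.trans ?_
    calc ∑ j, (n j : ℝ) * sclL (L j) = ∑ j, (D : ℝ) * ((f (c j) : ℝ) * sclL (L j)) := by
          apply Finset.sum_congr rfl
          intro j _
          rw [hn' j]
          ring
      _ = D * ∑ j, (f (c j) : ℝ) * sclL (L j) := by rw [Finset.mul_sum]
      _ ≤ D * ∑ j, (c j + ε) * sclL (L j) := by
          apply mul_le_mul_of_nonneg_left _ hDpos.le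
          apply Finset.sum_le_sum
          intro j _
          apply mul_le_mul_of_nonneg_right _ (Norm_sclL_nonneg _ (hLc j))
          have := (abs_lt.1 (hfc j)).2
          linarith
      _ = D * (∑ j, c j * sclL (L j) + ε * M) := by
          congr 1
          rw [hM, Finset.mul_sum, ← Finset.sum_add_distrib]
          apply Finset.sum_congr rfl
          intro j _
          ring
      _ ≤ D * (∑ j, c j * sclL (L j) + ε₀) := by
          apply mul_le_mul_of_nonneg_left _ hDpos.le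
          linarith
  exact le_of_mul_le_mul_left h5 hDpos

lemma Norm_N_lsum (l : List G) (hl : l.prod ∈ commutator G) (hx : Norm_lsum l ∈ B1 G) :
    Norm_N (Norm_lsum l) = sclL l := by
  apply le_antisymm
  · have h : Norm_Rep (Norm_lsum l) [(1, l)] := by
      refine ⟨?_, ?_⟩
      · intro r hr
        rw [List.mem_singleton] at hr
        subst hr
        exact ⟨zero_le_one, hl⟩
      · simp [Norm_comb]
    have := Norm_N_le h
    simpa [Norm_cost] using this
  · obtain ⟨R0, hR0⟩ := Norm_exists hx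
    have hne : {y | ∃ R : List (ℝ × List G), Norm_Rep (Norm_lsum l) R ∧
        Norm_cost R = y}.Nonempty := ⟨_, R0, hR0, rfl⟩
    apply le_csInf hne
    rintro _ ⟨R, hR, rfl⟩
    exact Norm_key l hl hR

omit [Group G] in
lemma Norm_fsum {m : ℕ} (g : Fin m → G) : fsum g = Norm_lsum (List.ofFn g) := by
  unfold fsum Norm_lsum
  rw [List.map_ofFn, List.sum_ofFn]
  rfl

end Norm

theorem exists_sclNorm (G : Type*) [Group G] : ∃ N : Seminorm ℝ (B1 G), IsSclNorm N := by
  refine ⟨Seminorm.ofSMulLE (fun x => Norm_N (x : G →₀ ℝ)) ?_ ?_ ?_, ?_, ?_⟩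
  · exact Norm_N_zero_of_mem (Submodule.zero_mem _)
  · intro x y
    exact Norm_N_add x.2 y.2
  · intro c x
    exact Norm_N_smul x.2 c
  · intro x hx
    exact Norm_N_zero_of_mem hx
  · intro m g hg x hx
    change Norm_N (x : G →₀ ℝ) = scl g
    have hmem : Norm_lsum (List.ofFn g) ∈ B1 G := by
      rw [← Norm_fsum, ← hx]
      exact x.2
    rw [hx, Norm_fsum, Norm_N_lsum _ hg hmem, Norm_sclL_ofFn]

end SclIso
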