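import Pool.Agent.H.MP_1b0e60_al.Defs

/-!
The pseudo-norm `scl` as a seminorm on the space of `1`-boundaries of a group.
-/

open Equiv Filter Topology

namespace SclIso

/-- the pseudo-norm `N` on the `1`-boundaries vanishes on `H` and extends `scl` -/
structure IsSclNorm {G : Type*} [Group G] (N : Seminorm ℝ (B1 G)) : Prop where
  zero : ∀ x : B1 G, (x : G →₀ ℝ) ∈ HSub G → N x = 0
  sum : ∀ (m : ℕ) (g : Fin m → G), (List.ofFn g).prod ∈ commutator G →
    ∀ x : B1 G, (x : G →₀ ℝ) = fsum g → N x = scl g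

end SclIso
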