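import Pool.Agent.H.MP_1b0e60_al.NullCyc
import Pool.Agent.H.MP_1b0e60_al.LongCover
import Pool.Agent.H.MP_1b0e60_al.Cover

/-!
Removing homologically trivial families of powers of one loop.
-/
open Equiv Filter Topology

namespace SclIso

section NF

variable {E L K : Type*}

private lemma NF_pow_comm {σE : Perm E} {σ : Perm L} {P : E → L} (h : ∀ e, P (σE e) = σ (P e))
    (k : ℕ) (e : E) : P ((σE ^ k) e) = (σ ^ k) (P e) := by
  induction k generalizing e with
  | zero => rfl
  | succ k ih => rw [pow_succ, pow_succ, Perm.mul_apply, Perm.mul_apply, ih, h]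

private lemma NF_period_pow (σ : Perm L) (x : L) (k : ℕ) :
    (σ ^ k) x = x ↔ Function.minimalPeriod σ x ∣ k := by
  rw [← Perm.iterate_eq_pow]
  exact Function.isPeriodicPt_iff_minimalPeriod_dvd

private lemma NF_period_pos [Finite L] (σ : Perm L) (x : L) : 0 < Function.minimalPeriod σ x := by
  rw [Function.minimalPeriod_pos_iff_mem_periodicPts]
  obtain ⟨n, hn, h⟩ := isOfFinOrder_iff_pow_eq_one.1 (isOfFinOrder_of_finite σ)
  refine ⟨n, hn, ?_⟩
  rw [Function.IsPeriodicPt, Function.IsFixedPt, Perm.iterate_eq_pow, h]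
  rfl

private lemma NF_prod_blocks [Monoid K] (σ : Perm L) (v : L → K) (x : L) (d : ℕ) :
    ((List.range (Function.minimalPeriod σ x * d)).map (fun i => v ((σ ^ i) x))).prod =
      (cycProd σ v x) ^ d := by
  induction d with
  | zero => simp
  | succ d ih =>
    rw [Nat.mul_succ, List.range_add, List.map_append, List.prod_append, ih, pow_succ]
    congr 1
    unfold cycProd
    rw [List.map_map]
    congr 1
    refine List.map_congr_left fun i _ => ?_
    simp only [Function.comp_apply]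
    rw [add_comm, pow_add, Perm.mul_apply]
    rw [(NF_period_pow σ x _).2 (Dvd.intro _ rfl)]

private lemma NF_cycProd [Monoid K] [Finite E] {σE : Perm E} {σ : Perm L} {P : E → L}
    (h : ∀ e, P (σE e) = σ (P e)) (v : L → K) (y : E) :
    ∃ d, 0 < d ∧ Function.minimalPeriod σE y = Function.minimalPeriod σ (P y) * d ∧
      cycProd σE (fun e => v (P e)) y = (cycProd σ v (P y)) ^ d := by
  have h1 : Function.minimalPeriod σ (P y) ∣ Function.minimalPeriod σE y := by
    rw [← NF_period_pow, ← NF_pow_comm h, (NF_period_pow σE y _).2 dvd_rfl]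
  obtain ⟨d, hd⟩ := h1
  refine ⟨d, ?_, hd, ?_⟩
  · rcases Nat.eq_zero_or_pos d with h0 | h0
    · have := NF_period_pos σE y
      rw [hd, h0] at this
      simp at this
    · exact h0
  · rw [← NF_prod_blocks, ← hd]
    unfold cycProd
    congr 1
    refine List.map_congr_left fun i _ => ?_
    simp only [NF_pow_comm h]

private lemma NF_card_cycle [Finite L] (R : Perm L) (y : L) :
    Nat.card {e // R.SameCycle y e} = Function.minimalPeriod R y := by
  have hD := NF_period_pos R y
  rw [← Nat.card_fin (Function.minimalPeriod R y)]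
  symm
  refine Nat.card_eq_of_bijective (fun i : Fin (Function.minimalPeriod R y) =>
    (⟨(R ^ (i : ℕ)) y, (Perm.sameCycle_pow_right (n := (i : ℕ))).2 (Perm.SameCycle.refl _ _)⟩ :
      {e // R.SameCycle y e})) ⟨?_, ?_⟩
  · intro i j hij
    have h1 : (R ^ (i : ℕ)) y = (R ^ (j : ℕ)) y := congrArg Subtype.val hij
    have h2 : ∀ i j : ℕ, i ≤ j → j < Function.minimalPeriod R y →
        (R ^ i) y = (R ^ j) y → i = j := by
      intro i j hij hj h
      obtain ⟨k, rfl⟩ := Nat.exists_eq_add_of_le hij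
      rw [pow_add, Perm.mul_apply] at h
      have h3 := (R ^ i).injective h
      have h4 := (NF_period_pow R y k).1 h3.symm
      have h5 := Nat.eq_zero_of_dvd_of_lt h4 (by omega)
      omega
    rcases le_total (i : ℕ) j with h | h
    · exact Fin.ext (h2 i j h j.2 h1)
    · exact Fin.ext (h2 j i h i.2 h1.symm).symm
  · rintro ⟨e, he⟩
    obtain ⟨k, hk⟩ := he.exists_nat_pow_eq
    refine ⟨⟨k % Function.minimalPeriod R y, Nat.mod_lt _ hD⟩, Subtype.ext ?_⟩
    simp only
    rw [← hk]
    conv_rhs => rw [← Nat.mod_add_div k (Function.minimalPeriod R y), pow_add, Perm.mul_apply]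
    rw [(NF_period_pow R y _).2 (Dvd.intro _ rfl)]

/-- representatives of the cycles over the cycle of `x` -/
private lemma NF_reps [Finite E] {σE : Perm E} {σ : Perm L} {P : E → L} [Finite L]
    (h : ∀ e, P (σE e) = σ (P e)) (x : L) :
    ∃ Y : List E, (∀ y ∈ Y, P y = x) ∧ (Y.Pairwise fun y y' => ¬ σE.SameCycle y y') ∧
      (∀ e, σ.SameCycle x (P e) → ∃ y ∈ Y, σE.SameCycle y e) ∧
      (Y.map fun y => Function.minimalPeriod σE y / Function.minimalPeriod σ x).sum =
        Nat.card {e // P e = x} := by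
  classical
  set c := Function.minimalPeriod σ x with hc
  have hcpos : 0 < c := NF_period_pos σ x
  let R : Perm {e // P e = x} := (σE ^ c).subtypePerm (fun e => by
    rw [NF_pow_comm h]
    constructor
    · intro h1
      have h2 : (σ ^ c) x = x := (NF_period_pow σ x c).2 dvd_rfl
      exact (σ ^ c).injective (h1.trans h2.symm)
    · intro h1
      rw [h1]
      exact (NF_period_pow σ x c).2 dvd_rfl)
  have hR : ∀ e : {e // P e = x}, ((R e : {e // P e = x}) : E) = (σE ^ c) e.1 := fun e => rfl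
  have hRpow : ∀ (k : ℕ) (e : {e // P e = x}),
      (((R ^ k) e : {e // P e = x}) : E) = (σE ^ (c * k)) e.1 := by
    intro k
    induction k with
    | zero => intro e; rfl
    | succ k ih =>
      intro e
      rw [pow_succ, Perm.mul_apply, ih, hR, Nat.mul_succ, pow_add, Perm.mul_apply]
  -- same cycle
  have hsame : ∀ e e' : {e // P e = x}, σE.SameCycle e.1 e'.1 ↔ R.SameCycle e e' := by
    intro e e'
    constructor
    · intro h1
      obtain ⟨k, hk⟩ := h1.exists_nat_pow_eq
      have h2 : (σ ^ k) x = x := by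
        have := NF_pow_comm h k e.1
        rw [hk, e.2, e'.2] at this
        exact this.symm
      obtain ⟨j, hj⟩ := (NF_period_pow σ x k).1 h2
      refine ⟨(j : ℤ), ?_⟩
      rw [zpow_natCast]
      apply Subtype.ext
      rw [hRpow, ← hj, hk]
    · intro h1
      obtain ⟨k, hk⟩ := h1.exists_nat_pow_eq
      refine ⟨((c * k : ℕ) : ℤ), ?_⟩
      rw [zpow_natCast, ← hRpow, hk]
  have hper : ∀ e : {e // P e = x},
      Function.minimalPeriod σE e.1 / c = Function.minimalPeriod R e := by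
    intro e
    have h1 : c ∣ Function.minimalPeriod σE e.1 := by
      rw [hc, ← NF_period_pow]
      have := NF_pow_comm h (Function.minimalPeriod σE e.1) e.1
      rw [(NF_period_pow σE e.1 _).2 dvd_rfl, e.2] at this
      exact this.symm
    obtain ⟨d, hd⟩ := h1
    rw [hd, Nat.mul_div_cancel_left _ hcpos]
    apply Nat.dvd_antisymm
    · have h2 : (σE ^ (c * Function.minimalPeriod R e)) e.1 = e.1 := by
        rw [← hRpow, (NF_period_pow R e _).2 dvd_rfl]
      rw [NF_period_pow, hd] at h2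
      exact Nat.dvd_of_mul_dvd_mul_left hcpos h2
    · rw [← NF_period_pow]
      apply Subtype.ext
      rw [hRpow, ← hd]
      exact (NF_period_pow σE e.1 _).2 dvd_rfl
  have : Fintype {e // P e = x} := Fintype.ofFinite _
  have : Fintype (Quotient (Perm.SameCycle.setoid R)) := Fintype.ofFinite _
  refine ⟨(Finset.univ : Finset (Quotient (Perm.SameCycle.setoid R))).toList.map
    (fun q => (q.out : {e // P e = x}).1), ?_, ?_, ?_, ?_⟩
  · intro y hy
    obtain ⟨q, _, rfl⟩ := List.mem_map.1 hy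
    exact q.out.2
  · rw [List.pairwise_map]
    refine (Finset.nodup_toList _).imp ?_
    intro q q' hne hs
    rw [hsame] at hs
    apply hne
    rw [← Quotient.out_eq q, ← Quotient.out_eq q']
    exact Quotient.sound hs
  · intro e he
    obtain ⟨k, hk⟩ := he.symm.exists_nat_pow_eq
    let e' : {e // P e = x} := ⟨(σE ^ k) e, by rw [NF_pow_comm h, hk]⟩
    refine ⟨_, List.mem_map.2 ⟨Quotient.mk (Perm.SameCycle.setoid R) e',
      Finset.mem_toList.2 (Finset.mem_univ _), rfl⟩, ?_⟩
    have h1 : R.SameCycle (Quotient.mk (Perm.SameCycle.setoid R) e').out e' :=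
      Quotient.exact (s := Perm.SameCycle.setoid R)
        (Quotient.out_eq (Quotient.mk (Perm.SameCycle.setoid R) e'))
    rw [← hsame] at h1
    refine h1.trans ?_
    exact (Perm.sameCycle_pow_left (n := k)).2 (Perm.SameCycle.refl _ _)
  · rw [List.map_map, Finset.sum_map_toList]
    simp only [Function.comp_apply, hper]
    rw [← Nat.card_congr (Equiv.sigmaFiberEquiv (Quotient.mk (Perm.SameCycle.setoid R))),
      Nat.card_sigma]
    refine Finset.sum_congr rfl fun q _ => ?_
    rw [← NF_card_cycle R q.out]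
    refine Nat.card_congr (Equiv.subtypeEquivRight fun e => ?_)
    constructor
    · intro h1
      rw [← Quotient.out_eq q]
      exact (Quotient.sound (s := Perm.SameCycle.setoid R) h1).symm
    · intro h1
      refine Quotient.exact (s := Perm.SameCycle.setoid R) ?_
      rw [Quotient.out_eq, h1]

private lemma NF_prod_zpow {G A : Type*} [Group G] (z : G) (f : A → ℤ) (g : A → G)
    (Y : List A) (h : ∀ y ∈ Y, g y = z ^ f y) : (Y.map g).prod = z ^ (Y.map f).sum := by
  induction Y with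
  | nil => simp
  | cons y Y ih =>
    rw [List.map_cons, List.prod_cons, List.map_cons, List.sum_cons, zpow_add,
      ih fun y' hy' => h y' (List.mem_cons_of_mem _ hy'), h y List.mem_cons_self]

private lemma NF_sum_flatMap {A L : Type*} (X : List L) (Yf : L → List A) (f : A → ℤ)
    (n : L → ℤ) (N : ℤ) (h : ∀ x ∈ X, ((Yf x).map f).sum = n x * N) :
    ((X.flatMap Yf).map f).sum = (X.map n).sum * N := by
  induction X with
  | nil => simp
  | cons x X ih =>
    rw [List.flatMap_cons, List.map_append, List.sum_append, List.map_cons, List.sum_cons,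
      ih fun y hy => h y (List.mem_cons_of_mem _ hy), h x List.mem_cons_self]
    ring

private lemma NF_length_flatMap {A L : Type*} (X : List L) (Yf : L → List A) (J C : ℕ)
    (h : ∀ x ∈ X, J * (Yf x).length ≤ C) :
    J * (X.flatMap Yf).length ≤ C * X.length := by
  induction X with
  | nil => simp
  | cons x X ih =>
    rw [List.flatMap_cons, List.length_append, List.length_cons]
    have h1 := ih fun y hy => h y (List.mem_cons_of_mem _ hy)
    have h2 := h x List.mem_cons_self
    rw [mul_add, mul_add, mul_one]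
    omega

private lemma NF_length_le {A : Type*} (Y : List A) (d : A → ℕ) (J B : ℕ)
    (h : ∀ y ∈ Y, J ≤ B * d y) : J * Y.length ≤ B * (Y.map d).sum := by
  induction Y with
  | nil => simp
  | cons y Y ih =>
    rw [List.map_cons, List.sum_cons, List.length_cons, mul_add, mul_add, mul_one]
    have h1 := ih fun y hy => h y (List.mem_cons_of_mem _ hy)
    have h2 := h y List.mem_cons_self
    omega

private lemma NF_fval_linv {Ω : Type*} (l l' : (Ω × Fin 2) × Bool) (h1 : l'.1.2 = l.1.2)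
    (h2 : l'.2 = !l.2) : fval l' = (fval l)⁻¹ := by
  unfold fval
  rw [FreeGroup.inv_mk, h1, h2]
  rfl

theorem fill_remove_null {Ω L κ : Type} [Finite L] (t : Fin 2 → Perm Ω) (σ : Perm L)
    (lab : L → (Ω × Fin 2) × Bool) (hp : IsPath t σ lab) (X : List L)
    (hX : X.Pairwise fun x y => ¬ σ.SameCycle x y) (ω : Ω) (hω : ∀ x ∈ X, tl t (lab x) = ω)
    (z : FreeGroup (Fin 2)) (hz : z ≠ 1) (n : L → ℤ)
    (hn : ∀ x ∈ X, n x ≠ 0 ∧ cycProd σ (fun y => fval (lab y)) x = z ^ n x)
    (hsum : (X.map n).sum = 0)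
    (σ' : Perm {z : L // ∀ x ∈ X, ¬ σ.SameCycle x z})
    (hσ' : ∀ z, ((σ' z : {z : L // ∀ x ∈ X, ¬ σ.SameCycle x z}) : L) = σ z)
    (q : Ω × Fin 2 → κ) (hq : ∀ e e', q e = q e' → e.2 = e'.2)
    (r : ℝ) (h : FillLt σ (fun y => mapL q (lab y)) r) :
    FillLt σ' (fun y : {z : L // ∀ x ∈ X, ¬ σ.SameCycle x z} => mapL q (lab y)) r := by
  classical
  obtain ⟨n₀, M, hM, p, τ, π, hn₀, hc, hπ, hE⟩ := h
  let w : M → FreeGroup (Fin 2) := fun m => fval (lab (p m))
  have hw : ∀ m, w (π m) = (w m)⁻¹ := by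
    intro m
    have h1 := hπ.lab_inv m
    simp only [mapL, linv, Prod.mk.injEq] at h1
    exact NF_fval_linv _ _ (hq _ _ h1.1) h1.2
  set η : ℝ := n₀ * r - (E2 τ π : ℤ) with hη
  have hηpos : 0 < η := by rw [hη]; linarith
  let B : ℕ := (X.map fun x => (n x).natAbs).sum
  have hB : ∀ x ∈ X, (n x).natAbs ≤ B := by
    intro x hx
    exact List.le_sum_of_mem (List.mem_map_of_mem hx)
  obtain ⟨J, hJ⟩ := exists_nat_gt ((2 * B * X.length * n₀ : ℝ) / η)
  rw [div_lt_iff₀ hηpos] at hJ
  obtain ⟨Q, hQ1, hQ2, ρ, hρ⟩ := freeGroup_rf z hz J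
  obtain ⟨σQ, πQ, hσQ, hcQ, hπQ, hEQ, hper⟩ :=
    long_cover ρ τ π (fun m => mapL q (lab (p m))) hπ w hw
  let P : M × Q → L := fun m => p m.1
  have hcP : IsCover σQ σ P (Nat.card Q * n₀) := Cover_comp hcQ hc
  have hcomm : ∀ e, P (σQ e) = σ (P e) := hcP.comm
  choose Yf hY1 hY2 hY3 hY4 using fun x => NF_reps hcomm x
  -- a letter over X is in a cycle of Y
  have hYX : ∀ e, (∀ y ∈ X.flatMap Yf, ¬ σQ.SameCycle y e) ↔
      ∀ x ∈ X, ¬ σ.SameCycle x (P e) := by
    intro e
    constructor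
    · intro h1 x hx hs
      obtain ⟨y, hy, hye⟩ := hY3 x e hs
      exact h1 y (List.mem_flatMap.2 ⟨x, hx, hy⟩) hye
    · intro h1 y hy hs
      obtain ⟨x, hx, hyx⟩ := List.mem_flatMap.1 hy
      refine h1 x hx ?_
      obtain ⟨k, hk⟩ := hs.exists_nat_pow_eq
      rw [← hk, NF_pow_comm hcomm, hY1 x y hyx]
      exact (Perm.sameCycle_pow_right (n := k)).2 (Perm.SameCycle.refl _ _)
  have hYpair : (X.flatMap Yf).Pairwise fun y y' => ¬ σQ.SameCycle y y' := by
    rw [List.pairwise_flatMap]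
    refine ⟨fun x _ => hY2 x, ?_⟩
    refine hX.imp ?_
    intro x x' hxx' y hy y' hy' hs
    apply hxx'
    obtain ⟨k, hk⟩ := hs.exists_nat_pow_eq
    have h1 := NF_pow_comm hcomm k y
    rw [hk, hY1 x y hy, hY1 x' y' hy'] at h1
    rw [h1]
    exact (Perm.sameCycle_pow_right (n := k)).2 (Perm.SameCycle.refl _ _)
  -- the degrees
  have hdeg : ∀ x ∈ X, ∀ y ∈ Yf x,
      J ≤ B * (Function.minimalPeriod σQ y / Function.minimalPeriod σ x) := by
    rintro x hx ⟨m, a⟩ hy
    have hpm : p m = x := hY1 x _ hy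
    obtain ⟨d', hd', h1, h2⟩ := NF_cycProd hc.comm (fun z => fval (lab z)) m
    rw [hpm] at h1 h2
    have h3 := hper m a
    change Function.minimalPeriod σQ (m, a) = _ * orderOf (ρ (cycProd τ w m)) at h3
    set o := orderOf (ρ (cycProd τ w m)) with ho
    have hopos : 0 < o := orderOf_pos _
    rw [h3, h1, mul_assoc, Nat.mul_div_cancel_left _ (NF_period_pos σ x)]
    refine le_trans ?_ (Nat.mul_le_mul_right _ (hB x hx))
    by_contra hcon
    push Not at hcon
    refine hρ ((n x).natAbs * (d' * o)) ?_ hcon.le ?_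
    · exact Nat.mul_pos (Int.natAbs_pos.2 (hn x hx).1) (Nat.mul_pos hd' hopos)
    · rw [pow_mul]
      have h4 : (ρ z ^ n x) ^ (d' * o) = 1 := by
        rw [← map_zpow, ← (hn x hx).2, pow_mul, ← map_pow, ← h2]
        exact pow_orderOf_eq_one _
      rcases Int.natAbs_eq (n x) with h5 | h5
      · rw [h5, zpow_natCast] at h4
        exact h4
      · rw [h5, zpow_neg, zpow_natCast, inv_pow, inv_eq_one] at h4
        exact h4
  -- the product
  have hprod : ((X.flatMap Yf).map (cycProd σQ fun e => fval (lab (P e)))).prod = 1 := by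
    rw [NF_prod_zpow z (fun y => n (P y) *
      ((Function.minimalPeriod σQ y / Function.minimalPeriod σ (P y) : ℕ) : ℤ))]
    · rw [NF_sum_flatMap X Yf _ n ((Nat.card Q * n₀ : ℕ) : ℤ), hsum, zero_mul, zpow_zero]
      intro x hx
      have e1 : (Yf x).map (fun y => n (P y) *
          ((Function.minimalPeriod σQ y / Function.minimalPeriod σ (P y) : ℕ) : ℤ)) =
          (Yf x).map (fun y => n x *
          ((Function.minimalPeriod σQ y / Function.minimalPeriod σ x : ℕ) : ℤ)) := by
        refine List.map_congr_left fun y hy => ?_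
        rw [hY1 x y hy]
      rw [e1, List.sum_map_mul_left, ← hcP.fib x, ← hY4 x, Nat.cast_list_sum, List.map_map]
      rfl
    · intro y hy
      obtain ⟨x, hx, hyx⟩ := List.mem_flatMap.1 hy
      obtain ⟨d, hd, h1, h2⟩ := NF_cycProd hcomm (fun z => fval (lab z)) y
      rw [h2, h1, Nat.mul_div_cancel_left _ (NF_period_pos σ _), hY1 x y hyx, (hn x hx).2,
        zpow_mul, zpow_natCast]
  -- the number of cycles
  have hlen : J * (X.flatMap Yf).length ≤ B * (Nat.card Q * n₀) * X.length := by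
    refine NF_length_flatMap X Yf J _ fun x hx => ?_
    rw [← hcP.fib x, ← hY4 x]
    exact NF_length_le _ _ _ _ (hdeg x hx)
  -- removal
  have hpathQ : IsPath t σQ (fun e => lab (P e)) := by
    intro e
    have h1 := hp (P e)
    rw [← hcomm] at h1
    exact h1
  have htail : ∀ y ∈ X.flatMap Yf, tl t (lab (P y)) = ω := by
    intro y hy
    obtain ⟨x, hx, hyx⟩ := List.mem_flatMap.1 hy
    rw [hY1 x y hyx]
    exact hω x hx
  have hsub : ∀ e, (∀ y ∈ X.flatMap Yf, ¬ σQ.SameCycle y (σQ e)) ↔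
      (∀ y ∈ X.flatMap Yf, ¬ σQ.SameCycle y e) := by
    intro e
    refine forall_congr' fun y => forall_congr' fun _ => ?_
    rw [Perm.sameCycle_apply_right]
  obtain ⟨σC, hσC⟩ : ∃ σC : Perm {e // ∀ y ∈ X.flatMap Yf, ¬ σQ.SameCycle y e},
      ∀ e, ((σC e : {e // ∀ y ∈ X.flatMap Yf, ¬ σQ.SameCycle y e}) : M × Q) = σQ e :=
    ⟨σQ.subtypePerm hsub, fun e => rfl⟩
  obtain ⟨π'', hπ'', hE''⟩ := null_cycles_remove t σQ (fun e => lab (P e))
    hpathQ (X.flatMap Yf) hYpair ω htail hprod σC hσC q πQ hπQ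
  have hQpos : 0 < Nat.card Q := Nat.card_pos
  refine ⟨Nat.card Q * n₀, {e // ∀ y ∈ X.flatMap Yf, ¬ σQ.SameCycle y e}, inferInstance,
    fun e => ⟨P e.1, (hYX e.1).1 e.2⟩, σC, π'', Nat.mul_pos hQpos hn₀, ⟨?_, ?_⟩, hπ'', ?_⟩
  · intro e
    apply Subtype.ext
    rw [hσ']
    change P (σC e).1 = σ (P e.1)
    rw [hσC]
    exact hcomm e.1
  · intro y
    rw [← hcP.fib y.1]
    refine Nat.card_congr ?_
    refine ⟨fun e => ⟨e.1.1, congrArg Subtype.val e.2⟩,
      fun e => ⟨⟨e.1, (hYX e.1).2 (by rw [e.2]; exact y.2)⟩, Subtype.ext e.2⟩, ?_, ?_⟩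
    · intro e
      rfl
    · intro e
      rfl
  · have h1 : ((E2 σC π'' : ℤ) : ℝ) ≤
        ((E2 σQ πQ + 2 * ((X.flatMap Yf).length : ℤ) : ℤ) : ℝ) := by
      exact_mod_cast hE''
    refine h1.trans_lt ?_
    rw [hEQ]
    push_cast
    have hJpos : (0 : ℝ) < J := by
      have h2 : (0 : ℝ) ≤ 2 * B * X.length * n₀ := by positivity
      have h3 : 0 < (J : ℝ) * η := lt_of_le_of_lt h2 hJ
      exact (pos_iff_pos_of_mul_pos h3).2 hηpos
    have hlen' : (J : ℝ) * (X.flatMap Yf).length ≤ B * (Nat.card Q * n₀) * X.length := by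
      exact_mod_cast hlen
    have hQ' : (0 : ℝ) < Nat.card Q := by exact_mod_cast hQpos
    have h4 : 2 * ((X.flatMap Yf).length : ℝ) < Nat.card Q * η := by
      have h5 : (J : ℝ) * (2 * ((X.flatMap Yf).length : ℝ)) < J * (Nat.card Q * η) := by
        calc (J : ℝ) * (2 * ((X.flatMap Yf).length : ℝ))
            = 2 * (J * (X.flatMap Yf).length) := by ring
          _ ≤ 2 * (B * (Nat.card Q * n₀) * X.length) := by linarith
          _ = Nat.card Q * (2 * B * X.length * n₀) := by ring
          _ < Nat.card Q * (J * η) := by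
            exact mul_lt_mul_of_pos_left hJ hQ'
          _ = J * (Nat.card Q * η) := by ring
      exact lt_of_mul_lt_mul_left h5 hJpos.le
    rw [hη] at h4
    have h6 : (Nat.card Q : ℝ) * (n₀ * r - ((E2 τ π : ℤ) : ℝ)) =
      Nat.card Q * n₀ * r - Nat.card Q * ((E2 τ π : ℤ) : ℝ) := by ring
    rw [h6] at h4
    linarith

theorem fill_insert_null {Ω L : Type} [Finite L] (t : Fin 2 → Perm Ω) (σ : Perm L)
    (lab : L → (Ω × Fin 2) × Bool) (hp : IsPath t σ lab) (X : List L)
    (hX : X.Pairwise fun x y => ¬ σ.SameCycle x y) (ω : Ω) (hω : ∀ x ∈ X, tl t (lab x) = ω)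
    (z : FreeGroup (Fin 2)) (hz : z ≠ 1) (n : L → ℤ)
    (hn : ∀ x ∈ X, n x ≠ 0 ∧ cycProd σ (fun y => fval (lab y)) x = z ^ n x)
    (hsum : (X.map n).sum = 0)
    (σ' : Perm {z : L // ∀ x ∈ X, ¬ σ.SameCycle x z})
    (hσ' : ∀ z, ((σ' z : {z : L // ∀ x ∈ X, ¬ σ.SameCycle x z}) : L) = σ z)
    (r : ℝ) (h : FillLt σ' (fun y : {z : L // ∀ x ∈ X, ¬ σ.SameCycle x z} => lab y) r) :
    FillLt σ lab r := by
  classical
  obtain ⟨n₀, M, hM, p, τ, π, hn₀, hc, hπ, hE⟩ := h
  set η : ℝ := n₀ * r - (E2 τ π : ℤ) with hη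
  have hηpos : 0 < η := by rw [hη]; linarith
  obtain ⟨k, hk⟩ := exists_nat_gt ((2 * X.length : ℝ) / η)
  rw [div_lt_iff₀ hηpos] at hk
  have hkpos : 0 < k := by
    rcases Nat.eq_zero_or_pos k with h0 | h0
    · subst h0
      have : (0 : ℝ) ≤ 2 * X.length := by positivity
      simp only [Nat.cast_zero, zero_mul] at hk
      linarith
    · exact h0
  have hmpos : 0 < n₀ * k := Nat.mul_pos hn₀ hkpos
  obtain ⟨m, hm⟩ : ∃ m, m = n₀ * k := ⟨_, rfl⟩
  have hmne : NeZero m := ⟨by omega⟩
  -- the part over X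
  have hAsub : ∀ z, (¬ ∀ x ∈ X, ¬ σ.SameCycle x (σ z)) ↔ (¬ ∀ x ∈ X, ¬ σ.SameCycle x z) := by
    intro z
    refine not_congr (forall_congr' fun y => forall_congr' fun _ => ?_)
    rw [Perm.sameCycle_apply_right]
  let A : Type := {z : L // ¬ ∀ x ∈ X, ¬ σ.SameCycle x z}
  let s : A → ZMod m := fun z => if σ z.1 ∈ X then 1 else 0
  let σA : Perm A := σ.subtypePerm hAsub
  let α : Perm (A × ZMod m) := Equiv.prodShear σA (fun z => Equiv.addRight (s z))
  have hα : ∀ (a : A) (i : ZMod m), α (a, i) = (σA a, i + s a) := fun a i => rfl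
  have hσA : ∀ a : A, (σA a).1 = σ a.1 := fun a => rfl
  have hself : ∀ x ∈ X, ¬ ∀ x' ∈ X, ¬ σ.SameCycle x' x := fun x hx h =>
    h x hx (Perm.SameCycle.refl _ _)
  have hXeq : ∀ x ∈ X, ∀ x' ∈ X, σ.SameCycle x x' → x = x' := by
    intro x hx x' hx' hs
    by_contra hne
    have : Std.Symm (fun x y => ¬ σ.SameCycle x y) := ⟨fun a b h h' => h h'.symm⟩
    exact List.Pairwise.forall hX hx hx' hne hs
  have hαj : ∀ x ∈ X, ∀ (a : A), a.1 = x → ∀ j, j < Function.minimalPeriod σ x →
      ∀ i : ZMod m, (((α ^ j) (a, i)).1.1 = (σ ^ j) x ∧ ((α ^ j) (a, i)).2 = i) := by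
    intro x hx a ha j
    induction j with
    | zero => intro _ i; exact ⟨ha, rfl⟩
    | succ j ih =>
      intro hj i
      obtain ⟨h1, h2⟩ := ih (by omega) i
      rw [pow_succ', Perm.mul_apply]
      obtain ⟨b, hb⟩ : ∃ b, (α ^ j) (a, i) = b := ⟨_, rfl⟩
      rw [hb] at h1 h2 ⊢
      obtain ⟨b1, b2⟩ := b
      simp only at h1 h2
      rw [hα]
      have h3 : σ b1.1 = (σ ^ (j + 1)) x := by
        rw [h1, pow_succ', Perm.mul_apply]
      have h4 : s b1 = 0 := by
        have : σ b1.1 ∉ X := by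
          intro hmem
          rw [h3] at hmem
          have h5 := hXeq x hx _ hmem
            ((Perm.sameCycle_pow_right (n := j + 1)).2 (Perm.SameCycle.refl _ _))
          have h6 := (NF_period_pow σ x (j + 1)).1 h5.symm
          have := Nat.le_of_dvd (by omega) h6
          omega
        simp only [s, if_neg this]
      refine ⟨?_, ?_⟩
      · simp only
        rw [hσA, h3]
      · simp only
        rw [h2, h4, add_zero]
  have hαc : ∀ x ∈ X, ∀ (a : A), a.1 = x → ∀ i : ZMod m,
      (α ^ (Function.minimalPeriod σ x)) (a, i) = (a, i + 1) := by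
    intro x hx a ha i
    have hpos := NF_period_pos σ x
    obtain ⟨c', hc'⟩ : ∃ c', Function.minimalPeriod σ x = c' + 1 := ⟨_, (Nat.succ_pred_eq_of_pos hpos).symm⟩
    obtain ⟨h1, h2⟩ := hαj x hx a ha c' (by omega) i
    rw [hc', pow_succ', Perm.mul_apply]
    obtain ⟨b, hb⟩ : ∃ b, (α ^ c') (a, i) = b := ⟨_, rfl⟩
    rw [hb] at h1 h2 ⊢
    obtain ⟨b1, b2⟩ := b
    simp only at h1 h2
    rw [hα]
    have h3 : σ b1.1 = x := by
      rw [h1, ← Perm.mul_apply, ← pow_succ', ← hc']
      exact (NF_period_pow σ x _).2 dvd_rfl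
    have h4 : s b1 = 1 := by
      simp only [s, h3, if_pos hx]
    rw [h2, h4]
    congr 1
    apply Subtype.ext
    rw [hσA, h3, ha]
  have hαcj : ∀ x ∈ X, ∀ (a : A), a.1 = x → ∀ (j : ℕ) (i : ZMod m),
      (α ^ (Function.minimalPeriod σ x * j)) (a, i) = (a, i + j) := by
    intro x hx a ha j
    induction j with
    | zero => intro i; simp
    | succ j ih =>
      intro i
      rw [Nat.mul_succ, pow_add, Perm.mul_apply, hαc x hx a ha, ih]
      congr 1
      push_cast
      ring
  -- the cover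
  let E : Type := (M × Fin k) ⊕ (A × ZMod m)
  let P : E → L := Sum.elim (fun e => (p e.1).1) (fun a => a.1.1)
  let σE : Perm E := Equiv.sumCongr (Equiv.prodCongr τ (Equiv.refl (Fin k))) α
  have hσEr : ∀ a, σE (Sum.inr a) = Sum.inr (α a) := fun a => rfl
  have hσErp : ∀ (j : ℕ) a, (σE ^ j) (Sum.inr a) = Sum.inr ((α ^ j) a) := by
    intro j
    induction j with
    | zero => intro a; rfl
    | succ j ih =>
      intro a
      rw [pow_succ, Perm.mul_apply, hσEr, ih, pow_succ, Perm.mul_apply]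
  have hcomm : ∀ e, P (σE e) = σ (P e) := by
    rintro (⟨u, i⟩ | ⟨a, i⟩)
    · change (p (τ u)).1 = σ (p u).1
      rw [hc.comm, hσ']
    · rfl
  have hfib : ∀ y, Nat.card {e // P e = y} = n₀ * k := by
    intro y
    by_cases hy : ∀ x ∈ X, ¬ σ.SameCycle x y
    · have e : {e // P e = y} ≃ {u // p u = ⟨y, hy⟩} × Fin k := by
        refine ⟨fun e => match e with
          | ⟨Sum.inl (u, i), h⟩ => (⟨u, Subtype.ext h⟩, i)
          | ⟨Sum.inr (a, i), h⟩ => absurd hy (by
              have h1 : a.1 = y := h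
              rw [← h1]; exact a.2),
          fun u => ⟨Sum.inl (u.1.1, u.2), congrArg Subtype.val u.1.2⟩, ?_, ?_⟩
        · rintro ⟨⟨u, i⟩ | ⟨a, i⟩, h⟩
          · rfl
          · exact absurd hy (by
              have h1 : a.1 = y := h
              rw [← h1]; exact a.2)
        · rintro ⟨u, i⟩
          rfl
      rw [Nat.card_congr e, Nat.card_prod, hc.fib, Nat.card_fin]
    · have e : {e // P e = y} ≃ ZMod m := by
        refine ⟨fun e => match e with
          | ⟨Sum.inl (u, i), h⟩ => absurd (p u).2 (by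
              have h1 : (p u).1 = y := h
              rw [h1]; exact hy)
          | ⟨Sum.inr (a, i), h⟩ => i,
          fun i => ⟨Sum.inr (⟨y, hy⟩, i), rfl⟩, ?_, ?_⟩
        · rintro ⟨⟨u, i⟩ | ⟨a, i⟩, h⟩
          · exact absurd (p u).2 (by
              have h1 : (p u).1 = y := h
              rw [h1]; exact hy)
          · have h1 : a.1 = y := h
            apply Subtype.ext
            simp only
            congr 2
            exact Subtype.ext h1.symm
        · intro i
          rfl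
      rw [Nat.card_congr e, Nat.card_zmod, hm]
  -- the cycles over X
  let g : {x // x ∈ X} → E := fun x => Sum.inr (⟨x.1, hself x.1 x.2⟩, 0)
  have hPg : ∀ x, P (g x) = x.1 := fun x => rfl
  have hYmem : ∀ y, y ∈ X.attach.map g ↔ ∃ x, ∃ hx : x ∈ X, g ⟨x, hx⟩ = y := by
    intro y
    rw [List.mem_map]
    constructor
    · rintro ⟨x, _, h⟩
      exact ⟨x.1, x.2, h⟩
    · rintro ⟨x, hx, h⟩
      exact ⟨⟨x, hx⟩, List.mem_attach _ _, h⟩
  have hproj : ∀ e e', σE.SameCycle e e' → σ.SameCycle (P e) (P e') := by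
    intro e e' hs
    obtain ⟨j, hj⟩ := hs.exists_nat_pow_eq
    rw [← hj, NF_pow_comm hcomm]
    exact (Perm.sameCycle_pow_right (n := j)).2 (Perm.SameCycle.refl _ _)
  have hYpair : (X.attach.map g).Pairwise fun y y' => ¬ σE.SameCycle y y' := by
    rw [List.pairwise_map]
    have h1 : (X.attach).Pairwise fun x y => ¬ σ.SameCycle x.1 y.1 := by
      have h2 : (X.attach.map Subtype.val).Pairwise fun x y => ¬ σ.SameCycle x y := by
        rw [List.attach_map_subtype_val]
        exact hX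
      rwa [List.pairwise_map] at h2
    refine h1.imp ?_
    intro x y hxy hs
    exact hxy (hproj _ _ hs)
  have hpathE : IsPath t σE (fun e => lab (P e)) := by
    intro e
    have h1 := hp (P e)
    rw [← hcomm] at h1
    exact h1
  have htail : ∀ y ∈ X.attach.map g, tl t (lab (P y)) = ω := by
    intro y hy
    obtain ⟨x, hx, rfl⟩ := (hYmem y).1 hy
    exact hω x hx
  have hcyc : ∀ y ∈ X.attach.map g,
      cycProd σE (fun e => fval (lab (P e))) y = z ^ (n (P y) * (m : ℤ)) := by
    intro y hy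
    obtain ⟨x, hx, rfl⟩ := (hYmem y).1 hy
    obtain ⟨d, hd, h1, h2⟩ := NF_cycProd hcomm (fun z => fval (lab z)) (g ⟨x, hx⟩)
    rw [hPg] at h1 h2 ⊢
    have h3 : m ∣ d := by
      have h4 : (σE ^ (Function.minimalPeriod σ x * d)) (g ⟨x, hx⟩) = g ⟨x, hx⟩ := by
        rw [NF_period_pow, h1]
      rw [hσErp, hαcj x hx _ rfl] at h4
      have h5 := congrArg Prod.snd (Sum.inr_injective h4)
      simp only [zero_add] at h5
      exact (ZMod.natCast_eq_zero_iff d m).1 h5
    have h6 : d ∣ m := by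
      have h4 : (σE ^ (Function.minimalPeriod σ x * m)) (g ⟨x, hx⟩) = g ⟨x, hx⟩ := by
        rw [hσErp, hαcj x hx _ rfl]
        simp only [ZMod.natCast_self, add_zero]
        rfl
      rw [NF_period_pow, h1] at h4
      exact Nat.dvd_of_mul_dvd_mul_left (NF_period_pos σ x) h4
    rw [h2, (hn x hx).2, Nat.dvd_antisymm h6 h3, zpow_mul, zpow_natCast]
  have hprod : ((X.attach.map g).map (cycProd σE fun e => fval (lab (P e)))).prod = 1 := by
    rw [NF_prod_zpow z (fun y => n (P y) * (m : ℤ)) _ _ hcyc, List.map_map]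
    have h1 : X.attach.map ((fun y => n (P y) * (m : ℤ)) ∘ g) =
        (X.map n).map (fun a => a * (m : ℤ)) := by
      rw [List.map_map]
      conv_rhs => rw [← List.attach_map_subtype_val X, List.map_map]
      rfl
    rw [h1, List.sum_map_mul_right, List.map_id', hsum, zero_mul, zpow_zero]
  -- the complement
  have hin : ∀ u : M × Fin k, ∀ y ∈ X.attach.map g, ¬ σE.SameCycle y (Sum.inl u : E) := by
    intro u y hy hs
    obtain ⟨x, hx, rfl⟩ := (hYmem y).1 hy
    exact (p u.1).2 x hx (hproj _ _ hs)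
  have hnin : ∀ a : A × ZMod m, ∃ y ∈ X.attach.map g, σE.SameCycle y (Sum.inr a : E) := by
    rintro ⟨a, i⟩
    have ha := a.2
    push Not at ha
    obtain ⟨x, hx, hs⟩ := ha
    obtain ⟨j, hj⟩ := hs.exists_nat_pow_eq
    have hpos := NF_period_pos σ x
    have hj' : (σ ^ (j % Function.minimalPeriod σ x)) x = a.1 := by
      rw [← hj]
      conv_rhs => rw [← Nat.mod_add_div j (Function.minimalPeriod σ x), pow_add, Perm.mul_apply]
      rw [(NF_period_pow σ x _).2 (Dvd.intro _ rfl)]
    refine ⟨g ⟨x, hx⟩, (hYmem _).2 ⟨x, hx, rfl⟩, ?_⟩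
    have h1 : (σE ^ (j % Function.minimalPeriod σ x + Function.minimalPeriod σ x * i.val))
        (g ⟨x, hx⟩) = Sum.inr (a, i) := by
      rw [hσErp, pow_add, Perm.mul_apply, hαcj x hx _ rfl]
      obtain ⟨h2, h3⟩ := hαj x hx ⟨x, hself x hx⟩ rfl (j % Function.minimalPeriod σ x)
        (Nat.mod_lt _ hpos) (0 + (i.val : ZMod m))
      congr 1
      refine Prod.ext (Subtype.ext (h2.trans hj')) ?_
      rw [h3]
      simp
    rw [← h1]
    exact (Perm.sameCycle_pow_right (n := _)).2 (Perm.SameCycle.refl _ _)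
  let eC : (M × Fin k) ≃ {e : E // ∀ y ∈ X.attach.map g, ¬ σE.SameCycle y e} :=
    Equiv.ofBijective (fun u => ⟨Sum.inl u, hin u⟩) ⟨fun u u' huu => by
      have := congrArg Subtype.val huu
      exact Sum.inl_injective this, by
      rintro ⟨u | a, h⟩
      · exact ⟨u, rfl⟩
      · obtain ⟨y, hy, hs⟩ := hnin a
        exact absurd hs (h y hy)⟩
  have heC : ∀ u, (eC u).1 = Sum.inl u := fun u => rfl
  let σC := eC.permCongr (Equiv.prodCongr τ (Equiv.refl (Fin k)))
  let πC := eC.permCongr (Equiv.prodCongr π (Equiv.refl (Fin k)))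
  have hσC : ∀ e, ((σC e : {e : E // ∀ y ∈ X.attach.map g, ¬ σE.SameCycle y e}) : E) = σE e := by
    intro e
    obtain ⟨u, rfl⟩ := eC.surjective e
    simp only [σC, Equiv.permCongr_apply, Equiv.symm_apply_apply]
    rw [heC, heC]
    rfl
  have hπC : IsPairing
      (fun e : {e : E // ∀ y ∈ X.attach.map g, ¬ σE.SameCycle y e} => lab (P e)) πC := by
    constructor
    · intro e
      obtain ⟨⟨u, i⟩, rfl⟩ := eC.surjective e
      simp only [πC, Equiv.permCongr_apply, Equiv.symm_apply_apply, Equiv.prodCongr_apply,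
        Prod.map_apply, hπ.invol]
      rfl
    · intro e
      obtain ⟨⟨u, i⟩, rfl⟩ := eC.surjective e
      simp only [πC, Equiv.permCongr_apply, Equiv.symm_apply_apply, Equiv.prodCongr_apply,
        Prod.map_apply]
      exact hπ.lab_inv u
  have hEC : E2 σC πC = k * E2 τ π := by
    have h1 : σC * πC = eC.permCongr (Equiv.prodCongr (τ * π) (Equiv.refl (Fin k))) := by
      ext e
      obtain ⟨⟨u, i⟩, rfl⟩ := eC.surjective e
      simp only [σC, πC, Perm.mul_apply, Equiv.permCongr_apply, Equiv.symm_apply_apply,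
        Equiv.prodCongr_apply, Prod.map_apply]
      rfl
    unfold E2
    rw [h1, ncyc_permCongr, ncyc_prodCongr_refl, ← Nat.card_congr eC, Nat.card_prod, Nat.card_fin]
    push_cast
    ring
  obtain ⟨πE, hπE, hEE⟩ := null_cycles_insert t σE (fun e => lab (P e)) hpathE
    (X.attach.map g) hYpair ω htail hprod σC hσC πC hπC
  refine ⟨n₀ * k, E, inferInstance, P, σE, πE, hmpos, ⟨hcomm, hfib⟩, hπE, ?_⟩
  have h1 : ((E2 σE πE : ℤ) : ℝ) ≤ ((E2 σC πC + 2 * ((X.attach.map g).length : ℤ) : ℤ) : ℝ) := by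
    exact_mod_cast hEE
  refine h1.trans_lt ?_
  rw [hEC, List.length_map, List.length_attach]
  push_cast
  rw [hη] at hk
  have h2 : (k : ℝ) * (n₀ * r - ((E2 τ π : ℤ) : ℝ)) =
    n₀ * k * r - k * ((E2 τ π : ℤ) : ℝ) := by ring
  rw [h2] at hk
  linarith

end NF

end SclIso
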