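import Pool.Agent.H.MP_1b0e60_al.PeelGeom
import Pool.Agent.H.MP_1b0e60_al.NullFill
import Pool.Agent.H.MP_1b0e60_al.CoverCut

/-!
Peeling: the main induction over the levels.
-/

open Equiv Filter Topology

namespace SclIso

/-- the coarse labels -/
abbrev Peel_q (S G : Type) : (S × G) × Fin 2 → G × Fin 2 := fun e => (e.1.2, e.2)

/-- the statement for chains with at most `k` levels -/
def Peel_P {S G : Type} [Group G] (t : Fin 2 → Perm S) (γ : Fin 2 → G) (V : S → Prop)
    (k : ℕ) : Prop :=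
  ∀ (L : Type) [Finite L] (σ : Perm L) (lab : L → ((S × G) × Fin 2) × Bool),
    IsPath (liftAct t γ) σ lab → (∀ x, V (tl (liftAct t γ) (lab x)).1) → (∃ π, IsPairing lab π) →
    (Set.range fun x => (tl (liftAct t γ) (lab x)).2).ncard ≤ k →
    ∀ r : ℝ, FillLt σ (fun x => mapL (Peel_q S G) (lab x)) r → FillLt σ lab r

theorem Peel_mapL_linv {ι κ : Type*} (q : ι → κ) (a : ι × Bool) :
    mapL q (linv a) = linv (mapL q a) := rfl

theorem Peel_linv_snd {ι : Type*} (a : ι × Bool) : (linv a).2 = !a.2 := rfl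

theorem Peel_exists_list {L : Type} [Finite L] (σ : Perm L) (p : L → Prop) :
    ∃ X : List L, (X.Pairwise fun x y => ¬ σ.SameCycle x y) ∧ (∀ x ∈ X, p x) ∧
      ∀ y, p y → ∃ x ∈ X, σ.SameCycle x y := by
  classical
  have := Fintype.ofFinite L
  have key : ∀ s : Finset L, ∃ X : List L, (X.Pairwise fun x y => ¬ σ.SameCycle x y) ∧
      (∀ x ∈ X, x ∈ s) ∧ ∀ y ∈ s, ∃ x ∈ X, σ.SameCycle x y := by
    intro s
    induction s using Finset.induction_on with
    | empty => exact ⟨[], List.Pairwise.nil, by simp, by simp⟩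
    | insert a s ha ih =>
      obtain ⟨X, h1, h2, h3⟩ := ih
      by_cases h : ∃ x ∈ X, σ.SameCycle x a
      · refine ⟨X, h1, fun x hx => Finset.mem_insert_of_mem (h2 x hx), ?_⟩
        intro y hy
        rcases Finset.mem_insert.1 hy with rfl | hy
        · exact h
        · exact h3 y hy
      · refine ⟨a :: X, List.pairwise_cons.2 ⟨fun x hx hs => h ⟨x, hx, hs.symm⟩, h1⟩, ?_, ?_⟩
        · intro x hx
          rcases List.mem_cons.1 hx with rfl | hx
          · exact Finset.mem_insert_self _ _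
          · exact Finset.mem_insert_of_mem (h2 x hx)
        · intro y hy
          rcases Finset.mem_insert.1 hy with rfl | hy
          · exact ⟨y, List.mem_cons_self, Perm.SameCycle.refl _ _⟩
          · obtain ⟨x, hx, hxy⟩ := h3 y hy
            exact ⟨x, List.mem_cons_of_mem _ hx, hxy⟩
  obtain ⟨X, h1, h2, h3⟩ := key (Finset.univ.filter p)
  exact ⟨X, h1, fun x hx => (Finset.mem_filter.1 (h2 x hx)).2,
    fun y hy => h3 y (Finset.mem_filter.2 ⟨Finset.mem_univ _, hy⟩)⟩

/-- balanced chains: a pairing gives equal numbers -/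
theorem Peel_card_eq {ι L : Type*} [Finite L] {lab : L → ι × Bool} {π : Perm L}
    (hπ : IsPairing lab π) (e : ι) :
    Nat.card {x // lab x = (e, true)} = Nat.card {x // lab x = (e, false)} := by
  refine Nat.card_congr ⟨fun x => ⟨π x, ?_⟩, fun x => ⟨π x, ?_⟩, fun x => ?_, fun x => ?_⟩
  · rw [hπ.lab_inv, x.2]
    rfl
  · rw [hπ.lab_inv, x.2]
    rfl
  · exact Subtype.ext (hπ.invol x)
  · exact Subtype.ext (hπ.invol x)

theorem Peel_card_cover {ι L M : Type} [Finite L] [Finite M] {lab : L → ι × Bool} {p : M → L}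
    {n : ℕ} (hfib : ∀ y, Nat.card {x // p x = y} = n) (a : ι × Bool) :
    Nat.card {x // lab (p x) = a} = Nat.card {y // lab y = a} * n := by
  classical
  have := Fintype.ofFinite L
  have e : {x // lab (p x) = a} ≃ Σ y : {y // lab y = a}, {x // p x = (y : L)} :=
    { toFun := fun x => ⟨⟨p x, x.2⟩, ⟨x, rfl⟩⟩
      invFun := fun z => ⟨z.2, by rw [z.2.2]; exact z.1.2⟩
      left_inv := fun x => rfl
      right_inv := fun z => by
        obtain ⟨⟨y, hy⟩, ⟨x, hx⟩⟩ := z
        dsimp only at hx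
        subst hx
        rfl }
  rw [Nat.card_congr e, Nat.card_sigma]
  simp only [hfib, Finset.sum_const, smul_eq_mul, Finset.card_univ, Nat.card_eq_fintype_card]

theorem Peel_cover_pairing {ι L M : Type} [Finite L] [Finite M] {lab : L → ι × Bool} {p : M → L}
    {n : ℕ} (hfib : ∀ y, Nat.card {x // p x = y} = n) (hb : ∃ π, IsPairing lab π) :
    ∃ π, IsPairing (fun x => lab (p x)) π := by
  obtain ⟨π, hπ⟩ := hb
  apply exists_pairing_of_card
  intro e
  rw [Peel_card_cover hfib, Peel_card_cover hfib, Peel_card_eq hπ]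

theorem Peel_prod_zpow {K L : Type*} [Group K] (z : K) (n : L → ℤ) (X : List L) :
    (X.map fun x => z ^ n x).prod = z ^ (X.map n).sum := by
  induction X with
  | nil => simp
  | cons x X ih => simp [ih, zpow_add]

section

variable {S G : Type} [Group G]

/-- at the top level all vertices are equal, so a coarse pairing respects the labels there -/
theorem Peel_top {t : Fin 2 → Perm S} {γ : Fin 2 → G} {M : Type} (τ : Perm M)
    (lab : M → ((S × G) × Fin 2) × Bool) (hp : IsPath (liftAct t γ) τ lab) (g : G) (v₀ : S)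
    (htop : ∀ x, (tl (liftAct t γ) (lab x)).2 = g → tl (liftAct t γ) (lab x) = (v₀, g))
    {x y : M} (hxy : mapL (Peel_q S G) (lab y) = linv (mapL (Peel_q S G) (lab x)))
    (hx : (tl (liftAct t γ) (lab x)).2 = g ∨ (tl (liftAct t γ) (linv (lab x))).2 = g) :
    lab y = linv (lab x) := by
  have htop' : ∀ z, (tl (liftAct t γ) (linv (lab z))).2 = g →
      tl (liftAct t γ) (linv (lab z)) = (v₀, g) := by
    intro z hz
    rw [← hp z] at hz ⊢
    exact htop _ hz
  have hsrc : ∀ z (a : S) (h : G) (s : Fin 2) (b : Bool), lab z = (((a, h), s), b) → h = g →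
      a = v₀ := by
    intro z a h s b hz hh
    cases b with
    | true =>
      have h1 : tl (liftAct t γ) (lab z) = (a, h) := by rw [hz]; rfl
      have h2 := htop z (by rw [h1]; exact hh)
      rw [h1] at h2
      exact congrArg Prod.fst h2
    | false =>
      have h1 : tl (liftAct t γ) (linv (lab z)) = (a, h) := by rw [hz]; rfl
      have h2 := htop' z (by rw [h1]; exact hh)
      rw [h1] at h2
      exact congrArg Prod.fst h2
  have htgt : ∀ z (a : S) (h : G) (s : Fin 2) (b : Bool), lab z = (((a, h), s), b) →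
      h * γ s = g → t s a = v₀ := by
    intro z a h s b hz hh
    cases b with
    | false =>
      have h1 : tl (liftAct t γ) (lab z) = (t s a, h * γ s) := by rw [hz]; rfl
      have h2 := htop z (by rw [h1]; exact hh)
      rw [h1] at h2
      exact congrArg Prod.fst h2
    | true =>
      have h1 : tl (liftAct t γ) (linv (lab z)) = (t s a, h * γ s) := by rw [hz]; rfl
      have h2 := htop' z (by rw [h1]; exact hh)
      rw [h1] at h2
      exact congrArg Prod.fst h2
  obtain ⟨⟨⟨⟨a, h⟩, s⟩, b⟩, hx'⟩ : ∃ l, lab x = l := ⟨_, rfl⟩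
  obtain ⟨⟨⟨⟨a', h'⟩, s'⟩, b'⟩, hy'⟩ : ∃ l, lab y = l := ⟨_, rfl⟩
  rw [hx', hy'] at hxy
  simp only [mapL, linv, Prod.mk.injEq] at hxy
  obtain ⟨⟨rfl, rfl⟩, rfl⟩ := hxy
  have hcase : h' = g ∨ h' * γ s' = g := by
    rw [hx'] at hx
    cases b with
    | true => exact hx
    | false => exact hx.symm
  have haa : a' = a := by
    rcases hcase with hh | hh
    · rw [hsrc x a h' s' b hx' hh, hsrc y a' h' s' (!b) hy' hh]
    · exact (t s').injective ((htgt y a' h' s' (!b) hy' hh).trans (htgt x a h' s' b hx' hh).symm)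
  rw [hx', hy', haa]
  rfl

theorem Peel_claim {t : Fin 2 → Perm S} {γ : Fin 2 → G} {V : S → Prop} {k : ℕ}
    (IH : Peel_P t γ V k) (g : G) (v₀ : S) (Λ : Set G) (hΛ : Λ.Finite)
    (hcard : (Λ \ {g}).ncard ≤ k) (N : ℕ) :
    ∀ (M : Type) [Finite M] (τ : Perm M) (lab : M → ((S × G) × Fin 2) × Bool),
      IsPath (liftAct t γ) τ lab → (∀ x, V (tl (liftAct t γ) (lab x)).1) →
      (∃ π, IsPairing lab π) → (∀ x, (tl (liftAct t γ) (lab x)).2 ∈ Λ) →
      (∀ x, (tl (liftAct t γ) (lab x)).2 = g → tl (liftAct t γ) (lab x) = (v₀, g)) →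
      Nat.card M ≤ N → ∀ π : Perm M, IsPairing (fun x => mapL (Peel_q S G) (lab x)) π →
      ∀ r' : ℝ, ((E2 τ π : ℤ) : ℝ) < r' → FillLt τ lab r' := by
  induction N with
  | zero =>
    intro M _ τ lab hp hV hb hlev htop hN π hπ r' hr'
    have hM : IsEmpty M := by
      rw [← not_nonempty_iff]
      intro hne
      have := Nat.card_pos (α := M)
      omega
    refine IH M τ lab hp hV hb ?_ r' (FillLt.of_pairing hπ hr')
    rw [Set.range_eq_empty, Set.ncard_empty]
    exact Nat.zero_le _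
  | succ N ih =>
    intro M _ τ lab hp hV hb hlev htop hN π hπ r' hr'
    classical
    by_cases hex : ∃ x, (tl (liftAct t γ) (lab x)).2 = g ∨
        (tl (liftAct t γ) (linv (lab x))).2 = g
    · obtain ⟨x, hx⟩ := hex
      have hlab : lab (π x) = linv (lab x) := Peel_top τ lab hp g v₀ htop (hπ.lab_inv x) hx
      have hxy : x ≠ π x := by
        intro e
        have h1 := congrArg Prod.snd hlab
        rw [← e, Peel_linv_snd] at h1
        simp at h1
      obtain ⟨σ', hσ'⟩ := exists_cut τ hxy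
      obtain ⟨π', hπ', -, hE⟩ := cut_restrict τ hxy _ σ' hσ' π hπ rfl
      obtain ⟨π₁, hπ₁⟩ := hb
      obtain ⟨π₂, hπ₂, -⟩ := cut_merge τ hxy lab hlab σ' hσ' π₁ hπ₁
      have hp' := cut_isPath (liftAct t γ) τ hxy lab hlab σ' hσ' hp
      have hcM : Nat.card {z : M // z ≠ x ∧ z ≠ π x} < Nat.card M :=
        Finite.card_subtype_lt (p := fun z => z ≠ x ∧ z ≠ π x) (x := x) (fun h => h.1 rfl)
      refine fill_of_cut τ hxy lab hlab σ' hσ' r' ?_
      refine ih {z : M // z ≠ x ∧ z ≠ π x} σ' (fun z => lab z) hp' (fun z => hV z) ⟨π₂, hπ₂⟩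
        (fun z => hlev z) (fun z => htop z) (by omega) π' hπ' _ ?_
      rw [hE]
      push_cast
      linarith
    · refine IH M τ lab hp hV hb ?_ r' (FillLt.of_pairing hπ hr')
      refine (Set.ncard_le_ncard ?_ (hΛ.subset Set.sdiff_subset)).trans hcard
      rintro _ ⟨x, rfl⟩
      exact ⟨hlev x, fun h => hex ⟨x, Or.inl h⟩⟩

end

/-- the induction step -/
theorem Peel_step {S G C : Type} [Group G] [LinearOrder G] [MulLeftStrictMono G]
    (t : Fin 2 → Perm S) (γ : Fin 2 → G) (hγ : ∀ s, γ s ≠ 1) (V : S → Prop) (comp : S × G → C)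
    (hcomp : ∀ v g s, comp (t s v, g * γ s) = comp (v, g))
    (hsep : ∀ v v' g, V v → V v' → comp (v, g) = comp (v', g) → v = v')
    (hK : ∀ g v v', V v → V v' → Good t γ V g v → Good t γ V g v' → v = v')
    {k : ℕ} (IH : Peel_P t γ V k) (N : ℕ) :
    ∀ (L : Type) [Finite L] (σ : Perm L) (lab : L → ((S × G) × Fin 2) × Bool),
    IsPath (liftAct t γ) σ lab → (∀ x, V (tl (liftAct t γ) (lab x)).1) → (∃ π, IsPairing lab π) →
    (Set.range fun x => (tl (liftAct t γ) (lab x)).2).ncard ≤ k + 1 → Nat.card L ≤ N →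
    ∀ r : ℝ, FillLt σ (fun x => mapL (Peel_q S G) (lab x)) r → FillLt σ lab r := by
  induction N with
  | zero =>
    intro L _ σ lab hp hV hb hk hN r h
    have hL : IsEmpty L := by
      rw [← not_nonempty_iff]
      intro hne
      have := Nat.card_pos (α := L)
      omega
    exact (FillLt.of_isEmpty σ lab).2 ((FillLt.of_isEmpty σ _).1 h)
  | succ N ihN =>
    intro L _ σ lab hp hV hb hk hN r h
    classical
    rcases isEmpty_or_nonempty L with hL | hL
    · exact (FillLt.of_isEmpty σ lab).2 ((FillLt.of_isEmpty σ _).1 h)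
    -- the levels
    have hfin : (Set.range fun x => (tl (liftAct t γ) (lab x)).2).Finite := Set.finite_range _
    obtain ⟨x₀, hx₀⟩ := Finite.exists_max (fun x => (tl (liftAct t γ) (lab x)).2)
    -- Case 1: not reduced
    by_cases hred : ∃ x, lab (σ x) = linv (lab x)
    · obtain ⟨x, hx⟩ := hred
      have hxy : x ≠ σ x := by
        intro e
        have h1 := congrArg Prod.snd hx
        rw [← e, Peel_linv_snd] at h1
        simp at h1
      obtain ⟨σ', hσ'⟩ := exists_cut σ hxy
      have hp' := cut_isPath (liftAct t γ) σ hxy lab hx σ' hσ' hp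
      obtain ⟨π, hπ⟩ := hb
      obtain ⟨π', hπ', -⟩ := cut_adj σ hxy rfl lab hx σ' hσ' π hπ
      have h1 := fill_cut_adj σ hxy rfl (fun x => mapL (Peel_q S G) (lab x))
        (by rw [← Peel_mapL_linv]; exact congrArg _ hx) σ' hσ' r h
      have hcL : Nat.card {z : L // z ≠ x ∧ z ≠ σ x} < Nat.card L :=
        Finite.card_subtype_lt (p := fun z => z ≠ x ∧ z ≠ σ x) (x := x) (fun h => h.1 rfl)
      have hk' : (Set.range fun z : {z : L // z ≠ x ∧ z ≠ σ x} =>
          (tl (liftAct t γ) (lab z)).2).ncard ≤ k + 1 := by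
        refine (Set.ncard_le_ncard ?_ hfin).trans hk
        rintro _ ⟨z, rfl⟩
        exact ⟨z, rfl⟩
      have h2 := ihN {z : L // z ≠ x ∧ z ≠ σ x} σ' (fun z => lab z) hp' (fun z => hV z)
        ⟨π', hπ'⟩ hk' (by omega) _ h1
      refine fill_of_cut σ hxy lab hx σ' hσ' r ?_
      have h3 : (c0 σ x (σ x) : ℝ) = (if σ (σ x) = x then 1 else 0) + 1 := by
        unfold c0
        have h4 : ¬ (σ x = x ∧ σ (σ x) = σ x) := fun h => hxy h.1.symm
        rw [if_pos rfl, if_neg h4]
        push_cast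
        ring
      have h5 : r - 2 + 2 * (c0 σ x (σ x) : ℝ) = r + 2 * (if σ (σ x) = x then 1 else 0) := by
        rw [h3]
        ring
      rw [h5]
      exact_mod_cast h2
    push Not at hred
    -- the top level
    obtain ⟨g, hg⟩ : ∃ g, g = (tl (liftAct t γ) (lab x₀)).2 := ⟨_, rfl⟩
    have hle : ∀ x, (tl (liftAct t γ) (lab x)).2 ≤ g := fun x => by
      rw [hg]
      exact hx₀ x
    -- Case 2: a vertex which is not good
    by_cases hc2 : ∃ x, (tl (liftAct t γ) (lab x)).2 = g ∧
        ¬ Good t γ V g (tl (liftAct t γ) (lab x)).1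
    · obtain ⟨x₁, hx₁, hng⟩ := hc2
      obtain ⟨v, hv⟩ : ∃ v, v = (tl (liftAct t γ) (lab x₁)).1 := ⟨_, rfl⟩
      rw [← hv] at hng
      have hx₁' : tl (liftAct t γ) (lab x₁) = (v, g) := Prod.ext hv.symm hx₁
      obtain ⟨z, n, hz, hn, hsum⟩ := peel_geom t γ hγ V comp hcomp hsep σ lab hp hV hb hred g hle v
        (by rw [hv]; exact hV x₁) hng
      obtain ⟨X, hX1, hX2, hX3⟩ := Peel_exists_list σ (fun x => tl (liftAct t γ) (lab x) = (v, g))
      have hs := hsum X hX1 hX2 hX3
      have hσ' : ∀ z, (∀ x ∈ X, ¬ σ.SameCycle x (σ z)) ↔ (∀ x ∈ X, ¬ σ.SameCycle x z) := by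
        intro z
        simp only [Perm.sameCycle_apply_right]
      have e1 : ∀ z, ((σ.subtypePerm hσ' z : {z : L // ∀ x ∈ X, ¬ σ.SameCycle x z}) : L) = σ z :=
        fun z => rfl
      have h1 := fill_remove_null (liftAct t γ) σ lab hp X hX1 (v, g) hX2 z hz n
        (fun x hx => hn x (hX2 x hx)) hs (σ.subtypePerm hσ') e1 (Peel_q S G)
        (fun e e' he => (congrArg Prod.snd he : (Peel_q S G e).2 = (Peel_q S G e').2)) r h
      obtain ⟨π, hπ⟩ := hb
      have h2 : (X.map (cycProd σ fun y => fval (lab y))).prod = 1 := by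
        have h3 : X.map (cycProd σ fun y => fval (lab y)) = X.map fun x => z ^ n x :=
          List.map_congr_left fun x hx => (hn x (hX2 x hx)).2
        rw [h3, Peel_prod_zpow, hs, zpow_zero]
      obtain ⟨π', hπ', -⟩ := null_cycles_remove (liftAct t γ) σ lab hp X hX1 (v, g) hX2 h2
        (σ.subtypePerm hσ') e1 id π hπ
      obtain ⟨x₂, hx₂, hx₂'⟩ := hX3 x₁ hx₁'
      have hcL : Nat.card {z : L // ∀ x ∈ X, ¬ σ.SameCycle x z} < Nat.card L :=
        Finite.card_subtype_lt (p := fun z => ∀ x ∈ X, ¬ σ.SameCycle x z) (x := x₂)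
          (fun h => h x₂ hx₂ (Perm.SameCycle.refl _ _))
      have hk' : (Set.range fun z : {z : L // ∀ x ∈ X, ¬ σ.SameCycle x z} =>
          (tl (liftAct t γ) (lab z)).2).ncard ≤ k + 1 := by
        refine (Set.ncard_le_ncard ?_ hfin).trans hk
        rintro _ ⟨z, rfl⟩
        exact ⟨z, rfl⟩
      have h4 := ihN {z : L // ∀ x ∈ X, ¬ σ.SameCycle x z} (σ.subtypePerm hσ') (fun z => lab z)
        (fun z => hp z) (fun z => hV z) ⟨π', hπ'⟩ hk' (by omega) r h1
      exact fill_insert_null (liftAct t γ) σ lab hp X hX1 (v, g) hX2 z hz n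
        (fun x hx => hn x (hX2 x hx)) hs (σ.subtypePerm hσ') e1 r h4
    -- Case 3: only one vertex at the top level
    push Not at hc2
    obtain ⟨v₀, hv₀⟩ : ∃ v, v = (tl (liftAct t γ) (lab x₀)).1 := ⟨_, rfl⟩
    have htop : ∀ x, (tl (liftAct t γ) (lab x)).2 = g → tl (liftAct t γ) (lab x) = (v₀, g) := by
      intro x hx
      refine Prod.ext ?_ hx
      rw [hv₀]
      exact hK g _ _ (hV x) (hV x₀) (hc2 x hx) (hc2 x₀ hg.symm)
    obtain ⟨n, M, hM, p, τ, π, hn, hc, hπ, hE⟩ := h
    refine FillLt.of_cover hn hc ?_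
    refine Peel_claim IH g v₀ (Set.range fun x => (tl (liftAct t γ) (lab x)).2) hfin ?_
      (Nat.card M) M τ (fun x => lab (p x)) ?_ (fun x => hV (p x))
      (Peel_cover_pairing hc.fib hb) (fun x => ⟨p x, rfl⟩) (fun x => htop (p x)) le_rfl π hπ _ hE
    · have hmem : g ∈ Set.range fun x => (tl (liftAct t γ) (lab x)).2 := ⟨x₀, hg.symm⟩
      rw [Set.ncard_sdiff_singleton_of_mem hmem]
      omega
    · intro x
      change tl (liftAct t γ) (lab (p (τ x))) = tl (liftAct t γ) (linv (lab (p x)))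
      rw [hc.comm x]
      exact hp (p x)

theorem peel {S G C : Type} [Group G] [LinearOrder G] [MulLeftStrictMono G]
    (t : Fin 2 → Perm S) (γ : Fin 2 → G) (hγ : ∀ s, γ s ≠ 1) (V : S → Prop) (comp : S × G → C)
    (hcomp : ∀ v g s, comp (t s v, g * γ s) = comp (v, g))
    (hsep : ∀ v v' g, V v → V v' → comp (v, g) = comp (v', g) → v = v')
    (hK : ∀ g v v', V v → V v' → Good t γ V g v → Good t γ V g v' → v = v')
    {L : Type} [Finite L] (σ : Perm L) (lab : L → ((S × G) × Fin 2) × Bool)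
    (hp : IsPath (liftAct t γ) σ lab) (hV : ∀ x, V (tl (liftAct t γ) (lab x)).1)
    (hb : ∃ π, IsPairing lab π) (r : ℝ)
    (h : FillLt σ (fun x => mapL (fun e => (e.1.2, e.2)) (lab x)) r) : FillLt σ lab r := by
  have key : ∀ k, Peel_P t γ V k := by
    intro k
    induction k with
    | zero =>
      intro L _ σ lab hp hV hb hk r h
      have hL : IsEmpty L := by
        rw [← not_nonempty_iff]
        rintro ⟨x⟩
        have h1 := (Set.ncard_pos (Set.finite_range fun x => (tl (liftAct t γ) (lab x)).2)).2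
          ⟨_, ⟨x, rfl⟩⟩
        omega
      exact (FillLt.of_isEmpty σ lab).2 ((FillLt.of_isEmpty σ _).1 h)
    | succ k ih =>
      intro L _ σ lab hp hV hb hk r h
      exact Peel_step t γ hγ V comp hcomp hsep hK ih (Nat.card L) L σ lab hp hV hb hk le_rfl r h
  exact key _ L σ lab hp hV hb le_rfl r h

end SclIso
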