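import Pool.Agent.H.MP_1b0e60_al.Defs

/-!
The top level of a chain: the loops through a vertex which is not good are powers of one loop.
-/

open Equiv Filter Topology

namespace SclIso

section PeelGeomAux

variable {Ω : Type*} (T : Fin 2 → Perm Ω)

/-- letter of an oriented edge -/
private def ltr (a : (Ω × Fin 2) × Bool) : Fin 2 × Bool := (a.1.2, a.2)

private lemma linv_linv' {ι : Type*} (a : ι × Bool) : linv (linv a) = a := by
  simp [linv]

private lemma ltr_linv (a : (Ω × Fin 2) × Bool) : ltr (linv a) = linv (ltr a) := rfl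

private lemma step_ltr (a : (Ω × Fin 2) × Bool) : step T (ltr a) (tl T a) = tl T (linv a) := by
  obtain ⟨⟨y, s⟩, b⟩ := a
  cases b <;> simp [ltr, step, tl, linv]

private lemma step_linv (l : Fin 2 × Bool) (x : Ω) : step T (linv l) (step T l x) = x := by
  obtain ⟨s, b⟩ := l
  cases b <;> simp [step, linv]

private lemma eq_of_tl_ltr {a b : (Ω × Fin 2) × Bool} (h1 : tl T a = tl T b)
    (h2 : ltr a = ltr b) : a = b := by
  obtain ⟨⟨y, s⟩, β⟩ := a
  obtain ⟨⟨y', s'⟩, β'⟩ := b
  simp only [ltr, Prod.mk.injEq] at h2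
  obtain ⟨rfl, rfl⟩ := h2
  cases β
  · simp only [tl, Bool.false_eq_true, if_false] at h1
    rw [(T s).injective h1]
  · simp only [tl, if_true] at h1
    rw [h1]

/-- the oriented edge at `p` with letter `l` -/
private def mkE (p : Ω) (l : Fin 2 × Bool) : (Ω × Fin 2) × Bool :=
  if l.2 then ((p, l.1), true) else (((T l.1)⁻¹ p, l.1), false)

private lemma tl_mkE (p : Ω) (l : Fin 2 × Bool) : tl T (mkE T p l) = p := by
  obtain ⟨s, b⟩ := l
  cases b <;> simp [mkE, tl]

private lemma ltr_mkE (p : Ω) (l : Fin 2 × Bool) : ltr (mkE T p l) = l := by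
  obtain ⟨s, b⟩ := l
  cases b <;> simp [mkE, ltr]

/-- subword -/
private def seg (l : ℕ → Fin 2 × Bool) (i n : ℕ) : List (Fin 2 × Bool) :=
  (List.range n).map (fun k => l (i + k))

private lemma seg_zero (l : ℕ → Fin 2 × Bool) (i : ℕ) : seg l i 0 = [] := rfl

private lemma seg_succ (l : ℕ → Fin 2 × Bool) (i n : ℕ) :
    seg l i (n + 1) = l i :: seg l (i + 1) n := by
  unfold seg
  rw [List.range_succ_eq_map, List.map_cons, List.map_map]
  congr 1
  apply List.map_congr_left
  intro k _
  simp only [Function.comp, Nat.succ_eq_add_one]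
  congr 1
  omega

private lemma seg_succ' (l : ℕ → Fin 2 × Bool) (i n : ℕ) :
    seg l i (n + 1) = seg l i n ++ [l (i + n)] := by
  unfold seg
  rw [List.range_succ, List.map_append]
  rfl

private lemma red_letter {l l' : Fin 2 × Bool} (h : l' ≠ linv l) : l.1 = l'.1 → l.2 = l'.2 := by
  intro h1
  by_contra h2
  apply h
  obtain ⟨s, b⟩ := l
  obtain ⟨s', b'⟩ := l'
  simp only at h1 h2
  subst h1
  simp only [linv, Prod.mk.injEq, true_and]
  cases b <;> cases b' <;> simp_all

private lemma seg_reduced {l : ℕ → Fin 2 × Bool} (hl : ∀ i, l (i + 1) ≠ linv (l i)) (n : ℕ) :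
    ∀ i, FreeGroup.IsReduced (seg l i n) := by
  induction n with
  | zero => intro i; exact FreeGroup.IsReduced.nil
  | succ n ih =>
    intro i
    rw [seg_succ]
    cases n with
    | zero => exact FreeGroup.IsReduced.singleton
    | succ n =>
      have h := ih (i + 1)
      rw [seg_succ] at h ⊢
      exact FreeGroup.isReduced_cons_cons.2 ⟨red_letter (hl i), h⟩

private lemma seg_ne_one {l : ℕ → Fin 2 × Bool} (hl : ∀ i, l (i + 1) ≠ linv (l i)) {n i : ℕ}
    (h : FreeGroup.mk (seg l i n) = 1) : n = 0 := by
  have h1 := congrArg FreeGroup.toWord h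
  rw [FreeGroup.toWord_mk, FreeGroup.toWord_one, (seg_reduced hl n i).reduce_eq] at h1
  have h2 := congrArg List.length h1
  simpa [seg] using h2

private lemma walk_cons (a : Fin 2 × Bool) (w : List (Fin 2 × Bool)) (x : Ω) :
    walk T (a :: w) x = walk T w (step T a x) := rfl

private lemma walk_append (w w' : List (Fin 2 × Bool)) (x : Ω) :
    walk T (w ++ w') x = walk T w' (walk T w x) := by
  unfold walk
  rw [List.foldl_append]

private lemma stays_append {D : Ω → Prop} (w w' : List (Fin 2 × Bool)) (x : Ω)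
    (h : Stays T D w x) (h' : Stays T D w' (walk T w x)) : Stays T D (w ++ w') x := by
  induction w generalizing x with
  | nil => exact h'
  | cons a w ih => exact ⟨h.1, ih _ h.2 h'⟩

private lemma stays_end {D : Ω → Prop} (w : List (Fin 2 × Bool)) (x : Ω)
    (h : Stays T D w x) : D (walk T w x) := by
  induction w generalizing x with
  | nil => exact h
  | cons a w ih => exact ih _ h.2

private lemma stays_start {D : Ω → Prop} (w : List (Fin 2 × Bool)) (x : Ω)
    (h : Stays T D w x) : D x := by
  cases w with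
  | nil => exact h
  | cons a w => exact h.1

private lemma invRev_cons' (a : Fin 2 × Bool) (w : List (Fin 2 × Bool)) :
    FreeGroup.invRev (a :: w) = FreeGroup.invRev w ++ [linv a] := by
  simp [FreeGroup.invRev, linv]

private lemma walk_invRev (w : List (Fin 2 × Bool)) (x : Ω) :
    walk T (FreeGroup.invRev w) (walk T w x) = x := by
  induction w generalizing x with
  | nil => rfl
  | cons a w ih =>
    rw [invRev_cons', walk_append, walk_cons T a w x, ih]
    exact step_linv T a x

private lemma stays_invRev {D : Ω → Prop} (w : List (Fin 2 × Bool)) (x : Ω)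
    (h : Stays T D w x) : Stays T D (FreeGroup.invRev w) (walk T w x) := by
  induction w generalizing x with
  | nil => exact h
  | cons a w ih =>
    rw [invRev_cons', walk_cons]
    refine stays_append T _ _ _ (ih _ h.2) ?_
    rw [walk_invRev]
    refine ⟨stays_start T w _ h.2, ?_⟩
    rw [step_linv]
    exact h.1

private lemma walk_seg {l : ℕ → Fin 2 × Bool} {p : ℕ → Ω}
    (hs : ∀ i, p (i + 1) = step T (l i) (p i)) (n : ℕ) :
    ∀ i, walk T (seg l i n) (p i) = p (i + n) := by
  induction n with
  | zero => intro i; rfl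
  | succ n ih =>
    intro i
    rw [seg_succ, walk_cons, ← hs, ih]
    congr 1
    omega

private lemma stays_seg {D : Ω → Prop} {l : ℕ → Fin 2 × Bool} {p : ℕ → Ω}
    (hs : ∀ i, p (i + 1) = step T (l i) (p i)) (n : ℕ) :
    ∀ i, (∀ k, k ≤ n → D (p (i + k))) → Stays T D (seg l i n) (p i) := by
  induction n with
  | zero => intro i h; exact h 0 le_rfl
  | succ n ih =>
    intro i h
    rw [seg_succ]
    refine ⟨h 0 (Nat.zero_le _), ?_⟩
    rw [← hs]
    apply ih
    intro k hk
    have := h (k + 1) (by omega)
    rwa [show i + (k + 1) = i + 1 + k by omega] at this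

/-- connected inside `D` -/
private def Conn (D : Ω → Prop) (q y : Ω) : Prop := ∃ w, Stays T D w q ∧ walk T w q = y

private lemma Conn.symm' {D : Ω → Prop} {q y : Ω} (h : Conn T D q y) : Conn T D y q := by
  obtain ⟨w, hw, rfl⟩ := h
  exact ⟨FreeGroup.invRev w, stays_invRev T w q hw, walk_invRev T w q⟩

private lemma Conn.mem {D : Ω → Prop} {q y : Ω} (h : Conn T D q y) : D y := by
  obtain ⟨w, hw, rfl⟩ := h
  exact stays_end T w q hw

private lemma dead_unique {D : Ω → Prop} {q : Ω} (hd : ¬ Alive T D q)
    {w w' : List (Fin 2 × Bool)} (hw : Stays T D w q) (hw' : Stays T D w' q)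
    (h : walk T w q = walk T w' q) : FreeGroup.mk w = FreeGroup.mk w' := by
  by_contra hne
  apply hd
  refine ⟨w ++ FreeGroup.invRev w', ?_, ?_, ?_⟩
  · refine stays_append T _ _ _ hw ?_
    rw [h]
    exact stays_invRev T w' q hw'
  · rw [walk_append, h]
    exact walk_invRev T w' q
  · rw [← FreeGroup.mul_mk, ← FreeGroup.inv_mk]
    intro h1
    exact hne (mul_inv_eq_one.1 h1)

open Classical in
/-- potential -/
private noncomputable def cval (D : Ω → Prop) (q : Ω) (f : FreeGroup (Fin 2)) (y : Ω) :
    FreeGroup (Fin 2) :=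
  if h : Conn T D q y then f * FreeGroup.mk (Classical.choose h) else 1

private lemma cval_eq {D : Ω → Prop} {q : Ω} (hd : ¬ Alive T D q) (f : FreeGroup (Fin 2))
    {w : List (Fin 2 × Bool)} (hw : Stays T D w q) :
    cval T D q f (walk T w q) = f * FreeGroup.mk w := by
  have h : Conn T D q (walk T w q) := ⟨w, hw, rfl⟩
  unfold cval
  rw [dif_pos h]
  congr 1
  exact dead_unique T hd (Classical.choose_spec h).1 hw (Classical.choose_spec h).2

private lemma cval_of_not {D : Ω → Prop} {q : Ω} (f : FreeGroup (Fin 2)) {y : Ω} (hy : ¬ D y) :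
    cval T D q f y = 1 := by
  unfold cval
  rw [dif_neg]
  intro h
  exact hy (Conn.mem T h)

end PeelGeomAux

section PeelGeomSum

variable {L : Type} [Finite L] (σ : Perm L)

private lemma minPer_pos (x : L) : 0 < Function.minimalPeriod σ x := by
  obtain ⟨n, hn, h⟩ := (isOfFinOrder_of_finite σ).exists_pow_eq_one
  apply Function.minimalPeriod_pos_of_mem_periodicPts
  refine ⟨n, hn, ?_⟩
  show (σ : L → L)^[n] x = x
  rw [Perm.iterate_eq_pow, h]
  rfl

private lemma pow_minPer (x : L) : (σ ^ (Function.minimalPeriod σ x)) x = x := by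
  have := Function.iterate_minimalPeriod (f := σ) (x := x)
  rwa [Perm.iterate_eq_pow] at this

open Classical in
private lemma sum_cycle [Fintype L] (f : L → ℤ) (x : L) :
    ∑ k ∈ Finset.range (Function.minimalPeriod σ x), f ((σ ^ k) x)
      = ∑ y, if σ.SameCycle x y then f y else 0 := by
  rw [← Finset.sum_filter]
  have hinj : Set.InjOn (fun k => (σ ^ k) x) (Finset.range (Function.minimalPeriod σ x)) := by
    intro i hi j hj h
    have := Function.iterate_injOn_Iio_minimalPeriod (f := σ) (x := x)
    simp only [Finset.coe_range] at hi hj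
    apply this hi hj
    simp only [Perm.iterate_eq_pow]
    exact h
  rw [← Finset.sum_image (f := f) hinj]
  apply Finset.sum_congr _ (fun _ _ => rfl)
  ext y
  simp only [Finset.mem_image, Finset.mem_range, Finset.mem_filter, Finset.mem_univ, true_and]
  constructor
  · rintro ⟨k, _, rfl⟩
    exact ⟨k, by simp⟩
  · intro h
    obtain ⟨i, hi⟩ := h.exists_nat_pow_eq
    refine ⟨i % Function.minimalPeriod σ x, Nat.mod_lt _ (minPer_pos σ x), ?_⟩
    have := Function.iterate_mod_minimalPeriod_eq (f := σ) (x := x) (n := i)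
    rw [Perm.iterate_eq_pow, Perm.iterate_eq_pow, hi] at this
    exact this

open Classical in
private lemma sum_list [Fintype L] (f : L → ℤ) (y : L) (X : List L)
    (hX : X.Pairwise fun x y => ¬ σ.SameCycle x y) :
    (X.map fun x => if σ.SameCycle x y then f y else 0).sum
      = if ∃ x ∈ X, σ.SameCycle x y then f y else 0 := by
  induction X with
  | nil => simp
  | cons a X ih =>
    rw [List.pairwise_cons] at hX
    rw [List.map_cons, List.sum_cons, ih hX.2]
    by_cases ha : σ.SameCycle a y
    · have hno : ¬ ∃ x ∈ X, σ.SameCycle x y := by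
        rintro ⟨x, hx, hxy⟩
        exact hX.1 x hx (ha.trans hxy.symm)
      rw [if_pos ha, if_neg hno, if_pos ⟨a, List.mem_cons_self, ha⟩, add_zero]
    · rw [if_neg ha, zero_add]
      congr 1
      apply propext
      constructor
      · rintro ⟨x, hx, h⟩
        exact ⟨x, List.mem_cons_of_mem _ hx, h⟩
      · rintro ⟨x, hx, h⟩
        rcases List.mem_cons.1 hx with rfl | hx
        · exact absurd h ha
        · exact ⟨x, hx, h⟩

private lemma sum_map_comm {ι κ : Type*} [Fintype κ] (X : List ι) (F : ι → κ → ℤ) :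
    (X.map fun x => ∑ y, F x y).sum = ∑ y, (X.map fun x => F x y).sum := by
  induction X with
  | nil => simp
  | cons a X ih => simp only [List.map_cons, List.sum_cons, ih, Finset.sum_add_distrib]

end PeelGeomSum

theorem peel_geom {S G C : Type} [Group G] [LinearOrder G] [MulLeftStrictMono G]
    (t : Fin 2 → Perm S) (γ : Fin 2 → G) (hγ : ∀ s, γ s ≠ 1) (V : S → Prop) (comp : S × G → C)
    (hcomp : ∀ v g s, comp (t s v, g * γ s) = comp (v, g))
    (hsep : ∀ v v' g, V v → V v' → comp (v, g) = comp (v', g) → v = v')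
    {L : Type} [Finite L] (σ : Perm L) (lab : L → ((S × G) × Fin 2) × Bool)
    (hp : IsPath (liftAct t γ) σ lab) (hV : ∀ x, V (tl (liftAct t γ) (lab x)).1)
    (hb : ∃ π, IsPairing lab π) (hred : ∀ x, lab (σ x) ≠ linv (lab x))
    (g : G) (hg : ∀ x, (tl (liftAct t γ) (lab x)).2 ≤ g) (v : S) (hv : V v)
    (hng : ¬ Good t γ V g v) :
    ∃ (z : FreeGroup (Fin 2)) (n : L → ℤ), z ≠ 1 ∧
      (∀ x, tl (liftAct t γ) (lab x) = (v, g) →
        n x ≠ 0 ∧ cycProd σ (fun y => fval (lab y)) x = z ^ n x) ∧
      ∀ X : List L, (X.Pairwise fun x y => ¬ σ.SameCycle x y) →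
        (∀ x ∈ X, tl (liftAct t γ) (lab x) = (v, g)) →
        (∀ y, tl (liftAct t γ) (lab y) = (v, g) → ∃ x ∈ X, σ.SameCycle x y) →
        (X.map n).sum = 0 := by
  classical
  haveI := Fintype.ofFinite L
  by_cases hne : ∃ x, tl (liftAct t γ) (lab x) = (v, g)
  swap
  · push Not at hne
    refine ⟨FreeGroup.of 0, fun _ => 0, FreeGroup.of_ne_one 0, fun x hx => absurd hx (hne x), ?_⟩
    intro X _ hX _
    have : X = [] := by
      rw [List.eq_nil_iff_forall_not_mem]
      intro x hx
      exact hne x (hX x hx)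
    rw [this]
    rfl
  set T := liftAct t γ with hT
  set ω : S × G := (v, g) with hω
  set D : S × G → Prop := fun y => V y.1 ∧ y.2 < g with hD
  obtain ⟨a, ha⟩ : ∃ a, ¬ Alive T D (low t γ a ω) := by
    unfold Good at hng
    push Not at hng
    exact hng
  obtain ⟨b, hab, hcov⟩ : ∃ b : Fin 2, b ≠ a ∧ ∀ s, s = a ∨ s = b := by
    fin_cases a
    · exact ⟨1, by decide, by decide⟩
    · exact ⟨0, by decide, by decide⟩
  set dl : Fin 2 → Fin 2 × Bool := fun s => (s, decide (γ s < 1)) with hdl
  have hlow : ∀ s x, low t γ s x = step T (dl s) x := by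
    intro s x
    unfold low step
    by_cases h : γ s < 1
    · simp [hdl, h, hT]
    · simp [hdl, h, hT]
  have hinv2 : ∀ s (x : S × G), ((T s)⁻¹ x) = ((t s)⁻¹ x.1, x.2 * (γ s)⁻¹) := by
    intro s x
    rw [Perm.inv_eq_iff_eq]
    simp [hT, liftAct]
  have hfw2 : ∀ s (x : S × G), (T s x) = (t s x.1, x.2 * γ s) := by
    intro s x
    rfl
  have hlt : ∀ s (x : S × G), (step T (dl s) x).2 < x.2 := by
    intro s x
    unfold step
    by_cases h : γ s < 1
    · simp only [hdl, h, decide_true, if_true]
      rw [hfw2]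
      simpa using h
    · have h' : 1 < γ s := lt_of_le_of_ne (not_lt.1 h) (Ne.symm (hγ s))
      simp only [hdl, h, decide_false, Bool.false_eq_true, if_false]
      rw [hinv2]
      have h2 : (γ s)⁻¹ < 1 := Left.inv_lt_one_iff.2 h'
      simpa using h2
  -- letters which leave `ω` downwards
  have F1 : ∀ l : Fin 2 × Bool, (step T l ω).2 ≤ g → l = dl l.1 := by
    rintro ⟨s, β⟩ h
    cases β
    · have e : step T (s, false) ω = (T s)⁻¹ ω := rfl
      rw [e, hinv2] at h
      have h1 : g * (γ s)⁻¹ ≤ g := h
      have h2 : ¬ γ s < 1 := by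
        intro h3
        have h4 : 1 < (γ s)⁻¹ := Left.one_lt_inv_iff.2 h3
        exact absurd (lt_mul_of_one_lt_right' g h4) (not_lt.2 h1)
      simp only [hdl, h2, decide_false]
    · have e : step T (s, true) ω = T s ω := rfl
      rw [e, hfw2] at h
      have h1 : g * γ s ≤ g := h
      have h2 : γ s < 1 := by
        by_contra h3
        have h4 : 1 < γ s := lt_of_le_of_ne (not_lt.1 h3) (Ne.symm (hγ s))
        exact absurd (lt_mul_of_one_lt_right' g h4) (not_lt.2 h1)
      simp only [hdl, h2, decide_true]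
  have hcs : ∀ (l : Fin 2 × Bool) (y : S × G), comp (step T l y) = comp y := by
    have hT1 : ∀ s y, comp (T s y) = comp y := by
      intro s y
      rw [hfw2]
      exact hcomp y.1 y.2 s
    rintro ⟨s, β⟩ y
    cases β
    · have e : step T (s, false) y = (T s)⁻¹ y := rfl
      have e2 : T s ((T s)⁻¹ y) = y := by simp
      rw [e, ← hT1 s ((T s)⁻¹ y), e2]
    · exact hT1 s y
  -- path points
  have hstep : ∀ x, tl T (lab (σ x)) = step T (ltr (lab x)) (tl T (lab x)) := by
    intro x
    rw [step_ltr]
    exact hp x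
  have hpow : ∀ (x : L) (i : ℕ), (σ ^ (i + 1)) x = σ ((σ ^ i) x) := by
    intro x i
    rw [pow_succ', Perm.mul_apply]
  have hstep' : ∀ (x : L) (i : ℕ), tl T (lab ((σ ^ (i + 1)) x)) =
      step T (ltr (lab ((σ ^ i) x))) (tl T (lab ((σ ^ i) x))) := by
    intro x i
    rw [hpow]
    exact hstep _
  have hredl : ∀ x, ltr (lab (σ x)) ≠ linv (ltr (lab x)) := by
    intro x h
    apply hred x
    apply eq_of_tl_ltr T (hp x)
    rw [h, ltr_linv]
  have hredl' : ∀ (x : L) (i : ℕ), ltr (lab ((σ ^ (i + 1)) x)) ≠ linv (ltr (lab ((σ ^ i) x))) := by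
    intro x i
    rw [hpow]
    exact hredl _
  have hcompx : ∀ x, tl T (lab x) = ω → ∀ i : ℕ, comp (tl T (lab ((σ ^ i) x))) = comp ω := by
    intro x hx i
    induction i with
    | zero => rw [pow_zero, Perm.one_apply, hx]
    | succ i ih => rw [hstep', hcs, ih]
  have hdich : ∀ x, tl T (lab x) = ω → ∀ i : ℕ,
      tl T (lab ((σ ^ i) x)) = ω ∨ D (tl T (lab ((σ ^ i) x))) := by
    intro x hx i
    have h1 := hcompx x hx i
    have h2 := hV ((σ ^ i) x)
    have h3 := hg ((σ ^ i) x)
    rcases lt_or_eq_of_le h3 with h4 | h4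
    · exact Or.inr ⟨h2, h4⟩
    · left
      have h6 : ((tl T (lab ((σ ^ i) x))).1, g) = tl T (lab ((σ ^ i) x)) := Prod.ext rfl h4.symm
      have h5 : (tl T (lab ((σ ^ i) x))).1 = v := by
        apply hsep _ _ g h2 hv
        rw [h6]
        exact h1
      exact Prod.ext h5 h4
  have hDω : ¬ D ω := fun h => lt_irrefl _ h.2
  -- excursions
  have hexc : ∀ x, tl T (lab x) = ω → ∃ (m : ℕ) (s k : Fin 2),
      ltr (lab x) = dl s ∧ ltr (lab ((σ ^ (m + 1)) x)) = linv (dl k) ∧
      tl T (lab ((σ ^ (m + 2)) x)) = ω ∧ (∀ i, i ≤ m → D (tl T (lab ((σ ^ (1 + i)) x)))) := by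
    intro x hx
    have hex : ∃ j, 0 < j ∧ tl T (lab ((σ ^ j) x)) = ω :=
      ⟨Function.minimalPeriod σ x, minPer_pos σ x, by rw [pow_minPer, hx]⟩
    obtain ⟨hj0, hj⟩ := Nat.find_spec hex
    have hmin := fun i => Nat.find_min hex (m := i)
    set j := Nat.find hex with hjdef
    have hx1 : tl T (lab (σ x)) = step T (ltr (lab x)) ω := by rw [hstep, hx]
    have hl0 : ltr (lab x) = dl (ltr (lab x)).1 := by
      apply F1
      rw [← hx1]
      exact hg _
    have hj1 : j ≠ 1 := by
      intro h
      rw [h, pow_one, hx1, hl0] at hj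
      have := hlt (ltr (lab x)).1 ω
      rw [hj] at this
      exact lt_irrefl _ this
    obtain ⟨m, hm⟩ : ∃ m, j = m + 2 := ⟨j - 2, by omega⟩
    have hlast : step T (linv (ltr (lab ((σ ^ (m + 1)) x)))) ω = tl T (lab ((σ ^ (m + 1)) x)) := by
      have h1 := hstep' x (m + 1)
      rw [show m + 1 + 1 = j by omega, hj] at h1
      rw [h1]
      exact step_linv T _ _
    have hlk : linv (ltr (lab ((σ ^ (m + 1)) x))) = dl (ltr (lab ((σ ^ (m + 1)) x))).1 := by
      apply F1
      rw [hlast]
      exact hg _
    refine ⟨m, (ltr (lab x)).1, (ltr (lab ((σ ^ (m + 1)) x))).1, hl0, ?_, ?_, ?_⟩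
    · rw [← hlk, linv_linv']
    · rw [← hm]
      exact hj
    · intro i hi
      rcases hdich x hx (1 + i) with h | h
      · exfalso
        exact hmin (1 + i) (by omega) ⟨by omega, h⟩
      · exact h
  have hq : ∀ s, low t γ s ω = step T (dl s) ω := fun s => hlow s ω
  set q : Fin 2 → S × G := fun s => step T (dl s) ω with hqdef
  have ha' : ¬ Alive T D (q a) := by
    rw [hq] at ha
    exact ha
  have hexc' : ∀ x, tl T (lab x) = ω → ∃ (m : ℕ) (s k : Fin 2),
      ltr (lab x) = dl s ∧ ltr (lab ((σ ^ (m + 1)) x)) = linv (dl k) ∧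
      tl T (lab ((σ ^ (m + 2)) x)) = ω ∧
      Stays T D (seg (fun i => ltr (lab ((σ ^ i) x))) 1 m) (q s) ∧
      walk T (seg (fun i => ltr (lab ((σ ^ i) x))) 1 m) (q s) = q k := by
    intro x hx
    obtain ⟨m, s, k, h1, h2, h3, h4⟩ := hexc x hx
    have hp1 : tl T (lab ((σ ^ 1) x)) = q s := by
      rw [pow_one, hstep, hx, h1]
    have hpk : tl T (lab ((σ ^ (1 + m)) x)) = q k := by
      have h5 := hstep' x (m + 1)
      rw [h3, h2] at h5
      rw [add_comm 1 m]
      show _ = step T (dl k) ω
      rw [h5]
      have := step_linv T (linv (dl k)) (tl T (lab ((σ ^ (m + 1)) x)))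
      rw [linv_linv'] at this
      exact this.symm
    refine ⟨m, s, k, h1, h2, h3, ?_, ?_⟩
    · rw [← hp1]
      exact stays_seg T (p := fun i => tl T (lab ((σ ^ i) x))) (hstep' x) m 1 h4
    · rw [← hp1, ← hpk]
      exact walk_seg T (p := fun i => tl T (lab ((σ ^ i) x))) (hstep' x) m 1
  -- the two lower neighbours are connected
  have hexcA : ∀ x, tl T (lab x) = ω → ltr (lab x) = dl a → Conn T D (q a) (q b) := by
    intro x hx hxa
    obtain ⟨m, s, k, h1, h2, h3, h4, h5⟩ := hexc' x hx
    have hsa : s = a := by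
      have := h1.symm.trans hxa
      exact congrArg Prod.fst this
    subst hsa
    rcases hcov k with hk | hk
    · exfalso
      subst hk
      have hone : FreeGroup.mk (seg (fun i => ltr (lab ((σ ^ i) x))) 1 m) = 1 := by
        by_contra hne1
        exact ha' ⟨_, h4, h5, hne1⟩
      have hm0 := seg_ne_one (hredl' x) hone
      subst hm0
      apply hredl x
      rw [h1]
      simpa using h2
    · subst hk
      exact ⟨_, h4, h5⟩
  have hconn : Conn T D (q a) (q b) := by
    obtain ⟨x, hx⟩ := hne
    obtain ⟨m, s, k, h1, h2, h3, h4, h5⟩ := hexc' x hx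
    rcases hcov s with hs | hs
    · subst hs
      exact hexcA x hx h1
    · rcases hcov k with hk | hk
      · have : Conn T D (q s) (q k) := ⟨_, h4, h5⟩
        rw [hs, hk] at this
        exact this.symm'
      · have hx' : tl T (lab ((σ ^ (m + 2)) x)) = ω := h3
        obtain ⟨m', s', k', h1', -⟩ := hexc ((σ ^ (m + 2)) x) hx'
        have hne' := hredl' x (m + 1)
        rw [h2, linv_linv', show m + 1 + 1 = m + 2 from rfl, h1', hk] at hne'
        rcases hcov s' with hs' | hs'
        · rw [hs'] at h1'
          exact hexcA _ hx' h1'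
        · rw [hs'] at hne'
          exact absurd rfl hne'
  obtain ⟨ρ, hρ, hρb⟩ := hconn
  set z : FreeGroup (Fin 2) :=
    FreeGroup.mk [dl a] * FreeGroup.mk ρ * (FreeGroup.mk [dl b])⁻¹ with hz
  set c : S × G → FreeGroup (Fin 2) := cval T D (q a) (FreeGroup.mk [dl a]) with hc
  have hcω : c ω = 1 := cval_of_not T _ hDω
  have hqaD : D (q a) := stays_start T ρ _ hρ
  have hca : c (q a) = FreeGroup.mk [dl a] := by
    have h0 : Stays T D [] (q a) := hqaD
    have := cval_eq T ha' (FreeGroup.mk [dl a]) h0
    rw [← FreeGroup.one_eq_mk, mul_one] at this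
    exact this
  have hcb : c (q b) = FreeGroup.mk [dl a] * FreeGroup.mk ρ := by
    have := cval_eq T ha' (FreeGroup.mk [dl a]) hρ
    rw [hρb] at this
    exact this
  have hqbC : Conn T D (q a) (q b) := ⟨ρ, hρ, hρb⟩
  set Eb := mkE T ω (dl b) with hEb
  set ε : ((S × G) × Fin 2) × Bool → ℤ := fun A => if A = linv Eb then 1 else if A = Eb then -1 else 0
    with hε
  have hEbne : Eb ≠ linv Eb := by
    intro h
    have := congrArg Prod.snd h
    simp [linv] at this
  have hεinv : ∀ A, ε (linv A) = - ε A := by
    intro A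
    have e1 : linv A = linv Eb ↔ A = Eb := by
      constructor
      · intro h
        have := congrArg linv h
        rwa [linv_linv', linv_linv'] at this
      · rintro rfl
        rfl
    have e2 : linv A = Eb ↔ A = linv Eb := by
      constructor
      · rintro h
        rw [← h, linv_linv']
      · rintro rfl
        rw [linv_linv']
    simp only [hε, e1, e2]
    by_cases h1 : A = Eb
    · rw [if_pos h1, if_neg (by rw [h1]; exact hEbne), if_pos h1]
      norm_num
    · by_cases h2 : A = linv Eb
      · simp [h2, hEbne.symm]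
      · simp [h1, h2]
  have hmk1 : ∀ l : Fin 2 × Bool, FreeGroup.mk [linv l] = (FreeGroup.mk [l])⁻¹ := by
    intro l
    rw [FreeGroup.inv_mk]
    rfl
  have hlocal : ∀ A : ((S × G) × Fin 2) × Bool,
      (tl T A = ω ∨ Conn T D (q a) (tl T A)) → (tl T (linv A) = ω ∨ D (tl T (linv A))) →
      c (tl T A) * FreeGroup.mk [ltr A] = z ^ (ε A) * c (tl T (linv A)) ∧
        (tl T (linv A) = ω ∨ Conn T D (q a) (tl T (linv A))) := by
    intro A hA1 hA2
    have hh : tl T (linv A) = step T (ltr A) (tl T A) := (step_ltr T A).symm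
    rcases hA1 with hA1 | hA1
    · -- start at ω
      have hl : ltr A = dl (ltr A).1 := by
        apply F1
        rw [← hA1, ← hh]
        rcases hA2 with h | h
        · rw [h]
        · exact h.2.le
      have hhq : tl T (linv A) = q (ltr A).1 := by
        rw [hh, hA1]
        show _ = step T (dl (ltr A).1) ω
        rw [← hl]
      rcases hcov (ltr A).1 with hs | hs
      · rw [hs] at hl hhq
        have hε0 : ε A = 0 := by
          have n1 : A ≠ linv Eb := by
            intro h
            have h1 : (ltr A).1 = b := by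
              rw [h, ltr_linv, hEb, ltr_mkE]
              rfl
            exact hab (h1.symm.trans hs)
          have n2 : A ≠ Eb := by
            intro h
            have h1 : (ltr A).1 = b := by
              rw [h, hEb, ltr_mkE]
            exact hab (h1.symm.trans hs)
          simp [hε, n1, n2]
        rw [hε0, zpow_zero, one_mul, hA1, hcω, one_mul, hhq, hca, hl]
        exact ⟨rfl, Or.inr ⟨[], hqaD, rfl⟩⟩
      · rw [hs] at hl hhq
        have hAE : A = Eb := by
          apply eq_of_tl_ltr T
          · rw [hA1, hEb, tl_mkE]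
          · rw [hl, hEb, ltr_mkE]
        have hε0 : ε A = -1 := by
          rw [hAE]
          simp [hε, hEbne]
        rw [hε0, hA1, hcω, one_mul, hhq, hcb, hl, hz]
        refine ⟨?_, Or.inr hqbC⟩
        group
    · -- start below
      have hDA : D (tl T A) := hA1.mem
      rcases hA2 with hA2 | hA2
      · -- end at ω
        have hh2 : step T (linv (ltr A)) ω = tl T A := by
          rw [← hA2, hh, step_linv]
        have hl : linv (ltr A) = dl (ltr A).1 := by
          have := F1 (linv (ltr A)) (by rw [hh2]; exact hDA.2.le)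
          exact this
        have hAq : tl T A = q (ltr A).1 := by
          rw [← hh2, hl]
        have hl' : ltr A = linv (dl (ltr A).1) := by rw [← hl, linv_linv']
        rcases hcov (ltr A).1 with hs | hs
        · rw [hs] at hl' hAq
          have hε0 : ε A = 0 := by
            have n1 : A ≠ linv Eb := by
              intro h
              have h1 : (ltr A).1 = b := by
                rw [h, ltr_linv, hEb, ltr_mkE]
                rfl
              exact hab (h1.symm.trans hs)
            have n2 : A ≠ Eb := by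
              intro h
              have h1 : (ltr A).1 = b := by
                rw [h, hEb, ltr_mkE]
              exact hab (h1.symm.trans hs)
            simp [hε, n1, n2]
          refine ⟨?_, Or.inl hA2⟩
          rw [hε0, zpow_zero, one_mul, hA2, hcω, hAq, hca, hl', hmk1, mul_inv_cancel]
        · rw [hs] at hl' hAq
          have hAE : A = linv Eb := by
            rw [← linv_linv' A]
            congr 1
            apply eq_of_tl_ltr T
            · rw [hA2, hEb, tl_mkE]
            · rw [ltr_linv, hl', linv_linv', hEb, ltr_mkE]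
          have hε0 : ε A = 1 := by
            rw [hAE]
            simp [hε]
          refine ⟨?_, Or.inl hA2⟩
          rw [hε0, zpow_one, hA2, hcω, hAq, hcb, hl', hmk1, mul_one]
      · -- inside
        have hε0 : ε A = 0 := by
          have n1 : A ≠ linv Eb := by
            intro h
            apply hDω
            have : tl T (linv A) = ω := by rw [h, linv_linv', hEb, tl_mkE]
            rw [this] at hA2
            exact hA2
          have n2 : A ≠ Eb := by
            intro h
            apply hDω
            have : tl T A = ω := by rw [h, hEb, tl_mkE]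
            rw [this] at hDA
            exact hDA
          simp [hε, n1, n2]
        obtain ⟨w, hw, hwe⟩ := hA1
        have hst : Stays T D (w ++ [ltr A]) (q a) := by
          apply stays_append T _ _ _ hw
          rw [hwe]
          refine ⟨hDA, ?_⟩
          rw [← hh]
          exact hA2
        have hwk : walk T (w ++ [ltr A]) (q a) = tl T (linv A) := by
          rw [walk_append, hwe, hh]
          rfl
        refine ⟨?_, Or.inr ⟨_, hst, hwk⟩⟩
        have e1 := cval_eq T ha' (FreeGroup.mk [dl a]) hw
        have e2 := cval_eq T ha' (FreeGroup.mk [dl a]) hst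
        rw [hwe] at e1
        rw [hwk] at e2
        rw [hε0, zpow_zero, one_mul]
        show cval T D (q a) (FreeGroup.mk [dl a]) (tl T A) * _ =
          cval T D (q a) (FreeGroup.mk [dl a]) (tl T (linv A))
        rw [e1, e2, mul_assoc, FreeGroup.mul_mk]
  have hpath : ∀ x, tl T (lab x) = ω → ∀ i : ℕ,
      (tl T (lab ((σ ^ i) x)) = ω ∨ Conn T D (q a) (tl T (lab ((σ ^ i) x)))) ∧
      FreeGroup.mk (seg (fun i => ltr (lab ((σ ^ i) x))) 0 i) =
        z ^ (∑ k ∈ Finset.range i, ε (lab ((σ ^ k) x))) * c (tl T (lab ((σ ^ i) x))) := by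
    intro x hx i
    induction i with
    | zero =>
      rw [seg_zero, ← FreeGroup.one_eq_mk, Finset.range_zero, Finset.sum_empty, zpow_zero, one_mul,
        pow_zero, Perm.one_apply, hx, hcω]
      exact ⟨Or.inl rfl, rfl⟩
    | succ i ih =>
      have hhd : tl T (lab ((σ ^ (i + 1)) x)) = tl T (linv (lab ((σ ^ i) x))) := by
        rw [hpow]
        exact hp _
      have hd := hdich x hx (i + 1)
      rw [hhd] at hd
      obtain ⟨h1, h2⟩ := hlocal (lab ((σ ^ i) x)) ih.1 hd
      rw [hhd]
      refine ⟨h2, ?_⟩
      rw [seg_succ', ← FreeGroup.mul_mk, ih.2, zero_add, mul_assoc, h1, Finset.sum_range_succ,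
        zpow_add, mul_assoc]
  set n : L → ℤ := fun x => ∑ k ∈ Finset.range (Function.minimalPeriod σ x), ε (lab ((σ ^ k) x))
    with hn
  have hcyc : ∀ x, cycProd σ (fun y => fval (lab y)) x =
      FreeGroup.mk (seg (fun i => ltr (lab ((σ ^ i) x))) 0 (Function.minimalPeriod σ x)) := by
    intro x
    unfold cycProd seg
    generalize Function.minimalPeriod σ x = P
    induction P with
    | zero => rfl
    | succ P ih =>
      rw [List.range_succ, List.map_append, List.map_append, List.prod_append, ih,
        ← FreeGroup.mul_mk]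
      congr 1
      simp [fval, ltr]
  have hmain : ∀ x, tl T (lab x) = ω → n x ≠ 0 ∧
      cycProd σ (fun y => fval (lab y)) x = z ^ n x := by
    intro x hx
    have h1 : cycProd σ (fun y => fval (lab y)) x = z ^ n x := by
      rw [hcyc, (hpath x hx _).2, pow_minPer, hx, hcω, mul_one]
    refine ⟨?_, h1⟩
    intro h0
    rw [h0, zpow_zero, hcyc] at h1
    have := seg_ne_one (hredl' x) h1
    exact absurd this (minPer_pos σ x).ne'
  refine ⟨z, n, ?_, hmain, ?_⟩
  · obtain ⟨x, hx⟩ := hne
    intro hz1
    have h1 := (hmain x hx).2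
    rw [hz1, one_zpow, hcyc] at h1
    have := seg_ne_one (hredl' x) h1
    exact absurd this (minPer_pos σ x).ne'
  · intro X hX1 hX2 hX3
    have e1 : n = fun x => ∑ y, if σ.SameCycle x y then ε (lab y) else 0 := by
      funext x
      exact sum_cycle σ (fun y => ε (lab y)) x
    rw [e1, sum_map_comm]
    have e2 : ∀ y, (X.map fun x => if σ.SameCycle x y then ε (lab y) else 0).sum = ε (lab y) := by
      intro y
      rw [sum_list σ (fun y => ε (lab y)) y X hX1]
      by_cases h0 : ε (lab y) = 0
      · rw [h0]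
        simp
      · rw [if_pos]
        by_cases h1 : lab y = linv Eb
        · have h2 : tl T (lab (σ y)) = ω := by
            rw [hp y, h1, linv_linv', hEb, tl_mkE]
          obtain ⟨x, hx, hxy⟩ := hX3 (σ y) h2
          refine ⟨x, hx, hxy.trans ?_⟩
          exact (Perm.sameCycle_apply_left.2 (Perm.SameCycle.refl σ y))
        · by_cases h2 : lab y = Eb
          · have h3 : tl T (lab y) = ω := by rw [h2, hEb, tl_mkE]
            obtain ⟨x, hx, hxy⟩ := hX3 y h3
            exact ⟨x, hx, hxy⟩
          · exfalso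
            apply h0
            simp [hε, h1, h2]
    rw [Finset.sum_congr rfl fun y _ => e2 y]
    obtain ⟨π, hπ⟩ := hb
    have hinvo : Function.Involutive π := hπ.invol
    have e3 : ∑ y, ε (lab y) = ∑ y, ε (lab (π y)) :=
      (Equiv.sum_comp π (fun y => ε (lab y))).symm
    have e4 : ∑ y, ε (lab (π y)) = - ∑ y, ε (lab y) := by
      rw [← Finset.sum_neg_distrib]
      refine Finset.sum_congr rfl fun y _ => ?_
      rw [hπ.lab_inv, hεinv]
    linarith

end SclIso
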