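import Pool.Agent.H.MP_1b0e60_al.Flow

/-!
Theorem D, part B: from invariance of the flow to conjugacy with a generator.
-/

open Equiv Filter Topology

namespace SclIso

/-- exponent sum of the generator `s` -/
noncomputable def ThmDB_expo (s : Fin 2) : FreeGroup (Fin 2) →* Multiplicative ℤ :=
  FreeGroup.lift fun i => if i = s then Multiplicative.ofAdd 1 else 1

theorem ThmDB_expo_of (s i : Fin 2) :
    ThmDB_expo s (FreeGroup.of i) = if i = s then Multiplicative.ofAdd 1 else 1 := by
  simp [ThmDB_expo]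

theorem ThmDB_expo_comm {s : Fin 2} {f : FreeGroup (Fin 2)}
    (hf : f ∈ commutator (FreeGroup (Fin 2))) : ThmDB_expo s f = 1 := by
  have := Abelianization.commutator_subset_ker (ThmDB_expo s) hf
  rwa [MonoidHom.mem_ker] at this

/-- The total flow through the edges with label `s` is the exponent sum. -/
theorem ThmDB_total {Ω : Type*} (t : Fin 2 → Perm Ω) (s : Fin 2) (w : List (Fin 2 × Bool))
    (x : Ω) :
    Finsupp.linearCombination ℤ (fun e : Ω × Fin 2 => if e.2 = s then (1 : ℤ) else 0)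
      (flow t w x) = Multiplicative.toAdd (ThmDB_expo s (FreeGroup.mk w)) := by
  induction w generalizing x with
  | nil =>
    rw [← FreeGroup.one_eq_mk]
    simp [flow]
  | cons l w ih =>
    rw [show l :: w = [l] ++ w from rfl, ← FreeGroup.mul_mk, map_mul, toAdd_mul, ← ih (step t l x)]
    simp only [List.singleton_append, flow, map_add, add_left_inj]
    obtain ⟨i, b⟩ := l
    cases b
    · simp only [Bool.false_eq_true, if_false, map_neg]
      rw [Finsupp.linearCombination_single]
      have h1 : FreeGroup.mk [(i, false)] = (FreeGroup.of i)⁻¹ := rfl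
      rw [h1, map_inv, ThmDB_expo_of]
      split_ifs <;> simp
    · simp only [if_true]
      rw [Finsupp.linearCombination_single]
      have h1 : FreeGroup.mk [(i, true)] = FreeGroup.of i := rfl
      rw [h1, ThmDB_expo_of]
      split_ifs <;> simp

theorem ThmDB_sep (K : ℕ → Subgroup (FreeGroup (Fin 2))) (hn : ∀ m, (K m).Normal)
    (hanti : Antitone K) (hinf : ∀ f, (∀ m, f ∈ K m) → f = 1)
    (hc : ∀ m, K m ≤ commutator (FreeGroup (Fin 2))) (s : Fin 2) (u : FreeGroup (Fin 2))
    (hu : ThmDB_expo s u = Multiplicative.ofAdd 1)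
    (a b : FreeGroup (Fin 2) ⧸ Subgroup.closure {u}) (hab : a ≠ b) :
    ∃ m0, ∀ m, m0 ≤ m →
      Subgroup.quotientMapOfLE (le_sup_left : Subgroup.closure {u} ≤ Subgroup.closure {u} ⊔ K m) a
        ≠ Subgroup.quotientMapOfLE
          (le_sup_left : Subgroup.closure {u} ≤ Subgroup.closure {u} ⊔ K m) b := by
  obtain ⟨f, rfl⟩ := QuotientGroup.mk_surjective a
  obtain ⟨f', rfl⟩ := QuotientGroup.mk_surjective b
  by_contra hcon
  push Not at hcon
  have hall : ∀ m, f⁻¹ * f' ∈ Subgroup.closure {u} ⊔ K m := by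
    intro m
    obtain ⟨m', hm', h1⟩ := hcon m
    rw [Subgroup.quotientMapOfLE_apply_mk, Subgroup.quotientMapOfLE_apply_mk,
      QuotientGroup.eq] at h1
    exact (sup_le_sup_left (hanti hm') _) h1
  set g := f⁻¹ * f' with hg
  have h2 : ∀ m, u ^ (-(Multiplicative.toAdd (ThmDB_expo s g))) * g ∈ K m := by
    intro m
    have := hn m
    obtain ⟨x, hx, y, hy, hxy⟩ := Subgroup.mem_sup_of_normal_right.1 (hall m)
    obtain ⟨i, rfl⟩ := Subgroup.mem_closure_singleton.1 hx
    have h3 : ThmDB_expo s g = Multiplicative.ofAdd i := by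
      rw [← hxy, map_mul, map_zpow, hu, ThmDB_expo_comm (hc m hy), mul_one, ← ofAdd_zsmul]
      simp
    rw [h3, toAdd_ofAdd, ← hxy, ← mul_assoc, ← zpow_add, neg_add_cancel, zpow_zero, one_mul]
    exact hy
  have h3 := hinf _ h2
  rw [zpow_neg, inv_mul_eq_one] at h3
  apply hab
  rw [QuotientGroup.eq, ← hg, ← h3]
  exact Subgroup.zpow_mem _ (Subgroup.mem_closure_singleton_self u) _

theorem ThmDB_sep_finset (K : ℕ → Subgroup (FreeGroup (Fin 2))) (hn : ∀ m, (K m).Normal)
    (hanti : Antitone K) (hinf : ∀ f, (∀ m, f ∈ K m) → f = 1)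
    (hc : ∀ m, K m ≤ commutator (FreeGroup (Fin 2))) (s : Fin 2) (u : FreeGroup (Fin 2))
    (hu : ThmDB_expo s u = Multiplicative.ofAdd 1)
    (T : Finset (FreeGroup (Fin 2) ⧸ Subgroup.closure {u})) :
    ∃ m, ∀ a ∈ T, ∀ b ∈ T,
      Subgroup.quotientMapOfLE (le_sup_left : Subgroup.closure {u} ≤ Subgroup.closure {u} ⊔ K m) a
        = Subgroup.quotientMapOfLE
          (le_sup_left : Subgroup.closure {u} ≤ Subgroup.closure {u} ⊔ K m) b → a = b := by
  classical
  have h1 : ∀ a b : FreeGroup (Fin 2) ⧸ Subgroup.closure {u}, ∃ m0, ∀ m, m0 ≤ m → a ≠ b →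
      Subgroup.quotientMapOfLE (le_sup_left : Subgroup.closure {u} ≤ Subgroup.closure {u} ⊔ K m) a
        ≠ Subgroup.quotientMapOfLE
          (le_sup_left : Subgroup.closure {u} ≤ Subgroup.closure {u} ⊔ K m) b := by
    intro a b
    by_cases hab : a = b
    · exact ⟨0, fun m _ h => absurd hab h⟩
    · obtain ⟨m0, h⟩ := ThmDB_sep K hn hanti hinf hc s u hu a b hab
      exact ⟨m0, fun m hm _ => h m hm⟩
  choose M hM using h1
  refine ⟨T.sup fun a => T.sup fun b => M a b, fun a ha b hb h => ?_⟩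
  by_contra hab
  refine hM a b _ ?_ hab h
  exact (Finset.le_sup (f := fun b => M a b) hb).trans
    (Finset.le_sup (f := fun a => T.sup fun b => M a b) ha)

theorem thmD_B (K : ℕ → Subgroup (FreeGroup (Fin 2))) (hn : ∀ m, (K m).Normal)
    (hanti : Antitone K) (hinf : ∀ f, (∀ m, f ∈ K m) → f = 1)
    (hc : ∀ m, K m ≤ commutator (FreeGroup (Fin 2))) (s : Fin 2) (u : FreeGroup (Fin 2))
    (hu : u * (FreeGroup.of s)⁻¹ ∈ commutator (FreeGroup (Fin 2)))
    (h : ∀ m, ∀ ω : FreeGroup (Fin 2) ⧸ (Subgroup.closure {u} ⊔ K m),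
      flow (cosetAct _) u.toWord (QuotientGroup.mk 1) (cosetAct _ s ω, s) =
        flow (cosetAct _) u.toWord (QuotientGroup.mk 1) (ω, s)) :
    ∃ g, u = g * FreeGroup.of s * g⁻¹ := by
  classical
  have hs : ThmDB_expo s (FreeGroup.of s) = Multiplicative.ofAdd 1 := by
    rw [ThmDB_expo_of, if_pos rfl]
  have hE : ThmDB_expo s u = Multiplicative.ofAdd 1 := by
    have := ThmDB_expo_comm (s := s) hu
    rw [map_mul, map_inv, hs, mul_inv_eq_one] at this
    exact this
  set U := Subgroup.closure {u} with hU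
  set c := flow (cosetAct U) u.toWord (QuotientGroup.mk 1) with hcdef
  -- invariance
  have hinv : ∀ ω : FreeGroup (Fin 2) ⧸ U, c (cosetAct U s ω, s) = c (ω, s) := by
    intro ω
    obtain ⟨m, hm⟩ := ThmDB_sep_finset K hn hanti hinf hc s u hE
      (insert ω (insert (cosetAct U s ω) (c.support.image Prod.fst)))
    set q := Subgroup.quotientMapOfLE (le_sup_left : U ≤ U ⊔ K m) with hq
    have heq : ∀ s' x, q (cosetAct U s' x) = cosetAct (U ⊔ K m) s' (q x) := by
      intro s' x
      obtain ⟨f, rfl⟩ := QuotientGroup.mk_surjective x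
      rfl
    have hflow := flow_equivariant heq u.toWord (QuotientGroup.mk 1)
    have hq1 : q (QuotientGroup.mk 1) = QuotientGroup.mk 1 := rfl
    rw [hq1, ← hcdef] at hflow
    have hm' := h m (q ω)
    rw [← heq, hflow] at hm'
    set S : Set ((FreeGroup (Fin 2) ⧸ U) × Fin 2) :=
      {e | e.1 ∈ insert ω (insert (cosetAct U s ω) (c.support.image Prod.fst))} with hS
    have hsub : (c.support : Set ((FreeGroup (Fin 2) ⧸ U) × Fin 2)) ⊆ S := by
      intro e he
      simp only [hS, Set.mem_ofPred_eq]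
      exact Finset.mem_insert_of_mem (Finset.mem_insert_of_mem (Finset.mem_image_of_mem _ he))
    have hinj : Set.InjOn (Prod.map q (id : Fin 2 → Fin 2)) S := by
      rintro ⟨e1, e2⟩ he ⟨e1', e2'⟩ he' hee
      rw [Prod.map_apply, Prod.map_apply, Prod.mk.injEq] at hee
      exact Prod.ext (hm _ he _ he' hee.1) hee.2
    have h1 : (cosetAct U s ω, s) ∈ S := by
      simp only [hS, Set.mem_ofPred_eq]
      exact Finset.mem_insert_of_mem (Finset.mem_insert_self _ _)
    have h2 : (ω, s) ∈ S := by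
      simp only [hS, Set.mem_ofPred_eq]
      exact Finset.mem_insert_self _ _
    have h3 := Finsupp.mapDomain_apply' S c hsub hinj h1
    have h4 := Finsupp.mapDomain_apply' S c hsub hinj h2
    rw [← h3, ← h4]
    exact hm'
  -- not identically zero
  have hne : ∃ ω0, c (ω0, s) ≠ 0 := by
    by_contra hcon
    push Not at hcon
    have h1 := ThmDB_total (cosetAct U) s u.toWord (QuotientGroup.mk 1)
    rw [FreeGroup.mk_toWord, hE, ← hcdef, Finsupp.linearCombination_apply, Finsupp.sum] at h1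
    have h2 : ∑ a ∈ c.support, c a • (if a.2 = s then (1 : ℤ) else 0) = 0 := by
      refine Finset.sum_eq_zero fun a _ => ?_
      split_ifs with h3
      · have : a = (a.1, s) := by rw [← h3]
        rw [this, hcon, zero_smul]
      · rw [smul_zero]
    rw [h2] at h1
    exact absurd h1 (by simp)
  obtain ⟨ω0, hω0⟩ := hne
  have horb : ∀ k : ℕ, c (((cosetAct U s) ^ k) ω0, s) = c (ω0, s) := by
    intro k
    induction k with
    | zero => rfl
    | succ k ih => rw [pow_succ', Perm.mul_apply, hinv, ih]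
  obtain ⟨k, hk0, hk⟩ : ∃ k : ℕ, k ≠ 0 ∧ ((cosetAct U s) ^ k) ω0 = ω0 := by
    have hfin : ¬ Function.Injective (fun k : ℕ => ((((cosetAct U s) ^ k) ω0, s) :
        (FreeGroup (Fin 2) ⧸ U) × Fin 2)) := by
      intro hinj
      have h1 : (Set.range (fun k : ℕ => ((((cosetAct U s) ^ k) ω0, s) :
        (FreeGroup (Fin 2) ⧸ U) × Fin 2))) ⊆ c.support := by
        rintro _ ⟨k, rfl⟩
        simp only [Finset.mem_coe, Finsupp.mem_support_iff]
        rw [horb]
        exact hω0
      exact (Set.infinite_range_of_injective hinj) (c.support.finite_toSet.subset h1)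
    rw [Function.Injective] at hfin
    push Not at hfin
    obtain ⟨i, j, hij, hne⟩ := hfin
    rw [Prod.mk.injEq] at hij
    have key : ∀ i j : ℕ, i < j → ((cosetAct U s) ^ i) ω0 = ((cosetAct U s) ^ j) ω0 →
        ∃ k : ℕ, k ≠ 0 ∧ ((cosetAct U s) ^ k) ω0 = ω0 := by
      intro i j hlt h1
      refine ⟨j - i, by omega, ?_⟩
      have h2 : j = i + (j - i) := by omega
      rw [h2, pow_add, Perm.mul_apply] at h1
      exact (((cosetAct U s) ^ i).injective h1).symm
    rcases lt_or_gt_of_ne hne with h1 | h1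
    · exact key i j h1 hij.1
    · exact key j i h1 hij.1.symm
  obtain ⟨f, rfl⟩ := QuotientGroup.mk_surjective ω0
  have hpow : ∀ k : ℕ, ((cosetAct U s) ^ k) (QuotientGroup.mk f) =
      QuotientGroup.mk ((FreeGroup.of s) ^ (-(k : ℤ)) * f) := by
    intro k
    induction k with
    | zero => simp
    | succ k ih =>
      rw [pow_succ', Perm.mul_apply, ih]
      change (FreeGroup.of s)⁻¹ • (QuotientGroup.mk _ : FreeGroup (Fin 2) ⧸ U) = _
      rw [MulAction.Quotient.smul_mk, smul_eq_mul, ← mul_assoc]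
      congr 2
      rw [Nat.cast_succ, neg_add, zpow_add, zpow_neg_one, zpow_neg, zpow_natCast]
      rw [← inv_pow, ← pow_succ, ← pow_succ']
  rw [hpow, QuotientGroup.eq] at hk
  obtain ⟨j, hj⟩ := Subgroup.mem_closure_singleton.1 hk
  have h1 : ((FreeGroup.of s) ^ (-(k : ℤ)) * f)⁻¹ * f = (f⁻¹ * FreeGroup.of s * f) ^ k := by
    have : (f⁻¹ * FreeGroup.of s * f) ^ k = f⁻¹ * (FreeGroup.of s) ^ k * f := by
      have := conj_pow (i := k) (a := f⁻¹) (b := FreeGroup.of s)
      rw [inv_inv] at this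
      exact this
    rw [this, mul_inv_rev, zpow_neg, inv_inv, zpow_natCast]
  rw [h1] at hj
  have h2 := congrArg (ThmDB_expo s) hj
  rw [map_zpow, map_pow, map_mul, map_mul, map_inv, hE, hs] at h2
  have h3 : j = k := by
    have h4 : (ThmDB_expo s f)⁻¹ * Multiplicative.ofAdd (1 : ℤ) * ThmDB_expo s f =
        Multiplicative.ofAdd (1 : ℤ) := by
      rw [mul_comm, ← mul_assoc, mul_inv_cancel, one_mul]
    rw [h4, ← ofAdd_zsmul, ← ofAdd_nsmul] at h2
    have h5 := Multiplicative.ofAdd.injective h2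
    simpa using h5
  rw [h3, zpow_natCast] at hj
  have h4 := IsMulTorsionFree.pow_left_injective (M := FreeGroup (Fin 2)) hk0 hj
  refine ⟨f⁻¹, ?_⟩
  rw [inv_inv]
  exact h4

end SclIso
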