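import Pool.Agent.H.MP_1b0e60_al.Flow

/-!
Theorem D, part C: subgroups which contain a generator.
-/

open Equiv Filter Topology

namespace SclIso

/-- the group element `g` in the integral group ring -/
noncomputable def ThmDC_sg {G : Type*} (g : G) : MonoidAlgebra ℤ G := MonoidAlgebra.single g 1

theorem ThmDC_sg_mul {G : Type*} [Group G] (g h : G) :
    ThmDC_sg (g * h) = ThmDC_sg g * ThmDC_sg h := by
  unfold ThmDC_sg
  rw [MonoidAlgebra.single_mul_single, mul_one]

theorem ThmDC_sg_one {G : Type*} [Group G] : ThmDC_sg (1 : G) = 1 := rfl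

theorem ThmDC_sg_inv_mul {G : Type*} [Group G] (g : G) : ThmDC_sg g⁻¹ * ThmDC_sg g = 1 := by
  rw [← ThmDC_sg_mul, inv_mul_cancel, ThmDC_sg_one]

theorem ThmDC_sg_mul_inv {G : Type*} [Group G] (g : G) : ThmDC_sg g * ThmDC_sg g⁻¹ = 1 := by
  rw [← ThmDC_sg_mul, mul_inv_cancel, ThmDC_sg_one]

/-- Fox derivatives with prescribed values on the generators. -/
theorem ThmDC_exists (d : Fin 2 → MonoidAlgebra ℤ (FreeGroup (Fin 2))) :
    ∃ δ : FreeGroup (Fin 2) → MonoidAlgebra ℤ (FreeGroup (Fin 2)),
      (∀ f g, δ (f * g) = δ f + ThmDC_sg f * δ g) ∧ ∀ i, δ (FreeGroup.of i) = d i := by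
  let e : Fin 2 → Perm (MonoidAlgebra ℤ (FreeGroup (Fin 2))) := fun i =>
    { toFun := fun m => ThmDC_sg (FreeGroup.of i) * m + d i
      invFun := fun m => ThmDC_sg (FreeGroup.of i)⁻¹ * (m - d i)
      left_inv := fun m => by
        simp only
        rw [add_sub_cancel_right, ← mul_assoc, ThmDC_sg_inv_mul, one_mul]
      right_inv := fun m => by
        simp only
        rw [← mul_assoc, ThmDC_sg_mul_inv, one_mul, sub_add_cancel] }
  have key : ∀ f : FreeGroup (Fin 2), ∀ m, FreeGroup.lift e f m =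
      ThmDC_sg f * m + FreeGroup.lift e f 0 := by
    intro f
    induction f using FreeGroup.induction_on with
    | C1 =>
      intro m
      rw [map_one, ThmDC_sg_one]
      simp
    | of i =>
      intro m
      simp only [FreeGroup.lift_apply_of]
      change ThmDC_sg (FreeGroup.of i) * m + d i = ThmDC_sg (FreeGroup.of i) * m +
        (ThmDC_sg (FreeGroup.of i) * 0 + d i)
      rw [mul_zero, zero_add]
    | inv_of i _ =>
      intro m
      simp only [map_inv, FreeGroup.lift_apply_of]
      change ThmDC_sg (FreeGroup.of i)⁻¹ * (m - d i) = ThmDC_sg (FreeGroup.of i)⁻¹ * m +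
        (ThmDC_sg (FreeGroup.of i)⁻¹ * (0 - d i))
      rw [← mul_add]
      congr 1
      abel
    | mul f g hf hg =>
      intro m
      rw [map_mul, Perm.mul_apply, Perm.mul_apply, hg m, hf (_ + _), hf (FreeGroup.lift e g 0),
        ThmDC_sg_mul]
      rw [mul_add, mul_assoc, add_assoc]
  refine ⟨fun f => FreeGroup.lift e f 0, fun f g => ?_, fun i => ?_⟩
  · simp only
    rw [map_mul, Perm.mul_apply, key f, add_comm]
  · simp only [FreeGroup.lift_apply_of]
    change ThmDC_sg (FreeGroup.of i) * 0 + d i = d i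
    rw [mul_zero, zero_add]

/-- One sided units of the group ring are trivial. -/
theorem ThmDC_unit {G : Type*} [Group G] [TwoUniqueProds G] (B η : MonoidAlgebra ℤ G)
    (h : B * η = 1) : ∃ g : G, ∃ n : ℤ, (n = 1 ∨ n = -1) ∧ η = MonoidAlgebra.single g n := by
  classical
  have hB : B.coeff ≠ 0 := by
    intro h0
    rw [MonoidAlgebra.coeff_eq_zero] at h0
    rw [h0, zero_mul] at h
    exact zero_ne_one h
  have hη : η.coeff ≠ 0 := by
    intro h0
    rw [MonoidAlgebra.coeff_eq_zero] at h0
    rw [h0, mul_zero] at h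
    exact zero_ne_one h
  have hcB : 0 < B.coeff.support.card := Finset.card_pos.2 (Finsupp.support_nonempty_iff.2 hB)
  have hcη : 0 < η.coeff.support.card := Finset.card_pos.2 (Finsupp.support_nonempty_iff.2 hη)
  have hcard : ¬ 1 < B.coeff.support.card * η.coeff.support.card := by
    intro hlt
    obtain ⟨p1, hp1, p2, hp2, hne, h1, h2⟩ := TwoUniqueProds.uniqueMul_of_one_lt_card hlt
    have hval : ∀ p ∈ B.coeff.support ×ˢ η.coeff.support,
        UniqueMul B.coeff.support η.coeff.support p.1 p.2 → p.1 * p.2 = 1 := by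
      intro p hp hu
      have h3 := MonoidAlgebra.coeff_mul_mul_of_uniqueMul hu
      rw [h, MonoidAlgebra.one_def, MonoidAlgebra.coeff_single, Finsupp.single_apply] at h3
      by_contra hne1
      rw [if_neg (fun h4 => hne1 h4.symm)] at h3
      rw [Finset.mem_product] at hp
      exact (mul_ne_zero (Finsupp.mem_support_iff.1 hp.1) (Finsupp.mem_support_iff.1 hp.2))
        h3.symm
    have e1 := hval p1 hp1 h1
    have e2 := hval p2 hp2 h2
    rw [Finset.mem_product] at hp1 hp2
    have h3 := h1 hp2.1 hp2.2 (by rw [e1, e2])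
    exact hne (Prod.ext h3.1.symm h3.2.symm)
  have h1B : B.coeff.support.card = 1 := by
    by_contra hne
    apply hcard
    have : 2 ≤ B.coeff.support.card := by omega
    nlinarith
  have h1η : η.coeff.support.card = 1 := by
    by_contra hne
    apply hcard
    have : 2 ≤ η.coeff.support.card := by omega
    nlinarith
  obtain ⟨b, hb, hb2⟩ := Finsupp.card_support_eq_one'.1 h1B
  obtain ⟨g, hg, hg2⟩ := Finsupp.card_support_eq_one'.1 h1η
  have hB' : B = MonoidAlgebra.single b hb := by
    apply MonoidAlgebra.coeff_injective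
    rw [hb2.2, MonoidAlgebra.coeff_single]
  have hη' : η = MonoidAlgebra.single g hg := by
    apply MonoidAlgebra.coeff_injective
    rw [hg2.2, MonoidAlgebra.coeff_single]
  refine ⟨g, hg, ?_, hη'⟩
  rw [hB', hη', MonoidAlgebra.single_mul_single, MonoidAlgebra.one_def,
    MonoidAlgebra.single_inj] at h
  rcases h with ⟨_, h⟩ | ⟨_, h⟩
  · exact Int.isUnit_iff.1 (IsUnit.of_mul_eq_one hb ((mul_comm _ _).trans h))
  · exact absurd h one_ne_zero

/-- For a finite set and a decreasing family with trivial intersection, the quotients separate. -/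
theorem ThmDC_sep (K : ℕ → Subgroup (FreeGroup (Fin 2))) (hanti : Antitone K)
    (hinf : ∀ f, (∀ m, f ∈ K m) → f = 1) (T : Finset (FreeGroup (Fin 2))) :
    ∃ m, ∀ a ∈ T, ∀ b ∈ T,
      (QuotientGroup.mk a : FreeGroup (Fin 2) ⧸ K m) = QuotientGroup.mk b → a = b := by
  classical
  have h1 : ∀ a b : FreeGroup (Fin 2), ∃ m0, ∀ m, m0 ≤ m → a ≠ b → a⁻¹ * b ∉ K m := by
    intro a b
    by_cases hab : a = b
    · exact ⟨0, fun m _ h => absurd hab h⟩
    · by_contra hcon
      push Not at hcon
      apply hab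
      rw [← inv_mul_eq_one]
      refine hinf _ fun m => ?_
      obtain ⟨m', hm', _, h⟩ := hcon m
      exact hanti hm' h
  choose M hM using h1
  refine ⟨T.sup fun a => T.sup fun b => M a b, fun a ha b hb h => ?_⟩
  by_contra hab
  refine hM a b _ ?_ hab (QuotientGroup.eq.1 h)
  exact (Finset.le_sup (f := fun b => M a b) hb).trans
    (Finset.le_sup (f := fun a => T.sup fun b => M a b) ha)

theorem thmD_C (K : ℕ → Subgroup (FreeGroup (Fin 2))) (hn : ∀ m, (K m).Normal)
    (hanti : Antitone K) (hinf : ∀ f, (∀ m, f ∈ K m) → f = 1)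
    (hc : ∀ m, K m ≤ commutator (FreeGroup (Fin 2)))
    (ho : ∀ m, ∃ o : LinearOrder (FreeGroup (Fin 2) ⧸ K m),
      ∀ a b c : FreeGroup (Fin 2) ⧸ K m, o.lt a b → o.lt (c * a) (c * b))
    (s s' : Fin 2) (hs : s ≠ s') (v : FreeGroup (Fin 2))
    (hv : v * (FreeGroup.of s')⁻¹ ∈ commutator (FreeGroup (Fin 2)))
    (hd : ∀ m, Subgroup.closure {FreeGroup.of s, v} ⊔ ⁅K m, K m⁆ = ⊤) :
    Subgroup.closure {FreeGroup.of s, v} = ⊤ := by
  classical
  have hcases : ∀ s s' i : Fin 2, s ≠ s' → i = s ∨ i = s' := by decide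
  set x := FreeGroup.of s with hx
  set y := FreeGroup.of s' with hy
  obtain ⟨δ, hδ, hδo⟩ := ThmDC_exists (fun i => if i = s' then 1 else 0)
  have hδx : δ x = 0 := by rw [hx, hδo, if_neg hs]
  have hδy : δ y = 1 := by rw [hy, hδo, if_pos rfl]
  have hδ1 : δ 1 = 0 := by
    have := hδ 1 1
    rw [mul_one, ThmDC_sg_one, one_mul] at this
    exact left_eq_add.1 this
  have hδinv : ∀ f, δ f⁻¹ = - (ThmDC_sg f⁻¹ * δ f) := by
    intro f
    have := hδ f⁻¹ f
    rw [inv_mul_cancel, hδ1] at this
    exact eq_neg_of_add_eq_zero_left this.symm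
  set η := δ v with hη
  -- augmentation
  set aug : MonoidAlgebra ℤ (FreeGroup (Fin 2)) →ₐ[ℤ] ℤ :=
    MonoidAlgebra.lift ℤ ℤ (FreeGroup (Fin 2)) (1 : FreeGroup (Fin 2) →* ℤ) with haug
  have haugsg : ∀ f, aug (ThmDC_sg f) = 1 := by
    intro f
    unfold ThmDC_sg
    rw [haug, MonoidAlgebra.lift_single]
    simp
  let E : FreeGroup (Fin 2) →* Multiplicative ℤ :=
    { toFun := fun f => Multiplicative.ofAdd (aug (δ f))
      map_one' := by rw [hδ1, map_zero]; rfl
      map_mul' := fun f g => by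
        rw [hδ, map_add, map_mul, haugsg, one_mul]; rfl }
  have hEx : E x = 1 := by
    change Multiplicative.ofAdd (aug (δ x)) = 1
    rw [hδx, map_zero]; rfl
  have hEy : E y = Multiplicative.ofAdd 1 := by
    change Multiplicative.ofAdd (aug (δ y)) = _
    rw [hδy, map_one]
  have hEv : E v = Multiplicative.ofAdd 1 := by
    have h1 := Abelianization.commutator_subset_ker E hv
    rw [MonoidHom.mem_ker, map_mul, map_inv, mul_inv_eq_one] at h1
    rw [h1, hEy]
  have haugη : aug η = 1 := Multiplicative.ofAdd.injective hEv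
  -- the quotient where everything is separated
  obtain ⟨m, hm⟩ := ThmDC_sep K hanti hinf η.coeff.support
  have hnm := hn m
  obtain ⟨o, ho'⟩ := ho m
  have hmono : MulLeftStrictMono (FreeGroup (Fin 2) ⧸ K m) := ⟨fun c a b h => ho' a b c h⟩
  set π := MonoidAlgebra.mapDomainRingHom ℤ (QuotientGroup.mk' (K m)) with hπ
  have hπsg : ∀ f, π (ThmDC_sg f) = ThmDC_sg (QuotientGroup.mk f) := by
    intro f
    unfold ThmDC_sg
    simp [hπ]
  -- derivatives of elements of the commutator subgroup
  have hcomm : ∀ k ∈ (⁅K m, K m⁆ : Subgroup (FreeGroup (Fin 2))), π (δ k) = 0 := by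
    let φ : K m →* Multiplicative (MonoidAlgebra ℤ (FreeGroup (Fin 2) ⧸ K m)) :=
      { toFun := fun f => Multiplicative.ofAdd (π (δ f.1))
        map_one' := by
          change Multiplicative.ofAdd (π (δ 1)) = 1
          rw [hδ1, map_zero]; rfl
        map_mul' := fun f g => by
          change Multiplicative.ofAdd (π (δ (f.1 * g.1))) = _
          rw [hδ, map_add, map_mul, hπsg, (QuotientGroup.eq_one_iff f.1).2 f.2, ThmDC_sg_one,
            one_mul]; rfl }
    intro k hk
    have h1 : k ∈ (commutator (K m)).map (K m).subtype := by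
      rwa [Subgroup.map_subtype_commutator]
    obtain ⟨g, hg1, rfl⟩ := h1
    have h2 := Abelianization.commutator_subset_ker φ hg1
    rw [MonoidHom.mem_ker] at h2
    exact h2
  -- derivatives of elements of the subgroup
  have hideal : ∀ w ∈ Subgroup.closure {x, v}, π (δ w) ∈ Ideal.span {π η} := by
    intro w hw
    induction hw using Subgroup.closure_induction with
    | mem w hw =>
      rcases hw with rfl | rfl
      · rw [hδx, map_zero]; exact Ideal.zero_mem _
      · exact Ideal.subset_span rfl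
    | one => rw [hδ1, map_zero]; exact Ideal.zero_mem _
    | mul a b _ _ ha hb =>
      rw [hδ, map_add, map_mul]
      exact Ideal.add_mem _ ha (Ideal.mul_mem_left _ _ hb)
    | inv a _ ha =>
      rw [hδinv, map_neg, map_mul]
      exact (Ideal.neg_mem_iff _).2 (Ideal.mul_mem_left _ _ ha)
  have hunit : ∃ B, B * π η = 1 := by
    have h1 : y ∈ Subgroup.closure {x, v} ⊔ ⁅K m, K m⁆ := by rw [hd m]; exact Subgroup.mem_top _
    have hnc : (⁅K m, K m⁆ : Subgroup (FreeGroup (Fin 2))).Normal :=
      Subgroup.commutator_normal _ _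
    obtain ⟨w, hw, k, hk, hwk⟩ := Subgroup.mem_sup_of_normal_right.1 h1
    have h2 : π (δ y) = π (δ w) := by
      rw [← hwk, hδ, map_add, map_mul, hcomm k hk, mul_zero, add_zero]
    rw [hδy, map_one] at h2
    have h3 := hideal w hw
    rw [← h2, Ideal.mem_span_singleton'] at h3
    exact h3
  obtain ⟨B, hB⟩ := hunit
  obtain ⟨gb, n, hn1, hηg⟩ := ThmDC_unit B (π η) hB
  have hn0 : n ≠ 0 := by rcases hn1 with h | h <;> rw [h] <;> norm_num
  -- coefficients
  have hcoef : ∀ f ∈ η.coeff.support, (π η).coeff (QuotientGroup.mk f) = η.coeff f := by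
    intro f hf
    have h1 : (π η).coeff = Finsupp.mapDomain (QuotientGroup.mk : FreeGroup (Fin 2) →
        FreeGroup (Fin 2) ⧸ K m) η.coeff := rfl
    rw [h1]
    exact Finsupp.mapDomain_apply' (η.coeff.support : Set (FreeGroup (Fin 2))) η.coeff
      (le_refl _) (fun a ha b hb hab => hm a ha b hb hab) hf
  have hsupp : ∀ f ∈ η.coeff.support, (QuotientGroup.mk f : FreeGroup (Fin 2) ⧸ K m) = gb := by
    intro f hf
    have h1 := hcoef f hf
    rw [hηg, MonoidAlgebra.coeff_single, Finsupp.single_apply] at h1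
    by_contra hne
    rw [if_neg (fun h => hne h.symm)] at h1
    exact (Finsupp.mem_support_iff.1 hf) h1.symm
  obtain ⟨g, hg⟩ : ∃ g, g ∈ η.coeff.support := by
    by_contra hcon
    push Not at hcon
    have h1 : η.coeff = 0 := Finsupp.support_eq_empty.1 (Finset.eq_empty_of_forall_notMem hcon)
    rw [MonoidAlgebra.coeff_eq_zero] at h1
    rw [h1, map_zero, eq_comm, MonoidAlgebra.single_eq_zero] at hηg
    exact hn0 hηg
  have hηsingle : η = MonoidAlgebra.single g (η.coeff g) := by
    apply MonoidAlgebra.coeff_injective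
    rw [MonoidAlgebra.coeff_single]
    ext f
    rw [Finsupp.single_apply]
    split_ifs with h1
    · rw [h1]
    · by_contra hne
      have hf := Finsupp.mem_support_iff.2 hne
      exact h1 (hm g hg f hf ((hsupp g hg).trans (hsupp f hf).symm))
  have hη2 : η = ThmDC_sg g := by
    have h1 : η.coeff g = 1 := by
      have h2 := haugη
      rw [hηsingle, haug, MonoidAlgebra.lift_single] at h2
      simpa using h2
    rw [hηsingle, h1]
    rfl
  -- the fundamental formula
  have hfund : ∀ f, ∃ r, ThmDC_sg f - 1 = r * (ThmDC_sg x - 1) + δ f * (ThmDC_sg y - 1) := by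
    have hinv : ∀ f, (∃ r, ThmDC_sg f - 1 = r * (ThmDC_sg x - 1) + δ f * (ThmDC_sg y - 1)) →
        ∃ r, ThmDC_sg f⁻¹ - 1 = r * (ThmDC_sg x - 1) + δ f⁻¹ * (ThmDC_sg y - 1) := by
      rintro f ⟨r, hr⟩
      refine ⟨-(ThmDC_sg f⁻¹ * r), ?_⟩
      have h1 : ThmDC_sg f⁻¹ - 1 = -(ThmDC_sg f⁻¹ * (ThmDC_sg f - 1)) := by
        rw [mul_sub, ThmDC_sg_inv_mul, mul_one]; abel
      rw [h1, hr, hδinv]
      noncomm_ring
    intro f
    induction f using FreeGroup.induction_on with
    | C1 => exact ⟨0, by rw [hδ1, ThmDC_sg_one]; simp⟩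
    | of i =>
      have hi : i = s ∨ i = s' := hcases s s' i hs
      rcases hi with rfl | rfl
      · exact ⟨1, by rw [← hx, hδx]; simp⟩
      · exact ⟨0, by rw [← hy, hδy]; simp⟩
    | inv_of i hi => exact hinv _ hi
    | mul f g hf hg =>
      obtain ⟨r1, hr1⟩ := hf
      obtain ⟨r2, hr2⟩ := hg
      refine ⟨r1 + ThmDC_sg f * r2, ?_⟩
      have h1 : ThmDC_sg (f * g) - 1 = (ThmDC_sg f - 1) + ThmDC_sg f * (ThmDC_sg g - 1) := by
        rw [ThmDC_sg_mul, mul_sub, mul_one]; abel
      rw [h1, hr1, hr2, hδ]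
      noncomm_ring
  -- projection to the cosets of `x`
  set X := Subgroup.closure {x} with hX
  let P : MonoidAlgebra ℤ (FreeGroup (Fin 2)) →+ (FreeGroup (Fin 2) ⧸ X →₀ ℤ) :=
    (Finsupp.mapDomain.addMonoidHom (QuotientGroup.mk : FreeGroup (Fin 2) →
      FreeGroup (Fin 2) ⧸ X)).comp MonoidAlgebra.coeffAddEquiv.toAddMonoidHom
  have hPs : ∀ f, P (ThmDC_sg f) = Finsupp.single (QuotientGroup.mk f) 1 := by
    intro f
    change Finsupp.mapDomain _ (Finsupp.single f (1 : ℤ)) = _
    rw [Finsupp.mapDomain_single]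
  have hPx : ∀ r, P (r * (ThmDC_sg x - 1)) = 0 := by
    intro r
    induction r using MonoidAlgebra.induction_linear with
    | zero => rw [zero_mul, map_zero]
    | add a b ha hb => rw [add_mul, map_add, ha, hb, add_zero]
    | single a n =>
      rw [mul_sub, mul_one, map_sub, sub_eq_zero]
      unfold ThmDC_sg
      rw [MonoidAlgebra.single_mul_single, mul_one]
      change Finsupp.mapDomain _ (Finsupp.single (a * x) n) =
        Finsupp.mapDomain _ (Finsupp.single a n)
      rw [Finsupp.mapDomain_single, Finsupp.mapDomain_single]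
      congr 1
      rw [eq_comm, QuotientGroup.eq, inv_mul_cancel_left]
      exact Subgroup.mem_closure_singleton_self x
  obtain ⟨r, hr⟩ := hfund v
  have hfin : (Finsupp.single (QuotientGroup.mk v) 1 : FreeGroup (Fin 2) ⧸ X →₀ ℤ) +
      Finsupp.single (QuotientGroup.mk g) 1 =
      Finsupp.single (QuotientGroup.mk (g * y)) 1 + Finsupp.single (QuotientGroup.mk 1) 1 := by
    have h1 := congrArg P hr
    rw [map_sub, map_add, hPx, zero_add, ← hη, hη2, mul_sub, mul_one, map_sub, ← ThmDC_sg_mul,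
      hPs, hPs, hPs, ← ThmDC_sg_one, hPs, sub_eq_sub_iff_add_eq_add] at h1
    exact h1
  have hvX : (QuotientGroup.mk v : FreeGroup (Fin 2) ⧸ X) ≠ QuotientGroup.mk 1 := by
    intro h1
    rw [eq_comm, QuotientGroup.eq, inv_one, one_mul] at h1
    obtain ⟨k, hk⟩ := Subgroup.mem_closure_singleton.1 h1
    have h2 := hEv
    rw [← hk, map_zpow, hEx, one_zpow] at h2
    exact absurd (Multiplicative.ofAdd.injective h2) (by norm_num)
  have h1 : (QuotientGroup.mk v : FreeGroup (Fin 2) ⧸ X) = QuotientGroup.mk (g * y) := by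
    have h2 := DFunLike.congr_fun hfin (QuotientGroup.mk v)
    simp only [Finsupp.add_apply, Finsupp.single_apply, if_true] at h2
    by_contra hne
    have e1 : ¬ (QuotientGroup.mk (g * y) : FreeGroup (Fin 2) ⧸ X) = QuotientGroup.mk v :=
      fun h => hne h.symm
    have e2 : ¬ (QuotientGroup.mk 1 : FreeGroup (Fin 2) ⧸ X) = QuotientGroup.mk v :=
      fun h => hvX h.symm
    rw [if_neg e1, if_neg e2] at h2
    split_ifs at h2 <;> omega
  have h2 : (QuotientGroup.mk g : FreeGroup (Fin 2) ⧸ X) = QuotientGroup.mk 1 := by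
    rw [h1, add_right_inj] at hfin
    exact Finsupp.single_left_injective one_ne_zero hfin
  rw [eq_comm, QuotientGroup.eq, inv_one, one_mul] at h2
  rw [eq_comm, QuotientGroup.eq] at h1
  have hXle : X ≤ Subgroup.closure {x, v} := Subgroup.closure_mono (by simp)
  have hymem : y ∈ Subgroup.closure {x, v} := by
    have h3 : y = g⁻¹ * v * ((g * y)⁻¹ * v)⁻¹ := by group
    rw [h3]
    exact Subgroup.mul_mem _ (Subgroup.mul_mem _ (Subgroup.inv_mem _ (hXle h2))
      (Subgroup.subset_closure (by simp))) (Subgroup.inv_mem _ (hXle h1))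
  rw [eq_top_iff, ← FreeGroup.closure_range_of, Subgroup.closure_le]
  rintro _ ⟨i, rfl⟩
  have hi : i = s ∨ i = s' := hcases s s' i hs
  rcases hi with rfl | rfl
  · exact Subgroup.subset_closure (by simp [hx])
  · exact hymem

end SclIso
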