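import Pool.Agent.H.MP_1b0e60_al.ThmDA
import Pool.Agent.H.MP_1b0e60_al.ThmDB
import Pool.Agent.H.MP_1b0e60_al.ThmDC

/-!
Theorem D: a 2-generated subgroup of `F_2` which is dense in a suitable topology is `F_2`.
-/

open Equiv Filter Topology

namespace SclIso

/-- invariance of a flow under the letter `s`, in terms of `mapDomain` -/
private theorem thmD_inv_iff {Ω : Type*} (p : Perm Ω) (s : Fin 2) (c : Ω × Fin 2 →₀ ℤ) :
    (∀ ω, c (p ω, s) = c (ω, s)) ↔
      (c.filter (fun e => e.2 = s)).mapDomain (Prod.map p id) = c.filter (fun e => e.2 = s) := by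
  have hinj : Function.Injective (Prod.map p (id : Fin 2 → Fin 2)) :=
    Function.Injective.prodMap p.injective Function.injective_id
  constructor
  · intro h
    ext ⟨ω, a⟩
    have h1 : ((ω, a) : Ω × Fin 2) = Prod.map p id (p.symm ω, a) := by simp
    rw [h1, Finsupp.mapDomain_apply hinj]
    by_cases ha : a = s
    · subst ha
      rw [Finsupp.filter_apply_pos, Finsupp.filter_apply_pos]
      · simpa using (h (p.symm ω)).symm
      · simp
      · simp
    · rw [Finsupp.filter_apply_neg, Finsupp.filter_apply_neg]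
      · simpa using ha
      · simpa using ha
  · intro h ω
    have h1 := DFunLike.congr_fun h (Prod.map p id (ω, s))
    rw [Finsupp.mapDomain_apply hinj, Finsupp.filter_apply_pos, Finsupp.filter_apply_pos] at h1
    · simpa using h1.symm
    · simp
    · simp

private theorem thmD_inv_mono {Ω Ω' : Type*} (t : Fin 2 → Perm Ω) (t' : Fin 2 → Perm Ω')
    (q : Ω → Ω') (hq : ∀ s x, q (t s x) = t' s (q x)) (w : List (Fin 2 × Bool)) (x : Ω) (s : Fin 2)
    (h : ∀ ω, flow t w x (t s ω, s) = flow t w x (ω, s)) (ω : Ω') :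
    flow t' w (q x) (t' s ω, s) = flow t' w (q x) (ω, s) := by
  revert ω
  rw [thmD_inv_iff] at h ⊢
  rw [flow_map t t' q hq]
  have hf : ((flow t w x).mapDomain (Prod.map q id)).filter (fun e : Ω' × Fin 2 => e.2 = s) =
      ((flow t w x).filter (fun e => e.2 = s)).mapDomain (Prod.map q id) := by
    classical
    rw [← Finsupp.sum_single (flow t w x)]
    simp only [Finsupp.sum]
    induction (flow t w x).support using Finset.induction_on with
    | empty =>
      rw [Finset.sum_empty, Finsupp.mapDomain_zero, Finsupp.filter_zero, Finsupp.filter_zero,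
        Finsupp.mapDomain_zero]
    | insert e T he ih =>
      rw [Finset.sum_insert he, Finsupp.mapDomain_add, Finsupp.filter_add, ih, Finsupp.filter_add,
        Finsupp.mapDomain_add]
      congr 1
      rw [Finsupp.mapDomain_single]
      by_cases hs : e.2 = s
      · rw [Finsupp.filter_single_of_pos _ (by simpa using hs),
          Finsupp.filter_single_of_pos _ (by simpa using hs), Finsupp.mapDomain_single]
      · rw [Finsupp.filter_single_of_neg _ (by simpa using hs),
          Finsupp.filter_single_of_neg _ (by simpa using hs), Finsupp.mapDomain_zero]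
  rw [hf, ← Finsupp.mapDomain_comp]
  have hc : (Prod.map (t' s) id : Ω' × Fin 2 → Ω' × Fin 2) ∘ Prod.map q id =
      (Prod.map q id : Ω × Fin 2 → Ω' × Fin 2) ∘ Prod.map (t s) id := by
    funext e
    exact Prod.ext (hq s e.1).symm rfl
  rw [hc, Finsupp.mapDomain_comp, h]

private theorem thmD_coset_mono (U K K' : Subgroup (FreeGroup (Fin 2))) (hK : K' ≤ K)
    (w : List (Fin 2 × Bool)) (s : Fin 2)
    (h : ∀ ω : FreeGroup (Fin 2) ⧸ (U ⊔ K'),
      flow (cosetAct _) w (QuotientGroup.mk 1) (cosetAct _ s ω, s) =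
        flow (cosetAct _) w (QuotientGroup.mk 1) (ω, s)) :
    ∀ ω : FreeGroup (Fin 2) ⧸ (U ⊔ K),
      flow (cosetAct _) w (QuotientGroup.mk 1) (cosetAct _ s ω, s) =
        flow (cosetAct _) w (QuotientGroup.mk 1) (ω, s) := by
  have hle : U ⊔ K' ≤ U ⊔ K := sup_le_sup_left hK U
  let q : FreeGroup (Fin 2) ⧸ (U ⊔ K') → FreeGroup (Fin 2) ⧸ (U ⊔ K) :=
    Quotient.map' id (by
      intro a b hab
      rw [QuotientGroup.leftRel_apply] at hab ⊢
      exact hle hab)
  have hq : ∀ s x, q (cosetAct _ s x) = cosetAct _ s (q x) := by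
    intro s x
    induction x using QuotientGroup.induction_on with
    | H z => rfl
  exact thmD_inv_mono (cosetAct (U ⊔ K')) (cosetAct (U ⊔ K)) q hq w (QuotientGroup.mk 1) s h

private theorem thmD_conj_mem (g f : FreeGroup (Fin 2)) :
    (g⁻¹ * f * g) * f⁻¹ ∈ commutator (FreeGroup (Fin 2)) := by
  have h : (g⁻¹ * f * g) * f⁻¹ = g⁻¹ * f * g⁻¹⁻¹ * f⁻¹ := by group
  rw [h, commutator_def]
  exact Subgroup.commutator_mem_commutator (Subgroup.mem_top _) (Subgroup.mem_top _)

private theorem thmD_closure_conj (g a b a' b' : FreeGroup (Fin 2))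
    (ha : a' = g⁻¹ * a * g) (hb : b' = g⁻¹ * b * g) (P : Subgroup (FreeGroup (Fin 2)))
    (hP : P.Normal) (h : Subgroup.closure {a, b} ⊔ P = ⊤) :
    Subgroup.closure {a', b'} ⊔ P = ⊤ := by
  have h0 : Subgroup.map (MulAut.conj g⁻¹).toMonoidHom P = P :=
    Subgroup.Normal.map_conj_eq P g⁻¹
  have h1 : Subgroup.map (MulAut.conj g⁻¹).toMonoidHom (Subgroup.closure {a, b} ⊔ P)
      = Subgroup.closure {a', b'} ⊔ P := by
    rw [Subgroup.map_sup, MonoidHom.map_closure, h0, Set.image_pair]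
    congr 3
    · rw [ha]
      simp [MulAut.conj_apply]
    · rw [hb]
      simp [MulAut.conj_apply]
  rw [← h1, h]
  exact Subgroup.map_top_of_surjective _ (MulAut.conj g⁻¹).surjective

private theorem thmD_closure_conj' (g a b a' b' : FreeGroup (Fin 2))
    (ha : a' = g⁻¹ * a * g) (hb : b' = g⁻¹ * b * g)
    (h : Subgroup.closure {a, b} = ⊤) :
    Subgroup.closure {a', b'} = ⊤ := by
  have h2 := thmD_closure_conj g a b a' b' ha hb ⊥ inferInstance (by rw [h]; simp)
  simpa using h2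

private theorem thmD_aux (K : ℕ → Subgroup (FreeGroup (Fin 2))) (hn : ∀ m, (K m).Normal)
    (hanti : Antitone K) (hinf : ∀ f, (∀ m, f ∈ K m) → f = 1)
    (hc : ∀ m, K m ≤ commutator (FreeGroup (Fin 2)))
    (ho : ∀ m, ∃ o : LinearOrder (FreeGroup (Fin 2) ⧸ K m),
      ∀ a b c : FreeGroup (Fin 2) ⧸ K m, o.lt a b → o.lt (c * a) (c * b))
    (s s' : Fin 2) (hs : s ≠ s') (u v : FreeGroup (Fin 2))
    (hd : ∀ m, Subgroup.closure {u, v} ⊔ ⁅K m, K m⁆ = ⊤)
    (hu : u * (FreeGroup.of s)⁻¹ ∈ commutator (FreeGroup (Fin 2)))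
    (hv : v * (FreeGroup.of s')⁻¹ ∈ commutator (FreeGroup (Fin 2)))
    (h : ∀ m, ∀ ω : FreeGroup (Fin 2) ⧸ (Subgroup.closure {u} ⊔ K m),
      flow (cosetAct _) u.toWord (QuotientGroup.mk 1) (cosetAct _ s ω, s) =
        flow (cosetAct _) u.toWord (QuotientGroup.mk 1) (ω, s)) :
    Subgroup.closure {u, v} = ⊤ := by
  obtain ⟨g, hg⟩ := thmD_B K hn hanti hinf hc s u hu h
  have hkey : Subgroup.closure {FreeGroup.of s, g⁻¹ * v * g} = ⊤ := by
    apply thmD_C K hn hanti hinf hc ho s s' hs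
    · have h1 : g⁻¹ * v * g * (FreeGroup.of s')⁻¹ =
          (g⁻¹ * v * g * v⁻¹) * (v * (FreeGroup.of s')⁻¹) := by group
      rw [h1]
      exact mul_mem (thmD_conj_mem g v) hv
    · intro m
      have := hn m
      refine thmD_closure_conj g u v _ _ ?_ rfl _ inferInstance (hd m)
      rw [hg]
      group
  refine thmD_closure_conj' g⁻¹ (FreeGroup.of s) (g⁻¹ * v * g) u v ?_ ?_ hkey
  · rw [hg]
    group
  · group

/-- Theorem D -/
theorem thmD (K : ℕ → Subgroup (FreeGroup (Fin 2))) (hn : ∀ m, (K m).Normal)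
    (hanti : Antitone K) (hinf : ∀ f, (∀ m, f ∈ K m) → f = 1)
    (hc : ∀ m, K m ≤ commutator (FreeGroup (Fin 2)))
    (ho : ∀ m, ∃ o : LinearOrder (FreeGroup (Fin 2) ⧸ K m),
      ∀ a b c : FreeGroup (Fin 2) ⧸ K m, o.lt a b → o.lt (c * a) (c * b))
    (u v : FreeGroup (Fin 2)) (hd : ∀ m, Subgroup.closure {u, v} ⊔ ⁅K m, K m⁆ = ⊤)
    (hu : u * (FreeGroup.of 0)⁻¹ ∈ commutator (FreeGroup (Fin 2)))
    (hv : v * (FreeGroup.of 1)⁻¹ ∈ commutator (FreeGroup (Fin 2))) :
    Subgroup.closure {u, v} = ⊤ := by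
  have hA := fun m =>
    haveI := hn m
    thmD_A (K m) (hc m) (ho m) u v (hd m) hu hv
  by_cases h : ∀ m, ∀ ω : FreeGroup (Fin 2) ⧸ (Subgroup.closure {u} ⊔ K m),
      flow (cosetAct _) u.toWord (QuotientGroup.mk 1) (cosetAct _ 0 ω, 0) =
        flow (cosetAct _) u.toWord (QuotientGroup.mk 1) (ω, 0)
  · exact thmD_aux K hn hanti hinf hc ho 0 1 (by decide) u v hd hu hv h
  · push Not at h
    obtain ⟨m₀, ω₀, hω₀⟩ := h
    have hB : ∀ m, ∀ ω : FreeGroup (Fin 2) ⧸ (Subgroup.closure {v} ⊔ K m),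
        flow (cosetAct _) v.toWord (QuotientGroup.mk 1) (cosetAct _ 1 ω, 1) =
          flow (cosetAct _) v.toWord (QuotientGroup.mk 1) (ω, 1) := by
      intro m
      rcases hA (max m m₀) with h1 | h1
      · exact absurd (thmD_coset_mono (Subgroup.closure {u}) (K m₀) (K (max m m₀))
          (hanti (le_max_right m m₀)) u.toWord 0 h1 ω₀) hω₀
      · exact thmD_coset_mono (Subgroup.closure {v}) (K m) (K (max m m₀))
          (hanti (le_max_left m m₀)) v.toWord 1 h1
    have := thmD_aux K hn hanti hinf hc ho 1 0 (by decide) v u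
      (fun m => by rw [Set.pair_comm]; exact hd m) hv hu hB
    rw [Set.pair_comm]
    exact this

end SclIso
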