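import Pool.Agent.H.MP_1b0e60_al.ThmDA_Step

/-!
Part of ThmDA: Fox calculus.
-/

open Equiv

namespace SclIso

section Fox

variable {G : Type*} [Group G]

theorem ThmDA_ind {P : FreeGroup (Fin 2) → Prop} (h1 : P 1) (hof : ∀ s, P (FreeGroup.of s))
    (hinv : ∀ f, P f → P f⁻¹) (hmul : ∀ f g, P f → P g → P (f * g)) : ∀ f, P f := by
  intro f
  exact FreeGroup.induction_on f h1 hof (fun x h => hinv _ h) hmul

/-- an affine permutation of the group ring -/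
noncomputable def ThmDA_aff (g : G) (c : MonoidAlgebra ℤ G) : Perm (MonoidAlgebra ℤ G) where
  toFun r := ThmDA_gr g * r + c
  invFun r := ThmDA_gr g⁻¹ * (r - c)
  left_inv r := by
    show ThmDA_gr g⁻¹ * ((ThmDA_gr g * r + c) - c) = r
    rw [add_sub_cancel_right, ← mul_assoc, ← ThmDA_gr_mul, inv_mul_cancel, ThmDA_gr_one, one_mul]
  right_inv r := by
    show ThmDA_gr g * (ThmDA_gr g⁻¹ * (r - c)) + c = r
    rw [← mul_assoc, ← ThmDA_gr_mul, mul_inv_cancel, ThmDA_gr_one, one_mul, sub_add_cancel]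

theorem ThmDA_aff_apply (g : G) (c r : MonoidAlgebra ℤ G) :
    ThmDA_aff g c r = ThmDA_gr g * r + c := rfl

/-- the affine representation whose translation part is the Fox derivative -/
noncomputable def ThmDA_psi (q : FreeGroup (Fin 2) →* G) (s : Fin 2) :
    FreeGroup (Fin 2) →* Perm (MonoidAlgebra ℤ G) :=
  FreeGroup.lift (fun s' => ThmDA_aff (q (FreeGroup.of s')) (if s = s' then 1 else 0))

/-- Fox derivative, in the group ring of a quotient -/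
noncomputable def ThmDA_fox (q : FreeGroup (Fin 2) →* G) (s : Fin 2) (f : FreeGroup (Fin 2)) :
    MonoidAlgebra ℤ G := ThmDA_psi q s f 0

theorem ThmDA_psi_eq (q : FreeGroup (Fin 2) →* G) (s : Fin 2) (f : FreeGroup (Fin 2)) :
    ∀ r, ThmDA_psi q s f r = ThmDA_gr (q f) * r + ThmDA_fox q s f := by
  refine ThmDA_ind (P := fun f => ∀ r, ThmDA_psi q s f r = ThmDA_gr (q f) * r + ThmDA_fox q s f)
    ?_ ?_ ?_ ?_ f
  · intro r
    unfold ThmDA_fox
    rw [map_one, map_one, ThmDA_gr_one, one_mul]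
    show r = r + 0
    rw [add_zero]
  · intro s' r
    unfold ThmDA_fox ThmDA_psi
    rw [FreeGroup.lift_apply_of]
    rw [ThmDA_aff_apply, ThmDA_aff_apply, mul_zero, zero_add]
  · intro f hf r
    have h1 : ∀ r, ThmDA_psi q s f⁻¹ r = ThmDA_gr (q f)⁻¹ * (r - ThmDA_fox q s f) := by
      intro r
      rw [map_inv, Perm.inv_eq_iff_eq, hf, ← mul_assoc, ← ThmDA_gr_mul, mul_inv_cancel,
        ThmDA_gr_one, one_mul, sub_add_cancel]
    have h2 : ThmDA_fox q s f⁻¹ = ThmDA_gr (q f)⁻¹ * (0 - ThmDA_fox q s f) := h1 0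
    rw [h1, h2, map_inv, mul_sub, mul_sub, mul_zero, zero_sub, sub_eq_add_neg]
  · intro f g hf hg r
    have h2 : ThmDA_fox q s (f * g) = ThmDA_gr (q f) * ThmDA_fox q s g + ThmDA_fox q s f := by
      show ThmDA_psi q s (f * g) 0 = _
      rw [map_mul, Perm.mul_apply, hf]
      rfl
    rw [h2, map_mul, Perm.mul_apply, hf, hg, map_mul, ThmDA_gr_mul, mul_add, mul_assoc, add_assoc]

theorem ThmDA_fox_mul (q : FreeGroup (Fin 2) →* G) (s : Fin 2) (f g : FreeGroup (Fin 2)) :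
    ThmDA_fox q s (f * g) = ThmDA_fox q s f + ThmDA_gr (q f) * ThmDA_fox q s g := by
  show ThmDA_psi q s (f * g) 0 = _
  rw [map_mul, Perm.mul_apply, ThmDA_psi_eq, add_comm]
  rfl

theorem ThmDA_fox_one (q : FreeGroup (Fin 2) →* G) (s : Fin 2) : ThmDA_fox q s 1 = 0 := by
  unfold ThmDA_fox
  rw [map_one]; rfl

theorem ThmDA_fox_inv (q : FreeGroup (Fin 2) →* G) (s : Fin 2) (f : FreeGroup (Fin 2)) :
    ThmDA_fox q s f⁻¹ = - (ThmDA_gr (q f)⁻¹ * ThmDA_fox q s f) := by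
  have h := ThmDA_fox_mul q s f⁻¹ f
  rw [inv_mul_cancel, ThmDA_fox_one, map_inv] at h
  exact eq_neg_of_add_eq_zero_left h.symm

theorem ThmDA_fox_of (q : FreeGroup (Fin 2) →* G) (s s' : Fin 2) :
    ThmDA_fox q s (FreeGroup.of s') = if s = s' then 1 else 0 := by
  unfold ThmDA_fox ThmDA_psi
  rw [FreeGroup.lift_apply_of]
  rw [ThmDA_aff_apply, mul_zero, zero_add]

theorem ThmDA_fund (q : FreeGroup (Fin 2) →* G) (f : FreeGroup (Fin 2)) :
    ThmDA_fox q 0 f * (ThmDA_gr (q (FreeGroup.of 0)) - 1)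
      + ThmDA_fox q 1 f * (ThmDA_gr (q (FreeGroup.of 1)) - 1) = ThmDA_gr (q f) - 1 := by
  refine ThmDA_ind (P := fun f => ThmDA_fox q 0 f * (ThmDA_gr (q (FreeGroup.of 0)) - 1)
      + ThmDA_fox q 1 f * (ThmDA_gr (q (FreeGroup.of 1)) - 1) = ThmDA_gr (q f) - 1)
    ?_ ?_ ?_ ?_ f
  · rw [ThmDA_fox_one, ThmDA_fox_one, map_one, ThmDA_gr_one, sub_self, zero_mul, zero_mul, add_zero]
  · intro s
    rw [ThmDA_fox_of, ThmDA_fox_of]
    fin_cases s <;> simp
  · intro f hf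
    rw [ThmDA_fox_inv, ThmDA_fox_inv]
    have h1 : ThmDA_gr (q f)⁻¹ * ThmDA_gr (q f) = 1 := by
      rw [← ThmDA_gr_mul, inv_mul_cancel, ThmDA_gr_one]
    rw [map_inv]
    have h2 : ThmDA_gr (q f)⁻¹ - 1 = - (ThmDA_gr (q f)⁻¹ * (ThmDA_gr (q f) - 1)) := by
      rw [mul_sub, h1, mul_one, neg_sub]
    rw [h2, ← hf]
    noncomm_ring
  · intro f g hf hg
    rw [ThmDA_fox_mul, ThmDA_fox_mul, map_mul, ThmDA_gr_mul]
    have h2 : ThmDA_gr (q f) * ThmDA_gr (q g) - 1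
        = (ThmDA_gr (q f) - 1) + ThmDA_gr (q f) * (ThmDA_gr (q g) - 1) := by
      rw [mul_sub, mul_one]; abel
    rw [h2, ← hf, ← hg]
    noncomm_ring

/-- the derivative vanishes on the commutator subgroup of the kernel -/
theorem ThmDA_fox_comm (q : FreeGroup (Fin 2) →* G) (s : Fin 2) (K : Subgroup (FreeGroup (Fin 2)))
    (hK : ∀ f ∈ K, q f = 1) (f : FreeGroup (Fin 2)) (hf : f ∈ ⁅K, K⁆) :
    q f = 1 ∧ ThmDA_fox q s f = 0 := by
  let L : Subgroup (FreeGroup (Fin 2)) :=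
    { carrier := {f | q f = 1 ∧ ThmDA_fox q s f = 0}
      one_mem' := ⟨map_one q, ThmDA_fox_one q s⟩
      mul_mem' := by
        rintro a b ⟨ha, ha'⟩ ⟨hb, hb'⟩
        refine ⟨by rw [map_mul, ha, hb, mul_one], ?_⟩
        rw [ThmDA_fox_mul, ha', hb', mul_zero, add_zero]
      inv_mem' := by
        rintro a ⟨ha, ha'⟩
        refine ⟨by rw [map_inv, ha, inv_one], ?_⟩
        rw [ThmDA_fox_inv, ha', mul_zero, neg_zero] }
  have h : ⁅K, K⁆ ≤ L := by
    rw [Subgroup.commutator_le]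
    intro a ha b hb
    have qa := hK a ha
    have qb := hK b hb
    refine ⟨?_, ?_⟩
    · rw [commutatorElement_def, map_mul, map_mul, map_mul, map_inv, map_inv, qa, qb]; simp
    · have qab : q (a * b) = 1 := by rw [map_mul, qa, qb, mul_one]
      have qaba : q (a * b * a⁻¹) = 1 := by rw [map_mul, qab, map_inv, qa, inv_one, mul_one]
      have e1 : ThmDA_fox q s a⁻¹ = - ThmDA_fox q s a := by
        rw [ThmDA_fox_inv, qa, inv_one, ThmDA_gr_one, one_mul]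
      have e2 : ThmDA_fox q s b⁻¹ = - ThmDA_fox q s b := by
        rw [ThmDA_fox_inv, qb, inv_one, ThmDA_gr_one, one_mul]
      rw [commutatorElement_def, ThmDA_fox_mul, ThmDA_fox_mul, ThmDA_fox_mul, qab, qaba, qa, e1, e2,
        ThmDA_gr_one, one_mul, one_mul, one_mul]
      abel
  exact h hf

theorem ThmDA_fox_closure (q : FreeGroup (Fin 2) →* G) (u v z : FreeGroup (Fin 2))
    (hz : z ∈ Subgroup.closure {u, v}) :
    ∃ α β : MonoidAlgebra ℤ G,
      (∀ s, α * ThmDA_fox q s u + β * ThmDA_fox q s v = ThmDA_fox q s z) ∧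
      α * (ThmDA_gr (q u) - 1) + β * (ThmDA_gr (q v) - 1) = ThmDA_gr (q z) - 1 := by
  induction hz using Subgroup.closure_induction with
  | mem x hx =>
    rcases hx with rfl | hx
    · exact ⟨1, 0, fun s => by rw [one_mul, zero_mul, add_zero],
        by rw [one_mul, zero_mul, add_zero]⟩
    · rw [Set.mem_singleton_iff] at hx
      subst hx
      exact ⟨0, 1, fun s => by rw [one_mul, zero_mul, zero_add],
        by rw [one_mul, zero_mul, zero_add]⟩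
  | one => exact ⟨0, 0, fun s => by rw [ThmDA_fox_one]; simp, by rw [map_one, ThmDA_gr_one]; simp⟩
  | mul x y hx hy ihx ihy =>
    obtain ⟨a, b, h1, h2⟩ := ihx
    obtain ⟨c, d, h3, h4⟩ := ihy
    refine ⟨a + ThmDA_gr (q x) * c, b + ThmDA_gr (q x) * d, fun s => ?_, ?_⟩
    · rw [ThmDA_fox_mul, ← h1, ← h3]
      noncomm_ring
    · have h5 : ThmDA_gr (q (x * y)) - 1
          = (ThmDA_gr (q x) - 1) + ThmDA_gr (q x) * (ThmDA_gr (q y) - 1) := by
        rw [map_mul, ThmDA_gr_mul, mul_sub, mul_one]; abel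
      rw [h5, ← h2, ← h4]
      noncomm_ring
  | inv x hx ihx =>
    obtain ⟨a, b, h1, h2⟩ := ihx
    refine ⟨-(ThmDA_gr (q x)⁻¹ * a), -(ThmDA_gr (q x)⁻¹ * b), fun s => ?_, ?_⟩
    · rw [ThmDA_fox_inv, ← h1]
      noncomm_ring
    · have h3 : ThmDA_gr (q x)⁻¹ * ThmDA_gr (q x) = 1 := by
        rw [← ThmDA_gr_mul, inv_mul_cancel, ThmDA_gr_one]
      have h4 : ThmDA_gr (q x⁻¹) - 1 = - (ThmDA_gr (q x)⁻¹ * (ThmDA_gr (q x) - 1)) := by
        rw [map_inv, mul_sub, h3, mul_one, neg_sub]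
      rw [h4, ← h2]
      noncomm_ring

theorem ThmDA_aug_gr (g : G) : ThmDA_aug (ThmDA_gr g) = 1 := ThmDA_aug_single g 1

/-- degrees of the free group -/
def ThmDA_deg : FreeGroup (Fin 2) →* ThmDA_Z2 :=
  FreeGroup.lift ![Multiplicative.ofAdd (1, 0), Multiplicative.ofAdd (0, 1)]

theorem ThmDA_deg0 : (ThmDA_deg (FreeGroup.of 0)).toAdd = (1, 0) := by
  unfold ThmDA_deg
  rw [FreeGroup.lift_apply_of]; rfl

theorem ThmDA_deg1 : (ThmDA_deg (FreeGroup.of 1)).toAdd = (0, 1) := by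
  unfold ThmDA_deg
  rw [FreeGroup.lift_apply_of]; rfl

theorem ThmDA_aug_fox (q : FreeGroup (Fin 2) →* G) (f : FreeGroup (Fin 2)) :
    ThmDA_aug (ThmDA_fox q 0 f) = (ThmDA_deg f).toAdd.1 ∧
      ThmDA_aug (ThmDA_fox q 1 f) = (ThmDA_deg f).toAdd.2 := by
  refine ThmDA_ind (P := fun f => ThmDA_aug (ThmDA_fox q 0 f) = (ThmDA_deg f).toAdd.1 ∧
      ThmDA_aug (ThmDA_fox q 1 f) = (ThmDA_deg f).toAdd.2) ?_ ?_ ?_ ?_ f
  · rw [ThmDA_fox_one, ThmDA_fox_one, map_zero, map_one]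
    exact ⟨rfl, rfl⟩
  · intro s
    rw [ThmDA_fox_of, ThmDA_fox_of]
    fin_cases s
    · show _ = (ThmDA_deg (FreeGroup.of 0)).toAdd.1 ∧ _ = (ThmDA_deg (FreeGroup.of 0)).toAdd.2
      rw [ThmDA_deg0]; simp
    · show _ = (ThmDA_deg (FreeGroup.of 1)).toAdd.1 ∧ _ = (ThmDA_deg (FreeGroup.of 1)).toAdd.2
      rw [ThmDA_deg1]; simp
  · rintro f ⟨h1, h2⟩
    rw [ThmDA_fox_inv, ThmDA_fox_inv, map_neg, map_neg, map_mul, map_mul, ThmDA_aug_gr, h1, h2,
      map_inv, toAdd_inv, one_mul, one_mul]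
    exact ⟨rfl, rfl⟩
  · rintro f g ⟨h1, h2⟩ ⟨h3, h4⟩
    have k1 : ThmDA_aug (ThmDA_fox q 0 (f * g)) = ThmDA_aug (ThmDA_fox q 0 f)
        + ThmDA_aug (ThmDA_fox q 0 g) := by
      rw [ThmDA_fox_mul, map_add, map_mul, ThmDA_aug_gr, one_mul]
    have k2 : ThmDA_aug (ThmDA_fox q 1 (f * g)) = ThmDA_aug (ThmDA_fox q 1 f)
        + ThmDA_aug (ThmDA_fox q 1 g) := by
      rw [ThmDA_fox_mul, map_add, map_mul, ThmDA_aug_gr, one_mul]
    rw [k1, k2, h1, h2, h3, h4, map_mul, toAdd_mul]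
    exact ⟨rfl, rfl⟩

end Fox

end SclIso
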