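import Pool.Agent.H.MP_1b0e60_al.Flow
import Pool.Agent.H.MP_1b0e60_al.ThmDA_Fox

/-!
Theorem D, part A: the dichotomy.
-/

open Equiv Filter Topology

namespace SclIso

section Conv

variable (K : Subgroup (FreeGroup (Fin 2))) [K.Normal] (H : Subgroup (FreeGroup (Fin 2)))
  (hKH : K ≤ H)

/-- the map from the group to the cosets -/
def ThmDA_cos (g : FreeGroup (Fin 2) ⧸ K) : FreeGroup (Fin 2) ⧸ H :=
  Subgroup.quotientMapOfLE hKH g⁻¹

theorem ThmDA_cos_mk (f : FreeGroup (Fin 2)) :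
    ThmDA_cos K H hKH (QuotientGroup.mk' K f) = QuotientGroup.mk f⁻¹ := rfl

theorem ThmDA_cos_mul (g : FreeGroup (Fin 2) ⧸ K) (s : Fin 2) :
    ThmDA_cos K H hKH (g * QuotientGroup.mk' K (FreeGroup.of s))
      = cosetAct H s (ThmDA_cos K H hKH g) := by
  obtain ⟨f, rfl⟩ := QuotientGroup.mk'_surjective K g
  rw [← map_mul, ThmDA_cos_mk, ThmDA_cos_mk, mul_inv_rev]
  rfl

theorem ThmDA_cos_mul_inv (g : FreeGroup (Fin 2) ⧸ K) (s : Fin 2) :
    ThmDA_cos K H hKH (g * (QuotientGroup.mk' K (FreeGroup.of s))⁻¹)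
      = (cosetAct H s)⁻¹ (ThmDA_cos K H hKH g) := by
  rw [eq_comm, Perm.inv_eq_iff_eq, ← ThmDA_cos_mul, inv_mul_cancel_right]

theorem ThmDA_flow (s : Fin 2) (l : List (Fin 2 × Bool)) :
    ∀ (g : FreeGroup (Fin 2) ⧸ K) (ω : FreeGroup (Fin 2) ⧸ H),
      flow (cosetAct H) l (ThmDA_cos K H hKH g) (ω, s)
        = (Finsupp.mapDomain (ThmDA_cos K H hKH)
          (ThmDA_gr g * ThmDA_fox (QuotientGroup.mk' K) s (FreeGroup.mk l)).coeff) ω := by
  classical
  induction l with
  | nil =>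
    intro g ω
    have h1 : FreeGroup.mk ([] : List (Fin 2 × Bool)) = 1 := rfl
    rw [h1, ThmDA_fox_one, mul_zero, MonoidAlgebra.coeff_zero, Finsupp.mapDomain_zero]
    rfl
  | cons a l ih =>
    intro g ω
    obtain ⟨s', b⟩ := a
    have hsplit : FreeGroup.mk ((s', b) :: l) = FreeGroup.mk [(s', b)] * FreeGroup.mk l := by
      rw [FreeGroup.mul_mk]; rfl
    cases b with
    | true =>
      have e1 : FreeGroup.mk [(s', true)] = FreeGroup.of s' := rfl
      have e2 : ThmDA_gr g * ThmDA_fox (QuotientGroup.mk' K) s (FreeGroup.mk ((s', true) :: l))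
          = (if s = s' then ThmDA_gr g else 0)
            + ThmDA_gr (g * QuotientGroup.mk' K (FreeGroup.of s'))
              * ThmDA_fox (QuotientGroup.mk' K) s (FreeGroup.mk l) := by
        rw [hsplit, e1, ThmDA_fox_mul, ThmDA_fox_of, mul_add, ThmDA_gr_mul, mul_assoc]
        congr 1
        split_ifs <;> simp
      have e3 : flow (cosetAct H) ((s', true) :: l) (ThmDA_cos K H hKH g)
          = Finsupp.single (ThmDA_cos K H hKH g, s') 1
            + flow (cosetAct H) l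
              (ThmDA_cos K H hKH (g * QuotientGroup.mk' K (FreeGroup.of s'))) := by
        rw [ThmDA_cos_mul]
        rfl
      rw [e2, e3, Finsupp.add_apply, ih, MonoidAlgebra.coeff_add, Finsupp.mapDomain_add,
        Finsupp.add_apply]
      congr 1
      rw [Finsupp.single_apply]
      by_cases hs : s = s'
      · subst hs
        rw [if_pos rfl]
        unfold ThmDA_gr
        rw [MonoidAlgebra.coeff_single, Finsupp.mapDomain_single, Finsupp.single_apply]
        by_cases hω : ThmDA_cos K H hKH g = ω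
        · rw [if_pos hω, if_pos (by rw [hω])]
        · rw [if_neg hω, if_neg (fun h => hω (congrArg Prod.fst h))]
      · rw [if_neg hs, MonoidAlgebra.coeff_zero, Finsupp.mapDomain_zero,
          if_neg (fun h => hs (congrArg Prod.snd h).symm)]
        rfl
    | false =>
      have e1 : FreeGroup.mk [(s', false)] = (FreeGroup.of s')⁻¹ := rfl
      have e2 : ThmDA_gr g * ThmDA_fox (QuotientGroup.mk' K) s (FreeGroup.mk ((s', false) :: l))
          = - (if s = s' then ThmDA_gr (g * (QuotientGroup.mk' K (FreeGroup.of s'))⁻¹) else 0)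
            + ThmDA_gr (g * (QuotientGroup.mk' K (FreeGroup.of s'))⁻¹)
              * ThmDA_fox (QuotientGroup.mk' K) s (FreeGroup.mk l) := by
        rw [hsplit, e1, ThmDA_fox_mul, ThmDA_fox_inv, ThmDA_fox_of, mul_add, ThmDA_gr_mul,
          mul_assoc, map_inv]
        congr 1
        split_ifs <;> simp
      have e3 : flow (cosetAct H) ((s', false) :: l) (ThmDA_cos K H hKH g)
          = - Finsupp.single
              (ThmDA_cos K H hKH (g * (QuotientGroup.mk' K (FreeGroup.of s'))⁻¹), s') 1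
            + flow (cosetAct H) l
              (ThmDA_cos K H hKH (g * (QuotientGroup.mk' K (FreeGroup.of s'))⁻¹)) := by
        rw [ThmDA_cos_mul_inv]
        rfl
      rw [e2, e3, Finsupp.add_apply, ih, MonoidAlgebra.coeff_add, Finsupp.mapDomain_add,
        Finsupp.add_apply]
      congr 1
      rw [Finsupp.neg_apply, Finsupp.single_apply, MonoidAlgebra.coeff_neg]
      have hneg : ∀ w : (FreeGroup (Fin 2) ⧸ K) →₀ ℤ,
          Finsupp.mapDomain (ThmDA_cos K H hKH) (-w) = - Finsupp.mapDomain (ThmDA_cos K H hKH) w :=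
        fun w => map_neg (Finsupp.mapDomain.addMonoidHom (ThmDA_cos K H hKH)) w
      rw [hneg, Finsupp.neg_apply]
      congr 1
      by_cases hs : s = s'
      · subst hs
        rw [if_pos rfl]
        unfold ThmDA_gr
        rw [MonoidAlgebra.coeff_single, Finsupp.mapDomain_single, Finsupp.single_apply]
        by_cases hω : ThmDA_cos K H hKH (g * (QuotientGroup.mk' K (FreeGroup.of s))⁻¹) = ω
        · rw [if_pos hω, if_pos (by rw [hω])]
        · rw [if_neg hω, if_neg (fun h => hω (congrArg Prod.fst h))]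
      · rw [if_neg hs, MonoidAlgebra.coeff_zero, Finsupp.mapDomain_zero,
          if_neg (fun h => hs (congrArg Prod.snd h).symm)]
        rfl

theorem ThmDA_flow' (s : Fin 2) (w : FreeGroup (Fin 2)) (ω : FreeGroup (Fin 2) ⧸ H) :
    flow (cosetAct H) w.toWord (QuotientGroup.mk 1) (ω, s)
        = (Finsupp.mapDomain (ThmDA_cos K H hKH)
          (ThmDA_fox (QuotientGroup.mk' K) s w).coeff) ω := by
  have h := ThmDA_flow K H hKH s w.toWord (QuotientGroup.mk' K 1) ω
  rw [FreeGroup.mk_toWord, ThmDA_cos_mk, inv_one, map_one, ThmDA_gr_one, one_mul] at h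
  exact h

theorem ThmDA_shift (s : Fin 2) (τ : MonoidAlgebra ℤ (FreeGroup (Fin 2) ⧸ K)) :
    Finsupp.mapDomain (ThmDA_cos K H hKH)
      (τ * ThmDA_gr (QuotientGroup.mk' K (FreeGroup.of s))).coeff
        = Finsupp.mapDomain (cosetAct H s) (Finsupp.mapDomain (ThmDA_cos K H hKH) τ.coeff) := by
  classical
  induction τ using MonoidAlgebra.induction_linear with
  | zero => simp
  | add a b ha hb =>
    rw [add_mul, MonoidAlgebra.coeff_add, Finsupp.mapDomain_add, ha, hb, MonoidAlgebra.coeff_add,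
      Finsupp.mapDomain_add, Finsupp.mapDomain_add]
  | single g r =>
    unfold ThmDA_gr
    rw [MonoidAlgebra.single_mul_single, MonoidAlgebra.coeff_single, MonoidAlgebra.coeff_single,
      Finsupp.mapDomain_single, Finsupp.mapDomain_single, Finsupp.mapDomain_single, mul_one,
      ThmDA_cos_mul]

/-- periodicity of a flow -/
theorem ThmDA_periodic (s : Fin 2) (τ : MonoidAlgebra ℤ (FreeGroup (Fin 2) ⧸ K))
    (h : Finsupp.mapDomain (ThmDA_cos K H hKH)
      (τ * (ThmDA_gr (QuotientGroup.mk' K (FreeGroup.of s)) - 1)).coeff = 0)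
    (ω : FreeGroup (Fin 2) ⧸ H) :
    (Finsupp.mapDomain (ThmDA_cos K H hKH) τ.coeff) (cosetAct H s ω)
      = (Finsupp.mapDomain (ThmDA_cos K H hKH) τ.coeff) ω := by
  classical
  have h1 := ThmDA_shift K H hKH s τ
  have h2 : τ * ThmDA_gr (QuotientGroup.mk' K (FreeGroup.of s))
      = τ + τ * (ThmDA_gr (QuotientGroup.mk' K (FreeGroup.of s)) - 1) := by
    rw [mul_sub, mul_one]; abel
  rw [h2, MonoidAlgebra.coeff_add, Finsupp.mapDomain_add, h, add_zero] at h1
  rw [h1, Finsupp.mapDomain_apply (Equiv.injective _), ← h1]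

end Conv

/-- telescoping sums vanish in the cosets -/
theorem ThmDA_vanish (K : Subgroup (FreeGroup (Fin 2))) [K.Normal] (w : FreeGroup (Fin 2))
    (Δ : (FreeGroup (Fin 2) ⧸ K) →* ThmDA_Z2) (hw : Δ (QuotientGroup.mk' K w) ≠ 1)
    (τ : MonoidAlgebra ℤ (FreeGroup (Fin 2) ⧸ K)) (h : ThmDA_Tele (QuotientGroup.mk' K w) τ) :
    Finsupp.mapDomain (ThmDA_cos K (Subgroup.closure {w} ⊔ K) le_sup_right) τ.coeff = 0 := by
  classical
  obtain ⟨k, hk1, hk2⟩ := h
  obtain ⟨w', hw'⟩ : ∃ w', w' = QuotientGroup.mk' K w := ⟨_, rfl⟩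
  rw [← hw'] at hk1 hk2 hw
  ext ω
  obtain ⟨φ, hφ⟩ : ∃ φ, φ = ThmDA_cos K (Subgroup.closure {w} ⊔ K) le_sup_right := ⟨_, rfl⟩
  rw [← hφ]
  obtain ⟨t, ht⟩ : ∃ t, φ t = ω := by
    obtain ⟨f, rfl⟩ := QuotientGroup.mk_surjective ω
    refine ⟨QuotientGroup.mk' K f⁻¹, ?_⟩
    rw [hφ, ThmDA_cos_mk, inv_inv]
  have hfib : ∀ g, φ g = ω → ∃ n : ℤ, w' ^ n * t = g := by
    intro g hg
    rw [← ht, hφ] at hg
    obtain ⟨f, rfl⟩ := QuotientGroup.mk'_surjective K g
    obtain ⟨f', rfl⟩ := QuotientGroup.mk'_surjective K t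
    rw [ThmDA_cos_mk, ThmDA_cos_mk, QuotientGroup.eq, inv_inv,
      Subgroup.mem_sup_of_normal_right] at hg
    obtain ⟨y, hy, z, hz, hyz⟩ := hg
    obtain ⟨n, rfl⟩ := Subgroup.mem_closure_singleton.mp hy
    refine ⟨n, ?_⟩
    have h1 : QuotientGroup.mk' K z = 1 := by
      rw [QuotientGroup.mk'_apply, QuotientGroup.eq_one_iff]; exact hz
    have h2 := congrArg (QuotientGroup.mk' K) hyz
    rw [map_mul, h1, mul_one, map_zpow, map_mul, map_inv, ← hw'] at h2
    rw [h2, inv_mul_cancel_right]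
  have hinv : ∀ n : ℤ, φ (w' ^ n * t) = ω := by
    intro n
    rw [← ht, hφ]
    obtain ⟨f', rfl⟩ := QuotientGroup.mk'_surjective K t
    rw [hw', ← map_zpow, ← map_mul, ThmDA_cos_mk, ThmDA_cos_mk, QuotientGroup.eq]
    have h1 : (w ^ n * f')⁻¹⁻¹ * f'⁻¹ = w ^ n := by group
    rw [h1]
    exact Subgroup.mem_sup_left (Subgroup.zpow_mem _ (Subgroup.mem_closure_singleton_self w) n)
  have hinj : Function.Injective (fun n : ℤ => w' ^ n * t) := by
    intro a b hab
    have h1 : w' ^ a = w' ^ b := mul_right_cancel hab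
    have h2 := congrArg (fun g => (Δ g).toAdd) h1
    simp only [map_zpow, toAdd_zpow] at h2
    by_contra hne
    have h3 : (a - b) • (Δ w').toAdd = 0 := by rw [sub_smul, h2, sub_self]
    rcases smul_eq_zero.mp h3 with h4 | h4
    · omega
    · apply hw
      apply Multiplicative.toAdd.injective
      rw [h4]; rfl
  -- the sum over the fibre
  have hsum : (Finsupp.mapDomain φ τ.coeff) ω
      = ∑ g ∈ τ.coeff.support, (if φ g = ω then τ.coeff g else 0) := by
    unfold Finsupp.mapDomain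
    rw [Finsupp.sum_apply]
    unfold Finsupp.sum
    apply Finset.sum_congr rfl
    intro g _
    exact Finsupp.single_apply
  rw [hsum, ← Finset.sum_preimage (fun n : ℤ => w' ^ n * t) τ.coeff.support (hinj.injOn)
    (fun g => if φ g = ω then τ.coeff g else 0)]
  · have hstep : ∀ n : ℤ, (if φ (w' ^ n * t) = ω then τ.coeff (w' ^ n * t) else 0)
        = k (w' ^ (n - 1) * t) - k (w' ^ n * t) := by
      intro n
      rw [if_pos (hinv n), ← hk1, ← mul_assoc, zpow_sub_one, ← zpow_neg_one, ← zpow_add,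
        ← zpow_add, add_comm]
    obtain ⟨N, hN⟩ := hk2 t
    have hfin : (Function.support (fun n : ℤ => k (w' ^ n * t))).Finite := by
      apply (Set.finite_Icc (-(N : ℤ)) N).subset
      intro n hn
      rw [Function.mem_support] at hn
      by_contra hcon
      apply hn
      apply hN
      rw [Set.mem_Icc] at hcon
      omega
    have hfin' : (Function.support (fun n : ℤ => k (w' ^ (n - 1) * t))).Finite := by
      apply (Set.finite_Icc (-(N : ℤ)) (N + 1)).subset
      intro n hn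
      rw [Function.mem_support] at hn
      by_contra hcon
      apply hn
      apply hN
      rw [Set.mem_Icc] at hcon
      omega
    have e1 : ∑ n ∈ τ.coeff.support.preimage (fun n : ℤ => w' ^ n * t) hinj.injOn,
        (if φ (w' ^ n * t) = ω then τ.coeff (w' ^ n * t) else 0)
        = ∑ᶠ n : ℤ, (if φ (w' ^ n * t) = ω then τ.coeff (w' ^ n * t) else 0) := by
      symm
      apply finsum_eq_sum_of_support_subset
      intro n hn
      rw [Function.mem_support] at hn
      rw [Finset.mem_coe, Finset.mem_preimage, Finsupp.mem_support_iff]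
      intro h0
      apply hn
      rw [h0, ite_self]
    rw [e1, finsum_congr hstep, finsum_sub_distrib hfin' hfin]
    have e2 := finsum_comp_equiv (Equiv.subRight (1 : ℤ)) (f := fun n : ℤ => k (w' ^ n * t))
    have e3 : ∑ᶠ n : ℤ, k (w' ^ (n - 1) * t) = ∑ᶠ n : ℤ, k (w' ^ n * t) := e2
    rw [e3, sub_self]; rfl
  · intro g _ hg
    rw [if_neg]
    intro h1
    obtain ⟨n, hn⟩ := hfib g h1
    exact hg ⟨n, hn⟩

theorem thmD_A (K : Subgroup (FreeGroup (Fin 2))) [K.Normal]
    (hc : K ≤ commutator (FreeGroup (Fin 2)))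
    (ho : ∃ o : LinearOrder (FreeGroup (Fin 2) ⧸ K),
      ∀ a b c : FreeGroup (Fin 2) ⧸ K, o.lt a b → o.lt (c * a) (c * b))
    (u v : FreeGroup (Fin 2)) (hd : Subgroup.closure {u, v} ⊔ ⁅K, K⁆ = ⊤)
    (hu : u * (FreeGroup.of 0)⁻¹ ∈ commutator (FreeGroup (Fin 2)))
    (hv : v * (FreeGroup.of 1)⁻¹ ∈ commutator (FreeGroup (Fin 2))) :
    (∀ ω : FreeGroup (Fin 2) ⧸ (Subgroup.closure {u} ⊔ K),
      flow (cosetAct _) u.toWord (QuotientGroup.mk 1) (cosetAct _ 0 ω, 0) =
        flow (cosetAct _) u.toWord (QuotientGroup.mk 1) (ω, 0)) ∨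
    (∀ ω : FreeGroup (Fin 2) ⧸ (Subgroup.closure {v} ⊔ K),
      flow (cosetAct _) v.toWord (QuotientGroup.mk 1) (cosetAct _ 1 ω, 1) =
        flow (cosetAct _) v.toWord (QuotientGroup.mk 1) (ω, 1)) := by
  classical
  have hUP : TwoUniqueProds (FreeGroup (Fin 2) ⧸ K) := by
    obtain ⟨o, ho⟩ := ho
    let _ := o
    have : MulLeftStrictMono (FreeGroup (Fin 2) ⧸ K) := ⟨fun c a b h => ho a b c h⟩
    infer_instance
  obtain ⟨q, hq⟩ : ∃ q, q = QuotientGroup.mk' K := ⟨_, rfl⟩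
  have hker : K ≤ ThmDA_deg.ker := le_trans hc (Abelianization.commutator_subset_ker _)
  obtain ⟨Δ, hΔ⟩ : ∃ Δ : (FreeGroup (Fin 2) ⧸ K) →* ThmDA_Z2, ∀ f, Δ (q f) = ThmDA_deg f :=
    ⟨QuotientGroup.lift K ThmDA_deg hker, fun f => by rw [hq]; rfl⟩
  have hq1 : ∀ f ∈ K, q f = 1 := by
    intro f hf
    rw [hq, QuotientGroup.mk'_apply, QuotientGroup.eq_one_iff]; exact hf
  have hdegu : ThmDA_deg u = ThmDA_deg (FreeGroup.of 0) := by
    have h1 : u * (FreeGroup.of 0)⁻¹ ∈ ThmDA_deg.ker := Abelianization.commutator_subset_ker _ hu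
    rw [MonoidHom.mem_ker, map_mul, map_inv] at h1
    exact mul_inv_eq_one.mp h1
  have hdegv : ThmDA_deg v = ThmDA_deg (FreeGroup.of 1) := by
    have h1 : v * (FreeGroup.of 1)⁻¹ ∈ ThmDA_deg.ker := Abelianization.commutator_subset_ker _ hv
    rw [MonoidHom.mem_ker, map_mul, map_inv] at h1
    exact mul_inv_eq_one.mp h1
  -- the inverse matrix
  have hW : ∀ s : Fin 2, ∃ α β : MonoidAlgebra ℤ (FreeGroup (Fin 2) ⧸ K),
      (∀ s', α * ThmDA_fox q s' u + β * ThmDA_fox q s' v = if s' = s then 1 else 0) ∧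
      α * (ThmDA_gr (q u) - 1) + β * (ThmDA_gr (q v) - 1)
        = ThmDA_gr (q (FreeGroup.of s)) - 1 := by
    intro s
    have h1 : FreeGroup.of s ∈ Subgroup.closure {u, v} ⊔ ⁅K, K⁆ := by rw [hd]; trivial
    rw [Subgroup.mem_sup_of_normal_right] at h1
    obtain ⟨z, hz, c, hcK, hzc⟩ := h1
    obtain ⟨α, β, h2, h3⟩ := ThmDA_fox_closure q u v z hz
    refine ⟨α, β, fun s' => ?_, ?_⟩
    · have h4 := ThmDA_fox_comm q s' K hq1 c hcK
      rw [h2, ← ThmDA_fox_of q s' s, ← hzc, ThmDA_fox_mul, h4.2, mul_zero, add_zero]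
    · have h4 := ThmDA_fox_comm q 0 K hq1 c hcK
      rw [h3, ← hzc, map_mul, h4.1, mul_one]
  obtain ⟨W00, W01, hWa, hWx⟩ := hW 0
  obtain ⟨W10, W11, hWb, hWy⟩ := hW 1
  have hJu := ThmDA_fund q u
  have hJv := ThmDA_fund q v
  have h00 := hWa 0
  have h01 := hWa 1
  have h10 := hWb 0
  have h11 := hWb 1
  rw [if_pos rfl] at h00 h11
  rw [if_neg (by decide)] at h01 h10
  have hxd : (Δ (q (FreeGroup.of 0))).toAdd = (1, 0) := by rw [hΔ]; exact ThmDA_deg0
  have hyd : (Δ (q (FreeGroup.of 1))).toAdd = (0, 1) := by rw [hΔ]; exact ThmDA_deg1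
  have hud : (Δ (q u)).toAdd = (1, 0) := by rw [hΔ, hdegu]; exact ThmDA_deg0
  have hvd : (Δ (q v)).toAdd = (0, 1) := by rw [hΔ, hdegv]; exact ThmDA_deg1
  have hu1 : Δ (q u) ≠ 1 := by
    intro h
    rw [h] at hud
    have := congrArg Prod.fst hud
    exact absurd this (by decide)
  have hv1 : Δ (q v) ≠ 1 := by
    intro h
    rw [h] at hvd
    have := congrArg Prod.snd hvd
    exact absurd this (by decide)
  have hA : ThmDA_aug (ThmDA_fox q 0 u) = 1 := by
    rw [(ThmDA_aug_fox q u).1, hdegu, ThmDA_deg0]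
  have hD : ThmDA_aug (ThmDA_fox q 1 v) = 1 := by
    rw [(ThmDA_aug_fox q v).2, hdegv, ThmDA_deg1]
  obtain ⟨z, hP⟩ := ThmDA_P Δ (q (FreeGroup.of 0)) (q (FreeGroup.of 1)) (q u) (q v)
    (by rw [hΔ, hΔ, hdegu]) (by rw [hΔ, hΔ, hdegv]) hu1 hv1
    (ThmDA_fox q 0 u) (ThmDA_fox q 1 u) (ThmDA_fox q 0 v) (ThmDA_fox q 1 v) W00 W01 W10 W11
    hJu hJv h00 h01 h10 h11 hA hD
  rcases ThmDA_dichotomy Δ (q (FreeGroup.of 0)) (q (FreeGroup.of 1)) (q u) (q v) hxd hud hyd hvd
    (ThmDA_fox q 0 u) (ThmDA_fox q 0 v) (ThmDA_fox q 1 v) W00 W01 W10 W11 hJv h00 h10 hWx hWy z hP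
    with hT | hT
  · left
    intro ω
    rw [hq] at hT hu1
    have h1 := ThmDA_vanish K u Δ hu1 _ hT
    rw [ThmDA_flow' K _ le_sup_right, ThmDA_flow' K _ le_sup_right]
    exact ThmDA_periodic K _ le_sup_right 0 _ h1 ω
  · right
    intro ω
    rw [hq] at hT hv1 hJv
    have h1 := ThmDA_vanish K v Δ hv1 _ hT
    rw [ThmDA_flow' K _ le_sup_right, ThmDA_flow' K _ le_sup_right]
    apply ThmDA_periodic K _ le_sup_right 1 _ _ ω
    have h2 : ThmDA_fox (QuotientGroup.mk' K) 1 v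
          * (ThmDA_gr (QuotientGroup.mk' K (FreeGroup.of 1)) - 1)
        = (ThmDA_gr (QuotientGroup.mk' K v) - 1)
          - ThmDA_fox (QuotientGroup.mk' K) 0 v
            * (ThmDA_gr (QuotientGroup.mk' K (FreeGroup.of 0)) - 1) := by
      rw [← hJv]; abel
    have hsub : ∀ a b : (FreeGroup (Fin 2) ⧸ K) →₀ ℤ,
        Finsupp.mapDomain (ThmDA_cos K (Subgroup.closure {v} ⊔ K) le_sup_right) (a - b)
          = Finsupp.mapDomain (ThmDA_cos K (Subgroup.closure {v} ⊔ K) le_sup_right) a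
            - Finsupp.mapDomain (ThmDA_cos K (Subgroup.closure {v} ⊔ K) le_sup_right) b :=
      fun a b => map_sub (Finsupp.mapDomain.addMonoidHom _) a b
    rw [h2, MonoidAlgebra.coeff_sub, hsub, h1, sub_zero, MonoidAlgebra.coeff_sub, hsub,
      ← ThmDA_gr_one]
    unfold ThmDA_gr
    rw [MonoidAlgebra.coeff_single, MonoidAlgebra.coeff_single, Finsupp.mapDomain_single,
      Finsupp.mapDomain_single, ThmDA_cos_mk]
    have h3 : ThmDA_cos K (Subgroup.closure {v} ⊔ K) le_sup_right 1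
        = QuotientGroup.mk (1 : FreeGroup (Fin 2))⁻¹ :=
      ThmDA_cos_mk K (Subgroup.closure {v} ⊔ K) le_sup_right 1
    rw [h3]
    have h4 : (QuotientGroup.mk v⁻¹ : FreeGroup (Fin 2) ⧸ (Subgroup.closure {v} ⊔ K))
        = QuotientGroup.mk (1 : FreeGroup (Fin 2))⁻¹ := by
      rw [QuotientGroup.eq, inv_inv, inv_one, mul_one]
      exact Subgroup.mem_sup_left (Subgroup.mem_closure_singleton_self v)
    rw [h4, sub_self]

end SclIso
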