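import Mathlib

/-!
Part of ThmDA: Hahn series over group rings.
-/

open HahnSeries

namespace SclIso

section Geom

variable {Γ : Type*} [AddCommGroup Γ] [LinearOrder Γ] [IsOrderedAddMonoid Γ] {R : Type*} [Ring R]

theorem ThmDA_nsmul_inj {a : Γ} (ha : 0 < a) : Function.Injective (fun n : ℕ => n • a) := by
  intro m n h
  exact (nsmul_left_strictMono ha).injective h

/-- geometric series -/
noncomputable def ThmDA_geom (a : Γ) (ha : 0 < a) (r : R) : HahnSeries Γ R where
  coeff := Function.extend (fun n : ℕ => n • a) (fun n => r ^ n) 0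
  isPWO_support' := by
    have h1 : (Set.univ : Set ℕ).IsPWO := by
      rw [Set.isPWO_univ_iff]; infer_instance
    have h2 := h1.image_of_monotone (f := fun n : ℕ => n • a)
      (nsmul_left_strictMono ha).monotone
    refine h2.mono ?_
    intro d hd
    by_contra hcon
    apply hd
    rw [Function.extend_apply']
    · rfl
    · rintro ⟨n, hn⟩
      exact hcon ⟨n, Set.mem_univ n, hn⟩

theorem ThmDA_geom_coeff (a : Γ) (ha : 0 < a) (r : R) (n : ℕ) :
    (ThmDA_geom a ha r).coeff (n • a) = r ^ n :=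
  (ThmDA_nsmul_inj ha).extend_apply _ _ n

theorem ThmDA_geom_coeff' (a : Γ) (ha : 0 < a) (r : R) (d : Γ) (hd : ¬ ∃ n : ℕ, n • a = d) :
    (ThmDA_geom a ha r).coeff d = 0 :=
  Function.extend_apply' _ _ _ hd

theorem ThmDA_geom_rec (a : Γ) (ha : 0 < a) (r : R) (d : Γ) :
    ((ThmDA_geom a ha r).coeff d - r * (ThmDA_geom a ha r).coeff (d - a)
      = if d = 0 then 1 else 0) ∧
    ((ThmDA_geom a ha r).coeff d - (ThmDA_geom a ha r).coeff (d - a) * r
      = if d = 0 then 1 else 0) := by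
  by_cases hd : ∃ n : ℕ, n • a = d
  · obtain ⟨n, rfl⟩ := hd
    rcases n with _ | n
    · have h1 : (ThmDA_geom a ha r).coeff ((0 : ℕ) • a - a) = 0 := by
        apply ThmDA_geom_coeff'
        rintro ⟨m, hm⟩
        have h2 : (0 : Γ) ≤ m • a := nsmul_nonneg ha.le m
        rw [hm, zero_smul, zero_sub] at h2
        exact absurd ha (not_lt.mpr (by simpa using h2))
      rw [h1, ThmDA_geom_coeff]
      simp
    · have h1 : (n + 1) • a - a = n • a := by rw [succ_nsmul]; abel
      have h2 : (n + 1) • a ≠ 0 := by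
        have : (0 : Γ) < (n + 1) • a := nsmul_pos ha (by omega)
        exact this.ne'
      rw [h1, ThmDA_geom_coeff, ThmDA_geom_coeff, if_neg h2]
      constructor
      · rw [pow_succ']; simp
      · rw [pow_succ]; simp
  · have h0 : d ≠ 0 := by
      rintro rfl
      exact hd ⟨0, zero_smul ℕ a⟩
    have h1 : ¬ ∃ n : ℕ, n • a = d - a := by
      rintro ⟨n, hn⟩
      apply hd
      refine ⟨n + 1, ?_⟩
      rw [succ_nsmul, hn]; abel
    rw [ThmDA_geom_coeff' a ha r d hd, ThmDA_geom_coeff' a ha r _ h1, if_neg h0]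
    simp

theorem ThmDA_isUnit_one_sub (a : Γ) (ha : 0 < a) (r : R) :
    IsUnit (1 - single a r : HahnSeries Γ R) := by
  refine ⟨⟨1 - single a r, ThmDA_geom a ha r, ?_, ?_⟩, rfl⟩
  · ext d
    rw [sub_mul, one_mul, coeff_sub, coeff_single_mul, coeff_one]
    refine (ThmDA_geom_rec a ha r d).1.trans ?_
    split_ifs <;> rfl
  · ext d
    rw [mul_sub, mul_one, coeff_sub, coeff_mul_single, coeff_one]
    refine (ThmDA_geom_rec a ha r d).2.trans ?_
    split_ifs <;> rfl

theorem ThmDA_isUnit_single (a : Γ) (r : Rˣ) : IsUnit (single a (r : R) : HahnSeries Γ R) := by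
  refine ⟨⟨single a (r : R), single (-a) ((r⁻¹ : Rˣ) : R), ?_, ?_⟩, rfl⟩
  · rw [single_mul_single]; simp
  · rw [single_mul_single]; simp

theorem ThmDA_isUnit_sub_one {a : Γ} (ha : a ≠ 0) (r : Rˣ) :
    IsUnit (single a (r : R) - 1 : HahnSeries Γ R) := by
  rcases lt_or_gt_of_ne ha with h | h
  · have h1 : (single a (r : R) - 1 : HahnSeries Γ R)
        = single a (r : R) * (1 - single (-a) ((r⁻¹ : Rˣ) : R)) := by
      rw [mul_sub, mul_one, single_mul_single]; simp
    rw [h1]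
    exact (ThmDA_isUnit_single a r).mul (ThmDA_isUnit_one_sub _ (by simpa using h) _)
  · have := (ThmDA_isUnit_one_sub a h (r : R)).neg
    rwa [neg_sub] at this

/-- eventually zero along a decreasing sequence -/
theorem ThmDA_eventually_zero {Γ R : Type*} [LinearOrder Γ] [Zero R] (f : HahnSeries Γ R)
    (x : ℕ → Γ) (hx : StrictAnti x) : ∃ N, ∀ n, N ≤ n → f.coeff (x n) = 0 := by
  by_cases hne : (f.support ∩ Set.range x).Nonempty
  · have hwf : (f.support ∩ Set.range x).IsWF := f.isWF_support.mono Set.inter_subset_left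
    obtain ⟨h1, ⟨N, hN⟩⟩ := hwf.min_mem hne
    refine ⟨N + 1, fun n hn => ?_⟩
    by_contra hcon
    have h2 : x n ∈ f.support ∩ Set.range x := ⟨hcon, ⟨n, rfl⟩⟩
    have h3 := hwf.min_le hne h2
    rw [← hN] at h3
    exact absurd (hx (show N < n by omega)) (not_lt.mpr h3)
  · refine ⟨0, fun n _ => ?_⟩
    by_contra hcon
    exact hne ⟨x n, hcon, ⟨n, rfl⟩⟩

end Geom

section UP

/-- units of the group ring of a group with unique products -/
theorem ThmDA_unit {M : Type*} [Monoid M] [TwoUniqueProds M] (a b : MonoidAlgebra ℤ M)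
    (h : a * b = 1) : ∃ (g : M) (n : ℤ), a = MonoidAlgebra.single g n ∧ (n = 1 ∨ n = -1) := by
  classical
  have ha : a ≠ 0 := by rintro rfl; simp at h
  have hb : b ≠ 0 := by rintro rfl; simp at h
  have hA : a.coeff.support.Nonempty := by
    rw [Finsupp.support_nonempty_iff]
    intro h0
    exact ha (by ext x; rw [h0]; rfl)
  have hB : b.coeff.support.Nonempty := by
    rw [Finsupp.support_nonempty_iff]
    intro h0
    exact hb (by ext x; rw [h0]; rfl)
  have hcard : a.coeff.support.card * b.coeff.support.card ≤ 1 := by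
    by_contra hcon
    push Not at hcon
    obtain ⟨p1, hp1, p2, hp2, hne, h1, h2⟩ := TwoUniqueProds.uniqueMul_of_one_lt_card hcon
    rw [Finset.mem_product] at hp1 hp2
    have key : ∀ p : M × M, p.1 ∈ a.coeff.support → p.2 ∈ b.coeff.support →
        UniqueMul a.coeff.support b.coeff.support p.1 p.2 → p.1 * p.2 = 1 := by
      intro p hpa hpb hu
      have h3 := MonoidAlgebra.coeff_mul_mul_of_uniqueMul hu
      rw [h] at h3
      by_contra hcon2
      have h4 : (1 : MonoidAlgebra ℤ M).coeff (p.1 * p.2) = 0 := by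
        rw [MonoidAlgebra.one_def, MonoidAlgebra.coeff_single, Finsupp.single_apply,
          if_neg (fun h => hcon2 h.symm)]
      rw [h4] at h3
      exact mul_ne_zero (Finsupp.mem_support_iff.mp hpa) (Finsupp.mem_support_iff.mp hpb) h3.symm
    have e1 := key p1 hp1.1 hp1.2 h1
    have e2 := key p2 hp2.1 hp2.2 h2
    have h5 := h1 hp2.1 hp2.2 (by rw [e1, e2])
    exact hne (Prod.ext h5.1.symm h5.2.symm)
  have hA1 := Finset.card_pos.mpr hA
  have hB1 := Finset.card_pos.mpr hB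
  have hAc : a.coeff.support.card = 1 := by nlinarith
  have hBc : b.coeff.support.card = 1 := by nlinarith
  obtain ⟨g, hg0, hg⟩ := Finsupp.card_support_eq_one.mp hAc
  obtain ⟨g', hg0', hg'⟩ := Finsupp.card_support_eq_one.mp hBc
  have ea : a = MonoidAlgebra.single g (a.coeff g) := by
    ext x
    rw [hg]; simp
  have eb : b = MonoidAlgebra.single g' (b.coeff g') := by
    ext x
    rw [hg']; simp
  refine ⟨g, a.coeff g, ea, ?_⟩
  rw [ea, eb, MonoidAlgebra.single_mul_single, MonoidAlgebra.one_def] at h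
  have h6 := congrArg (fun z : MonoidAlgebra ℤ M => z.coeff (g * g')) h
  simp only [MonoidAlgebra.coeff_single, Finsupp.single_eq_same] at h6
  have h7 : a.coeff g * b.coeff g' = 1 := by
    rw [Finsupp.single_apply] at h6
    split_ifs at h6 with h8
    · exact h6
    · exact absurd h6 (mul_ne_zero hg0 hg0')
  exact Int.isUnit_iff.mp (IsUnit.of_mul_eq_one _ h7)

end UP

section Theta

variable {Γ : Type*} [AddCommGroup Γ] [LinearOrder Γ] [IsOrderedAddMonoid Γ]
  {G : Type*} [Group G]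

/-- group elements in the group ring -/
noncomputable def ThmDA_gr (g : G) : MonoidAlgebra ℤ G := MonoidAlgebra.single g 1

theorem ThmDA_gr_mul (g h : G) : ThmDA_gr (g * h) = ThmDA_gr g * ThmDA_gr h := by
  unfold ThmDA_gr
  rw [MonoidAlgebra.single_mul_single, one_mul]

theorem ThmDA_gr_one : ThmDA_gr (1 : G) = 1 := rfl

/-- as a unit -/
noncomputable def ThmDA_gu (g : G) : (MonoidAlgebra ℤ G)ˣ where
  val := ThmDA_gr g
  inv := ThmDA_gr g⁻¹
  val_inv := by rw [← ThmDA_gr_mul, mul_inv_cancel, ThmDA_gr_one]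
  inv_val := by rw [← ThmDA_gr_mul, inv_mul_cancel, ThmDA_gr_one]

/-- the ring homomorphism to Hahn series given by a degree -/
noncomputable def ThmDA_theta (δ : G →* Multiplicative Γ) :
    MonoidAlgebra ℤ G →+* HahnSeries Γ (MonoidAlgebra ℤ G) :=
  ((MonoidAlgebra.lift ℤ (HahnSeries Γ (MonoidAlgebra ℤ G)) G)
    { toFun := fun g => single (δ g).toAdd (ThmDA_gr g)
      map_one' := by rw [map_one, ThmDA_gr_one]; rfl
      map_mul' := fun g h => by
        rw [single_mul_single, map_mul, ThmDA_gr_mul, toAdd_mul] } :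
    MonoidAlgebra ℤ G →ₐ[ℤ] HahnSeries Γ (MonoidAlgebra ℤ G)).toRingHom

theorem ThmDA_theta_gr (δ : G →* Multiplicative Γ) (g : G) :
    ThmDA_theta δ (ThmDA_gr g) = single (δ g).toAdd (ThmDA_gr g) := by
  have h := MonoidAlgebra.lift_single (R := ℤ) (A := HahnSeries Γ (MonoidAlgebra ℤ G))
    ({ toFun := fun g => single (δ g).toAdd (ThmDA_gr g)
       map_one' := by rw [map_one, ThmDA_gr_one]; rfl
       map_mul' := fun g h => by
        rw [single_mul_single, map_mul, ThmDA_gr_mul, toAdd_mul] } :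
      G →* HahnSeries Γ (MonoidAlgebra ℤ G)) g 1
  rw [one_smul] at h
  exact h

theorem ThmDA_theta_coeff (δ : G →* Multiplicative Γ) (τ : MonoidAlgebra ℤ G) (a : Γ) (h : G) :
    ((ThmDA_theta δ τ).coeff a).coeff h = if (δ h).toAdd = a then τ.coeff h else 0 := by
  classical
  induction τ using MonoidAlgebra.induction_linear with
  | zero => simp
  | add x y hx hy =>
    rw [map_add, coeff_add, MonoidAlgebra.coeff_add, Finsupp.add_apply, hx, hy,
      MonoidAlgebra.coeff_add, Finsupp.add_apply]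
    split_ifs <;> simp
  | single g r =>
    have h1 : (MonoidAlgebra.single g r : MonoidAlgebra ℤ G) = r • ThmDA_gr g := by
      unfold ThmDA_gr
      rw [MonoidAlgebra.smul_single, smul_eq_mul, mul_one]
    rw [h1, map_zsmul, ThmDA_theta_gr]
    have h2 : (r • (single (δ g).toAdd (ThmDA_gr g) : HahnSeries Γ (MonoidAlgebra ℤ G))).coeff a
        = r • (single (δ g).toAdd (ThmDA_gr g) : HahnSeries Γ (MonoidAlgebra ℤ G)).coeff a :=
      map_zsmul (coeff.addMonoidHom a) r _
    rw [h2, MonoidAlgebra.coeff_smul, Finsupp.smul_apply, MonoidAlgebra.coeff_smul,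
      Finsupp.smul_apply]
    have h3 : (ThmDA_gr g).coeff h = if g = h then 1 else 0 := by
      unfold ThmDA_gr
      rw [MonoidAlgebra.coeff_single, Finsupp.single_apply]
    by_cases hgh : g = h
    · subst hgh
      by_cases ha : (δ g).toAdd = a
      · rw [← ha, coeff_single_same, if_pos rfl]
      · rw [coeff_single_of_ne (Ne.symm ha), if_neg ha]; simp
    · rw [h3, if_neg hgh]
      by_cases ha : (δ g).toAdd = a
      · rw [← ha, coeff_single_same, h3, if_neg hgh]; simp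
      · rw [coeff_single_of_ne (Ne.symm ha)]; simp

/-- augmentation -/
noncomputable def ThmDA_aug : MonoidAlgebra ℤ G →+* ℤ :=
  (MonoidAlgebra.lift ℤ ℤ G (1 : G →* ℤ)).toRingHom

theorem ThmDA_aug_single (g : G) (r : ℤ) :
    ThmDA_aug (MonoidAlgebra.single g r : MonoidAlgebra ℤ G) = r := by
  have h := MonoidAlgebra.lift_single (R := ℤ) (A := ℤ) (1 : G →* ℤ) g r
  rw [MonoidHom.one_apply, smul_eq_mul, mul_one] at h
  exact h

/-- coefficientwise augmentation -/
noncomputable def ThmDA_phi : HahnSeries Γ (MonoidAlgebra ℤ G) →+* HahnSeries Γ ℤ where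
  toFun x := x.map (ThmDA_aug : MonoidAlgebra ℤ G →+* ℤ)
  map_one' := HahnSeries.map_one
    ((ThmDA_aug : MonoidAlgebra ℤ G →+* ℤ).toMonoidWithZeroHom)
  map_mul' x y := HahnSeries.map_mul
    ((ThmDA_aug : MonoidAlgebra ℤ G →+* ℤ) : MonoidAlgebra ℤ G →ₙ+* ℤ)
  map_zero' := by ext a; simp
  map_add' x y := by ext a; simp

theorem ThmDA_phi_coeff (x : HahnSeries Γ (MonoidAlgebra ℤ G)) (a : Γ) :
    (ThmDA_phi x).coeff a = ThmDA_aug (x.coeff a) := rfl

theorem ThmDA_phi_single (a : Γ) (g : G) :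
    ThmDA_phi (single a (ThmDA_gr g) : HahnSeries Γ (MonoidAlgebra ℤ G)) = single a 1 := by
  ext d
  rw [ThmDA_phi_coeff]
  by_cases h : d = a
  · subst h
    rw [coeff_single_same, coeff_single_same]
    exact ThmDA_aug_single g 1
  · rw [coeff_single_of_ne h, coeff_single_of_ne h, map_zero]

end Theta

section T

variable {Γ : Type*} [AddCommGroup Γ] [LinearOrder Γ] [IsOrderedAddMonoid Γ]
  {G : Type*} [Group G] [TwoUniqueProds G]

theorem ThmDA_alg {S : Type*} [Ring S] (A C tx ty tu tv W00 W01 W10 W11 X' Y' U V : S)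
    (hU1 : tu * U = 1) (hV1 : tv * V = 1) (hX2 : X' * tx = 1) (hY2 : Y' * ty = 1)
    (kW0 : W00 * A + W01 * C = 1) (kW1 : W10 * A + W11 * C = 0)
    (kWx : W00 * tu + W01 * tv = tx) (kWy : W10 * tu + W11 * tv = ty) :
    ((X' * W00 - Y' * W10) * tu) * (U * (A * tx) - V * (C * tx)) = 1 := by
  have h1 : ((X' * W00 - Y' * W10) * tu) * U = X' * W00 - Y' * W10 := by
    rw [mul_assoc, hU1, mul_one]
  have h2 : ((X' * W00 - Y' * W10) * tu) * V = -(X' * W01 - Y' * W11) := by
    have h4 : (X' * W00 - Y' * W10) * tu + (X' * W01 - Y' * W11) * tv = 0 := by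
      have h5 : (X' * W00 - Y' * W10) * tu + (X' * W01 - Y' * W11) * tv
          = X' * (W00 * tu + W01 * tv) - Y' * (W10 * tu + W11 * tv) := by
        noncomm_ring
      rw [h5, kWx, kWy, hX2, hY2, sub_self]
    rw [eq_neg_of_add_eq_zero_left h4, neg_mul, mul_assoc, hV1, mul_one]
  have h7 : ((X' * W00 - Y' * W10) * tu) * (U * (A * tx) - V * (C * tx))
      = (((X' * W00 - Y' * W10) * tu) * U) * (A * tx)
        - (((X' * W00 - Y' * W10) * tu) * V) * (C * tx) := by
    rw [mul_sub, mul_assoc _ U, mul_assoc _ V]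
  have h8 : (X' * W00 - Y' * W10) * (A * tx) - -(X' * W01 - Y' * W11) * (C * tx)
      = (X' * (W00 * A + W01 * C) - Y' * (W10 * A + W11 * C)) * tx := by
    noncomm_ring
  rw [h7, h1, h2, h8, kW0, kW1, mul_one, mul_zero, sub_zero, hX2]

theorem ThmDA_alg2 {S : Type*} [CommRing S] (p q r X Y U V : S) (h1 : U * X = 1) (h2 : V * Y = 1)
    (h3 : q * X + r * Y = Y) : U * (p * X) - V * (q * X) = p + r - 1 := by
  linear_combination p * h1 - V * h3 + (r - 1) * h2

theorem ThmDA_inv {S : Type*} [Ring S] {t : S} (h : IsUnit t) :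
    ∃ w, t * w = 1 ∧ w * t = 1 := by
  obtain ⟨w, rfl⟩ := h
  exact ⟨↑w⁻¹, by simp, by simp⟩

theorem ThmDA_T (δ : G →* Multiplicative Γ) (x y u v : G) (hx : δ x = δ u) (hy : δ y = δ v)
    (ha : (δ u).toAdd ≠ 0) (hb : (δ v).toAdd ≠ 0)
    (A C D W00 W01 W10 W11 : MonoidAlgebra ℤ G)
    (hJv : C * (ThmDA_gr x - 1) + D * (ThmDA_gr y - 1) = ThmDA_gr v - 1)
    (hW0 : W00 * A + W01 * C = 1) (hW1 : W10 * A + W11 * C = 0)
    (hWx : W00 * (ThmDA_gr u - 1) + W01 * (ThmDA_gr v - 1) = ThmDA_gr x - 1)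
    (hWy : W10 * (ThmDA_gr u - 1) + W11 * (ThmDA_gr v - 1) = ThmDA_gr y - 1)
    (z : Γ) (hP : ∀ d, ThmDA_aug ((ThmDA_theta δ (A + D - 1)).coeff d) = if d = z then 1 else 0) :
    ∃ fu fv : HahnSeries Γ (MonoidAlgebra ℤ G),
      (ThmDA_theta δ (ThmDA_gr u) - 1) * fu = ThmDA_theta δ (A * (ThmDA_gr x - 1)) ∧
      (ThmDA_theta δ (ThmDA_gr v) - 1) * fv = ThmDA_theta δ (C * (ThmDA_gr x - 1)) ∧
      (∀ d, d < z → fu.coeff d - fv.coeff d = 0) ∧
      ∃ c : G, fu.coeff z - fv.coeff z = ThmDA_gr c := by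
  obtain ⟨Θ, hΘ⟩ : ∃ Θ, Θ = ThmDA_theta δ := ⟨_, rfl⟩
  rw [← hΘ]
  rw [← hΘ] at hP
  obtain ⟨tx, htx⟩ : ∃ t, t = Θ (ThmDA_gr x) - 1 := ⟨_, rfl⟩
  obtain ⟨ty, hty⟩ : ∃ t, t = Θ (ThmDA_gr y) - 1 := ⟨_, rfl⟩
  obtain ⟨tu, htu⟩ : ∃ t, t = Θ (ThmDA_gr u) - 1 := ⟨_, rfl⟩
  obtain ⟨tv, htv⟩ : ∃ t, t = Θ (ThmDA_gr v) - 1 := ⟨_, rfl⟩
  rw [← htu, ← htv]
  have hux : IsUnit tx := by
    rw [htx, hΘ, ThmDA_theta_gr]
    exact ThmDA_isUnit_sub_one (by rw [hx]; exact ha) (ThmDA_gu x)
  have huy : IsUnit ty := by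
    rw [hty, hΘ, ThmDA_theta_gr]
    exact ThmDA_isUnit_sub_one (by rw [hy]; exact hb) (ThmDA_gu y)
  have huu : IsUnit tu := by
    rw [htu, hΘ, ThmDA_theta_gr]
    exact ThmDA_isUnit_sub_one ha (ThmDA_gu u)
  have huv : IsUnit tv := by
    rw [htv, hΘ, ThmDA_theta_gr]
    exact ThmDA_isUnit_sub_one hb (ThmDA_gu v)
  obtain ⟨X', hX1, hX2⟩ := ThmDA_inv hux
  obtain ⟨Y', hY1, hY2⟩ := ThmDA_inv huy
  obtain ⟨U, hU1, hU2⟩ := ThmDA_inv huu
  obtain ⟨V, hV1, hV2⟩ := ThmDA_inv huv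
  have kW0 : Θ W00 * Θ A + Θ W01 * Θ C = 1 := by
    rw [← map_mul, ← map_mul, ← map_add, hW0, map_one]
  have kW1 : Θ W10 * Θ A + Θ W11 * Θ C = 0 := by
    rw [← map_mul, ← map_mul, ← map_add, hW1, map_zero]
  have kWx : Θ W00 * tu + Θ W01 * tv = tx := by
    have := congrArg Θ hWx
    rw [map_add, map_mul, map_mul, map_sub, map_sub, map_sub, map_one, ← htu, ← htv, ← htx] at this
    exact this
  have kWy : Θ W10 * tu + Θ W11 * tv = ty := by
    have := congrArg Θ hWy
    rw [map_add, map_mul, map_mul, map_sub, map_sub, map_sub, map_one, ← htu, ← htv, ← hty] at this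
    exact this
  have kJv : Θ C * tx + Θ D * ty = tv := by
    have := congrArg Θ hJv
    rw [map_add, map_mul, map_mul, map_sub, map_sub, map_sub, map_one, ← htx, ← hty, ← htv] at this
    exact this
  obtain ⟨s', hs'⟩ : ∃ s', s' = (X' * Θ W00 - Y' * Θ W10) * tu := ⟨_, rfl⟩
  obtain ⟨s, hs⟩ : ∃ s, s = U * (Θ A * tx) - V * (Θ C * tx) := ⟨_, rfl⟩
  have hss : s' * s = 1 := by
    rw [hs', hs]
    exact ThmDA_alg (Θ A) (Θ C) tx ty tu tv (Θ W00) (Θ W01) (Θ W10) (Θ W11) X' Y' U V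
      hU1 hV1 hX2 hY2 kW0 kW1 kWx kWy
  -- leading coefficients
  have hlc : s'.leadingCoeff * s.leadingCoeff = 1 := by
    rw [← leadingCoeff_mul, hss, leadingCoeff_one]
  have hlc2 : s.leadingCoeff ≠ 0 := by
    intro h0
    rw [h0, mul_zero] at hlc
    exact zero_ne_one hlc
  -- the augmentation of s
  have hphi : ThmDA_phi s = ThmDA_phi (Θ (A + D - 1)) := by
    have px : ThmDA_phi tx = ThmDA_phi tu := by
      rw [htx, htu, map_sub, map_sub, hΘ, ThmDA_theta_gr, ThmDA_theta_gr, ThmDA_phi_single,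
        ThmDA_phi_single, hx]
    have py : ThmDA_phi ty = ThmDA_phi tv := by
      rw [hty, htv, map_sub, map_sub, hΘ, ThmDA_theta_gr, ThmDA_theta_gr, ThmDA_phi_single,
        ThmDA_phi_single, hy]
    have e1 : ThmDA_phi U * ThmDA_phi tu = 1 := by rw [← map_mul, hU2, map_one]
    have e2 : ThmDA_phi V * ThmDA_phi tv = 1 := by rw [← map_mul, hV2, map_one]
    have e3 : ThmDA_phi (Θ C) * ThmDA_phi tu + ThmDA_phi (Θ D) * ThmDA_phi tv = ThmDA_phi tv := by
      rw [← px]
      nth_rewrite 1 [← py]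
      rw [← map_mul, ← map_mul, ← map_add, kJv]
    rw [hs, map_sub, map_mul, map_mul, map_mul, map_mul, px, map_sub, map_add, map_sub, map_add,
      map_one, map_one]
    exact ThmDA_alg2 _ _ _ _ _ _ _ e1 e2 e3
  have haug : ∀ d, ThmDA_aug (s.coeff d) = if d = z then 1 else 0 := by
    intro d
    rw [← ThmDA_phi_coeff, hphi, ThmDA_phi_coeff]
    exact hP d
  -- s.leadingCoeff is a group element
  obtain ⟨c, n, hc, hn⟩ : ∃ (g : G) (n : ℤ), s.leadingCoeff = MonoidAlgebra.single g n ∧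
      (n = 1 ∨ n = -1) := by
    have hcomm : s.leadingCoeff * s'.leadingCoeff = 1 := by
      have h1 : s.leadingCoeff * (s'.leadingCoeff * s.leadingCoeff) = s.leadingCoeff * 1 := by
        rw [hlc]
      rw [mul_one, ← mul_assoc] at h1
      have h2 : (s.leadingCoeff * s'.leadingCoeff - 1) * s.leadingCoeff = 0 := by
        rw [sub_mul, h1, one_mul, sub_self]
      rcases mul_eq_zero.mp h2 with h3 | h3
      · exact sub_eq_zero.mp h3
      · exact absurd h3 hlc2
    exact ThmDA_unit _ _ hcomm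
  have hord : s.coeff s.order = MonoidAlgebra.single c n := by
    rw [← leadingCoeff_eq, hc]
  have hz : s.order = z ∧ n = 1 := by
    have h1 := haug s.order
    rw [hord, ThmDA_aug_single] at h1
    by_cases h2 : s.order = z
    · rw [if_pos h2] at h1
      exact ⟨h2, h1⟩
    · rw [if_neg h2] at h1
      rcases hn with h3 | h3 <;> omega
  refine ⟨U * (Θ A * tx), V * (Θ C * tx), ?_, ?_, ?_, c, ?_⟩
  · rw [← mul_assoc, hU1, one_mul, map_mul, map_sub, map_one, htx]
  · rw [← mul_assoc, hV1, one_mul, map_mul, map_sub, map_one, htx]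
  · intro d hd
    rw [← coeff_sub, ← hs]
    exact coeff_eq_zero_of_lt_order (by rw [hz.1]; exact hd)
  · rw [← coeff_sub, ← hs, ← hz.1, hord, hz.2]
    rfl

end T

end SclIso
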