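import Pool.Agent.H.MP_1b0e60_al.ThmDA_Series

/-!
Part of ThmDA: the dichotomy in the group ring.
-/

open HahnSeries

namespace SclIso

section P

variable {G : Type*} [Group G]

theorem ThmDA_aug_coeff {Γ : Type*} [AddCommGroup Γ] [LinearOrder Γ] [IsOrderedAddMonoid Γ]
    (δ : G →* Multiplicative Γ) (τ : MonoidAlgebra ℤ G) (a : Γ) :
    ThmDA_aug ((ThmDA_theta δ τ).coeff a)
      = (MonoidAlgebra.mapDomain δ τ).coeff (Multiplicative.ofAdd a) := by
  classical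
  induction τ using MonoidAlgebra.induction_linear with
  | zero => simp
  | add x y hx hy =>
    rw [map_add, coeff_add, map_add, hx, hy, MonoidAlgebra.mapDomain_add,
      MonoidAlgebra.coeff_add, Finsupp.add_apply]
  | single g r =>
    have h1 : (ThmDA_theta δ (MonoidAlgebra.single g r)).coeff a
        = if (δ g).toAdd = a then MonoidAlgebra.single g r else 0 := by
      ext h
      rw [ThmDA_theta_coeff, MonoidAlgebra.coeff_single, Finsupp.single_apply]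
      by_cases hgh : g = h
      · subst hgh
        rw [if_pos rfl]
        split_ifs <;> simp
      · rw [if_neg hgh]
        split_ifs <;> simp [hgh]
    rw [h1, MonoidAlgebra.mapDomain_single, MonoidAlgebra.coeff_single, Finsupp.single_apply]
    by_cases h2 : (δ g).toAdd = a
    · rw [if_pos h2, ThmDA_aug_single, if_pos (by rw [← h2]; rfl)]
    · rw [if_neg h2, map_zero, if_neg]
      intro h3
      apply h2
      rw [h3]; rfl

theorem ThmDA_aug_map {H : Type*} [Group H] (f : G →* H) (τ : MonoidAlgebra ℤ G) :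
    ThmDA_aug (MonoidAlgebra.mapDomain f τ) = ThmDA_aug τ := by
  induction τ using MonoidAlgebra.induction_linear with
  | zero => simp
  | add x y hx hy => rw [MonoidAlgebra.mapDomain_add, map_add, map_add, hx, hy]
  | single g r => rw [MonoidAlgebra.mapDomain_single, ThmDA_aug_single, ThmDA_aug_single]

/-- degrees -/
abbrev ThmDA_Z2 := Multiplicative (ℤ × ℤ)

theorem ThmDA_P (Δ : G →* ThmDA_Z2) (x y u v : G) (hx : Δ x = Δ u) (hy : Δ y = Δ v)
    (hx1 : Δ u ≠ 1) (hy1 : Δ v ≠ 1)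
    (A B C D W00 W01 W10 W11 : MonoidAlgebra ℤ G)
    (hJu : A * (ThmDA_gr x - 1) + B * (ThmDA_gr y - 1) = ThmDA_gr u - 1)
    (hJv : C * (ThmDA_gr x - 1) + D * (ThmDA_gr y - 1) = ThmDA_gr v - 1)
    (h00 : W00 * A + W01 * C = 1) (h01 : W00 * B + W01 * D = 0)
    (h10 : W10 * A + W11 * C = 0) (h11 : W10 * B + W11 * D = 1)
    (hA : ThmDA_aug A = 1) (hD : ThmDA_aug D = 1) :
    ∃ z : ThmDA_Z2, MonoidAlgebra.mapDomain Δ (A + D - 1) = MonoidAlgebra.single z 1 := by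
  obtain ⟨m, hm⟩ : ∃ m, m = MonoidAlgebra.mapDomainRingHom ℤ Δ := ⟨_, rfl⟩
  have hm1 : ∀ τ, m τ = MonoidAlgebra.mapDomain Δ τ := by intro τ; rw [hm]; rfl
  have hgr : ∀ g, m (ThmDA_gr g) = ThmDA_gr (Δ g) := by
    intro g
    rw [hm1]
    exact MonoidAlgebra.mapDomain_single
  obtain ⟨X, hX⟩ : ∃ X, X = (ThmDA_gr (Δ u) - 1 : MonoidAlgebra ℤ ThmDA_Z2) := ⟨_, rfl⟩
  obtain ⟨Y, hY⟩ : ∃ Y, Y = (ThmDA_gr (Δ v) - 1 : MonoidAlgebra ℤ ThmDA_Z2) := ⟨_, rfl⟩
  have grne : ∀ t : ThmDA_Z2, t ≠ 1 → (ThmDA_gr t - 1 : MonoidAlgebra ℤ ThmDA_Z2) ≠ 0 := by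
    intro t ht h0
    have h1 : ThmDA_gr t = ThmDA_gr (1 : ThmDA_Z2) := by
      rw [ThmDA_gr_one]; exact sub_eq_zero.mp h0
    have h2 := congrArg (fun w : MonoidAlgebra ℤ ThmDA_Z2 => w.coeff t) h1
    simp only [ThmDA_gr, MonoidAlgebra.coeff_single, Finsupp.single_eq_same] at h2
    rw [Finsupp.single_apply, if_neg (Ne.symm ht)] at h2
    exact one_ne_zero h2
  have hX0 : X ≠ 0 := by rw [hX]; exact grne _ hx1
  have hY0 : Y ≠ 0 := by rw [hY]; exact grne _ hy1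
  have kx : m (ThmDA_gr x) - 1 = X := by rw [hgr, hx, hX]
  have ky : m (ThmDA_gr y) - 1 = Y := by rw [hgr, hy, hY]
  have ku : m (ThmDA_gr u) - 1 = X := by rw [hgr, hX]
  have kv : m (ThmDA_gr v) - 1 = Y := by rw [hgr, hY]
  have e1 : m A * X + m B * Y = X := by
    have := congrArg m hJu
    rw [map_add, map_mul, map_mul, map_sub, map_sub, map_sub, map_one, kx, ky, ku] at this
    exact this
  have e2 : m C * X + m D * Y = Y := by
    have := congrArg m hJv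
    rw [map_add, map_mul, map_mul, map_sub, map_sub, map_sub, map_one, kx, ky, kv] at this
    exact this
  have k00 : m W00 * m A + m W01 * m C = 1 := by rw [← map_mul, ← map_mul, ← map_add, h00, map_one]
  have k01 : m W00 * m B + m W01 * m D = 0 := by rw [← map_mul, ← map_mul, ← map_add, h01, map_zero]
  have k10 : m W10 * m A + m W11 * m C = 0 := by rw [← map_mul, ← map_mul, ← map_add, h10, map_zero]
  have k11 : m W10 * m B + m W11 * m D = 1 := by rw [← map_mul, ← map_mul, ← map_add, h11, map_one]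
  have hdet : (m A * m D - m B * m C) * (m W00 * m W11 - m W01 * m W10) = 1 := by
    linear_combination (m W10 * m B + m W11 * m D) * k00 + k11
      - (m W10 * m A + m W11 * m C) * k01
  have hPdet : m A * m D - m B * m C = m A + m D - 1 := by
    have h1 : (m A * m D - m B * m C - (m A + m D - 1)) * (X * Y) = 0 := by
      linear_combination (-(m C * X)) * e1 + (m A * X - X) * e2
    rcases mul_eq_zero.mp h1 with h2 | h2
    · exact sub_eq_zero.mp h2
    · exact absurd h2 (mul_ne_zero hX0 hY0)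
  rw [hPdet] at hdet
  obtain ⟨z, n, h1, h2⟩ := ThmDA_unit _ _ hdet
  have h3 : MonoidAlgebra.mapDomain Δ (A + D - 1) = MonoidAlgebra.single z n := by
    rw [← hm1, map_sub, map_add, map_one]; exact h1
  have h4 : n = 1 := by
    have := congrArg ThmDA_aug h3
    rw [ThmDA_aug_map, map_sub, map_add, map_one, hA, hD, ThmDA_aug_single] at this
    linarith
  exact ⟨z, by rw [h3, h4]⟩

end P

section Comb

variable {G : Type*} [Group G]

/-- solution of the recursion -/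
def ThmDA_Sol (Δ : G →* ThmDA_Z2) (g : G) (E : ℤ × ℤ) (τ : MonoidAlgebra ℤ G) (s : ℤ)
    (F : ℤ × ℤ → MonoidAlgebra ℤ G) : Prop :=
  (∀ d h, (ThmDA_gr g * F (d - E) - F d).coeff h = if (Δ h).toAdd = d then τ.coeff h else 0) ∧
    ∀ d, ∃ N : ℕ, ∀ n : ℕ, N ≤ n → F (d - ((n : ℤ) * s) • E) = 0

theorem ThmDA_iter (g : G) (E : ℤ × ℤ) (D : ℤ × ℤ → MonoidAlgebra ℤ G)
    (h : ∀ d, ThmDA_gr g * D (d - E) = D d) (m : ℤ) :
    ∀ d, ThmDA_gr (g ^ m) * D (d - m • E) = D d := by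
  induction m using Int.induction_on with
  | zero => intro d; simp [ThmDA_gr_one]
  | succ m ih =>
    intro d
    have h1 := h (d - (m : ℤ) • E)
    have e : d - ((m : ℤ) + 1) • E = d - (m : ℤ) • E - E := by rw [add_smul, one_smul]; abel
    rw [e, zpow_add_one, ThmDA_gr_mul, mul_assoc, h1, ih]
  | pred m ih =>
    intro d
    have h1 := h (d - (-(m : ℤ) - 1) • E)
    have e : d - (-(m : ℤ) - 1) • E - E = d - (-(m : ℤ)) • E := by
      rw [sub_smul, one_smul]; abel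
    rw [← h1, e, ← mul_assoc, ← ThmDA_gr_mul, zpow_sub_one, inv_mul_cancel_right]
    exact ih d

theorem ThmDA_hom (Δ : G →* ThmDA_Z2) (g : G) (E : ℤ × ℤ) (τ : MonoidAlgebra ℤ G) (s s' : ℤ)
    (F F' : ℤ × ℤ → MonoidAlgebra ℤ G) (h : ThmDA_Sol Δ g E τ s F)
    (h' : ThmDA_Sol Δ g E τ s' F') (d : ℤ × ℤ) :
    ThmDA_gr g * (F (d - E) - F' (d - E)) = F d - F' d := by
  rw [mul_sub]
  have h2 : ThmDA_gr g * F (d - E) - F d = ThmDA_gr g * F' (d - E) - F' d := by
    ext t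
    rw [h.1, h'.1]
  exact sub_eq_sub_iff_sub_eq_sub.mp h2

theorem ThmDA_uniq (Δ : G →* ThmDA_Z2) (g : G) (E : ℤ × ℤ) (τ : MonoidAlgebra ℤ G) (s : ℤ)
    (F F' : ℤ × ℤ → MonoidAlgebra ℤ G) (h : ThmDA_Sol Δ g E τ s F)
    (h' : ThmDA_Sol Δ g E τ s F') : F = F' := by
  funext d
  have h1 := ThmDA_hom Δ g E τ s s F F' h h'
  obtain ⟨N, hN⟩ := h.2 d
  obtain ⟨N', hN'⟩ := h'.2 d
  have h2 : ThmDA_gr (g ^ (((max N N' : ℕ) : ℤ) * s)) *
      (F (d - (((max N N' : ℕ) : ℤ) * s) • E) - F' (d - (((max N N' : ℕ) : ℤ) * s) • E))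
      = F d - F' d := ThmDA_iter g E (fun d => F d - F' d) h1 (((max N N' : ℕ) : ℤ) * s) d
  rw [hN _ (le_max_left _ _), hN' _ (le_max_right _ _), sub_zero, mul_zero] at h2
  exact sub_eq_zero.mp h2.symm

theorem ThmDA_solSeries {Γ : Type*} [AddCommGroup Γ] [LinearOrder Γ] [IsOrderedAddMonoid Γ]
    (Δ : G →* ThmDA_Z2) (ι : ℤ × ℤ →+ Γ) (hι : Function.Injective ι) (δ : G →* Multiplicative Γ)
    (hδ : ∀ g, (δ g).toAdd = ι (Δ g).toAdd)
    (g : G) (E : ℤ × ℤ) (hg : (Δ g).toAdd = E) (τ : MonoidAlgebra ℤ G) (s : ℤ)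
    (hs : 0 < ι (s • E)) (f : HahnSeries Γ (MonoidAlgebra ℤ G))
    (hf : (ThmDA_theta δ (ThmDA_gr g) - 1) * f = ThmDA_theta δ τ) :
    ThmDA_Sol Δ g E τ s (fun d => f.coeff (ι d)) := by
  constructor
  · intro d h
    have h1 : (((ThmDA_theta δ (ThmDA_gr g) - 1) * f).coeff (ι d)).coeff h
        = ((ThmDA_theta δ τ).coeff (ι d)).coeff h := by rw [hf]
    rw [ThmDA_theta_coeff, ThmDA_theta_gr, sub_mul, one_mul, coeff_sub, hδ, hg, hδ] at h1
    have e : ι d = ι (d - E) + ι E := by rw [← map_add]; congr 1; abel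
    have h2 : (single (ι E) (ThmDA_gr g) * f).coeff (ι d) = ThmDA_gr g * f.coeff (ι (d - E)) := by
      rw [e, coeff_single_mul_add]
    rw [h2] at h1
    rw [h1]
    by_cases h3 : (Δ h).toAdd = d
    · rw [if_pos h3, if_pos (by rw [h3])]
    · rw [if_neg h3, if_neg (fun h4 => h3 (hι h4))]
  · intro d
    obtain ⟨N, hN⟩ := ThmDA_eventually_zero f (fun n : ℕ => ι (d - ((n : ℤ) * s) • E)) (by
      intro a b hab
      have h1 : ι (d - ((b : ℤ) * s) • E) = ι (d - ((a : ℤ) * s) • E) - ((b - a : ℕ)) • ι (s • E) := by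
        rw [← map_nsmul, ← map_sub]
        congr 1
        have h2 : ((b : ℤ) * s) • E = ((a : ℤ) * s) • E + (b - a) • (s • E) := by
          rw [← natCast_zsmul, smul_smul, ← add_smul]
          congr 1
          push_cast [Nat.cast_sub hab.le]
          ring
        rw [h2]
        abel
      show ι (d - ((b : ℤ) * s) • E) < ι (d - ((a : ℤ) * s) • E)
      rw [h1]
      exact sub_lt_self _ (nsmul_pos hs (by omega)))
    exact ⟨N, hN⟩

/-- conclusion of the dichotomy -/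
def ThmDA_Tele (g : G) (τ : MonoidAlgebra ℤ G) : Prop :=
  ∃ k : G → ℤ, (∀ h, k (g⁻¹ * h) - k h = τ.coeff h) ∧
    ∀ h, ∃ N : ℕ, ∀ n : ℤ, N ≤ n.natAbs → k (g ^ n * h) = 0

theorem ThmDA_tele (Δ : G →* ThmDA_Z2) (g : G) (E : ℤ × ℤ) (hg : (Δ g).toAdd = E)
    (τ : MonoidAlgebra ℤ G)
    (F : ℤ × ℤ → MonoidAlgebra ℤ G) (h : ThmDA_Sol Δ g E τ 1 F)
    (h' : ThmDA_Sol Δ g E τ (-1) F) : ThmDA_Tele g τ := by
  refine ⟨fun h => (F (Δ h).toAdd).coeff h, fun t => ?_, fun t => ?_⟩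
  · have h1 := h.1 (Δ t).toAdd t
    rw [if_pos rfl] at h1
    rw [← h1, MonoidAlgebra.coeff_sub, Finsupp.sub_apply]
    congr 1
    show (F (Δ (g⁻¹ * t)).toAdd).coeff (g⁻¹ * t) = _
    have e : (Δ (g⁻¹ * t)).toAdd = (Δ t).toAdd - E := by
      rw [map_mul, map_inv, toAdd_mul, toAdd_inv, hg]; abel
    rw [e]
    unfold ThmDA_gr
    rw [MonoidAlgebra.coeff_single_mul_apply, one_mul]
  · obtain ⟨N, hN⟩ := h.2 (Δ t).toAdd
    obtain ⟨N', hN'⟩ := h'.2 (Δ t).toAdd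
    refine ⟨max N N', fun n hn => ?_⟩
    show (F (Δ (g ^ n * t)).toAdd).coeff (g ^ n * t) = 0
    have h2 : (Δ (g ^ n * t)).toAdd = (Δ t).toAdd + n • E := by
      rw [map_mul, map_zpow, toAdd_mul, toAdd_zpow, hg]; abel
    rw [h2]
    rcases le_total 0 n with h0 | h0
    · have h3 := hN' n.natAbs (le_trans (le_max_right _ _) hn)
      have h4 : (Δ t).toAdd - (((n.natAbs : ℕ) : ℤ) * -1) • E = (Δ t).toAdd + n • E := by
        have : ((n.natAbs : ℕ) : ℤ) = n := by omega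
        rw [this, mul_neg, mul_one, neg_smul]; abel
      rw [h4] at h3
      rw [h3]; rfl
    · have h3 := hN n.natAbs (le_trans (le_max_left _ _) hn)
      have h4 : (Δ t).toAdd - (((n.natAbs : ℕ) : ℤ) * 1) • E = (Δ t).toAdd + n • E := by
        have : ((n.natAbs : ℕ) : ℤ) = -n := by omega
        rw [this, mul_one, neg_smul]; abel
      rw [h4] at h3
      rw [h3]; rfl

section Key

variable [TwoUniqueProds G] (Δ : G →* ThmDA_Z2) (x y u v : G)
    (hx : (Δ x).toAdd = (1, 0)) (hu : (Δ u).toAdd = (1, 0))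
    (hy : (Δ y).toAdd = (0, 1)) (hv : (Δ v).toAdd = (0, 1))
    (A C D W00 W01 W10 W11 : MonoidAlgebra ℤ G)
    (hJv : C * (ThmDA_gr x - 1) + D * (ThmDA_gr y - 1) = ThmDA_gr v - 1)
    (hW0 : W00 * A + W01 * C = 1) (hW1 : W10 * A + W11 * C = 0)
    (hWx : W00 * (ThmDA_gr u - 1) + W01 * (ThmDA_gr v - 1) = ThmDA_gr x - 1)
    (hWy : W10 * (ThmDA_gr u - 1) + W11 * (ThmDA_gr v - 1) = ThmDA_gr y - 1)
    (z : ThmDA_Z2) (hP : MonoidAlgebra.mapDomain Δ (A + D - 1) = MonoidAlgebra.single z 1)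

include hx hu hy hv hJv hW0 hW1 hWx hWy hP in
theorem ThmDA_key1 {Γ : Type*} [AddCommGroup Γ] [LinearOrder Γ] [IsOrderedAddMonoid Γ]
    (ι : ℤ × ℤ →+ Γ) (hι : Function.Injective ι) (s1 s2 : ℤ)
    (h1 : 0 < ι (s1 • ((1, 0) : ℤ × ℤ))) (h2 : 0 < ι (s2 • ((0, 1) : ℤ × ℤ))) :
    ∃ Fu Fv : ℤ × ℤ → MonoidAlgebra ℤ G,
      ThmDA_Sol Δ u (1, 0) (A * (ThmDA_gr x - 1)) s1 Fu ∧
      ThmDA_Sol Δ v (0, 1) (C * (ThmDA_gr x - 1)) s2 Fv ∧
      (∀ d, ι d < ι z.toAdd → Fu d = Fv d) ∧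
      ∃ c : G, Fu z.toAdd - Fv z.toAdd = ThmDA_gr c := by
  classical
  obtain ⟨δ, hδ⟩ : ∃ δ : G →* Multiplicative Γ, ∀ g, (δ g).toAdd = ι (Δ g).toAdd :=
    ⟨(AddMonoidHom.toMultiplicative ι).comp Δ, fun g => rfl⟩
  have ι0 : ∀ d, ι d = 0 → d = 0 := fun d hd => hι (by rw [hd, map_zero])
  have hxu : δ x = δ u := by
    apply Multiplicative.toAdd.injective
    rw [hδ, hδ, hx, hu]
  have hyv : δ y = δ v := by
    apply Multiplicative.toAdd.injective
    rw [hδ, hδ, hy, hv]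
  have ha : (δ u).toAdd ≠ 0 := by
    rw [hδ, hu]
    intro h
    have := ι0 _ h
    simp at this
  have hb : (δ v).toAdd ≠ 0 := by
    rw [hδ, hv]
    intro h
    have := ι0 _ h
    simp at this
  have hPP : ∀ d, ThmDA_aug ((ThmDA_theta δ (A + D - 1)).coeff d)
      = if d = ι z.toAdd then 1 else 0 := by
    intro d
    rw [ThmDA_aug_coeff]
    have e : MonoidAlgebra.mapDomain δ (A + D - 1)
        = MonoidAlgebra.mapDomain (AddMonoidHom.toMultiplicative ι)
          (MonoidAlgebra.mapDomain Δ (A + D - 1)) := by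
      apply MonoidAlgebra.coeff_injective
      show Finsupp.mapDomain δ _ = Finsupp.mapDomain _ (Finsupp.mapDomain Δ _)
      rw [← Finsupp.mapDomain_comp]
      have hfun : (δ : G → Multiplicative Γ) = (AddMonoidHom.toMultiplicative ι) ∘ Δ :=
        funext fun g => hδ g
      rw [hfun]
    rw [e, hP, MonoidAlgebra.mapDomain_single, MonoidAlgebra.coeff_single, Finsupp.single_apply]
    by_cases h3 : d = ι z.toAdd
    · rw [if_pos h3, if_pos (by rw [h3]; rfl)]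
    · rw [if_neg h3, if_neg]
      intro h4
      apply h3
      have := congrArg Multiplicative.toAdd h4
      exact this.symm
  obtain ⟨fu, fv, k1, k2, k3, c, k4⟩ := ThmDA_T δ x y u v hxu hyv ha hb A C D W00 W01 W10 W11
    hJv hW0 hW1 hWx hWy (ι z.toAdd) hPP
  refine ⟨fun d => fu.coeff (ι d), fun d => fv.coeff (ι d),
    ThmDA_solSeries Δ ι hι δ hδ u _ hu _ s1 h1 fu k1,
    ThmDA_solSeries Δ ι hι δ hδ v _ hv _ s2 h2 fv k2, fun d hd => sub_eq_zero.mp (k3 _ hd), c, k4⟩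

/-- lexicographic order, first kind -/
def ThmDA_i1 (s1 s2 : ℤ) : ℤ × ℤ →+ Lex (ℤ × ℤ) where
  toFun d := toLex (s1 * d.1, s2 * d.2)
  map_zero' := by simp
  map_add' a b := by
    rw [Prod.fst_add, Prod.snd_add, mul_add, mul_add]; rfl

/-- lexicographic order, second kind -/
def ThmDA_i2 (s1 s2 : ℤ) : ℤ × ℤ →+ Lex (ℤ × ℤ) where
  toFun d := toLex (s2 * d.2, s1 * d.1)
  map_zero' := by simp
  map_add' a b := by
    rw [Prod.fst_add, Prod.snd_add, mul_add, mul_add]; rfl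

theorem ThmDA_i1_inj (s1 s2 : ℤ) (h1 : s1 = 1 ∨ s1 = -1) (h2 : s2 = 1 ∨ s2 = -1) :
    Function.Injective (ThmDA_i1 s1 s2) := by
  intro a b hab
  have h := congrArg (fun w : Lex (ℤ × ℤ) => ofLex w) hab
  have h3 : ((s1 * a.1, s2 * a.2) : ℤ × ℤ) = (s1 * b.1, s2 * b.2) := h
  rw [Prod.mk.injEq] at h3
  ext
  · rcases h1 with rfl | rfl <;> omega
  · rcases h2 with rfl | rfl <;> omega

theorem ThmDA_i2_inj (s1 s2 : ℤ) (h1 : s1 = 1 ∨ s1 = -1) (h2 : s2 = 1 ∨ s2 = -1) :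
    Function.Injective (ThmDA_i2 s1 s2) := by
  intro a b hab
  have h := congrArg (fun w : Lex (ℤ × ℤ) => ofLex w) hab
  have h3 : ((s2 * a.2, s1 * a.1) : ℤ × ℤ) = (s2 * b.2, s1 * b.1) := h
  rw [Prod.mk.injEq] at h3
  ext
  · rcases h1 with rfl | rfl <;> omega
  · rcases h2 with rfl | rfl <;> omega

theorem ThmDA_i1_lt (s1 s2 : ℤ) (a b : ℤ × ℤ) :
    ThmDA_i1 s1 s2 a < ThmDA_i1 s1 s2 b ↔
      s1 * a.1 < s1 * b.1 ∨ s1 * a.1 = s1 * b.1 ∧ s2 * a.2 < s2 * b.2 :=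
  Prod.Lex.toLex_lt_toLex

theorem ThmDA_i2_lt (s1 s2 : ℤ) (a b : ℤ × ℤ) :
    ThmDA_i2 s1 s2 a < ThmDA_i2 s1 s2 b ↔
      s2 * a.2 < s2 * b.2 ∨ s2 * a.2 = s2 * b.2 ∧ s1 * a.1 < s1 * b.1 :=
  Prod.Lex.toLex_lt_toLex

include hx hu hy hv hJv hW0 hW1 hWx hWy hP in
theorem ThmDA_key2 (s1 s2 : ℤ) (h1 : s1 = 1 ∨ s1 = -1) (h2 : s2 = 1 ∨ s2 = -1) :
    ∃ Fu Fv : ℤ × ℤ → MonoidAlgebra ℤ G,
      ThmDA_Sol Δ u (1, 0) (A * (ThmDA_gr x - 1)) s1 Fu ∧
      ThmDA_Sol Δ v (0, 1) (C * (ThmDA_gr x - 1)) s2 Fv ∧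
      (∀ d : ℤ × ℤ, Fu d ≠ Fv d → s1 * z.toAdd.1 ≤ s1 * d.1 ∧ s2 * z.toAdd.2 ≤ s2 * d.2) ∧
      ∃ c : G, Fu z.toAdd - Fv z.toAdd = ThmDA_gr c := by
  have e0 : ∀ (i : ℤ × ℤ →+ Lex (ℤ × ℤ)) (d : ℤ × ℤ), i 0 < i d → 0 < i d := by
    intro i d h
    rwa [map_zero] at h
  obtain ⟨Fu, Fv, a1, a2, a3, a4⟩ := ThmDA_key1 Δ x y u v hx hu hy hv A C D W00 W01 W10 W11
    hJv hW0 hW1 hWx hWy z hP (ThmDA_i1 s1 s2) (ThmDA_i1_inj s1 s2 h1 h2) s1 s2
    (by
      apply e0
      rw [ThmDA_i1_lt]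
      left
      rcases h1 with rfl | rfl <;> simp)
    (by
      apply e0
      rw [ThmDA_i1_lt]
      right
      rcases h2 with rfl | rfl <;> simp)
  obtain ⟨Fu', Fv', b1, b2, b3, b4⟩ := ThmDA_key1 Δ x y u v hx hu hy hv A C D W00 W01 W10 W11
    hJv hW0 hW1 hWx hWy z hP (ThmDA_i2 s1 s2) (ThmDA_i2_inj s1 s2 h1 h2) s1 s2
    (by
      apply e0
      rw [ThmDA_i2_lt]
      right
      rcases h1 with rfl | rfl <;> simp)
    (by
      apply e0
      rw [ThmDA_i2_lt]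
      left
      rcases h2 with rfl | rfl <;> simp)
  have u1 : Fu = Fu' := ThmDA_uniq _ _ _ _ _ _ _ a1 b1
  have u2 : Fv = Fv' := ThmDA_uniq _ _ _ _ _ _ _ a2 b2
  subst u1
  subst u2
  refine ⟨Fu, Fv, a1, a2, fun d hd => ?_, a4⟩
  have c1 : ¬ ThmDA_i1 s1 s2 d < ThmDA_i1 s1 s2 z.toAdd := fun h => hd (a3 d h)
  have c2 : ¬ ThmDA_i2 s1 s2 d < ThmDA_i2 s1 s2 z.toAdd := fun h => hd (b3 d h)
  rw [ThmDA_i1_lt] at c1
  rw [ThmDA_i2_lt] at c2
  omega

include hx hu hy hv hJv hW0 hW1 hWx hWy hP in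
theorem ThmDA_dichotomy :
    ThmDA_Tele u (A * (ThmDA_gr x - 1)) ∨ ThmDA_Tele v (C * (ThmDA_gr x - 1)) := by
  classical
  have key := ThmDA_key2 Δ x y u v hx hu hy hv A C D W00 W01 W10 W11 hJv hW0 hW1 hWx hWy z hP
  obtain ⟨ap, bp, p1, p2, p3, cpp, p4⟩ := key 1 1 (Or.inl rfl) (Or.inl rfl)
  obtain ⟨ap', bm, q1, q2, q3, cpm, q4⟩ := key 1 (-1) (Or.inl rfl) (Or.inr rfl)
  obtain ⟨am, bp', r1, r2, r3, cmp, r4⟩ := key (-1) 1 (Or.inr rfl) (Or.inl rfl)
  obtain ⟨am', bm', t1, t2, t3, cmm, t4⟩ := key (-1) (-1) (Or.inr rfl) (Or.inr rfl)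
  have u1 : ap = ap' := ThmDA_uniq _ _ _ _ _ _ _ p1 q1
  have u2 : am = am' := ThmDA_uniq _ _ _ _ _ _ _ r1 t1
  have u3 : bp = bp' := ThmDA_uniq _ _ _ _ _ _ _ p2 r2
  have u4 : bm = bm' := ThmDA_uniq _ _ _ _ _ _ _ q2 t2
  subst u1
  subst u2
  subst u3
  subst u4
  have e1 : ThmDA_gr cpp + ThmDA_gr cmm = ThmDA_gr cpm + ThmDA_gr cmp := by
    rw [← p4, ← q4, ← r4, ← t4]; abel
  have e2 : cpm = cpp ∨ cmp = cpp := by
    have h := congrArg (fun w : MonoidAlgebra ℤ G => w.coeff cpp) e1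
    simp only [ThmDA_gr, MonoidAlgebra.coeff_add, Finsupp.add_apply, MonoidAlgebra.coeff_single,
      Finsupp.single_apply, if_true] at h
    by_contra hcon
    rw [not_or] at hcon
    rw [if_neg hcon.1, if_neg hcon.2] at h
    split_ifs at h <;> omega
  rcases e2 with e2 | e2
  · right
    rw [e2] at q4
    have hz : bp z.toAdd - bm z.toAdd = 0 := by
      have h1 : bp z.toAdd - bm z.toAdd = (ap z.toAdd - bm z.toAdd) - (ap z.toAdd - bp z.toAdd) := by
        abel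
      rw [h1, p4, q4, sub_self]
    have hEq : bp = bm := by
      funext d
      by_cases hd : d.1 = z.toAdd.1
      · have h3 := ThmDA_iter v (0, 1) (fun d => bp d - bm d)
          (ThmDA_hom Δ v _ _ _ _ bp bm p2 q2) (d.2 - z.toAdd.2) d
        have h4 : d - (d.2 - z.toAdd.2) • ((0, 1) : ℤ × ℤ) = z.toAdd := by
          ext
          · simp [hd]
          · simp
        rw [h4] at h3
        have h5 : ThmDA_gr (v ^ (d.2 - z.toAdd.2)) * (bp z.toAdd - bm z.toAdd) = bp d - bm d := h3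
        rw [hz, mul_zero] at h5
        exact sub_eq_zero.mp h5.symm
      · rcases lt_or_gt_of_ne hd with h | h
        · have k1 : ap d = bp d := by
            by_contra hc
            have := (p3 d hc).1
            omega
          have k2 : ap d = bm d := by
            by_contra hc
            have := (q3 d hc).1
            omega
          rw [← k1, ← k2]
        · have k1 : am d = bp d := by
            by_contra hc
            have := (r3 d hc).1
            omega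
          have k2 : am d = bm d := by
            by_contra hc
            have := (t3 d hc).1
            omega
          rw [← k1, ← k2]
    subst hEq
    exact ThmDA_tele Δ v (0, 1) hv _ bp p2 q2
  · left
    rw [e2] at r4
    have hz : ap z.toAdd - am z.toAdd = 0 := by
      have h1 : ap z.toAdd - am z.toAdd = (ap z.toAdd - bp z.toAdd) - (am z.toAdd - bp z.toAdd) := by
        abel
      rw [h1, p4, r4, sub_self]
    have hEq : ap = am := by
      funext d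
      by_cases hd : d.2 = z.toAdd.2
      · have h3 := ThmDA_iter u (1, 0) (fun d => ap d - am d)
          (ThmDA_hom Δ u _ _ _ _ ap am p1 r1) (d.1 - z.toAdd.1) d
        have h4 : d - (d.1 - z.toAdd.1) • ((1, 0) : ℤ × ℤ) = z.toAdd := by
          ext
          · simp
          · simp [hd]
        rw [h4] at h3
        have h5 : ThmDA_gr (u ^ (d.1 - z.toAdd.1)) * (ap z.toAdd - am z.toAdd) = ap d - am d := h3
        rw [hz, mul_zero] at h5
        exact sub_eq_zero.mp h5.symm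
      · rcases lt_or_gt_of_ne hd with h | h
        · have k1 : ap d = bp d := by
            by_contra hc
            have := (p3 d hc).2
            omega
          have k2 : am d = bp d := by
            by_contra hc
            have := (r3 d hc).2
            omega
          rw [k1, k2]
        · have k1 : ap d = bm d := by
            by_contra hc
            have := (q3 d hc).2
            omega
          have k2 : am d = bm d := by
            by_contra hc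
            have := (t3 d hc).2
            omega
          rw [k1, k2]
    subst hEq
    exact ThmDA_tele Δ u (1, 0) hu _ ap p1 r1

end Key

end Comb

end SclIso
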